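import Mathlib

/-!
# One-dimensional inequalities for the areas of projections
-/

set_option autoImplicit false

open MeasureTheory Set

namespace Q189.AR

/-- convex functions on the unit interval with values in the unit interval and with a zero -/
structure Good (α : ℝ → ℝ) : Prop where
  cvx : ConvexOn ℝ (Icc 0 1) α
  nonneg : ∀ x ∈ Icc (0:ℝ) 1, 0 ≤ α x
  le_one : ∀ x ∈ Icc (0:ℝ) 1, α x ≤ 1
  zero : ∃ x ∈ Icc (0:ℝ) 1, α x = 0

/-- sublevel sets -/
def sl (α : ℝ → ℝ) (v : ℝ) : Set ℝ := {x | x ∈ Icc (0:ℝ) 1 ∧ α x ≤ v}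

/-- the measure of the superlevel set `{α > 1 - g}` -/
noncomputable def Rf (α : ℝ → ℝ) (g : ℝ) : ℝ :=
  (volume {x | x ∈ Icc (0:ℝ) 1 ∧ 1 - g < α x}).toReal

lemma ord_vol {L : Set ℝ} (hL : L.OrdConnected) (hne : L.Nonempty) (ha : BddAbove L)
    (hb : BddBelow L) : (volume L).toReal = sSup L - sInf L := by
  have h1 : L ⊆ Icc (sInf L) (sSup L) := fun x hx => ⟨csInf_le hb hx, le_csSup ha hx⟩
  have h2 : Ioo (sInf L) (sSup L) ⊆ L := by
    rintro x ⟨hx1, hx2⟩
    obtain ⟨y, hy, hyx⟩ := exists_lt_of_csInf_lt hne hx1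
    obtain ⟨z, hz, hxz⟩ := exists_lt_of_lt_csSup hne hx2
    exact hL.out hy hz ⟨hyx.le, hxz.le⟩
  have h3 := measure_mono (μ := volume) h1
  have h4 := measure_mono (μ := volume) h2
  rw [Real.volume_Icc] at h3
  rw [Real.volume_Ioo] at h4
  have h5 : sInf L ≤ sSup L := Real.sInf_le_sSup L hb ha
  rw [le_antisymm h3 h4, ENNReal.toReal_ofReal (by linarith)]

lemma sl_ord {α : ℝ → ℝ} (hα : ConvexOn ℝ (Icc 0 1) α) (v : ℝ) : (sl α v).OrdConnected := by
  have h := hα.convex_le v
  exact h.ordConnected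

lemma sl_meas {α : ℝ → ℝ} (hα : ConvexOn ℝ (Icc 0 1) α) (v : ℝ) : MeasurableSet (sl α v) :=
  (sl_ord hα v).measurableSet

lemma sup_eq (α : ℝ → ℝ) (v : ℝ) : {x | x ∈ Icc (0:ℝ) 1 ∧ v < α x} = Icc (0:ℝ) 1 \ sl α v := by
  ext x
  simp only [sl, mem_sdiff, mem_ofPred_eq, not_and, not_le]
  constructor
  · rintro ⟨h1, h2⟩
    exact ⟨h1, fun _ => h2⟩
  · rintro ⟨h1, h2⟩
    exact ⟨h1, h2 h1⟩

lemma Rf_eq {α : ℝ → ℝ} (hα : ConvexOn ℝ (Icc 0 1) α) (g : ℝ) :
    Rf α g = 1 - (volume (sl α (1 - g))).toReal := by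
  unfold Rf
  rw [sup_eq, measure_sdiff (fun x hx => hx.1) (sl_meas hα _).nullMeasurableSet
    (measure_ne_top_of_subset (fun x hx => hx.1) (by simp))]
  rw [ENNReal.toReal_sub_of_le (measure_mono fun x hx => hx.1) (by simp)]
  simp

lemma Rf_mono {α : ℝ → ℝ} : Monotone (Rf α) := by
  intro g g' h
  unfold Rf
  apply ENNReal.toReal_mono
  · exact measure_ne_top_of_subset (fun x hx => hx.1) (by simp : volume (Icc (0:ℝ) 1) ≠ ⊤)
  · apply measure_mono
    rintro x ⟨h1, h2⟩
    exact ⟨h1, by linarith⟩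

lemma Rf_nonneg (α : ℝ → ℝ) (g : ℝ) : 0 ≤ Rf α g := ENNReal.toReal_nonneg

lemma Rf_le_one (α : ℝ → ℝ) (g : ℝ) : Rf α g ≤ 1 := by
  unfold Rf
  have : volume {x | x ∈ Icc (0:ℝ) 1 ∧ 1 - g < α x} ≤ volume (Icc (0:ℝ) 1) :=
    measure_mono fun x hx => hx.1
  have h2 := ENNReal.toReal_mono (by simp) this
  simpa using h2

lemma Rf_zero {α : ℝ → ℝ} (hα : Good α) : Rf α 0 = 0 := by
  unfold Rf
  have : {x | x ∈ Icc (0:ℝ) 1 ∧ 1 - 0 < α x} = ∅ := by
    ext x
    simp only [sub_zero, mem_ofPred_eq, mem_empty_iff_false, iff_false, not_and, not_lt]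
    exact hα.le_one x
  rw [this]
  simp

lemma Rf_convex {α : ℝ → ℝ} (hα : Good α) : ConvexOn ℝ (Icc 0 1) (Rf α) := by
  obtain ⟨x0, hx0, hαx0⟩ := hα.zero
  have hne : ∀ v, 0 ≤ v → (sl α v).Nonempty := fun v hv => ⟨x0, hx0, by rw [hαx0]; exact hv⟩
  have hba : ∀ v, BddAbove (sl α v) := fun v => bddAbove_Icc.mono fun x hx => hx.1
  have hbb : ∀ v, BddBelow (sl α v) := fun v => bddBelow_Icc.mono fun x hx => hx.1
  refine ⟨convex_Icc 0 1, ?_⟩
  intro g hg g' hg' s t hs ht hst
  rw [Rf_eq hα.cvx, Rf_eq hα.cvx, Rf_eq hα.cvx]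
  simp only [smul_eq_mul]
  set v := 1 - g with hv
  set v' := 1 - g' with hv'
  have hv0 : 0 ≤ v := by rw [hv]; linarith [hg.2]
  have hv0' : 0 ≤ v' := by rw [hv']; linarith [hg'.2]
  have hvv : 1 - (s * g + t * g') = s * v + t * v' := by
    rw [hv, hv']
    linear_combination -hst
  rw [hvv]
  have hw0 : 0 ≤ s * v + t * v' := by positivity
  rw [ord_vol (sl_ord hα.cvx _) (hne _ hw0) (hba _) (hbb _),
    ord_vol (sl_ord hα.cvx _) (hne _ hv0) (hba _) (hbb _),
    ord_vol (sl_ord hα.cvx _) (hne _ hv0') (hba _) (hbb _)]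
  have hmem : ∀ x ∈ sl α v, ∀ y ∈ sl α v', s * x + t * y ∈ sl α (s * v + t * v') := by
    rintro x ⟨hx, hx'⟩ y ⟨hy, hy'⟩
    refine ⟨(convex_Icc (0:ℝ) 1) hx hy hs ht hst, ?_⟩
    have h1 := hα.cvx.2 hx hy hs ht hst
    simp only [smul_eq_mul] at h1
    have h2 := mul_le_mul_of_nonneg_left hx' hs
    have h3 := mul_le_mul_of_nonneg_left hy' ht
    linarith
  have hsup : s * sSup (sl α v) + t * sSup (sl α v') ≤ sSup (sl α (s * v + t * v')) := by
    have h1 : ∀ x ∈ sl α v, s * x + t * sSup (sl α v') ≤ sSup (sl α (s * v + t * v')) := by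
      intro x hx
      rcases ht.eq_or_lt with h0 | h0
      · obtain ⟨y, hy⟩ := hne v' hv0'
        have := le_csSup (hba _) (hmem x hx y hy)
        rw [← h0] at this ⊢
        simpa using this
      · have h2 : sSup (sl α v') ≤ (sSup (sl α (s * v + t * v')) - s * x) / t := by
          apply csSup_le (hne _ hv0')
          intro y hy
          rw [le_div_iff₀ h0]
          have := le_csSup (hba _) (hmem x hx y hy)
          linarith
        rw [le_div_iff₀ h0] at h2
        linarith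
    rcases hs.eq_or_lt with h0 | h0
    · obtain ⟨x, hx⟩ := hne v hv0
      have := h1 x hx
      rw [← h0] at this ⊢
      simpa using this
    · have h2 : sSup (sl α v) ≤ (sSup (sl α (s * v + t * v')) - t * sSup (sl α v')) / s := by
        apply csSup_le (hne _ hv0)
        intro x hx
        rw [le_div_iff₀ h0]
        have := h1 x hx
        linarith
      rw [le_div_iff₀ h0] at h2
      linarith
  have hinf : sInf (sl α (s * v + t * v')) ≤ s * sInf (sl α v) + t * sInf (sl α v') := by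
    have h1 : ∀ x ∈ sl α v, sInf (sl α (s * v + t * v')) ≤ s * x + t * sInf (sl α v') := by
      intro x hx
      rcases ht.eq_or_lt with h0 | h0
      · obtain ⟨y, hy⟩ := hne v' hv0'
        have := csInf_le (hbb _) (hmem x hx y hy)
        rw [← h0] at this ⊢
        simpa using this
      · have h2 : (sInf (sl α (s * v + t * v')) - s * x) / t ≤ sInf (sl α v') := by
          apply le_csInf (hne _ hv0')
          intro y hy
          rw [div_le_iff₀ h0]
          have := csInf_le (hbb _) (hmem x hx y hy)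
          linarith
        rw [div_le_iff₀ h0] at h2
        linarith
    rcases hs.eq_or_lt with h0 | h0
    · obtain ⟨x, hx⟩ := hne v hv0
      have := h1 x hx
      rw [← h0] at this ⊢
      simpa using this
    · have h2 : (sInf (sl α (s * v + t * v')) - t * sInf (sl α v')) / s ≤ sInf (sl α v) := by
        apply le_csInf (hne _ hv0)
        intro x hx
        rw [div_le_iff₀ h0]
        have := h1 x hx
        linarith
      rw [div_le_iff₀ h0] at h2
      linarith
  have hst' : (1:ℝ) = s * 1 + t * 1 := by linarith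
  nlinarith [hsup, hinf, hst]

/-! ### measurability -/

lemma ind_meas {α : ℝ → ℝ} (hα : ConvexOn ℝ (Icc 0 1) α) :
    Measurable ((Icc (0:ℝ) 1).indicator α) := by
  apply measurable_of_Iic
  intro v
  have : (Icc (0:ℝ) 1).indicator α ⁻¹' Iic v = sl α v ∪ (if 0 ≤ v then (Icc (0:ℝ) 1)ᶜ else ∅) := by
    ext x
    simp only [mem_preimage, mem_Iic, mem_union, sl, mem_ofPred_eq]
    by_cases hx : x ∈ Icc (0:ℝ) 1
    · rw [indicator_of_mem hx]
      constructor
      · intro h; exact Or.inl ⟨hx, h⟩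
      · rintro (h | h)
        · exact h.2
        · split_ifs at h
          · exact absurd hx h
          · exact absurd h (notMem_empty x)
    · rw [indicator_of_notMem hx]
      constructor
      · intro h
        right
        rw [if_pos h]
        exact hx
      · rintro (h | h)
        · exact absurd h.1 hx
        · split_ifs at h with h0
          · exact h0
          · exact absurd h (notMem_empty x)
  rw [this]
  apply (sl_meas hα v).union
  split_ifs
  · exact measurableSet_Icc.compl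
  · exact MeasurableSet.empty

/-- bounded functions which are measurable after multiplication with the indicator -/
lemma int_of_ind {f : ℝ → ℝ} (hf : Measurable ((Icc (0:ℝ) 1).indicator f)) {C : ℝ}
    (hC : ∀ x ∈ Icc (0:ℝ) 1, |f x| ≤ C) : IntegrableOn f (Icc 0 1) := by
  have h1 : Integrable ((Icc (0:ℝ) 1).indicator f) := by
    have hfin : IntegrableOn ((Icc (0:ℝ) 1).indicator f) (Icc 0 1) := by
      refine Measure.integrableOn_of_bounded (by simp) hf.aestronglyMeasurable (M := C) ?_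
      refine (ae_restrict_iff' measurableSet_Icc).2 (Filter.Eventually.of_forall fun x hx => ?_)
      rw [indicator_of_mem hx]
      exact hC x hx
    rw [← integrable_indicator_iff measurableSet_Icc] at hfin
    rwa [indicator_indicator, inter_self] at hfin
  rwa [integrable_indicator_iff measurableSet_Icc] at h1

lemma ii_of_on {f : ℝ → ℝ} (hf : IntegrableOn f (Icc 0 1)) {a b : ℝ} (ha : a ∈ Icc (0:ℝ) 1)
    (hb : b ∈ Icc (0:ℝ) 1) : IntervalIntegrable f volume a b := by
  rw [intervalIntegrable_iff]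
  exact hf.mono_set (uIoc_subset_uIcc.trans (uIcc_subset_Icc ha hb))

lemma cvx_int {α : ℝ → ℝ} (hα : ConvexOn ℝ (Icc 0 1) α) {C : ℝ}
    (hC : ∀ x ∈ Icc (0:ℝ) 1, |α x| ≤ C) : IntegrableOn α (Icc 0 1) :=
  int_of_ind (ind_meas hα) hC

lemma comp_int {α : ℝ → ℝ} (hα : ConvexOn ℝ (Icc 0 1) α)
    (h0 : ∀ x ∈ Icc (0:ℝ) 1, 0 ≤ α x) (h1 : ∀ x ∈ Icc (0:ℝ) 1, α x ≤ 1) {W : ℝ → ℝ}
    (hW : Monotone W) : IntegrableOn (fun x => W (α x)) (Icc 0 1) := by
  have hm : Measurable (fun x => W ((Icc (0:ℝ) 1).indicator α x)) :=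
    hW.measurable.comp (ind_meas hα)
  refine int_of_ind (C := max |W 0| |W 1|) ?_ ?_
  · have h2 : (Icc (0:ℝ) 1).indicator (fun x => W (α x)) =
        (Icc (0:ℝ) 1).indicator (fun x => W ((Icc (0:ℝ) 1).indicator α x)) := by
      ext x
      by_cases hx : x ∈ Icc (0:ℝ) 1
      · rw [indicator_of_mem hx, indicator_of_mem hx, indicator_of_mem hx]
      · rw [indicator_of_notMem hx, indicator_of_notMem hx]
    rw [h2]
    exact hm.indicator measurableSet_Icc
  · intro x hx
    have h2 := hW (h0 x hx)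
    have h3 := hW (h1 x hx)
    rw [abs_le]
    constructor
    · have := neg_abs_le (W 0)
      have := le_max_left |W 0| |W 1|
      linarith
    · have := le_abs_self (W 1)
      have := le_max_right |W 0| |W 1|
      linarith

end Q189.AR
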