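import Pool.Agent.Q189.AR1

/-!
# Comparison with linear functions
-/

set_option autoImplicit false

open MeasureTheory Set

namespace Q189.AR

lemma layer {α : ℝ → ℝ} (hα : Good α) : ∫ g in (0:ℝ)..1, Rf α g = ∫ x in (0:ℝ)..1, α x := by
  have hint : IntegrableOn α (Icc 0 1) := cvx_int hα.cvx (C := 1) fun x hx => by
    rw [abs_of_nonneg (hα.nonneg x hx)]; exact hα.le_one x hx
  have h1 := hint.integral_eq_integral_meas_lt (μ := volume.restrict (Icc (0:ℝ) 1))
    ((ae_restrict_iff' measurableSet_Icc).2 (Filter.Eventually.of_forall fun x hx => hα.nonneg x hx))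
  have h2 : ∀ t : ℝ, (volume.restrict (Icc (0:ℝ) 1)).real {a | t < α a} = Rf α (1 - t) := by
    intro t
    rw [measureReal_def, Measure.restrict_apply' measurableSet_Icc]
    unfold Rf
    congr 2
    ext x
    simp only [mem_inter_iff, mem_ofPred_eq, sub_sub_cancel]
    tauto
  simp only [h2] at h1
  rw [intervalIntegral.integral_of_le zero_le_one, intervalIntegral.integral_of_le zero_le_one,
    ← integral_Icc_eq_integral_Ioc (f := α), h1]
  have h3 : ∫ t in Ioi (0:ℝ), Rf α (1 - t) = ∫ t in Ioc (0:ℝ) 1, Rf α (1 - t) := by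
    apply setIntegral_eq_of_subset_of_forall_sdiff_eq_zero measurableSet_Ioi Ioc_subset_Ioi_self
    rintro t ⟨ht1, ht2⟩
    rw [mem_Ioi] at ht1
    have ht3 : 1 < t := by
      by_contra h
      exact ht2 ⟨ht1, not_lt.1 h⟩
    have h4 := Rf_mono (α := α) (show 1 - t ≤ 0 by linarith)
    rw [Rf_zero hα] at h4
    exact le_antisymm h4 (Rf_nonneg _ _)
  rw [h3, ← intervalIntegral.integral_of_le zero_le_one, ← intervalIntegral.integral_of_le zero_le_one,
    intervalIntegral.integral_comp_sub_left (fun g => Rf α g) 1]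
  simp

/-- **comparison with the linear function of the same integral** -/
lemma compare {B : ℝ → ℝ} (hB : ConvexOn ℝ (Icc 0 1) B) (hB0 : B 0 = 0)
    (hBn : ∀ x ∈ Icc (0:ℝ) 1, 0 ≤ B x) (hB1 : ∀ x ∈ Icc (0:ℝ) 1, B x ≤ 1) {W : ℝ → ℝ}
    (hWm : Monotone W) (hW : ConvexOn ℝ (Icc 0 1) W) :
    ∃ T : ℝ, 0 ≤ T ∧ T ≤ 1 ∧ ∫ u in (0:ℝ)..1, B u = T / 2 ∧
      ∫ u in (0:ℝ)..1, W (T * u) ≤ ∫ u in (0:ℝ)..1, W (B u) := by
  have h01 : (0:ℝ) ∈ Icc (0:ℝ) 1 := ⟨le_rfl, zero_le_one⟩
  have h11 : (1:ℝ) ∈ Icc (0:ℝ) 1 := ⟨zero_le_one, le_rfl⟩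
  have hBi : IntervalIntegrable B volume 0 1 := ii_of_on (cvx_int hB (C := 1) fun x hx => by
    rw [abs_of_nonneg (hBn x hx)]; exact hB1 x hx) h01 h11
  have hstar : ∀ x ∈ Icc (0:ℝ) 1, ∀ s ∈ Icc (0:ℝ) 1, B (s * x) ≤ s * B x := by
    intro x hx s hs
    have := hB.2 h01 hx (by linarith [hs.2] : (0:ℝ) ≤ 1 - s) hs.1 (by ring)
    simp only [smul_eq_mul, mul_zero, zero_add, hB0] at this
    exact this
  have hBx : ∀ x ∈ Icc (0:ℝ) 1, B x ≤ x := by
    intro x hx
    have := hstar 1 h11 x hx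
    rw [mul_one] at this
    have h2 := mul_le_mul_of_nonneg_left (hB1 1 h11) hx.1
    linarith
  set T : ℝ := 2 * ∫ u in (0:ℝ)..1, B u with hT
  have hT0 : 0 ≤ T := by
    have : 0 ≤ ∫ u in (0:ℝ)..1, B u := intervalIntegral.integral_nonneg zero_le_one hBn
    linarith
  have hT1 : T ≤ 1 := by
    have : ∫ u in (0:ℝ)..1, B u ≤ ∫ u in (0:ℝ)..1, u :=
      intervalIntegral.integral_mono_on zero_le_one hBi (continuous_id.intervalIntegrable _ _) hBx
    rw [integral_id] at this
    linarith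
  refine ⟨T, hT0, hT1, by rw [hT]; ring, ?_⟩
  have hTu : ∀ u ∈ Icc (0:ℝ) 1, T * u ∈ Icc (0:ℝ) 1 := fun u hu =>
    ⟨mul_nonneg hT0 hu.1, mul_le_one₀ hT1 hu.1 hu.2⟩
  have hBm : ∀ u ∈ Icc (0:ℝ) 1, B u ∈ Icc (0:ℝ) 1 := fun u hu => ⟨hBn u hu, hB1 u hu⟩
  have hlin : ConvexOn ℝ (Icc (0:ℝ) 1) (fun u => T * u) :=
    ⟨convex_Icc 0 1, fun x _ y _ a b _ _ _ => by simp only [smul_eq_mul]; linarith [mul_comm a b]⟩
  have hi1 : IntervalIntegrable (fun u => W (B u)) volume 0 1 :=
    ii_of_on (comp_int hB hBn hB1 hWm) h01 h11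
  have hi2 : IntervalIntegrable (fun u => W (T * u)) volume 0 1 :=
    ii_of_on (comp_int hlin (fun u hu => (hTu u hu).1) (fun u hu => (hTu u hu).2) hWm) h01 h11
  have hid : IntervalIntegrable (fun u : ℝ => T * u) volume 0 1 := by
    apply Continuous.intervalIntegrable
    fun_prop
  have hdint : ∫ u in (0:ℝ)..1, (B u - T * u) = 0 := by
    rw [intervalIntegral.integral_sub hBi hid, intervalIntegral.integral_const_mul, integral_id, hT]
    ring
  set Z : Set ℝ := {u | u ∈ Icc (0:ℝ) 1 ∧ B u ≤ T * u} with hZ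
  have hZ0 : (0:ℝ) ∈ Z := ⟨h01, by rw [hB0]; simp⟩
  have hZb : BddAbove Z := bddAbove_Icc.mono fun u hu => hu.1
  set c : ℝ := sSup Z with hc
  have hc0 : 0 ≤ c := le_csSup hZb hZ0
  have hc1 : c ≤ 1 := csSup_le ⟨0, hZ0⟩ fun u hu => hu.1.2
  have hbelow : ∀ u ∈ Icc (0:ℝ) 1, u < c → B u ≤ T * u := by
    intro u hu huc
    obtain ⟨z, hz, huz⟩ := exists_lt_of_lt_csSup ⟨0, hZ0⟩ huc
    have hz0 : 0 < z := lt_of_le_of_lt hu.1 huz
    have h1 := hstar z hz.1 (u / z) ⟨div_nonneg hu.1 hz0.le, (div_le_one hz0).2 huz.le⟩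
    rw [div_mul_cancel₀ _ hz0.ne'] at h1
    calc B u ≤ u / z * B z := h1
      _ ≤ u / z * (T * z) := mul_le_mul_of_nonneg_left hz.2 (div_nonneg hu.1 hz0.le)
      _ = T * u := by field_simp
  have habove : ∀ u ∈ Icc (0:ℝ) 1, c < u → T * u ≤ B u := by
    intro u hu huc
    by_contra hcon
    push Not at hcon
    have : u ≤ c := le_csSup hZb ⟨hu, hcon.le⟩
    linarith
  have hgoal : 0 ≤ ∫ u in (0:ℝ)..1, (W (B u) - W (T * u)) := by
    rcases lt_or_ge (T * c) 1 with hlt | hge
    · -- supporting slope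
      set g : ℝ := T * c with hg
      have hgm : g ∈ Icc (0:ℝ) 1 := hTu c ⟨hc0, hc1⟩
      set Sl : Set ℝ := (fun r => (W r - W g) / (r - g)) '' Ioc g 1 with hSl
      have hSlne : Sl.Nonempty := ⟨_, ⟨1, ⟨hlt, le_rfl⟩, rfl⟩⟩
      have hSlb : BddBelow Sl := by
        refine ⟨0, ?_⟩
        rintro _ ⟨r, hr, rfl⟩
        exact div_nonneg (sub_nonneg.2 (hWm hr.1.le)) (sub_nonneg.2 hr.1.le)
      set κ : ℝ := sInf Sl with hκ
      have hK2 : ∀ u v, g ≤ u → u ≤ v → v ≤ 1 → κ * (v - u) ≤ W v - W u := by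
        intro u v hgu huv hv
        rcases huv.eq_or_lt with h | huv'
        · rw [h]; simp
        rcases hgu.eq_or_lt with h | hgu'
        · have h1 : κ ≤ (W v - W g) / (v - g) := csInf_le hSlb ⟨v, ⟨by rw [h]; exact huv', hv⟩, rfl⟩
          have h2 : 0 < v - g := by rw [h]; linarith
          rw [le_div_iff₀ h2] at h1
          rw [← h]
          exact h1
        · have h1 : κ ≤ (W u - W g) / (u - g) :=
            csInf_le hSlb ⟨u, ⟨hgu', huv'.le.trans hv⟩, rfl⟩
          have h2 := hW.slope_mono_adjacent hgm ⟨hgm.1.trans (hgu'.le.trans huv'.le), hv⟩ hgu' huv'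
          have h3 := h1.trans h2
          rw [le_div_iff₀ (sub_pos.2 huv')] at h3
          exact h3
      have hK1 : ∀ u v, 0 ≤ u → u ≤ v → v ≤ g → W v - W u ≤ κ * (v - u) := by
        intro u v hu huv hvg
        rcases huv.eq_or_lt with h | huv'
        · rw [h]; simp
        have hslope : (W v - W u) / (v - u) ≤ κ := by
          apply le_csInf hSlne
          rintro _ ⟨r, hr, rfl⟩
          have hum : u ∈ Icc (0:ℝ) 1 := ⟨hu, by linarith [hgm.2]⟩
          have hrm : r ∈ Icc (0:ℝ) 1 := ⟨by linarith [hgm.1, hr.1], hr.2⟩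
          rcases hvg.eq_or_lt with h | hvg'
          · rw [h] at huv' ⊢
            exact hW.slope_mono_adjacent hum hrm huv' hr.1
          · have h1 := hW.slope_mono_adjacent hum hgm huv' hvg'
            have h2 := hW.slope_mono_adjacent (x := v) (y := g) (z := r)
              ⟨by linarith, by linarith [hgm.2]⟩ hrm hvg' hr.1
            exact h1.trans h2
        rw [div_le_iff₀ (sub_pos.2 huv')] at hslope
        exact hslope
      have hpt : ∀ u ∈ Icc (0:ℝ) 1, u ≠ c → κ * (B u - T * u) ≤ W (B u) - W (T * u) := by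
        intro u hu huc
        rcases lt_or_gt_of_ne huc with h | h
        · have h1 := hK1 (B u) (T * u) (hBn u hu) (hbelow u hu h)
            (mul_le_mul_of_nonneg_left h.le hT0)
          linarith
        · exact hK2 (T * u) (B u) (mul_le_mul_of_nonneg_left h.le hT0) (habove u hu h) (hB1 u hu)
      have h1 : ∫ u in (0:ℝ)..1, κ * (B u - T * u) ≤ ∫ u in (0:ℝ)..1, (W (B u) - W (T * u)) := by
        apply intervalIntegral.integral_mono_ae_restrict zero_le_one
          ((hBi.sub hid).const_mul κ) (hi1.sub hi2)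
        have h2 : ∀ᵐ u ∂(volume.restrict (Icc (0:ℝ) 1)), u ∉ ({c} : Set ℝ) :=
          ae_restrict_of_ae (compl_mem_ae_iff.2 (by simp))
        filter_upwards [h2, ae_restrict_mem measurableSet_Icc] with u hu1 hu2
        exact hpt u hu2 hu1
      rw [intervalIntegral.integral_const_mul, hdint, mul_zero] at h1
      exact h1
    · -- the linear case
      have hT1' : T = 1 := by
        apply le_antisymm hT1
        calc (1:ℝ) ≤ T * c := hge
          _ ≤ T * 1 := mul_le_mul_of_nonneg_left hc1 hT0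
          _ = T := mul_one T
      have hae : ∀ᵐ u ∂(volume.restrict (Ioc (0:ℝ) 1)), T * u - B u = 0 := by
        have h1 : ∫ u in Ioc (0:ℝ) 1, (T * u - B u) = 0 := by
          rw [← intervalIntegral.integral_of_le zero_le_one]
          have h2 : ∫ u in (0:ℝ)..1, (T * u - B u) = - ∫ u in (0:ℝ)..1, (B u - T * u) := by
            rw [← intervalIntegral.integral_neg]
            congr 1
            ext u
            ring
          rw [h2, hdint, neg_zero]
        have h3 : 0 ≤ᵐ[volume.restrict (Ioc (0:ℝ) 1)] fun u => T * u - B u := by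
          refine (ae_restrict_iff' measurableSet_Ioc).2 (Filter.Eventually.of_forall fun u hu => ?_)
          have := hBx u ⟨hu.1.le, hu.2⟩
          simp only [Pi.zero_apply]
          rw [hT1']
          linarith
        have h4 := (integral_eq_zero_iff_of_nonneg_ae h3 (hid.sub hBi).1).1 h1
        exact h4
      rw [intervalIntegral.integral_of_le zero_le_one]
      apply le_of_eq
      symm
      apply integral_eq_zero_of_ae
      filter_upwards [hae] with u hu
      have : B u = T * u := by linarith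
      simp only [Pi.zero_apply]
      rw [this, sub_self]
  rw [intervalIntegral.integral_sub hi1 hi2] at hgoal
  linarith

end Q189.AR
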