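import Pool.Agent.Q189.AR2

/-!
# The one-dimensional key inequality with constant 9/8
-/

set_option autoImplicit false

open MeasureTheory Set

namespace Q189.AR

lemma int_aff (a b c k : ℝ) :
    ∫ x in a..b, (c + k * x) = c * (b - a) + k * (b ^ 2 - a ^ 2) / 2 := by
  rw [intervalIntegral.integral_add (by simp)
    (Continuous.intervalIntegrable (by fun_prop) _ _), intervalIntegral.integral_const_mul,
    integral_id]
  simp only [intervalIntegral.integral_const, smul_eq_mul]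
  ring

/-- the linear case, by two bounds -/
lemma linear_case {W : ℝ → ℝ} (hWm : Monotone W) (hW : ConvexOn ℝ (Icc 0 1) W) (hW0 : W 0 = 0)
    (hW1 : W 1 ≤ 1) {T : ℝ} (hT0 : 0 ≤ T) (hT1 : T ≤ 1) :
    1 / 2 - (∫ u in (0:ℝ)..1, W (T * u)) ≤ 9 / 8 * (1 - (∫ u in (0:ℝ)..1, W u) - T / 2) := by
  have h01 : (0:ℝ) ∈ Icc (0:ℝ) 1 := ⟨le_rfl, zero_le_one⟩
  have h11 : (1:ℝ) ∈ Icc (0:ℝ) 1 := ⟨zero_le_one, le_rfl⟩
  have hTm : T ∈ Icc (0:ℝ) 1 := ⟨hT0, hT1⟩
  have hWi : ∀ a b : ℝ, IntervalIntegrable W volume a b := fun a b => hWm.intervalIntegrable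
  have hWx : ∀ x ∈ Icc (0:ℝ) 1, W x ≤ x := by
    intro x hx
    have := hW.2 h01 h11 (by linarith [hx.2] : (0:ℝ) ≤ 1 - x) hx.1 (by ring)
    simp only [smul_eq_mul, mul_zero, zero_add, hW0, mul_one] at this
    have h2 := mul_le_mul_of_nonneg_left hW1 hx.1
    linarith
  set S : ℝ := 2 * ∫ u in (0:ℝ)..1, W u with hS
  have hS1 : S ≤ 1 := by
    have : ∫ u in (0:ℝ)..1, W u ≤ ∫ u in (0:ℝ)..1, u :=
      intervalIntegral.integral_mono_on zero_le_one (hWi 0 1) (continuous_id.intervalIntegrable _ _)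
        hWx
    rw [integral_id] at this
    linarith
  have hSe : ∫ u in (0:ℝ)..1, W u = S / 2 := by rw [hS]; ring
  rw [hSe]
  rcases hT0.eq_or_lt with h | hTpos
  · rw [← h]
    simp only [zero_mul, hW0, intervalIntegral.integral_zero]
    linarith
  have hL : ∫ u in (0:ℝ)..1, W (T * u) = T⁻¹ * ∫ x in (0:ℝ)..T, W x := by
    rw [intervalIntegral.integral_comp_mul_left (fun x => W x) hTpos.ne']
    simp
  rw [hL]
  set L : ℝ := ∫ x in (0:ℝ)..T, W x with hLdef
  set h : ℝ := W T with hh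
  have hhT : h ≤ T := hWx T hTm
  have hh0 : 0 ≤ h := by rw [← hW0]; exact hWm hT0
  -- first bound
  have b1 : S - (1 - T) * (1 + h) ≤ 2 * L := by
    have h1 : ∫ u in (0:ℝ)..1, W u = L + ∫ u in T..1, W u :=
      (intervalIntegral.integral_add_adjacent_intervals (hWi 0 T) (hWi T 1)).symm
    have h2 : ∫ u in T..1, W u ≤ (1 - T) * (1 + h) / 2 := by
      rcases hT1.eq_or_lt with hT | hT
      · rw [hT]; simp
      have h3 : ∫ u in T..1, W u ≤ ∫ u in T..1, (h + (1 - h) / (1 - T) * (u - T)) := by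
        apply intervalIntegral.integral_mono_on hT1 (hWi T 1)
          ((by fun_prop : Continuous _).intervalIntegrable _ _)
        intro x hx
        have hy : 0 < 1 - T := by linarith
        have h4 := hW.2 hTm h11 (div_nonneg (by linarith [hx.2] : (0:ℝ) ≤ 1 - x) hy.le)
          (div_nonneg (by linarith [hx.1] : (0:ℝ) ≤ x - T) hy.le) (by field_simp; ring)
        simp only [smul_eq_mul] at h4
        have h5 : (1 - x) / (1 - T) * T + (x - T) / (1 - T) * 1 = x := by field_simp; ring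
        rw [h5] at h4
        have h6 : (x - T) / (1 - T) * W 1 ≤ (x - T) / (1 - T) * 1 :=
          mul_le_mul_of_nonneg_left hW1 (div_nonneg (by linarith [hx.1]) hy.le)
        have h7 : h + (1 - h) / (1 - T) * (x - T) = (1 - x) / (1 - T) * h +
            (x - T) / (1 - T) * 1 := by field_simp; ring
        rw [h7]
        linarith
      have h4 : ∫ u in T..1, (h + (1 - h) / (1 - T) * (u - T)) = (1 - T) * (1 + h) / 2 := by
        have h5 : (fun u : ℝ => h + (1 - h) / (1 - T) * (u - T)) =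
            fun u => (h - (1 - h) / (1 - T) * T) + (1 - h) / (1 - T) * u := by
          ext u
          ring
        rw [h5, int_aff]
        have hy : (1 - T) ≠ 0 := by linarith
        field_simp
        ring
      linarith
    rw [hSe] at h1
    linarith
  rcases hT1.eq_or_lt with hT | hT
  · rw [hT] at b1 ⊢
    rw [inv_one, one_mul]
    linarith
  have hy : 0 < 1 - T := by linarith
  have hh1 : 0 < 1 - h := by linarith
  -- second bound
  have b2 : h ^ 2 * (1 - T) / (1 - h) ≤ 2 * L := by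
    set k : ℝ := (1 - h) / (1 - T) with hk
    have hkpos : 0 < k := div_pos hh1 hy
    set g : ℝ := T - h / k with hg
    have hg0 : 0 ≤ g := by
      rw [hg, hk, sub_nonneg, div_div_eq_mul_div, div_le_iff₀ hh1]
      nlinarith
    have hgT : g ≤ T := by
      rw [hg]
      have : 0 ≤ h / k := by positivity
      linarith
    have h1 : L = (∫ x in (0:ℝ)..g, W x) + ∫ x in g..T, W x :=
      (intervalIntegral.integral_add_adjacent_intervals (hWi 0 g) (hWi g T)).symm
    have h2 : 0 ≤ ∫ x in (0:ℝ)..g, W x := by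
      apply intervalIntegral.integral_nonneg hg0
      intro x hx
      rw [← hW0]
      exact hWm hx.1
    have h3 : ∫ x in g..T, (h - k * (T - x)) ≤ ∫ x in g..T, W x := by
      apply intervalIntegral.integral_mono_on hgT
        ((by fun_prop : Continuous _).intervalIntegrable _ _) (hWi g T)
      intro x hx
      rcases hx.2.eq_or_lt with hxT | hxT
      · rw [hxT]; simp [hh]
      have h4 := hW.slope_mono_adjacent (x := x) (y := T) (z := 1)
        ⟨by linarith [hx.1], by linarith⟩ h11 hxT hT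
      have h5 : (W 1 - W T) / (1 - T) ≤ k := by
        rw [hk]
        apply div_le_div_of_nonneg_right _ hy.le
        linarith
      have h6 := h4.trans h5
      rw [div_le_iff₀ (sub_pos.2 hxT)] at h6
      linarith
    have h4 : ∫ x in g..T, (h - k * (T - x)) = h ^ 2 / (2 * k) := by
      have h5 : (fun x : ℝ => h - k * (T - x)) = fun x => (h - k * T) + k * x := by
        ext x
        ring
      rw [h5, int_aff, hg]
      field_simp
      ring
    have h5 : h ^ 2 / (2 * k) = h ^ 2 * (1 - T) / (1 - h) / 2 := by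
      rw [hk]
      field_simp
    linarith
  -- the algebra
  have hfin : T * (9 * S + 9 * T - 10) ≤ 8 * (2 * L) := by
    set y : ℝ := 1 - T with hydef
    have hTy : T = 1 - y := by rw [hydef]; ring
    rcases le_or_gt (9 * T) 8 with hc | hc
    · have hy9 : 1 ≤ 9 * y := by linarith
      have e1 : 9 * T * (S - y * (1 + h)) ≤ 9 * T * (2 * L) :=
        mul_le_mul_of_nonneg_left b1 (by linarith)
      have e2 : (8 - 9 * T) * (h ^ 2 * y / (1 - h)) ≤ (8 - 9 * T) * (2 * L) :=
        mul_le_mul_of_nonneg_left b2 (by linarith)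
      have e3 : 0 ≤ (1 - y) - (1 - y) * (1 + 9 * y) * h + 8 * y * h ^ 2 := by
        have e4 : 32 * y * ((1 - y) - (1 - y) * (1 + 9 * y) * h + 8 * y * h ^ 2) =
            (16 * y * h - (1 - y) * (1 + 9 * y)) ^ 2 + (1 - y) * (1 - 3 * y) ^ 2 * (9 * y - 1) := by
          ring
        have e5 : 0 ≤ (1 - y) * (1 - 3 * y) ^ 2 * (9 * y - 1) := by
          apply mul_nonneg (mul_nonneg _ (sq_nonneg _)) (by linarith)
          linarith
        have e6 : 0 ≤ 32 * y * ((1 - y) - (1 - y) * (1 + 9 * y) * h + 8 * y * h ^ 2) := by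
          rw [e4]
          positivity
        exact nonneg_of_mul_nonneg_right e6 (by linarith)
      have e7 : 0 ≤ T * (1 - 9 * y * h) + (9 * y - 1) * (h ^ 2 * y / (1 - h)) := by
        have e8 : T * (1 - 9 * y * h) + (9 * y - 1) * (h ^ 2 * y / (1 - h)) =
            ((1 - y) - (1 - y) * (1 + 9 * y) * h + 8 * y * h ^ 2) / (1 - h) := by
          rw [hTy]
          field_simp
          ring
        rw [e8]
        exact div_nonneg e3 hh1.le
      have e9 : 8 - 9 * T = 9 * y - 1 := by rw [hTy]; ring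
      rw [e9] at e2
      have e10 : 8 * (2 * L) = 9 * T * (2 * L) + (9 * y - 1) * (2 * L) := by rw [hTy]; ring
      rw [e10]
      have e11 : T * (9 * S + 9 * T - 10) = 9 * T * (S - y * (1 + h)) +
          (9 * y - 1) * (h ^ 2 * y / (1 - h)) -
          (T * (1 - 9 * y * h) + (9 * y - 1) * (h ^ 2 * y / (1 - h))) := by
        rw [hTy]
        ring
      linarith
    · have e1 : T * (9 * S + 9 * T - 10) ≤ 8 * (S - y * (1 + h)) := by
        rw [hydef]
        nlinarith
      linarith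
  have hTi : T⁻¹ * L = L / T := by rw [div_eq_inv_mul]
  rw [hTi]
  have h16 : (9 * S + 9 * T - 10) / 16 ≤ L / T := by
    rw [div_le_div_iff₀ (by norm_num) hTpos]
    linarith
  linarith

/-- **the key inequality** -/
lemma key {α γ : ℝ → ℝ} (hα : Good α) (hγ : Good γ) :
    1 / 2 - (∫ y in (0:ℝ)..1, Rf α (γ y)) ≤
      9 / 8 * (1 - (∫ x in (0:ℝ)..1, α x) - ∫ y in (0:ℝ)..1, γ y) := by
  have h01 : (0:ℝ) ∈ Icc (0:ℝ) 1 := ⟨le_rfl, zero_le_one⟩
  have h11 : (1:ℝ) ∈ Icc (0:ℝ) 1 := ⟨zero_le_one, le_rfl⟩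
  obtain ⟨y0, hy0, hγ0⟩ := hγ.zero
  have hWm : Monotone (Rf α) := Rf_mono
  have hWc := Rf_convex hα
  have hW0 := Rf_zero hα
  have hW1 := Rf_le_one α 1
  have hγi : ∀ a ∈ Icc (0:ℝ) 1, ∀ b ∈ Icc (0:ℝ) 1, IntervalIntegrable γ volume a b :=
    fun a ha b hb => ii_of_on (cvx_int hγ.cvx (C := 1) fun x hx => by
      rw [abs_of_nonneg (hγ.nonneg x hx)]; exact hγ.le_one x hx) ha hb
  have hWγi : ∀ a ∈ Icc (0:ℝ) 1, ∀ b ∈ Icc (0:ℝ) 1,
      IntervalIntegrable (fun y => Rf α (γ y)) volume a b :=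
    fun a ha b hb => ii_of_on (comp_int hγ.cvx hγ.nonneg hγ.le_one hWm) ha hb
  -- the two pieces
  have hmem1 : ∀ u ∈ Icc (0:ℝ) 1, (1 - y0) * u + y0 ∈ Icc (0:ℝ) 1 := by
    intro u hu
    constructor
    · have := mul_nonneg (sub_nonneg.2 hy0.2) hu.1
      linarith [hy0.1]
    · nlinarith [hu.2, hy0.2]
  have hmem2 : ∀ u ∈ Icc (0:ℝ) 1, (-y0) * u + y0 ∈ Icc (0:ℝ) 1 := by
    intro u hu
    constructor
    · nlinarith [hu.2, hy0.1]
    · have := mul_nonneg hy0.1 hu.1
      linarith [hy0.2]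
  have hcv : ∀ c d : ℝ, (∀ u ∈ Icc (0:ℝ) 1, c * u + d ∈ Icc (0:ℝ) 1) →
      ConvexOn ℝ (Icc (0:ℝ) 1) (fun u => γ (c * u + d)) := by
    intro c d hcd
    refine ⟨convex_Icc 0 1, ?_⟩
    intro x hx y hy s t hs ht hst
    simp only [smul_eq_mul]
    have h1 := hγ.cvx.2 (hcd x hx) (hcd y hy) hs ht hst
    simp only [smul_eq_mul] at h1
    have h2 : c * (s * x + t * y) + d = s * (c * x + d) + t * (c * y + d) := by
      linear_combination (-d) * hst
    rw [h2]
    exact h1
  obtain ⟨T1, hT10, hT11, hTi1, hTc1⟩ := compare (hcv (1 - y0) y0 hmem1) (by simp [hγ0])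
    (fun u hu => hγ.nonneg _ (hmem1 u hu)) (fun u hu => hγ.le_one _ (hmem1 u hu)) hWm hWc
  obtain ⟨T2, hT20, hT21, hTi2, hTc2⟩ := compare (hcv (-y0) y0 hmem2) (by simp [hγ0])
    (fun u hu => hγ.nonneg _ (hmem2 u hu)) (fun u hu => hγ.le_one _ (hmem2 u hu)) hWm hWc
  have hl1 := linear_case hWm hWc hW0 hW1 hT10 hT11
  have hl2 := linear_case hWm hWc hW0 hW1 hT20 hT21
  rw [layer hα] at hl1 hl2
  have hsplit : ∀ f : ℝ → ℝ, (∀ a ∈ Icc (0:ℝ) 1, ∀ b ∈ Icc (0:ℝ) 1,
      IntervalIntegrable f volume a b) →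
      ∫ y in (0:ℝ)..1, f y = (1 - y0) * (∫ u in (0:ℝ)..1, f ((1 - y0) * u + y0)) +
        y0 * ∫ u in (0:ℝ)..1, f ((-y0) * u + y0) := by
    intro f hf
    have h1 := intervalIntegral.mul_integral_comp_mul_add (f := f) (a := 0) (b := 1) (1 - y0) y0
    have h2 := intervalIntegral.mul_integral_comp_mul_add (f := f) (a := 0) (b := 1) (-y0) y0
    rw [show (1 - y0) * 0 + y0 = y0 by ring, show (1 - y0) * 1 + y0 = 1 by ring] at h1
    rw [show (-y0) * 0 + y0 = y0 by ring, show (-y0) * 1 + y0 = 0 by ring,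
      intervalIntegral.integral_symm 0 y0] at h2
    rw [h1, ← intervalIntegral.integral_add_adjacent_intervals (hf 0 h01 y0 hy0) (hf y0 hy0 1 h11)]
    linarith
  have hs1 := hsplit γ hγi
  have hs2 := hsplit (fun y => Rf α (γ y)) hWγi
  rw [hTi1, hTi2] at hs1
  rw [hs1, hs2]
  have e1 := mul_le_mul_of_nonneg_left (hl1.trans' (sub_le_sub_left hTc1 _)) (sub_nonneg.2 hy0.2)
  have e2 := mul_le_mul_of_nonneg_left (hl2.trans' (sub_le_sub_left hTc2 _)) hy0.1
  linarith

end Q189.AR
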