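import Pool.Agent.Q189.AR3

/-!
# The inequality for the areas of three projections, normalised form
-/

set_option autoImplicit false

open MeasureTheory Set

namespace Q189.AR

variable {E : Type*} [AddCommGroup E] [Module ℝ E] [TopologicalSpace E]

/-- continuous affine functionals -/
structure Aff (p : E → ℝ) : Prop where
  cont : Continuous p
  aff : ∀ x y : E, ∀ s t : ℝ, s + t = 1 → p (s • x + t • y) = s * p x + t * p y

/-- lower boundary -/
noncomputable def lo (K : Set E) (p q : E → ℝ) (x : ℝ) : ℝ := sInf (q '' (K ∩ p ⁻¹' {x}))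

/-- upper boundary -/
noncomputable def hi (K : Set E) (p q : E → ℝ) (x : ℝ) : ℝ := sSup (q '' (K ∩ p ⁻¹' {x}))

/-- normalised functional -/
def Nor (K : Set E) (p : E → ℝ) : Prop := p '' K = Icc (0:ℝ) 1

variable {K : Set E} {p q r : E → ℝ}

lemma fib (hK : IsCompact K) (hp : Aff p) (hq : Aff q) (x : ℝ) :
    IsCompact (q '' (K ∩ p ⁻¹' {x})) :=
  (hK.inter_right (isClosed_singleton.preimage hp.cont)).image hq.cont

lemma fib_ne (hpn : Nor K p) {x : ℝ} (hx : x ∈ Icc (0:ℝ) 1) : (q '' (K ∩ p ⁻¹' {x})).Nonempty := by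
  rw [← hpn] at hx
  obtain ⟨z, hz, hzx⟩ := hx
  exact ⟨_, ⟨z, ⟨hz, hzx⟩, rfl⟩⟩

lemma lo_mem (hK : IsCompact K) (hp : Aff p) (hq : Aff q) (hpn : Nor K p) {x : ℝ}
    (hx : x ∈ Icc (0:ℝ) 1) : ∃ z ∈ K, p z = x ∧ q z = lo K p q x := by
  obtain ⟨z, ⟨hz, hzx⟩, hzq⟩ := (fib hK hp hq x).sInf_mem (fib_ne hpn hx)
  exact ⟨z, hz, hzx, hzq⟩

lemma hi_mem (hK : IsCompact K) (hp : Aff p) (hq : Aff q) (hpn : Nor K p) {x : ℝ}
    (hx : x ∈ Icc (0:ℝ) 1) : ∃ z ∈ K, p z = x ∧ q z = hi K p q x := by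
  obtain ⟨z, ⟨hz, hzx⟩, hzq⟩ := (fib hK hp hq x).sSup_mem (fib_ne hpn hx)
  exact ⟨z, hz, hzx, hzq⟩

lemma lo_le (hK : IsCompact K) (hp : Aff p) (hq : Aff q) {z : E} (hz : z ∈ K) :
    lo K p q (p z) ≤ q z :=
  csInf_le (fib hK hp hq (p z)).bddBelow ⟨z, ⟨hz, rfl⟩, rfl⟩

lemma le_hi (hK : IsCompact K) (hp : Aff p) (hq : Aff q) {z : E} (hz : z ∈ K) :
    q z ≤ hi K p q (p z) :=
  le_csSup (fib hK hp hq (p z)).bddAbove ⟨z, ⟨hz, rfl⟩, rfl⟩

lemma nor_mem (hqn : Nor K q) {z : E} (hz : z ∈ K) : q z ∈ Icc (0:ℝ) 1 := by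
  rw [← hqn]
  exact ⟨z, hz, rfl⟩

lemma lo_good (hK : IsCompact K) (hc : Convex ℝ K) (hp : Aff p) (hq : Aff q) (hpn : Nor K p)
    (hqn : Nor K q) : Good (lo K p q) := by
  refine ⟨⟨convex_Icc 0 1, ?_⟩, ?_, ?_, ?_⟩
  · intro x hx y hy s t hs ht hst
    obtain ⟨z, hz, hzx, hzq⟩ := lo_mem hK hp hq hpn hx
    obtain ⟨w, hw, hwy, hwq⟩ := lo_mem hK hp hq hpn hy
    have h1 := lo_le hK hp hq (hc hz hw hs ht hst)
    rw [hp.aff z w s t hst, hq.aff z w s t hst, hzx, hwy, hzq, hwq] at h1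
    exact h1
  · intro x hx
    obtain ⟨z, hz, hzx, hzq⟩ := lo_mem hK hp hq hpn hx
    rw [← hzq]
    exact (nor_mem hqn hz).1
  · intro x hx
    obtain ⟨z, hz, hzx, hzq⟩ := lo_mem hK hp hq hpn hx
    rw [← hzq]
    exact (nor_mem hqn hz).2
  · have h0 : (0:ℝ) ∈ Icc (0:ℝ) 1 := ⟨le_rfl, zero_le_one⟩
    rw [← hqn] at h0
    obtain ⟨z, hz, hz0⟩ := h0
    refine ⟨p z, nor_mem hpn hz, ?_⟩
    apply le_antisymm
    · rw [← hz0]
      exact lo_le hK hp hq hz
    · obtain ⟨w, hw, hwx, hwq⟩ := lo_mem hK hp hq hpn (nor_mem hpn hz)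
      rw [← hwq]
      exact (nor_mem hqn hw).1

lemma hi_good (hK : IsCompact K) (hc : Convex ℝ K) (hp : Aff p) (hq : Aff q) (hpn : Nor K p)
    (hqn : Nor K q) : Good (fun x => 1 - hi K p q x) := by
  refine ⟨⟨convex_Icc 0 1, ?_⟩, ?_, ?_, ?_⟩
  · intro x hx y hy s t hs ht hst
    obtain ⟨z, hz, hzx, hzq⟩ := hi_mem hK hp hq hpn hx
    obtain ⟨w, hw, hwy, hwq⟩ := hi_mem hK hp hq hpn hy
    have h1 := le_hi hK hp hq (hc hz hw hs ht hst)
    rw [hp.aff z w s t hst, hq.aff z w s t hst, hzx, hwy, hzq, hwq] at h1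
    simp only [smul_eq_mul] at h1 ⊢
    have : (1:ℝ) = s + t := hst.symm
    nlinarith
  · intro x hx
    obtain ⟨z, hz, hzx, hzq⟩ := hi_mem hK hp hq hpn hx
    rw [← hzq]
    linarith [(nor_mem hqn hz).2]
  · intro x hx
    obtain ⟨z, hz, hzx, hzq⟩ := hi_mem hK hp hq hpn hx
    rw [← hzq]
    linarith [(nor_mem hqn hz).1]
  · have h0 : (1:ℝ) ∈ Icc (0:ℝ) 1 := ⟨zero_le_one, le_rfl⟩
    rw [← hqn] at h0
    obtain ⟨z, hz, hz0⟩ := h0
    refine ⟨p z, nor_mem hpn hz, ?_⟩
    have h1 : hi K p q (p z) = 1 := by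
      apply le_antisymm
      · obtain ⟨w, hw, hwx, hwq⟩ := hi_mem hK hp hq hpn (nor_mem hpn hz)
        rw [← hwq]
        exact (nor_mem hqn hw).2
      · rw [← hz0]
        exact le_hi hK hp hq hz
    rw [h1, sub_self]

/-- the area of the projection -/
noncomputable def ar (K : Set E) (p q : E → ℝ) : ℝ :=
  (volume ((fun z => (p z, q z)) '' K : Set (ℝ × ℝ))).toReal

lemma proj_compact (hK : IsCompact K) (hp : Aff p) (hq : Aff q) :
    IsCompact ((fun z => (p z, q z)) '' K) :=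
  hK.image (hp.cont.prodMk hq.cont)

lemma good_int {α : ℝ → ℝ} (hα : Good α) : IntegrableOn α (Icc 0 1) :=
  cvx_int hα.cvx (C := 1) fun x hx => by
    rw [abs_of_nonneg (hα.nonneg x hx)]; exact hα.le_one x hx

lemma area_ge (hK : IsCompact K) (hc : Convex ℝ K) (hp : Aff p) (hq : Aff q) (hpn : Nor K p)
    (hqn : Nor K q) :
    1 - (∫ x in (0:ℝ)..1, lo K p q x) - (∫ x in (0:ℝ)..1, (1 - hi K p q x)) ≤ ar K p q := by
  have hg1 := lo_good hK hc hp hq hpn hqn
  have hg2 := hi_good hK hc hp hq hpn hqn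
  have h01 : (0:ℝ) ∈ Icc (0:ℝ) 1 := ⟨le_rfl, zero_le_one⟩
  have h11 : (1:ℝ) ∈ Icc (0:ℝ) 1 := ⟨zero_le_one, le_rfl⟩
  have hi1 := ii_of_on (good_int hg1) h01 h11
  have hi2 := ii_of_on (good_int hg2) h01 h11
  set S : Set (ℝ × ℝ) := (fun z => (p z, q z)) '' K with hS
  have hSc : IsCompact S := proj_compact hK hp hq
  have hSm : MeasurableSet S := hSc.measurableSet
  have hfin : volume S ≠ ⊤ := hSc.measure_lt_top.ne
  set f : ℝ → ℝ := fun x => 1 - lo K p q x - (1 - hi K p q x) with hf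
  have hfint : IntegrableOn f (Icc 0 1) :=
    ((integrableOn_const (by simp)).sub (good_int hg1)).sub (good_int hg2)
  have hf0 : ∀ x ∈ Icc (0:ℝ) 1, 0 ≤ f x := by
    intro x hx
    obtain ⟨z, hz, hzx, hzq⟩ := lo_mem hK hp hq hpn hx
    have := le_hi hK hp hq hz
    rw [hzx, hzq] at this
    simp only [hf]
    linarith
  have h1 : (∫ x in (0:ℝ)..1, f x) = 1 - (∫ x in (0:ℝ)..1, lo K p q x) -
      (∫ x in (0:ℝ)..1, (1 - hi K p q x)) := by
    simp only [hf]
    rw [intervalIntegral.integral_sub (by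
      exact (intervalIntegrable_const).sub hi1) hi2,
      intervalIntegral.integral_sub intervalIntegrable_const hi1]
    simp
  rw [← h1, intervalIntegral.integral_of_le zero_le_one, ← integral_Icc_eq_integral_Ioc]
  have h2 : ENNReal.ofReal (∫ x in Icc (0:ℝ) 1, f x) ≤ volume S := by
    rw [ofReal_integral_eq_lintegral_ofReal hfint
      ((ae_restrict_iff' measurableSet_Icc).2 (Filter.Eventually.of_forall hf0))]
    rw [Measure.volume_eq_prod, Measure.prod_apply hSm]
    refine le_trans ?_ (setLIntegral_le_lintegral (Icc (0:ℝ) 1) _)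
    apply lintegral_mono_ae
    refine (ae_restrict_iff' measurableSet_Icc).2 (Filter.Eventually.of_forall fun x hx => ?_)
    have h3 : Icc (lo K p q x) (hi K p q x) ⊆ Prod.mk x ⁻¹' S := by
      intro t ht
      obtain ⟨z, hz, hzx, hzq⟩ := lo_mem hK hp hq hpn hx
      obtain ⟨w, hw, hwx, hwq⟩ := hi_mem hK hp hq hpn hx
      rcases eq_or_lt_of_le (ht.1.trans ht.2) with h | h
      · refine ⟨z, hz, ?_⟩
        simp only [Prod.mk.injEq]
        refine ⟨hzx, ?_⟩
        rw [hzq]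
        linarith [ht.1, ht.2]
      · have hd : 0 < hi K p q x - lo K p q x := by linarith
        set s := (hi K p q x - t) / (hi K p q x - lo K p q x) with hs
        set s' := (t - lo K p q x) / (hi K p q x - lo K p q x) with hs'
        have hss : s + s' = 1 := by rw [hs, hs']; field_simp; ring
        refine ⟨s • z + s' • w, hc hz hw (div_nonneg (by linarith [ht.2]) hd.le)
          (div_nonneg (by linarith [ht.1]) hd.le) hss, ?_⟩
        simp only [Prod.mk.injEq]
        refine ⟨?_, ?_⟩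
        · rw [hp.aff _ _ _ _ hss, hzx, hwx, ← add_mul, hss, one_mul]
        · rw [hq.aff _ _ _ _ hss, hzq, hwq, hs, hs']
          field_simp
          ring
    calc ENNReal.ofReal (f x) = volume (Icc (lo K p q x) (hi K p q x)) := by
          rw [Real.volume_Icc]
          congr 1
          simp only [hf]
          ring
      _ ≤ _ := measure_mono h3
  have h3 := ENNReal.toReal_mono hfin h2
  rwa [ENNReal.toReal_ofReal (setIntegral_nonneg measurableSet_Icc hf0)] at h3

lemma area_le (hK : IsCompact K) (hc : Convex ℝ K) (hp : Aff p) (hq : Aff q) (hr : Aff r)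
    (hpn : Nor K p) (hqn : Nor K q) (hrn : Nor K r) :
    ar K p r ≤ 1 - (∫ y in (0:ℝ)..1, Rf (lo K p q) (1 - hi K r q y)) -
      (∫ y in (0:ℝ)..1, Rf (fun x => 1 - hi K p q x) (lo K r q y)) := by
  have hg1 := lo_good hK hc hp hq hpn hqn
  have hg2 := hi_good hK hc hp hq hpn hqn
  have hg3 := lo_good hK hc hr hq hrn hqn
  have hg4 := hi_good hK hc hr hq hrn hqn
  have h01 : (0:ℝ) ∈ Icc (0:ℝ) 1 := ⟨le_rfl, zero_le_one⟩
  have h11 : (1:ℝ) ∈ Icc (0:ℝ) 1 := ⟨zero_le_one, le_rfl⟩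
  have hI1 : IntegrableOn (fun y => Rf (lo K p q) (1 - hi K r q y)) (Icc 0 1) :=
    comp_int hg4.cvx hg4.nonneg hg4.le_one Rf_mono
  have hI2 : IntegrableOn (fun y => Rf (fun x => 1 - hi K p q x) (lo K r q y)) (Icc 0 1) :=
    comp_int hg3.cvx hg3.nonneg hg3.le_one Rf_mono
  set P : Set (ℝ × ℝ) := (fun z => (p z, r z)) '' K with hP
  have hPc : IsCompact P := proj_compact hK hp hr
  have hPm : MeasurableSet P := hPc.measurableSet
  set f : ℝ → ℝ := fun y => 1 - Rf (lo K p q) (1 - hi K r q y) -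
    Rf (fun x => 1 - hi K p q x) (lo K r q y) with hf
  have hfint : IntegrableOn f (Icc 0 1) := ((integrableOn_const (by simp)).sub hI1).sub hI2
  -- slices
  have hslice : ∀ y ∈ Icc (0:ℝ) 1, volume ((fun x => (x, y)) ⁻¹' P) ≤ ENNReal.ofReal (f y) ∧
      0 ≤ f y := by
    intro y hy
    set A : Set ℝ := {x | x ∈ Icc (0:ℝ) 1 ∧ 1 - (1 - hi K r q y) < lo K p q x} with hA
    set B : Set ℝ := {x | x ∈ Icc (0:ℝ) 1 ∧ 1 - lo K r q y < 1 - hi K p q x} with hB
    have hAm : MeasurableSet A := by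
      rw [hA, sup_eq]
      exact measurableSet_Icc.diff (sl_meas hg1.cvx _)
    have hBm : MeasurableSet B := by
      rw [hB, sup_eq (fun x => 1 - hi K p q x)]
      exact measurableSet_Icc.diff (sl_meas hg2.cvx _)
    have hlohi : ∀ x ∈ Icc (0:ℝ) 1, lo K p q x ≤ hi K p q x := by
      intro x hx
      obtain ⟨z, hz, hzx, hzq⟩ := lo_mem hK hp hq hpn hx
      have := le_hi hK hp hq hz
      rwa [hzx, hzq] at this
    have hlohi' : lo K r q y ≤ hi K r q y := by
      obtain ⟨z, hz, hzx, hzq⟩ := lo_mem hK hr hq hrn hy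
      have := le_hi hK hr hq hz
      rwa [hzx, hzq] at this
    have hdisj : Disjoint A B := by
      rw [Set.disjoint_left]
      rintro x ⟨hx, hx1⟩ ⟨_, hx2⟩
      have := hlohi x hx
      linarith
    have hsub : (fun x => (x, y)) ⁻¹' P ⊆ Icc (0:ℝ) 1 \ (A ∪ B) := by
      rintro x ⟨z, hz, hzx⟩
      simp only [Prod.mk.injEq] at hzx
      refine ⟨?_, ?_⟩
      · rw [← hzx.1]
        exact nor_mem hpn hz
      · rintro (⟨_, h⟩ | ⟨_, h⟩)
        · have h1 := lo_le hK hp hq hz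
          have h2 := le_hi hK hr hq hz
          rw [hzx.1] at h1
          rw [hzx.2] at h2
          linarith
        · have h1 := le_hi hK hp hq hz
          have h2 := lo_le hK hr hq hz
          rw [hzx.1] at h1
          rw [hzx.2] at h2
          linarith
    have hABsub : A ∪ B ⊆ Icc (0:ℝ) 1 := union_subset (fun x hx => hx.1) (fun x hx => hx.1)
    have hABfin : volume (A ∪ B) ≠ ⊤ := measure_ne_top_of_subset hABsub (by simp)
    have hAfin : volume A ≠ ⊤ := measure_ne_top_of_subset (fun x hx => hx.1)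
      (by simp : volume (Icc (0:ℝ) 1) ≠ ⊤)
    have hBfin : volume B ≠ ⊤ := measure_ne_top_of_subset (fun x hx => hx.1)
      (by simp : volume (Icc (0:ℝ) 1) ≠ ⊤)
    have hvAB : (volume (A ∪ B)).toReal = Rf (lo K p q) (1 - hi K r q y) +
        Rf (fun x => 1 - hi K p q x) (lo K r q y) := by
      rw [measure_union hdisj hBm, ENNReal.toReal_add hAfin hBfin]
      rfl
    have hvol : volume (Icc (0:ℝ) 1 \ (A ∪ B)) = ENNReal.ofReal (f y) ∧ 0 ≤ f y := by
      have h1 : (volume (A ∪ B)).toReal ≤ 1 := by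
        have := ENNReal.toReal_mono (by simp) (measure_mono (μ := volume) hABsub)
        simpa using this
      have h2 : 0 ≤ f y := by
        simp only [hf]
        linarith
      refine ⟨?_, h2⟩
      rw [measure_sdiff hABsub (hAm.union hBm).nullMeasurableSet hABfin]
      rw [← ENNReal.ofReal_toReal hABfin, hvAB, Real.volume_Icc, sub_zero,
        ← ENNReal.ofReal_sub _ (add_nonneg (Rf_nonneg _ _) (Rf_nonneg _ _))]
      congr 1
      simp only [hf]
      ring
    exact ⟨(measure_mono hsub).trans hvol.1.le, hvol.2⟩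
  have h1 : volume P ≤ ENNReal.ofReal (∫ y in Icc (0:ℝ) 1, f y) := by
    rw [ofReal_integral_eq_lintegral_ofReal hfint
      ((ae_restrict_iff' measurableSet_Icc).2 (Filter.Eventually.of_forall fun y hy =>
        (hslice y hy).2))]
    rw [Measure.volume_eq_prod, Measure.prod_apply_symm hPm]
    have h2 : ∫⁻ y : ℝ, volume ((fun x => (x, y)) ⁻¹' P) =
        ∫⁻ y in Icc (0:ℝ) 1, volume ((fun x => (x, y)) ⁻¹' P) := by
      rw [← lintegral_indicator measurableSet_Icc]
      congr 1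
      ext y
      by_cases hy : y ∈ Icc (0:ℝ) 1
      · rw [indicator_of_mem hy]
      · rw [indicator_of_notMem hy]
        have : (fun x => (x, y)) ⁻¹' P = ∅ := by
          ext x
          simp only [mem_preimage, mem_empty_iff_false, iff_false]
          rintro ⟨z, hz, hzx⟩
          simp only [Prod.mk.injEq] at hzx
          apply hy
          rw [← hzx.2]
          exact nor_mem hrn hz
        rw [this, measure_empty]
    rw [h2]
    apply lintegral_mono_ae
    exact (ae_restrict_iff' measurableSet_Icc).2 (Filter.Eventually.of_forall fun y hy =>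
        (hslice y hy).1)
  have h2 := ENNReal.toReal_mono ENNReal.ofReal_ne_top h1
  rw [ENNReal.toReal_ofReal (setIntegral_nonneg measurableSet_Icc fun y hy => (hslice y hy).2)] at h2
  have h3 : (∫ y in Icc (0:ℝ) 1, f y) = 1 - (∫ y in (0:ℝ)..1, Rf (lo K p q) (1 - hi K r q y)) -
      (∫ y in (0:ℝ)..1, Rf (fun x => 1 - hi K p q x) (lo K r q y)) := by
    rw [integral_Icc_eq_integral_Ioc, ← intervalIntegral.integral_of_le zero_le_one]
    simp only [hf]
    rw [intervalIntegral.integral_sub (intervalIntegrable_const.sub (ii_of_on hI1 h01 h11))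
      (ii_of_on hI2 h01 h11), intervalIntegral.integral_sub intervalIntegrable_const
      (ii_of_on hI1 h01 h11)]
    simp
  rw [h3] at h2
  exact h2

/-- **the inequality in normalised form** -/
theorem normalised (hK : IsCompact K) (hc : Convex ℝ K) (hp : Aff p) (hq : Aff q) (hr : Aff r)
    (hpn : Nor K p) (hqn : Nor K q) (hrn : Nor K r) :
    ar K p r ≤ 9 / 8 * (ar K p q + ar K r q) := by
  have h1 := area_le hK hc hp hq hr hpn hqn hrn
  have h2 := area_ge hK hc hp hq hpn hqn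
  have h3 := area_ge hK hc hr hq hrn hqn
  have k1 := key (lo_good hK hc hp hq hpn hqn) (hi_good hK hc hr hq hrn hqn)
  have k2 := key (hi_good hK hc hp hq hpn hqn) (lo_good hK hc hr hq hrn hqn)
  linarith

end Q189.AR
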