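import Mathlib

/-!
# Areas of the projections onto coordinate planes
-/

set_option autoImplicit false

open MeasureTheory Set

namespace Q189.AR

/-- The area (two-dimensional Lebesgue measure) of the projection of `A` onto the plane spanned
by the coordinate vectors `e_i` and `e_j`. -/
noncomputable def projArea {n : ℕ} (A : Set (EuclideanSpace ℝ (Fin n))) (i j : Fin n) : ENNReal :=
  volume ((fun x : EuclideanSpace ℝ (Fin n) => (x i, x j)) '' A : Set (ℝ × ℝ))

/-- The width of `A` in the direction of the coordinate vector `e_i`. -/
noncomputable def coordWidth {n : ℕ} (A : Set (EuclideanSpace ℝ (Fin n))) (i : Fin n) : ℝ :=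
  sSup ((fun x : EuclideanSpace ℝ (Fin n) => x i) '' A) -
    sInf ((fun x : EuclideanSpace ℝ (Fin n) => x i) '' A)

/-- A convex body in the sense of the problem: a nonempty compact convex set. -/
structure IsBody {n : ℕ} (A : Set (EuclideanSpace ℝ (Fin n))) : Prop where
  nonempty : A.Nonempty
  compact : IsCompact A
  convex : Convex ℝ A

/-- The vector `(q_ij)`, `i < j`, written as a symmetric matrix `M` with zero diagonal, is
realizable: there is a convex body in `ℝ⁵` whose projection onto the coordinate plane `(i, j)` has
area `M i j` for all `i < j`. -/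
def Realizable (M : Matrix (Fin 5) (Fin 5) ℝ) : Prop :=
  ∃ A : Set (EuclideanSpace ℝ (Fin 5)), IsBody A ∧
    ∀ i j : Fin 5, i < j → projArea A i j = ENNReal.ofReal (M i j)

/-- `N` is a real symmetric matrix with at most one positive eigenvalue (counted with
multiplicity). -/
def AtMostOnePositiveEigenvalue (N : Matrix (Fin 4) (Fin 4) ℝ) : Prop :=
  ∃ h : N.IsHermitian, (Finset.univ.filter fun i => 0 < h.eigenvalues i).card ≤ 1

/-- The hypothesis of the problem on the matrix `Q(q)`: it is symmetric with zero diagonal and
nonnegative entries, and each of its five `4 × 4` principal submatrices (delete the row and the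
column with index `m`) has at most one positive eigenvalue. -/
structure Hypothesis (M : Matrix (Fin 5) (Fin 5) ℝ) : Prop where
  symm : M.IsSymm
  diag : ∀ i, M i i = 0
  nonneg : ∀ i j, 0 ≤ M i j
  eigen : ∀ m : Fin 5, AtMostOnePositiveEigenvalue (M.submatrix m.succAbove m.succAbove)

end Q189.AR
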