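import Pool.Agent.Q189.AR4
import Pool.Agent.Q189.ARDefs

/-!
# The inequality for the areas of three coordinate projections
-/

set_option autoImplicit false

open MeasureTheory Set

namespace Q189.AR

variable {n : ℕ} {A : Set (EuclideanSpace ℝ (Fin n))}

/-- scaling in the plane -/
lemma scale_vol {S : Set (ℝ × ℝ)} (hS : IsCompact S) {a b : ℝ} (ha : 0 < a) (hb : 0 < b)
    (c d : ℝ) :
    volume S = ENNReal.ofReal a * ENNReal.ofReal b *
      volume ((fun z : ℝ × ℝ => ((z.1 - c) / a, (z.2 - d) / b)) '' S) := by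
  have h1 : ∀ (a c : ℝ), 0 < a → Measure.map (fun x : ℝ => (x - c) / a) volume =
      ENNReal.ofReal a • (volume : Measure ℝ) := by
    intro a c ha
    have e : (fun x : ℝ => (x - c) / a) = (fun x => a⁻¹ * x) ∘ fun x => x - c := by
      ext x
      simp only [Function.comp_apply]
      field_simp
    rw [e, ← Measure.map_map (by fun_prop) (by fun_prop),
      (measurePreserving_sub_right volume c).map_eq, Real.map_volume_mul_left (inv_ne_zero ha.ne'),
      inv_inv, abs_of_pos ha]
  set φ : ℝ × ℝ → ℝ × ℝ := fun z => ((z.1 - c) / a, (z.2 - d) / b) with hφ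
  have hφc : Continuous φ := by fun_prop
  have hT : MeasurableSet (φ '' S) := (hS.image hφc).measurableSet
  have hmap : Measure.map φ (volume : Measure (ℝ × ℝ)) =
      (ENNReal.ofReal a * ENNReal.ofReal b) • (volume : Measure (ℝ × ℝ)) := by
    have h2 := Measure.map_prod_map (volume : Measure ℝ) (volume : Measure ℝ)
      (f := fun x : ℝ => (x - c) / a) (g := fun x : ℝ => (x - d) / b) (by fun_prop) (by fun_prop)
    rw [h1 a c ha, h1 b d hb] at h2
    rw [Measure.volume_eq_prod, hφ]
    have h3 : Measure.map (Prod.map (fun x : ℝ => (x - c) / a) fun x : ℝ => (x - d) / b)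
        ((volume : Measure ℝ).prod volume) =
        Measure.map (fun z : ℝ × ℝ => ((z.1 - c) / a, (z.2 - d) / b))
        ((volume : Measure ℝ).prod volume) := rfl
    rw [← h3, ← h2, Measure.prod_smul_left, Measure.prod_smul_right, smul_smul]
  have hinj : Function.Injective φ := by
    rintro ⟨x, y⟩ ⟨x', y'⟩ h
    simp only [hφ, Prod.mk.injEq] at h
    obtain ⟨h1, h2⟩ := h
    field_simp at h1 h2
    rw [Prod.mk.injEq]
    constructor <;> linarith
  have h4 : Measure.map φ volume (φ '' S) = volume S := by
    rw [Measure.map_apply hφc.measurable hT, preimage_image_eq S hinj]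
  rw [← h4, hmap]
  rfl

lemma coord_image (hA : IsBody A) (i : Fin n) :
    (fun x : EuclideanSpace ℝ (Fin n) => x i) '' A =
      Icc (sInf ((fun x : EuclideanSpace ℝ (Fin n) => x i) '' A))
        (sSup ((fun x : EuclideanSpace ℝ (Fin n) => x i) '' A)) := by
  set B := (fun x : EuclideanSpace ℝ (Fin n) => x i) '' A with hB
  have hBc : IsCompact B := hA.compact.image (by fun_prop)
  have hBne : B.Nonempty := hA.nonempty.image _
  have hBconv : Convex ℝ B := by
    rintro _ ⟨x, hx, rfl⟩ _ ⟨y, hy, rfl⟩ s t hs ht hst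
    exact ⟨s • x + t • y, hA.convex hx hy hs ht hst, by simp⟩
  have hord := hBconv.ordConnected
  apply Subset.antisymm
  · exact fun x hx => ⟨csInf_le hBc.bddBelow hx, le_csSup hBc.bddAbove hx⟩
  · exact hord.out (hBc.sInf_mem hBne) (hBc.sSup_mem hBne)

lemma width_nonneg (hA : IsBody A) (i : Fin n) : 0 ≤ coordWidth A i := by
  unfold coordWidth
  have hBc : IsCompact ((fun x : EuclideanSpace ℝ (Fin n) => x i) '' A) :=
    hA.compact.image (by fun_prop)
  have := Real.sInf_le_sSup _ hBc.bddBelow hBc.bddAbove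
  linarith

lemma area_zero (hA : IsBody A) {i : Fin n} (h : coordWidth A i = 0) (j : Fin n) :
    projArea A i j = 0 := by
  have h1 := coord_image hA i
  unfold coordWidth at h
  set c := sInf ((fun x : EuclideanSpace ℝ (Fin n) => x i) '' A) with hc
  have h2 : sSup ((fun x : EuclideanSpace ℝ (Fin n) => x i) '' A) = c := by linarith
  rw [h2, Icc_self] at h1
  unfold projArea
  refine measure_mono_null (t := ({c} : Set ℝ) ×ˢ (univ : Set ℝ)) ?_ ?_
  · rintro _ ⟨x, hx, rfl⟩
    refine ⟨?_, mem_univ _⟩
    rw [← h1]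
    exact ⟨x, hx, rfl⟩
  · rw [Measure.volume_eq_prod, Measure.prod_prod]
    simp

lemma area_swap (hA : IsBody A) (i j : Fin n) : projArea A i j = projArea A j i := by
  unfold projArea
  have h1 : (fun x : EuclideanSpace ℝ (Fin n) => (x i, x j)) '' A =
      Prod.swap ⁻¹' ((fun x : EuclideanSpace ℝ (Fin n) => (x j, x i)) '' A) := by
    ext ⟨a, b⟩
    constructor
    · rintro ⟨x, hx, h⟩
      rw [Prod.mk.injEq] at h
      refine ⟨x, hx, ?_⟩
      show (x j, x i) = (b, a)
      rw [h.1, h.2]
    · rintro ⟨x, hx, h⟩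
      rw [Prod.swap_prod_mk, Prod.mk.injEq] at h
      exact ⟨x, hx, by rw [Prod.mk.injEq]; exact ⟨h.2, h.1⟩⟩
  have hc : IsCompact ((fun x : EuclideanSpace ℝ (Fin n) => (x j, x i)) '' A) :=
    hA.compact.image (by fun_prop)
  rw [h1, Measure.volume_eq_prod,
    (Measure.measurePreserving_swap (μ := (volume : Measure ℝ)) (ν := (volume : Measure ℝ))).measure_preimage
    hc.measurableSet.nullMeasurableSet]

/-- the normalised coordinate -/
noncomputable def nc (A : Set (EuclideanSpace ℝ (Fin n))) (i : Fin n)
    (x : EuclideanSpace ℝ (Fin n)) : ℝ :=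
  (x i - sInf ((fun x : EuclideanSpace ℝ (Fin n) => x i) '' A)) / coordWidth A i

lemma nc_aff (i : Fin n) : Aff (nc A i) := by
  refine ⟨by unfold nc; fun_prop, ?_⟩
  intro x y s t hst
  unfold nc
  simp only [PiLp.add_apply, PiLp.smul_apply, smul_eq_mul]
  rw [mul_div_assoc', mul_div_assoc', ← add_div]
  congr 1
  linear_combination (-sInf ((fun x : EuclideanSpace ℝ (Fin n) => x i) '' A)) * (-hst)

lemma nc_nor (hA : IsBody A) {i : Fin n} (h : 0 < coordWidth A i) : Nor A (nc A i) := by
  unfold Nor
  have h1 := coord_image hA i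
  set c := sInf ((fun x : EuclideanSpace ℝ (Fin n) => x i) '' A) with hc
  have hw : coordWidth A i = sSup ((fun x : EuclideanSpace ℝ (Fin n) => x i) '' A) - c := rfl
  set d := sSup ((fun x : EuclideanSpace ℝ (Fin n) => x i) '' A) with hd
  ext t
  constructor
  · rintro ⟨x, hx, rfl⟩
    have h2 : x i ∈ Icc c d := by rw [← h1]; exact ⟨x, hx, rfl⟩
    unfold nc
    refine ⟨div_nonneg (by linarith [h2.1]) h.le, ?_⟩
    rw [div_le_one h, hw]
    linarith [h2.2]
  · intro ht
    have h2 : t * coordWidth A i + c ∈ Icc c d := by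
      constructor
      · have := mul_nonneg ht.1 h.le
        linarith
      · have := mul_le_mul_of_nonneg_right ht.2 h.le
        linarith
    rw [← h1] at h2
    obtain ⟨x, hx, hxt⟩ := h2
    simp only at hxt
    refine ⟨x, hx, ?_⟩
    unfold nc
    rw [hxt]
    field_simp
    ring

lemma nc_area (hA : IsBody A) {i j : Fin n} (hi : 0 < coordWidth A i) (hj : 0 < coordWidth A j) :
    (projArea A i j).toReal = coordWidth A i * coordWidth A j * ar A (nc A i) (nc A j) := by
  have hc : IsCompact ((fun x : EuclideanSpace ℝ (Fin n) => (x i, x j)) '' A) :=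
    hA.compact.image (by fun_prop)
  have h1 := scale_vol hc hi hj (sInf ((fun x : EuclideanSpace ℝ (Fin n) => x i) '' A))
    (sInf ((fun x : EuclideanSpace ℝ (Fin n) => x j) '' A))
  unfold projArea ar
  rw [h1, image_image, ENNReal.toReal_mul, ENNReal.toReal_mul, ENNReal.toReal_ofReal hi.le,
    ENNReal.toReal_ofReal hj.le]
  rfl

/-- **The inequality.** -/
theorem width_area (hA : IsBody A) (i j k : Fin n) :
    coordWidth A j * (projArea A i k).toReal ≤
      9 / 8 * (coordWidth A k * (projArea A i j).toReal +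
        coordWidth A i * (projArea A j k).toReal) := by
  have hi := width_nonneg hA i
  have hj := width_nonneg hA j
  have hk := width_nonneg hA k
  have hr : 0 ≤ 9 / 8 * (coordWidth A k * (projArea A i j).toReal +
        coordWidth A i * (projArea A j k).toReal) := by positivity
  rcases hi.eq_or_lt with hi0 | hi0
  · rw [area_zero hA hi0.symm k]
    simpa using hr
  rcases hj.eq_or_lt with hj0 | hj0
  · rw [← hj0]
    simpa using hr
  rcases hk.eq_or_lt with hk0 | hk0
  · rw [area_swap hA i k, area_zero hA hk0.symm i]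
    simpa using hr
  rw [area_swap hA j k, nc_area hA hi0 hk0, nc_area hA hi0 hj0, nc_area hA hk0 hj0]
  have h := normalised hA.compact hA.convex (nc_aff (A := A) i) (nc_aff (A := A) j)
    (nc_aff (A := A) k) (nc_nor hA hi0) (nc_nor hA hj0) (nc_nor hA hk0)
  have h2 := mul_le_mul_of_nonneg_left h
    (by positivity : 0 ≤ coordWidth A i * coordWidth A j * coordWidth A k)
  calc coordWidth A j * (coordWidth A i * coordWidth A k * ar A (nc A i) (nc A k)) =
        coordWidth A i * coordWidth A j * coordWidth A k * ar A (nc A i) (nc A k) := by ring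
    _ ≤ _ := h2
    _ = _ := by ring

end Q189.AR
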