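import Pool.Agent.Q189.AR5

/-!
# Vectors which satisfy the eigenvalue condition but are not realizable
-/

set_option autoImplicit false

open MeasureTheory Set Matrix

namespace Q189.AR

/-- a symmetric matrix whose form is nonpositive on a hyperplane -/
lemma atMostOne {N : Matrix (Fin 4) (Fin 4) ℝ} (hN : N.IsHermitian) (v : Fin 4 → ℝ)
    (h : ∀ x : Fin 4 → ℝ, v ⬝ᵥ x = 0 → x ⬝ᵥ (N *ᵥ x) ≤ 0) : AtMostOnePositiveEigenvalue N := by
  refine ⟨hN, ?_⟩
  by_contra hcon
  push Not at hcon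
  obtain ⟨i, hi, j, hj, hij⟩ := Finset.one_lt_card.1 hcon
  simp only [Finset.mem_filter, Finset.mem_univ, true_and] at hi hj
  set a : Fin 4 → ℝ := (hN.eigenvectorBasis i).ofLp with ha
  set b : Fin 4 → ℝ := (hN.eigenvectorBasis j).ofLp with hb
  have ha1 : N *ᵥ a = hN.eigenvalues i • a := hN.mulVec_eigenvectorBasis i
  have hb1 : N *ᵥ b = hN.eigenvalues j • b := hN.mulVec_eigenvectorBasis j
  have hon := hN.eigenvectorBasis.orthonormal
  have hdot : ∀ k l : Fin 4, (hN.eigenvectorBasis k).ofLp ⬝ᵥ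
      (hN.eigenvectorBasis l).ofLp = inner ℝ (hN.eigenvectorBasis l)
        (hN.eigenvectorBasis k) := by
    intro k l
    rw [PiLp.inner_apply, dotProduct]
    simp
  have haa : a ⬝ᵥ a = 1 := by
    rw [ha, hdot, real_inner_self_eq_norm_sq, hon.1 i]
    norm_num
  have hbb : b ⬝ᵥ b = 1 := by
    rw [hb, hdot, real_inner_self_eq_norm_sq, hon.1 j]
    norm_num
  have hab : a ⬝ᵥ b = 0 := by
    rw [ha, hb, hdot, hon.2 (Ne.symm hij)]
  have hba : b ⬝ᵥ a = 0 := by rw [dotProduct_comm, hab]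
  have key : ∀ s t : ℝ, (s • a + t • b) ⬝ᵥ (N *ᵥ (s • a + t • b)) =
      s ^ 2 * hN.eigenvalues i + t ^ 2 * hN.eigenvalues j := by
    intro s t
    rw [mulVec_add, mulVec_smul, mulVec_smul, ha1, hb1]
    simp only [dotProduct_add, add_dotProduct, smul_dotProduct, dotProduct_smul, haa, hbb, hab,
      hba, smul_eq_mul]
    ring
  by_cases h0 : v ⬝ᵥ a = 0
  · have h1 := h a h0
    have h2 := key 1 0
    simp only [one_smul, zero_smul, add_zero] at h2
    rw [h2] at h1
    linarith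
  · have h1 := h ((v ⬝ᵥ b) • a + (-(v ⬝ᵥ a)) • b) (by
      rw [dotProduct_add, dotProduct_smul, dotProduct_smul, smul_eq_mul, smul_eq_mul]
      ring)
    rw [key] at h1
    have h2 : 0 < (-(v ⬝ᵥ a)) ^ 2 * hN.eigenvalues j := by
      exact mul_pos (sq_pos_of_ne_zero (neg_ne_zero.2 h0)) hj
    have h3 : 0 ≤ (v ⬝ᵥ b) ^ 2 * hN.eigenvalues i := by positivity
    linarith

/-- the centre: the entries are `1` for neighbours in the pentagon and `12/5` otherwise -/
noncomputable def M0 : Matrix (Fin 5) (Fin 5) ℝ :=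
  !![0, 1, 12/5, 12/5, 1;
     1, 0, 1, 12/5, 12/5;
     12/5, 1, 0, 1, 12/5;
     12/5, 12/5, 1, 0, 1;
     1, 12/5, 12/5, 1, 0]

/-- the form on four indices along a path -/
lemma path_form {m12 m23 m34 m13 m24 m14 : ℝ} (h12 : |m12 - 1| ≤ 1/50) (h23 : |m23 - 1| ≤ 1/50)
    (h34 : |m34 - 1| ≤ 1/50) (h13 : |m13 - 12/5| ≤ 1/50) (h24 : |m24 - 12/5| ≤ 1/50)
    (h14 : |m14 - 12/5| ≤ 1/50) {x y z w : ℝ} (hs : x + y + z + w = 0) :
    m12 * (x * y) + m23 * (y * z) + m34 * (z * w) + m13 * (x * z) + m24 * (y * w) +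
      m14 * (x * w) ≤ 0 := by
  have hb : ∀ (m c a b : ℝ), |m - c| ≤ 1/50 → m * (a * b) ≤ c * (a * b) + (a ^ 2 + b ^ 2) / 100 := by
    intro m c a b hm
    have h1 : (m - c) * (a * b) ≤ |m - c| * |a * b| := by
      rw [← abs_mul]
      exact le_abs_self _
    have h2 : |m - c| * |a * b| ≤ 1/50 * |a * b| := mul_le_mul_of_nonneg_right hm (abs_nonneg _)
    have h3 : |a * b| ≤ (a ^ 2 + b ^ 2) / 2 := by
      rw [abs_le]
      constructor <;> nlinarith [sq_nonneg (a - b), sq_nonneg (a + b)]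
    nlinarith
  have e1 := hb _ _ x y h12
  have e2 := hb _ _ y z h23
  have e3 := hb _ _ z w h34
  have e4 := hb _ _ x z h13
  have e5 := hb _ _ y w h24
  have e6 := hb _ _ x w h14
  have hw : w = -(x + y + z) := by linarith
  have hfin : 1 * (x * y) + 1 * (y * z) + 1 * (z * w) + 12/5 * (x * z) + 12/5 * (y * w) +
      12/5 * (x * w) + 3 * (x ^ 2 + y ^ 2 + z ^ 2 + w ^ 2) / 100 ≤ 0 := by
    subst hw
    nlinarith [sq_nonneg (x + y + y + x), sq_nonneg (x + y), sq_nonneg (y - z),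
      sq_nonneg (x - (-(x + y + z))), sq_nonneg (7 * (x - (-(x + y + z))) + 5 * (y - z)),
      sq_nonneg (7 * (x - (-(x + y + z))) + 4 * (y - z)),
      sq_nonneg (5 * (x - (-(x + y + z))) + 3 * (y - z)), sq_nonneg (y + z)]
  linarith

lemma form_eq {M : Matrix (Fin 5) (Fin 5) ℝ} (hs : M.IsSymm) (hd : ∀ i, M i i = 0)
    (f : Fin 4 → Fin 5) (x : Fin 4 → ℝ) :
    x ⬝ᵥ (M.submatrix f f *ᵥ x) = 2 * (M (f 0) (f 1) * (x 0 * x 1) + M (f 0) (f 2) * (x 0 * x 2) +
      M (f 0) (f 3) * (x 0 * x 3) + M (f 1) (f 2) * (x 1 * x 2) + M (f 1) (f 3) * (x 1 * x 3) +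
      M (f 2) (f 3) * (x 2 * x 3)) := by
  simp only [dotProduct, mulVec, Fin.sum_univ_four, submatrix_apply, hd]
  rw [hs.apply (f 0) (f 1), hs.apply (f 0) (f 2), hs.apply (f 0) (f 3), hs.apply (f 1) (f 2),
    hs.apply (f 1) (f 3), hs.apply (f 2) (f 3)]
  ring

theorem hyp {M : Matrix (Fin 5) (Fin 5) ℝ} (hs : M.IsSymm) (hd : ∀ i, M i i = 0)
    (hM : ∀ i j, |M i j - M0 i j| ≤ 1/50) : Hypothesis M := by
  have hE : ∀ i j c, M0 i j = c → |M i j - c| ≤ 1/50 := fun i j c h => h ▸ hM i j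
  have m01 := hE 0 1 1 (by simp [M0])
  have m02 := hE 0 2 (12/5) (by simp [M0])
  have m03 := hE 0 3 (12/5) (by simp [M0])
  have m04 := hE 0 4 1 (by simp [M0])
  have m12 := hE 1 2 1 (by simp [M0])
  have m13 := hE 1 3 (12/5) (by simp [M0])
  have m14 := hE 1 4 (12/5) (by simp [M0])
  have m23 := hE 2 3 1 (by simp [M0])
  have m24 := hE 2 4 (12/5) (by simp [M0])
  have m34 := hE 3 4 1 (by simp [M0])
  refine ⟨hs, hd, ?_, ?_⟩
  · have hpos : ∀ i j : Fin 5, i < j → 0 ≤ M i j := by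
      intro i j hij
      have h1 := abs_le.1 (hM i j)
      have h2 : 1 ≤ M0 i j := by
        fin_cases i <;> fin_cases j <;> first | (exact absurd hij (by decide)) | (simp [M0]; done) |
          (simp [M0]; norm_num)
      linarith [h1.1]
    intro i j
    rcases lt_trichotomy i j with h | h | h
    · exact hpos i j h
    · rw [h, hd]
    · rw [← hs.apply i j]
      exact hpos j i h
  · intro m
    have hH : (M.submatrix m.succAbove m.succAbove).IsHermitian := by
      rw [Matrix.IsHermitian, Matrix.conjTranspose_eq_transpose_of_trivial, Matrix.transpose_submatrix,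
        hs.eq]
    apply atMostOne hH (fun _ => 1)
    intro x hx
    rw [form_eq hs hd]
    simp only [dotProduct, Fin.sum_univ_four, one_mul] at hx
    fin_cases m
    · have := path_form m12 m23 m34 m13 m24 m14 (x := x 0) (y := x 1) (z := x 2) (w := x 3) hx
      change 2 * (M 1 2 * (x 0 * x 1) + M 1 3 * (x 0 * x 2) + M 1 4 * (x 0 * x 3) +
        M 2 3 * (x 1 * x 2) + M 2 4 * (x 1 * x 3) + M 3 4 * (x 2 * x 3)) ≤ 0
      linarith
    · have := path_form m23 m34 m04 m24 m03 m02 (x := x 1) (y := x 2) (z := x 3) (w := x 0)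
        (by linarith)
      change 2 * (M 0 2 * (x 0 * x 1) + M 0 3 * (x 0 * x 2) + M 0 4 * (x 0 * x 3) +
        M 2 3 * (x 1 * x 2) + M 2 4 * (x 1 * x 3) + M 3 4 * (x 2 * x 3)) ≤ 0
      linarith
    · have := path_form m34 m04 m01 m03 m14 m13 (x := x 2) (y := x 3) (z := x 0) (w := x 1)
        (by linarith)
      change 2 * (M 0 1 * (x 0 * x 1) + M 0 3 * (x 0 * x 2) + M 0 4 * (x 0 * x 3) +
        M 1 3 * (x 1 * x 2) + M 1 4 * (x 1 * x 3) + M 3 4 * (x 2 * x 3)) ≤ 0
      linarith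
    · have := path_form m04 m01 m12 m14 m02 m24 (x := x 3) (y := x 0) (z := x 1) (w := x 2)
        (by linarith)
      change 2 * (M 0 1 * (x 0 * x 1) + M 0 2 * (x 0 * x 2) + M 0 4 * (x 0 * x 3) +
        M 1 2 * (x 1 * x 2) + M 1 4 * (x 1 * x 3) + M 2 4 * (x 2 * x 3)) ≤ 0
      linarith
    · have := path_form m01 m12 m23 m02 m13 m03 (x := x 0) (y := x 1) (z := x 2) (w := x 3) hx
      change 2 * (M 0 1 * (x 0 * x 1) + M 0 2 * (x 0 * x 2) + M 0 3 * (x 0 * x 3) +
        M 1 2 * (x 1 * x 2) + M 1 3 * (x 1 * x 3) + M 2 3 * (x 2 * x 3)) ≤ 0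
      linarith

theorem not_real {M : Matrix (Fin 5) (Fin 5) ℝ}
    (hM : ∀ i j, |M i j - M0 i j| ≤ 1/50) : ¬ Realizable M := by
  rintro ⟨A, hA, h⟩
  have hE : ∀ i j c, M0 i j = c → |M i j - c| ≤ 1/50 := fun i j c h => h ▸ hM i j
  have m01 := abs_le.1 (hE 0 1 1 (by simp [M0]))
  have m02 := abs_le.1 (hE 0 2 (12/5) (by simp [M0]))
  have m03 := abs_le.1 (hE 0 3 (12/5) (by simp [M0]))
  have m04 := abs_le.1 (hE 0 4 1 (by simp [M0]))
  have m12 := abs_le.1 (hE 1 2 1 (by simp [M0]))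
  have m13 := abs_le.1 (hE 1 3 (12/5) (by simp [M0]))
  have m14 := abs_le.1 (hE 1 4 (12/5) (by simp [M0]))
  have m23 := abs_le.1 (hE 2 3 1 (by simp [M0]))
  have m24 := abs_le.1 (hE 2 4 (12/5) (by simp [M0]))
  have m34 := abs_le.1 (hE 3 4 1 (by simp [M0]))
  have hv : ∀ i j : Fin 5, i < j → 0 < M i j → (projArea A i j).toReal = M i j := by
    intro i j hij hp
    rw [h i j hij, ENNReal.toReal_ofReal hp.le]
  have a01 := hv 0 1 (by decide) (by linarith [m01.1])
  have a02 := hv 0 2 (by decide) (by linarith [m02.1])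
  have a03 := hv 0 3 (by decide) (by linarith [m03.1])
  have a04 := hv 0 4 (by decide) (by linarith [m04.1])
  have a12 := hv 1 2 (by decide) (by linarith [m12.1])
  have a13 := hv 1 3 (by decide) (by linarith [m13.1])
  have a14 := hv 1 4 (by decide) (by linarith [m14.1])
  have a23 := hv 2 3 (by decide) (by linarith [m23.1])
  have a24 := hv 2 4 (by decide) (by linarith [m24.1])
  have a34 := hv 3 4 (by decide) (by linarith [m34.1])
  have w0 := width_nonneg hA 0
  have w1 := width_nonneg hA 1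
  have w2 := width_nonneg hA 2
  have w3 := width_nonneg hA 3
  have w4 := width_nonneg hA 4
  have hw0 : 0 < coordWidth A 0 := by
    rcases w0.eq_or_lt with h0 | h0
    · rw [area_zero hA h0.symm 1] at a01
      simp only [ENNReal.toReal_zero] at a01
      linarith [m01.1]
    · exact h0
  have e1 := width_area hA 0 1 2
  have e2 := width_area hA 1 2 3
  have e3 := width_area hA 2 3 4
  have e4 := width_area hA 3 4 0
  have e5 := width_area hA 4 0 1
  rw [area_swap hA 3 0, area_swap hA 4 0] at e4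
  rw [area_swap hA 4 1, area_swap hA 4 0] at e5
  rw [a02, a01, a12] at e1
  rw [a13, a12, a23] at e2
  rw [a24, a23, a34] at e3
  rw [a03, a34, a04] at e4
  rw [a14, a04, a01] at e5
  have l1 : coordWidth A 1 * (119/50) ≤ coordWidth A 1 * M 0 2 :=
    mul_le_mul_of_nonneg_left (by linarith [m02.1]) w1
  have l2 : coordWidth A 2 * (119/50) ≤ coordWidth A 2 * M 1 3 :=
    mul_le_mul_of_nonneg_left (by linarith [m13.1]) w2
  have l3 : coordWidth A 3 * (119/50) ≤ coordWidth A 3 * M 2 4 :=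
    mul_le_mul_of_nonneg_left (by linarith [m24.1]) w3
  have l4 : coordWidth A 4 * (119/50) ≤ coordWidth A 4 * M 0 3 :=
    mul_le_mul_of_nonneg_left (by linarith [m03.1]) w4
  have l5 : coordWidth A 0 * (119/50) ≤ coordWidth A 0 * M 1 4 :=
    mul_le_mul_of_nonneg_left (by linarith [m14.1]) w0
  have u : ∀ (i : Fin 5) (c : ℝ), c - 1 ≤ 1/50 → coordWidth A i * c ≤ coordWidth A i * (51/50) :=
    fun i c hc => mul_le_mul_of_nonneg_left (by linarith) (width_nonneg hA i)
  have u1 := u 2 _ m01.2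
  have u2 := u 0 _ m12.2
  have u3 := u 3 _ m12.2
  have u4 := u 1 _ m23.2
  have u5 := u 4 _ m23.2
  have u6 := u 2 _ m34.2
  have u7 := u 0 _ m34.2
  have u8 := u 3 _ m04.2
  have u9 := u 1 _ m04.2
  have u10 := u 4 _ m01.2
  linarith

end Q189.AR
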