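import Mathlib

/-! MP_e9cb08_gt: the one-dimensional inequality. -/

set_option autoImplicit false

namespace Pool.Agent.Q189.BI

open MeasureTheory Set

/-- the square of a nonnegative function controls `g g'`, also where `g` is not differentiable -/
theorem two_mul_deriv_le {g : ℝ → ℝ} (t : ℝ) (h0 : 0 ≤ g t) :
    2 * (g t * |deriv g t|) ≤ |deriv (fun x => g x ^ 2) t| := by
  by_cases hd : DifferentiableAt ℝ g t
  · have h1 : deriv (fun x => g x ^ 2) t = 2 * g t * deriv g t := by
      have := (hd.hasDerivAt.fun_pow 2).deriv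
      simpa using this
    have h2 : |2 * g t * deriv g t| = 2 * g t * |deriv g t| := by
      rw [abs_mul, abs_of_nonneg (mul_nonneg (by norm_num) h0)]
    rw [h1, h2]
    linarith
  · rw [deriv_zero_of_not_differentiableAt hd]
    simp

/-- on an interval where `g ≥ 0` is monotone -/
theorem lint_mono {g : ℝ → ℝ} {a b : ℝ} (hab : a ≤ b) (h0 : ∀ t, 0 ≤ g t)
    (hg : MonotoneOn g (Icc a b)) :
    ∫⁻ t in Icc a b, ENNReal.ofReal (2 * (g t * |deriv g t|)) ≤
      ENNReal.ofReal (g b ^ 2 - g a ^ 2) := by
  have hm : MonotoneOn (fun x => g x ^ 2) (Icc a b) := by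
    intro x hx y hy hxy
    exact pow_le_pow_left₀ (h0 x) (hg hx hy hxy) 2
  have hm' : MonotoneOn (fun x => g x ^ 2) (uIcc a b) := by rwa [uIcc_of_le hab]
  have hi := hm'.intervalIntegrable_deriv
  have hle := hm'.intervalIntegral_deriv_mem_uIcc
  have h3 : g a ^ 2 ≤ g b ^ 2 := hm (left_mem_Icc.mpr hab) (right_mem_Icc.mpr hab) hab
  rw [uIcc_of_le (by simpa using h3)] at hle
  rw [intervalIntegrable_iff_integrableOn_Ioo_of_le hab] at hi
  have hpos : ∀ t ∈ Ioo a b, 0 ≤ deriv (fun x => g x ^ 2) t := by
    intro t ht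
    rw [← derivWithin_of_mem_nhds (Icc_mem_nhds ht.1 ht.2)]
    exact hm.derivWithin_nonneg
  calc ∫⁻ t in Icc a b, ENNReal.ofReal (2 * (g t * |deriv g t|))
      = ∫⁻ t in Ioo a b, ENNReal.ofReal (2 * (g t * |deriv g t|)) := by
        rw [restrict_Ioo_eq_restrict_Icc]
    _ ≤ ∫⁻ t in Ioo a b, ENNReal.ofReal (deriv (fun x => g x ^ 2) t) := by
        apply setLIntegral_mono' measurableSet_Ioo
        intro t ht
        apply ENNReal.ofReal_le_ofReal
        rw [← abs_of_nonneg (hpos t ht)]
        exact two_mul_deriv_le t (h0 t)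
    _ = ENNReal.ofReal (∫ t in Ioo a b, deriv (fun x => g x ^ 2) t) := by
        rw [ofReal_integral_eq_lintegral_ofReal hi]
        rw [Filter.EventuallyLE, ae_restrict_iff' measurableSet_Ioo]
        exact Filter.Eventually.of_forall hpos
    _ ≤ ENNReal.ofReal (g b ^ 2 - g a ^ 2) := by
        apply ENNReal.ofReal_le_ofReal
        have h4 := hle.2
        rw [intervalIntegral.integral_of_le hab, integral_Ioc_eq_integral_Ioo] at h4
        simpa using h4

/-- reflection -/
theorem lint_anti {g : ℝ → ℝ} {a b : ℝ} (hab : a ≤ b) (h0 : ∀ t, 0 ≤ g t)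
    (hg : AntitoneOn g (Icc a b)) :
    ∫⁻ t in Icc a b, ENNReal.ofReal (2 * (g t * |deriv g t|)) ≤
      ENNReal.ofReal (g a ^ 2 - g b ^ 2) := by
  have h1 := lint_mono (g := fun t => g (-t)) (a := -b) (b := -a) (by linarith)
    (fun t => h0 (-t)) (by
      intro x hx y hy hxy
      apply hg
      · exact ⟨by linarith [hy.2], by linarith [hy.1]⟩
      · exact ⟨by linarith [hx.2], by linarith [hx.1]⟩
      · linarith)
  simp only [neg_neg] at h1
  refine le_trans (le_of_eq ?_) h1
  have h2 : ∀ t, deriv (fun t => g (-t)) t = - deriv g (-t) := fun t => deriv_comp_neg g t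
  simp only [h2, abs_neg]
  have h3 := (Measure.measurePreserving_neg (volume : Measure ℝ)).setLIntegral_comp_emb
    (MeasurableEquiv.neg ℝ).measurableEmbedding
    (fun t => ENNReal.ofReal (2 * (g t * |deriv g t|))) (Icc (-b) (-a))
  rw [h3]
  congr 2
  ext t
  simp only [mem_Icc, mem_image]
  constructor
  · intro ht
    exact ⟨-t, ⟨by linarith [ht.2], by linarith [ht.1]⟩, by simp⟩
  · rintro ⟨s, hs, rfl⟩
    exact ⟨by linarith [hs.2], by linarith [hs.1]⟩

/-- trapezoidal upper bound for convex functions -/
theorem trap {g : ℝ → ℝ} {a b : ℝ} (hab : a ≤ b) (hc : ConvexOn ℝ univ g)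
    (hcont : Continuous g) :
    ∫ t in a..b, g t ≤ (b - a) * (g a + g b) / 2 := by
  rcases hab.eq_or_lt with rfl | hlt
  · simp
  · have h1 : ∫ t in a..b, g t ≤ ∫ t in a..b, (g a + (g b - g a) / (b - a) * (t - a)) := by
      apply intervalIntegral.integral_mono_on hab (hcont.intervalIntegrable a b)
      · exact (by fun_prop : Continuous fun t => g a + (g b - g a) / (b - a) * (t - a)).intervalIntegrable a b
      · intro t ht
        have hne : b - a ≠ 0 := by linarith
        have w1 : 0 ≤ (b - t) / (b - a) := div_nonneg (by linarith [ht.2]) (by linarith)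
        have w2 : 0 ≤ (t - a) / (b - a) := div_nonneg (by linarith [ht.1]) (by linarith)
        have h2 := hc.2 (mem_univ a) (mem_univ b) w1 w2 (by field_simp; ring)
        have h3 : ((b - t) / (b - a)) • a + ((t - a) / (b - a)) • b = t := by
          simp only [smul_eq_mul]; field_simp; ring
        rw [h3] at h2
        refine h2.trans (le_of_eq ?_)
        simp only [smul_eq_mul]
        field_simp
        ring
    refine h1.trans (le_of_eq ?_)
    have hne : b - a ≠ 0 := by linarith
    have h4 : ∫ t in a..b, (g a + (g b - g a) / (b - a) * (t - a)) =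
        (b - a) * g a + (g b - g a) / (b - a) * ((b ^ 2 - a ^ 2) / 2 - (b - a) * a) := by
      rw [intervalIntegral.integral_add (by simp) ((by fun_prop : Continuous fun t =>
        (g b - g a) / (b - a) * (t - a)).intervalIntegrable a b), intervalIntegral.integral_const,
        intervalIntegral.integral_const_mul, intervalIntegral.integral_sub (by simp) (by simp),
        integral_id, intervalIntegral.integral_const]
      simp
    rw [h4]
    field_simp
    ring

end Pool.Agent.Q189.BI
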