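import Pool.Agent.Q189.BI1

/-! MP_e9cb08_gt: the one-dimensional inequality on a chord. -/

set_option autoImplicit false

namespace Pool.Agent.Q189.BI

open MeasureTheory Set

/-- the elementary inequality behind the chord estimate -/
theorem elem (M g0 l : ℝ) : l * (M + g0) / 2 ≤
    (1 - √3 / 2) * M ^ 2 + (1 + √3 / 2) * g0 ^ 2 + l ^ 2 / 2 := by
  have h3 : √3 ^ 2 = 3 := Real.sq_sqrt (by norm_num)
  have e : (1 - √3 / 2) * M ^ 2 + (1 + √3 / 2) * g0 ^ 2 + l ^ 2 / 2 - l * (M + g0) / 2 =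
      ((2 - √3) * M - (2 + √3) * g0) ^ 2 / 8 + (M + g0 - 2 * l) ^ 2 / 8 := by
    linear_combination (-(M ^ 2 + g0 ^ 2 + 2 * M * g0) / 8) * h3
  have h1 := sq_nonneg ((2 - √3) * M - (2 + √3) * g0)
  have h2 := sq_nonneg (M + g0 - 2 * l)
  linarith

theorem elem2 (A B g0 x y : ℝ) (hx : 0 ≤ x) (hy : 0 ≤ y) (h0 : 0 ≤ g0) (hA : g0 ≤ A)
    (hB : g0 ≤ B) :
    √3 / 2 * ((A ^ 2 - g0 ^ 2) + (B ^ 2 - g0 ^ 2)) +
      (x * (A + g0) / 2 + y * (g0 + B) / 2) ≤ (x + y) ^ 2 / 2 + A ^ 2 + B ^ 2 := by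
  have h3 : √3 ^ 2 = 3 := Real.sq_sqrt (by norm_num)
  have h3' : √3 / 2 < 1 := by
    have h4 : √3 < 2 := by
      rw [Real.sqrt_lt' (by norm_num)]; norm_num
    linarith
  have h5 : 0 ≤ √3 := Real.sqrt_nonneg 3
  rcases le_total A B with h | h
  · have h1 := elem B g0 (x + y)
    have h2 : x * (A + g0) ≤ x * (B + g0) := mul_le_mul_of_nonneg_left (by linarith) hx
    have h6 : g0 ^ 2 ≤ A ^ 2 := pow_le_pow_left₀ h0 hA 2
    have h7 : (1 - √3 / 2) * g0 ^ 2 ≤ (1 - √3 / 2) * A ^ 2 :=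
      mul_le_mul_of_nonneg_left h6 (by linarith)
    nlinarith
  · have h1 := elem A g0 (x + y)
    have h2 : y * (g0 + B) ≤ y * (g0 + A) := mul_le_mul_of_nonneg_left (by linarith) hy
    have h6 : g0 ^ 2 ≤ B ^ 2 := pow_le_pow_left₀ h0 hB 2
    have h7 : (1 - √3 / 2) * g0 ^ 2 ≤ (1 - √3 / 2) * B ^ 2 :=
      mul_le_mul_of_nonneg_left h6 (by linarith)
    nlinarith

theorem mono_right {g : ℝ → ℝ} (hc : ConvexOn ℝ univ g) {t0 b : ℝ}
    (hmin : ∀ t ∈ Icc t0 b, g t0 ≤ g t) : MonotoneOn g (Icc t0 b) := by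
  intro x hx y hy hxy
  have h1 : x ∈ segment ℝ t0 y := by
    rw [segment_eq_Icc (by linarith [hy.1])]; exact ⟨hx.1, hxy⟩
  exact (hc.le_on_segment (mem_univ _) (mem_univ _) h1).trans
    (max_le (hmin y hy) le_rfl)

theorem anti_left {g : ℝ → ℝ} (hc : ConvexOn ℝ univ g) {t0 a : ℝ}
    (hmin : ∀ t ∈ Icc a t0, g t0 ≤ g t) : AntitoneOn g (Icc a t0) := by
  intro x hx y hy hxy
  have h1 : y ∈ segment ℝ x t0 := by
    rw [segment_eq_Icc (by linarith [hx.2])]; exact ⟨hxy, hy.2⟩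
  exact (hc.le_on_segment (mem_univ _) (mem_univ _) h1).trans
    (max_le le_rfl (hmin x hx))

theorem one_dim {g : ℝ → ℝ} (hc : ConvexOn ℝ univ g) (hcont : Continuous g)
    (h0 : ∀ t, 0 ≤ g t) {a b : ℝ} (hab : a ≤ b) (D : ℝ → ℝ) (hD : ∀ t, |D t| ≤ |deriv g t|) :
    ∫⁻ t in Icc a b, ENNReal.ofReal (g t * (√3 * |D t| + 1)) ≤
      ENNReal.ofReal ((b - a) ^ 2 / 2 + g a ^ 2 + g b ^ 2) := by
  obtain ⟨t0, ht0, hmin⟩ := isCompact_Icc.exists_isMinOn (nonempty_Icc.mpr hab)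
    hcont.continuousOn
  have hmin' : ∀ t ∈ Icc a b, g t0 ≤ g t := fun t ht => hmin ht
  have hr : MonotoneOn g (Icc t0 b) := mono_right hc fun t ht => hmin' t ⟨ht0.1.trans ht.1, ht.2⟩
  have hl : AntitoneOn g (Icc a t0) := anti_left hc fun t ht => hmin' t ⟨ht.1, ht.2.trans ht0.2⟩
  have e1 := lint_anti ht0.1 h0 hl
  have e2 := lint_mono ht0.2 h0 hr
  have hA : g t0 ≤ g a := hmin' a (left_mem_Icc.mpr hab)
  have hB : g t0 ≤ g b := hmin' b (right_mem_Icc.mpr hab)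
  have hA2 : 0 ≤ g a ^ 2 - g t0 ^ 2 := sub_nonneg.mpr (pow_le_pow_left₀ (h0 t0) hA 2)
  have hB2 : 0 ≤ g b ^ 2 - g t0 ^ 2 := sub_nonneg.mpr (pow_le_pow_left₀ (h0 t0) hB 2)
  have hun : Icc a b ⊆ Icc a t0 ∪ Icc t0 b := Icc_subset_Icc_union_Icc
  -- the derivative part
  have e3 : ∫⁻ t in Icc a b, ENNReal.ofReal (2 * (g t * |deriv g t|)) ≤
      ENNReal.ofReal ((g a ^ 2 - g t0 ^ 2) + (g b ^ 2 - g t0 ^ 2)) := by
    rw [ENNReal.ofReal_add hA2 hB2]
    exact ((lintegral_mono_set hun).trans (lintegral_union_le _ _ _)).trans (add_le_add e1 e2)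
  -- the plain part
  have e4 : ∫⁻ t in Icc a b, ENNReal.ofReal (g t) ≤
      ENNReal.ofReal ((t0 - a) * (g a + g t0) / 2 + (b - t0) * (g t0 + g b) / 2) := by
    rw [← ofReal_integral_eq_lintegral_ofReal (hcont.continuousOn.integrableOn_Icc)
      (Filter.Eventually.of_forall h0)]
    apply ENNReal.ofReal_le_ofReal
    rw [integral_Icc_eq_integral_Ioc, ← intervalIntegral.integral_of_le hab,
      ← intervalIntegral.integral_add_adjacent_intervals (hcont.intervalIntegrable a t0)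
        (hcont.intervalIntegrable t0 b)]
    exact add_le_add (trap ht0.1 hc hcont) (trap ht0.2 hc hcont)
  have hs3 : (0 : ℝ) ≤ √3 / 2 := by positivity
  calc ∫⁻ t in Icc a b, ENNReal.ofReal (g t * (√3 * |D t| + 1))
      ≤ ∫⁻ t in Icc a b, (ENNReal.ofReal (√3 / 2) * ENNReal.ofReal (2 * (g t * |deriv g t|)) +
          ENNReal.ofReal (g t)) := by
        apply lintegral_mono
        intro t
        simp only
        rw [← ENNReal.ofReal_mul hs3, ← ENNReal.ofReal_add (mul_nonneg hs3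
          (mul_nonneg (by norm_num) (mul_nonneg (h0 t) (abs_nonneg _)))) (h0 t)]
        apply ENNReal.ofReal_le_ofReal
        have h1 : √3 * (g t * |D t|) ≤ √3 * (g t * |deriv g t|) :=
          mul_le_mul_of_nonneg_left (mul_le_mul_of_nonneg_left (hD t) (h0 t)) (Real.sqrt_nonneg _)
        nlinarith
    _ = ENNReal.ofReal (√3 / 2) * (∫⁻ t in Icc a b, ENNReal.ofReal (2 * (g t * |deriv g t|))) +
          ∫⁻ t in Icc a b, ENNReal.ofReal (g t) := by
        rw [lintegral_add_right _ (by fun_prop), lintegral_const_mul' _ _ ENNReal.ofReal_ne_top]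
    _ ≤ ENNReal.ofReal (√3 / 2) * ENNReal.ofReal ((g a ^ 2 - g t0 ^ 2) + (g b ^ 2 - g t0 ^ 2)) +
          ENNReal.ofReal ((t0 - a) * (g a + g t0) / 2 + (b - t0) * (g t0 + g b) / 2) :=
        add_le_add (mul_le_mul_right e3 _) e4
    _ = ENNReal.ofReal (√3 / 2 * ((g a ^ 2 - g t0 ^ 2) + (g b ^ 2 - g t0 ^ 2)) +
          ((t0 - a) * (g a + g t0) / 2 + (b - t0) * (g t0 + g b) / 2)) := by
        rw [← ENNReal.ofReal_mul hs3, ← ENNReal.ofReal_add (mul_nonneg hs3 (add_nonneg hA2 hB2))]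
        have h1 := mul_nonneg (sub_nonneg.mpr ht0.1) (add_nonneg (h0 a) (h0 t0))
        have h2 := mul_nonneg (sub_nonneg.mpr ht0.2) (add_nonneg (h0 t0) (h0 b))
        linarith
    _ ≤ ENNReal.ofReal ((b - a) ^ 2 / 2 + g a ^ 2 + g b ^ 2) := by
        apply ENNReal.ofReal_le_ofReal
        have h1 := elem2 (g a) (g b) (g t0) (t0 - a) (b - t0) (by linarith [ht0.1])
          (by linarith [ht0.2]) (h0 t0) hA hB
        have h2 : t0 - a + (b - t0) = b - a := by ring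
        rw [h2] at h1
        exact h1

end Pool.Agent.Q189.BI
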