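import Pool.Agent.Q189.BI2

/-! MP_e9cb08_gt: chords of a compact convex set in a fixed direction. -/

set_option autoImplicit false
set_option linter.unusedSectionVars false

namespace Pool.Agent.Q189.BI

open MeasureTheory Set Measure Module
open scoped RealInnerProductSpace

variable {V : Type} [NormedAddCommGroup V] [InnerProductSpace ℝ V] [FiniteDimensional ℝ V]
  [MeasurableSpace V] [BorelSpace V]

/-- the hyperplane orthogonal to `u` -/
noncomputable abbrev W (u : V) : Submodule ℝ V := (Submodule.span ℝ {u})ᗮ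

/-- orthogonal projection to the hyperplane -/
noncomputable def pr (u : V) : V → W u := fun y => (W u).orthogonalProjectionOnto y

theorem continuous_pr (u : V) : Continuous (pr u) :=
  (W u).orthogonalProjectionOnto.continuous

theorem inner_W {u : V} (p : W u) : ⟪u, (p : V)⟫ = 0 := by
  have := p.2
  rw [Submodule.mem_orthogonal_singleton_iff_inner_right] at this
  exact this

/-- points of the line through `p` -/
def pt (u : V) (t : ℝ) (p : W u) : V := t • u + (p : V)

theorem inner_pt {u : V} (hu : ‖u‖ = 1) (t : ℝ) (p : W u) : ⟪u, pt u t p⟫ = t := by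
  rw [pt, inner_add_right, inner_smul_right, inner_W, real_inner_self_eq_norm_sq, hu]
  ring

theorem pr_pt {u : V} (t : ℝ) (p : W u) : pr u (pt u t p) = p := by
  rw [pr, pt, map_add, map_smul, Submodule.orthogonalProjectionOnto_mem_subspace_eq_self]
  have : (W u).orthogonalProjectionOnto u = 0 := by
    rw [Submodule.orthogonalProjectionOnto_eq_zero_iff]
    exact Submodule.le_orthogonal_orthogonal _ (Submodule.mem_span_singleton_self u)
  rw [this, smul_zero, zero_add]

theorem pt_pr {u : V} (hu : ‖u‖ = 1) (y : V) : pt u ⟪u, y⟫ (pr u y) = y := by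
  have h1 : ((W u).orthogonalProjectionOnto y : V) =
      y - (Submodule.span ℝ {u}).orthogonalProjectionOnto y := by
    rw [Submodule.orthogonalProjectionOnto_orthogonal]
    rfl
  have h2 : ((Submodule.span ℝ {u}).orthogonalProjectionOnto y : V) = ⟪u, y⟫ • u := by
    rw [Submodule.coe_orthogonalProjectionOnto_apply, Submodule.starProjection_unit_singleton ℝ hu]
  rw [pt, pr, h1, h2]
  abel

theorem norm_pt_sq {u : V} (hu : ‖u‖ = 1) (t : ℝ) (p : W u) :
    ‖pt u t p‖ ^ 2 = t ^ 2 + ‖(p : V)‖ ^ 2 := by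
  rw [pt, @norm_add_sq_real, norm_smul, real_inner_smul_left, inner_W, hu, Real.norm_eq_abs]
  rw [mul_one, sq_abs]
  ring

theorem continuous_pt (u : V) : Continuous (fun q : ℝ × W u => pt u q.1 q.2) := by
  unfold pt
  fun_prop

variable (C : Set V) (u : V)

/-- the chord over `p` -/
def Tp (p : W u) : Set ℝ := {t | pt u t p ∈ C}

/-- lower end -/
noncomputable def lo (p : W u) : ℝ := sInf (Tp C u p)

/-- upper end -/
noncomputable def hi (p : W u) : ℝ := sSup (Tp C u p)

variable {C u}

theorem Tp_bounded (hC : IsCompact C) (hu : ‖u‖ = 1) (p : W u) :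
    ∃ R, ∀ t ∈ Tp C u p, |t| ≤ R := by
  obtain ⟨R, hR⟩ := hC.isBounded.exists_norm_le
  refine ⟨R, fun t ht => ?_⟩
  have h1 := hR _ ht
  have h2 : |⟪u, pt u t p⟫| ≤ ‖u‖ * ‖pt u t p‖ := abs_real_inner_le_norm _ _
  rw [inner_pt hu, hu, one_mul] at h2
  exact h2.trans h1

theorem isCompact_Tp (hC : IsCompact C) (hu : ‖u‖ = 1) (p : W u) : IsCompact (Tp C u p) := by
  obtain ⟨R, hR⟩ := Tp_bounded hC hu p
  refine Metric.isCompact_of_isClosed_isBounded ?_ ?_
  · exact hC.isClosed.preimage ((continuous_pt u).comp (Continuous.prodMk_left p))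
  · rw [isBounded_iff_forall_norm_le]
    exact ⟨R, hR⟩

theorem Tp_eq (hC : IsCompact C) (hCc : Convex ℝ C) (hu : ‖u‖ = 1) (p : W u)
    (hne : (Tp C u p).Nonempty) : Tp C u p = Icc (lo C u p) (hi C u p) := by
  have hc := isCompact_Tp hC hu p
  apply Subset.antisymm
  · intro t ht
    exact ⟨csInf_le hc.bddBelow ht, le_csSup hc.bddAbove ht⟩
  · have hcv : Convex ℝ (Tp C u p) := by
      intro s hs t ht a b ha hb hab
      have : pt u (a • s + b • t) p = a • pt u s p + b • pt u t p := by
        simp only [pt, smul_add, smul_eq_mul, add_smul, mul_smul]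
        have h2 : (p : V) = a • (p : V) + b • (p : V) := by rw [← add_smul, hab, one_smul]
        nth_rewrite 1 [h2]
        abel
      change pt u (a • s + b • t) p ∈ C
      rw [this]
      exact hCc hs ht ha hb hab
    intro t ht
    exact hcv.ordConnected.out (hc.sInf_mem hne) (hc.sSup_mem hne) ht

theorem lo_hi_mem (hC : IsCompact C) (hu : ‖u‖ = 1) (p : W u)
    (hne : (Tp C u p).Nonempty) : pt u (lo C u p) p ∈ frontier C ∧
      pt u (hi C u p) p ∈ frontier C := by
  have hc := isCompact_Tp hC hu p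
  have hcont : Continuous fun t : ℝ => pt u t p :=
    (continuous_pt u).comp (Continuous.prodMk_left p)
  constructor
  · refine ⟨subset_closure (hc.sInf_mem hne), fun hint => ?_⟩
    have h1 : {t | pt u t p ∈ interior C} ∈ nhds (lo C u p) :=
      (isOpen_interior.preimage hcont).mem_nhds hint
    obtain ⟨ε, hε, hball⟩ := Metric.mem_nhds_iff.mp h1
    have h2 : lo C u p - ε / 2 ∈ Metric.ball (lo C u p) ε := by
      rw [Metric.mem_ball, Real.dist_eq]
      rw [show lo C u p - ε / 2 - lo C u p = -(ε / 2) by ring, abs_neg, abs_of_pos (by positivity)]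
      linarith
    have h3 : lo C u p - ε / 2 ∈ Tp C u p := by
      have h5 : pt u (lo C u p - ε / 2) p ∈ interior C := hball h2
      have h6 := interior_subset h5
      exact h6
    have h4 : lo C u p ≤ lo C u p - ε / 2 := csInf_le hc.bddBelow h3
    linarith
  · refine ⟨subset_closure (hc.sSup_mem hne), fun hint => ?_⟩
    have h1 : {t | pt u t p ∈ interior C} ∈ nhds (hi C u p) :=
      (isOpen_interior.preimage hcont).mem_nhds hint
    obtain ⟨ε, hε, hball⟩ := Metric.mem_nhds_iff.mp h1
    have h2 : hi C u p + ε / 2 ∈ Metric.ball (hi C u p) ε := by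
      rw [Metric.mem_ball, Real.dist_eq]
      rw [show hi C u p + ε / 2 - hi C u p = ε / 2 by ring, abs_of_pos (by positivity)]
      linarith
    have h3 : hi C u p + ε / 2 ∈ Tp C u p := by
      have h5 : pt u (hi C u p + ε / 2) p ∈ interior C := hball h2
      have h6 := interior_subset h5
      exact h6
    have h4 : hi C u p + ε / 2 ≤ hi C u p := le_csSup hc.bddAbove h3
    linarith

theorem Tp_empty_lo (p : W u) (h : Tp C u p = ∅) : lo C u p = 0 ∧ hi C u p = 0 := by
  simp [lo, hi, h]

theorem measurableSet_shadow (hC : IsCompact C) : MeasurableSet (pr u '' C) :=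
  (hC.image (continuous_pr u)).isClosed.measurableSet

theorem Tp_nonempty_iff (hu : ‖u‖ = 1) (p : W u) : (Tp C u p).Nonempty ↔ p ∈ pr u '' C := by
  constructor
  · rintro ⟨t, ht⟩
    exact ⟨_, ht, pr_pt t p⟩
  · rintro ⟨y, hy, rfl⟩
    exact ⟨⟪u, y⟫, by change pt u ⟪u, y⟫ (pr u y) ∈ C; rw [pt_pr hu]; exact hy⟩

theorem measurable_hi (hC : IsCompact C) (hu : ‖u‖ = 1) : Measurable (hi C u) := by
  apply measurable_of_Ici
  intro c
  have h1 : IsCompact (C ∩ {y | c ≤ ⟪u, y⟫}) :=
    hC.inter_right (isClosed_le continuous_const (by fun_prop))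
  have h2 : MeasurableSet (pr u '' (C ∩ {y | c ≤ ⟪u, y⟫})) := measurableSet_shadow h1
  have h3 : hi C u ⁻¹' Ici c = (pr u '' (C ∩ {y | c ≤ ⟪u, y⟫})) ∪
      ((pr u '' C)ᶜ ∩ {_p | c ≤ 0}) := by
    ext p
    simp only [mem_preimage, mem_Ici, mem_union, mem_inter_iff, mem_compl_iff, mem_setOf_eq]
    by_cases hne : (Tp C u p).Nonempty
    · have hp := (Tp_nonempty_iff hu p).mp hne
      have hc := isCompact_Tp hC hu p
      constructor
      · intro h
        left
        refine ⟨pt u (hi C u p) p, ⟨hc.sSup_mem hne, ?_⟩, pr_pt _ _⟩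
        change c ≤ ⟪u, _⟫
        rw [inner_pt hu]; exact h
      · rintro (⟨y, ⟨hy, hyc⟩, rfl⟩ | ⟨h, -⟩)
        · have hmem : ⟪u, y⟫ ∈ Tp C u (pr u y) := by
            change pt u ⟪u, y⟫ (pr u y) ∈ C; rw [pt_pr hu]; exact hy
          exact le_trans hyc (le_csSup hc.bddAbove hmem)
        · exact absurd hp h
    · have hp : p ∉ pr u '' C := fun h => hne ((Tp_nonempty_iff hu p).mpr h)
      rw [not_nonempty_iff_eq_empty] at hne
      rw [(Tp_empty_lo p hne).2]
      constructor
      · intro h; right; exact ⟨hp, h⟩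
      · rintro (⟨y, ⟨hy, -⟩, rfl⟩ | ⟨-, h⟩)
        · exact absurd ⟨y, hy, rfl⟩ hp
        · exact h
  rw [h3]
  exact h2.union ((measurableSet_shadow hC).compl.inter (MeasurableSet.const _))

theorem measurable_lo (hC : IsCompact C) (hu : ‖u‖ = 1) : Measurable (lo C u) := by
  apply measurable_of_Iic
  intro c
  have h1 : IsCompact (C ∩ {y | ⟪u, y⟫ ≤ c}) :=
    hC.inter_right (isClosed_le (by fun_prop) continuous_const)
  have h2 : MeasurableSet (pr u '' (C ∩ {y | ⟪u, y⟫ ≤ c})) := measurableSet_shadow h1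
  have h3 : lo C u ⁻¹' Iic c = (pr u '' (C ∩ {y | ⟪u, y⟫ ≤ c})) ∪
      ((pr u '' C)ᶜ ∩ {_p | 0 ≤ c}) := by
    ext p
    simp only [mem_preimage, mem_Iic, mem_union, mem_inter_iff, mem_compl_iff, mem_setOf_eq]
    by_cases hne : (Tp C u p).Nonempty
    · have hp := (Tp_nonempty_iff hu p).mp hne
      have hc := isCompact_Tp hC hu p
      constructor
      · intro h
        left
        refine ⟨pt u (lo C u p) p, ⟨hc.sInf_mem hne, ?_⟩, pr_pt _ _⟩
        change ⟪u, _⟫ ≤ c
        rw [inner_pt hu]; exact h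
      · rintro (⟨y, ⟨hy, hyc⟩, rfl⟩ | ⟨h, -⟩)
        · have hmem : ⟪u, y⟫ ∈ Tp C u (pr u y) := by
            change pt u ⟪u, y⟫ (pr u y) ∈ C; rw [pt_pr hu]; exact hy
          exact le_trans (csInf_le hc.bddBelow hmem) hyc
        · exact absurd hp h
    · have hp : p ∉ pr u '' C := fun h => hne ((Tp_nonempty_iff hu p).mpr h)
      rw [not_nonempty_iff_eq_empty] at hne
      rw [(Tp_empty_lo p hne).1]
      constructor
      · intro h; right; exact ⟨hp, h⟩
      · rintro (⟨y, ⟨hy, -⟩, rfl⟩ | ⟨-, h⟩)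
        · exact absurd ⟨y, hy, rfl⟩ hp
        · exact h
  rw [h3]
  exact h2.union ((measurableSet_shadow hC).compl.inter (MeasurableSet.const _))

end Pool.Agent.Q189.BI
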