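import Pool.Agent.Q189.BI3

/-! MP_e9cb08_gt: the boundary integral in a fixed direction. -/

set_option autoImplicit false
set_option linter.unusedSectionVars false

namespace Pool.Agent.Q189.BI

open MeasureTheory Set Measure Module
open scoped RealInnerProductSpace

variable {V : Type} [NormedAddCommGroup V] [InnerProductSpace ℝ V] [FiniteDimensional ℝ V]
  [MeasurableSpace V] [BorelSpace V]

theorem finrank_W {u : V} (hu : ‖u‖ = 1) : finrank ℝ (W u) = finrank ℝ V - 1 := by
  have h0 : u ≠ 0 := by
    rintro rfl
    rw [norm_zero] at hu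
    exact zero_ne_one hu
  have h1 := (Submodule.span ℝ {u}).finrank_add_finrank_orthogonal
  rw [finrank_span_singleton h0] at h1
  change 1 + finrank ℝ (W u) = finrank ℝ V at h1
  omega

/-- orthogonal projections do not increase the Hausdorff measure -/
theorem volume_image_pr_le {u : V} (hu : ‖u‖ = 1) (s : Set V) :
    volume (pr u '' s) ≤ μHE[finrank ℝ V - 1] s := by
  rw [← finrank_W hu, ← InnerProductSpace.euclideanHausdorffMeasure_eq_volume (V := W u),
    euclideanHausdorffMeasure_def, euclideanHausdorffMeasure_def, Measure.smul_apply,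
    Measure.smul_apply]
  gcongr
  exact hausdorffMeasure_orthogonalProjectionOnto_le (W u) _ s (by positivity)

/-- lower bound for integrals over the image of a section of the projection -/
theorem section_le {u : V} (hu : ‖u‖ = 1) (f : W u → V) (hf : Measurable f)
    (hpr : ∀ p, pr u (f p) = p) (P : Set (W u)) (F : V → ENNReal)
    (hF : Measurable F) :
    ∫⁻ p in P, F (f p) ≤ ∫⁻ y in f '' P, F y ∂μHE[finrank ℝ V - 1] := by
  have h1 : (volume.restrict P).map f ≤
      (μHE[finrank ℝ V - 1] : Measure V).restrict (f '' P) := by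
    rw [Measure.le_iff]
    intro B hB
    rw [Measure.map_apply hf hB, Measure.restrict_apply (hf hB), Measure.restrict_apply hB]
    have h2 : f ⁻¹' B ∩ P = pr u '' (f '' (f ⁻¹' B ∩ P)) := by
      rw [← image_comp]
      have : pr u ∘ f = id := funext hpr
      rw [this, image_id]
    rw [h2]
    refine (volume_image_pr_le hu _).trans (measure_mono ?_)
    rintro _ ⟨p, ⟨hp1, hp2⟩, rfl⟩
    exact ⟨hp1, p, hp2, rfl⟩
  rw [← lintegral_map hF hf]
  exact lintegral_mono' h1 le_rfl

/-- the decomposition of space is measure preserving -/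
theorem mp_pt {u : V} (hu : ‖u‖ = 1) :
    MeasurePreserving (fun q : ℝ × W u => pt u q.1 q.2) volume volume := by
  have h1 := ((Submodule.span ℝ {u}).measurePreserving_measurableEquivProd (0 : V)).symm
  rw [InnerProductSpace.euclideanHausdorffMeasure_eq_volume] at h1
  have h2 := (LinearIsometryEquiv.toSpanUnitSingleton (𝕜 := ℝ) u hu).measurePreserving
  have h3 := h2.prod (MeasurePreserving.id (volume : Measure (W u)))
  have h4 := h1.comp h3
  have h5 : (((Submodule.span ℝ {u}).measurableEquivProd (0 : V)).symm ∘
      Prod.map (LinearIsometryEquiv.toSpanUnitSingleton (𝕜 := ℝ) u hu) id) =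
      fun q : ℝ × W u => pt u q.1 q.2 := by
    funext q
    simp [pt]
  rw [h5] at h4
  exact h4

theorem fubini {u : V} (hu : ‖u‖ = 1) (F : V → ENNReal) (hF : Measurable F) :
    ∫⁻ z, F z = ∫⁻ p : W u, ∫⁻ t : ℝ, F (pt u t p) := by
  rw [← (mp_pt hu).lintegral_comp hF]
  rw [Measure.volume_eq_prod, lintegral_prod_symm]
  exact (hF.comp (continuous_pt u).measurable).aemeasurable

end Pool.Agent.Q189.BI
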