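import Pool.Agent.Q189.BI4

/-! MP_e9cb08_gt: the directional inequality. -/

set_option autoImplicit false
set_option linter.unusedSectionVars false

namespace Pool.Agent.Q189.BI

open MeasureTheory Set Measure Module
open scoped RealInnerProductSpace

variable {V : Type} [NormedAddCommGroup V] [InnerProductSpace ℝ V] [FiniteDimensional ℝ V]
  [MeasurableSpace V] [BorelSpace V]

theorem convex_line {h : V → ℝ} (hc : ConvexOn ℝ univ h) (u : V) (p : W u) :
    ConvexOn ℝ univ (fun t : ℝ => h (pt u t p)) := by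
  refine ⟨convex_univ, fun s _ t _ a b ha hb hab => ?_⟩
  have e : pt u (a • s + b • t) p = a • pt u s p + b • pt u t p := by
    simp only [pt, smul_add, smul_eq_mul, add_smul, mul_smul]
    have h2 : (p : V) = a • (p : V) + b • (p : V) := by rw [← add_smul, hab, one_smul]
    nth_rewrite 1 [h2]
    abel
  simp only [e]
  exact hc.2 (mem_univ _) (mem_univ _) ha hb hab

theorem deriv_line {h : V → ℝ} (u : V) (p : W u) (t : ℝ) :
    |fderiv ℝ h (pt u t p) u| ≤ |deriv (fun t : ℝ => h (pt u t p)) t| := by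
  by_cases hd : DifferentiableAt ℝ h (pt u t p)
  · have h1 : HasDerivAt (fun t : ℝ => pt u t p) u t := by
      have h2 : HasDerivAt (fun t : ℝ => t • u + (p : V)) ((1 : ℝ) • u) t :=
        ((hasDerivAt_id t).smul_const u).add_const _
      rw [one_smul] at h2
      exact h2
    have h3 := hd.hasFDerivAt.comp_hasDerivAt t h1
    rw [show deriv (fun t : ℝ => h (pt u t p)) t = fderiv ℝ h (pt u t p) u from h3.deriv]
  · rw [fderiv_zero_of_not_differentiableAt hd]
    simp

theorem chord_le {h : V → ℝ} (hc : ConvexOn ℝ univ h) (hcont : Continuous h)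
    (h0 : ∀ y, 0 ≤ h y) {C : Set V} (hC : IsCompact C) (hCc : Convex ℝ C) {u : V}
    (hu : ‖u‖ = 1) (p : W u) (hp : lo C u p < hi C u p) :
    ∫⁻ t : ℝ, C.indicator (fun z => ENNReal.ofReal (h z * (√3 * |fderiv ℝ h z u| + 1)))
        (pt u t p) ≤
      ENNReal.ofReal (‖pt u (lo C u p) p‖ ^ 2 + h (pt u (lo C u p) p) ^ 2) +
      ENNReal.ofReal (‖pt u (hi C u p) p‖ ^ 2 + h (pt u (hi C u p) p) ^ 2) := by
  have hne : (Tp C u p).Nonempty := by
    rw [nonempty_iff_ne_empty]
    intro h1
    obtain ⟨h2, h3⟩ := Tp_empty_lo p h1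
    rw [h2, h3] at hp
    exact lt_irrefl _ hp
  have hT := Tp_eq hC hCc hu p hne
  have e1 : ∀ t : ℝ, C.indicator (fun z => ENNReal.ofReal (h z * (√3 * |fderiv ℝ h z u| + 1)))
      (pt u t p) = (Icc (lo C u p) (hi C u p)).indicator (fun t => ENNReal.ofReal
        (h (pt u t p) * (√3 * |fderiv ℝ h (pt u t p) u| + 1))) t := by
    intro t
    by_cases ht : t ∈ Icc (lo C u p) (hi C u p)
    · have ht' : pt u t p ∈ C := by rw [← hT] at ht; exact ht
      rw [indicator_of_mem ht', indicator_of_mem ht]
    · have ht' : pt u t p ∉ C := by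
        intro h1
        apply ht
        rw [← hT]; exact h1
      rw [indicator_of_notMem ht', indicator_of_notMem ht]
  rw [lintegral_congr e1, lintegral_indicator measurableSet_Icc]
  have hcl : Continuous (fun t : ℝ => h (pt u t p)) :=
    hcont.comp ((continuous_pt u).comp (Continuous.prodMk_left p))
  refine (one_dim (convex_line hc u p) hcl (fun t => h0 _) hp.le
    (fun t => fderiv ℝ h (pt u t p) u) (fun t => deriv_line u p t)).trans ?_
  rw [← ENNReal.ofReal_add (by positivity) (by positivity)]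
  apply ENNReal.ofReal_le_ofReal
  rw [norm_pt_sq hu, norm_pt_sq hu]
  nlinarith [sq_nonneg (lo C u p + hi C u p), sq_nonneg ‖(p : V)‖]

theorem directional {h : V → ℝ} (hc : ConvexOn ℝ univ h) (hcont : Continuous h)
    (h0 : ∀ y, 0 ≤ h y) {C : Set V} (hC : IsCompact C) (hCc : Convex ℝ C) {u : V}
    (hu : ‖u‖ = 1) :
    ∫⁻ z in C, ENNReal.ofReal (h z * (√3 * |fderiv ℝ h z u| + 1)) ≤
      ∫⁻ y in frontier C, ENNReal.ofReal (‖y‖ ^ 2 + h y ^ 2) ∂μHE[finrank ℝ V - 1] := by
  set P : Set (W u) := {p | lo C u p < hi C u p} with hP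
  have hlo := measurable_lo hC hu
  have hhi := measurable_hi hC hu
  have hPm : MeasurableSet P := measurableSet_lt hlo hhi
  have hFm : Measurable (fun y : V => ENNReal.ofReal (‖y‖ ^ 2 + h y ^ 2)) := by
    have := hcont.measurable
    fun_prop
  have hGm : Measurable (fun z : V => ENNReal.ofReal (h z * (√3 * |fderiv ℝ h z u| + 1))) := by
    have h1 := hcont.measurable
    have h2 : Measurable (fun z : V => fderiv ℝ h z u) := measurable_fderiv_apply_const ℝ h u
    have h3 : Measurable (fun z : V => |fderiv ℝ h z u|) := measurable_abs.comp h2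
    exact (h1.mul ((h3.const_mul _).add_const _)).ennreal_ofReal
  let fl : W u → V := fun p => pt u (lo C u p) p
  let fh : W u → V := fun p => pt u (hi C u p) p
  have hfl : Measurable fl := (continuous_pt u).measurable.comp (hlo.prodMk measurable_id)
  have hfh : Measurable fh := (continuous_pt u).measurable.comp (hhi.prodMk measurable_id)
  have hprm : Measurable (pr u) := (continuous_pr u).measurable
  have him : MeasurableSet (fh '' P) := by
    have : fh '' P = {y | pr u y ∈ P ∧ ⟪u, y⟫ = hi C u (pr u y)} := by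
      ext y
      constructor
      · rintro ⟨p, hp, rfl⟩
        refine ⟨?_, ?_⟩
        · change pr u (pt u (hi C u p) p) ∈ P
          rw [pr_pt]; exact hp
        · change ⟪u, pt u (hi C u p) p⟫ = hi C u (pr u (pt u (hi C u p) p))
          rw [pr_pt, inner_pt hu]
      · rintro ⟨h1, h2⟩
        refine ⟨pr u y, h1, ?_⟩
        change pt u (hi C u (pr u y)) (pr u y) = y
        rw [← h2, pt_pr hu]
    rw [this]
    exact (hprm hPm).inter (measurableSet_eq_fun (by fun_prop) (hhi.comp hprm))
  have hdis : Disjoint (fl '' P) (fh '' P) := by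
    rw [Set.disjoint_left]
    rintro _ ⟨p, hp, rfl⟩ ⟨q, hq, hqp⟩
    have h1 : q = p := by
      have := congrArg (pr u) hqp
      change pr u (pt u _ _) = pr u (pt u _ _) at this
      rwa [pr_pt, pr_pt] at this
    subst h1
    have h2 := congrArg (fun y => ⟪u, y⟫) hqp
    change ⟪u, pt u (hi C u q) q⟫ = ⟪u, pt u (lo C u q) q⟫ at h2
    rw [inner_pt hu, inner_pt hu] at h2
    exact absurd h2 (ne_of_gt hp)
  have hsub : fl '' P ∪ fh '' P ⊆ frontier C := by
    rintro y (⟨p, hp, rfl⟩ | ⟨p, hp, rfl⟩)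
    · have hne : (Tp C u p).Nonempty := by
        rw [nonempty_iff_ne_empty]
        intro h1
        obtain ⟨h2, h3⟩ := Tp_empty_lo p h1
        have hp' : lo C u p < hi C u p := hp
        rw [h2, h3] at hp'
        exact lt_irrefl _ hp'
      exact (lo_hi_mem hC hu p hne).1
    · have hne : (Tp C u p).Nonempty := by
        rw [nonempty_iff_ne_empty]
        intro h1
        obtain ⟨h2, h3⟩ := Tp_empty_lo p h1
        have hp' : lo C u p < hi C u p := hp
        rw [h2, h3] at hp'
        exact lt_irrefl _ hp'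
      exact (lo_hi_mem hC hu p hne).2
  have s1 := section_le hu fl hfl (fun p => pr_pt _ _) P _ hFm
  have s2 := section_le hu fh hfh (fun p => pr_pt _ _) P _ hFm
  calc ∫⁻ z in C, ENNReal.ofReal (h z * (√3 * |fderiv ℝ h z u| + 1))
      = ∫⁻ z, C.indicator (fun z => ENNReal.ofReal (h z * (√3 * |fderiv ℝ h z u| + 1))) z := by
        rw [lintegral_indicator hC.isClosed.measurableSet]
    _ = ∫⁻ p : W u, ∫⁻ t : ℝ, C.indicator (fun z => ENNReal.ofReal
          (h z * (√3 * |fderiv ℝ h z u| + 1))) (pt u t p) :=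
        fubini hu _ (hGm.indicator hC.isClosed.measurableSet)
    _ ≤ ∫⁻ p : W u, P.indicator (fun p => ENNReal.ofReal (‖fl p‖ ^ 2 + h (fl p) ^ 2) +
          ENNReal.ofReal (‖fh p‖ ^ 2 + h (fh p) ^ 2)) p := by
        apply lintegral_mono
        intro p
        by_cases hp : p ∈ P
        · rw [indicator_of_mem hp]
          exact chord_le hc hcont h0 hC hCc hu p hp
        · rw [indicator_of_notMem hp, nonpos_iff_eq_zero]
          -- the chord is null
          have hnull : volume (Tp C u p) = 0 := by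
            by_cases hne : (Tp C u p).Nonempty
            · rw [Tp_eq hC hCc hu p hne, Real.volume_Icc, ENNReal.ofReal_eq_zero]
              have : ¬ lo C u p < hi C u p := hp
              linarith
            · rw [not_nonempty_iff_eq_empty] at hne
              rw [hne, measure_empty]
          rw [lintegral_eq_zero_iff]
          · have h1 : (Tp C u p)ᶜ ∈ ae (volume : Measure ℝ) := by
              rw [mem_ae_iff, compl_compl]; exact hnull
            filter_upwards [h1] with t ht
            have : pt u t p ∉ C := ht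
            rw [indicator_of_notMem this]
            rfl
          · exact (hGm.indicator hC.isClosed.measurableSet).comp
              ((continuous_pt u).comp (Continuous.prodMk_left p)).measurable
    _ = ∫⁻ p in P, (ENNReal.ofReal (‖fl p‖ ^ 2 + h (fl p) ^ 2) +
          ENNReal.ofReal (‖fh p‖ ^ 2 + h (fh p) ^ 2)) := lintegral_indicator hPm _
    _ = (∫⁻ p in P, ENNReal.ofReal (‖fl p‖ ^ 2 + h (fl p) ^ 2)) +
          ∫⁻ p in P, ENNReal.ofReal (‖fh p‖ ^ 2 + h (fh p) ^ 2) :=
        lintegral_add_left (hFm.comp hfl) _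
    _ ≤ (∫⁻ y in fl '' P, ENNReal.ofReal (‖y‖ ^ 2 + h y ^ 2) ∂μHE[finrank ℝ V - 1]) +
          ∫⁻ y in fh '' P, ENNReal.ofReal (‖y‖ ^ 2 + h y ^ 2) ∂μHE[finrank ℝ V - 1] :=
        add_le_add s1 s2
    _ = ∫⁻ y in fl '' P ∪ fh '' P, ENNReal.ofReal (‖y‖ ^ 2 + h y ^ 2)
          ∂μHE[finrank ℝ V - 1] := (lintegral_union him hdis).symm
    _ ≤ ∫⁻ y in frontier C, ENNReal.ofReal (‖y‖ ^ 2 + h y ^ 2) ∂μHE[finrank ℝ V - 1] :=
        lintegral_mono_set hsub

end Pool.Agent.Q189.BI
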