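import Pool.Agent.Q189.BI5

/-! MP_e9cb08_gt: the inequality. -/

set_option autoImplicit false

namespace Pool.Agent.Q189.BI

open MeasureTheory Set Measure Module
open scoped RealInnerProductSpace

theorem planar_sq (x y : ℝ) :
    3 * (x ^ 2 + y ^ 2) ≤ (|x| + |x / 2 + √3 / 2 * y| + |-x / 2 + √3 / 2 * y|) ^ 2 := by
  have h3 : √3 ^ 2 = 3 := Real.sq_sqrt (by norm_num)
  set b := x / 2 + √3 / 2 * y with hb
  set c := -x / 2 + √3 / 2 * y with hc
  have hx : x = b - c := by rw [hb, hc]; ring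
  have e : 3 * (x ^ 2 + y ^ 2) = 2 * (x ^ 2 + b ^ 2 + c ^ 2) := by
    rw [hb, hc]; linear_combination (-y ^ 2) * h3
  rw [e]
  clear_value b c
  subst hx
  rcases abs_cases (b - c) with ⟨h1, h1'⟩ | ⟨h1, h1'⟩ <;>
  rcases abs_cases b with ⟨h2, h2'⟩ | ⟨h2, h2'⟩ <;>
  rcases abs_cases c with ⟨h4, h4'⟩ | ⟨h4, h4'⟩ <;>
  rw [h1, h2, h4] <;> nlinarith

theorem planar (x y : ℝ) :
    3 * √(x ^ 2 + y ^ 2) ≤ √3 * (|x| + |x / 2 + √3 / 2 * y| + |-x / 2 + √3 / 2 * y|) := by
  have h3 : √3 ^ 2 = 3 := Real.sq_sqrt (by norm_num)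
  have h1 : √3 * √(x ^ 2 + y ^ 2) ≤ |x| + |x / 2 + √3 / 2 * y| + |-x / 2 + √3 / 2 * y| := by
    rw [← Real.sqrt_mul (by norm_num)]
    exact Real.sqrt_le_iff.mpr ⟨by positivity, planar_sq x y⟩
  calc 3 * √(x ^ 2 + y ^ 2) = √3 * (√3 * √(x ^ 2 + y ^ 2)) := by
        rw [← mul_assoc, ← pow_two, h3]
    _ ≤ _ := mul_le_mul_of_nonneg_left h1 (Real.sqrt_nonneg _)

variable {m : ℕ}

/-- Euclidean space -/
abbrev E (m : ℕ) : Type := EuclideanSpace ℝ (Fin m)

theorem norm_comb {i j : Fin m} (hij : i ≠ j) (a b : ℝ) (hab : a ^ 2 + b ^ 2 = 1) :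
    ‖(a • EuclideanSpace.single i (1 : ℝ) + b • EuclideanSpace.single j (1 : ℝ) : E m)‖ = 1 := by
  have h1 : ‖(a • EuclideanSpace.single i (1 : ℝ) + b • EuclideanSpace.single j (1 : ℝ) : E m)‖ ^ 2
      = 1 := by
    rw [@norm_add_sq_real, norm_smul, norm_smul, real_inner_smul_left, real_inner_smul_right]
    have h2 : ⟪(EuclideanSpace.single i (1 : ℝ) : E m), EuclideanSpace.single j (1 : ℝ)⟫ = 0 := by
      rw [EuclideanSpace.inner_single_left]
      simp [hij]
    rw [h2]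
    simp [hab]
  have h3 : 0 ≤ ‖(a • EuclideanSpace.single i (1 : ℝ) + b • EuclideanSpace.single j (1 : ℝ) : E m)‖ :=
    norm_nonneg _
  nlinarith

theorem fderiv_comb (h : E m → ℝ) (z : E m) (i j : Fin m) (a b : ℝ) :
    fderiv ℝ h z (a • EuclideanSpace.single i (1 : ℝ) + b • EuclideanSpace.single j (1 : ℝ)) =
      a * (gradient h z) i + b * (gradient h z) j := by
  have h1 : ∀ u, fderiv ℝ h z u = ⟪gradient h z, u⟫ := by
    intro u
    rw [gradient, InnerProductSpace.toDual_symm_apply]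
  rw [h1, inner_add_right, inner_smul_right, inner_smul_right,
    EuclideanSpace.inner_single_right, EuclideanSpace.inner_single_right]
  simp

theorem sum_sqrt_le (hm : 1 ≤ m) (s : E m) :
    2 * ((m : ℝ) - 1) * ‖s‖ ≤
      ∑ i : Fin m, ∑ j ∈ Finset.univ.erase i, √(s i ^ 2 + s j ^ 2) := by
  have hn : ‖s‖ ^ 2 = ∑ i, s i ^ 2 := by
    rw [EuclideanSpace.norm_sq_eq]
    simp
  rcases (norm_nonneg s).eq_or_lt with h0 | hpos
  · rw [← h0, mul_zero]
    exact Finset.sum_nonneg fun i _ => Finset.sum_nonneg fun j _ => Real.sqrt_nonneg _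
  · have h1 : ∀ i : Fin m, ∀ j ∈ Finset.univ.erase i,
        s i ^ 2 + s j ^ 2 ≤ ‖s‖ * √(s i ^ 2 + s j ^ 2) := by
      intro i j hj
      have hle : s i ^ 2 + s j ^ 2 ≤ ‖s‖ ^ 2 := by
        rw [hn, ← Finset.add_sum_erase _ _ (Finset.mem_univ i)]
        have := Finset.single_le_sum (f := fun k => s k ^ 2) (fun k _ => sq_nonneg (s k)) hj
        linarith
      have h2 : √(s i ^ 2 + s j ^ 2) ≤ ‖s‖ := Real.sqrt_le_iff.mpr ⟨norm_nonneg s, hle⟩
      have h3 : √(s i ^ 2 + s j ^ 2) ^ 2 = s i ^ 2 + s j ^ 2 :=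
        Real.sq_sqrt (by positivity)
      nlinarith [Real.sqrt_nonneg (s i ^ 2 + s j ^ 2)]
    have h4 : ∑ i : Fin m, ∑ j ∈ Finset.univ.erase i, (s i ^ 2 + s j ^ 2) ≤
        ‖s‖ * ∑ i : Fin m, ∑ j ∈ Finset.univ.erase i, √(s i ^ 2 + s j ^ 2) := by
      rw [Finset.mul_sum]
      apply Finset.sum_le_sum
      intro i _
      rw [Finset.mul_sum]
      exact Finset.sum_le_sum fun j hj => h1 i j hj
    have h5 : ∑ i : Fin m, ∑ j ∈ Finset.univ.erase i, (s i ^ 2 + s j ^ 2) =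
        2 * ((m : ℝ) - 1) * ‖s‖ ^ 2 := by
      have h6 : ∀ i : Fin m, ∑ j ∈ Finset.univ.erase i, (s i ^ 2 + s j ^ 2) =
          ((m : ℝ) - 1) * s i ^ 2 + (‖s‖ ^ 2 - s i ^ 2) := by
        intro i
        rw [Finset.sum_add_distrib, Finset.sum_const, Finset.card_erase_of_mem (Finset.mem_univ i),
          Finset.card_univ, Fintype.card_fin, nsmul_eq_mul, Nat.cast_sub hm, hn,
          ← Finset.add_sum_erase _ (fun k => s k ^ 2) (Finset.mem_univ i)]
        push_cast
        ring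
      simp only [h6, Finset.sum_add_distrib, Finset.sum_sub_distrib, ← Finset.mul_sum,
        Finset.sum_const, Finset.card_univ, Fintype.card_fin, nsmul_eq_mul]
      rw [← hn]
      ring
    rw [h5] at h4
    by_contra hcon
    push Not at hcon
    have := mul_lt_mul_of_pos_left hcon hpos
    nlinarith

/-- the three directions in a coordinate plane -/
noncomputable def dirs (i j : Fin m) (k : Fin 3) : E m :=
  ![(1 : ℝ) • EuclideanSpace.single i (1 : ℝ) + (0 : ℝ) • EuclideanSpace.single j (1 : ℝ),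
    (1 / 2 : ℝ) • EuclideanSpace.single i (1 : ℝ) + (√3 / 2) • EuclideanSpace.single j (1 : ℝ),
    (-1 / 2 : ℝ) • EuclideanSpace.single i (1 : ℝ) + (√3 / 2) • EuclideanSpace.single j (1 : ℝ)] k

theorem norm_dirs {i j : Fin m} (hij : i ≠ j) (k : Fin 3) : ‖dirs i j k‖ = 1 := by
  have h3 : √3 ^ 2 = 3 := Real.sq_sqrt (by norm_num)
  fin_cases k
  · exact norm_comb hij 1 0 (by norm_num)
  · exact norm_comb hij (1 / 2) (√3 / 2) (by rw [div_pow, div_pow, h3]; norm_num)
  · exact norm_comb hij (-1 / 2) (√3 / 2) (by rw [div_pow, div_pow, h3]; norm_num)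

theorem sum_dirs (h : E m → ℝ) (z : E m) (i j : Fin m) :
    3 * √((gradient h z) i ^ 2 + (gradient h z) j ^ 2) ≤
      ∑ k : Fin 3, √3 * |fderiv ℝ h z (dirs i j k)| := by
  rw [Fin.sum_univ_three]
  have e0 : fderiv ℝ h z (dirs i j 0) = gradient h z i := by
    rw [show dirs i j 0 = (1 : ℝ) • EuclideanSpace.single i (1 : ℝ) +
      (0 : ℝ) • EuclideanSpace.single j (1 : ℝ) from rfl, fderiv_comb]
    ring
  have e1 : fderiv ℝ h z (dirs i j 1) = gradient h z i / 2 + √3 / 2 * gradient h z j := by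
    rw [show dirs i j 1 = (1 / 2 : ℝ) • EuclideanSpace.single i (1 : ℝ) +
      (√3 / 2) • EuclideanSpace.single j (1 : ℝ) from rfl, fderiv_comb]
    ring
  have e2 : fderiv ℝ h z (dirs i j 2) = -gradient h z i / 2 + √3 / 2 * gradient h z j := by
    rw [show dirs i j 2 = (-1 / 2 : ℝ) • EuclideanSpace.single i (1 : ℝ) +
      (√3 / 2) • EuclideanSpace.single j (1 : ℝ) from rfl, fderiv_comb]
    ring
  rw [e0, e1, e2]
  have := planar (gradient h z i) (gradient h z j)
  linarith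

theorem pointwise (hm : 2 ≤ m) (h : E m → ℝ) (h0 : ∀ y, 0 ≤ h y) (z : E m) :
    (3 * m * ((m : ℝ) - 1)) * (2 / m * (h z * √(1 + ‖gradient h z‖ ^ 2))) ≤
      ∑ i : Fin m, ∑ j ∈ Finset.univ.erase i, ∑ k : Fin 3,
        h z * (√3 * |fderiv ℝ h z (dirs i j k)| + 1) := by
  have hm' : (2 : ℝ) ≤ m := by exact_mod_cast hm
  have e1 : ∀ i : Fin m, ∀ j ∈ Finset.univ.erase i,
      h z * (3 * √((gradient h z) i ^ 2 + (gradient h z) j ^ 2) + 3) ≤
        ∑ k : Fin 3, h z * (√3 * |fderiv ℝ h z (dirs i j k)| + 1) := by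
    intro i j _
    rw [← Finset.mul_sum, Finset.sum_add_distrib]
    refine mul_le_mul_of_nonneg_left ?_ (h0 z)
    have := sum_dirs h z i j
    simp only [Finset.sum_const, Finset.card_univ, Fintype.card_fin, nsmul_eq_mul]
    push_cast
    linarith
  refine le_trans ?_ (Finset.sum_le_sum fun i _ => Finset.sum_le_sum fun j hj => e1 i j hj)
  have e2 := sum_sqrt_le (by omega : 1 ≤ m) (gradient h z)
  have e3 : ∑ i : Fin m, ∑ j ∈ Finset.univ.erase i,
      h z * (3 * √((gradient h z) i ^ 2 + (gradient h z) j ^ 2) + 3) =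
      h z * (3 * (∑ i : Fin m, ∑ j ∈ Finset.univ.erase i,
        √((gradient h z) i ^ 2 + (gradient h z) j ^ 2)) + 3 * m * ((m : ℝ) - 1)) := by
    simp only [← Finset.mul_sum, Finset.sum_add_distrib, Finset.sum_const,
      Finset.card_erase_of_mem (Finset.mem_univ _), Finset.card_univ, Fintype.card_fin,
      nsmul_eq_mul, Nat.cast_sub (by omega : 1 ≤ m)]
    push_cast
    ring
  rw [e3]
  have e4 : √(1 + ‖gradient h z‖ ^ 2) ≤ 1 + ‖gradient h z‖ := by
    rw [Real.sqrt_le_iff]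
    refine ⟨by positivity, ?_⟩
    nlinarith [norm_nonneg (gradient h z)]
  have hm0 : (m : ℝ) ≠ 0 := by positivity
  have e5 : (3 * m * ((m : ℝ) - 1)) * (2 / m * (h z * √(1 + ‖gradient h z‖ ^ 2))) =
      h z * (6 * ((m : ℝ) - 1) * √(1 + ‖gradient h z‖ ^ 2)) := by
    field_simp
    ring
  rw [e5]
  refine mul_le_mul_of_nonneg_left ?_ (h0 z)
  have e6 : 6 * ((m : ℝ) - 1) * √(1 + ‖gradient h z‖ ^ 2) ≤
      6 * ((m : ℝ) - 1) * (1 + ‖gradient h z‖) :=
    mul_le_mul_of_nonneg_left e4 (by nlinarith)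
  nlinarith

theorem main {m : ℕ} (hm : 2 ≤ m) (h : E m → ℝ) (hc : ConvexOn ℝ univ h)
    (h0 : ∀ y, 0 ≤ h y) (C : Set (E m)) (hC : IsCompact C) (hCc : Convex ℝ C) :
    ENNReal.ofReal (2 / m) * ∫⁻ z in C, ENNReal.ofReal (h z * √(1 + ‖gradient h z‖ ^ 2)) ≤
      ∫⁻ y in frontier C, ENNReal.ofReal (‖y‖ ^ 2 + h y ^ 2) ∂μHE[m - 1] := by
  have hcont : Continuous h := by
    rw [← continuousOn_univ]
    exact hc.continuousOn isOpen_univ
  set L := ∫⁻ y in frontier C, ENNReal.ofReal (‖y‖ ^ 2 + h y ^ 2) ∂(μHE[m - 1] : Measure (E m))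
    with hL
  have hmr : (2 : ℝ) ≤ m := by exact_mod_cast hm
  have hdir : ∀ i : Fin m, ∀ j ∈ Finset.univ.erase i, ∀ k : Fin 3,
      ∫⁻ z in C, ENNReal.ofReal (h z * (√3 * |fderiv ℝ h z (dirs i j k)| + 1)) ≤ L := by
    intro i j hj k
    have := directional hc hcont h0 hC hCc (norm_dirs (Finset.ne_of_mem_erase hj).symm k)
    rwa [finrank_euclideanSpace_fin] at this
  have hmeas : ∀ u : E m, Measurable fun z =>
      ENNReal.ofReal (h z * (√3 * |fderiv ℝ h z u| + 1)) := by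
    intro u
    have h1 := hcont.measurable
    have h2 : Measurable (fun z : E m => fderiv ℝ h z u) := measurable_fderiv_apply_const ℝ h u
    have h3 : Measurable (fun z : E m => |fderiv ℝ h z u|) := measurable_abs.comp h2
    exact (h1.mul ((h3.const_mul _).add_const _)).ennreal_ofReal
  have hN : (0 : ℝ) < 3 * m * ((m : ℝ) - 1) := by
    have : (0 : ℝ) < (m : ℝ) - 1 := by linarith
    positivity
  have hsum : ∑ i : Fin m, ∑ j ∈ Finset.univ.erase i, ∑ k : Fin 3,
      ∫⁻ z in C, ENNReal.ofReal (h z * (√3 * |fderiv ℝ h z (dirs i j k)| + 1)) ≤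
      ENNReal.ofReal (3 * m * ((m : ℝ) - 1)) * L := by
    calc _ ≤ ∑ i : Fin m, ∑ j ∈ Finset.univ.erase i, ∑ _k : Fin 3, L :=
          Finset.sum_le_sum fun i _ => Finset.sum_le_sum fun j hj =>
            Finset.sum_le_sum fun k _ => hdir i j hj k
      _ = ENNReal.ofReal (3 * m * ((m : ℝ) - 1)) * L := by
          simp only [Finset.sum_const, Finset.card_erase_of_mem (Finset.mem_univ _),
            Finset.card_univ, Fintype.card_fin, nsmul_eq_mul, ← mul_assoc]
          congr 1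
          have : (3 * m * ((m : ℝ) - 1)) = ((m * (m - 1) * 3 : ℕ) : ℝ) := by
            rw [Nat.cast_mul, Nat.cast_mul, Nat.cast_sub (by omega)]
            push_cast
            ring
          rw [this, ENNReal.ofReal_natCast]
          push_cast
          rfl
  have hpt : ENNReal.ofReal (3 * m * ((m : ℝ) - 1)) * (ENNReal.ofReal (2 / m) *
      ∫⁻ z in C, ENNReal.ofReal (h z * √(1 + ‖gradient h z‖ ^ 2))) ≤
      ∑ i : Fin m, ∑ j ∈ Finset.univ.erase i, ∑ k : Fin 3,
      ∫⁻ z in C, ENNReal.ofReal (h z * (√3 * |fderiv ℝ h z (dirs i j k)| + 1)) := by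
    have e1 : ∑ i : Fin m, ∑ j ∈ Finset.univ.erase i, ∑ k : Fin 3,
        ∫⁻ z in C, ENNReal.ofReal (h z * (√3 * |fderiv ℝ h z (dirs i j k)| + 1)) =
        ∫⁻ z in C, ∑ i : Fin m, ∑ j ∈ Finset.univ.erase i, ∑ k : Fin 3,
          ENNReal.ofReal (h z * (√3 * |fderiv ℝ h z (dirs i j k)| + 1)) := by
      rw [lintegral_finset_sum]
      · refine Finset.sum_congr rfl fun i _ => ?_
        rw [lintegral_finset_sum]
        · refine Finset.sum_congr rfl fun j _ => ?_
          rw [lintegral_finset_sum]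
          exact fun k _ => hmeas _
        · exact fun j _ => Finset.measurable_sum _ fun k _ => hmeas _
      · exact fun i _ => Finset.measurable_sum _ fun j _ => Finset.measurable_sum _ fun k _ =>
          hmeas _
    rw [e1, ← lintegral_const_mul' _ _ ENNReal.ofReal_ne_top,
      ← lintegral_const_mul' _ _ ENNReal.ofReal_ne_top]
    apply lintegral_mono
    intro z
    simp only
    have hnn : ∀ u : E m, 0 ≤ h z * (√3 * |fderiv ℝ h z u| + 1) := fun u =>
      mul_nonneg (h0 z) (by positivity)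
    rw [← ENNReal.ofReal_mul (by positivity), ← ENNReal.ofReal_mul hN.le]
    refine (ENNReal.ofReal_le_ofReal (pointwise hm h h0 z)).trans (le_of_eq ?_)
    rw [ENNReal.ofReal_sum_of_nonneg fun i _ => Finset.sum_nonneg fun j _ =>
      Finset.sum_nonneg fun k _ => hnn _]
    refine Finset.sum_congr rfl fun i _ => ?_
    rw [ENNReal.ofReal_sum_of_nonneg fun j _ => Finset.sum_nonneg fun k _ => hnn _]
    refine Finset.sum_congr rfl fun j _ => ?_
    rw [ENNReal.ofReal_sum_of_nonneg fun k _ => hnn _]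
  have hfin := hpt.trans hsum
  exact (ENNReal.mul_le_mul_iff_right (ENNReal.ofReal_pos.mpr hN).ne'
    ENNReal.ofReal_ne_top).mp hfin

end Pool.Agent.Q189.BI
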