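import Pool.Agent.Q189.SymDefs

/-!
# Monotone symmetrizations fixing spherical cylinders are projection invariant
-/

set_option autoImplicit false

open scoped Pointwise RealInnerProductSpace

namespace Q189.CylProj

open Q189.SymDefs

variable {n : ℕ} (H : Submodule ℝ (E n))

theorem mem_cylinder {x : E n} (hx : x ∈ H) {r s : ℝ} (hs : 0 < s) (p : E n) :
    p ∈ cylinder H x r s ↔
      ‖H.starProjection p - x‖ ≤ r ∧ ‖p - H.starProjection p‖ ≤ s := by
  constructor
  · rintro ⟨d, ⟨hd1, hd2⟩, _, ⟨y, ⟨hy1, hy2⟩, rfl⟩, rfl⟩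
    have h2 : H.starProjection (d + s • y) = d := by
      rw [map_add, map_smul, Submodule.starProjection_eq_self_iff.2 hd2,
        (Submodule.starProjection_apply_eq_zero_iff H).2 hy2, smul_zero, add_zero]
    have hy : ‖y‖ ≤ 1 := by simpa using hy1
    have hd : ‖d - x‖ ≤ r := by simpa [dist_eq_norm] using hd1
    change ‖H.starProjection (d + s • y) - x‖ ≤ r ∧ ‖d + s • y - H.starProjection (d + s • y)‖ ≤ s
    rw [h2]
    refine ⟨hd, ?_⟩
    rw [add_sub_cancel_left, norm_smul, Real.norm_of_nonneg hs.le]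
    nlinarith
  · rintro ⟨h1, h2⟩
    refine ⟨H.starProjection p, ⟨by simpa [dist_eq_norm] using h1,
      Submodule.starProjection_apply_mem H p⟩, s • (s⁻¹ • (p - H.starProjection p)),
      ⟨_, ⟨?_, ?_⟩, rfl⟩, ?_⟩
    · rw [mem_closedBall_zero_iff, norm_smul, norm_inv, Real.norm_of_nonneg hs.le,
        inv_mul_le_iff₀ hs, mul_one]
      exact h2
    · exact Hᗮ.smul_mem _ (Submodule.sub_starProjection_mem_orthogonal p)
    · rw [smul_smul, mul_inv_cancel₀ hs.ne', one_smul]
      abel

theorem cylinder_compact (x : E n) (r s : ℝ) : IsCompact (cylinder H x r s) := by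
  refine IsCompact.add ?_ ?_
  · exact (isCompact_closedBall x r).inter_right H.closed_of_finiteDimensional
  · refine IsCompact.smul s ?_
    exact (isCompact_closedBall 0 1).inter_right Hᗮ.closed_of_finiteDimensional

theorem cylinder_convex (x : E n) (r s : ℝ) : Convex ℝ (cylinder H x r s) := by
  refine Convex.add ?_ ?_
  · exact (convex_closedBall x r).inter H.convex
  · exact Convex.smul ((convex_closedBall 0 1).inter Hᗮ.convex) s

theorem cylinder_interior {x : E n} (hx : x ∈ H) {r s : ℝ} (hr : 0 < r) (hs : 0 < s) :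
    x ∈ interior (cylinder H x r s) := by
  have hPx : H.starProjection x = x := Submodule.starProjection_eq_self_iff.2 hx
  rw [mem_interior_iff_mem_nhds]
  have c1 : ∀ᶠ p in nhds x, ‖H.starProjection p - x‖ < r := by
    have : Filter.Tendsto (fun p => ‖H.starProjection p - x‖) (nhds x) (nhds 0) := by
      have hc : Continuous fun p => ‖H.starProjection p - x‖ := by fun_prop
      have := hc.tendsto x
      simpa [hPx] using this
    exact this.eventually (gt_mem_nhds hr)
  have c2 : ∀ᶠ p in nhds x, ‖p - H.starProjection p‖ < s := by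
    have : Filter.Tendsto (fun p => ‖p - H.starProjection p‖) (nhds x) (nhds 0) := by
      have hc : Continuous fun p => ‖p - H.starProjection p‖ := by fun_prop
      have := hc.tendsto x
      simpa [hPx] using this
    exact this.eventually (gt_mem_nhds hs)
  filter_upwards [c1, c2] with p h1 h2
  exact (mem_cylinder H hx hs p).2 ⟨h1.le, h2.le⟩

/-- a point outside a compact convex subset of `H` can be separated by a ball -/
theorem separate (Q : Set (E n)) (hQ : IsCompact Q) (hQc : Convex ℝ Q) (hQn : Q.Nonempty)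
    (hQH : ∀ q ∈ Q, q ∈ H) (z : E n) (hz : z ∈ H) (hzQ : z ∉ Q) :
    ∃ x ∈ H, ∃ r : ℝ, 0 < r ∧ (∀ q ∈ Q, ‖q - x‖ ≤ r) ∧ r < ‖z - x‖ := by
  obtain ⟨q0, hq0, hq⟩ := exists_norm_eq_iInf_of_complete_convex hQn hQ.isComplete hQc z
  have hin := (norm_eq_iInf_iff_real_inner_le_zero hQc hq0).1 hq
  set d := z - q0 with hd
  have hd0 : d ≠ 0 := by
    intro h
    apply hzQ
    have : z = q0 := sub_eq_zero.1 h
    rw [this]; exact hq0
  have hdpos : 0 < ‖d‖ := norm_pos_iff.2 hd0
  obtain ⟨R, hR⟩ := hQ.isBounded.exists_norm_le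
  have hRb : ∀ q ∈ Q, ‖q - q0‖ ≤ 2 * R := fun q hq => by
    calc ‖q - q0‖ ≤ ‖q‖ + ‖q0‖ := norm_sub_le _ _
      _ ≤ 2 * R := by linarith [hR q hq, hR q0 hq0]
  have hR0 : 0 ≤ R := (norm_nonneg _).trans (hR q0 hq0)
  set t : ℝ := (2 * R) ^ 2 / ‖d‖ ^ 2 with ht
  have ht0 : 0 ≤ t := by positivity
  have htd : t * ‖d‖ ^ 2 = (2 * R) ^ 2 := by rw [ht]; field_simp
  have hx : q0 - t • d ∈ H := H.sub_mem (hQH _ hq0) (H.smul_mem _ (H.sub_mem hz (hQH _ hq0)))
  refine ⟨q0 - t • d, hx, √((2 * R) ^ 2 + (t * ‖d‖) ^ 2 + ‖d‖ ^ 2 / 2), ?_, ?_, ?_⟩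
  · apply Real.sqrt_pos.2
    positivity
  · intro q hqQ
    apply Real.le_sqrt_of_sq_le
    have h1 : ‖q - (q0 - t • d)‖ ^ 2 = ‖q - q0‖ ^ 2 + 2 * t * ⟪d, q - q0⟫ + (t * ‖d‖) ^ 2 := by
      have : q - (q0 - t • d) = (q - q0) + t • d := by abel
      rw [this, norm_add_sq_real, inner_smul_right, norm_smul, Real.norm_of_nonneg ht0,
        real_inner_comm]
      ring
    have h2 : ⟪d, q - q0⟫ ≤ 0 := hin q hqQ
    have h3 : ‖q - q0‖ ^ 2 ≤ (2 * R) ^ 2 := pow_le_pow_left₀ (norm_nonneg _) (hRb q hqQ) 2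
    have h4 : 2 * t * ⟪d, q - q0⟫ ≤ 0 := mul_nonpos_of_nonneg_of_nonpos (by positivity) h2
    rw [h1]
    have : 0 < ‖d‖ ^ 2 / 2 := by positivity
    linarith
  · have h1 : z - (q0 - t • d) = (1 + t) • d := by
      rw [hd]; module
    rw [h1, norm_smul, Real.norm_of_nonneg (by linarith)]
    rw [Real.sqrt_lt' (by positivity)]
    have : 0 < ‖d‖ ^ 2 := by positivity
    nlinarith

/-- the projection does not increase -/
theorem proj_le (𝓑 : Set (Set (E n))) (D : Set (E n) → Set (E n))
    (hcc : ∀ K ∈ 𝓑, IsCompact K ∧ Convex ℝ K ∧ K.Nonempty)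
    (hb : ∀ K ∈ convexBodies n, K ∈ 𝓑) (hD : Monotonic 𝓑 D) (hcyl : InvariantOnCylinders H D)
    (K : Set (E n)) (hK : K ∈ 𝓑) (p : E n) (hp : p ∈ D K) :
    H.starProjection p ∈ proj H K := by
  by_contra hcon
  obtain ⟨hKc, hKv, hKn⟩ := hcc K hK
  have hQc : IsCompact (proj H K) := hKc.image H.starProjection.continuous
  have hQv : Convex ℝ (proj H K) := hKv.linear_image H.starProjection.toLinearMap
  have hQH : ∀ q ∈ proj H K, q ∈ H := by
    rintro _ ⟨w, -, rfl⟩
    exact Submodule.starProjection_apply_mem H w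
  obtain ⟨x, hx, r, hr, h1, h2⟩ := separate H (proj H K) hQc hQv (hKn.image _) hQH
    (H.starProjection p) (Submodule.starProjection_apply_mem H p) hcon
  obtain ⟨R, hR⟩ := hKc.isBounded.exists_norm_le
  have hR0 : 0 ≤ R := by
    obtain ⟨y, hy⟩ := hKn
    exact (norm_nonneg _).trans (hR y hy)
  have hs : (0 : ℝ) < R + 1 := by linarith
  have hsub : K ⊆ cylinder H x r (R + 1) := by
    intro y hy
    refine (mem_cylinder H hx hs y).2 ⟨h1 _ ⟨y, hy, rfl⟩, ?_⟩
    have h3 : ‖y - H.starProjection y‖ ≤ ‖y‖ := by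
      have h4 : ‖y‖ ^ 2 = ‖H.starProjection y‖ ^ 2 + ‖y - H.starProjection y‖ ^ 2 := by
        have h5 : ⟪H.starProjection y, y - H.starProjection y⟫ = 0 :=
          (Submodule.sub_starProjection_mem_orthogonal y) _
            (Submodule.starProjection_apply_mem H y)
        have h6 : y = H.starProjection y + (y - H.starProjection y) := by abel
        calc ‖y‖ ^ 2 = ‖H.starProjection y + (y - H.starProjection y)‖ ^ 2 := by rw [← h6]
          _ = _ := by rw [norm_add_sq_real, h5]; ring
      have h7 : 0 ≤ ‖H.starProjection y‖ ^ 2 := by positivity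
      exact le_of_sq_le_sq (by linarith) (norm_nonneg _)
    linarith [hR y hy]
  have hmem : cylinder H x r (R + 1) ∈ 𝓑 :=
    hb _ ⟨cylinder_compact H x r _, cylinder_convex H x r _, ⟨x, cylinder_interior H hx hr hs⟩⟩
  have h3 : p ∈ cylinder H x r (R + 1) := by
    have := hD K hK _ hmem hsub hp
    rwa [hcyl x hx r _ hr hs] at this
  have h4 := ((mem_cylinder H hx hs p).1 h3).1
  linarith

/-- **Monotone maps fixing the spherical cylinders are projection invariant.** -/
theorem main (𝓑 : Set (Set (E n))) (h𝓑 : 𝓑 = compactConvexSets n ∨ 𝓑 = convexBodies n)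
    (D : Set (E n) → Set (E n)) (hmem : ∀ K ∈ 𝓑, D K ∈ 𝓑) (hD : Monotonic 𝓑 D)
    (hcyl : InvariantOnCylinders H D) : ProjectionInvariant 𝓑 H D := by
  have hcc : ∀ K ∈ 𝓑, IsCompact K ∧ Convex ℝ K ∧ K.Nonempty := by
    intro K hK
    rcases h𝓑 with rfl | rfl
    · exact hK
    · exact ⟨hK.1, hK.2.1, hK.2.2.mono interior_subset⟩
  have hb : ∀ K ∈ convexBodies n, K ∈ 𝓑 := by
    intro K hK
    rcases h𝓑 with rfl | rfl
    · exact ⟨hK.1, hK.2.1, hK.2.2.mono interior_subset⟩
    · exact hK
  have hle := proj_le H 𝓑 D hcc hb hD hcyl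
  intro K hK
  apply Set.Subset.antisymm
  · rintro _ ⟨p, hp, rfl⟩
    exact hle K hK p hp
  · rintro _ ⟨k, hk, rfl⟩
    have hDKc : IsCompact (proj H (D K)) := (hcc _ (hmem K hK)).1.image H.starProjection.continuous
    rcases h𝓑 with rfl | rfl
    · have hs : ({k} : Set (E n)) ∈ compactConvexSets n :=
        ⟨isCompact_singleton, convex_singleton k, Set.singleton_nonempty k⟩
      obtain ⟨p, hp⟩ := (hcc _ (hmem _ hs)).2.2
      obtain ⟨y, hy, hyp⟩ := hle _ hs p hp
      rw [Set.mem_singleton_iff.1 hy] at hyp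
      exact ⟨p, hD _ hs _ hK (Set.singleton_subset_iff.2 hk) hp, hyp.symm⟩
    · -- interior points first
      have hint : ∀ q ∈ interior K, H.starProjection q ∈ proj H (D K) := by
        intro q hq
        rw [← hDKc.isClosed.closure_eq, Metric.mem_closure_iff]
        intro ε hε
        obtain ⟨ρ, hρ, hball⟩ := Metric.isOpen_iff.1 isOpen_interior q hq
        set δ : ℝ := min (ε / 2) (ρ / 2) with hδ
        have hδ0 : 0 < δ := by positivity
        have hBK : Metric.closedBall q δ ⊆ K := by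
          intro y hy
          refine interior_subset (hball ?_)
          have : dist y q ≤ δ := hy
          have h2 : δ ≤ ρ / 2 := min_le_right _ _
          exact lt_of_le_of_lt (this.trans h2) (by linarith)
        have hBb : Metric.closedBall q δ ∈ convexBodies n :=
          ⟨isCompact_closedBall q δ, convex_closedBall q δ,
            ⟨q, mem_interior_iff_mem_nhds.2 (Metric.closedBall_mem_nhds q hδ0)⟩⟩
        obtain ⟨p, hp⟩ := (hcc _ (hmem _ hBb)).2.2
        obtain ⟨y, hy, hyp⟩ := hle _ hBb p hp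
        refine ⟨H.starProjection p, ⟨p, hD _ hBb _ hK hBK hp, rfl⟩, ?_⟩
        rw [← hyp, dist_eq_norm, ← map_sub]
        have h1 : ‖H.starProjection (q - y)‖ ≤ ‖q - y‖ := H.norm_starProjection_apply_le _
        have h2 : ‖q - y‖ ≤ δ := by
          rw [← dist_eq_norm, dist_comm]; exact hy
        have h3 : δ ≤ ε / 2 := min_le_left _ _
        linarith
      have hcl : K ⊆ closure (interior K) := by
        rw [hK.2.1.closure_interior_eq_closure_of_nonempty_interior hK.2.2]
        exact subset_closure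
      have h1 : H.starProjection k ∈ closure (proj H (D K)) := by
        have h2 : H.starProjection k ∈ closure (H.starProjection '' (interior K)) :=
          (H.starProjection.continuous.continuousOn.image_closure (s := interior K))
            (Set.mem_image_of_mem _ (hcl hk))
        refine closure_mono ?_ h2
        rintro _ ⟨q, hq, rfl⟩
        exact hint q hq
      rwa [hDKc.isClosed.closure_eq] at h1

end Q189.CylProj
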