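import Pool.Agent.Q189.FlexDefs

/-! MP_cf0a62_gt: the boundary complex of the cross-polytope. -/

set_option autoImplicit false

namespace Pool.Agent.Q189.Flex

noncomputable section

variable {N : ℕ}

/-- the facet with the given choices of signs -/
def fct (s : Fin (N + 1) → Bool) : Fin (N + 1) → Fin (N + 1) × Bool := fun i => (i, s i)

/-- sign of a vertex -/
def bs (b : Bool) : ℤ := if b then -1 else 1

theorem bs_unit (b : Bool) : bs b = 1 ∨ bs b = -1 := by cases b <;> simp [bs]

theorem bs_flip {a b : Bool} (h : a ≠ b) : bs b = -bs a := by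
  cases a <;> cases b <;> simp_all [bs]

/-- sign of a facet -/
def fs (f : Fin (N + 1) → Fin (N + 1) × Bool) : ℤ := ∏ i, bs (f i).2

theorem fct_inj : Function.Injective (fct (N := N)) := by
  intro s t h
  funext i
  exact congrArg Prod.snd (congrFun h i)

theorem fct_mem_range {s t : Fin (N + 1) → Bool} {j : Fin (N + 1)} :
    fct s j ∈ Set.range (fct t) ↔ s j = t j := by
  constructor
  · rintro ⟨i, hi⟩
    have h1 : i = j := congrArg Prod.fst hi
    have h2 : t i = s j := congrArg Prod.snd hi
    rw [← h2, h1]
  · intro h
    exact ⟨j, by simp only [fct, h]⟩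

theorem fs_unit (s : Fin (N + 1) → Bool) : fs (fct s) = 1 ∨ fs (fct s) = -1 := by
  unfold fs
  apply Int.isUnit_iff.mp
  apply IsUnit.prod_univ_iff.mpr
  intro i
  exact Int.isUnit_iff.mpr (bs_unit _)

theorem fs_flip {s t : Fin (N + 1) → Bool} (i : Fin (N + 1)) (hi : s i ≠ t i)
    (h : ∀ j, j ≠ i → s j = t j) : fs (fct t) = -fs (fct s) := by
  unfold fs fct
  rw [← Finset.mul_prod_erase _ _ (Finset.mem_univ i),
    ← Finset.mul_prod_erase _ (fun j => bs (j, s j).2) (Finset.mem_univ i)]
  rw [bs_flip hi]
  have : ∏ x ∈ Finset.univ.erase i, bs (x, t x).2 = ∏ x ∈ Finset.univ.erase i, bs (x, s x).2 := by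
    apply Finset.prod_congr rfl
    intro j hj
    rw [h j (Finset.ne_of_mem_erase hj)]
  rw [this]
  ring

theorem connected_aux (A : Finset (Fin (N + 1))) : ∀ s t : Fin (N + 1) → Bool,
    (∀ j, j ∉ A → s j = t j) → Relation.ReflTransGen
      (fun a b : Fin (N + 1) → Fin (N + 1) × Bool => b ∈ Set.range (fct (N := N)) ∧
        ∃ i, ∀ j, j ≠ i → a j ∈ Set.range b) (fct s) (fct t) := by
  induction A using Finset.induction_on with
  | empty =>
    intro s t h
    have : s = t := funext fun j => h j (by simp)
    rw [this]
  | insert a A ha ih =>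
    intro s t h
    have h1 := ih s (Function.update t a (s a)) (fun j hj => by
      by_cases hja : j = a
      · subst hja; simp
      · rw [Function.update_of_ne hja]
        exact h j (by simp [hja, hj]))
    refine h1.tail ⟨⟨t, rfl⟩, a, fun j hj => ?_⟩
    rw [fct_mem_range, Function.update_of_ne hj]

/-- the boundary complex of the cross-polytope with `2 (N + 1)` vertices -/
def cross (N : ℕ) : OrientedPseudomanifold N (Fin (N + 1) × Bool) where
  facets := Set.range fct
  sgn := fs
  finite := Set.finite_range _
  nonempty := Set.range_nonempty _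
  sgn_unit := by rintro _ ⟨s, rfl⟩; exact fs_unit s
  injective := by
    rintro _ ⟨s, rfl⟩ i j h
    exact congrArg Prod.fst h
  distinct := by
    rintro _ ⟨s, rfl⟩ _ ⟨t, rfl⟩ h
    congr 1
    funext j
    exact fct_mem_range.mp (h ▸ ⟨j, rfl⟩)
  vertex := by
    rintro ⟨i, b⟩
    exact ⟨fct fun _ => b, ⟨_, rfl⟩, i, rfl⟩
  ridge := by
    rintro _ ⟨s, rfl⟩ i
    refine ⟨fct (Function.update s i (!s i)), ⟨⟨_, rfl⟩, ?_, ?_⟩, ?_⟩
    · intro h
      have := congrFun (fct_inj h) i
      simp at this
    · intro j hj
      rw [fct_mem_range, Function.update_of_ne hj]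
    · rintro _ ⟨⟨t, rfl⟩, hne, ht⟩
      congr 1
      funext j
      by_cases hj : j = i
      · subst hj
        rw [Function.update_self]
        have : t j ≠ s j := by
          intro h
          apply hne
          congr 1
          funext l
          by_cases hl : l = j
          · rw [hl, h]
          · exact (fct_mem_range.mp (ht l hl)).symm
        cases h1 : t j <;> cases h2 : s j <;> simp_all
      · rw [Function.update_of_ne hj]
        exact (fct_mem_range.mp (ht j hj)).symm
  orient := by
    rintro _ ⟨s, rfl⟩ _ ⟨t, rfl⟩ hne i j π h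
    have h1 : ∀ l, j.succAbove l = i.succAbove (π l) := fun l => congrArg Prod.fst (h l)
    have hij : i = j := by
      have e1 : Set.range j.succAbove = {j}ᶜ := Fin.range_succAbove j
      have e2 : Set.range i.succAbove = {i}ᶜ := Fin.range_succAbove i
      have e3 : Set.range j.succAbove = Set.range i.succAbove := by
        have : j.succAbove = i.succAbove ∘ π := funext h1
        rw [this, Set.range_comp, π.surjective.range_eq, Set.image_univ]
      rw [e1, e2, compl_inj_iff, Set.singleton_eq_singleton_iff] at e3
      exact e3.symm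
    subst hij
    have hπ : π = 1 := by
      ext l
      have := Fin.succAbove_right_injective (h1 l)
      rw [← this]; rfl
    subst hπ
    have h2 : ∀ l, l ≠ i → s l = t l := by
      intro l hl
      obtain ⟨m, rfl⟩ := Fin.exists_succAbove_eq hl
      exact (congrArg Prod.snd (h m)).symm
    have h3 : s i ≠ t i := by
      intro h3
      apply hne
      congr 1
      funext l
      by_cases hl : l = i
      · rw [hl, h3]
      · exact h2 l hl
    rw [fs_flip i h3 h2]
    simp
  connected := by
    rintro _ ⟨s, rfl⟩ _ ⟨t, rfl⟩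
    exact connected_aux Finset.univ s t (by simp)

end

end Pool.Agent.Q189.Flex
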