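import Pool.Agent.Q189.Flex1

/-! MP_cf0a62_gt: positions of the vertices, determinants, crossings. -/

set_option autoImplicit false

namespace Pool.Agent.Q189.Flex

noncomputable section

variable {N : ℕ}

/-- coordinate vectors -/
def ev (k : Fin (N + 2)) : E N := EuclideanSpace.single k 1

theorem ev_apply (k j : Fin (N + 2)) : ev k j = if j = k then (1 : ℝ) else 0 := by
  simp [ev]

/-- the index of the coordinate `l < N` -/
def wi (l : Fin N) : Fin (N + 2) := l.castSucc.castSucc

/-- the index `N` -/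
def i0 : Fin (N + 2) := (Fin.last N).castSucc

/-- the index `N + 1` -/
def i1 : Fin (N + 2) := Fin.last (N + 1)

theorem wi_ne_i0 (l : Fin N) : wi l ≠ i0 := by
  intro h
  have := congrArg Fin.val h
  simp [wi, i0] at this
  omega

theorem wi_ne_i1 (l : Fin N) : wi l ≠ i1 := by
  intro h
  have := congrArg Fin.val h
  simp [wi, i1] at this
  omega

theorem i0_ne_i1 : (i0 : Fin (N + 2)) ≠ i1 := by
  intro h
  have := congrArg Fin.val h
  simp [i0, i1] at this

theorem wi_inj {l m : Fin N} : wi l = wi m ↔ l = m := by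
  simp [wi]

theorem cases_index (j : Fin (N + 2)) : (∃ l, j = wi l) ∨ j = i0 ∨ j = i1 := by
  refine Fin.lastCases ?_ (fun j => ?_) j
  · exact Or.inr (Or.inr rfl)
  · refine Fin.lastCases ?_ (fun l => ?_) j
    · exact Or.inr (Or.inl rfl)
    · exact Or.inl ⟨l, rfl⟩

/-- first coordinate of the apex -/
def u0 (t : ℝ) (b : Bool) : ℝ := if b then Real.cos (2 * Real.pi * t) else 1

/-- second coordinate of the apex -/
def u1 (t : ℝ) (b : Bool) : ℝ := if b then Real.sin (2 * Real.pi * t) else 0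

theorem u_sq (t : ℝ) (b : Bool) : u0 t b ^ 2 + u1 t b ^ 2 = 1 := by
  cases b
  · simp [u0, u1]
  · simp [u0, u1]

/-- the positions of the vertices at the time `t` -/
def pos (t : ℝ) (v : Fin (N + 1) × Bool) : E N :=
  if v.1 = Fin.last N then u0 t v.2 • ev i0 + u1 t v.2 • ev i1
  else (bs v.2 : ℝ) • ev v.1.castSucc

theorem pos_last (t : ℝ) (b : Bool) : pos (N := N) t (Fin.last N, b) =
    u0 t b • ev i0 + u1 t b • ev i1 := by
  simp [pos]

theorem pos_wi (t : ℝ) (l : Fin N) (b : Bool) : pos t (l.castSucc, b) =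
    (bs b : ℝ) • ev (wi l) := by
  have : l.castSucc ≠ Fin.last N := (Fin.castSucc_lt_last l).ne
  simp only [pos, if_neg this]
  rfl

theorem comb_eq (t : ℝ) (s : Fin (N + 1) → Bool) (c : Fin (N + 1) → ℝ) :
    ∑ i, c i • pos t (fct s i) = (∑ l : Fin N, (c l.castSucc * (bs (s l.castSucc) : ℝ)) • ev (wi l)) +
      ((c (Fin.last N) * u0 t (s (Fin.last N))) • ev i0 +
        (c (Fin.last N) * u1 t (s (Fin.last N))) • ev i1) := by
  rw [Fin.sum_univ_castSucc]
  congr 1
  · apply Finset.sum_congr rfl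
    intro l _
    rw [fct, pos_wi, smul_smul]
  · rw [fct, pos_last, smul_add, smul_smul, smul_smul]

theorem sum_apply_E {ι : Type} (A : Finset ι) (v : ι → E N) (j : Fin (N + 2)) :
    (∑ a ∈ A, v a) j = ∑ a ∈ A, v a j := by
  induction A using Finset.cons_induction with
  | empty => simp
  | cons a A ha ih => rw [Finset.sum_cons, Finset.sum_cons, PiLp.add_apply, ih]

theorem comb_wi (t : ℝ) (s : Fin (N + 1) → Bool) (c : Fin (N + 1) → ℝ) (m : Fin N) :
    (∑ i, c i • pos t (fct s i)) (wi m) = c m.castSucc * (bs (s m.castSucc) : ℝ) := by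
  rw [comb_eq, PiLp.add_apply, sum_apply_E, PiLp.add_apply]
  simp only [PiLp.smul_apply, ev_apply, smul_eq_mul, wi_inj, if_neg (wi_ne_i0 m),
    if_neg (wi_ne_i1 m), mul_zero, add_zero, mul_ite, mul_one]
  rw [Finset.sum_ite_eq Finset.univ m, if_pos (Finset.mem_univ _)]

theorem comb_i0 (t : ℝ) (s : Fin (N + 1) → Bool) (c : Fin (N + 1) → ℝ) :
    (∑ i, c i • pos t (fct s i)) i0 = c (Fin.last N) * u0 t (s (Fin.last N)) := by
  rw [comb_eq, PiLp.add_apply, sum_apply_E, PiLp.add_apply]
  simp only [PiLp.smul_apply, ev_apply, smul_eq_mul, if_neg (wi_ne_i0 _).symm,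
    if_neg i0_ne_i1, mul_zero, add_zero, mul_one, if_true, Finset.sum_const_zero, zero_add]

theorem comb_i1 (t : ℝ) (s : Fin (N + 1) → Bool) (c : Fin (N + 1) → ℝ) :
    (∑ i, c i • pos t (fct s i)) i1 = c (Fin.last N) * u1 t (s (Fin.last N)) := by
  rw [comb_eq, PiLp.add_apply, sum_apply_E, PiLp.add_apply]
  simp only [PiLp.smul_apply, ev_apply, smul_eq_mul, if_neg (wi_ne_i1 _).symm,
    if_neg i0_ne_i1.symm, mul_zero, zero_add, mul_one, if_true, Finset.sum_const_zero]

theorem ext_E {x y : E N} (hw : ∀ l, x (wi l) = y (wi l)) (h0 : x i0 = y i0) (h1 : x i1 = y i1) :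
    x = y := by
  ext j
  rcases cases_index j with ⟨l, rfl⟩ | rfl | rfl
  · exact hw l
  · exact h0
  · exact h1

/-- crossings in coordinates -/
theorem crosses_iff (t : ℝ) (s : Fin (N + 1) → Bool) (y x : E N) :
    Crosses (fun i => pos t (fct s i)) y x ↔ ∃ a b : ℝ, 0 < a ∧ 0 < b ∧
      (∀ l : Fin N, 0 < (a * y (wi l) + b * x (wi l)) * (bs (s l.castSucc) : ℝ)) ∧
      ∃ c : ℝ, 0 < c ∧ a * y i0 + b * x i0 = c * u0 t (s (Fin.last N)) ∧
        a * y i1 + b * x i1 = c * u1 t (s (Fin.last N)) := by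
  have hbs : ∀ b : Bool, (bs b : ℝ) * (bs b : ℝ) = 1 := by
    intro b; cases b <;> simp [bs]
  constructor
  · rintro ⟨a, b, ha, hb, c, hc, h⟩
    refine ⟨a, b, ha, hb, fun l => ?_, c (Fin.last N), hc _, ?_, ?_⟩
    · have := congrArg (fun v : E N => v (wi l)) h
      simp only [comb_wi, PiLp.add_apply, PiLp.smul_apply, smul_eq_mul] at this
      rw [this, mul_assoc, hbs, mul_one]
      exact hc _
    · have := congrArg (fun v : E N => v i0) h
      simpa only [comb_i0, PiLp.add_apply, PiLp.smul_apply, smul_eq_mul] using this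
    · have := congrArg (fun v : E N => v i1) h
      simpa only [comb_i1, PiLp.add_apply, PiLp.smul_apply, smul_eq_mul] using this
  · rintro ⟨a, b, ha, hb, hl, c, hc, h0, h1⟩
    refine ⟨a, b, ha, hb, Fin.snoc (α := fun _ => ℝ)
      (fun l : Fin N => (a * y (wi l) + b * x (wi l)) * (bs (s l.castSucc) : ℝ)) c, ?_, ?_⟩
    · intro i
      refine Fin.lastCases ?_ (fun l => ?_) i
      · rw [Fin.snoc_last]; exact hc
      · rw [Fin.snoc_castSucc]; exact hl l
    · apply ext_E
      · intro l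
        rw [comb_wi, Fin.snoc_castSucc, mul_assoc, hbs, mul_one]
        simp only [PiLp.add_apply, PiLp.smul_apply, smul_eq_mul]
      · rw [comb_i0, Fin.snoc_last, ← h0]
        simp only [PiLp.add_apply, PiLp.smul_apply, smul_eq_mul]
      · rw [comb_i1, Fin.snoc_last, ← h1]
        simp only [PiLp.add_apply, PiLp.smul_apply, smul_eq_mul]

theorem det_block (M : Matrix (Fin (N + 2)) (Fin (N + 2)) ℝ) (d : Fin N → ℝ)
    (h : ∀ l j, M (wi l) j = if j = wi l then d l else 0) :
    M.det = (∏ l, d l) * (M i0 i0 * M i1 i1 - M i0 i1 * M i1 i0) := by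
  have e0 : (finSumFinEquiv (Sum.inr 0) : Fin (N + 2)) = i0 := by
    ext; simp [i0]
  have e1 : (finSumFinEquiv (Sum.inr 1) : Fin (N + 2)) = i1 := by
    ext; simp [i1]
  have ew : ∀ l : Fin N, (finSumFinEquiv (Sum.inl l) : Fin (N + 2)) = wi l := by
    intro l; ext; simp [wi]
  rw [← Matrix.det_submatrix_equiv_self (finSumFinEquiv (m := N) (n := 2)) M]
  have hM : M.submatrix (finSumFinEquiv (m := N) (n := 2)) finSumFinEquiv =
      Matrix.fromBlocks (Matrix.diagonal d) 0
        (Matrix.of fun (i : Fin 2) (l : Fin N) => M (finSumFinEquiv (Sum.inr i)) (wi l))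
        (Matrix.of fun (i j : Fin 2) => M (finSumFinEquiv (Sum.inr i))
          (finSumFinEquiv (Sum.inr j))) := by
    ext i j
    rcases i with l | i <;> rcases j with m | j
    · rw [Matrix.submatrix_apply, Matrix.fromBlocks_apply₁₁, ew, ew, h]
      by_cases hlm : l = m
      · subst hlm; simp
      · rw [if_neg (by rw [wi_inj]; exact fun h => hlm h.symm), Matrix.diagonal_apply_ne _ hlm]
    · rw [Matrix.submatrix_apply, Matrix.fromBlocks_apply₁₂, ew, h]
      fin_cases j
      · change (if (finSumFinEquiv (Sum.inr 0) : Fin (N + 2)) = wi l then d l else 0) = 0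
        rw [e0, if_neg (wi_ne_i0 l).symm]
      · change (if (finSumFinEquiv (Sum.inr 1) : Fin (N + 2)) = wi l then d l else 0) = 0
        rw [e1, if_neg (wi_ne_i1 l).symm]
    · rw [Matrix.submatrix_apply, Matrix.fromBlocks_apply₂₁, ew]
      rfl
    · rw [Matrix.submatrix_apply, Matrix.fromBlocks_apply₂₂]
      rfl
  rw [hM, Matrix.det_fromBlocks_zero₁₂, Matrix.det_diagonal, Matrix.det_fin_two]
  simp only [Matrix.of_apply, e0, e1]

theorem det_pos (t : ℝ) (s : Fin (N + 1) → Bool) (x : E N) :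
    det (fun i => pos t (fct s i)) x = (∏ l : Fin N, (bs (s l.castSucc) : ℝ)) *
      (u0 t (s (Fin.last N)) * x i1 - u1 t (s (Fin.last N)) * x i0) := by
  unfold det
  rw [det_block _ fun l => (bs (s l.castSucc) : ℝ)]
  · have r0 : (Fin.snoc (α := fun _ => E N) (fun i => pos t (fct s i)) x : Fin (N + 2) → E N) i0 =
        u0 t (s (Fin.last N)) • ev i0 + u1 t (s (Fin.last N)) • ev i1 := by
      rw [i0, Fin.snoc_castSucc, fct, pos_last]
      rfl
    have r1 : (Fin.snoc (α := fun _ => E N) (fun i => pos t (fct s i)) x : Fin (N + 2) → E N) i1 =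
        x := by
      rw [i1, Fin.snoc_last]
    rw [r0, r1]
    simp only [PiLp.add_apply, PiLp.smul_apply, ev_apply, smul_eq_mul, if_true, if_neg i0_ne_i1,
      if_neg i0_ne_i1.symm, mul_one, mul_zero, add_zero, zero_add]
  · intro l j
    have : (Fin.snoc (α := fun _ => E N) (fun i => pos t (fct s i)) x : Fin (N + 2) → E N) (wi l) =
        (bs (s l.castSucc) : ℝ) • ev (wi l) := by
      rw [wi, Fin.snoc_castSucc, fct, pos_wi]
      rfl
    rw [this]
    simp only [PiLp.smul_apply, ev_apply, smul_eq_mul, mul_ite, mul_one, mul_zero]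

end

end Pool.Agent.Q189.Flex
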