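import Pool.Agent.Q189.Flex2

/-! MP_cf0a62_gt: the index of a point. -/

set_option autoImplicit false

namespace Pool.Agent.Q189.Flex

noncomputable section

variable {N : ℕ}

/-- determinant of the plane part of `x` and the apex -/
def dl (t : ℝ) (b : Bool) (x : E N) : ℝ := x i0 * u1 t b - x i1 * u0 t b

/-- determinant of the plane parts -/
def DD (y x : E N) : ℝ := y i0 * x i1 - y i1 * x i0

open Classical in
/-- the crossing number with the ray through the apex -/
def Xf (t : ℝ) (b : Bool) (y x : E N) : ℝ :=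
  if 0 < dl t b y ∧ dl t b x < 0 ∧ 0 < DD y x then 1
  else if dl t b y < 0 ∧ 0 < dl t b x ∧ DD y x < 0 then -1 else 0

theorem planar_cross (t : ℝ) (b : Bool) (y x : E N) (hx : dl t b x ≠ 0) :
    (∃ α β : ℝ, 0 < α ∧ 0 < β ∧ ∃ c : ℝ, 0 < c ∧ α * y i0 + β * x i0 = c * u0 t b ∧
      α * y i1 + β * x i1 = c * u1 t b) ↔
    (0 < dl t b y ∧ dl t b x < 0 ∧ 0 < DD y x) ∨ (dl t b y < 0 ∧ 0 < dl t b x ∧ DD y x < 0) := by
  constructor
  · rintro ⟨α, β, hα, hβ, c, hc, h0, h1⟩
    have e1 : α * dl t b y + β * dl t b x = 0 := by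
      unfold dl
      linear_combination (u1 t b) * h0 - (u0 t b) * h1
    have e2 : β * DD y x = c * dl t b y := by
      unfold dl DD
      linear_combination (y i0) * h1 - (y i1) * h0
    rcases lt_or_gt_of_ne hx with hx' | hx'
    · left
      have : 0 < dl t b y := by
        by_contra hcon
        push Not at hcon
        nlinarith [mul_nonpos_of_nonneg_of_nonpos hα.le hcon, mul_neg_of_pos_of_neg hβ hx']
      refine ⟨this, hx', ?_⟩
      have h3 : 0 < β * DD y x := by rw [e2]; positivity
      exact (pos_iff_pos_of_mul_pos h3).mp hβ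
    · right
      have : dl t b y < 0 := by
        by_contra hcon
        push Not at hcon
        nlinarith [mul_nonneg hα.le hcon, mul_pos hβ hx']
      refine ⟨this, hx', ?_⟩
      have h3 : β * DD y x < 0 := by rw [e2]; exact mul_neg_of_pos_of_neg hc this
      exact (neg_iff_pos_of_mul_neg' h3 hβ)
  · rintro (⟨h1, h2, h3⟩ | ⟨h1, h2, h3⟩)
    · refine ⟨-dl t b x, dl t b y, by linarith, h1, DD y x, h3, ?_, ?_⟩
      · unfold dl DD; ring
      · unfold dl DD; ring
    · refine ⟨dl t b x, -dl t b y, h2, by linarith, -DD y x, by linarith, ?_, ?_⟩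
      · unfold dl DD; ring
      · unfold dl DD; ring
where
  neg_iff_pos_of_mul_neg' {a b : ℝ} (h : a * b < 0) (ha : 0 < a) : b < 0 := by
    by_contra hcon
    push Not at hcon
    nlinarith [mul_nonneg ha.le hcon]

/-- genericity of `x` with respect to `y` -/
def Gen (t : ℝ) (y x : E N) : Prop :=
  ∀ b, dl t b x ≠ 0 ∧ (dl t b y ≠ 0 → ∀ l : Fin N, dl t b y * x (wi l) - dl t b x * y (wi l) ≠ 0)

/-- sign of the crossing point -/
def Wl (t : ℝ) (b : Bool) (y x : E N) (l : Fin N) : ℝ :=
  (dl t b y * x (wi l) - dl t b x * y (wi l)) * dl t b y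

open Classical in
/-- the choice of signs of the simplex which is crossed -/
def sstar (t : ℝ) (b : Bool) (y x : E N) : Fin (N + 1) → Bool :=
  Fin.snoc (α := fun _ => Bool) (fun l => decide (Wl t b y x l < 0)) b

theorem W_rel {t : ℝ} {b : Bool} {y x : E N} {α β : ℝ} (h : α * dl t b y + β * dl t b x = 0)
    (l : Fin N) : β * Wl t b y x l = (dl t b y) ^ 2 * (α * y (wi l) + β * x (wi l)) := by
  unfold Wl
  linear_combination (-y (wi l) * dl t b y) * h

open Classical in
theorem bs_decide {w : ℝ} (hw : w ≠ 0) : 0 < w * (bs (decide (w < 0)) : ℝ) := by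
  rcases lt_or_gt_of_ne hw with h | h
  · simp only [decide_eq_true h, bs, if_true]; push_cast; linarith
  · simp only [decide_eq_false (not_lt.mpr h.le), bs]; simpa using h

theorem eq_of_bs {w : ℝ} {b : Bool} (h : 0 < w * (bs b : ℝ)) : b = true ↔ w < 0 := by
  cases b
  · simp only [bs, Bool.false_eq_true, if_false, Int.cast_one, mul_one, false_iff] at h ⊢
    linarith
  · simp only [bs, if_true, Int.cast_neg, Int.cast_one, true_iff] at h ⊢
    linarith

theorem rel_of_comb {t : ℝ} {b : Bool} {y x : E N} {α β c : ℝ}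
    (h0 : α * y i0 + β * x i0 = c * u0 t b) (h1 : α * y i1 + β * x i1 = c * u1 t b) :
    α * dl t b y + β * dl t b x = 0 := by
  unfold dl
  linear_combination (u1 t b) * h0 - (u0 t b) * h1

theorem eq_sstar {t : ℝ} {y x : E N} (hg : Gen t y x) {s : Fin (N + 1) → Bool}
    (h : Crosses (fun i => pos t (fct s i)) y x) : s = sstar t (s (Fin.last N)) y x := by
  rw [crosses_iff] at h
  obtain ⟨α, β, hα, hβ, hl, c, hc, h0, h1⟩ := h
  have hrel := rel_of_comb h0 h1
  have hy : dl t (s (Fin.last N)) y ≠ 0 := by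
    intro h
    rw [h, mul_zero, zero_add] at hrel
    exact (hg (s (Fin.last N))).1 ((mul_eq_zero.mp hrel).resolve_left hβ.ne')
  funext i
  refine Fin.lastCases ?_ (fun l => ?_) i
  · rw [sstar, Fin.snoc_last]
  · rw [sstar, Fin.snoc_castSucc]
    have h2 := hl l
    have h3 := W_rel (y := y) (x := x) hrel l
    have h4 : 0 < Wl t (s (Fin.last N)) y x l * (bs (s l.castSucc) : ℝ) := by
      have h5 : 0 < (dl t (s (Fin.last N)) y) ^ 2 := by positivity
      have h6 := mul_pos h5 h2
      have h7 : (dl t (s (Fin.last N)) y) ^ 2 * ((α * y (wi l) + β * x (wi l)) *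
          (bs (s l.castSucc) : ℝ)) = β * (Wl t (s (Fin.last N)) y x l *
          (bs (s l.castSucc) : ℝ)) := by
        rw [← mul_assoc, ← h3]; ring
      rw [h7] at h6
      exact (pos_iff_pos_of_mul_pos h6).mp hβ
    have h5 := eq_of_bs h4
    rw [Bool.eq_iff_iff, h5, decide_eq_true_iff]

theorem crosses_sstar {t : ℝ} {y x : E N} (hg : Gen t y x) (b : Bool) :
    Crosses (fun i => pos t (fct (sstar t b y x) i)) y x ↔
      (0 < dl t b y ∧ dl t b x < 0 ∧ 0 < DD y x) ∨ (dl t b y < 0 ∧ 0 < dl t b x ∧ DD y x < 0) := by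
  have hlast : sstar t b y x (Fin.last N) = b := by rw [sstar, Fin.snoc_last]
  rw [← planar_cross t b y x (hg b).1, crosses_iff, hlast]
  constructor
  · rintro ⟨α, β, hα, hβ, -, h⟩
    exact ⟨α, β, hα, hβ, h⟩
  · rintro ⟨α, β, hα, hβ, c, hc, h0, h1⟩
    refine ⟨α, β, hα, hβ, fun l => ?_, c, hc, h0, h1⟩
    have hrel := rel_of_comb h0 h1
    have hy : dl t b y ≠ 0 := by
      intro h
      rw [h, mul_zero, zero_add] at hrel
      exact (hg b).1 ((mul_eq_zero.mp hrel).resolve_left hβ.ne')
    have h3 := W_rel (y := y) (x := x) hrel l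
    have hW : Wl t b y x l ≠ 0 := mul_ne_zero ((hg b).2 hy l) hy
    have h4 := bs_decide hW
    rw [sstar, Fin.snoc_castSucc]
    have h5 : 0 < (dl t b y) ^ 2 := by positivity
    have h6 := mul_pos hβ h4
    rw [← mul_assoc, h3, mul_assoc] at h6
    exact (pos_iff_pos_of_mul_pos h6).mp h5

theorem prod_bs_unit (s : Fin (N + 1) → Bool) :
    (∏ l : Fin N, (bs (s l.castSucc) : ℝ)) = 1 ∨ (∏ l : Fin N, (bs (s l.castSucc) : ℝ)) = -1 := by
  have : IsUnit (∏ l : Fin N, bs (s l.castSucc)) := by
    apply IsUnit.prod_univ_iff.mpr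
    intro i
    exact Int.isUnit_iff.mpr (bs_unit _)
  rcases Int.isUnit_iff.mp this with h | h
  · left
    rw [← Int.cast_prod, h]; norm_num
  · right
    rw [← Int.cast_prod, h]; norm_num

theorem sgn_det (t : ℝ) (s : Fin (N + 1) → Bool) (x : E N) :
    (fs (fct s) : ℝ) * (SignType.sign (det (fun i => pos t (fct s i)) x) : ℝ) =
      -((bs (s (Fin.last N)) : ℝ) * (SignType.sign (dl t (s (Fin.last N)) x) : ℝ)) := by
  have e1 : (fs (fct s) : ℝ) = (∏ l : Fin N, (bs (s l.castSucc) : ℝ)) *
      (bs (s (Fin.last N)) : ℝ) := by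
    unfold fs fct
    rw [Int.cast_prod, Fin.prod_univ_castSucc]
  rw [det_pos, e1]
  have e2 : u0 t (s (Fin.last N)) * x i1 - u1 t (s (Fin.last N)) * x i0 =
      -dl t (s (Fin.last N)) x := by unfold dl; ring
  rw [e2]
  rcases prod_bs_unit s with h | h <;> rw [h]
  · rw [one_mul, one_mul, Left.sign_neg]
    simp
  · rw [neg_one_mul, neg_one_mul, neg_neg]
    simp

open Classical in
/-- the contribution of the simplices with a given apex -/
def contr (t : ℝ) (y x : E N) (s : Fin (N + 1) → Bool) : ℝ :=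
  if Crosses (fun i => pos t (fct s i)) y x then
    (fs (fct s) : ℝ) * (SignType.sign (det (fun i => pos t (fct s i)) x) : ℝ) else 0

theorem contr_sstar {t : ℝ} {y x : E N} (hg : Gen t y x) (b : Bool) :
    contr t y x (sstar t b y x) = (bs b : ℝ) * Xf t b y x := by
  have hlast : sstar t b y x (Fin.last N) = b := by rw [sstar, Fin.snoc_last]
  unfold contr Xf
  rw [crosses_sstar hg, sgn_det, hlast]
  by_cases h1 : 0 < dl t b y ∧ dl t b x < 0 ∧ 0 < DD y x
  · rw [if_pos (Or.inl h1), if_pos h1, sign_neg h1.2.1]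
    simp
  · rw [if_neg h1]
    by_cases h2 : dl t b y < 0 ∧ 0 < dl t b x ∧ DD y x < 0
    · rw [if_pos (Or.inr h2), if_pos h2, sign_pos h2.2.1]
      simp
    · rw [if_neg (by rintro (h | h); exacts [h1 h, h2 h]), if_neg h2, mul_zero]

theorem ind_eq {t : ℝ} {y x : E N} (hg : Gen t y x) :
    ind (cross N) (pos t) y x = Xf t false y x - Xf t true y x := by
  classical
  have e1 : ind (cross N) (pos t) y x = ∑ s : Fin (N + 1) → Bool, contr t y x s := by
    unfold ind
    have : (cross N).facets = Set.range fct := rfl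
    rw [this, finsum_mem_range fct_inj, finsum_eq_sum_of_fintype]
    apply Finset.sum_congr rfl
    intro s _
    unfold contr
    congr 1
  rw [e1]
  have hne : sstar t false y x ≠ sstar t true y x := by
    intro h
    have := congrFun h (Fin.last N)
    rw [sstar, sstar, Fin.snoc_last, Fin.snoc_last] at this
    exact Bool.false_ne_true this
  rw [← Finset.sum_subset (Finset.subset_univ {sstar t false y x, sstar t true y x})]
  · rw [Finset.sum_pair hne, contr_sstar hg, contr_sstar hg]
    simp only [bs, Bool.false_eq_true, if_false, if_true, Int.cast_one, Int.cast_neg]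
    ring
  · intro s _ hs
    unfold contr
    rw [if_neg]
    intro hc
    apply hs
    have := eq_sstar hg hc
    rw [Finset.mem_insert, Finset.mem_singleton]
    cases h : s (Fin.last N)
    · left; rw [h] at this; exact this
    · right; rw [h] at this; exact this

end

end Pool.Agent.Q189.Flex
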