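import Pool.Agent.Q189.Flex3

/-! MP_cf0a62_gt: crossing numbers of rays and sectors in the plane. -/

set_option autoImplicit false

namespace Pool.Agent.Q189.Flex

noncomputable section

theorem duo {v : ℝ} (hv : v ≠ 0) : ((v < 0) = True ∧ (0 < v) = False ∧ v < 0) ∨
    ((v < 0) = False ∧ (0 < v) = True ∧ 0 < v) := by
  rcases lt_or_gt_of_ne hv with h | h
  · exact Or.inl ⟨eq_true h, eq_false (by linarith), h⟩
  · exact Or.inr ⟨eq_false (by linarith), eq_true h, h⟩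

theorem nil {v : ℝ} (hv : v = 0) : (v < 0) = False ∧ (0 < v) = False :=
  ⟨eq_false (by linarith), eq_false (by linarith)⟩

open Classical in
/-- crossing of a ray, with the three determinants -/
def X3 (δp δq D : ℝ) : ℝ :=
  if 0 < δp ∧ δq < 0 ∧ 0 < D then 1 else if δp < 0 ∧ 0 < δq ∧ D < 0 then -1 else 0

open Classical in
/-- the sign arithmetic behind the sector formula, for an angle below `π` -/
theorem core_pos {p1 q1 δp δq D s : ℝ} (hs : 0 < s) (key : s * D = q1 * δp - p1 * δq)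
    (h0 : p1 = 0 → δp < 0) (h1 : δp = 0 → p1 < 0)
    (hq1 : q1 ≠ 0) (hδq : δq ≠ 0) (hD : D ≠ 0) :
    X3 (-p1) (-q1) D - X3 δp δq D =
    (if 0 < q1 ∧ 0 < δq then 1 else 0) - (if 0 < p1 ∧ 0 < δp then 1 else 0) := by
  unfold X3
  simp only [Left.neg_pos_iff, Left.neg_neg_iff]
  rcases eq_or_ne p1 0 with hp | hp
  · have hδ := h0 hp
    obtain ⟨a1, a2⟩ := nil hp
    rw [hp, zero_mul, sub_zero] at key
    rcases duo hδ.ne with ⟨b1, b2, b3⟩ | ⟨b1, b2, b3⟩ <;>
    rcases duo hq1 with ⟨c1, c2, c3⟩ | ⟨c1, c2, c3⟩ <;>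
    rcases duo hδq with ⟨d1, d2, d3⟩ | ⟨d1, d2, d3⟩ <;>
    rcases duo hD with ⟨e1, e2, e3⟩ | ⟨e1, e2, e3⟩ <;>
    simp only [a1, a2, b1, b2, c1, c2, d1, d2, e1, e2, and_true, and_false, true_and, false_and,
      if_true, if_false] <;>
    first
    | (norm_num; done)
    | (exfalso; nlinarith)
  rcases eq_or_ne δp 0 with hδ | hδ
  · have hp' := h1 hδ
    obtain ⟨b1, b2⟩ := nil hδ
    rw [hδ, mul_zero, zero_sub] at key
    rcases duo hp with ⟨a1, a2, a3⟩ | ⟨a1, a2, a3⟩ <;>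
    rcases duo hq1 with ⟨c1, c2, c3⟩ | ⟨c1, c2, c3⟩ <;>
    rcases duo hδq with ⟨d1, d2, d3⟩ | ⟨d1, d2, d3⟩ <;>
    rcases duo hD with ⟨e1, e2, e3⟩ | ⟨e1, e2, e3⟩ <;>
    simp only [a1, a2, b1, b2, c1, c2, d1, d2, e1, e2, and_true, and_false, true_and, false_and,
      if_true, if_false] <;>
    first
    | (norm_num; done)
    | (exfalso; nlinarith)
  rcases duo hp with ⟨a1, a2, a3⟩ | ⟨a1, a2, a3⟩ <;>
  rcases duo hδ with ⟨b1, b2, b3⟩ | ⟨b1, b2, b3⟩ <;>
  rcases duo hq1 with ⟨c1, c2, c3⟩ | ⟨c1, c2, c3⟩ <;>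
  rcases duo hδq with ⟨d1, d2, d3⟩ | ⟨d1, d2, d3⟩ <;>
  rcases duo hD with ⟨e1, e2, e3⟩ | ⟨e1, e2, e3⟩ <;>
  simp only [a1, a2, b1, b2, c1, c2, d1, d2, e1, e2, and_true, and_false, true_and, false_and,
    if_true, if_false] <;>
  first
  | (norm_num; done)
  | (exfalso; nlinarith)

open Classical in
/-- the sign arithmetic behind the sector formula, for an angle above `π` -/
theorem core_neg {p1 q1 δp δq D s : ℝ} (hs : s < 0) (key : s * D = q1 * δp - p1 * δq)
    (h0 : p1 = 0 → 0 < δp) (h1 : δp = 0 → 0 < p1)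
    (hq1 : q1 ≠ 0) (hδq : δq ≠ 0) (hD : D ≠ 0) :
    X3 (-p1) (-q1) D - X3 δp δq D =
    (if q1 < 0 ∧ δq < 0 then 0 else 1) - (if p1 < 0 ∧ δp < 0 then 0 else 1) := by
  unfold X3
  simp only [Left.neg_pos_iff, Left.neg_neg_iff]
  rcases eq_or_ne p1 0 with hp | hp
  · have hδ := h0 hp
    obtain ⟨a1, a2⟩ := nil hp
    rw [hp, zero_mul, sub_zero] at key
    rcases duo hδ.ne' with ⟨b1, b2, b3⟩ | ⟨b1, b2, b3⟩ <;>
    rcases duo hq1 with ⟨c1, c2, c3⟩ | ⟨c1, c2, c3⟩ <;>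
    rcases duo hδq with ⟨d1, d2, d3⟩ | ⟨d1, d2, d3⟩ <;>
    rcases duo hD with ⟨e1, e2, e3⟩ | ⟨e1, e2, e3⟩ <;>
    simp only [a1, a2, b1, b2, c1, c2, d1, d2, e1, e2, and_true, and_false, true_and, false_and,
      if_true, if_false] <;>
    first
    | (norm_num; done)
    | (exfalso; nlinarith)
  rcases eq_or_ne δp 0 with hδ | hδ
  · have hp' := h1 hδ
    obtain ⟨b1, b2⟩ := nil hδ
    rw [hδ, mul_zero, zero_sub] at key
    rcases duo hp with ⟨a1, a2, a3⟩ | ⟨a1, a2, a3⟩ <;>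
    rcases duo hq1 with ⟨c1, c2, c3⟩ | ⟨c1, c2, c3⟩ <;>
    rcases duo hδq with ⟨d1, d2, d3⟩ | ⟨d1, d2, d3⟩ <;>
    rcases duo hD with ⟨e1, e2, e3⟩ | ⟨e1, e2, e3⟩ <;>
    simp only [a1, a2, b1, b2, c1, c2, d1, d2, e1, e2, and_true, and_false, true_and, false_and,
      if_true, if_false] <;>
    first
    | (norm_num; done)
    | (exfalso; nlinarith)
  rcases duo hp with ⟨a1, a2, a3⟩ | ⟨a1, a2, a3⟩ <;>
  rcases duo hδ with ⟨b1, b2, b3⟩ | ⟨b1, b2, b3⟩ <;>
  rcases duo hq1 with ⟨c1, c2, c3⟩ | ⟨c1, c2, c3⟩ <;>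
  rcases duo hδq with ⟨d1, d2, d3⟩ | ⟨d1, d2, d3⟩ <;>
  rcases duo hD with ⟨e1, e2, e3⟩ | ⟨e1, e2, e3⟩ <;>
  simp only [a1, a2, b1, b2, c1, c2, d1, d2, e1, e2, and_true, and_false, true_and, false_and,
    if_true, if_false] <;>
  first
  | (norm_num; done)
  | (exfalso; nlinarith)

open Classical in
/-- the case of the angle `π` -/
theorem core_pi {p1 q1 D : ℝ} (hp : p1 ≠ 0) (hq1 : q1 ≠ 0) (hD : D ≠ 0) :
    X3 (-p1) (-q1) D - X3 p1 q1 D = (if 0 < q1 ∧ 0 < q1 then 1 else 0) -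
      (if 0 < p1 ∧ 0 < p1 then 1 else 0) := by
  unfold X3
  simp only [Left.neg_pos_iff, Left.neg_neg_iff]
  rcases duo hp with ⟨a1, a2, a3⟩ | ⟨a1, a2, a3⟩ <;>
  rcases duo hq1 with ⟨c1, c2, c3⟩ | ⟨c1, c2, c3⟩ <;>
  rcases duo hD with ⟨e1, e2, e3⟩ | ⟨e1, e2, e3⟩ <;>
  simp only [a1, a2, c1, c2, e1, e2, and_true, and_false, true_and, false_and,
    if_true, if_false] <;>
  norm_num

variable {N : ℕ}

theorem Xf_eq (t : ℝ) (b : Bool) (y x : E N) :
    Xf t b y x = X3 (dl t b y) (dl t b x) (DD y x) := rfl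

theorem dl_false (t : ℝ) (x : E N) : dl t false x = -x i1 := by
  simp [dl, u0, u1]

theorem dl_true (t : ℝ) (x : E N) : dl t true x =
    x i0 * Real.sin (2 * Real.pi * t) - x i1 * Real.cos (2 * Real.pi * t) := by
  simp [dl, u0, u1]

open Classical in
/-- the indicator function of the lune between the two hemispheres -/
def Yt (t : ℝ) (x : E N) : ℝ :=
  if t ≤ 1 / 2 then (if 0 < x i1 ∧ 0 < dl t true x then 1 else 0)
  else (if x i1 < 0 ∧ dl t true x < 0 then 0 else 1)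

theorem Yt_int (t : ℝ) (x : E N) : ∃ k : ℤ, Yt t x = k := by
  unfold Yt
  split_ifs
  · exact ⟨1, by norm_num⟩
  · exact ⟨0, by norm_num⟩
  · exact ⟨0, by norm_num⟩
  · exact ⟨1, by norm_num⟩

theorem dl_zero (z : E N) : dl 0 true z = -z i1 := by rw [dl_true]; simp

theorem dl_one (z : E N) : dl 1 true z = -z i1 := by
  rw [dl_true, mul_one, Real.sin_two_pi, Real.cos_two_pi]
  ring

theorem dl_half (z : E N) : dl (1 / 2) true z = z i1 := by
  rw [dl_true, show 2 * Real.pi * (1 / 2) = Real.pi by ring, Real.sin_pi, Real.cos_pi]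
  ring

theorem Yt_zero (z : E N) : Yt 0 z = 0 := by
  have h : (0 : ℝ) ≤ 1 / 2 := by norm_num
  unfold Yt
  rw [if_pos h, if_neg]
  rintro ⟨h1, h2⟩
  rw [dl_zero] at h2
  linarith

theorem Yt_one (z : E N) : Yt 1 z = 1 := by
  have h : ¬ (1 : ℝ) ≤ 1 / 2 := by norm_num
  unfold Yt
  rw [if_neg h, if_neg]
  rintro ⟨h1, h2⟩
  rw [dl_one] at h2
  linarith

/-- the plane part of `y` is on neither ray -/
def OffRays (t : ℝ) (y : E N) : Prop :=
  ∀ b, ¬ ∃ r : ℝ, 0 ≤ r ∧ y i0 = r * u0 t b ∧ y i1 = r * u1 t b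

theorem offRays_false {t : ℝ} {y : E N} (h : OffRays t y) (h1 : y i1 = 0) : y i0 < 0 := by
  by_contra hcon
  push Not at hcon
  exact h false ⟨y i0, hcon, by simp [u0], by simp [u1, h1]⟩

theorem offRays_true {t : ℝ} {y : E N} (h : OffRays t y) (h1 : dl t true y = 0) :
    y i0 * Real.cos (2 * Real.pi * t) + y i1 * Real.sin (2 * Real.pi * t) < 0 := by
  rw [dl_true] at h1
  by_contra hcon
  push Not at hcon
  have hcs := Real.sin_sq_add_cos_sq (2 * Real.pi * t)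
  refine h true ⟨_, hcon, ?_, ?_⟩
  · simp only [u0, if_true]
    linear_combination (Real.sin (2 * Real.pi * t)) * h1 - (y i0) * hcs
  · simp only [u1, if_true]
    linear_combination (-Real.cos (2 * Real.pi * t)) * h1 - (y i1) * hcs

theorem sector {t : ℝ} (ht : t ∈ Set.Icc (0 : ℝ) 1) {y x : E N} (hy : OffRays t y)
    (hx1 : x i1 ≠ 0) (hx2 : dl t true x ≠ 0) (hD : DD y x ≠ 0) :
    Xf t false y x - Xf t true y x = Yt t x - Yt t y := by
  have hcs := Real.sin_sq_add_cos_sq (2 * Real.pi * t)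
  have key : Real.sin (2 * Real.pi * t) * DD y x = x i1 * dl t true y - y i1 * dl t true x := by
    rw [dl_true, dl_true, DD]; ring
  have hlam : y i1 = Real.sin (2 * Real.pi * t) * (y i0 * Real.cos (2 * Real.pi * t) +
      y i1 * Real.sin (2 * Real.pi * t)) - Real.cos (2 * Real.pi * t) * dl t true y := by
    rw [dl_true]
    linear_combination (-y i1) * hcs
  have hδ0 : y i1 = 0 → dl t true y = y i0 * Real.sin (2 * Real.pi * t) := by
    intro h; rw [dl_true, h]; ring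
  rw [Xf_eq, Xf_eq, dl_false, dl_false]
  have hπ := Real.pi_pos
  rcases lt_trichotomy t (1 / 2) with h | h | h
  · rcases ht.1.eq_or_lt with h0 | h0
    · -- t = 0
      subst h0
      rw [dl_zero, dl_zero, Yt_zero, Yt_zero]
      ring
    · have hs : 0 < Real.sin (2 * Real.pi * t) :=
        Real.sin_pos_of_pos_of_lt_pi (by positivity) (by nlinarith)
      rw [Yt, Yt, if_pos h.le, if_pos h.le]
      refine core_pos hs key (fun h1 => ?_) (fun h1 => ?_) hx1 hx2 hD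
      · rw [hδ0 h1]
        exact mul_neg_of_neg_of_pos (offRays_false hy h1) hs
      · rw [hlam, h1, mul_zero, sub_zero]
        exact mul_neg_of_pos_of_neg hs (offRays_true hy h1)
  · subst h
    rw [Yt, Yt, if_pos le_rfl, if_pos le_rfl, dl_half, dl_half]
    refine core_pi ?_ hx1 hD
    intro h1
    have h2 := offRays_false hy h1
    have h3 := offRays_true hy (by rw [dl_half, h1])
    rw [show 2 * Real.pi * (1 / 2) = Real.pi by ring, Real.sin_pi, Real.cos_pi] at h3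
    linarith
  · rcases ht.2.eq_or_lt with h0 | h0
    · subst h0
      rw [dl_one, dl_one, Yt_one, Yt_one]
      ring
    · have hs : Real.sin (2 * Real.pi * t) < 0 := by
        have e : Real.sin (2 * Real.pi * t) = -Real.sin (2 * Real.pi * t - Real.pi) := by
          rw [Real.sin_sub_pi]; ring
        rw [e, neg_lt_zero]
        exact Real.sin_pos_of_pos_of_lt_pi (by nlinarith) (by nlinarith)
      rw [Yt, Yt, if_neg (not_le.mpr h), if_neg (not_le.mpr h)]
      refine core_neg hs key (fun h1 => ?_) (fun h1 => ?_) hx1 hx2 hD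
      · rw [hδ0 h1]
        exact mul_pos_of_neg_of_neg (offRays_false hy h1) hs
      · rw [hlam, h1, mul_zero, sub_zero]
        exact mul_pos_of_neg_of_neg hs (offRays_true hy h1)

end

end Pool.Agent.Q189.Flex
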