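import Pool.Agent.Q189.Flex4

/-! MP_cf0a62_gt: genericity almost everywhere, the volume. -/

set_option autoImplicit false

open MeasureTheory
open scoped Pointwise

namespace Pool.Agent.Q189.Flex

noncomputable section

variable {N : ℕ}

instance : IsFiniteMeasure (sphereMeasure N) := by
  unfold sphereMeasure; infer_instance

/-- a nonzero linear form vanishes almost nowhere on the sphere -/
theorem ae_ne_zero (f : E N →ₗ[ℝ] ℝ) (v : E N) (hv : f v ≠ 0) :
    ∀ᵐ x : Metric.sphere (0 : E N) 1 ∂(sphereMeasure N), f x ≠ 0 := by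
  rw [ae_iff]
  simp only [not_not]
  have hcont : Continuous f := f.continuous_of_finiteDimensional
  have hmeas : MeasurableSet {x : Metric.sphere (0 : E N) 1 | f x = 0} :=
    (isClosed_eq (hcont.comp continuous_subtype_val) continuous_const).measurableSet
  unfold sphereMeasure
  rw [Measure.toSphere_apply' _ hmeas]
  have hker : LinearMap.ker f ≠ ⊤ := by
    intro h
    have : v ∈ LinearMap.ker f := by rw [h]; trivial
    exact hv this
  have h0 := Measure.addHaar_submodule (volume : Measure (E N)) (LinearMap.ker f) hker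
  have hsub : Set.Ioo (0 : ℝ) 1 • ((↑) '' {x : Metric.sphere (0 : E N) 1 | f x = 0} : Set (E N)) ⊆
      (LinearMap.ker f : Set (E N)) := by
    rintro _ ⟨r, -, _, ⟨x, hx, rfl⟩, rfl⟩
    change f (r • (x : E N)) = 0
    rw [map_smul, hx, smul_zero]
  rw [measure_mono_null hsub h0, mul_zero]

/-- coordinate functional -/
def co (j : Fin (N + 2)) : E N →ₗ[ℝ] ℝ where
  toFun x := x j
  map_add' x y := rfl
  map_smul' r x := rfl

theorem co_apply (j : Fin (N + 2)) (x : E N) : co j x = x j := rfl

/-- `dl` as a linear form -/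
def dlL (t : ℝ) (b : Bool) : E N →ₗ[ℝ] ℝ := u1 t b • co i0 - u0 t b • co i1

theorem dlL_apply (t : ℝ) (b : Bool) (x : E N) : dlL t b x = dl t b x := by
  simp only [dlL, LinearMap.sub_apply, LinearMap.smul_apply, co_apply, smul_eq_mul, dl]
  ring

/-- `DD y` as a linear form -/
def DDL (y : E N) : E N →ₗ[ℝ] ℝ := y i0 • co i1 - y i1 • co i0

theorem DDL_apply (y x : E N) : DDL y x = DD y x := by
  simp only [DDL, LinearMap.sub_apply, LinearMap.smul_apply, co_apply, smul_eq_mul, DD]

theorem dl_u (t : ℝ) (b : Bool) : dl t b (u1 t b • ev i0 - u0 t b • ev i1 : E N) = 1 := by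
  simp only [dl, PiLp.sub_apply, PiLp.smul_apply, ev_apply, smul_eq_mul, if_true,
    if_neg i0_ne_i1, if_neg i0_ne_i1.symm, mul_one, mul_zero, sub_zero, zero_sub]
  have := u_sq t b
  linear_combination this

theorem ae_gen (t : ℝ) {y : E N} (hy : y i0 ≠ 0 ∨ y i1 ≠ 0) :
    ∀ᵐ x : Metric.sphere (0 : E N) 1 ∂(sphereMeasure N),
      Gen t y x ∧ (x : E N) i1 ≠ 0 ∧ dl t true (x : E N) ≠ 0 ∧ DD y x ≠ 0 := by
  have h1 : ∀ b, ∀ᵐ x : Metric.sphere (0 : E N) 1 ∂(sphereMeasure N), dl t b (x : E N) ≠ 0 := by
    intro b
    have := ae_ne_zero (N := N) (dlL t b) (u1 t b • ev i0 - u0 t b • ev i1) (by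
      rw [dlL_apply, dl_u]; norm_num)
    simpa only [dlL_apply] using this
  have h2 : ∀ b, dl t b y ≠ 0 → ∀ l : Fin N, ∀ᵐ x : Metric.sphere (0 : E N) 1 ∂(sphereMeasure N),
      dl t b y * (x : E N) (wi l) - dl t b (x : E N) * y (wi l) ≠ 0 := by
    intro b hb l
    have := ae_ne_zero (dl t b y • co (wi l) - y (wi l) • dlL t b) (ev (wi l)) (by
      have e : dl t b (ev (wi l) : E N) = 0 := by
        simp only [dl, ev_apply, if_neg (wi_ne_i0 l).symm, if_neg (wi_ne_i1 l).symm, zero_mul,
          sub_zero]
      simp only [LinearMap.sub_apply, LinearMap.smul_apply, co_apply, dlL_apply, smul_eq_mul, e,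
        mul_zero, sub_zero, ev_apply, if_true, mul_one]
      exact hb)
    filter_upwards [this] with x hx
    simp only [LinearMap.sub_apply, LinearMap.smul_apply, co_apply, dlL_apply, smul_eq_mul] at hx
    rwa [mul_comm (dl t b (x : E N))]
  have h3 : ∀ᵐ x : Metric.sphere (0 : E N) 1 ∂(sphereMeasure N), DD y x ≠ 0 := by
    have := ae_ne_zero (DDL y) (y i0 • ev i1 - y i1 • ev i0) (by
      rw [DDL_apply, DD]
      simp only [PiLp.sub_apply, PiLp.smul_apply, ev_apply, smul_eq_mul, if_true,
        if_neg i0_ne_i1, if_neg i0_ne_i1.symm, mul_one, mul_zero, sub_zero, zero_sub]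
      intro h
      have h4 : y i0 ^ 2 + y i1 ^ 2 = 0 := by linear_combination h
      rcases hy with h5 | h5
      · have := pow_pos (abs_pos.mpr h5) 2
        rw [sq_abs] at this
        nlinarith [sq_nonneg (y i1)]
      · have := pow_pos (abs_pos.mpr h5) 2
        rw [sq_abs] at this
        nlinarith [sq_nonneg (y i0)])
    simpa only [DDL_apply] using this
  have h4 : ∀ᵐ x : Metric.sphere (0 : E N) 1 ∂(sphereMeasure N), Gen t y x := by
    unfold Gen
    rw [ae_all_iff]
    intro b
    by_cases hb : dl t b y = 0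
    · filter_upwards [h1 b] with x hx
      exact ⟨hx, fun h => absurd hb h⟩
    · have := ae_all_iff.mpr (h2 b hb)
      filter_upwards [h1 b, this] with x hx hx'
      exact ⟨hx, fun _ => hx'⟩
  filter_upwards [h4, h1 false, h1 true, h3] with x a1 a2 a3 a4
  refine ⟨a1, ?_, a3, a4⟩
  rw [dl_false] at a2
  exact neg_ne_zero.mp a2

theorem measurable_Yt (t : ℝ) :
    Measurable (fun x : Metric.sphere (0 : E N) 1 => Yt t (x : E N)) := by
  have hc : ∀ j : Fin (N + 2), Continuous fun x : Metric.sphere (0 : E N) 1 => (x : E N) j := by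
    intro j
    exact (EuclideanSpace.proj (𝕜 := ℝ) j).continuous.comp continuous_subtype_val
  have hd : Continuous fun x : Metric.sphere (0 : E N) 1 => dl t true (x : E N) := by
    unfold dl
    exact ((hc i0).mul continuous_const).sub ((hc i1).mul continuous_const)
  unfold Yt
  split_ifs
  · refine Measurable.ite ?_ measurable_const measurable_const
    exact ((isOpen_lt continuous_const (hc i1)).inter (isOpen_lt continuous_const hd)).measurableSet
  · refine Measurable.ite ?_ measurable_const measurable_const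
    exact ((isOpen_lt (hc i1) continuous_const).inter (isOpen_lt hd continuous_const)).measurableSet

theorem Yt_bound (t : ℝ) (x : E N) : ‖Yt t x‖ ≤ 1 := by
  unfold Yt
  split_ifs <;> norm_num

theorem integrable_Yt (t : ℝ) :
    Integrable (fun x : Metric.sphere (0 : E N) 1 => Yt t (x : E N)) (sphereMeasure N) :=
  Integrable.of_bound (measurable_Yt t).aestronglyMeasurable 1
    (Filter.Eventually.of_forall fun x => Yt_bound t (x : E N))

/-- the volume of the lune -/
def lune (N : ℕ) (t : ℝ) : ℝ :=
  ∫ x : Metric.sphere (0 : E N) 1, Yt t (x : E N) ∂(sphereMeasure N)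

theorem volFrom_eq {t : ℝ} (ht : t ∈ Set.Icc (0 : ℝ) 1) {y : E N} (hy : OffRays t y) :
    volFrom (cross N) (pos t) y = lune N t - Yt t y * sphereVol N := by
  have hy' : y i0 ≠ 0 ∨ y i1 ≠ 0 := by
    by_contra hcon
    push Not at hcon
    exact hy false ⟨0, le_rfl, by rw [hcon.1, zero_mul], by rw [hcon.2, zero_mul]⟩
  unfold volFrom
  have h1 : ∀ᵐ x : Metric.sphere (0 : E N) 1 ∂(sphereMeasure N),
      ind (cross N) (pos t) y x = Yt t (x : E N) - Yt t y := by
    filter_upwards [ae_gen t hy'] with x hx
    rw [ind_eq hx.1, sector ht hy hx.2.1 hx.2.2.1 hx.2.2.2]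
  rw [integral_congr_ae h1, integral_sub (integrable_Yt t) (integrable_const _), integral_const,
    smul_eq_mul, lune, sphereVol]
  ring

theorem continuous_dl (x : E N) : Continuous fun t => dl t true x := by
  simp only [dl_true]
  fun_prop

theorem Yt_continuousAt {x : E N} {t : ℝ} (h1 : x i1 ≠ 0) (h2 : dl t true x ≠ 0) :
    ContinuousAt (fun s => Yt s x) t := by
  have hev : ∀ᶠ s in nhds t, Yt s x = Yt t x := by
    have hc := (continuous_dl x).continuousAt (x := t)
    have hsign : ∀ᶠ s in nhds t, (0 < dl s true x ↔ 0 < dl t true x) ∧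
        (dl s true x < 0 ↔ dl t true x < 0) := by
      rcases lt_or_gt_of_ne h2 with h | h
      · filter_upwards [hc.eventually (gt_mem_nhds h)] with s hs
        exact ⟨⟨fun h' => by linarith, fun h' => by linarith⟩, ⟨fun _ => h, fun _ => hs⟩⟩
      · filter_upwards [hc.eventually (lt_mem_nhds h)] with s hs
        exact ⟨⟨fun _ => h, fun _ => hs⟩, ⟨fun h' => by linarith, fun h' => by linarith⟩⟩
    rcases lt_trichotomy t (1 / 2) with h | h | h
    · filter_upwards [hsign, gt_mem_nhds h] with s hs hs'
      unfold Yt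
      rw [if_pos hs'.le, if_pos h.le]
      simp only [hs.1]
    · subst h
      rw [dl_half] at hsign
      filter_upwards [hsign] with s hs
      unfold Yt
      rw [if_pos le_rfl, dl_half]
      rcases lt_or_gt_of_ne h1 with h3 | h3
      · have h4 : ¬ 0 < x i1 := by linarith
        simp only [hs.1, hs.2, h3, h4, and_self, if_true, if_false, ite_self]
      · have h4 : ¬ x i1 < 0 := by linarith
        simp only [hs.1, hs.2, h3, h4, and_self, if_true, if_false, ite_self]
    · filter_upwards [hsign, lt_mem_nhds h] with s hs hs'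
      unfold Yt
      rw [if_neg (not_le.mpr hs'), if_neg (not_le.mpr h)]
      simp only [hs.2]
  exact (continuousAt_const.congr (hev.mono fun s hs => hs.symm))

theorem continuous_lune : Continuous (lune N) := by
  rw [continuous_iff_continuousAt]
  intro t
  unfold lune
  refine continuousAt_of_dominated (bound := fun _ => 1)
    (Filter.Eventually.of_forall fun s => (measurable_Yt s).aestronglyMeasurable)
    (Filter.Eventually.of_forall fun s => Filter.Eventually.of_forall fun x => Yt_bound s (x : E N))
    (integrable_const _) ?_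
  have h := ae_gen (N := N) t (y := ev i0) (Or.inl (by rw [ev_apply, if_pos rfl]; norm_num))
  filter_upwards [h] with x hx
  exact Yt_continuousAt hx.2.1 hx.2.2.1

theorem lune_zero : lune N 0 = 0 := by
  unfold lune
  simp only [Yt_zero, integral_zero]

theorem lune_one : lune N 1 = sphereVol N := by
  unfold lune
  simp only [Yt_one, integral_const, smul_eq_mul, mul_one]
  rfl

theorem sphereVol_pos : 0 < sphereVol N := by
  unfold sphereVol sphereMeasure
  rw [Measure.toSphere_real_apply_univ]
  have h1 : 0 < (volume : Measure (E N)).real (Metric.ball 0 1) :=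
    ENNReal.toReal_pos (Metric.measure_ball_pos _ _ one_pos).ne' measure_ball_lt_top.ne
  have h2 : 0 < Module.finrank ℝ (E N) := by
    rw [finrank_euclideanSpace, Fintype.card_fin]; omega
  positivity

end

end Pool.Agent.Q189.Flex
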