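import Pool.Agent.Q189.Flex5

/-! MP_cf0a62_gt: the closed curve in the configuration space. -/

set_option autoImplicit false

open MeasureTheory

namespace Pool.Agent.Q189.Flex

noncomputable section

variable {N : ℕ}

theorem norm_ev (j : Fin (N + 2)) : ‖(ev j : E N)‖ = 1 := by
  simp [ev]

theorem inner_E (x y : E N) : inner ℝ x y = ∑ j, x j * y j := by
  rw [PiLp.inner_apply]
  apply Finset.sum_congr rfl
  intro j _
  simp [mul_comm]

theorem inner_ev (x : E N) (j : Fin (N + 2)) : inner ℝ x (ev j) = x j := by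
  rw [inner_E, Finset.sum_eq_single j]
  · rw [ev_apply, if_pos rfl, mul_one]
  · intro k _ hk
    rw [ev_apply, if_neg hk, mul_zero]
  · intro h
    exact absurd (Finset.mem_univ _) h

theorem bs_sq (b : Bool) : (bs b : ℝ) * (bs b : ℝ) = 1 := by cases b <;> simp [bs]

theorem norm_pos_t (t : ℝ) (v : Fin (N + 1) × Bool) : ‖(pos t v : E N)‖ = 1 := by
  obtain ⟨i, b⟩ := v
  refine Fin.lastCases ?_ (fun l => ?_) i
  · rw [pos_last]
    have h : ‖(u0 t b • ev i0 + u1 t b • ev i1 : E N)‖ ^ 2 = 1 := by
      rw [← real_inner_self_eq_norm_sq]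
      simp only [inner_add_right, inner_smul_right, inner_ev, PiLp.add_apply, PiLp.smul_apply,
        ev_apply, smul_eq_mul, if_true, if_neg i0_ne_i1, if_neg i0_ne_i1.symm, mul_one, mul_zero,
        add_zero, zero_add]
      have := u_sq t b
      linear_combination this
    have h2 := norm_nonneg (u0 t b • ev i0 + u1 t b • ev i1 : E N)
    nlinarith
  · rw [pos_wi, norm_smul, norm_ev, mul_one, Real.norm_eq_abs]
    cases b <;> simp [bs]

theorem inner_pos_last (t : ℝ) (l : Fin N) (b b' : Bool) :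
    inner ℝ (pos t (l.castSucc, b) : E N) (pos t (Fin.last N, b')) = 0 := by
  rw [pos_wi, pos_last]
  simp only [inner_add_right, inner_smul_right, inner_ev, PiLp.smul_apply, ev_apply, smul_eq_mul,
    if_neg (wi_ne_i0 l).symm, if_neg (wi_ne_i1 l).symm, mul_zero, add_zero]

theorem dist_pos_last (t : ℝ) (l : Fin N) (b b' : Bool) :
    dist (pos t (l.castSucc, b) : E N) (pos t (Fin.last N, b')) = √2 := by
  have h := norm_sub_sq_real (pos t (l.castSucc, b) : E N) (pos t (Fin.last N, b'))
  rw [inner_pos_last, norm_pos_t, norm_pos_t] at h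
  rw [dist_eq_norm, ← Real.sqrt_sq (norm_nonneg _), h]
  norm_num

theorem isPolyhedron_pos (t : ℝ) : IsPolyhedron (cross N) (pos t) := by
  refine ⟨norm_pos_t t, ?_⟩
  rintro _ ⟨s, rfl⟩
  rw [Fintype.linearIndependent_iff]
  intro c hc i
  refine Fin.lastCases ?_ (fun l => ?_) i
  · have h0 := comb_i0 t s c
    have h1 := comb_i1 t s c
    rw [hc] at h0 h1
    have h0' : c (Fin.last N) * u0 t (s (Fin.last N)) = 0 := h0.symm
    have h1' : c (Fin.last N) * u1 t (s (Fin.last N)) = 0 := h1.symm
    have h2 := u_sq t (s (Fin.last N))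
    linear_combination (u0 t (s (Fin.last N))) * h0' + (u1 t (s (Fin.last N))) * h1' -
      c (Fin.last N) * h2
  · have h := comb_wi t s c l
    rw [hc] at h
    have h' : c l.castSucc * (bs (s l.castSucc) : ℝ) = 0 := h.symm
    have := bs_sq (s l.castSucc)
    linear_combination (bs (s l.castSucc) : ℝ) * h' - c l.castSucc * this

theorem conf_pos (t : ℝ) : pos t ∈ Conf (cross N) (pos 0) := by
  refine ⟨isPolyhedron_pos t, ?_⟩
  rintro _ ⟨s, rfl⟩ i j
  refine Fin.lastCases ?_ (fun l => ?_) i <;> refine Fin.lastCases ?_ (fun m => ?_) j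
  · rw [dist_self, dist_self]
  · rw [dist_comm, dist_comm (pos 0 (fct s (Fin.last N)))]
    unfold fct
    rw [dist_pos_last, dist_pos_last]
  · unfold fct
    rw [dist_pos_last, dist_pos_last]
  · unfold fct
    rw [pos_wi, pos_wi, pos_wi, pos_wi]

theorem pos_one : (pos 1 : Fin (N + 1) × Bool → E N) = pos 0 := by
  funext v
  obtain ⟨i, b⟩ := v
  refine Fin.lastCases ?_ (fun l => ?_) i
  · rw [pos_last, pos_last]
    cases b <;> simp [u0, u1]
  · rw [pos_wi, pos_wi]

theorem continuous_pos : Continuous (pos : ℝ → Fin (N + 1) × Bool → E N) := by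
  apply continuous_pi
  rintro ⟨i, b⟩
  refine Fin.lastCases ?_ (fun l => ?_) i
  · simp only [pos_last]
    have h0 : Continuous fun t => u0 t b := by
      cases b
      · simp only [u0, Bool.false_eq_true, if_false]; exact continuous_const
      · simp only [u0, if_true]; fun_prop
    have h1 : Continuous fun t => u1 t b := by
      cases b
      · simp only [u1, Bool.false_eq_true, if_false]; exact continuous_const
      · simp only [u1, if_true]; fun_prop
    exact (h0.smul continuous_const).add (h1.smul continuous_const)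
  · simp only [pos_wi]
    exact continuous_const

theorem flexible_pos : Flexible (cross N) (pos 0) := by
  refine ⟨pos, continuous_pos.continuousOn, rfl, fun t _ => conf_pos t, ?_⟩
  rintro ⟨A, hA⟩
  have ht : (1 / 2 : ℝ) ∈ Set.Icc (0 : ℝ) 1 := by constructor <;> norm_num
  have h1 := hA _ ht (Fin.last N, true)
  have h2 := hA _ ht (Fin.last N, false)
  have e : (pos 0 (Fin.last N, true) : E N) = pos 0 (Fin.last N, false) := by
    rw [pos_last, pos_last]; simp [u0, u1]
  rw [e, ← h2] at h1
  have h3 := congrArg (fun v : E N => v i0) h1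
  simp only [pos_last, PiLp.add_apply, PiLp.smul_apply, ev_apply, smul_eq_mul, if_true,
    if_neg i0_ne_i1, mul_one, mul_zero, add_zero] at h3
  simp only [u0, if_true, Bool.false_eq_true, if_false,
    show 2 * Real.pi * (1 / 2) = Real.pi by ring, Real.cos_pi] at h3
  norm_num at h3

theorem offRays_of {t : ℝ} {y : E N} (hn : ‖y‖ = 1) (hy : y ∉ surface (cross N) (pos t)) :
    OffRays t y := by
  classical
  rintro b ⟨r, hr, h0, h1⟩
  apply hy
  refine ⟨hn, fct (Fin.snoc (α := fun _ => Bool) (fun l : Fin N => decide (y (wi l) < 0)) b),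
    ⟨_, rfl⟩, Fin.snoc (α := fun _ => ℝ) (fun l : Fin N => |y (wi l)|) r, ?_, ?_⟩
  · intro i
    refine Fin.lastCases ?_ (fun l => ?_) i
    · rw [Fin.snoc_last]; exact hr
    · rw [Fin.snoc_castSucc]; exact abs_nonneg _
  · apply ext_E
    · intro l
      rw [comb_wi, Fin.snoc_castSucc, Fin.snoc_castSucc]
      by_cases hl : y (wi l) < 0
      · rw [decide_eq_true hl, abs_of_neg hl]; simp [bs]
      · rw [decide_eq_false hl, abs_of_nonneg (not_lt.mp hl)]; simp [bs]
    · rw [comb_i0, Fin.snoc_last, Fin.snoc_last, h0]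
    · rw [comb_i1, Fin.snoc_last, Fin.snoc_last, h1]

theorem represents_lune {t : ℝ} (ht : t ∈ Set.Icc (0 : ℝ) 1) {y : E N} (hn : ‖y‖ = 1)
    (hy : y ∉ surface (cross N) (pos t)) : Represents (cross N) (pos t) y (lune N t) := by
  obtain ⟨k, hk⟩ := Yt_int t y
  refine ⟨k, ?_⟩
  rw [volFrom_eq ht (offRays_of hn hy), hk]
  ring

/-- all lifts have the same increment -/
theorem increment {W : ℝ → ℝ} (hW : ContinuousOn W (Set.Icc 0 1))
    (h : ∀ t ∈ Set.Icc (0 : ℝ) 1, ∃ y : E N, ‖y‖ = 1 ∧ y ∉ surface (cross N) (pos t) ∧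
      Represents (cross N) (pos t) y (W t)) : W 1 - W 0 = sphereVol N := by
  have hpos := sphereVol_pos (N := N)
  set f : ℝ → ℝ := fun t => (W t - lune N t) / sphereVol N with hf
  have hfc : ContinuousOn f (Set.Icc 0 1) :=
    (hW.sub continuous_lune.continuousOn).div_const _
  have hmaps : Set.MapsTo f (Set.Icc 0 1) (Set.range ((↑) : ℤ → ℝ)) := by
    intro t ht
    obtain ⟨y, hn, hy, k, hk⟩ := h t ht
    obtain ⟨m, hm⟩ := represents_lune ht hn hy
    refine ⟨k - m, ?_⟩
    rw [hf]
    simp only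
    rw [hk, hm]
    push_cast
    field_simp
    ring
  haveI : DiscreteTopology (Set.range ((↑) : ℤ → ℝ)) :=
    (Int.isClosedEmbedding_coe_real.isEmbedding.toHomeomorph.symm.isEmbedding).discreteTopology
  have h01 := isPreconnected_Icc.constant_of_mapsTo ⟨inferInstance⟩ hfc hmaps
    (Set.left_mem_Icc.mpr (zero_le_one' ℝ)) (Set.right_mem_Icc.mpr (zero_le_one' ℝ))
  rw [hf] at h01
  simp only at h01
  rw [lune_zero, lune_one] at h01
  have h2 := (div_left_inj' hpos.ne').mp h01
  linarith

end

end Pool.Agent.Q189.Flex
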