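import Pool.Agent.Q189.Flex6

/-! MP_cf0a62_gt: embeddedness and flexibility for all times. -/

set_option autoImplicit false

open MeasureTheory

namespace Pool.Agent.Q189.Flex

noncomputable section

open Classical in
/-- `P` is an embedding of the complex `K`: if a point lies on the cones over two simplices, then
its cone coordinates (nonnegative weights of the vertices) agree -/
def Embedded {N : ℕ} {V : Type} (K : OrientedPseudomanifold N V) (P : V → E N) : Prop :=
  ∀ f ∈ K.facets, ∀ g ∈ K.facets, ∀ c d : Fin (N + 1) → ℝ, (∀ i, 0 ≤ c i) → (∀ i, 0 ≤ d i) →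
    ∑ i, c i • P (f i) = ∑ i, d i • P (g i) →
      ∀ v, (∑ i, if f i = v then c i else 0) = ∑ i, if g i = v then d i else 0

variable {N : ℕ}

theorem weight_eq (s : Fin (N + 1) → Bool) (c : Fin (N + 1) → ℝ) (j : Fin (N + 1)) (b : Bool)
    [∀ i, Decidable (fct s i = (j, b))] :
    (∑ i, if fct s i = (j, b) then c i else 0) = if s j = b then c j else 0 := by
  rw [Finset.sum_eq_single j]
  · have : (fct s j = (j, b)) ↔ s j = b := by simp only [fct, Prod.mk.injEq, true_and]
    by_cases h : s j = b
    · rw [if_pos h, if_pos (this.mpr h)]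
    · rw [if_neg h, if_neg (fun h' => h (this.mp h'))]
  · intro i _ hi
    rw [if_neg]
    intro h
    exact hi (congrArg Prod.fst h)
  · intro h
    exact absurd (Finset.mem_univ _) h

theorem sin_ne {t : ℝ} (ht : t ∈ Set.Ioo (0 : ℝ) 1) (h2 : t ≠ 1 / 2) :
    Real.sin (2 * Real.pi * t) ≠ 0 := by
  have hπ := Real.pi_pos
  rcases lt_or_gt_of_ne h2 with h | h
  · exact (Real.sin_pos_of_pos_of_lt_pi (by have := ht.1; positivity) (by nlinarith)).ne'
  · have e : Real.sin (2 * Real.pi * t) = -Real.sin (2 * Real.pi * t - Real.pi) := by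
      rw [Real.sin_sub_pi]; ring
    rw [e, neg_ne_zero]
    exact (Real.sin_pos_of_pos_of_lt_pi (by nlinarith) (by have := ht.2; nlinarith)).ne'

theorem apex_aux {t : ℝ} (ht : t ∈ Set.Ioo (0 : ℝ) 1) {c d : ℝ} (hc : 0 ≤ c) (hd : 0 ≤ d)
    (h0 : c * u0 t false = d * u0 t true) (h1 : c * u1 t false = d * u1 t true) :
    c = 0 ∧ d = 0 := by
  simp only [u0, u1, Bool.false_eq_true, if_false, if_true, mul_one, mul_zero] at h0 h1
  by_cases h2 : t = 1 / 2
  · subst h2
    rw [show 2 * Real.pi * (1 / 2) = Real.pi by ring, Real.cos_pi] at h0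
    constructor <;> linarith
  · have h3 := sin_ne ht h2
    have hd0 : d = 0 := by
      rcases mul_eq_zero.mp h1.symm with h | h
      · exact h
      · exact absurd h h3
    rw [hd0, zero_mul] at h0
    exact ⟨h0, hd0⟩

theorem embedded_pos {t : ℝ} (ht : t ∈ Set.Ioo (0 : ℝ) 1) : Embedded (cross N) (pos t) := by
  rintro _ ⟨s, rfl⟩ _ ⟨s', rfl⟩ c d hc hd h ⟨j, b⟩
  rw [@weight_eq N s c j b (fun i => Classical.propDecidable _),
    @weight_eq N s' d j b (fun i => Classical.propDecidable _)]
  have key : (s j = s' j ∧ c j = d j) ∨ (c j = 0 ∧ d j = 0) := by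
    refine Fin.lastCases ?_ (fun l => ?_) j
    · have h0 := congrArg (fun v : E N => v i0) h
      have h1 := congrArg (fun v : E N => v i1) h
      simp only [comb_i0, comb_i1] at h0 h1
      generalize s (Fin.last N) = a at *
      generalize s' (Fin.last N) = a' at *
      have hc' := hc (Fin.last N)
      have hd' := hd (Fin.last N)
      generalize c (Fin.last N) = x at *
      generalize d (Fin.last N) = y at *
      cases a <;> cases a'
      · left
        refine ⟨rfl, ?_⟩
        have := u_sq t false
        linear_combination (u0 t false) * h0 + (u1 t false) * h1 - (x - y) * this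
      · right; exact apex_aux ht hc' hd' h0 h1
      · right
        have := apex_aux ht hd' hc' h0.symm h1.symm
        exact ⟨this.2, this.1⟩
      · left
        refine ⟨rfl, ?_⟩
        have := u_sq t true
        linear_combination (u0 t true) * h0 + (u1 t true) * h1 - (x - y) * this
    · have h0 := congrArg (fun v : E N => v (wi l)) h
      simp only [comb_wi] at h0
      have hc' := hc l.castSucc
      have hd' := hd l.castSucc
      generalize s l.castSucc = a at *
      generalize s' l.castSucc = a' at *
      generalize c l.castSucc = x at *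
      generalize d l.castSucc = y at *
      cases a <;> cases a' <;> simp [bs] at h0 ⊢
      · exact Or.inl h0
      · constructor <;> linarith
      · constructor <;> linarith
      · exact Or.inl h0
  rcases key with ⟨h1, h2⟩ | ⟨h1, h2⟩
  · rw [h1, h2]
  · rw [h1, h2, ite_self, ite_self]

theorem conf_pos' (t r : ℝ) : (pos t : Fin (N + 1) × Bool → E N) ∈ Conf (cross N) (pos r) := by
  refine ⟨isPolyhedron_pos t, ?_⟩
  intro f hf i j
  rw [(conf_pos t).2 f hf i j, (conf_pos r).2 f hf i j]

theorem inner_apex (t : ℝ) : inner ℝ (pos t (Fin.last N, true) : E N) (pos t (Fin.last N, false)) =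
    Real.cos (2 * Real.pi * t) := by
  rw [pos_last, pos_last]
  simp only [inner_add_right, inner_smul_right, inner_ev, PiLp.add_apply, PiLp.smul_apply,
    ev_apply, smul_eq_mul, if_true, if_neg i0_ne_i1, if_neg i0_ne_i1.symm, mul_one, mul_zero,
    add_zero, zero_add, u0, u1, Bool.false_eq_true, if_false, one_mul, zero_mul]

theorem flexible_all (t : ℝ) : Flexible (cross N) (pos t) := by
  refine ⟨fun s => pos (t + s), (continuous_pos.comp (by fun_prop)).continuousOn,
    by simp only [add_zero], fun s _ => conf_pos' _ _, ?_⟩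
  rintro ⟨A, hA'⟩
  have hA : ∀ s ∈ Set.Icc (0 : ℝ) 1, ∀ v, (pos (t + s) v : E N) = A s (pos t v) := hA'
  have key : ∀ s ∈ Set.Icc (0 : ℝ) 1, Real.cos (2 * Real.pi * (t + s)) =
      Real.cos (2 * Real.pi * t) := by
    intro s hs
    rw [← inner_apex (N := N) (t + s), ← inner_apex (N := N) t, hA s hs, hA s hs,
      LinearIsometryEquiv.inner_map_map]
  have h1 := key (1 / 2) (by constructor <;> norm_num)
  have h2 := key (1 / 4) (by constructor <;> norm_num)
  rw [show 2 * Real.pi * (t + 1 / 2) = 2 * Real.pi * t + Real.pi by ring, Real.cos_add_pi] at h1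
  rw [show 2 * Real.pi * (t + 1 / 4) = 2 * Real.pi * t + Real.pi / 2 by ring,
    Real.cos_add_pi_div_two] at h2
  have h3 := Real.sin_sq_add_cos_sq (2 * Real.pi * t)
  have h4 : Real.cos (2 * Real.pi * t) = 0 := by linarith
  rw [h4] at h2 h3
  have h5 : Real.sin (2 * Real.pi * t) = 0 := by linarith
  rw [h5] at h3
  norm_num at h3

end

end Pool.Agent.Q189.Flex
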