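import Mathlib

/-! Definitions for MP_cf0a62_gt: polyhedra in spheres, configuration spaces, oriented volume. -/

set_option autoImplicit false

open MeasureTheory

namespace Pool.Agent.Q189.Flex

noncomputable section

/-- `ℝ^(N+2)`, which contains the sphere of dimension `N + 1` -/
abbrev E (N : ℕ) : Type := EuclideanSpace ℝ (Fin (N + 2))

/-- A finite oriented closed pseudomanifold of dimension `N` with vertex set `V`: a finite set of
facets, each with an order `f 0, …, f N` of its vertices and a sign `sgn f`, so that the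
orientation of the facet is `sgn f [f 0, …, f N]`. -/
structure OrientedPseudomanifold (N : ℕ) (V : Type) where
  /-- the facets -/
  facets : Set (Fin (N + 1) → V)
  /-- the orientations -/
  sgn : (Fin (N + 1) → V) → ℤ
  finite : facets.Finite
  nonempty : facets.Nonempty
  sgn_unit : ∀ f ∈ facets, sgn f = 1 ∨ sgn f = -1
  /-- every facet has `N + 1` vertices -/
  injective : ∀ f ∈ facets, Function.Injective f
  /-- different facets have different vertex sets -/
  distinct : ∀ f ∈ facets, ∀ g ∈ facets, Set.range f = Set.range g → f = g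
  /-- every vertex lies in a facet -/
  vertex : ∀ v : V, ∃ f ∈ facets, v ∈ Set.range f
  /-- every ridge (a facet `f` without its vertex `f i`) lies in exactly two facets -/
  ridge : ∀ f ∈ facets, ∀ i, ∃! g, g ∈ facets ∧ g ≠ f ∧ ∀ j, j ≠ i → f j ∈ Set.range g
  /-- two facets with a common ridge induce opposite orientations on it -/
  orient : ∀ f ∈ facets, ∀ g ∈ facets, f ≠ g → ∀ (i j : Fin (N + 1)) (π : Equiv.Perm (Fin N)),
    (∀ l, g (j.succAbove l) = f (i.succAbove (π l))) →
      sgn g * (-1) ^ (j : ℕ) * (Equiv.Perm.sign π : ℤ) = -(sgn f * (-1) ^ (i : ℕ))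
  /-- strong connectedness -/
  connected : ∀ f ∈ facets, ∀ g ∈ facets, Relation.ReflTransGen
    (fun a b => b ∈ facets ∧ ∃ i, ∀ j, j ≠ i → a j ∈ Set.range b) f g

variable {N : ℕ} {V : Type}

/-- a polyhedron of type `K` in the unit sphere: each simplex is sent to a non-degenerate
spherical simplex -/
def IsPolyhedron (K : OrientedPseudomanifold N V) (P : V → E N) : Prop :=
  (∀ v, ‖P v‖ = 1) ∧ ∀ f ∈ K.facets, LinearIndependent ℝ (fun i => P (f i))

/-- the configuration space of `P`: the polyhedra of type `K` with the same edge lengths -/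
def Conf (K : OrientedPseudomanifold N V) (P : V → E N) : Set (V → E N) :=
  {Q | IsPolyhedron K Q ∧ ∀ f ∈ K.facets, ∀ i j, dist (Q (f i)) (Q (f j)) = dist (P (f i)) (P (f j))}

/-- `P` is flexible: some continuous path in the configuration space which starts at `P` is not
induced by isometries of the sphere -/
def Flexible (K : OrientedPseudomanifold N V) (P : V → E N) : Prop :=
  ∃ γ : ℝ → V → E N, ContinuousOn γ (Set.Icc 0 1) ∧ γ 0 = P ∧
    (∀ t ∈ Set.Icc (0 : ℝ) 1, γ t ∈ Conf K P) ∧
    ¬ ∃ A : ℝ → (E N ≃ₗᵢ[ℝ] E N), ∀ t ∈ Set.Icc (0 : ℝ) 1, ∀ v, γ t v = A t (P v)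

/-- the polyhedral surface `P(K)` -/
def surface (K : OrientedPseudomanifold N V) (P : V → E N) : Set (E N) :=
  {y | ‖y‖ = 1 ∧ ∃ f ∈ K.facets, ∃ c : Fin (N + 1) → ℝ, (∀ i, 0 ≤ c i) ∧ y = ∑ i, c i • P (f i)}

/-- the minimal geodesic from `y` to `x` crosses the interior of the simplex with the vertices
`p 0, …, p N` -/
def Crosses (p : Fin (N + 1) → E N) (y x : E N) : Prop :=
  ∃ a b : ℝ, 0 < a ∧ 0 < b ∧ ∃ c : Fin (N + 1) → ℝ, (∀ i, 0 < c i) ∧
    a • y + b • x = ∑ i, c i • p i

/-- the determinant with the rows `p 0, …, p N, x` -/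
def det (p : Fin (N + 1) → E N) (x : E N) : ℝ :=
  Matrix.det (fun r c => (Fin.snoc (α := fun _ => E N) p x : Fin (N + 2) → E N) r c)

open Classical in
/-- the algebraic intersection number of the minimal geodesic from `y` to `x` with `P(K)` -/
def ind (K : OrientedPseudomanifold N V) (P : V → E N) (y x : E N) : ℝ :=
  ∑ᶠ f ∈ K.facets, if Crosses (fun i => P (f i)) y x then
    (K.sgn f : ℝ) * (SignType.sign (det (fun i => P (f i)) x) : ℝ) else 0

/-- the surface measure of the unit sphere -/
def sphereMeasure (N : ℕ) : Measure (Metric.sphere (0 : E N) 1) :=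
  (volume : Measure (E N)).toSphere

/-- the volume of the sphere -/
def sphereVol (N : ℕ) : ℝ := (sphereMeasure N).real Set.univ

/-- the oriented volume of `P` with respect to the base point `y` -/
def volFrom (K : OrientedPseudomanifold N V) (P : V → E N) (y : E N) : ℝ :=
  ∫ x : Metric.sphere (0 : E N) 1, ind K P y x ∂(sphereMeasure N)

/-- `r` represents the oriented volume of `P`, computed with the base point `y`, modulo the volume
of the sphere -/
def Represents (K : OrientedPseudomanifold N V) (P : V → E N) (y : E N) (r : ℝ) : Prop :=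
  ∃ k : ℤ, r = volFrom K P y + k * sphereVol N

end

end Pool.Agent.Q189.Flex
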