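import Mathlib

/-!
# Folding and nonnegative factorizations
-/

set_option autoImplicit false

open Finset

namespace Q189.FoldFac

/-- three dimensional space -/
abbrev V3 := Fin 3 → ℝ

/-- evaluation of a linear form -/
def ev (a x : V3) : ℝ := ∑ i, a i * x i

/-- the sum norm -/
def nn (a : V3) : ℝ := ∑ i, |a i|

theorem ev_sub_smul (a x d : V3) (t : ℝ) : ev a (x - t • d) = ev a x - t * ev a d := by
  unfold ev
  simp only [Pi.sub_apply, Pi.smul_apply, smul_eq_mul]
  rw [Finset.mul_sum, ← Finset.sum_sub_distrib]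
  refine Finset.sum_congr rfl fun i _ => ?_
  ring

theorem ev_sub_left (a y x : V3) (t : ℝ) : ev (a - t • y) x = ev a x - t * ev y x := by
  unfold ev
  simp only [Pi.sub_apply, Pi.smul_apply, smul_eq_mul]
  rw [Finset.mul_sum, ← Finset.sum_sub_distrib]
  refine Finset.sum_congr rfl fun i _ => ?_
  ring

theorem nn_nonneg (a : V3) : 0 ≤ nn a := Finset.sum_nonneg fun i _ => abs_nonneg _

theorem abs_ev_le (a x : V3) : |ev a x| ≤ nn a * nn x := by
  unfold ev nn
  calc |∑ i, a i * x i| ≤ ∑ i, |a i * x i| := Finset.abs_sum_le_sum_abs _ _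
    _ ≤ ∑ i, |a i| * ∑ j, |x j| := by
        refine Finset.sum_le_sum fun i _ => ?_
        rw [abs_mul]
        exact mul_le_mul_of_nonneg_left
          (Finset.single_le_sum (f := fun j => |x j|) (fun j _ => abs_nonneg _)
            (Finset.mem_univ i)) (abs_nonneg _)
    _ = _ := by rw [← Finset.sum_mul]

theorem nn_sub_le (a y : V3) (t : ℝ) : nn (a - t • y) ≤ nn a + |t| * nn y := by
  unfold nn
  rw [Finset.mul_sum, ← Finset.sum_add_distrib]
  refine Finset.sum_le_sum fun i _ => ?_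
  simp only [Pi.sub_apply, Pi.smul_apply, smul_eq_mul]
  calc |a i - t * y i| ≤ |a i| + |t * y i| := abs_sub _ _
    _ = _ := by rw [abs_mul]

/-- nonnegative factorization of all nonnegative linear forms on `S`, with `r` terms -/
structure Fac (S : Set V3) (r : ℕ) (M : V3 → Fin r → ℝ) (L : ℝ) : Prop where
  nonneg : ∀ x ∈ S, ∀ j, 0 ≤ M x j
  Lnn : 0 ≤ L
  weak : ∀ a : V3, (∀ x ∈ S, 0 ≤ ev a x) → ∃ β : Fin r → ℝ, (∀ j, 0 ≤ β j ∧ β j ≤ L * nn a) ∧
    ∀ x ∈ S, ∑ j, M x j * β j = ev a x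
  strict : ∀ a : V3, (∀ x ∈ S, 0 < ev a x) → ∃ β : Fin r → ℝ, (∀ j, 0 < β j) ∧
    ∀ x ∈ S, ∑ j, M x j * β j = ev a x

theorem fac_single (p : V3) : Fac {p} 1 (fun _ _ => 1) (nn p) where
  nonneg := fun _ _ _ => zero_le_one
  Lnn := nn_nonneg p
  weak := fun a ha => by
    refine ⟨fun _ => ev a p, fun j => ⟨ha p rfl, ?_⟩, fun x hx => ?_⟩
    · have := abs_ev_le a p
      rw [mul_comm]
      exact (le_abs_self _).trans this
    · rw [Set.mem_singleton_iff.1 hx]; simp
  strict := fun a ha => by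
    refine ⟨fun _ => ev a p, fun j => ha p rfl, fun x hx => ?_⟩
    rw [Set.mem_singleton_iff.1 hx]; simp

/-- the reflection -/
def refl (y d : V3) (x : V3) : V3 := x - (ev y x) • d

theorem refl_refl (y d x : V3) (hyd : ev y d = 2) : refl y d (refl y d x) = x := by
  unfold refl
  rw [ev_sub_smul, hyd]
  have : ev y x - ev y x * 2 = -ev y x := by ring
  rw [this, neg_smul]
  abel

open Classical in
/-- the matrix after unfolding -/
noncomputable def newM {r : ℕ} (S : Set V3) (M : V3 → Fin r → ℝ) (y d : V3) : V3 → Fin (r + 2) → ℝ :=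
  fun x => if x ∈ S then Fin.append (M x) ![ev y x, 0]
    else Fin.append (M (refl y d x)) ![0, ev y (refl y d x)]

theorem sum_append {r : ℕ} (u v : Fin r → ℝ) (a b c d : ℝ) :
    ∑ j : Fin (r + 2), Fin.append u ![a, b] j * Fin.append v ![c, d] j =
      ∑ j, u j * v j + (a * c + b * d) := by
  rw [Fin.sum_univ_add]
  simp [Fin.append_left, Fin.append_right, Fin.sum_univ_two]

theorem append_prop {r : ℕ} (u : Fin r → ℝ) (a b : ℝ) (P : ℝ → Prop) (hu : ∀ j, P (u j))
    (ha : P a) (hb : P b) : ∀ j : Fin (r + 2), P (Fin.append u ![a, b] j) := by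
  intro j
  refine Fin.addCases (fun j => ?_) (fun j => ?_) j
  · rw [Fin.append_left]; exact hu j
  · rw [Fin.append_right]
    fin_cases j
    · exact ha
    · exact hb

theorem fold {S : Set V3} {r : ℕ} {M : V3 → Fin r → ℝ} {L : ℝ} (h : Fac S r M L)
    (hfin : S.Finite) (y d : V3) (hyd : ev y d = 2) (hy : ∀ x ∈ S, 0 ≤ ev y x) :
    ∃ L', Fac (S ∪ refl y d '' S) (r + 2) (newM S M y d) L' := by
  classical
  -- evaluation of the new matrix
  have hval : ∀ (β : Fin r → ℝ) (τ τ' : ℝ) (a a1 : V3),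
      (∀ x ∈ S, ∑ j, M x j * β j = ev a1 x) →
      (∀ x ∈ S, ev a1 x + ev y x * τ = ev a x) →
      (∀ x ∈ S, ev a1 x + ev y x * τ' = ev a (refl y d x)) →
      ∀ x ∈ S ∪ refl y d '' S, ∑ j, newM S M y d x j * Fin.append β ![τ, τ'] j = ev a x := by
    intro β τ τ' a a1 h1 h2 h3 x hx
    unfold newM
    by_cases hxS : x ∈ S
    · simp only [hxS, if_true]
      rw [sum_append, h1 x hxS]
      linarith [h2 x hxS]
    · simp only [hxS, if_false]
      rcases hx with hx | ⟨s, hs, rfl⟩
      · exact absurd hx hxS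
      · rw [refl_refl y d s hyd, sum_append, h1 s hs]
        linarith [h3 s hs]
  have hrefl : ∀ a x : V3, ev a (refl y d x) = ev a x - ev y x * ev a d := by
    intro a x
    unfold refl
    rw [ev_sub_smul]
  refine ⟨L * (1 + nn d * nn y) + nn d, ?_, ?_, ?_, ?_⟩
  · intro x hx j
    unfold newM
    by_cases hxS : x ∈ S
    · simp only [hxS, if_true]
      exact append_prop _ _ _ (fun t => 0 ≤ t) (h.nonneg x hxS) (hy x hxS) le_rfl j
    · simp only [hxS, if_false]
      rcases hx with hx | ⟨s, hs, rfl⟩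
      · exact absurd hx hxS
      · rw [refl_refl y d s hyd]
        exact append_prop _ _ _ (fun t => 0 ≤ t) (h.nonneg s hs) le_rfl (hy s hs) j
  · have := h.Lnn
    have := nn_nonneg d
    have := nn_nonneg y
    positivity
  · intro a ha
    set t := ev a d with ht
    set τ := max t 0 with hτ
    have hτ0 : 0 ≤ τ := le_max_right _ _
    have hτt : t ≤ τ := le_max_left _ _
    have habs : |t| ≤ nn a * nn d := abs_ev_le a d
    have hτabs : τ ≤ |t| := max_le (le_abs_self t) (abs_nonneg t)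
    have hτabs' : τ - t ≤ |t| := by
      rcases le_total 0 t with h0 | h0
      · rw [hτ, max_eq_left h0]; simpa using abs_nonneg t
      · rw [hτ, max_eq_right h0, abs_of_nonpos h0]; linarith
    have ha1 : ∀ x ∈ S, 0 ≤ ev (a - τ • y) x := by
      intro x hx
      rw [ev_sub_left]
      have h1 := ha x (Or.inl hx)
      have h2 := ha (refl y d x) (Or.inr ⟨x, hx, rfl⟩)
      rw [hrefl] at h2
      rcases max_choice t 0 with h0 | h0
      · rw [hτ, h0]; linarith
      · rw [hτ, h0]; linarith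
    obtain ⟨β, hβ, hβ'⟩ := h.weak (a - τ • y) ha1
    have hn : nn (a - τ • y) ≤ nn a * (1 + nn d * nn y) := by
      refine (nn_sub_le a y τ).trans ?_
      rw [abs_of_nonneg hτ0]
      have := mul_le_mul_of_nonneg_right (hτabs.trans habs) (nn_nonneg y)
      nlinarith
    have hLn : L * nn (a - τ • y) ≤ (L * (1 + nn d * nn y) + nn d) * nn a := by
      have h1 := mul_le_mul_of_nonneg_left hn h.Lnn
      have h2 := mul_nonneg (nn_nonneg d) (nn_nonneg a)
      nlinarith
    have hdn : nn a * nn d ≤ (L * (1 + nn d * nn y) + nn d) * nn a := by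
      have h1 : 0 ≤ L * (1 + nn d * nn y) * nn a := by
        have := h.Lnn
        have := nn_nonneg d
        have := nn_nonneg y
        have := nn_nonneg a
        positivity
      nlinarith
    refine ⟨Fin.append β ![τ, τ - t], ?_, ?_⟩
    · refine append_prop _ _ _ (fun u => 0 ≤ u ∧ u ≤ (L * (1 + nn d * nn y) + nn d) * nn a) ?_ ?_ ?_
      · exact fun j => ⟨(hβ j).1, (hβ j).2.trans hLn⟩
      · exact ⟨hτ0, (hτabs.trans habs).trans hdn⟩
      · exact ⟨by linarith, (hτabs'.trans habs).trans hdn⟩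
    · refine hval β τ (τ - t) a (a - τ • y) hβ' ?_ ?_
      · intro x _
        rw [ev_sub_left]; ring
      · intro x _
        rw [ev_sub_left, hrefl]; ring
  · intro a ha
    set t := ev a d with ht
    set τ0 := max t 0 with hτ0
    have hτ00 : 0 ≤ τ0 := le_max_right _ _
    have hτt : t ≤ τ0 := le_max_left _ _
    have hpos : ∀ x ∈ S, 0 < ev a x - τ0 * ev y x := by
      intro x hx
      have h1 := ha x (Or.inl hx)
      have h2 := ha (refl y d x) (Or.inr ⟨x, hx, rfl⟩)
      rw [hrefl] at h2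
      rcases max_choice t 0 with h0 | h0
      · rw [hτ0, h0]; linarith
      · rw [hτ0, h0]; linarith
    obtain ⟨ε, hε, hε'⟩ : ∃ ε : ℝ, 0 < ε ∧ ∀ x ∈ S, ε * ev y x < ev a x - τ0 * ev y x := by
      have hev : ∀ᶠ ε in nhdsWithin (0 : ℝ) (Set.Ioi 0), ∀ x ∈ S,
          ε * ev y x < ev a x - τ0 * ev y x := by
        rw [Filter.eventually_all_finite hfin]
        intro x hx
        have hc : Filter.Tendsto (fun ε : ℝ => ε * ev y x) (nhdsWithin 0 (Set.Ioi 0)) (nhds 0) := by
          have : Continuous fun ε : ℝ => ε * ev y x := by fun_prop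
          have h1 := this.tendsto 0
          simp only [zero_mul] at h1
          exact h1.mono_left nhdsWithin_le_nhds
        exact hc.eventually (gt_mem_nhds (hpos x hx))
      obtain ⟨ε, h1, h2⟩ := (hev.and self_mem_nhdsWithin).exists
      exact ⟨ε, h2, h1⟩
    have ha1 : ∀ x ∈ S, 0 < ev (a - (τ0 + ε) • y) x := by
      intro x hx
      rw [ev_sub_left]
      have := hε' x hx
      linarith
    obtain ⟨β, hβ, hβ'⟩ := h.strict (a - (τ0 + ε) • y) ha1
    refine ⟨Fin.append β ![τ0 + ε, τ0 + ε - t], ?_, ?_⟩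
    · exact append_prop _ _ _ (fun u => 0 < u) hβ (by linarith) (by linarith)
    · refine hval β (τ0 + ε) (τ0 + ε - t) a (a - (τ0 + ε) • y) hβ' ?_ ?_
      · intro x _
        rw [ev_sub_left]; ring
      · intro x _
        rw [ev_sub_left, hrefl]; ring

/-- the angles -/
noncomputable def ang (n j : ℕ) : ℝ := (2 * j + 1) * Real.pi / 2 ^ n

/-- the points on the unit circle at height one -/
noncomputable def pt (θ : ℝ) : V3 := ![Real.cos θ, Real.sin θ, 1]

/-- the points of the stage `k` -/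
def stage (n k : ℕ) : Set V3 := {x | ∃ j : ℕ, j < 2 ^ k ∧ x = pt (ang n j)}

theorem stage_finite (n k : ℕ) : (stage n k).Finite := by
  have : stage n k ⊆ (fun j : ℕ => pt (ang n j)) '' (Set.Iio (2 ^ k)) := by
    rintro x ⟨j, hj, rfl⟩
    exact ⟨j, hj, rfl⟩
  exact (Set.finite_Iio (2 ^ k)).image _ |>.subset this

theorem refl_pt (φ θ : ℝ) : refl ![Real.sin φ, -Real.cos φ, 0]
    ![2 * Real.sin φ, -(2 * Real.cos φ), 0] (pt θ) = pt (2 * φ - θ) := by
  have h1 := Real.sin_sq_add_cos_sq φ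
  have c2 : Real.cos (2 * φ - θ) = (2 * Real.cos φ ^ 2 - 1) * Real.cos θ +
      2 * Real.sin φ * Real.cos φ * Real.sin θ := by
    rw [Real.cos_sub, Real.cos_two_mul, Real.sin_two_mul]
  have s2 : Real.sin (2 * φ - θ) = 2 * Real.sin φ * Real.cos φ * Real.cos θ -
      (2 * Real.cos φ ^ 2 - 1) * Real.sin θ := by
    rw [Real.sin_sub, Real.cos_two_mul, Real.sin_two_mul]
  have h2 : Real.sin φ ^ 2 = 1 - Real.cos φ ^ 2 := by linarith
  funext i
  fin_cases i
  · simp only [refl, pt, ev, Fin.sum_univ_three]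
    simp only [Fin.zero_eta, Matrix.cons_val_zero, Pi.sub_apply, Pi.smul_apply, smul_eq_mul,
      Matrix.cons_val_one, Matrix.cons_val]
    rw [c2]
    ring_nf
    rw [h2]
    ring
  · simp only [refl, pt, ev, Fin.sum_univ_three]
    simp only [Fin.mk_one, Matrix.cons_val_zero, Pi.sub_apply, Pi.smul_apply, smul_eq_mul,
      Matrix.cons_val_one, Matrix.cons_val]
    rw [s2]
    ring
  · simp [refl, pt]

theorem stage_succ (n k : ℕ) : stage n (k + 1) = stage n k ∪
    refl ![Real.sin (2 ^ (k + 1) * Real.pi / 2 ^ n), -Real.cos (2 ^ (k + 1) * Real.pi / 2 ^ n), 0]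
      ![2 * Real.sin (2 ^ (k + 1) * Real.pi / 2 ^ n),
        -(2 * Real.cos (2 ^ (k + 1) * Real.pi / 2 ^ n)), 0] '' stage n k := by
  have hpow : 2 ^ (k + 1) = 2 * 2 ^ k := by ring
  have hang : ∀ j : ℕ, j < 2 ^ (k + 1) →
      2 * (2 ^ (k + 1) * Real.pi / 2 ^ n) - ang n j = ang n (2 ^ (k + 1) - 1 - j) := by
    intro j hj
    unfold ang
    have e : ((2 ^ (k + 1) - 1 - j : ℕ) : ℝ) = 2 ^ (k + 1) - 1 - j := by
      rw [Nat.sub_sub, Nat.cast_sub (by omega)]
      push_cast
      ring
    rw [e]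
    ring
  ext x
  constructor
  · rintro ⟨j, hj, rfl⟩
    by_cases h : j < 2 ^ k
    · exact Or.inl ⟨j, h, rfl⟩
    · right
      refine ⟨pt (ang n (2 ^ (k + 1) - 1 - j)), ⟨_, by omega, rfl⟩, ?_⟩
      rw [refl_pt, hang _ (by omega)]
      congr 2
      omega
  · rintro (⟨j, hj, rfl⟩ | ⟨_, ⟨j, hj, rfl⟩, rfl⟩)
    · exact ⟨j, by omega, rfl⟩
    · rw [refl_pt, hang j (by omega)]
      exact ⟨_, by omega, rfl⟩

theorem fac_stage (n : ℕ) : ∀ k, k ≤ n → ∃ (M : V3 → Fin (2 * k + 1) → ℝ) (L : ℝ),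
    Fac (stage n k) (2 * k + 1) M L := by
  intro k
  induction k with
  | zero =>
    intro _
    have : stage n 0 = {pt (ang n 0)} := by
      ext x
      constructor
      · rintro ⟨j, hj, rfl⟩
        have : j = 0 := by simpa using hj
        rw [this]; rfl
      · intro hx
        exact ⟨0, by norm_num, hx⟩
    rw [this]
    exact ⟨_, _, fac_single _⟩
  | succ k ih =>
    intro hk
    obtain ⟨M, L, hM⟩ := ih (by omega)
    set φ : ℝ := 2 ^ (k + 1) * Real.pi / 2 ^ n with hφ
    have hyd : ev ![Real.sin φ, -Real.cos φ, 0] ![2 * Real.sin φ, -(2 * Real.cos φ), 0] = 2 := by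
      have h1 := Real.sin_sq_add_cos_sq φ
      simp only [ev, Fin.sum_univ_three, Matrix.cons_val_zero, Matrix.cons_val_one,
        Matrix.cons_val]
      nlinarith
    have hφπ : φ ≤ Real.pi := by
      rw [hφ, div_le_iff₀ (by positivity)]
      have : (2 : ℝ) ^ (k + 1) ≤ 2 ^ n := pow_le_pow_right₀ (by norm_num) hk
      nlinarith [Real.pi_pos]
    have hy : ∀ x ∈ stage n k, 0 ≤ ev ![Real.sin φ, -Real.cos φ, 0] x := by
      rintro x ⟨j, hj, rfl⟩
      have e : ev ![Real.sin φ, -Real.cos φ, 0] (pt (ang n j)) = Real.sin (φ - ang n j) := by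
        rw [Real.sin_sub]
        simp only [ev, pt, Fin.sum_univ_three, Matrix.cons_val_zero, Matrix.cons_val_one,
          Matrix.cons_val]
        ring
      rw [e]
      have hj' : (j : ℝ) + 1 ≤ 2 ^ k := by exact_mod_cast hj
      have h0 : 0 ≤ ang n j := by unfold ang; positivity
      apply Real.sin_nonneg_of_nonneg_of_le_pi
      · rw [hφ]
        unfold ang
        rw [← sub_div]
        apply div_nonneg _ (by positivity)
        have : (2 : ℝ) ^ (k + 1) = 2 * 2 ^ k := by ring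
        rw [this, ← sub_mul]
        apply mul_nonneg _ Real.pi_pos.le
        linarith
      · linarith
    obtain ⟨L', hL'⟩ := fold hM (stage_finite n k) _ _ hyd hy
    rw [← stage_succ] at hL'
    have e : 2 * (k + 1) + 1 = 2 * k + 1 + 2 := by ring
    rw [e]
    exact ⟨_, _, hL'⟩

end Q189.FoldFac
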