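import Pool.Agent.Q189.SimpBuild

/-!
# The trapezoid and the 4-simplex
-/

set_option autoImplicit false

namespace Q189.Trapezoid

open Q189.SimpDefs Q189.SimpBuild

/-- a point of a finite set which maximizes a linear form strictly is extreme -/
theorem only_max {W : Type} [AddCommGroup W] [Module ℝ W] {m : ℕ} (c : Fin m → W) (i : Fin m)
    (φ : W →ₗ[ℝ] ℝ) (h : ∀ j, j ≠ i → φ (c j) < φ (c i)) :
    ∀ x ∈ hull c, x = c i ∨ φ x < φ (c i) := by
  have hsub : hull c ⊆ {x | x = c i ∨ φ x < φ (c i)} := by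
    apply convexHull_min
    · rintro _ ⟨j, rfl⟩
      by_cases hj : j = i
      · left; rw [hj]
      · right; exact h j hj
    · rintro x hx y hy a b ha hb hab
      simp only [Set.mem_setOf_eq] at hx hy ⊢
      have hφ : φ (a • x + b • y) = a * φ x + b * φ y := by simp
      rcases hx with rfl | hx
      · rcases hy with rfl | hy
        · left
          rw [← add_smul, hab, one_smul]
        · rcases hb.eq_or_lt with hb0 | hb0
          · left
            have : a = 1 := by linarith
            rw [← hb0, this]; simp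
          · right
            rw [hφ]
            have ha' : a = 1 - b := by linarith
            rw [ha']
            nlinarith
      · rcases hy with rfl | hy
        · rcases ha.eq_or_lt with ha0 | ha0
          · left
            have : b = 1 := by linarith
            rw [← ha0, this]; simp
          · right
            rw [hφ]
            have ha' : b = 1 - a := by linarith
            rw [ha']
            nlinarith
        · right
          rw [hφ]
          rcases ha.eq_or_lt with ha0 | ha0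
          · have : b = 1 := by linarith
            rw [← ha0, this]; linarith
          · have e : φ (c i) = a * φ (c i) + b * φ (c i) := by rw [← add_mul, hab, one_mul]
            rw [e]
            have h1 : a * φ x < a * φ (c i) := mul_lt_mul_of_pos_left hx ha0
            have h2 : b * φ y ≤ b * φ (c i) := mul_le_mul_of_nonneg_left hy.le hb
            linarith
  exact hsub

theorem extreme_of_max {W : Type} [AddCommGroup W] [Module ℝ W] {m : ℕ} (c : Fin m → W)
    (i : Fin m) (φ : W →ₗ[ℝ] ℝ) (h : ∀ j, j ≠ i → φ (c j) < φ (c i)) :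
    c i ∈ (hull c).extremePoints ℝ := by
  have hm := only_max c i φ h
  refine ⟨subset_convexHull ℝ _ ⟨i, rfl⟩, ?_⟩
  rintro x hx y hy ⟨a, b, ha, hb, hab, he⟩
  have hφ : φ (c i) = a * φ x + b * φ y := by rw [← he]; simp
  have hx' : φ x ≤ φ (c i) := by
    rcases hm x hx with h | h
    · rw [h]
    · exact h.le
  have hy' : φ y ≤ φ (c i) := by
    rcases hm y hy with h | h
    · rw [h]
    · exact h.le
  rcases hm x hx with h | h
  · exact h
  · exfalso
    have h1 : a * φ x < a * φ (c i) := mul_lt_mul_of_pos_left h ha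
    have h2 : b * φ y ≤ b * φ (c i) := mul_le_mul_of_nonneg_left hy' hb.le
    have e : φ (c i) = a * φ (c i) + b * φ (c i) := by rw [← add_mul, hab, one_mul]
    linarith

/-- the stochastic matrix -/
noncomputable def A : Fin 4 → Fin 5 → ℝ :=
  ![![1, 0, 0, 0, 0], ![0, 1, 0, 0, 0], ![0, 0, 1 / 3, 0, 2 / 3], ![0, 0, 0, 1 / 3, 2 / 3]]

/-- the linear map -/
def F : (Fin 5 → ℝ) →ₗ[ℝ] (Fin 2 → ℝ) where
  toFun x := ![3 * x 1 + 6 * x 2 + 3 * x 3, 3 * x 2 + 3 * x 3]
  map_add' x y := by
    funext i
    fin_cases i <;> simp <;> ring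
  map_smul' c x := by
    funext i
    fin_cases i <;> simp <;> ring

theorem hA : ∀ i, A i ∈ stdSimplex ℝ (Fin 5) := by
  intro i
  fin_cases i <;> refine ⟨fun j => ?_, ?_⟩ <;>
    first | (fin_cases j <;> simp [A] <;> norm_num) | (simp [A, Fin.sum_univ_succ] <;> norm_num)

theorem FA : (fun i => F (A i)) = ![![0, 0], ![3, 0], ![2, 1], ![1, 1]] := by
  funext i j
  fin_cases i <;> fin_cases j <;> simp [F, A] <;> norm_num

/-- the trapezoid -/
def C : Set (Fin 2 → ℝ) := img A F

theorem H : ∀ ω ∈ convexForms (img A F), ∃ β : Fin 5 → ℝ, (∀ j, β j ∈ Set.Icc (0 : ℝ) 1) ∧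
      ∀ i, ∑ j, A i j * β j = ω ⟨F (A i), vert_mem A F i⟩ := by
  intro ω hω
  obtain ⟨h01, haff⟩ := hω
  set p : Fin 4 → ℝ := fun i => ω ⟨F (A i), vert_mem A F i⟩ with hp
  have hp01 : ∀ i, 0 ≤ p i ∧ p i ≤ 1 := fun i => h01 _
  have hrel : 3 / 4 * p 2 + 1 / 4 * p 0 = 3 / 4 * p 3 + 1 / 4 * p 1 := by
    have hz : (3 / 4 : ℝ) • F (A 2) + (1 / 4 : ℝ) • F (A 0) ∈ img A F :=
      convex_convexHull ℝ _ (vert_mem A F 2) (vert_mem A F 0) (by norm_num) (by norm_num)
        (by norm_num)
    have e1 := haff ⟨F (A 2), vert_mem A F 2⟩ ⟨F (A 0), vert_mem A F 0⟩ ⟨_, hz⟩ (3 / 4) (1 / 4)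
      (by norm_num) (by norm_num) (by norm_num) rfl
    have e2 := haff ⟨F (A 3), vert_mem A F 3⟩ ⟨F (A 1), vert_mem A F 1⟩ ⟨_, hz⟩ (3 / 4) (1 / 4)
      (by norm_num) (by norm_num) (by norm_num) (by
        have h0 : F (A 0) = _ := congrFun FA 0
        have h1 : F (A 1) = _ := congrFun FA 1
        have h2 : F (A 2) = _ := congrFun FA 2
        have h3 : F (A 3) = _ := congrFun FA 3
        simp only [h0, h1, h2, h3]
        funext i
        fin_cases i <;> simp <;> norm_num)
    rw [← e1, ← e2]
  have hd : p 2 - p 3 = (p 1 - p 0) / 3 := by linarith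
  obtain ⟨a0, a1⟩ := hp01 0
  obtain ⟨b0, b1⟩ := hp01 1
  obtain ⟨c0, c1⟩ := hp01 2
  obtain ⟨d0, d1⟩ := hp01 3
  set β5 : ℝ := max 0 ((3 * max (p 2) (p 3) - 1) / 2) with hβ5
  have f0 : 0 ≤ β5 := le_max_left _ _
  have f1 : (3 * p 2 - 1) / 2 ≤ β5 := le_trans (by
    have := le_max_left (p 2) (p 3); linarith) (le_max_right _ _)
  have f2 : (3 * p 3 - 1) / 2 ≤ β5 := le_trans (by
    have := le_max_right (p 2) (p 3); linarith) (le_max_right _ _)
  have f3 : β5 ≤ 1 := by
    rw [hβ5]
    apply max_le (by norm_num)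
    have := max_le c1 d1
    linarith
  have f4 : 2 * β5 ≤ 3 * p 2 := by
    rw [hβ5]
    rcases max_choice (0 : ℝ) ((3 * max (p 2) (p 3) - 1) / 2) with h | h <;> rw [h]
    · linarith
    · rcases max_choice (p 2) (p 3) with h' | h' <;> rw [h'] <;> linarith
  have f5 : 2 * β5 ≤ 3 * p 3 := by
    rw [hβ5]
    rcases max_choice (0 : ℝ) ((3 * max (p 2) (p 3) - 1) / 2) with h | h <;> rw [h]
    · linarith
    · rcases max_choice (p 2) (p 3) with h' | h' <;> rw [h'] <;> linarith
  refine ⟨![p 0, p 1, 3 * p 2 - 2 * β5, 3 * p 3 - 2 * β5, β5], ?_, ?_⟩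
  · intro j
    fin_cases j
    · exact ⟨a0, a1⟩
    · exact ⟨b0, b1⟩
    · exact ⟨by simpa using f4, by simp only [Fin.reduceFinMk, Matrix.cons_val]; linarith⟩
    · exact ⟨by simpa using f5, by simp only [Fin.reduceFinMk, Matrix.cons_val]; linarith⟩
    · exact ⟨f0, f3⟩
  · intro i
    change _ = p i
    fin_cases i
    · simp [A, Fin.sum_univ_succ]
    · simp [A, Fin.sum_univ_succ]
    · simp [A, Fin.sum_univ_succ]; ring
    · simp [A, Fin.sum_univ_succ]; ring

/-- the linear form `a x + b y` -/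
def lin (a b : ℝ) : (Fin 2 → ℝ) →ₗ[ℝ] ℝ where
  toFun x := a * x 0 + b * x 1
  map_add' x y := by simp; ring
  map_smul' c x := by simp; ring

theorem ext_all : ∀ i, F (A i) ∈ (img A F).extremePoints ℝ := by
  have key : ∀ (i : Fin 4) (a b : ℝ),
      (∀ j, j ≠ i → lin a b (F (A j)) < lin a b (F (A i))) →
      F (A i) ∈ (img A F).extremePoints ℝ := fun i a b h =>
    extreme_of_max (fun i => F (A i)) i (lin a b) h
  have hv : ∀ (a b : ℝ) (i : Fin 4), lin a b (F (A i)) =
      ![0, 3 * a, 2 * a + b, a + b] i := by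
    intro a b i
    have := congrFun FA i
    rw [show F (A i) = _ from this]
    fin_cases i <;> simp [lin] <;> ring
  intro i
  fin_cases i
  · refine key 0 (-1) (-1) fun j hj => ?_
    rw [hv, hv]
    fin_cases j <;> simp at hj ⊢ <;> norm_num
  · refine key 1 1 (-1) fun j hj => ?_
    rw [hv, hv]
    fin_cases j <;> simp at hj ⊢ <;> norm_num
  · refine key 2 1 2 fun j hj => ?_
    rw [hv, hv]
    fin_cases j <;> simp at hj ⊢ <;> norm_num
  · refine key 3 (-1) 3 fun j hj => ?_
    rw [hv, hv]
    fin_cases j <;> simp at hj ⊢ <;> norm_num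

theorem inj : Function.Injective (fun i => F (A i)) := by
  rw [FA]
  intro i j h
  fin_cases i <;> fin_cases j <;> simp at h ⊢ <;> norm_num at h

theorem not_simplex : ¬ IsSimplex (img A F) := by
  rintro ⟨k, v, hv, he⟩
  have h1 : ∀ i, F (A i) ∈ Set.range v := by
    intro i
    have := ext_all i
    rw [he] at this
    exact extremePoints_convexHull_subset this
  choose g hg using h1
  have hginj : Function.Injective g := by
    intro i j hij
    apply inj
    simp only
    rw [← hg i, ← hg j, hij]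
  have h2 : 4 ≤ k + 1 := by
    have := Fintype.card_le_of_injective g hginj
    simpa using this
  have h3 := hv.card_le_finrank_succ
  have h4 : Module.finrank ℝ (vectorSpan ℝ (Set.range v)) ≤ 2 := by
    have := Submodule.finrank_le (vectorSpan ℝ (Set.range v))
    simpa using this
  simp at h3
  omega

theorem polytope : IsPolytope (img A F) :=
  ⟨Set.range (fun i => F (A i)), Set.finite_range _, ⟨_, ⟨0, rfl⟩⟩, rfl⟩

end Q189.Trapezoid
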