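import Pool.Agent.Q189.FoldFac
import Pool.Agent.Q189.Trapezoid

/-!
# The frustum over a regular polygon
-/

set_option autoImplicit false

open Finset

namespace Q189.Frustum

open Q189.SimpDefs Q189.SimpBuild Q189.FoldFac
open Q189.Trapezoid (only_max extreme_of_max)

/-- Jensen equality for effects -/
theorem jensen {V : Type} [AddCommGroup V] [Module ℝ V] {C : Set V} (hC : Convex ℝ C) {ω : C → ℝ}
    (hω : ω ∈ convexForms C) {ι : Type} (s : Finset ι) (w : ι → ℝ) (z : ι → C)
    (hw : ∀ i ∈ s, 0 ≤ w i) (h1 : ∑ i ∈ s, w i = 1) (y : C)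
    (hy : (y : V) = ∑ i ∈ s, w i • (z i : V)) : ω y = ∑ i ∈ s, w i * ω (z i) := by
  classical
  set f : V → ℝ := fun x => if h : x ∈ C then ω ⟨x, h⟩ else 0 with hf
  have hfv : ∀ x : C, f x = ω x := by
    intro x
    simp only [hf]
    rw [dif_pos x.2]
  have hconv : ConvexOn ℝ C f := by
    refine ⟨hC, ?_⟩
    intro x hx y hy a b ha hb hab
    have h := hω.2 ⟨x, hx⟩ ⟨y, hy⟩ ⟨_, hC hx hy ha hb hab⟩ a b ha hb hab rfl
    rw [← hfv, ← hfv, ← hfv] at h
    exact h.le
  have hconc : ConcaveOn ℝ C f := by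
    refine ⟨hC, ?_⟩
    intro x hx y hy a b ha hb hab
    have h := hω.2 ⟨x, hx⟩ ⟨y, hy⟩ ⟨_, hC hx hy ha hb hab⟩ a b ha hb hab rfl
    rw [← hfv, ← hfv, ← hfv] at h
    exact h.ge
  have e1 := hconv.map_sum_le hw h1 (p := fun i => (z i : V)) (fun i _ => (z i).2)
  have e2 := hconc.le_map_sum hw h1 (p := fun i => (z i : V)) (fun i _ => (z i).2)
  rw [← hy] at e1 e2
  simp only [hfv, smul_eq_mul] at e1 e2
  exact le_antisymm e1 e2

/-- The data of the construction. -/
structure Data (n : ℕ) where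
  M : V3 → Fin (2 * n + 1) → ℝ
  L : ℝ
  fac : Fac (stage n n) (2 * n + 1) M L
  b : Fin (2 * n + 1) → ℝ
  bpos : ∀ j, 0 < b j
  bsum : ∀ x ∈ stage n n, ∑ j, M x j * b j = 1
  bx : Fin (2 * n + 1) → ℝ
  bxsum : ∀ x ∈ stage n n, ∑ j, M x j * bx j = x 0
  b_y : Fin (2 * n + 1) → ℝ
  bysum : ∀ x ∈ stage n n, ∑ j, M x j * b_y j = x 1
  R : ℝ
  Rpos : 1 ≤ R
  hR : ∀ j, 8 * L ≤ R * b j

theorem mem_stage_two {n : ℕ} {x : V3} (hx : x ∈ stage n n) : x 2 = 1 := by
  obtain ⟨j, _, rfl⟩ := hx
  simp [pt]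

theorem abs_le_of_stage {n : ℕ} {x : V3} (hx : x ∈ stage n n) : |x 0| ≤ 1 ∧ |x 1| ≤ 1 := by
  obtain ⟨j, _, rfl⟩ := hx
  exact ⟨by simpa [pt] using Real.abs_cos_le_one _, by simpa [pt] using Real.abs_sin_le_one _⟩

theorem exists_data (n : ℕ) : Nonempty (Data n) := by
  obtain ⟨M, L, hM⟩ := fac_stage n n le_rfl
  obtain ⟨b, hb, hb'⟩ := hM.strict ![0, 0, 1] (by
    intro x hx
    have := mem_stage_two hx
    simp [ev, Fin.sum_univ_three, this])
  obtain ⟨c, hc, hc'⟩ := hM.strict ![1, 0, 2] (by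
    intro x hx
    have h1 := mem_stage_two hx
    have h2 := abs_le.1 (abs_le_of_stage hx).1
    simp [ev, Fin.sum_univ_three, h1]
    linarith)
  obtain ⟨d, hd, hd'⟩ := hM.strict ![0, 1, 2] (by
    intro x hx
    have h1 := mem_stage_two hx
    have h2 := abs_le.1 (abs_le_of_stage hx).2
    simp [ev, Fin.sum_univ_three, h1]
    linarith)
  have hbs : ∀ x ∈ stage n n, ∑ j, M x j * b j = 1 := by
    intro x hx
    rw [hb' x hx]
    simp [ev, Fin.sum_univ_three, mem_stage_two hx]
  refine ⟨⟨M, L, hM, b, hb, hbs, fun j => c j - 2 * b j, ?_, fun j => d j - 2 * b j, ?_,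
    1 + 8 * L * ∑ j, 1 / b j, ?_, ?_⟩⟩
  · intro x hx
    have e : ∑ j, M x j * (c j - 2 * b j) = ∑ j, M x j * c j - 2 * ∑ j, M x j * b j := by
      rw [Finset.mul_sum, ← Finset.sum_sub_distrib]
      exact Finset.sum_congr rfl fun j _ => by ring
    rw [e, hc' x hx, hbs x hx]
    simp [ev, Fin.sum_univ_three, mem_stage_two hx]
  · intro x hx
    have e : ∑ j, M x j * (d j - 2 * b j) = ∑ j, M x j * d j - 2 * ∑ j, M x j * b j := by
      rw [Finset.mul_sum, ← Finset.sum_sub_distrib]
      exact Finset.sum_congr rfl fun j _ => by ring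
    rw [e, hd' x hx, hbs x hx]
    simp [ev, Fin.sum_univ_three, mem_stage_two hx]
  · have : 0 ≤ ∑ j, 1 / b j := Finset.sum_nonneg fun j _ => by have := hb j; positivity
    have := hM.Lnn
    nlinarith [mul_nonneg hM.Lnn (Finset.sum_nonneg fun j (_ : j ∈ Finset.univ) =>
      (one_div_pos.2 (hb j)).le)]
  · intro j
    have h1 : 1 / b j ≤ ∑ j, 1 / b j :=
      Finset.single_le_sum (f := fun j => 1 / b j) (fun j _ => (one_div_pos.2 (hb j)).le)
        (Finset.mem_univ j)
    have h2 : 1 ≤ (∑ j, 1 / b j) * b j := by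
      calc (1 : ℝ) = 1 / b j * b j := by field_simp [(hb j).ne']
        _ ≤ _ := mul_le_mul_of_nonneg_right h1 (hb j).le
    have h3 := mul_le_mul_of_nonneg_left h2 hM.Lnn
    have h4 := (hb j).le
    nlinarith

/-- the top points -/
noncomputable def top (n : ℕ) (i : Fin (2 ^ n)) : V3 := pt (ang n i)

theorem top_mem (n : ℕ) (i : Fin (2 ^ n)) : top n i ∈ stage n n := ⟨i, i.2, rfl⟩

/-- the bottom points -/
def bot (R : ℝ) : Fin 3 → V3 := ![![0, 0, 0], ![R, 0, 0], ![0, R, 0]]

variable {n : ℕ} (D : Data n)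

/-- the stochastic matrix -/
noncomputable def A : Fin (2 ^ n + 3) → Fin (2 * n + 1 + 3) → ℝ :=
  Fin.append (fun i => Fin.append (fun j => D.M (top n i) j * D.b j) (fun _ => 0))
    (fun l => Fin.append (fun _ => 0) (Pi.single l 1))

/-- the images of the unit vectors -/
noncomputable def G : Fin (2 * n + 1 + 3) → V3 :=
  Fin.append (fun j => ![D.bx j / D.b j, D.b_y j / D.b j, 1]) (bot D.R)

/-- the linear map -/
noncomputable def F : (Fin (2 * n + 1 + 3) → ℝ) →ₗ[ℝ] V3 where
  toFun x := ∑ j, x j • G D j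
  map_add' x y := by
    rw [← Finset.sum_add_distrib]
    exact Finset.sum_congr rfl fun j _ => by rw [Pi.add_apply, add_smul]
  map_smul' c x := by
    rw [RingHom.id_apply, Finset.smul_sum]
    exact Finset.sum_congr rfl fun j _ => by rw [Pi.smul_apply, smul_eq_mul, mul_smul]

theorem F_apply (x : Fin (2 * n + 1 + 3) → ℝ) : F D x = ∑ j, x j • G D j := rfl

theorem A_top (i : Fin (2 ^ n)) : A D (Fin.castAdd 3 i) =
    Fin.append (fun j => D.M (top n i) j * D.b j) (fun _ => 0) := by
  unfold A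
  rw [Fin.append_left]

theorem A_bot (l : Fin 3) : A D (Fin.natAdd (2 ^ n) l) =
    Fin.append (fun _ => 0) (Pi.single l 1) := by
  unfold A
  rw [Fin.append_right]

theorem sum_append' {r s : ℕ} (u v : Fin r → ℝ) (a b : Fin s → ℝ) :
    ∑ j : Fin (r + s), Fin.append u a j * Fin.append v b j =
      ∑ j, u j * v j + ∑ j, a j * b j := by
  rw [Fin.sum_univ_add]
  simp [Fin.append_left, Fin.append_right]

theorem hA : ∀ i, A D i ∈ stdSimplex ℝ (Fin (2 * n + 1 + 3)) := by
  intro i
  refine Fin.addCases (fun i => ?_) (fun l => ?_) i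
  · rw [A_top]
    refine ⟨fun j => ?_, ?_⟩
    · refine Fin.addCases (fun j => ?_) (fun j => ?_) j
      · rw [Fin.append_left]
        exact mul_nonneg (D.fac.nonneg _ (top_mem n i) j) (D.bpos j).le
      · rw [Fin.append_right]
    · rw [Fin.sum_univ_add]
      simp only [Fin.append_left, Fin.append_right, Finset.sum_const_zero, add_zero]
      exact D.bsum _ (top_mem n i)
  · rw [A_bot]
    refine ⟨fun j => ?_, ?_⟩
    · refine Fin.addCases (fun j => ?_) (fun j => ?_) j
      · rw [Fin.append_left]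
      · rw [Fin.append_right]
        by_cases h : j = l
        · rw [h]; simp
        · simp [Pi.single_apply, h]
    · rw [Fin.sum_univ_add]
      simp [Fin.append_left, Fin.append_right]

theorem F_top (i : Fin (2 ^ n)) : F D (A D (Fin.castAdd 3 i)) = top n i := by
  rw [A_top, F_apply]
  rw [Fin.sum_univ_add]
  simp only [Fin.append_left, Fin.append_right, G, zero_smul, Finset.sum_const_zero, add_zero]
  have hb := fun j => (D.bpos j).ne'
  funext t
  rw [Finset.sum_apply]
  fin_cases t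
  · simp only [Fin.zero_eta, Pi.smul_apply, Matrix.cons_val_zero, smul_eq_mul]
    rw [← D.bxsum _ (top_mem n i)]
    refine Finset.sum_congr rfl fun j _ => ?_
    have := hb j
    field_simp
  · simp only [Fin.mk_one, Pi.smul_apply, Matrix.cons_val_one, Matrix.cons_val_zero, smul_eq_mul]
    rw [← D.bysum _ (top_mem n i)]
    refine Finset.sum_congr rfl fun j _ => ?_
    have := hb j
    field_simp
  · simp only [Fin.reduceFinMk, Pi.smul_apply, Matrix.cons_val, smul_eq_mul, mul_one]
    rw [D.bsum _ (top_mem n i), mem_stage_two (top_mem n i)]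

theorem F_bot (l : Fin 3) : F D (A D (Fin.natAdd (2 ^ n) l)) = bot D.R l := by
  rw [A_bot, F_apply]
  rw [Fin.sum_univ_add]
  simp only [Fin.append_left, Fin.append_right, G, zero_smul, Finset.sum_const_zero, zero_add]
  rw [Finset.sum_eq_single l]
  · simp
  · intro j _ hj
    simp [Pi.single_apply, hj]
  · intro h; exact absurd (Finset.mem_univ l) h

/-- the vertices of the frustum -/
noncomputable def vert (i : Fin (2 ^ n + 3)) : V3 := F D (A D i)

theorem vert_top (i : Fin (2 ^ n)) : vert D (Fin.castAdd 3 i) = top n i := F_top D i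

theorem vert_bot (l : Fin 3) : vert D (Fin.natAdd (2 ^ n) l) = bot D.R l := F_bot D l

/-- the frustum -/
abbrev C : Set V3 := img (A D) (F D)

theorem top_mem_C (i : Fin (2 ^ n)) : top n i ∈ C D := by
  rw [← vert_top D]
  exact vert_mem (A D) (F D) _

theorem bot_mem_C (l : Fin 3) : bot D.R l ∈ C D := by
  rw [← vert_bot D]
  exact vert_mem (A D) (F D) _

theorem convex_C : Convex ℝ (C D) := convex_convexHull ℝ _

theorem mid_mem (hn : 1 ≤ n) : (![0, 0, 1] : V3) ∈ C D := by
  have h1 : 0 < 2 ^ n := by positivity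
  have h2 : 2 ^ (n - 1) < 2 ^ n := Nat.pow_lt_pow_right (by norm_num) (by omega)
  have h3 : (2 : ℝ) ^ n = 2 * 2 ^ (n - 1) := by
    rw [← pow_succ']
    congr 1
    omega
  have key : (1 / 2 : ℝ) • top n ⟨0, h1⟩ + (1 / 2 : ℝ) • top n ⟨2 ^ (n - 1), h2⟩ = ![0, 0, 1] := by
    have e : ang n (2 ^ (n - 1)) = ang n 0 + Real.pi := by
      unfold ang
      have h4 : (2 : ℝ) ^ n ≠ 0 := by positivity
      field_simp
      push_cast
      rw [h3]
      ring
    unfold top
    simp only
    rw [e]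
    funext t
    fin_cases t
    · simp [pt, Real.cos_add_pi]
    · simp [pt, Real.sin_add_pi]
    · simp [pt]; norm_num
  rw [← key]
  exact convex_C D (top_mem_C D _) (top_mem_C D _) (by norm_num) (by norm_num) (by norm_num)

/-- the effects are affine on the top, with small slope -/
theorem slope (hn : 1 ≤ n) {ω : C D → ℝ} (hω : ω ∈ convexForms (C D)) :
    ∃ μ γ₁ γ₂ : ℝ, |γ₁| ≤ 1 / D.R ∧ |γ₂| ≤ 1 / D.R ∧
      ∀ i, ω ⟨top n i, top_mem_C D i⟩ = μ + γ₁ * top n i 0 + γ₂ * top n i 1 := by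
  have hRp : 0 < D.R := by linarith [D.Rpos]
  set q : Fin 3 → ℝ := fun l => ω ⟨bot D.R l, bot_mem_C D l⟩ with hq
  have hq01 : ∀ l, 0 ≤ q l ∧ q l ≤ 1 := fun l => hω.1 _
  refine ⟨ω ⟨![0, 0, 1], mid_mem D hn⟩, (q 1 - q 0) / D.R, (q 2 - q 0) / D.R, ?_, ?_, ?_⟩
  · rw [abs_div, abs_of_pos hRp]
    apply div_le_div_of_nonneg_right _ hRp.le
    rw [abs_le]
    constructor <;> linarith [(hq01 0).1, (hq01 0).2, (hq01 1).1, (hq01 1).2]
  · rw [abs_div, abs_of_pos hRp]
    apply div_le_div_of_nonneg_right _ hRp.le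
    rw [abs_le]
    constructor <;> linarith [(hq01 0).1, (hq01 0).2, (hq01 2).1, (hq01 2).2]
  · intro i
    set x := top n i 0 with hx
    set y := top n i 1 with hy
    have hz : top n i 2 = 1 := mem_stage_two (top_mem n i)
    set xp := max x 0 with hxp
    set xm := max (-x) 0 with hxm
    set yp := max y 0 with hyp
    set ym := max (-y) 0 with hym
    have hx1 : xp - xm = x := by
      rw [hxp, hxm]
      rcases le_total 0 x with h | h
      · rw [max_eq_left h, max_eq_right (by linarith)]; ring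
      · rw [max_eq_right h, max_eq_left (by linarith)]; ring
    have hy1 : yp - ym = y := by
      rw [hyp, hym]
      rcases le_total 0 y with h | h
      · rw [max_eq_left h, max_eq_right (by linarith)]; ring
      · rw [max_eq_right h, max_eq_left (by linarith)]; ring
    have hxp0 : 0 ≤ xp := le_max_right _ _
    have hxm0 : 0 ≤ xm := le_max_right _ _
    have hyp0 : 0 ≤ yp := le_max_right _ _
    have hym0 : 0 ≤ ym := le_max_right _ _
    set s : ℝ := 1 + (xp + xm + yp + ym) / D.R with hs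
    have hs0 : 0 < s := by
      have : 0 ≤ (xp + xm + yp + ym) / D.R := by positivity
      linarith
    set w1 : Fin 4 → ℝ := ![1 / s, (xp + yp) / D.R / s, xm / D.R / s, ym / D.R / s] with hw1
    set w2 : Fin 4 → ℝ := ![1 / s, (xm + ym) / D.R / s, xp / D.R / s, yp / D.R / s] with hw2
    set z1 : Fin 4 → C D := ![⟨top n i, top_mem_C D i⟩, ⟨bot D.R 0, bot_mem_C D 0⟩,
      ⟨bot D.R 1, bot_mem_C D 1⟩, ⟨bot D.R 2, bot_mem_C D 2⟩] with hz1
    set z2 : Fin 4 → C D := ![⟨![0, 0, 1], mid_mem D hn⟩, ⟨bot D.R 0, bot_mem_C D 0⟩,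
      ⟨bot D.R 1, bot_mem_C D 1⟩, ⟨bot D.R 2, bot_mem_C D 2⟩] with hz2
    have hw1n : ∀ j ∈ (Finset.univ : Finset (Fin 4)), 0 ≤ w1 j := by
      intro j _
      fin_cases j <;> simp [hw1] <;> positivity
    have hw2n : ∀ j ∈ (Finset.univ : Finset (Fin 4)), 0 ≤ w2 j := by
      intro j _
      fin_cases j <;> simp [hw2] <;> positivity
    have hw1s : ∑ j, w1 j = 1 := by
      rw [Fin.sum_univ_four]
      simp only [hw1, Matrix.cons_val_zero, Matrix.cons_val_one, Matrix.cons_val]
      rw [← add_div, ← add_div, ← add_div, div_eq_one_iff_eq hs0.ne', hs]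
      field_simp
      ring
    have hw2s : ∑ j, w2 j = 1 := by
      rw [Fin.sum_univ_four]
      simp only [hw2, Matrix.cons_val_zero, Matrix.cons_val_one, Matrix.cons_val]
      rw [← add_div, ← add_div, ← add_div, div_eq_one_iff_eq hs0.ne', hs]
      field_simp
      ring
    have hmem : ∑ j, w1 j • (z1 j : V3) ∈ C D := by
      apply (convex_C D).sum_mem hw1n hw1s
      intro j _
      exact (z1 j).2
    have e1 := jensen (convex_C D) hω Finset.univ w1 z1 hw1n hw1s ⟨_, hmem⟩ rfl
    have e2 := jensen (convex_C D) hω Finset.univ w2 z2 hw2n hw2s ⟨_, hmem⟩ (by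
      simp only
      rw [Fin.sum_univ_four, Fin.sum_univ_four]
      simp only [hw1, hw2, hz1, hz2, Matrix.cons_val_zero, Matrix.cons_val_one, Matrix.cons_val]
      have hs' := hs0.ne'
      have hR' := hRp.ne'
      funext t
      fin_cases t
      · simp only [bot, Fin.zero_eta, Pi.add_apply, Pi.smul_apply, smul_eq_mul,
          Matrix.cons_val_zero, Matrix.cons_val_one, Matrix.cons_val]
        rw [← hx, ← hx1]
        field_simp
        ring
      · simp only [bot, Fin.mk_one, Pi.add_apply, Pi.smul_apply, smul_eq_mul,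
          Matrix.cons_val_zero, Matrix.cons_val_one, Matrix.cons_val]
        rw [← hy, ← hy1]
        field_simp
        ring
      · simp only [bot, Fin.reduceFinMk, Pi.add_apply, Pi.smul_apply, smul_eq_mul,
          Matrix.cons_val_zero, Matrix.cons_val_one, Matrix.cons_val]
        rw [hz]
        ring)
    rw [e1] at e2
    rw [Fin.sum_univ_four, Fin.sum_univ_four] at e2
    simp only [hw1, hw2, hz1, hz2, Matrix.cons_val_zero, Matrix.cons_val_one, Matrix.cons_val] at e2
    have e3 := congrArg (fun t => t * s) e2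
    have hs' := hs0.ne'
    have hR' := hRp.ne'
    have q0 : ω ⟨bot D.R 0, bot_mem_C D 0⟩ = q 0 := rfl
    have q1 : ω ⟨bot D.R 1, bot_mem_C D 1⟩ = q 1 := rfl
    have q2 : ω ⟨bot D.R 2, bot_mem_C D 2⟩ = q 2 := rfl
    rw [q0, q1, q2] at e3
    rw [← hx1, ← hy1]
    field_simp at e3 ⊢
    linarith

/-- solving for the values at the vertices of `T` -/
theorem core {μ γ₁ γ₂ : ℝ} (h1 : |γ₁| ≤ 1 / D.R) (h2 : |γ₂| ≤ 1 / D.R)
    (hpos : ∀ i, 0 ≤ μ + γ₁ * top n i 0 + γ₂ * top n i 1)
    (hhalf : ∃ i, μ + γ₁ * top n i 0 + γ₂ * top n i 1 ≤ 1 / 2) :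
    ∃ β : Fin (2 * n + 1) → ℝ, (∀ j, β j ∈ Set.Icc (0 : ℝ) 1) ∧
      ∀ i, ∑ j, D.M (top n i) j * D.b j * β j = μ + γ₁ * top n i 0 + γ₂ * top n i 1 := by
  have hRp : 0 < D.R := by linarith [D.Rpos]
  obtain ⟨i1, hi1⟩ := hhalf
  obtain ⟨i0, -, hi0⟩ := Finset.exists_min_image (Finset.univ : Finset (Fin (2 ^ n)))
    (fun i => μ + γ₁ * top n i 0 + γ₂ * top n i 1) ⟨i1, Finset.mem_univ _⟩
  set m0 : ℝ := μ + γ₁ * top n i0 0 + γ₂ * top n i0 1 with hm0
  have hm00 : 0 ≤ m0 := hpos i0
  have hm01 : m0 ≤ 1 / 2 := (hi0 i1 (Finset.mem_univ _)).trans hi1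
  have hev : ∀ i, ev ![γ₁, γ₂, μ - m0] (top n i) =
      μ + γ₁ * top n i 0 + γ₂ * top n i 1 - m0 := by
    intro i
    have hz : top n i 2 = 1 := mem_stage_two (top_mem n i)
    simp only [ev, Fin.sum_univ_three, Matrix.cons_val_zero, Matrix.cons_val_one, Matrix.cons_val]
    rw [hz]; ring
  have hstage : ∀ x ∈ stage n n, ∃ i, x = top n i := by
    rintro x ⟨j, hj, rfl⟩
    exact ⟨⟨j, hj⟩, rfl⟩
  obtain ⟨β, hβ, hβ'⟩ := D.fac.weak ![γ₁, γ₂, μ - m0] (by
    intro x hx
    obtain ⟨i, rfl⟩ := hstage x hx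
    rw [hev]
    have := hi0 i (Finset.mem_univ _)
    linarith)
  have hnn : nn ![γ₁, γ₂, μ - m0] ≤ 4 / D.R := by
    simp only [nn, Fin.sum_univ_three, Matrix.cons_val_zero, Matrix.cons_val_one, Matrix.cons_val]
    obtain ⟨a1, a2⟩ := abs_le_of_stage (top_mem n i0)
    have h3 : |μ - m0| ≤ |γ₁| + |γ₂| := by
      have e : μ - m0 = -(γ₁ * top n i0 0 + γ₂ * top n i0 1) := by rw [hm0]; ring
      rw [e, abs_neg]
      refine (abs_add_le _ _).trans ?_
      rw [abs_mul, abs_mul]
      have b1 := mul_le_mul_of_nonneg_left a1 (abs_nonneg γ₁)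
      have b2 := mul_le_mul_of_nonneg_left a2 (abs_nonneg γ₂)
      linarith
    have e : 4 / D.R = 4 * (1 / D.R) := by ring
    rw [e]
    linarith
  refine ⟨fun j => m0 + β j / D.b j, ?_, ?_⟩
  · intro j
    have hb := D.bpos j
    have h3 : β j ≤ D.L * (4 / D.R) :=
      (hβ j).2.trans (mul_le_mul_of_nonneg_left hnn D.fac.Lnn)
    have h4 : β j / D.b j ≤ 1 / 2 := by
      rw [div_le_iff₀ hb]
      refine h3.trans ?_
      rw [mul_div_assoc', div_le_iff₀ hRp]
      have := D.hR j
      nlinarith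
    have h5 : 0 ≤ β j / D.b j := div_nonneg (hβ j).1 hb.le
    constructor
    · positivity
    · linarith
  · intro i
    have e : ∀ j, D.M (top n i) j * D.b j * (m0 + β j / D.b j) =
        m0 * (D.M (top n i) j * D.b j) + D.M (top n i) j * β j := by
      intro j
      have hb := (D.bpos j).ne'
      field_simp
    simp only [e]
    rw [Finset.sum_add_distrib, ← Finset.mul_sum, D.bsum _ (top_mem n i),
      hβ' _ (top_mem n i), hev]
    ring

theorem H (hn : 1 ≤ n) : ∀ ω ∈ convexForms (img (A D) (F D)),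
    ∃ β : Fin (2 * n + 1 + 3) → ℝ, (∀ j, β j ∈ Set.Icc (0 : ℝ) 1) ∧
      ∀ i, ∑ j, A D i j * β j = ω ⟨F D (A D i), vert_mem (A D) (F D) i⟩ := by
  intro ω hω
  obtain ⟨μ, γ₁, γ₂, h1, h2, h3⟩ := slope D hn (ω := ω) hω
  have h01 : ∀ i, 0 ≤ ω ⟨top n i, top_mem_C D i⟩ ∧ ω ⟨top n i, top_mem_C D i⟩ ≤ 1 :=
    fun i => hω.1 _
  obtain ⟨β, hβ, hβ'⟩ : ∃ β : Fin (2 * n + 1) → ℝ, (∀ j, β j ∈ Set.Icc (0 : ℝ) 1) ∧
      ∀ i, ∑ j, D.M (top n i) j * D.b j * β j = μ + γ₁ * top n i 0 + γ₂ * top n i 1 := by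
    by_cases hc : ∃ i, μ + γ₁ * top n i 0 + γ₂ * top n i 1 ≤ 1 / 2
    · exact core D h1 h2 (fun i => by rw [← h3]; exact (h01 i).1) hc
    · push Not at hc
      have i0 : Fin (2 ^ n) := ⟨0, by positivity⟩
      obtain ⟨β, hβ, hβ'⟩ := core D (μ := 1 - μ) (γ₁ := -γ₁) (γ₂ := -γ₂) (by rwa [abs_neg])
        (by rwa [abs_neg]) (fun i => by
          have := (h01 i).2
          rw [h3] at this
          linarith) ⟨i0, by have := hc i0; linarith⟩
      refine ⟨fun j => 1 - β j, fun j => ?_, fun i => ?_⟩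
      · obtain ⟨b1, b2⟩ := hβ j
        constructor <;> linarith
      · have e : ∀ j, D.M (top n i) j * D.b j * (1 - β j) =
            D.M (top n i) j * D.b j - D.M (top n i) j * D.b j * β j := fun j => by ring
        simp only [e]
        rw [Finset.sum_sub_distrib, hβ' i, D.bsum _ (top_mem n i)]
        ring
  refine ⟨Fin.append β (fun l => ω ⟨bot D.R l, bot_mem_C D l⟩), ?_, ?_⟩
  · intro j
    refine Fin.addCases (fun j => ?_) (fun j => ?_) j
    · rw [Fin.append_left]; exact hβ j
    · rw [Fin.append_right]; exact hω.1 _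
  · intro i
    refine Fin.addCases (fun i => ?_) (fun l => ?_) i
    · have e : ω ⟨F D (A D (Fin.castAdd 3 i)), vert_mem (A D) (F D) _⟩ =
          ω ⟨top n i, top_mem_C D i⟩ := congrArg ω (Subtype.ext (F_top D i))
      rw [e, h3 i, ← hβ' i, A_top, sum_append']
      simp only [zero_mul, Finset.sum_const_zero, add_zero]
    · have e : ω ⟨F D (A D (Fin.natAdd (2 ^ n) l)), vert_mem (A D) (F D) _⟩ =
          ω ⟨bot D.R l, bot_mem_C D l⟩ := congrArg ω (Subtype.ext (F_bot D l))
      rw [e, A_bot, sum_append']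
      simp only [zero_mul, Finset.sum_const_zero, zero_add]
      rw [Finset.sum_eq_single l]
      · simp only [Pi.single_eq_same, one_mul]
      · intro j _ hj
        simp [Pi.single_apply, hj]
      · intro h; exact absurd (Finset.mem_univ l) h

/-- the linear form `a x + b y + c z` -/
def lin3 (a b c : ℝ) : V3 →ₗ[ℝ] ℝ where
  toFun x := a * x 0 + b * x 1 + c * x 2
  map_add' x y := by simp; ring
  map_smul' d x := by simp; ring

theorem lin3_apply (a b c : ℝ) (x : V3) : lin3 a b c x = a * x 0 + b * x 1 + c * x 2 := rfl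

/-- each vertex is the unique maximum of some linear form -/
theorem exists_form (i : Fin (2 ^ n + 3)) : ∃ φ : V3 →ₗ[ℝ] ℝ, ∀ j, j ≠ i →
    φ (vert D j) < φ (vert D i) := by
  have hR := D.Rpos
  have hc := fun t => (abs_le.1 (Real.abs_cos_le_one t))
  have hs := fun t => (abs_le.1 (Real.abs_sin_le_one t))
  refine Fin.addCases (fun i => ?_) (fun l => ?_) i
  · refine ⟨lin3 (Real.cos (ang n i)) (Real.sin (ang n i)) (D.R + 2), fun j => ?_⟩
    refine Fin.addCases (fun j hj => ?_) (fun l _ => ?_) j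
    · rw [vert_top, vert_top, lin3_apply, lin3_apply]
      simp only [top, pt, Matrix.cons_val_zero, Matrix.cons_val_one, Matrix.cons_val]
      have hji : (j : ℕ) ≠ i := by
        intro h
        exact hj (by rw [Fin.ext h])
      have e1 : Real.cos (ang n i) * Real.cos (ang n j) + Real.sin (ang n i) * Real.sin (ang n j) =
          Real.cos (ang n i - ang n j) := (Real.cos_sub _ _).symm
      have e2 : Real.cos (ang n i) * Real.cos (ang n i) + Real.sin (ang n i) * Real.sin (ang n i) =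
          1 := by nlinarith [Real.sin_sq_add_cos_sq (ang n i)]
      have e3 : Real.cos (ang n i - ang n j) < 1 := by
        refine lt_of_le_of_ne (Real.cos_le_one _) ?_
        intro h
        rw [Real.cos_eq_one_iff_of_lt_of_lt] at h
        · unfold ang at h
          have h4 : (2 : ℝ) ^ n ≠ 0 := by positivity
          have hpi := Real.pi_ne_zero
          rw [← sub_div, div_eq_zero_iff] at h
          rcases h with h | h
          · rw [← sub_mul, mul_eq_zero] at h
            rcases h with h | h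
            · have : (i : ℝ) = j := by linarith
              exact hji (by exact_mod_cast this.symm)
            · exact hpi h
          · exact h4 h
        · unfold ang
          have h4 : (0 : ℝ) < 2 ^ n := by positivity
          have hi : ((i : ℕ) : ℝ) + 1 ≤ 2 ^ n := by exact_mod_cast i.2
          have hj' : ((j : ℕ) : ℝ) + 1 ≤ 2 ^ n := by exact_mod_cast j.2
          have hi0 : (0 : ℝ) ≤ ((i : ℕ) : ℝ) := Nat.cast_nonneg _
          rw [← sub_div, lt_div_iff₀ h4]
          nlinarith [Real.pi_pos]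
        · unfold ang
          have h4 : (0 : ℝ) < 2 ^ n := by positivity
          have hi : ((i : ℕ) : ℝ) + 1 ≤ 2 ^ n := by exact_mod_cast i.2
          have hj0 : (0 : ℝ) ≤ ((j : ℕ) : ℝ) := Nat.cast_nonneg _
          rw [← sub_div, div_lt_iff₀ h4]
          nlinarith [Real.pi_pos]
      linarith
    · rw [vert_top, vert_bot, lin3_apply, lin3_apply]
      have e2 : Real.cos (ang n i) * Real.cos (ang n i) + Real.sin (ang n i) * Real.sin (ang n i) =
          1 := by nlinarith [Real.sin_sq_add_cos_sq (ang n i)]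
      have c1 := (hc (ang n i)).2
      have s1 := (hs (ang n i)).2
      fin_cases l
      · simp [top, pt, bot]; linarith
      · simp [top, pt, bot]; nlinarith
      · simp [top, pt, bot]; nlinarith
  · fin_cases l
    · refine ⟨lin3 (-1) (-1) (-3), fun j => ?_⟩
      refine Fin.addCases (fun j _ => ?_) (fun l hl => ?_) j
      · have c1 := (hc (ang n j)).1
        have s1 := (hs (ang n j)).1
        rw [vert_top, vert_bot, lin3_apply, lin3_apply]
        simp [top, pt, bot]
        linarith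
      · rw [vert_bot, vert_bot, lin3_apply, lin3_apply]
        fin_cases l
        · simp at hl
        · simp [bot]; linarith
        · simp [bot]; linarith
    · refine ⟨lin3 1 0 (-2), fun j => ?_⟩
      refine Fin.addCases (fun j _ => ?_) (fun l hl => ?_) j
      · have c1 := (hc (ang n j)).2
        rw [vert_top, vert_bot, lin3_apply, lin3_apply]
        simp [top, pt, bot]
        linarith
      · rw [vert_bot, vert_bot, lin3_apply, lin3_apply]
        fin_cases l
        · simp [bot]; linarith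
        · simp at hl
        · simp [bot]; linarith
    · refine ⟨lin3 0 1 (-2), fun j => ?_⟩
      refine Fin.addCases (fun j _ => ?_) (fun l hl => ?_) j
      · have c1 := (hs (ang n j)).2
        rw [vert_top, vert_bot, lin3_apply, lin3_apply]
        simp [top, pt, bot]
        linarith
      · rw [vert_bot, vert_bot, lin3_apply, lin3_apply]
        fin_cases l
        · simp [bot]; linarith
        · simp [bot]; linarith
        · simp at hl

theorem ext_all (i : Fin (2 ^ n + 3)) : vert D i ∈ (C D).extremePoints ℝ := by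
  obtain ⟨φ, hφ⟩ := exists_form D i
  exact extreme_of_max (vert D) i φ hφ

theorem inj : Function.Injective (vert D) := by
  intro i j hij
  by_contra hne
  obtain ⟨φ, hφ⟩ := exists_form D i
  have := hφ j (Ne.symm hne)
  rw [hij] at this
  exact lt_irrefl _ this

theorem ext_card : ((C D).extremePoints ℝ).ncard = 2 ^ n + 3 := by
  have h : (C D).extremePoints ℝ = Set.range (vert D) := by
    apply Set.Subset.antisymm
    · exact extremePoints_convexHull_subset
    · rintro _ ⟨i, rfl⟩
      exact ext_all D i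
  rw [h, ← Set.image_univ, Set.ncard_image_of_injective _ (inj D)]
  simp

theorem not_simplex (hn : 1 ≤ n) : ¬ IsSimplex (C D) := by
  rintro ⟨k, v, hv, he⟩
  have h1 : ∀ i, vert D i ∈ Set.range v := by
    intro i
    have := ext_all D i
    rw [he] at this
    exact extremePoints_convexHull_subset this
  choose g hg using h1
  have hginj : Function.Injective g := by
    intro i j hij
    apply inj D
    rw [← hg i, ← hg j, hij]
  have h2 : 2 ^ n + 3 ≤ k + 1 := by
    have := Fintype.card_le_of_injective g hginj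
    simpa using this
  have h3 := hv.card_le_finrank_succ
  have h4 := Submodule.finrank_le (vectorSpan ℝ (Set.range v))
  rw [Module.finrank_fin_fun] at h4
  rw [Fintype.card_fin] at h3
  have h6 : k + 1 ≤ 3 + 1 := h3.trans (Nat.succ_le_succ h4)
  have h5 : 2 ^ 1 ≤ 2 ^ n := Nat.pow_le_pow_right (by norm_num) hn
  omega

theorem polytope : IsPolytope (C D) :=
  ⟨Set.range (vert D), Set.finite_range _, ⟨_, ⟨Fin.natAdd (2 ^ n) 0, rfl⟩⟩, rfl⟩

/-- the example -/
theorem exists_example (n : ℕ) (hn : 1 ≤ n) : ∃ (C : Set (Fin 3 → ℝ))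
    (v : Fin (2 * n + 4) → (Fin (2 * n + 4) → ℝ)) (f : PartialAffineOnto (hull v) C)
    (g : PartialAffineOnto (convexForms (hull v)) (convexForms C)),
    IsPolytope C ∧ ¬ IsSimplex C ∧ (C.extremePoints ℝ).ncard = 2 ^ n + 3 ∧
      IsSimplicialRefinement v C f g := by
  obtain ⟨D⟩ := exists_data n
  exact ⟨img (A D) (F D), vtx _, fmap (A D) (hA D) (F D), gmap (A D) (hA D) (F D) (H D hn),
    polytope D, not_simplex D hn, ext_card D, isRef (A D) (hA D) (F D) (H D hn)⟩

end Q189.Frustum
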