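import Pool.Agent.H460BZ.Tail
import Pool.Agent.Helper392.Mey.PL
import Pool.Agent.PZ871.Gdens

/-!
# Gaussian measure of dilates of symmetric convex sets, without dependence on the dimension
-/

set_option autoImplicit false

open MeasureTheory ProbabilityTheory Set
open scoped ENNReal

namespace Q189.GB

open Pool.Agent.H460BZ (EE map_inner)

variable {n : ℕ}

/-- the distance to a convex set is convex -/
theorem infDist_convex {K : Set (EE n)} (hK : IsClosed K) (hne : K.Nonempty) (hc : Convex ℝ K)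
    (x y : EE n) {a b : ℝ} (ha : 0 ≤ a) (hb : 0 ≤ b) (hab : a + b = 1) :
    Metric.infDist (a • x + b • y) K ≤ a * Metric.infDist x K + b * Metric.infDist y K := by
  obtain ⟨p, hp, hpe⟩ := hK.exists_infDist_eq_dist hne x
  obtain ⟨q, hq, hqe⟩ := hK.exists_infDist_eq_dist hne y
  rw [hpe, hqe]
  refine (Metric.infDist_le_dist_of_mem (hc hp hq ha hb hab)).trans ?_
  rw [dist_eq_norm, dist_eq_norm, dist_eq_norm]
  have e : a • x + b • y - (a • p + b • q) = a • (x - p) + b • (y - q) := by
    rw [smul_sub, smul_sub]; abel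
  rw [e]
  refine (norm_add_le _ _).trans ?_
  rw [norm_smul, norm_smul, Real.norm_of_nonneg ha, Real.norm_of_nonneg hb]

/-- the Gaussian density -/
noncomputable def dens (n : ℕ) (x : EE n) : ℝ :=
  (2 * Real.pi) ^ (-(n:ℝ)/2) * Real.exp (-‖x‖^2/2)

theorem dens_pos (x : EE n) : 0 < dens n x := by unfold dens; positivity

theorem continuous_dens : Continuous (dens n) := by unfold dens; fun_prop

theorem lint_dens (f : EE n → ℝ≥0∞) (hf : Measurable f) :
    ∫⁻ x, f x ∂(stdGaussian (EE n)) =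
      ∫⁻ s : Fin n → ℝ, ENNReal.ofReal (dens n (WithLp.toLp 2 s)) * f (WithLp.toLp 2 s) := by
  have h1 : stdGaussian (EE n) = (volume : Measure (EE n)).withDensity
      (fun x => ENNReal.ofReal (dens n x)) := Pool.Agent.PZ871.M_gdens.gdens n
  have hd : Measurable fun x : EE n => ENNReal.ofReal (dens n x) :=
    continuous_dens.measurable.ennreal_ofReal
  rw [h1, lintegral_withDensity_eq_lintegral_mul _ hd hf]
  have hmp := PiLp.volume_preserving_toLp (Fin n)
  rw [← hmp.lintegral_comp (hd.mul hf)]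
  rfl

/-- **Maurey's inequality.** -/
theorem maurey {K : Set (EE n)} (hK : IsClosed K) :
    (∫⁻ x, ENNReal.ofReal (Real.exp (Metric.infDist x K ^ 2 / 4)) ∂(stdGaussian (EE n))) *
      stdGaussian (EE n) K ≤ 1 := by
  have hm : Measurable (WithLp.toLp 2 : (Fin n → ℝ) → EE n) :=
    (PiLp.volume_preserving_toLp (Fin n)).measurable
  have hF : Measurable fun x : EE n =>
      ENNReal.ofReal (Real.exp (Metric.infDist x K ^ 2 / 4)) := by fun_prop
  have hI : Measurable (K.indicator (1 : EE n → ℝ≥0∞)) :=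
    measurable_one.indicator hK.measurableSet
  have hd : Measurable fun s : Fin n → ℝ => ENNReal.ofReal (dens n (WithLp.toLp 2 s)) :=
    (continuous_dens.measurable.comp hm).ennreal_ofReal
  have h1 := lint_dens (fun x : EE n =>
    ENNReal.ofReal (Real.exp (Metric.infDist x K ^ 2 / 4))) hF
  have h2 := lint_dens (K.indicator (1 : EE n → ℝ≥0∞)) hI
  rw [lintegral_indicator_one hK.measurableSet] at h2
  have h3 := lint_dens (fun _ : EE n => (1 : ℝ≥0∞)) measurable_const
  rw [lintegral_one, measure_univ] at h3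
  rw [h1, h2]
  have key := Pool.Agent.Helper392.Mey.PL.pln n
    (fun s => ENNReal.ofReal (dens n (WithLp.toLp 2 s)) *
      ENNReal.ofReal (Real.exp (Metric.infDist (WithLp.toLp 2 s : EE n) K ^ 2 / 4)))
    (fun s => ENNReal.ofReal (dens n (WithLp.toLp 2 s)) *
      K.indicator (1 : EE n → ℝ≥0∞) (WithLp.toLp 2 s))
    (fun s => ENNReal.ofReal (dens n (WithLp.toLp 2 s)) * 1)
    (hd.mul (hF.comp hm)) (hd.mul (hI.comp hm)) (hd.mul measurable_const) ?_
  · rw [← h3, one_pow] at key
    exact key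
  · intro s t
    by_cases ht : (WithLp.toLp 2 t : EE n) ∈ K
    · rw [indicator_of_mem ht, Pi.one_apply, mul_one, mul_one, ← ENNReal.ofReal_mul
        (dens_pos _).le, ← ENNReal.ofReal_mul (mul_nonneg (dens_pos _).le (Real.exp_pos _).le),
        ← ENNReal.ofReal_pow (dens_pos _).le]
      apply ENNReal.ofReal_le_ofReal
      set x : EE n := WithLp.toLp 2 s with hx
      set y : EE n := WithLp.toLp 2 t with hy
      have e : (WithLp.toLp 2 (fun i => (s i + t i) / 2) : EE n) = (1 / 2 : ℝ) • (x + y) := by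
        ext i
        simp [hx, hy]
        ring
      rw [e]
      have hdist : Metric.infDist x K ≤ ‖x - y‖ := by
        rw [← dist_eq_norm]; exact Metric.infDist_le_dist_of_mem ht
      have hdist2 : Metric.infDist x K ^ 2 ≤ ‖x - y‖ ^ 2 :=
        pow_le_pow_left₀ Metric.infDist_nonneg hdist 2
      have hpar := parallelogram_law_with_norm ℝ x y
      have hn : ‖(1 / 2 : ℝ) • (x + y)‖ ^ 2 = ‖x + y‖ ^ 2 / 4 := by
        rw [norm_smul, mul_pow]
        norm_num
        ring
      unfold dens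
      rw [hn]
      have hc0 : 0 < (2 * Real.pi) ^ (-(n:ℝ)/2) := by positivity
      set c := (2 * Real.pi) ^ (-(n:ℝ)/2) with hc
      have e1 : c * Real.exp (-‖x‖ ^ 2 / 2) * Real.exp (Metric.infDist x K ^ 2 / 4) *
          (c * Real.exp (-‖y‖ ^ 2 / 2)) = c ^ 2 * Real.exp (-‖x‖ ^ 2 / 2 +
            Metric.infDist x K ^ 2 / 4 + -‖y‖ ^ 2 / 2) := by
        rw [Real.exp_add, Real.exp_add]; ring
      have e2 : (c * Real.exp (-(‖x + y‖ ^ 2 / 4) / 2)) ^ 2 =
          c ^ 2 * Real.exp (-(‖x + y‖ ^ 2 / 4)) := by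
        rw [mul_pow, ← Real.exp_nat_mul]
        congr 2
        push_cast
        ring
      rw [e1, e2]
      apply mul_le_mul_of_nonneg_left _ (by positivity)
      apply Real.exp_le_exp.2
      nlinarith
    · rw [indicator_of_notMem ht, mul_zero, mul_zero]
      exact zero_le

/-- concentration -/
theorem conc {K : Set (EE n)} (hK : IsClosed K) {q : ℝ} (hq0 : 0 < q)
    (hq : q ≤ (stdGaussian (EE n) K).toReal) {r : ℝ} (hr : 0 ≤ r) :
    (stdGaussian (EE n) {x | r ≤ Metric.infDist x K}).toReal ≤ Real.exp (-(r ^ 2 / 4)) / q := by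
  have h1 := maurey hK
  have hF : Measurable fun x : EE n =>
      ENNReal.ofReal (Real.exp (Metric.infDist x K ^ 2 / 4)) := by fun_prop
  have hms : MeasurableSet {x : EE n | r ≤ Metric.infDist x K} :=
    measurableSet_le measurable_const (by fun_prop)
  have h2 : ENNReal.ofReal (Real.exp (r ^ 2 / 4)) *
      stdGaussian (EE n) {x | r ≤ Metric.infDist x K} ≤
      ∫⁻ x, ENNReal.ofReal (Real.exp (Metric.infDist x K ^ 2 / 4)) ∂(stdGaussian (EE n)) := by
    rw [← setLIntegral_const]
    refine (setLIntegral_mono hF fun x hx => ?_).trans (setLIntegral_le_lintegral _ _)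
    apply ENNReal.ofReal_le_ofReal
    apply Real.exp_le_exp.2
    have : r ^ 2 ≤ Metric.infDist x K ^ 2 := pow_le_pow_left₀ hr hx 2
    linarith
  have h3 : ENNReal.ofReal (Real.exp (r ^ 2 / 4)) *
      stdGaussian (EE n) {x | r ≤ Metric.infDist x K} * stdGaussian (EE n) K ≤ 1 :=
    (mul_le_mul_left h2 _).trans h1
  have h4 := ENNReal.toReal_mono ENNReal.one_ne_top h3
  rw [ENNReal.toReal_mul, ENNReal.toReal_mul, ENNReal.toReal_ofReal (Real.exp_pos _).le,
    ENNReal.toReal_one] at h4
  set m := (stdGaussian (EE n) {x | r ≤ Metric.infDist x K}).toReal with hm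
  have hm0 : 0 ≤ m := ENNReal.toReal_nonneg
  have h5 : Real.exp (r ^ 2 / 4) * m * q ≤ 1 := by
    refine le_trans ?_ h4
    exact mul_le_mul_of_nonneg_left hq (mul_nonneg (Real.exp_pos _).le hm0)
  rw [le_div_iff₀ hq0, Real.exp_neg]
  rw [← mul_one (Real.exp (r ^ 2 / 4))⁻¹]
  rw [le_inv_mul_iff₀ (Real.exp_pos _)]
  linarith

/-- the one dimensional slab bound -/
theorem slab_le {w : ℝ} (hw : 0 ≤ w) :
    (gaussianReal 0 1 {z : ℝ | |z| ≤ w}).toReal ≤ w := by
  have e : {z : ℝ | |z| ≤ w} = Icc (-w) w := by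
    ext z; rw [mem_setOf_eq, abs_le]; rfl
  rw [e, gaussianReal_apply_eq_integral 0 one_ne_zero, ENNReal.toReal_ofReal
    (integral_nonneg fun x => gaussianPDFReal_nonneg 0 1 x)]
  have hle : ∀ x : ℝ, gaussianPDFReal 0 1 x ≤ 1 / 2 := by
    intro x
    rw [gaussianPDFReal_def]
    have h1 : Real.exp (-(x - 0) ^ 2 / (2 * ((1 : NNReal) : ℝ))) ≤ 1 := by
      rw [Real.exp_le_one_iff]
      have := sq_nonneg (x - 0)
      simp only [NNReal.coe_one]
      linarith
    have h2 : (√(2 * Real.pi * ((1 : NNReal) : ℝ)))⁻¹ ≤ 1 / 2 := by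
      rw [one_div]
      apply inv_anti₀ (by norm_num)
      apply Real.le_sqrt_of_sq_le
      simp only [NNReal.coe_one]
      linarith [Real.pi_gt_three]
    calc (√(2 * Real.pi * ((1 : NNReal) : ℝ)))⁻¹ * Real.exp (-(x - 0) ^ 2 / (2 * ((1 : NNReal) : ℝ)))
        ≤ 1 / 2 * 1 := mul_le_mul h2 h1 (Real.exp_pos _).le (by norm_num)
      _ = 1 / 2 := by norm_num
  calc ∫ x in Icc (-w) w, gaussianPDFReal 0 1 x ≤ ∫ x in Icc (-w) w, (1 / 2 : ℝ) := by
        apply setIntegral_mono_on ((integrable_gaussianPDFReal 0 1).integrableOn)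
          (integrableOn_const (by simp)) measurableSet_Icc
        intro x _
        exact hle x
    _ = w := by
        rw [setIntegral_const, Measure.real, Real.volume_Icc, ENNReal.toReal_ofReal (by linarith),
          smul_eq_mul]
        ring

/-- a symmetric convex set of Gaussian measure at least `q` contains the ball of radius `q` -/
theorem ball_subset {K : Set (EE n)} (hK : IsClosed K) (hc : Convex ℝ K) (hs : ∀ x ∈ K, -x ∈ K)
    {q : ℝ} (hq0 : 0 < q) (hq : q ≤ (stdGaussian (EE n) K).toReal) {x : EE n} (hx : ‖x‖ < q) :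
    x ∈ K := by
  by_contra hnot
  obtain ⟨f, u, hf1, hf2⟩ := geometric_hahn_banach_closed_point hc hK hnot
  set w : EE n := (InnerProductSpace.toDual ℝ (EE n)).symm f with hw
  have hfw : ∀ y, f y = inner ℝ w y := by
    intro y
    rw [hw, InnerProductSpace.toDual_symm_apply]
  have hKne : K.Nonempty := by
    by_contra h
    rw [Set.not_nonempty_iff_eq_empty] at h
    rw [h, measure_empty, ENNReal.toReal_zero] at hq
    linarith
  have hw0 : w ≠ 0 := by
    intro h0
    obtain ⟨y, hy⟩ := hKne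
    have h1 := hf1 y hy
    rw [hfw, h0, inner_zero_left] at h1
    rw [hfw, h0, inner_zero_left] at hf2
    linarith
  have hwn : 0 < ‖w‖ := norm_pos_iff.2 hw0
  -- the unit vector
  set e : EE n := (‖w‖⁻¹) • w with he
  have hen : ‖e‖ = 1 := by
    rw [he, norm_smul, norm_inv, norm_norm, inv_mul_cancel₀ hwn.ne']
  have hsub : K ⊆ (fun y => inner ℝ e y) ⁻¹' {z : ℝ | |z| ≤ ‖x‖} := by
    intro y hy
    have hxw : inner ℝ w x ≤ ‖w‖ * ‖x‖ := real_inner_le_norm w x
    have h1 := hf1 y hy
    have h2 := hf1 (-y) (hs y hy)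
    rw [hfw] at h1 h2 hf2
    rw [inner_neg_right] at h2
    have h3 : |inner ℝ w y| ≤ ‖w‖ * ‖x‖ := by
      rw [abs_le]; constructor <;> linarith
    simp only [mem_preimage, mem_setOf_eq]
    rw [he, real_inner_smul_left, abs_mul, abs_of_pos (inv_pos.2 hwn)]
    rw [inv_mul_le_iff₀ hwn]
    exact h3
  have hmap := map_inner e
  rw [hen, one_pow, Real.toNNReal_one] at hmap
  have hmeas : MeasurableSet {z : ℝ | |z| ≤ ‖x‖} := measurableSet_le (by fun_prop) measurable_const
  have h1 : stdGaussian (EE n) K ≤ gaussianReal 0 1 {z : ℝ | |z| ≤ ‖x‖} := by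
    rw [← hmap, Measure.map_apply (by fun_prop) hmeas]
    exact measure_mono hsub
  have h2 := ENNReal.toReal_mono (measure_ne_top _ _) h1
  have h3 := slab_le (norm_nonneg x)
  linarith

/-- the dilation factor -/
noncomputable def tt (q : ℝ) : ℝ := 1 + 2 * √(Real.log (100 / q)) / q

theorem tt_pos {q : ℝ} (hq : 0 < q) : 1 ≤ tt q := by
  unfold tt
  have : 0 ≤ 2 * √(Real.log (100 / q)) / q := by positivity
  linarith

theorem tt_anti {p q : ℝ} (hp : 0 < p) (hpq : p ≤ q) : tt q ≤ tt p := by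
  unfold tt
  have hq : 0 < q := hp.trans_le hpq
  have h1 : √(Real.log (100 / q)) ≤ √(Real.log (100 / p)) := by
    apply Real.sqrt_le_sqrt
    apply Real.log_le_log (by positivity)
    exact div_le_div_of_nonneg_left (by norm_num) hp hpq
  have h2 : 2 * √(Real.log (100 / q)) / q ≤ 2 * √(Real.log (100 / p)) / p :=
    div_le_div₀ (by positivity) (by linarith) hp hpq
  linarith

/-- **Dilation.** -/
theorem dilate {K : Set (EE n)} (hK : IsClosed K) (hc : Convex ℝ K) (hs : ∀ x ∈ K, -x ∈ K)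
    {q : ℝ} (hq0 : 0 < q) (hq : q ≤ (stdGaussian (EE n) K).toReal) :
    99 / 100 ≤ (stdGaussian (EE n) {x | (tt q)⁻¹ • x ∈ K}).toReal := by
  have hq1 : q ≤ 1 := by
    refine hq.trans ?_
    have := ENNReal.toReal_mono ENNReal.one_ne_top (prob_le_one (μ := stdGaussian (EE n)) (s := K))
    simpa using this
  set L := Real.log (100 / q) with hL
  have hL0 : 0 ≤ L := Real.log_nonneg (by rw [le_div_iff₀ hq0]; linarith)
  have ht1 : 1 ≤ tt q := tt_pos hq0
  have ht0 : 0 < tt q := by linarith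
  have hKne : K.Nonempty := by
    by_contra h
    rw [Set.not_nonempty_iff_eq_empty] at h
    rw [h, measure_empty, ENNReal.toReal_zero] at hq
    linarith
  set r : ℝ := 2 * √L with hr
  have hr0 : 0 ≤ r := by positivity
  have hrt : (tt q - 1) * q = r := by
    unfold tt
    rw [← hL, hr]
    field_simp
    ring
  -- the complement is far from `K`
  have hsub : {x : EE n | (tt q)⁻¹ • x ∈ K}ᶜ ⊆ {x | r ≤ Metric.infDist x K} := by
    intro x hx
    by_contra hlt
    simp only [mem_setOf_eq, not_le] at hlt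
    obtain ⟨y, hy, hxy⟩ := (Metric.infDist_lt_iff hKne).1 hlt
    apply hx
    rw [mem_setOf_eq]
    rcases ht1.eq_or_lt with h1 | h1
    · exfalso
      rw [← h1, sub_self, zero_mul] at hrt
      rw [← hrt] at hxy
      linarith [dist_nonneg (x := x) (y := y)]
    · have hpos : 0 < tt q - 1 := by linarith
      set z : EE n := (tt q - 1)⁻¹ • (x - y) with hz
      have hzn : ‖z‖ < q := by
        rw [hz, norm_smul, norm_inv, Real.norm_of_nonneg hpos.le, inv_mul_lt_iff₀ hpos, hrt,
          ← dist_eq_norm]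
        exact hxy
      have hzK := ball_subset hK hc hs hq0 hq hzn
      have hmem := hc hy hzK (a := (tt q)⁻¹) (b := (tt q)⁻¹ * (tt q - 1)) (by positivity)
        (by positivity) (by field_simp; ring)
      have e : (tt q)⁻¹ • y + ((tt q)⁻¹ * (tt q - 1)) • z = (tt q)⁻¹ • x := by
        rw [hz, smul_smul, mul_assoc, mul_inv_cancel₀ hpos.ne', mul_one, ← smul_add]
        congr 1
        abel
      rwa [e] at hmem
  have hcl : IsClosed {x : EE n | (tt q)⁻¹ • x ∈ K} :=
    hK.preimage (continuous_const_smul _)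
  have h1 := conc hK hq0 hq hr0
  have h2 : Real.exp (-(r ^ 2 / 4)) / q = 1 / 100 := by
    have e1 : r ^ 2 / 4 = L := by
      rw [hr, mul_pow, Real.sq_sqrt hL0]; ring
    rw [e1, hL, Real.exp_neg, Real.exp_log (by positivity)]
    field_simp
  rw [h2] at h1
  have h3 : (stdGaussian (EE n) ({x : EE n | (tt q)⁻¹ • x ∈ K}ᶜ)).toReal ≤ 1 / 100 :=
    (ENNReal.toReal_mono (measure_ne_top _ _) (measure_mono hsub)).trans h1
  have h4 : (stdGaussian (EE n)).real ({x : EE n | (tt q)⁻¹ • x ∈ K}ᶜ) =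
      1 - (stdGaussian (EE n)).real {x : EE n | (tt q)⁻¹ • x ∈ K} :=
    probReal_compl_eq_one_sub hcl.measurableSet
  have h5 : (stdGaussian (EE n)).real {x : EE n | (tt q)⁻¹ • x ∈ K} =
    (stdGaussian (EE n) {x | (tt q)⁻¹ • x ∈ K}).toReal := rfl
  have h6 : (stdGaussian (EE n)).real ({x : EE n | (tt q)⁻¹ • x ∈ K}ᶜ) =
    (stdGaussian (EE n) ({x | (tt q)⁻¹ • x ∈ K}ᶜ)).toReal := rfl
  rw [← h5]
  rw [← h6, h4] at h3
  linarith

end Q189.GB
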