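import Pool.Agent.Q189.GB1

/-!
# Balancing vectors of norm at most `1/100` in a symmetric convex set of Gaussian measure `99/100`
-/

set_option autoImplicit false

open MeasureTheory ProbabilityTheory Set
open scoped ENNReal

namespace Q189.GB

open Pool.Agent.H460BZ

/-- the bodies of the backward construction -/
def Cd {n : ℕ} (K : Set (EE n)) : ℕ → (ℕ → EE n) → Set (EE n)
  | 0, _ => K
  | m + 1, u => star (Cd K m (fun i => u (i + 1))) (u 0)

theorem Cd_props {n : ℕ} {K : Set (EE n)} (hK : IsClosed K) (hc : Convex ℝ K)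
    (hs : ∀ x ∈ K, -x ∈ K) (h : 99 / 100 ≤ (stdGaussian (EE n) K).toReal) :
    ∀ (m : ℕ) (u : ℕ → EE n), (∀ i < m, ‖u i‖ = 1 / 100) →
      IsClosed (Cd K m u) ∧ Convex ℝ (Cd K m u) ∧ (∀ x ∈ Cd K m u, -x ∈ Cd K m u) ∧
        99 / 100 ≤ (stdGaussian (EE n) (Cd K m u)).toReal := by
  intro m
  induction m with
  | zero =>
    intro u _
    exact ⟨hK, hc, hs, h⟩
  | succ m ih =>
    intro u hu
    obtain ⟨h1, h2, h3, h4⟩ := ih (fun i => u (i + 1)) (fun i hi => hu (i + 1) (by omega))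
    have hkey := key_lemma n _ h1 h2 (u 0) (hu 0 (by omega)) h4
    refine ⟨star_closed h1 _, star_convex h2 _, star_symm h3 _, ?_⟩
    exact h4.trans (ENNReal.toReal_mono (measure_ne_top _ _) hkey)

theorem Cd_signs {n : ℕ} {K : Set (EE n)} (hK : IsClosed K) (hc : Convex ℝ K)
    (hs : ∀ x ∈ K, -x ∈ K) (h : 99 / 100 ≤ (stdGaussian (EE n) K).toReal) :
    ∀ (m : ℕ) (u : ℕ → EE n), (∀ i < m, ‖u i‖ = 1 / 100) →
      ∀ x ∈ Cd K m u, ∃ σ : ℕ → ℝ, (∀ i, σ i = 1 ∨ σ i = -1) ∧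
        x + ∑ i ∈ Finset.range m, σ i • u i ∈ K := by
  intro m
  induction m with
  | zero =>
    intro u _ x hx
    exact ⟨fun _ => 1, fun _ => Or.inl rfl, by simpa [Cd] using hx⟩
  | succ m ih =>
    intro u hu x hx
    have hu' : ∀ i < m, ‖u (i + 1)‖ = 1 / 100 := fun i hi => hu (i + 1) (by omega)
    obtain ⟨h1, h2, h3, h4⟩ := Cd_props hK hc hs h m (fun i => u (i + 1)) hu'
    obtain ⟨s, hs1, hs2⟩ : ∃ s : ℝ, (s = 1 ∨ s = -1) ∧
        x + s • u 0 ∈ Cd K m (fun i => u (i + 1)) := by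
      rcases star_step h2 (u 0) hx with h | h
      · exact ⟨1, Or.inl rfl, by simpa using h⟩
      · exact ⟨-1, Or.inr rfl, by simpa [sub_eq_add_neg] using h⟩
    obtain ⟨σ, hσ1, hσ2⟩ := ih (fun i => u (i + 1)) hu' _ hs2
    refine ⟨fun i => match i with | 0 => s | i + 1 => σ i, ?_, ?_⟩
    · intro i
      rcases i with _ | i
      · exact hs1
      · exact hσ1 i
    · rw [Finset.sum_range_succ']
      have e : x + (∑ i ∈ Finset.range m, σ i • u (i + 1) + s • u 0) =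
          x + s • u 0 + ∑ i ∈ Finset.range m, σ i • u (i + 1) := by abel
      show x + (∑ i ∈ Finset.range m, σ i • u (i + 1) + s • u 0) ∈ K
      rw [e]
      exact hσ2

theorem balance_eq {n : ℕ} {K : Set (EE n)} (hK : IsClosed K) (hc : Convex ℝ K)
    (hs : ∀ x ∈ K, -x ∈ K) (h : 99 / 100 ≤ (stdGaussian (EE n) K).toReal) (m : ℕ) (u : ℕ → EE n)
    (hu : ∀ i < m, ‖u i‖ = 1 / 100) : ∃ σ : ℕ → ℝ, (∀ i, σ i = 1 ∨ σ i = -1) ∧
      ∑ i ∈ Finset.range m, σ i • u i ∈ K := by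
  obtain ⟨h1, h2, h3, h4⟩ := Cd_props hK hc hs h m u hu
  have hne : (Cd K m u).Nonempty := by
    by_contra hcon
    rw [Set.not_nonempty_iff_eq_empty] at hcon
    rw [hcon, measure_empty, ENNReal.toReal_zero] at h4
    norm_num at h4
  obtain ⟨x, hx⟩ := hne
  have h0 : (0 : EE n) ∈ Cd K m u := by
    have := h2 hx (h3 x hx) (a := 1 / 2) (b := 1 / 2) (by norm_num) (by norm_num) (by norm_num)
    simpa using this
  obtain ⟨σ, hσ1, hσ2⟩ := Cd_signs hK hc hs h m u hu 0 h0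
  exact ⟨σ, hσ1, by simpa using hσ2⟩

/-- dropping the first coordinate -/
def drop (n : ℕ) (y : EE (n + 1)) : EE n := WithLp.toLp 2 fun i => y i.succ

/-- adding a first coordinate -/
def cons {n : ℕ} (c : ℝ) (x : EE n) : EE (n + 1) := WithLp.toLp 2 (Fin.cons c x)

theorem drop_cons {n : ℕ} (c : ℝ) (x : EE n) : drop n (cons c x) = x := by
  ext i
  simp [drop, cons]

theorem continuous_drop (n : ℕ) : Continuous (drop n) := by
  unfold drop
  fun_prop

theorem drop_sum {n : ℕ} (m : ℕ) (σ : ℕ → ℝ) (v : ℕ → EE (n + 1)) :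
    drop n (∑ i ∈ Finset.range m, σ i • v i) = ∑ i ∈ Finset.range m, σ i • drop n (v i) := by
  ext j
  simp [drop]

theorem norm_cons_sq {n : ℕ} (c : ℝ) (x : EE n) : ‖cons c x‖ ^ 2 = c ^ 2 + ‖x‖ ^ 2 := by
  rw [EuclideanSpace.real_norm_sq_eq, EuclideanSpace.real_norm_sq_eq, Fin.sum_univ_succ]
  simp [cons]

theorem inner_drop {n : ℕ} (y : EE (n + 1)) (t : EE n) :
    inner ℝ (drop n y) t = inner ℝ y (cons 0 t) := by
  simp only [PiLp.inner_apply, Fin.sum_univ_succ]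
  simp [drop, cons]

theorem map_drop (n : ℕ) : (stdGaussian (EE (n + 1))).map (drop n) = stdGaussian (EE n) := by
  have : IsProbabilityMeasure ((stdGaussian (EE (n + 1))).map (drop n)) :=
    Measure.isProbabilityMeasure_map (continuous_drop n).measurable.aemeasurable
  apply Measure.ext_of_charFun
  funext t
  rw [charFun_stdGaussian, charFun_apply, integral_map (continuous_drop n).measurable.aemeasurable
    (by fun_prop)]
  simp only [inner_drop]
  rw [← charFun_apply, charFun_stdGaussian]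
  have h := norm_cons_sq 0 t
  have h2 : ‖cons 0 t‖ ^ 2 = ‖t‖ ^ 2 := by rw [h]; ring
  have h3 : ((‖cons 0 t‖ : ℝ) : ℂ) ^ 2 = ((‖t‖ : ℝ) : ℂ) ^ 2 := by exact_mod_cast h2
  rw [h3]

/-- **Balancing** of vectors of norm at most `1/100`. -/
theorem balance {n : ℕ} {K : Set (EE n)} (hK : IsClosed K) (hc : Convex ℝ K)
    (hs : ∀ x ∈ K, -x ∈ K) (h : 99 / 100 ≤ (stdGaussian (EE n) K).toReal) (m : ℕ) (u : ℕ → EE n)
    (hu : ∀ i < m, ‖u i‖ ≤ 1 / 100) : ∃ σ : ℕ → ℝ, (∀ i, σ i = 1 ∨ σ i = -1) ∧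
      ∑ i ∈ Finset.range m, σ i • u i ∈ K := by
  set K' : Set (EE (n + 1)) := drop n ⁻¹' K with hK'
  have hK'c : IsClosed K' := hK.preimage (continuous_drop n)
  have hadd : ∀ (a b : ℝ) (x y : EE (n + 1)), drop n (a • x + b • y) =
      a • drop n x + b • drop n y := by
    intro a b x y
    ext j
    simp [drop]
  have hc' : Convex ℝ K' := by
    intro x hx y hy a b ha hb hab
    simp only [hK', mem_preimage] at hx hy ⊢
    rw [hadd]
    exact hc hx hy ha hb hab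
  have hs' : ∀ x ∈ K', -x ∈ K' := by
    intro x hx
    simp only [hK', mem_preimage] at hx ⊢
    have e : drop n (-x) = -drop n x := by ext j; simp [drop]
    rw [e]
    exact hs _ hx
  have hm' : 99 / 100 ≤ (stdGaussian (EE (n + 1)) K').toReal := by
    rw [hK', ← Measure.map_apply (continuous_drop n).measurable hK.measurableSet, map_drop]
    exact h
  obtain ⟨σ, hσ, hσ'⟩ := balance_eq hK'c hc' hs' hm' m
    (fun i => cons (√((1 / 100) ^ 2 - ‖u i‖ ^ 2)) (u i)) (by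
      intro i hi
      have h1 := norm_cons_sq (√((1 / 100) ^ 2 - ‖u i‖ ^ 2)) (u i)
      have h2 : ‖u i‖ ^ 2 ≤ (1 / 100) ^ 2 := pow_le_pow_left₀ (norm_nonneg _) (hu i hi) 2
      rw [Real.sq_sqrt (by linarith), sub_add_cancel] at h1
      exact (pow_left_inj₀ (norm_nonneg _) (by norm_num) two_ne_zero).1 h1)
  refine ⟨σ, hσ, ?_⟩
  simp only [hK', mem_preimage] at hσ'
  rw [drop_sum] at hσ'
  simpa only [drop_cons] using hσ'

end Q189.GB
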