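import Pool.Agent.Q189.GB2
import Pool.Agent.H902R3.ZA.JEN
import Pool.Agent.H902R3.ZA.ROT
import Pool.Agent.H902R3.ZA.QJ
import Pool.Agent.H902R3.ZA.PLN
import Pool.Agent.H902R3.ZA.PLA
import Pool.Agent.H902R3.ZA.LBM

/-!
# The Gaussian centre of mass of a convex body is a good centre of symmetry
-/

set_option autoImplicit false

open MeasureTheory ProbabilityTheory Set Filter
open scoped ENNReal Topology

namespace Q189.GB

open Pool.Agent.H460BZ (EE)
open Pool.Agent.H902R3.ZA (gm)

theorem jen_ok : Pool.Agent.H902R3.ZA.S_JEN :=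
  Pool.Agent.H902R3.ZA.JEN_ok
    (Pool.Agent.H902R3.ZA.PLN_ok (Pool.Agent.H902R3.ZA.PLA_ok Pool.Agent.H902R3.ZA.LBM_ok))
    Pool.Agent.H902R3.ZA.ROT_ok Pool.Agent.H902R3.ZA.QJ_ok

variable {n : ℕ}

theorem meas_toLp : Measurable (WithLp.toLp 2 : (Fin n → ℝ) → EE n) :=
  (PiLp.volume_preserving_toLp (Fin n)).measurable

theorem cont_toLp : Continuous (WithLp.toLp 2 : (Fin n → ℝ) → EE n) :=
  PiLp.continuous_toLp 2 _

theorem std_apply {A : Set (EE n)} (hA : MeasurableSet A) :
    stdGaussian (EE n) A = gm n (WithLp.toLp 2 ⁻¹' A) := by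
  rw [← map_pi_eq_stdGaussian, Measure.map_apply meas_toLp hA]
  rfl

theorem coord_int (j : Fin n) : Integrable (fun g : Fin n → ℝ => g j) (gm n) := by
  unfold gm
  have h1 : Integrable (fun x : ℝ => x) (gaussianReal 0 1) := by
    have h := memLp_id_gaussianReal (μ := 0) (v := 1) 1
    rw [ENNReal.coe_one] at h
    exact memLp_one_iff_integrable.1 h
  exact (measurePreserving_eval (fun _ : Fin n => gaussianReal 0 1) j).integrable_comp_of_integrable h1

/-- the approximating function -/
noncomputable def WN (V : Set (EE n)) (N : ℕ) (g : Fin n → ℝ) : ℝ :=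
  N * Metric.infDist (WithLp.toLp 2 g : EE n) V

theorem WN_cont (V : Set (EE n)) (N : ℕ) : Continuous (WN V N) := by
  unfold WN
  exact continuous_const.mul ((Metric.continuous_infDist_pt V).comp cont_toLp)

theorem WN_nonneg (V : Set (EE n)) (N : ℕ) (g : Fin n → ℝ) : 0 ≤ WN V N g :=
  mul_nonneg (Nat.cast_nonneg _) Metric.infDist_nonneg

theorem WN_convex {V : Set (EE n)} (hV : IsClosed V) (hne : V.Nonempty) (hc : Convex ℝ V) (N : ℕ) :
    ConvexOn ℝ Set.univ (WN V N) := by
  refine ⟨convex_univ, fun x _ y _ a b ha hb hab => ?_⟩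
  unfold WN
  have e : (WithLp.toLp 2 (a • x + b • y) : EE n) =
      a • (WithLp.toLp 2 x : EE n) + b • (WithLp.toLp 2 y : EE n) := rfl
  rw [e, smul_eq_mul, smul_eq_mul]
  have h := infDist_convex hV hne hc (WithLp.toLp 2 x : EE n) (WithLp.toLp 2 y : EE n) ha hb hab
  have := mul_le_mul_of_nonneg_left h (Nat.cast_nonneg N : (0 : ℝ) ≤ N)
  linarith

/-- pointwise limit -/
theorem exp_tendsto {V : Set (EE n)} (hV : IsClosed V) (hne : V.Nonempty) (g : Fin n → ℝ) :
    Tendsto (fun N : ℕ => Real.exp (-WN V N g)) atTop
      (𝓝 ((WithLp.toLp 2 ⁻¹' V : Set (Fin n → ℝ)).indicator 1 g)) := by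
  by_cases h : (WithLp.toLp 2 g : EE n) ∈ V
  · have h' : g ∈ (WithLp.toLp 2 ⁻¹' V : Set (Fin n → ℝ)) := h
    rw [indicator_of_mem h']
    have : ∀ N : ℕ, Real.exp (-WN V N g) = 1 := by
      intro N
      unfold WN
      rw [Metric.infDist_zero_of_mem h]
      simp
    simp only [this]
    exact tendsto_const_nhds
  · have h' : g ∉ (WithLp.toLp 2 ⁻¹' V : Set (Fin n → ℝ)) := h
    rw [indicator_of_notMem h']
    have hd : 0 < Metric.infDist (WithLp.toLp 2 g : EE n) V := (hV.notMem_iff_infDist_pos hne).1 h
    have h1 : Tendsto (fun N : ℕ => (N : ℝ) * Metric.infDist (WithLp.toLp 2 g : EE n) V) atTop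
        atTop := tendsto_natCast_atTop_atTop.atTop_mul_const hd
    exact Real.tendsto_exp_neg_atTop_nhds_zero.comp h1

theorem exp_le_one' (V : Set (EE n)) (N : ℕ) (g : Fin n → ℝ) : Real.exp (-WN V N g) ≤ 1 := by
  rw [Real.exp_le_one_iff]
  linarith [WN_nonneg V N g]

/-- the symmetrized body at the centre `b` -/
def symB (V : Set (EE n)) (b : EE n) : Set (EE n) :=
  {k | b + (√2)⁻¹ • k ∈ V ∧ b - (√2)⁻¹ • k ∈ V}

/-- **The Gaussian centre of mass is a good centre of symmetry.** -/
theorem sym_meas {V : Set (EE n)} (hV : IsClosed V) (hne : V.Nonempty) (hc : Convex ℝ V)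
    (hpos : 0 < (stdGaussian (EE n) V).toReal) (b : EE n)
    (hb : ∀ j, (stdGaussian (EE n) V).toReal * b j = ∫ x in V, x j ∂(stdGaussian (EE n))) :
    (stdGaussian (EE n) V).toReal ^ 2 ≤ (stdGaussian (EE n) (symB V b)).toReal := by
  set V' : Set (Fin n → ℝ) := WithLp.toLp 2 ⁻¹' V with hV'
  have hV'm : MeasurableSet V' := meas_toLp hV.measurableSet
  set p := (stdGaussian (EE n) V).toReal with hp
  have hp' : p = (gm n V').toReal := by rw [hp, std_apply hV.measurableSet]
  -- the approximations
  set pN : ℕ → ℝ := fun N => ∫ g, Real.exp (-WN V N g) ∂(gm n) with hpN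
  have hexp_sm : ∀ N, AEStronglyMeasurable (fun g => Real.exp (-WN V N g)) (gm n) := fun N =>
    (Real.continuous_exp.comp (WN_cont V N).neg).aestronglyMeasurable
  have hexp_int : ∀ N, Integrable (fun g => Real.exp (-WN V N g)) (gm n) := by
    intro N
    refine Integrable.of_bound (C := 1) (hexp_sm N) (Eventually.of_forall fun g => ?_)
    rw [Real.norm_of_nonneg (Real.exp_pos _).le]
    exact exp_le_one' V N g
  have hpl : Tendsto pN atTop (𝓝 p) := by
    have h1 : Tendsto pN atTop (𝓝 (∫ g, V'.indicator (1 : (Fin n → ℝ) → ℝ) g ∂(gm n))) := by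
      apply tendsto_integral_of_dominated_convergence (fun _ => (1 : ℝ)) hexp_sm
        (integrable_const _)
      · intro N
        refine Eventually.of_forall fun g => ?_
        rw [Real.norm_of_nonneg (Real.exp_pos _).le]
        exact exp_le_one' V N g
      · exact Eventually.of_forall fun g => exp_tendsto hV hne g
    rw [integral_indicator_one hV'm] at h1
    rw [hp']
    exact h1
  have hple : ∀ N, p ≤ pN N := by
    intro N
    rw [hp', ← Measure.real, ← integral_indicator_one hV'm]
    apply integral_mono ((integrable_const (1 : ℝ)).indicator hV'm) (hexp_int N)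
    intro g
    by_cases h : g ∈ V'
    · simp only
      rw [indicator_of_mem h]
      have h2 : (WithLp.toLp 2 g : EE n) ∈ V := h
      unfold WN
      rw [Metric.infDist_zero_of_mem h2]
      simp
    · simp only
      rw [indicator_of_notMem h]
      exact (Real.exp_pos _).le
  set mN : ℕ → Fin n → ℝ := fun N j => ∫ g, g j * Real.exp (-WN V N g) ∂(gm n) with hmN
  have hml : ∀ j, Tendsto (fun N => mN N j) atTop (𝓝 (p * b j)) := by
    intro j
    have h1 : Tendsto (fun N => mN N j) atTop
        (𝓝 (∫ g, g j * V'.indicator (1 : (Fin n → ℝ) → ℝ) g ∂(gm n))) := by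
      apply tendsto_integral_of_dominated_convergence (fun g => |g j|)
      · intro N
        exact (coord_int j).aestronglyMeasurable.mul (hexp_sm N)
      · exact (coord_int j).abs
      · intro N
        refine Eventually.of_forall fun g => ?_
        rw [norm_mul, Real.norm_of_nonneg (Real.exp_pos _).le, Real.norm_eq_abs]
        calc |g j| * Real.exp (-WN V N g) ≤ |g j| * 1 :=
              mul_le_mul_of_nonneg_left (exp_le_one' V N g) (abs_nonneg _)
          _ = |g j| := mul_one _
      · exact Eventually.of_forall fun g => (exp_tendsto hV hne g).const_mul _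
    have h2 : ∫ g, g j * V'.indicator (1 : (Fin n → ℝ) → ℝ) g ∂(gm n) = p * b j := by
      rw [hb j, ← map_pi_eq_stdGaussian, setIntegral_map hV.measurableSet (by fun_prop)
        meas_toLp.aemeasurable, ← integral_indicator hV'm]
      apply integral_congr_ae
      refine Eventually.of_forall fun g => ?_
      by_cases h : g ∈ V'
      · simp only [indicator_of_mem h, Pi.one_apply, mul_one]
      · simp only [indicator_of_notMem h, mul_zero]
    rw [← h2]
    exact h1
  set bN : ℕ → Fin n → ℝ := fun N j => mN N j / pN N with hbN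
  have hpN0 : ∀ N, 0 < pN N := fun N => hpos.trans_le (hple N)
  have hbl : Tendsto (fun N => (WithLp.toLp 2 (bN N) : EE n)) atTop (𝓝 b) := by
    have h1 : Tendsto bN atTop (𝓝 (fun j => b j)) := by
      rw [tendsto_pi_nhds]
      intro j
      have h2 := (hml j).div hpl hpos.ne'
      rw [mul_div_cancel_left₀ _ hpos.ne'] at h2
      exact h2
    have h3 := (cont_toLp (n := n)).tendsto (fun j => b j)
    exact h3.comp h1
  -- the inequality for the approximations
  have hJ : ∀ N, pN N ^ 2 ≤ ∫ k, Real.exp (-WN V N (fun j => bN N j + k j / Real.sqrt 2)) *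
      Real.exp (-WN V N (fun j => bN N j - k j / Real.sqrt 2)) ∂(gm n) := by
    intro N
    apply jen_ok n (WN V N) (WN_convex hV hne hc N) (WN_cont V N) (WN_nonneg V N) (pN N) (bN N) rfl
    intro j
    simp only [hbN]
    rw [mul_div_cancel₀ _ (hpN0 N).ne']
  -- the sets `A δ`
  set A : ℝ → Set (Fin n → ℝ) := fun δ => {k |
    Metric.infDist (b + (√2)⁻¹ • (WithLp.toLp 2 k : EE n)) V ≤ δ ∧
    Metric.infDist (b - (√2)⁻¹ • (WithLp.toLp 2 k : EE n)) V ≤ δ} with hA
  have hc1 : Continuous fun k : Fin n → ℝ =>
      Metric.infDist (b + (√2)⁻¹ • (WithLp.toLp 2 k : EE n)) V :=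
    (Metric.continuous_infDist_pt V).comp (continuous_const.add ((continuous_const_smul (√2)⁻¹).comp cont_toLp))
  have hc2 : Continuous fun k : Fin n → ℝ =>
      Metric.infDist (b - (√2)⁻¹ • (WithLp.toLp 2 k : EE n)) V :=
    (Metric.continuous_infDist_pt V).comp (continuous_const.sub ((continuous_const_smul (√2)⁻¹).comp cont_toLp))
  have hAc : ∀ δ, IsClosed (A δ) := fun δ =>
    (isClosed_le hc1 continuous_const).inter (isClosed_le hc2 continuous_const)
  have hAδ : ∀ δ : ℝ, 0 < δ → p ^ 2 ≤ (gm n (A δ)).toReal := by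
    intro δ hδ
    have hev : ∀ᶠ N in atTop, dist (WithLp.toLp 2 (bN N) : EE n) b ≤ δ / 2 := by
      have := (Metric.tendsto_nhds.1 hbl) (δ / 2) (by linarith)
      filter_upwards [this] with N hN
      exact hN.le
    have hbound : ∀ᶠ N : ℕ in atTop, p ^ 2 ≤ (gm n (A δ)).toReal + Real.exp (-(N * (δ / 2))) := by
      filter_upwards [hev] with N hN
      have h1 : p ^ 2 ≤ pN N ^ 2 := pow_le_pow_left₀ hpos.le (hple N) 2
      refine h1.trans ((hJ N).trans ?_)
      have h2 : ∫ k, (A δ).indicator (1 : (Fin n → ℝ) → ℝ) k + Real.exp (-(N * (δ / 2))) ∂(gm n) =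
          (gm n (A δ)).toReal + Real.exp (-(N * (δ / 2))) := by
        have hi : Integrable ((A δ).indicator (1 : (Fin n → ℝ) → ℝ)) (gm n) :=
          (integrable_const (1 : ℝ)).indicator (hAc δ).measurableSet
        rw [integral_add hi (integrable_const _), integral_indicator_one (hAc δ).measurableSet,
          integral_const]
        simp [Measure.real]
      rw [← h2]
      apply integral_mono_of_nonneg
      · exact Eventually.of_forall fun k => mul_nonneg (Real.exp_pos _).le (Real.exp_pos _).le
      · exact ((integrable_const (1 : ℝ)).indicator (hAc δ).measurableSet).add (integrable_const _)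
      · refine Eventually.of_forall fun k => ?_
        simp only
        by_cases hk : k ∈ A δ
        · rw [indicator_of_mem hk, Pi.one_apply]
          have a1 := exp_le_one' V N (fun j => bN N j + k j / Real.sqrt 2)
          have a2 := exp_le_one' V N (fun j => bN N j - k j / Real.sqrt 2)
          have a3 := Real.exp_pos (-(N * (δ / 2)))
          have a4 := mul_le_mul a1 a2 (Real.exp_pos _).le zero_le_one
          linarith
        · rw [indicator_of_notMem hk, zero_add]
          have hor : δ < Metric.infDist (b + (√2)⁻¹ • (WithLp.toLp 2 k : EE n)) V ∨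
              δ < Metric.infDist (b - (√2)⁻¹ • (WithLp.toLp 2 k : EE n)) V := by
            by_contra hcon
            push Not at hcon
            exact hk hcon
          have hbig : ∀ (x y : EE n), dist x y ≤ δ / 2 → δ < Metric.infDist y V →
              δ / 2 ≤ Metric.infDist x V := by
            intro x y h1 h2
            have := Metric.infDist_le_infDist_add_dist (s := V) (x := y) (y := x)
            rw [dist_comm] at this
            linarith
          have e1 : (WithLp.toLp 2 (fun j => bN N j + k j / Real.sqrt 2) : EE n) =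
              WithLp.toLp 2 (bN N) + (√2)⁻¹ • (WithLp.toLp 2 k : EE n) := by
            ext j
            simp
            ring
          have e2 : (WithLp.toLp 2 (fun j => bN N j - k j / Real.sqrt 2) : EE n) =
              WithLp.toLp 2 (bN N) - (√2)⁻¹ • (WithLp.toLp 2 k : EE n) := by
            ext j
            simp
            ring
          rcases hor with h | h
          · have h3 : δ / 2 ≤ Metric.infDist (WithLp.toLp 2
                (fun j => bN N j + k j / Real.sqrt 2) : EE n) V := by
              rw [e1]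
              apply hbig _ _ _ h
              rw [dist_add_right]
              exact hN
            have h4 : Real.exp (-WN V N (fun j => bN N j + k j / Real.sqrt 2)) ≤
                Real.exp (-(N * (δ / 2))) := by
              apply Real.exp_le_exp.2
              unfold WN
              have := mul_le_mul_of_nonneg_left h3 (Nat.cast_nonneg N : (0 : ℝ) ≤ N)
              linarith
            have a2 := exp_le_one' V N (fun j => bN N j - k j / Real.sqrt 2)
            calc _ ≤ Real.exp (-(N * (δ / 2))) * 1 :=
                  mul_le_mul h4 a2 (Real.exp_pos _).le (Real.exp_pos _).le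
              _ = _ := mul_one _
          · have h3 : δ / 2 ≤ Metric.infDist (WithLp.toLp 2
                (fun j => bN N j - k j / Real.sqrt 2) : EE n) V := by
              rw [e2]
              apply hbig _ _ _ h
              rw [dist_sub_right]
              exact hN
            have h4 : Real.exp (-WN V N (fun j => bN N j - k j / Real.sqrt 2)) ≤
                Real.exp (-(N * (δ / 2))) := by
              apply Real.exp_le_exp.2
              unfold WN
              have := mul_le_mul_of_nonneg_left h3 (Nat.cast_nonneg N : (0 : ℝ) ≤ N)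
              linarith
            have a1 := exp_le_one' V N (fun j => bN N j + k j / Real.sqrt 2)
            calc _ ≤ 1 * Real.exp (-(N * (δ / 2))) :=
                  mul_le_mul a1 h4 (Real.exp_pos _).le zero_le_one
              _ = _ := one_mul _
    have hlim : Tendsto (fun N : ℕ => (gm n (A δ)).toReal + Real.exp (-(N * (δ / 2)))) atTop
        (𝓝 ((gm n (A δ)).toReal + 0)) := by
      apply tendsto_const_nhds.add
      have h1 : Tendsto (fun N : ℕ => (N : ℝ) * (δ / 2)) atTop atTop :=
        tendsto_natCast_atTop_atTop.atTop_mul_const (by linarith)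
      exact Real.tendsto_exp_neg_atTop_nhds_zero.comp h1
    rw [add_zero] at hlim
    exact ge_of_tendsto hlim hbound
  -- the limit `δ → 0`
  have hinter : (WithLp.toLp 2 ⁻¹' (symB V b) : Set (Fin n → ℝ)) =
      ⋂ m : ℕ, A (1 / ((m : ℝ) + 1)) := by
    ext k
    rw [mem_iInter]
    constructor
    · rintro ⟨h1, h2⟩ m
      have hm : (0 : ℝ) ≤ 1 / ((m : ℝ) + 1) := by positivity
      refine ⟨?_, ?_⟩
      · rw [Metric.infDist_zero_of_mem h1]; exact hm
      · rw [Metric.infDist_zero_of_mem h2]; exact hm
    · intro h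
      have hz : ∀ x : EE n, (∀ m : ℕ, Metric.infDist x V ≤ 1 / ((m : ℝ) + 1)) → x ∈ V := by
        intro x hx
        rw [hV.mem_iff_infDist_zero hne]
        apply le_antisymm _ Metric.infDist_nonneg
        exact ge_of_tendsto tendsto_one_div_add_atTop_nhds_zero_nat (Eventually.of_forall hx)
      exact ⟨hz _ fun m => (h m).1, hz _ fun m => (h m).2⟩
  have hsymc : IsClosed (symB V b) := by
    have h1 : Continuous fun k : EE n => b + (√2)⁻¹ • k := by fun_prop
    have h2 : Continuous fun k : EE n => b - (√2)⁻¹ • k := by fun_prop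
    exact (hV.preimage h1).inter (hV.preimage h2)
  rw [std_apply hsymc.measurableSet, hinter]
  have hanti : Antitone fun m : ℕ => A (1 / ((m : ℝ) + 1)) := by
    intro m m' hmm k hk
    have : 1 / ((m' : ℝ) + 1) ≤ 1 / ((m : ℝ) + 1) := by
      apply one_div_le_one_div_of_le (by positivity)
      have : (m : ℝ) ≤ m' := by exact_mod_cast hmm
      linarith
    exact ⟨hk.1.trans this, hk.2.trans this⟩
  have hlim := tendsto_measure_iInter_atTop (μ := gm n)
    (fun m : ℕ => (hAc (1 / ((m : ℝ) + 1))).measurableSet.nullMeasurableSet) hanti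
    ⟨0, measure_ne_top _ _⟩
  have hlim2 := (ENNReal.continuousAt_toReal (measure_ne_top (gm n)
    (⋂ m : ℕ, A (1 / ((m : ℝ) + 1))))).tendsto.comp hlim
  refine ge_of_tendsto hlim2 (Eventually.of_forall fun m => ?_)
  exact hAδ _ (by positivity)

end Q189.GB
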