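import Pool.Agent.Q189.GBDefs
import Pool.Agent.Q189.GB3

/-!
# Vector balancing at the Gaussian centre of mass
-/

set_option autoImplicit false

open MeasureTheory ProbabilityTheory Set
open scoped ENNReal Pointwise

namespace Q189.GB

open Q189.GBDefs
open Pool.Agent.H460BZ (EE)

variable {n : ℕ}

theorem symB_closed {V : Set (EE n)} (hV : IsClosed V) (b : EE n) : IsClosed (symB V b) := by
  have h1 : Continuous fun k : EE n => b + (√2)⁻¹ • k := by fun_prop
  have h2 : Continuous fun k : EE n => b - (√2)⁻¹ • k := by fun_prop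
  exact (hV.preimage h1).inter (hV.preimage h2)

theorem symB_convex {V : Set (EE n)} (hc : Convex ℝ V) (b : EE n) : Convex ℝ (symB V b) := by
  rintro x ⟨hx1, hx2⟩ y ⟨hy1, hy2⟩ s t hs ht hst
  have hb : b = s • b + t • b := by rw [← add_smul, hst, one_smul]
  constructor
  · have := hc hx1 hy1 hs ht hst
    have e : s • (b + (√2)⁻¹ • x) + t • (b + (√2)⁻¹ • y) = b + (√2)⁻¹ • (s • x + t • y) := by
      rw [smul_add, smul_add, smul_add, smul_comm s, smul_comm t (√2)⁻¹]
      nth_rewrite 3 [hb]
      abel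
    rwa [e] at this
  · have := hc hx2 hy2 hs ht hst
    have e : s • (b - (√2)⁻¹ • x) + t • (b - (√2)⁻¹ • y) = b - (√2)⁻¹ • (s • x + t • y) := by
      rw [smul_sub, smul_sub, smul_add, smul_comm s, smul_comm t (√2)⁻¹]
      nth_rewrite 3 [hb]
      abel
    rwa [e] at this

theorem symB_symm {V : Set (EE n)} (b : EE n) : ∀ x ∈ symB V b, -x ∈ symB V b := by
  rintro x ⟨h1, h2⟩
  constructor
  · rw [smul_neg, ← sub_eq_add_neg]; exact h2
  · rw [smul_neg, sub_neg_eq_add]; exact h1

/-- the bound -/
noncomputable def bd (p : ℝ) : ℝ := 100 * √2 * tt (p ^ 2)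

theorem bd_pos {p : ℝ} (hp : 0 < p) : 0 < bd p := by
  unfold bd
  have := tt_pos (pow_pos hp 2)
  positivity

theorem bd_anti {p q : ℝ} (hp : 0 < p) (hpq : p ≤ q) : bd q ≤ bd p := by
  unfold bd
  have h := tt_anti (pow_pos hp 2) (pow_le_pow_left₀ hp.le hpq 2)
  exact mul_le_mul_of_nonneg_left h (by positivity)

/-- **Balancing at the Gaussian centre of mass.** -/
theorem main_balance {V : Set (EE n)} (hV : IsClosed V) (hc : Convex ℝ V)
    (hpos : 0 < (stdGaussian (EE n) V).toReal) (b : EE n)
    (hb : ∀ j, (stdGaussian (EE n) V).toReal * b j = ∫ x in V, x j ∂(stdGaussian (EE n))) :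
    Balances ((-b) +ᵥ V) (bd (stdGaussian (EE n) V).toReal) ∧ 0 ∈ interior ((-b) +ᵥ V) := by
  have hne : V.Nonempty := by
    by_contra h
    rw [Set.not_nonempty_iff_eq_empty] at h
    rw [h, measure_empty, ENNReal.toReal_zero] at hpos
    exact lt_irrefl _ hpos
  set p := (stdGaussian (EE n) V).toReal with hp
  have hq0 : 0 < p ^ 2 := pow_pos hpos 2
  have hq := sym_meas hV hne hc hpos b hb
  rw [← hp] at hq
  have hKc := symB_closed hV b
  have hKx := symB_convex hc b
  have hKs := symB_symm (V := V) b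
  have ht1 := tt_pos hq0
  have ht0 : 0 < tt (p ^ 2) := by linarith
  have hs2 : 0 < √2 := by positivity
  have hmemV : ∀ y : EE n, b + y ∈ V → y ∈ (-b) +ᵥ V := by
    intro y hy
    refine ⟨b + y, hy, ?_⟩
    simp only [vadd_eq_add]
    abel
  constructor
  · intro u hu
    set K' : Set (EE n) := {x | (tt (p ^ 2))⁻¹ • x ∈ symB V b} with hK'
    have hK'c : IsClosed K' := hKc.preimage (continuous_const_smul _)
    have hK'x : Convex ℝ K' := by
      intro x hx y hy s t hs ht hst
      have := hKx hx hy hs ht hst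
      simp only [hK', mem_setOf_eq]
      rw [smul_add, smul_comm _ s, smul_comm _ t]
      exact this
    have hK's : ∀ x ∈ K', -x ∈ K' := by
      intro x hx
      simp only [hK', mem_setOf_eq] at hx ⊢
      rw [smul_neg]
      exact hKs _ hx
    have hm := dilate hKc hKx hKs hq0 hq
    obtain ⟨σ, hσ, hmem⟩ := balance hK'c hK'x hK's hm n
      (fun i => if h : i < n then (1 / 100 : ℝ) • u ⟨i, h⟩ else 0) (by
        intro i hi
        simp only [hi, dif_pos]
        rw [norm_smul]
        have := hu ⟨i, hi⟩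
        norm_num
        linarith)
    refine ⟨fun i => σ i, fun i => hσ i, ?_⟩
    have hsum : ∑ i ∈ Finset.range n, σ i • (if h : i < n then (1 / 100 : ℝ) • u ⟨i, h⟩ else 0) =
        (1 / 100 : ℝ) • ∑ i : Fin n, σ i • u i := by
      rw [Finset.sum_range, Finset.smul_sum]
      refine Finset.sum_congr rfl fun i _ => ?_
      rw [dif_pos i.2, smul_comm]
    rw [hsum] at hmem
    set s : EE n := ∑ i : Fin n, σ i • u i with hs
    have h1 := hmem.1
    rw [smul_smul, smul_smul] at h1
    refine ⟨(√2)⁻¹ • ((tt (p ^ 2))⁻¹ * (1 / 100)) • s, ?_, ?_⟩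
    · apply hmemV
      rw [smul_smul, ← mul_assoc]
      exact h1
    · simp only
      rw [smul_smul, smul_smul]
      have e : bd p * (√2)⁻¹ * ((tt (p ^ 2))⁻¹ * (1 / 100)) = 1 := by
        unfold bd
        field_simp
      rw [e, one_smul]
  · rw [mem_interior]
    refine ⟨Metric.ball 0 (p ^ 2 / √2), ?_, Metric.isOpen_ball, Metric.mem_ball_self (by positivity)⟩
    intro y hy
    rw [mem_ball_zero_iff, lt_div_iff₀ hs2] at hy
    have h1 : ‖√2 • y‖ < p ^ 2 := by
      rw [norm_smul, Real.norm_of_nonneg hs2.le, mul_comm]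
      exact hy
    have h2 := ball_subset hKc hKx hKs hq0 hq h1
    have h3 := h2.1
    rw [smul_smul, inv_mul_cancel₀ hs2.ne', one_smul] at h3
    exact hmemV y h3

/-- open sets have positive Gaussian measure -/
theorem gauss_pos_of_interior {A : Set (EE n)} (hA : (interior A).Nonempty) :
    0 < stdGaussian (EE n) A := by
  have h1 : stdGaussian (EE n) = (volume : Measure (EE n)).withDensity
      (fun x => ENNReal.ofReal (dens n x)) := Pool.Agent.PZ871.M_gdens.gdens n
  have hd : Measurable fun x : EE n => ENNReal.ofReal (dens n x) :=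
    continuous_dens.measurable.ennreal_ofReal
  have hac : (volume : Measure (EE n)) ≪ stdGaussian (EE n) := by
    rw [h1]
    apply withDensity_absolutelyContinuous' hd.aemeasurable
    refine Filter.Eventually.of_forall fun x => ?_
    rw [Ne, ENNReal.ofReal_eq_zero, not_le]
    exact dens_pos x
  by_contra h
  rw [not_lt, nonpos_iff_eq_zero] at h
  have h2 := hac h
  have h3 : 0 < volume (interior A) := isOpen_interior.measure_pos volume hA
  have h4 := measure_mono (μ := (volume : Measure (EE n))) (interior_subset (s := A))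
  rw [h2] at h4
  exact absurd h3 (not_lt.2 h4)

theorem gauss_lt_one (hn : 1 ≤ n) {V : Set (EE n)} (hV : IsCompact V) :
    (stdGaussian (EE n) V).toReal < 1 := by
  have hne : (interior (Vᶜ)).Nonempty := by
    rw [hV.isClosed.isOpen_compl.interior_eq]
    rw [Set.nonempty_compl]
    intro h
    have hnc : NoncompactSpace (EE n) := by
      have : Nontrivial (EE n) := by
        have : Nonempty (Fin n) := ⟨⟨0, hn⟩⟩
        infer_instance
      infer_instance
    exact noncompact_univ (EE n) (h ▸ hV)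
  have h1 := gauss_pos_of_interior hne
  have h2 : (stdGaussian (EE n)).real (Vᶜ) = 1 - (stdGaussian (EE n)).real V :=
    probReal_compl_eq_one_sub hV.isClosed.measurableSet
  have h3 : 0 < (stdGaussian (EE n)).real (Vᶜ) := ENNReal.toReal_pos h1.ne' (measure_ne_top _ _)
  have h4 : (stdGaussian (EE n)).real V = (stdGaussian (EE n) V).toReal := rfl
  rw [← h4]
  linarith

theorem beta_le {W : Set (EE n)} {C : ℝ} (hC : 0 < C) (h : Balances W C) : beta W ≤ C :=
  csInf_le ⟨0, fun _ hD => hD.1.le⟩ ⟨hC, h⟩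

theorem beta_nonneg (W : Set (EE n)) : 0 ≤ beta W :=
  Real.sInf_nonneg fun _ hC => hC.1.le

/-- for every convex body there is a good translate -/
theorem exists_translate {V : Set (EE n)} (hV : IsConvexBody V) :
    ∃ x : EE n, 0 ∈ interior (x +ᵥ V) ∧ Balances (x +ᵥ V) (bd (gauss V)) := by
  have hpos : 0 < (stdGaussian (EE n) V).toReal :=
    ENNReal.toReal_pos (gauss_pos_of_interior hV.2.2).ne' (measure_ne_top _ _)
  set b : EE n := WithLp.toLp 2 fun j =>
    (∫ x in V, x j ∂(stdGaussian (EE n))) / (stdGaussian (EE n) V).toReal with hb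
  have h := main_balance hV.1.isClosed hV.2.1 hpos b (by
    intro j
    simp only [hb]
    rw [mul_div_cancel₀ _ hpos.ne'])
  exact ⟨-b, h.2, h.1⟩

theorem body_vadd {V : Set (EE n)} (hV : IsConvexBody V) (x : EE n) : IsConvexBody (x +ᵥ V) := by
  refine ⟨hV.1.vadd x, hV.2.1.vadd x, ?_⟩
  rw [interior_vadd]
  exact hV.2.2.vadd_set

theorem infBeta_le {V : Set (EE n)} (hV : IsConvexBody V) (y : EE n) :
    infBeta V ≤ bd (gauss (y +ᵥ V)) := by
  have hV' := body_vadd hV y
  obtain ⟨x, h1, h2⟩ := exists_translate hV'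
  have hpos : 0 < gauss (y +ᵥ V) :=
    ENNReal.toReal_pos (gauss_pos_of_interior hV'.2.2).ne' (measure_ne_top _ _)
  rw [← add_vadd] at h1 h2
  have hle : infBeta V ≤ beta ((x + y) +ᵥ V) := by
    apply csInf_le
    · refine ⟨0, ?_⟩
      rintro _ ⟨z, _, rfl⟩
      exact beta_nonneg _
    · exact ⟨x + y, h1, rfl⟩
  exact hle.trans (beta_le (bd_pos hpos) h2)

end Q189.GB
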