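import Mathlib

/-!
# Vector balancing in a convex body: definitions
-/

set_option autoImplicit false

open MeasureTheory ProbabilityTheory
open scoped Pointwise

namespace Q189.GBDefs

/-- every `n`-tuple of vectors of the Euclidean unit ball has a signed sum in `C W` -/
def Balances {n : ℕ} (W : Set (EuclideanSpace ℝ (Fin n))) (C : ℝ) : Prop :=
  ∀ u : Fin n → EuclideanSpace ℝ (Fin n), (∀ i, ‖u i‖ ≤ 1) →
    ∃ ε : Fin n → ℝ, (∀ i, ε i = 1 ∨ ε i = -1) ∧ ∑ i, ε i • u i ∈ C • W

/-- the vector balancing constant `β(B, W)` -/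
noncomputable def beta {n : ℕ} (W : Set (EuclideanSpace ℝ (Fin n))) : ℝ :=
  sInf {C | 0 < C ∧ Balances W C}

/-- the infimum of `β(B, V + x)` over all `x` such that `0` is an interior point of `V + x` -/
noncomputable def infBeta {n : ℕ} (V : Set (EuclideanSpace ℝ (Fin n))) : ℝ :=
  sInf {β | ∃ x : EuclideanSpace ℝ (Fin n), 0 ∈ interior (x +ᵥ V) ∧ β = beta (x +ᵥ V)}

/-- the standard Gaussian measure of `V` -/
noncomputable def gauss {n : ℕ} (V : Set (EuclideanSpace ℝ (Fin n))) : ℝ :=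
  (stdGaussian (EuclideanSpace ℝ (Fin n)) V).toReal

/-- convex bodies -/
def IsConvexBody {n : ℕ} (V : Set (EuclideanSpace ℝ (Fin n))) : Prop :=
  IsCompact V ∧ Convex ℝ V ∧ (interior V).Nonempty

end Q189.GBDefs
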