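import Pool.Agent.Q189.IsoDefs

/-!
# Isoptics: support lines
-/

set_option autoImplicit false

open Real

namespace Q189.Iso

open Q189.IsoDefs

/-- the scalar product with the unit vector of angle `θ` -/
noncomputable def dot (x : E2) (θ : ℝ) : ℝ := x 0 * cos θ + x 1 * sin θ

/-- the support function -/
noncomputable def hS (S : Set E2) (θ : ℝ) : ℝ := sSup ((fun x => dot x θ) '' S)

theorem dot_sub (x y : E2) (θ : ℝ) : dot (x - y) θ = dot x θ - dot y θ := by
  simp only [dot, PiLp.sub_apply]; ring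

theorem norm_sq (x : E2) : ‖x‖ ^ 2 = x 0 ^ 2 + x 1 ^ 2 := by
  rw [EuclideanSpace.norm_sq_eq, Fin.sum_univ_two]
  simp [sq_abs]

theorem inner_eq (x y : E2) : inner ℝ x y = x 0 * y 0 + x 1 * y 1 := by
  simp [PiLp.inner_apply, Fin.sum_univ_two]
  ring

theorem continuous_dot_left (θ : ℝ) : Continuous fun x : E2 => dot x θ := by
  unfold dot
  fun_prop

theorem continuous_dot_right (x : E2) : Continuous fun θ : ℝ => dot x θ := by
  unfold dot
  fun_prop

theorem dot_norm (x : E2) (θ : ℝ) : x 0 ^ 2 + x 1 ^ 2 = dot x θ ^ 2 + dot x (θ + π / 2) ^ 2 := by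
  unfold dot
  rw [cos_add_pi_div_two, sin_add_pi_div_two]
  have h1 := sin_sq_add_cos_sq θ
  have : sin θ ^ 2 = 1 - cos θ ^ 2 := by linarith
  ring_nf
  rw [this]
  ring

theorem dot_add (x : E2) (θ β : ℝ) :
    dot x (θ + β) = cos β * dot x θ + sin β * dot x (θ + π / 2) := by
  unfold dot
  rw [cos_add_pi_div_two, sin_add_pi_div_two, cos_add, sin_add]
  ring

theorem dot_sub_angle (x : E2) (θ β : ℝ) :
    dot x (θ - β) = cos β * dot x θ - sin β * dot x (θ + π / 2) := by
  unfold dot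
  rw [cos_add_pi_div_two, sin_add_pi_div_two, cos_sub, sin_sub]
  ring

/-- a vector orthogonal to two independent directions vanishes -/
theorem eq_zero_of_dot {x : E2} {θ β : ℝ} (hβ : sin β ≠ 0) (h1 : dot x θ = 0)
    (h2 : dot x (θ + β) = 0) : x = 0 := by
  rw [dot_add, h1] at h2
  have h3 : dot x (θ + π / 2) = 0 := by
    have : sin β * dot x (θ + π / 2) = 0 := by linarith
    exact (mul_eq_zero.1 this).resolve_left hβ
  have h4 := dot_norm x θ
  rw [h1, h3] at h4
  have h5 : x 0 = 0 := by nlinarith [sq_nonneg (x 0), sq_nonneg (x 1)]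
  have h6 : x 1 = 0 := by nlinarith [sq_nonneg (x 0), sq_nonneg (x 1)]
  ext i
  fin_cases i
  · exact h5
  · exact h6

/-- polar coordinates with the angle in a prescribed range -/
theorem exists_polar {v : E2} (a : ℝ) : ∃ φ, a ≤ φ ∧ φ < a + 2 * π ∧ v 0 = ‖v‖ * cos φ ∧
    v 1 = ‖v‖ * sin φ := by
  set z : ℂ := ⟨v 0, v 1⟩ with hz
  have hn : ‖z‖ = ‖v‖ := by
    have h1 : ‖z‖ ^ 2 = ‖v‖ ^ 2 := by
      rw [norm_sq, ← Complex.normSq_eq_norm_sq, Complex.normSq_apply]
      simp only [hz]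
      ring
    exact (pow_left_inj₀ (norm_nonneg _) (norm_nonneg _) two_ne_zero).1 h1
  have h1 := Complex.norm_mul_cos_arg z
  have h2 := Complex.norm_mul_sin_arg z
  rw [hn] at h1 h2
  have hmem := toIcoMod_mem_Ico Real.two_pi_pos a z.arg
  refine ⟨toIcoMod Real.two_pi_pos a z.arg, hmem.1, hmem.2, ?_, ?_⟩
  · have : cos (toIcoMod Real.two_pi_pos a z.arg) = cos z.arg := by
      unfold toIcoMod
      rw [zsmul_eq_mul, Real.cos_sub_int_mul_two_pi]
    rw [this, h1]
  · have : sin (toIcoMod Real.two_pi_pos a z.arg) = sin z.arg := by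
      unfold toIcoMod
      rw [zsmul_eq_mul, Real.sin_sub_int_mul_two_pi]
    rw [this, h2]

/-- the vectors in a cone have polar angles in an interval -/
theorem polar_cone {v : E2} (hv : v ≠ 0) {θ β : ℝ} (hβ0 : 0 < β) (hβ : β < π)
    (h1 : dot v θ ≤ 0) (h2 : dot v (θ + β) ≤ 0) : ∃ φ, θ + β + π / 2 ≤ φ ∧ φ ≤ θ + 3 * π / 2 ∧
      v 0 = ‖v‖ * cos φ ∧ v 1 = ‖v‖ * sin φ := by
  obtain ⟨φ, a1, a2, a3, a4⟩ := exists_polar (v := v) (θ + π / 2)
  have hn : 0 < ‖v‖ := norm_pos_iff.2 hv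
  have hd : ∀ t, dot v t = ‖v‖ * cos (φ - t) := by
    intro t
    unfold dot
    rw [a3, a4, cos_sub]
    ring
  rw [hd] at h1 h2
  have c1 : cos (φ - θ) ≤ 0 := by
    by_contra h
    push Not at h
    have := mul_pos hn h
    linarith
  have c2 : cos (φ - (θ + β)) ≤ 0 := by
    by_contra h
    push Not at h
    have := mul_pos hn h
    linarith
  have b1 : φ ≤ θ + 3 * π / 2 := by
    by_contra h
    push Not at h
    have : 0 < cos (φ - θ - 2 * π) := by
      apply cos_pos_of_mem_Ioo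
      constructor <;> linarith
    rw [cos_sub_two_pi] at this
    linarith
  refine ⟨φ, ?_, b1, a3, a4⟩
  by_contra h
  push Not at h
  have : 0 < cos (φ - (θ + β)) := by
    apply cos_pos_of_mem_Ioo
    constructor <;> linarith
  linarith

/-- the angle between two vectors in polar coordinates -/
theorem angle_polar {v w : E2} (hv : v ≠ 0) (hw : w ≠ 0) {φ ψ : ℝ} (hv0 : v 0 = ‖v‖ * cos φ)
    (hv1 : v 1 = ‖v‖ * sin φ) (hw0 : w 0 = ‖w‖ * cos ψ) (hw1 : w 1 = ‖w‖ * sin ψ)
    (h : |φ - ψ| ≤ π) : InnerProductGeometry.angle v w = |φ - ψ| := by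
  have hn : 0 < ‖v‖ := norm_pos_iff.2 hv
  have hm : 0 < ‖w‖ := norm_pos_iff.2 hw
  unfold InnerProductGeometry.angle
  rw [inner_eq]
  have e : (v 0 * w 0 + v 1 * w 1) / (‖v‖ * ‖w‖) = cos |φ - ψ| := by
    rw [cos_abs, cos_sub, div_eq_iff (by positivity)]
    rw [hv0, hv1, hw0, hw1]
    ring
  rw [e, arccos_cos (abs_nonneg _) h]

section
variable {S : Set E2} (hS1 : IsCompact S) (hS2 : S.Nonempty)

include hS1 in
theorem dot_le {x : E2} (hx : x ∈ S) (θ : ℝ) : dot x θ ≤ hS S θ := by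
  apply le_csSup
  · exact (hS1.image (continuous_dot_left θ)).bddAbove
  · exact ⟨x, hx, rfl⟩

include hS1 hS2 in
theorem exists_contact (θ : ℝ) : ∃ x ∈ S, dot x θ = hS S θ := by
  have := (hS1.image (continuous_dot_left θ)).sSup_mem (hS2.image _)
  obtain ⟨x, hx, h⟩ := this
  exact ⟨x, hx, h⟩

theorem hS_periodic (S : Set E2) (θ : ℝ) : hS S (θ + 2 * π) = hS S θ := by
  unfold hS
  congr 1
  refine Set.image_congr fun x _ => ?_
  simp only [dot, cos_add_two_pi, sin_add_two_pi]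

theorem abs_dot_sub (x : E2) (θ φ : ℝ) : dot x θ - dot x φ ≤ ‖x‖ * (2 * |θ - φ|) := by
  have h0 : |x 0| ≤ ‖x‖ := by
    have := EuclideanSpace.norm_eq x
    have := PiLp.norm_apply_le x 0
    simpa using this
  have h1 : |x 1| ≤ ‖x‖ := by
    have := PiLp.norm_apply_le x 1
    simpa using this
  have e : dot x θ - dot x φ = x 0 * (cos θ - cos φ) + x 1 * (sin θ - sin φ) := by
    unfold dot; ring
  rw [e]
  have c1 := Real.abs_cos_sub_cos_le θ φ
  have c2 := Real.abs_sin_sub_sin_le θ φ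
  calc x 0 * (cos θ - cos φ) + x 1 * (sin θ - sin φ)
      ≤ |x 0 * (cos θ - cos φ)| + |x 1 * (sin θ - sin φ)| :=
        add_le_add (le_abs_self _) (le_abs_self _)
    _ = |x 0| * |cos θ - cos φ| + |x 1| * |sin θ - sin φ| := by rw [abs_mul, abs_mul]
    _ ≤ ‖x‖ * |θ - φ| + ‖x‖ * |θ - φ| := by
        apply add_le_add
        · exact mul_le_mul h0 c1 (abs_nonneg _) (norm_nonneg _)
        · exact mul_le_mul h1 c2 (abs_nonneg _) (norm_nonneg _)
    _ = _ := by ring

include hS1 hS2 in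
theorem continuous_hS : Continuous (hS S) := by
  obtain ⟨M, hM⟩ := hS1.isBounded.exists_norm_le
  have hM0 : 0 ≤ M := by
    obtain ⟨x, hx⟩ := hS2
    exact (norm_nonneg x).trans (hM x hx)
  have key : ∀ θ φ, hS S θ - hS S φ ≤ 2 * M * |θ - φ| := by
    intro θ φ
    obtain ⟨x, hx, hxe⟩ := exists_contact hS1 hS2 θ
    have h1 := dot_le hS1 hx φ
    have h2 := abs_dot_sub x θ φ
    have h3 := hM x hx
    have h4 := mul_le_mul_of_nonneg_right h3 (show 0 ≤ 2 * |θ - φ| by positivity)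
    linarith
  have hL : LipschitzWith (Real.toNNReal (2 * M)) (hS S) := by
    apply LipschitzWith.of_dist_le_mul
    intro θ φ
    rw [Real.dist_eq, Real.dist_eq, Real.coe_toNNReal _ (by positivity)]
    rw [abs_le]
    have h1 := key θ φ
    have h2 := key φ θ
    rw [abs_sub_comm φ θ] at h2
    constructor <;> linarith
  exact hL.continuous

/-- the intersection point of the support lines with angles `θ` and `θ + β` -/
noncomputable def PP (S : Set E2) (β θ : ℝ) : E2 :=
  !₂[hS S θ * cos θ - (hS S (θ + β) - hS S θ * cos β) / sin β * sin θ,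
    hS S θ * sin θ + (hS S (θ + β) - hS S θ * cos β) / sin β * cos θ]

theorem dot_PP (S : Set E2) (β θ : ℝ) : dot (PP S β θ) θ = hS S θ := by
  unfold dot PP
  simp only [PiLp.toLp_apply, Matrix.cons_val_zero, Matrix.cons_val_one]
  have h1 := sin_sq_add_cos_sq θ
  have : sin θ ^ 2 = 1 - cos θ ^ 2 := by linarith
  ring_nf
  rw [this]
  ring

theorem dot_PP_half (S : Set E2) (β θ : ℝ) : dot (PP S β θ) (θ + π / 2) =
    (hS S (θ + β) - hS S θ * cos β) / sin β := by
  unfold dot PP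
  rw [cos_add_pi_div_two, sin_add_pi_div_two]
  simp only [PiLp.toLp_apply, Matrix.cons_val_zero, Matrix.cons_val_one]
  have h1 := sin_sq_add_cos_sq θ
  generalize (hS S (θ + β) - hS S θ * cos β) / sin β = y
  have : sin θ ^ 2 = 1 - cos θ ^ 2 := by linarith
  ring_nf
  rw [this]
  ring

theorem dot_PP_add (S : Set E2) {β : ℝ} (hβ : sin β ≠ 0) (θ : ℝ) :
    dot (PP S β θ) (θ + β) = hS S (θ + β) := by
  rw [dot_add, dot_PP, dot_PP_half]
  field_simp
  ring

include hS1 hS2 in
theorem continuous_PP (β : ℝ) : Continuous (PP S β) := by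
  have h := continuous_hS hS1 hS2
  unfold PP
  refine (PiLp.continuous_toLp 2 _).comp ?_
  refine continuous_pi fun i => ?_
  fin_cases i
  · simp only [Fin.zero_eta, Matrix.cons_val_zero]
    fun_prop
  · simp only [Fin.mk_one, Matrix.cons_val_one, Matrix.cons_val_zero]
    fun_prop

theorem PP_periodic (S : Set E2) (β θ : ℝ) : PP S β (θ + 2 * π) = PP S β θ := by
  unfold PP
  have e : θ + 2 * π + β = θ + β + 2 * π := by ring
  rw [e, hS_periodic, hS_periodic, cos_add_two_pi, sin_add_two_pi]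

include hS1 hS2 in
/-- the intersection point lies on the isoptic when it is not in the set -/
theorem PP_mem_isoptic {β : ℝ} (hβ0 : 0 < β) (hβ : β < π) (θ : ℝ) (h : PP S β θ ∉ S) :
    PP S β θ ∈ isoptic S (π - β) := by
  refine ⟨h, ?_⟩
  set P := PP S β θ with hP
  have hsin : 0 < sin β := sin_pos_of_pos_of_lt_pi hβ0 hβ
  have hne : ∀ x ∈ S, x - P ≠ 0 := by
    intro x hx h0
    apply h
    rw [sub_eq_zero.1 h0] at hx
    exact hx
  have hc1 : ∀ x ∈ S, dot (x - P) θ ≤ 0 := by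
    intro x hx
    rw [dot_sub, hP, dot_PP]
    have := dot_le hS1 hx θ
    linarith
  have hc2 : ∀ x ∈ S, dot (x - P) (θ + β) ≤ 0 := by
    intro x hx
    rw [dot_sub, hP, dot_PP_add S hsin.ne']
    have := dot_le hS1 hx (θ + β)
    linarith
  have hpol := fun x (hx : x ∈ S) => polar_cone (hne x hx) hβ0 hβ (hc1 x hx) (hc2 x hx)
  unfold sightAngle
  apply IsGreatest.csSup_eq
  constructor
  · obtain ⟨x, hx, hxe⟩ := exists_contact hS1 hS2 θ
    obtain ⟨y, hy, hye⟩ := exists_contact hS1 hS2 (θ + β)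
    refine ⟨x, hx, y, hy, ?_⟩
    obtain ⟨φ, a1, a2, a3, a4⟩ := hpol x hx
    obtain ⟨ψ, b1, b2, b3, b4⟩ := hpol y hy
    have hd : ∀ t, dot (x - P) t = ‖x - P‖ * cos (φ - t) := by
      intro t
      unfold dot
      rw [a3, a4, cos_sub]
      ring
    have hd' : ∀ t, dot (y - P) t = ‖y - P‖ * cos (ψ - t) := by
      intro t
      unfold dot
      rw [b3, b4, cos_sub]
      ring
    have hn : 0 < ‖x - P‖ := norm_pos_iff.2 (hne x hx)
    have hm : 0 < ‖y - P‖ := norm_pos_iff.2 (hne y hy)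
    have e1 : cos (φ - θ) = 0 := by
      have h1 : dot (x - P) θ = 0 := by
        rw [dot_sub, hP, dot_PP, hxe, sub_self]
      rw [hd] at h1
      exact (mul_eq_zero.1 h1).resolve_left hn.ne'
    have e2 : cos (ψ - (θ + β)) = 0 := by
      have h1 : dot (y - P) (θ + β) = 0 := by
        rw [dot_sub, hP, dot_PP_add S hsin.ne', hye, sub_self]
      rw [hd'] at h1
      exact (mul_eq_zero.1 h1).resolve_left hm.ne'
    have f1 : φ = θ + 3 * π / 2 := by
      by_contra hne'
      have hlt : φ < θ + 3 * π / 2 := lt_of_le_of_ne a2 hne'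
      have : cos (φ - θ) < 0 := by
        apply cos_neg_of_pi_div_two_lt_of_lt <;> linarith
      linarith
    have f2 : ψ = θ + β + π / 2 := by
      by_contra hne'
      have hlt : θ + β + π / 2 < ψ := lt_of_le_of_ne b1 (Ne.symm hne')
      have : cos (ψ - (θ + β)) < 0 := by
        apply cos_neg_of_pi_div_two_lt_of_lt <;> linarith
      linarith
    have habs : |φ - ψ| = π - β := by
      rw [f1, f2, abs_of_nonneg (by linarith)]
      ring
    unfold EuclideanGeometry.angle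
    rw [vsub_eq_sub, vsub_eq_sub, angle_polar (hne x hx) (hne y hy) a3 a4 b3 b4 (by
      rw [habs]; linarith), habs]
  · rintro t ⟨x, hx, y, hy, rfl⟩
    obtain ⟨φ, a1, a2, a3, a4⟩ := hpol x hx
    obtain ⟨ψ, b1, b2, b3, b4⟩ := hpol y hy
    have habs : |φ - ψ| ≤ π - β := by
      rw [abs_le]
      constructor <;> linarith
    unfold EuclideanGeometry.angle
    rw [vsub_eq_sub, vsub_eq_sub, angle_polar (hne x hx) (hne y hy) a3 a4 b3 b4 (by
      linarith)]
    exact habs

end

end Q189.Iso
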