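import Pool.Agent.Q189.Iso1

/-!
# Isoptics: consequences of a circular isoptic
-/

set_option autoImplicit false

open Real

namespace Q189.Iso

open Q189.IsoDefs

section
variable {S : Set E2} (hS1 : IsCompact S) (hS2 : S.Nonempty)

include hS1 in
/-- the intersection point is locally constant as long as it is in the set -/
theorem PP_eq {β : ℝ} (hβ0 : 0 < β) (hβ : β < π) {t r : ℝ} (hr0 : 0 ≤ r) (hr : r < β)
    (h1 : PP S β t ∈ S) (h2 : PP S β (t + r) ∈ S) : PP S β (t + r) = PP S β t := by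
  rcases hr0.eq_or_lt with h | hr0
  · rw [← h, add_zero]
  have hsin : 0 < sin β := sin_pos_of_pos_of_lt_pi hβ0 hβ
  have hs1 : 0 < sin r := sin_pos_of_pos_of_lt_pi hr0 (by linarith)
  have hs2 : 0 < sin (β - r) := sin_pos_of_pos_of_lt_pi (by linarith) (by linarith)
  have a1 : dot (PP S β (t + r) - PP S β t) t ≤ 0 := by
    rw [dot_sub, dot_PP]
    have := dot_le hS1 h2 t
    linarith
  have a2 : dot (PP S β (t + r) - PP S β t) (t + β) ≤ 0 := by
    rw [dot_sub, dot_PP_add S hsin.ne']
    have := dot_le hS1 h2 (t + β)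
    linarith
  have a3 : 0 ≤ dot (PP S β (t + r) - PP S β t) (t + r) := by
    rw [dot_sub, dot_PP]
    have := dot_le hS1 h1 (t + r)
    linarith
  set v := PP S β (t + r) - PP S β t with hv
  have e : sin β * dot v (t + r) = sin (β - r) * dot v t + sin r * dot v (t + β) := by
    rw [dot_add v t r, dot_add v t β, sin_sub]
    ring
  have b1 : dot v t = 0 := by
    by_contra hne
    have hlt : dot v t < 0 := lt_of_le_of_ne a1 hne
    have := mul_neg_of_pos_of_neg hs2 hlt
    have := mul_nonpos_of_nonneg_of_nonpos hs1.le a2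
    have := mul_nonneg hsin.le a3
    linarith
  have b2 : dot v (t + β) = 0 := by
    by_contra hne
    have hlt : dot v (t + β) < 0 := lt_of_le_of_ne a2 hne
    have := mul_neg_of_pos_of_neg hs1 hlt
    have := mul_nonpos_of_nonneg_of_nonpos hs2.le a1
    have := mul_nonneg hsin.le a3
    linarith
  exact sub_eq_zero.1 (eq_zero_of_dot hsin.ne' b1 b2)

include hS1 in
theorem PP_const {β : ℝ} (hβ0 : 0 < β) (hβ : β < π) {a b : ℝ}
    (h : ∀ t ∈ Set.Icc a b, PP S β t ∈ S) : ∀ t ∈ Set.Icc a b, PP S β t = PP S β b := by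
  have key : ∀ n : ℕ, ∀ t ∈ Set.Icc a b, b - t ≤ n * (β / 2) → PP S β t = PP S β b := by
    intro n
    induction n with
    | zero =>
      intro t ht hbt
      have : t = b := by
        simp only [Nat.cast_zero, zero_mul] at hbt
        linarith [ht.2]
      rw [this]
    | succ n ih =>
      intro t ht hbt
      push_cast at hbt
      by_cases hc : t + β / 2 ≤ b
      · have h1 : t + β / 2 ∈ Set.Icc a b := ⟨by linarith [ht.1], hc⟩
        rw [← ih _ h1 (by linarith)]
        exact (PP_eq hS1 hβ0 hβ (by linarith) (by linarith) (h t ht) (h _ h1)).symm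
      · push Not at hc
        have e : b = t + (b - t) := by ring
        rw [e]
        refine (PP_eq hS1 hβ0 hβ (by linarith [ht.2]) (by linarith) (h t ht) ?_).symm
        rw [← e]
        exact h b ⟨ht.1.trans ht.2, le_rfl⟩
  intro t ht
  obtain ⟨n, hn⟩ := exists_nat_ge ((b - t) / (β / 2))
  rw [div_le_iff₀ (by linarith)] at hn
  exact key n t ht hn

include hS1 hS2 in
/-- if the intersection point is always in the set, the set is a point -/
theorem subsingleton_of_const {p : E2} (h : ∀ θ, hS S θ = dot p θ) : S = {p} := by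
  apply Set.eq_singleton_iff_nonempty_unique_mem.2
  refine ⟨hS2, fun x hx => ?_⟩
  have h0 : ∀ θ, dot (x - p) θ ≤ 0 := by
    intro θ
    rw [dot_sub, ← h]
    have := dot_le hS1 hx θ
    linarith
  have h1 : ∀ θ, dot (x - p) θ = 0 := by
    intro θ
    have a := h0 θ
    have b := h0 (θ + π)
    have e : dot (x - p) (θ + π) = -dot (x - p) θ := by
      unfold dot
      rw [cos_add_pi, sin_add_pi]
      ring
    rw [e] at b
    linarith
  exact sub_eq_zero.1 (eq_zero_of_dot (β := π / 2) (by rw [sin_pi_div_two]; exact one_ne_zero)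
    (h1 0) (h1 _))

include hS1 hS2 in
theorem exists_notMem (hnt : S.Nontrivial) {β : ℝ} (hβ0 : 0 < β) (hβ : β < π) (a : ℝ) :
    ∃ t, a ≤ t ∧ t ≤ a + 2 * π ∧ PP S β t ∉ S := by
  by_contra hcon
  push Not at hcon
  have hc := PP_const hS1 hβ0 hβ (a := a) (b := a + 2 * π) (fun t ht => hcon t ht.1 ht.2)
  have hall : ∀ θ, hS S θ = dot (PP S β (a + 2 * π)) θ := by
    intro θ
    set t := toIcoMod Real.two_pi_pos a θ with ht
    have hmem := toIcoMod_mem_Ico Real.two_pi_pos a θ
    have e : PP S β t = PP S β θ := by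
      have hper : Function.Periodic (PP S β) (2 * π) := fun θ => PP_periodic S β θ
      rw [ht]
      unfold toIcoMod
      exact hper.sub_zsmul_eq _
    rw [← hc t ⟨hmem.1, hmem.2.le⟩, e, dot_PP]
  have := subsingleton_of_const hS1 hS2 hall
  rw [this] at hnt
  exact Set.not_nontrivial_singleton hnt

include hS1 hS2 in
/-- the intersection points lie on the circle -/
theorem PP_mem_sphere (hnt : S.Nontrivial) {β : ℝ} (hβ0 : 0 < β) (hβ : β < π) {O : E2} {R : ℝ}
    (hiso : isoptic S (π - β) ⊆ Metric.sphere O R) (θ : ℝ) : PP S β θ ∈ Metric.sphere O R := by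
  have hcl : IsClosed S := hS1.isClosed
  have hcont := continuous_PP hS1 hS2 β
  set A : Set ℝ := {t | t ≤ θ ∧ PP S β t ∉ S} with hA
  have hAS : ∀ t ∈ A, PP S β t ∈ Metric.sphere O R := fun t ht =>
    hiso (PP_mem_isoptic hS1 hS2 hβ0 hβ t ht.2)
  have hAne : A.Nonempty := by
    obtain ⟨t, _, ht2, ht3⟩ := exists_notMem hS1 hS2 hnt hβ0 hβ (θ - 2 * π)
    exact ⟨t, by linarith, ht3⟩
  have hAb : BddAbove A := ⟨θ, fun t ht => ht.1⟩
  set s := sSup A with hs
  have hsc : s ∈ closure A := csSup_mem_closure hAne hAb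
  have hsθ : s ≤ θ := csSup_le hAne fun t ht => ht.1
  have hsS : PP S β s ∈ Metric.sphere O R := by
    have h1 : IsClosed (PP S β ⁻¹' Metric.sphere O R) := Metric.isClosed_sphere.preimage hcont
    exact (closure_minimal (fun t ht => hAS t ht) h1) hsc
  rcases hsθ.eq_or_lt with h | h
  · rw [← h]; exact hsS
  · have h1 : ∀ t ∈ Set.Ioc s θ, PP S β t ∈ S := by
      intro t ht
      by_contra hc
      have : t ≤ s := le_csSup hAb ⟨ht.2, hc⟩
      linarith [ht.1]
    have h2 : ∀ t ∈ Set.Icc s θ, PP S β t ∈ S := by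
      have hc1 : IsClosed (PP S β ⁻¹' S) := hcl.preimage hcont
      have hsub : closure (Set.Ioc s θ) ⊆ PP S β ⁻¹' S := closure_minimal h1 hc1
      rw [closure_Ioc h.ne] at hsub
      exact hsub
    rw [← PP_const hS1 hβ0 hβ h2 s ⟨le_rfl, h.le⟩]
    exact hsS

theorem dist_eq_of_sphere {O P : E2} {R : ℝ} (h : P ∈ Metric.sphere O R) (θ : ℝ) :
    dot (P - O) θ ^ 2 + dot (P - O) (θ + π / 2) ^ 2 = R ^ 2 := by
  rw [mem_sphere_iff_norm] at h
  rw [← dot_norm, ← norm_sq, h]

include hS1 hS2 in
/-- **The functional equation of a circular isoptic.** -/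
theorem func_eq (hnt : S.Nontrivial) {β : ℝ} (hβ0 : 0 < β) (hβ : β < π) {O : E2} {R : ℝ}
    (hiso : isoptic S (π - β) ⊆ Metric.sphere O R) (θ : ℝ) :
    (hS S (θ + β) - dot O (θ + β) = hS S (θ - β) - dot O (θ - β)) ∧
    (hS S (θ + β) - dot O (θ + β) = cos β * (hS S θ - dot O θ) +
      sin β * √(R ^ 2 - (hS S θ - dot O θ) ^ 2)) ∧ (hS S θ - dot O θ) ^ 2 ≤ R ^ 2 := by
  have hsin : 0 < sin β := sin_pos_of_pos_of_lt_pi hβ0 hβ
  have hcl : IsClosed S := hS1.isClosed
  have hP := PP_mem_sphere hS1 hS2 hnt hβ0 hβ hiso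
  have hcont := continuous_PP hS1 hS2 β
  -- the two points on the support line
  set y1 : ℝ → ℝ := fun θ => dot (PP S β θ - O) (θ + π / 2) with hy1
  set y2 : ℝ → ℝ := fun θ => dot (PP S β (θ - β) - O) (θ + π / 2) with hy2
  have hx1 : ∀ θ, dot (PP S β θ - O) θ = hS S θ - dot O θ := by
    intro θ; rw [dot_sub, dot_PP]
  have hx2 : ∀ θ, dot (PP S β (θ - β) - O) θ = hS S θ - dot O θ := by
    intro θ
    have := dot_PP_add S hsin.ne' (θ - β)
    rw [sub_add_cancel] at this
    rw [dot_sub, this]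
  have hz1 : ∀ θ, hS S (θ + β) - dot O (θ + β) =
      cos β * (hS S θ - dot O θ) + sin β * y1 θ := by
    intro θ
    have h1 : dot (PP S β θ - O) (θ + β) = hS S (θ + β) - dot O (θ + β) := by
      rw [dot_sub, dot_PP_add S hsin.ne']
    rw [← h1, dot_add, hx1]
  have hz2 : ∀ θ, hS S (θ - β) - dot O (θ - β) =
      cos β * (hS S θ - dot O θ) - sin β * y2 θ := by
    intro θ
    have h1 : dot (PP S β (θ - β) - O) (θ - β) = hS S (θ - β) - dot O (θ - β) := by
      rw [dot_sub, dot_PP]
    rw [← h1, dot_sub_angle, hx2]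
  have hq1 : ∀ θ, (hS S θ - dot O θ) ^ 2 + y1 θ ^ 2 = R ^ 2 := by
    intro θ
    have := dist_eq_of_sphere (hP θ) θ
    rw [hx1] at this
    exact this
  have hq2 : ∀ θ, (hS S θ - dot O θ) ^ 2 + y2 θ ^ 2 = R ^ 2 := by
    intro θ
    have := dist_eq_of_sphere (hP (θ - β)) θ
    rw [hx2] at this
    exact this
  -- the contact point is between them
  have hF : ∀ θ, ∃ F ∈ S, dot F θ = hS S θ ∧ dot (F - O) (θ + π / 2) ≤ y1 θ ∧
      y2 θ ≤ dot (F - O) (θ + π / 2) := by
    intro θ
    obtain ⟨F, hF, hFe⟩ := exists_contact hS1 hS2 θ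
    refine ⟨F, hF, hFe, ?_, ?_⟩
    · have h1 := dot_le hS1 hF (θ + β)
      have h2 := hz1 θ
      have h3 : dot (F - O) (θ + β) = cos β * dot (F - O) θ + sin β * dot (F - O) (θ + π / 2) :=
        dot_add _ _ _
      rw [dot_sub F O θ, hFe] at h3
      rw [dot_sub F O (θ + β)] at h3
      have h4 : sin β * dot (F - O) (θ + π / 2) ≤ sin β * y1 θ := by linarith
      exact le_of_mul_le_mul_left h4 hsin
    · have h1 := dot_le hS1 hF (θ - β)
      have h2 := hz2 θ
      have h3 : dot (F - O) (θ - β) = cos β * dot (F - O) θ - sin β * dot (F - O) (θ + π / 2) :=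
        dot_sub_angle _ _ _
      rw [dot_sub F O θ, hFe] at h3
      rw [dot_sub F O (θ - β)] at h3
      have h4 : sin β * y2 θ ≤ sin β * dot (F - O) (θ + π / 2) := by linarith
      exact le_of_mul_le_mul_left h4 hsin
  have hle : ∀ θ, y2 θ ≤ y1 θ := by
    intro θ
    obtain ⟨F, _, _, h1, h2⟩ := hF θ
    exact h2.trans h1
  -- when they coincide, the point is in the set
  have hcoin : ∀ θ, y1 θ = y2 θ → PP S β θ ∈ S ∧ PP S β (θ - β) = PP S β θ := by
    intro θ h
    obtain ⟨F, hF, hFe, h1, h2⟩ := hF θ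
    have h3 : dot (F - O) (θ + π / 2) = y1 θ := le_antisymm h1 (h ▸ h2)
    have e1 : PP S β θ = F := by
      apply sub_eq_zero.1
      apply eq_zero_of_dot (β := π / 2) (θ := θ) (by rw [sin_pi_div_two]; exact one_ne_zero)
      · rw [dot_sub, dot_PP, hFe, sub_self]
      · have h4 : dot (F - O) (θ + π / 2) = dot (PP S β θ - O) (θ + π / 2) := h3
        rw [dot_sub, dot_sub] at h4
        rw [dot_sub]
        linarith
    have e2 : PP S β (θ - β) = F := by
      apply sub_eq_zero.1
      apply eq_zero_of_dot (β := π / 2) (θ := θ) (by rw [sin_pi_div_two]; exact one_ne_zero)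
      · have h5 := hx2 θ
        rw [dot_sub] at h5
        rw [dot_sub, hFe]
        linarith
      · have h4 : dot (F - O) (θ + π / 2) = dot (PP S β (θ - β) - O) (θ + π / 2) := by
          rw [h3, h]
        rw [dot_sub, dot_sub] at h4
        rw [dot_sub]
        linarith
    exact ⟨e1 ▸ hF, e2.trans e1.symm⟩
  set G : ℝ → ℝ := fun θ => y1 θ + y2 θ with hG
  have hcy1 : Continuous y1 := by
    have : y1 = fun θ => dot (PP S β θ - O) (θ + π / 2) := rfl
    rw [this]
    unfold dot
    fun_prop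
  have hcy2 : Continuous y2 := by
    have : y2 = fun θ => dot (PP S β (θ - β) - O) (θ + π / 2) := rfl
    rw [this]
    unfold dot
    fun_prop
  have hcG : Continuous G := hcy1.add hcy2
  have hbad : ∀ θ, G θ ≠ 0 → y1 θ = y2 θ := by
    intro θ h
    have h1 : (y1 θ - y2 θ) * (y1 θ + y2 θ) = 0 := by
      have a := hq1 θ
      have b := hq2 θ
      nlinarith
    rcases mul_eq_zero.1 h1 with h2 | h2
    · linarith
    · exact absurd h2 h
  have hG0 : ∀ θ, G θ = 0 := by
    intro θ0
    by_contra hne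
    -- zeros to the left and to the right
    have hzero : ∀ c, ∃ t, c ≤ t ∧ t ≤ c + 2 * π ∧ G t = 0 := by
      intro c
      obtain ⟨t, t1, t2, t3⟩ := exists_notMem hS1 hS2 hnt hβ0 hβ c
      refine ⟨t, t1, t2, ?_⟩
      by_contra h
      exact t3 (hcoin t (hbad t h)).1
    set A : Set ℝ := {t | t ≤ θ0 ∧ G t = 0} with hA
    set B : Set ℝ := {t | θ0 ≤ t ∧ G t = 0} with hB
    have hAne : A.Nonempty := by
      obtain ⟨t, _, t2, t3⟩ := hzero (θ0 - 2 * π)
      exact ⟨t, by linarith, t3⟩
    have hBne : B.Nonempty := by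
      obtain ⟨t, t1, _, t3⟩ := hzero θ0
      exact ⟨t, t1, t3⟩
    have hAb : BddAbove A := ⟨θ0, fun t ht => ht.1⟩
    have hBb : BddBelow B := ⟨θ0, fun t ht => ht.1⟩
    have hAc : IsClosed A := (isClosed_le continuous_id continuous_const).inter
      (isClosed_eq hcG continuous_const)
    have hBc : IsClosed B := (isClosed_le continuous_const continuous_id).inter
      (isClosed_eq hcG continuous_const)
    obtain ⟨ha1, ha2⟩ : sSup A ∈ A := hAc.csSup_mem hAne hAb
    obtain ⟨hb1, hb2⟩ : sInf B ∈ B := hBc.csInf_mem hBne hBb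
    set a := sSup A with ha
    set b := sInf B with hb
    have haθ : a < θ0 := lt_of_le_of_ne ha1 (fun h => hne (h ▸ ha2))
    have hθb : θ0 < b := lt_of_le_of_ne hb1 (fun h => hne (h ▸ hb2))
    have hin : ∀ t ∈ Set.Ioo a b, G t ≠ 0 := by
      intro t ht h0
      rcases le_total t θ0 with h | h
      · have : t ≤ a := le_csSup hAb ⟨h, h0⟩
        linarith [ht.1]
      · have : b ≤ t := csInf_le hBb ⟨h, h0⟩
        linarith [ht.2]
    have heq : ∀ t ∈ Set.Icc a b, y1 t = y2 t := by
      have hc1 : IsClosed {t | y1 t = y2 t} := isClosed_eq hcy1 hcy2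
      have hsub : closure (Set.Ioo a b) ⊆ {t | y1 t = y2 t} :=
        closure_minimal (fun t ht => hbad t (hin t ht)) hc1
      rw [closure_Ioo (by linarith)] at hsub
      exact hsub
    have hmem : ∀ t ∈ Set.Icc a b, PP S β t ∈ S := fun t ht => (hcoin t (heq t ht)).1
    have hconst := PP_const hS1 hβ0 hβ hmem
    set p := PP S β b with hp
    have hya : y1 a = 0 := by
      have h1 := heq a ⟨le_rfl, by linarith⟩
      have h2 : y1 a + y2 a = 0 := ha2
      linarith
    have hyb : y1 b = 0 := by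
      have h1 := heq b ⟨by linarith, le_rfl⟩
      have h2 : y1 b + y2 b = 0 := hb2
      linarith
    have hy0 : y1 θ0 ≠ 0 := by
      intro h
      have h1 := heq θ0 ⟨haθ.le, hθb.le⟩
      apply hne
      change y1 θ0 + y2 θ0 = 0
      rw [← h1, h]; ring
    have hval : ∀ t ∈ Set.Icc a b, y1 t = dot (p - O) (t + π / 2) := by
      intro t ht
      change dot (PP S β t - O) (t + π / 2) = _
      rw [hconst t ht]
    rw [hval a ⟨le_rfl, by linarith⟩] at hya
    rw [hval b ⟨by linarith, le_rfl⟩] at hyb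
    rw [hval θ0 ⟨haθ.le, hθb.le⟩] at hy0
    have hlen : π ≤ b - a := by
      by_contra hlt
      push Not at hlt
      have hs : sin (b - a) ≠ 0 := (sin_pos_of_pos_of_lt_pi (by linarith) hlt).ne'
      have e : b + π / 2 = (a + π / 2) + (b - a) := by ring
      rw [e] at hyb
      have h0 := eq_zero_of_dot hs hya hyb
      apply hy0
      rw [h0]
      simp [dot]
    -- the normal cone is too large
    have hv1 : ∀ t ∈ Set.Icc a b, hS S t = dot p t := by
      intro t ht
      rw [← hconst t ht, dot_PP]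
    have hv2 : ∀ t ∈ Set.Icc a b, hS S (t - β) = dot p (t - β) := by
      intro t ht
      rw [← hconst t ht, ← (hcoin t (heq t ht)).2, dot_PP]
    have hneg : ∀ (x : E2) (t : ℝ), dot x (t + π) = -dot x t := by
      intro x t
      unfold dot
      rw [cos_add_pi, sin_add_pi]
      ring
    have hpt : ∀ x ∈ S, x = p := by
      intro x hx
      apply sub_eq_zero.1
      have k1 : ∀ t, hS S t = dot p t → hS S (t + π) = dot p (t + π) → dot (x - p) t = 0 := by
        intro t h1 h2
        have a1 := dot_le hS1 hx t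
        have a2 := dot_le hS1 hx (t + π)
        rw [h1] at a1
        rw [h2, hneg, hneg] at a2
        rw [dot_sub]
        linarith
      have c1 : dot (x - p) a = 0 := k1 a (hv1 a ⟨le_rfl, by linarith⟩)
        (hv1 (a + π) ⟨by linarith [pi_pos], by linarith⟩)
      have c2 : dot (x - p) (a - β) = 0 := k1 (a - β) (hv2 a ⟨le_rfl, by linarith⟩) (by
        have := hv2 (a + π) ⟨by linarith [pi_pos], by linarith⟩
        have e : a + π - β = a - β + π := by ring
        rw [e] at this
        exact this)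
      apply eq_zero_of_dot (β := β) (θ := a - β) hsin.ne' c2
      rw [sub_add_cancel]
      exact c1
    obtain ⟨x, hx, y, hy, hxy⟩ := hnt
    exact hxy ((hpt x hx).trans (hpt y hy).symm)
  have h0 : y1 θ + y2 θ = 0 := hG0 θ
  have h1 := hle θ
  have hy1n : 0 ≤ y1 θ := by linarith
  refine ⟨?_, ?_, ?_⟩
  · rw [hz1, hz2]
    have : y2 θ = -y1 θ := by linarith
    rw [this]; ring
  · rw [hz1]
    congr 2
    have : R ^ 2 - (hS S θ - dot O θ) ^ 2 = y1 θ ^ 2 := by linarith [hq1 θ]
    rw [this, sqrt_sq hy1n]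
  · have := hq1 θ
    nlinarith [sq_nonneg (y1 θ)]

end

end Q189.Iso
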