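import Pool.Agent.Q189.Iso2

/-!
# Isoptics: two circular isoptics
-/

set_option autoImplicit false

open Real

namespace Q189.Iso

open Q189.IsoDefs

theorem involution_anti {m M : ℝ} (hmM : m < M) {T : ℝ → ℝ} (hc : Continuous T)
    (hinv : ∀ x ∈ Set.Icc m M, T (T x) = x) (hmap : ∀ x ∈ Set.Icc m M, T x ∈ Set.Icc m M)
    (hid : ∃ x ∈ Set.Icc m M, T x ≠ x) : StrictAntiOn T (Set.Icc m M) := by
  have hinj : Set.InjOn T (Set.Icc m M) := by
    intro x hx y hy h
    rw [← hinv x hx, ← hinv y hy, h]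
  rcases hc.continuousOn.strictMonoOn_of_injOn_Icc' hmM.le hinj with h | h
  · exfalso
    obtain ⟨x, hx, hne⟩ := hid
    rcases lt_or_gt_of_ne hne with hlt | hlt
    · have := h (hmap x hx) hx hlt
      rw [hinv x hx] at this
      linarith
    · have := h hx (hmap x hx) hlt
      rw [hinv x hx] at this
      linarith
  · exact h

theorem involutions_eq {m M : ℝ} (hmM : m < M) {T₁ T₂ : ℝ → ℝ} (hc1 : Continuous T₁)
    (hc2 : Continuous T₂)
    (hinv1 : ∀ x ∈ Set.Icc m M, T₁ (T₁ x) = x) (hinv2 : ∀ x ∈ Set.Icc m M, T₂ (T₂ x) = x)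
    (hmap1 : ∀ x ∈ Set.Icc m M, T₁ x ∈ Set.Icc m M) (hmap2 : ∀ x ∈ Set.Icc m M, T₂ x ∈ Set.Icc m M)
    (hcomm : ∀ x ∈ Set.Icc m M, T₁ (T₂ x) = T₂ (T₁ x))
    (hid1 : ∃ x ∈ Set.Icc m M, T₁ x ≠ x) (hid2 : ∃ x ∈ Set.Icc m M, T₂ x ≠ x) :
    ∀ x ∈ Set.Icc m M, T₁ x = T₂ x := by
  have h1 := involution_anti hmM hc1 hinv1 hmap1 hid1
  have h2 := involution_anti hmM hc2 hinv2 hmap2 hid2
  have hmono : ∀ x ∈ Set.Icc m M, ∀ y ∈ Set.Icc m M, x < y → T₁ (T₂ x) < T₁ (T₂ y) := by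
    intro x hx y hy hxy
    exact h1 (hmap2 y hy) (hmap2 x hx) (h2 hx hy hxy)
  have hsq : ∀ x ∈ Set.Icc m M, T₁ (T₂ (T₁ (T₂ x))) = x := by
    intro x hx
    rw [← hcomm (T₂ x) (hmap2 x hx), hinv2 x hx, hinv1 x hx]
  have hfix : ∀ x ∈ Set.Icc m M, T₁ (T₂ x) = x := by
    intro x hx
    by_contra hne
    have hm := hmap1 _ (hmap2 x hx)
    rcases lt_or_gt_of_ne hne with hlt | hlt
    · have := hmono _ hm _ hx hlt
      rw [hsq x hx] at this
      linarith
    · have := hmono _ hx _ hm hlt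
      rw [hsq x hx] at this
      linarith
  intro x hx
  calc T₁ x = T₁ (T₁ (T₂ x)) := by rw [hfix x hx]
    _ = T₂ x := hinv1 _ (hmap2 x hx)

theorem not_all_quad {m M a b : ℝ} (hmM : m < M) (ha : a ≠ 0)
    (h : ∀ x ∈ Set.Icc m M, a * x ^ 2 + b = 0) : False := by
  set p : Polynomial ℝ := Polynomial.C a * Polynomial.X ^ 2 + Polynomial.C b with hp
  have h0 : p = 0 := by
    apply Polynomial.eq_zero_of_infinite_isRoot
    refine (Set.Icc_infinite hmM).mono fun x hx => ?_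
    simp only [Set.mem_setOf_eq, Polynomial.IsRoot.def, hp, Polynomial.eval_add,
      Polynomial.eval_mul, Polynomial.eval_C, Polynomial.eval_pow, Polynomial.eval_X]
    exact h x hx
  have h2 : p.coeff 2 = a := by
    simp [hp, Polynomial.coeff_C]
  rw [h0, Polynomial.coeff_zero] at h2
  exact ha h2.symm

theorem not_all_quartic {m M a b : ℝ} (hmM : m < M)
    (h : ∀ x ∈ Set.Icc m M, x ^ 4 + a * x ^ 2 + b = 0) : False := by
  set p : Polynomial ℝ := Polynomial.X ^ 4 + Polynomial.C a * Polynomial.X ^ 2 + Polynomial.C b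
    with hp
  have h0 : p = 0 := by
    apply Polynomial.eq_zero_of_infinite_isRoot
    refine (Set.Icc_infinite hmM).mono fun x hx => ?_
    simp only [Set.mem_setOf_eq, Polynomial.IsRoot.def, hp, Polynomial.eval_add,
      Polynomial.eval_mul, Polynomial.eval_C, Polynomial.eval_pow, Polynomial.eval_X]
    exact h x hx
  have h2 : p.coeff 4 = 1 := by
    simp [hp, Polynomial.coeff_C, Polynomial.coeff_X_pow]
  rw [h0, Polynomial.coeff_zero] at h2
  exact zero_ne_one h2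

/-- **The analytic core**: a continuous periodic function which satisfies the functional equations
for two different angles (and the same centre) is constant. -/
theorem const_of_two {f : ℝ → ℝ} (hf : Continuous f) (hper : Function.Periodic f (2 * π))
    {β₁ β₂ R₁ R₂ : ℝ} (h10 : 0 < β₁) (h1 : β₁ < π) (h20 : 0 < β₂) (h2 : β₂ < π) (hne : β₁ ≠ β₂)
    (hf1 : ∀ θ, f (θ + β₁) = f (θ - β₁)) (hf2 : ∀ θ, f (θ + β₂) = f (θ - β₂))
    (hT1 : ∀ θ, f (θ + β₁) = cos β₁ * f θ + sin β₁ * √(R₁ ^ 2 - f θ ^ 2))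
    (hT2 : ∀ θ, f (θ + β₂) = cos β₂ * f θ + sin β₂ * √(R₂ ^ 2 - f θ ^ 2))
    (hR1 : ∀ θ, f θ ^ 2 ≤ R₁ ^ 2) (hR2 : ∀ θ, f θ ^ 2 ≤ R₂ ^ 2) : ∀ θ, f θ = f 0 := by
  have hs1 : 0 < sin β₁ := sin_pos_of_pos_of_lt_pi h10 h1
  have hs2 : 0 < sin β₂ := sin_pos_of_pos_of_lt_pi h20 h2
  obtain ⟨m, M, hrange⟩ : ∃ m M, Set.range f = Set.Icc m M := by
    have e1 := hper.image_Icc Real.two_pi_pos 0
    have e2 := hf.continuousOn.image_Icc (a := 0) (b := 0 + 2 * π) (by linarith [pi_pos])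
    exact ⟨_, _, e1.symm.trans e2⟩
  have hin : ∀ θ, f θ ∈ Set.Icc m M := fun θ => by rw [← hrange]; exact ⟨θ, rfl⟩
  rcases (le_trans (hin 0).1 (hin 0).2).eq_or_lt with hmM | hmM
  · intro θ
    have a := hin θ
    have b := hin 0
    rw [hmM] at a b
    have : f θ = M := le_antisymm a.2 a.1
    have : f 0 = M := le_antisymm b.2 b.1
    linarith
  exfalso
  set T₁ : ℝ → ℝ := fun x => cos β₁ * x + sin β₁ * √(R₁ ^ 2 - x ^ 2) with hTd1
  set T₂ : ℝ → ℝ := fun x => cos β₂ * x + sin β₂ * √(R₂ ^ 2 - x ^ 2) with hTd2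
  have hc1 : Continuous T₁ := by rw [hTd1]; fun_prop
  have hc2 : Continuous T₂ := by rw [hTd2]; fun_prop
  have hex : ∀ x ∈ Set.Icc m M, ∃ θ, f θ = x := by
    intro x hx
    rw [← hrange] at hx
    exact hx
  have hF1 : ∀ θ, T₁ (f θ) = f (θ + β₁) := fun θ => (hT1 θ).symm
  have hF2 : ∀ θ, T₂ (f θ) = f (θ + β₂) := fun θ => (hT2 θ).symm
  have hinv1 : ∀ x ∈ Set.Icc m M, T₁ (T₁ x) = x := by
    intro x hx
    obtain ⟨θ, rfl⟩ := hex x hx
    rw [hF1, hF1, hf1, add_sub_cancel_right]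
  have hinv2 : ∀ x ∈ Set.Icc m M, T₂ (T₂ x) = x := by
    intro x hx
    obtain ⟨θ, rfl⟩ := hex x hx
    rw [hF2, hF2, hf2, add_sub_cancel_right]
  have hmap1 : ∀ x ∈ Set.Icc m M, T₁ x ∈ Set.Icc m M := by
    intro x hx
    obtain ⟨θ, rfl⟩ := hex x hx
    rw [hF1]; exact hin _
  have hmap2 : ∀ x ∈ Set.Icc m M, T₂ x ∈ Set.Icc m M := by
    intro x hx
    obtain ⟨θ, rfl⟩ := hex x hx
    rw [hF2]; exact hin _
  have hcomm : ∀ x ∈ Set.Icc m M, T₁ (T₂ x) = T₂ (T₁ x) := by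
    intro x hx
    obtain ⟨θ, rfl⟩ := hex x hx
    rw [hF2, hF1, hF1, hF2]
    congr 1
    ring
  have hcon1 : ∀ x ∈ Set.Icc m M, x ^ 2 + T₁ x ^ 2 - 2 * x * T₁ x * cos β₁ =
      R₁ ^ 2 * sin β₁ ^ 2 := by
    intro x hx
    obtain ⟨θ, rfl⟩ := hex x hx
    have h3 : √(R₁ ^ 2 - f θ ^ 2) ^ 2 = R₁ ^ 2 - f θ ^ 2 := sq_sqrt (by linarith [hR1 θ])
    have h4 := sin_sq_add_cos_sq β₁
    simp only [hTd1]
    generalize √(R₁ ^ 2 - f θ ^ 2) = q at h3 ⊢
    have h5 : cos β₁ ^ 2 = 1 - sin β₁ ^ 2 := by linarith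
    ring_nf
    rw [h5, h3]
    ring
  have hcon2 : ∀ x ∈ Set.Icc m M, x ^ 2 + T₂ x ^ 2 - 2 * x * T₂ x * cos β₂ =
      R₂ ^ 2 * sin β₂ ^ 2 := by
    intro x hx
    obtain ⟨θ, rfl⟩ := hex x hx
    have h3 : √(R₂ ^ 2 - f θ ^ 2) ^ 2 = R₂ ^ 2 - f θ ^ 2 := sq_sqrt (by linarith [hR2 θ])
    have h4 := sin_sq_add_cos_sq β₂
    simp only [hTd2]
    generalize √(R₂ ^ 2 - f θ ^ 2) = q at h3 ⊢
    have h5 : cos β₂ ^ 2 = 1 - sin β₂ ^ 2 := by linarith
    ring_nf
    rw [h5, h3]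
    ring
  have hid : ∀ (T : ℝ → ℝ) (β R : ℝ), 0 < sin β → (∀ x ∈ Set.Icc m M,
      x ^ 2 + T x ^ 2 - 2 * x * T x * cos β = R ^ 2 * sin β ^ 2) →
      ∃ x ∈ Set.Icc m M, T x ≠ x := by
    intro T β R hs hcon
    by_contra hcon'
    push Not at hcon'
    have hcos : cos β < 1 := by
      have := sin_sq_add_cos_sq β
      nlinarith [sq_nonneg (cos β - 1)]
    apply not_all_quad (a := 2 - 2 * cos β) (b := -(R ^ 2 * sin β ^ 2)) hmM
      (by linarith : (0 : ℝ) < 2 - 2 * cos β).ne'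
    intro x hx
    have := hcon x hx
    rw [hcon' x hx] at this
    linarith
  have heq := involutions_eq hmM hc1 hc2 hinv1 hinv2 hmap1 hmap2 hcomm
    (hid T₁ β₁ R₁ hs1 hcon1) (hid T₂ β₂ R₂ hs2 hcon2)
  have hcc : cos β₁ - cos β₂ ≠ 0 := by
    intro h
    apply hne
    exact injOn_cos ⟨h10.le, h1.le⟩ ⟨h20.le, h2.le⟩ (by linarith)
  set κ : ℝ := (R₂ ^ 2 * sin β₂ ^ 2 - R₁ ^ 2 * sin β₁ ^ 2) / (2 * (cos β₁ - cos β₂)) with hκ
  have hxz : ∀ x ∈ Set.Icc m M, x * T₁ x = κ := by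
    intro x hx
    have a := hcon1 x hx
    have b := hcon2 x hx
    rw [← heq x hx] at b
    rw [hκ, eq_div_iff (by simpa using hcc)]
    linarith
  set q : ℝ := R₁ ^ 2 * sin β₁ ^ 2 + 2 * κ * cos β₁ with hq
  have hsum : ∀ x ∈ Set.Icc m M, x ^ 2 + T₁ x ^ 2 = q := by
    intro x hx
    have a := hcon1 x hx
    have b := hxz x hx
    have e : 2 * x * T₁ x * cos β₁ = 2 * (x * T₁ x) * cos β₁ := by ring
    rw [e, b] at a
    rw [hq]
    linarith
  apply not_all_quartic (a := -q) (b := κ ^ 2) hmM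
  intro x hx
  have a := hsum x hx
  have b := hxz x hx
  rw [← a, ← b]
  ring

theorem dot_second_diff (v : E2) (θ a b : ℝ) :
    dot v (θ + 2 * a + 2 * b) - dot v (θ + 2 * a) - dot v (θ + 2 * b) + dot v θ =
      -(4 * sin a * sin b) * dot v (θ + a + b) := by
  have e1 : θ + 2 * a + 2 * b = (θ + a + b) + (a + b) := by ring
  have e2 : θ + 2 * a = (θ + a + b) + (a - b) := by ring
  have e3 : θ + 2 * b = (θ + a + b) + -(a - b) := by ring
  have e4 : θ = (θ + a + b) + -(a + b) := by ring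
  have k : dot v (θ + 2 * a + 2 * b) - dot v (θ + 2 * a) - dot v (θ + 2 * b) + dot v θ =
      dot v ((θ + a + b) + (a + b)) - dot v ((θ + a + b) + (a - b)) -
      dot v ((θ + a + b) + -(a - b)) + dot v ((θ + a + b) + -(a + b)) := by
    rw [← e1, ← e2, ← e3, ← e4]
  rw [k, dot_add v (θ + a + b) (a + b), dot_add v (θ + a + b) (a - b),
    dot_add v (θ + a + b) (-(a - b)), dot_add v (θ + a + b) (-(a + b))]
  rw [cos_neg, cos_neg, sin_neg, sin_neg, cos_add, cos_sub]
  ring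

/-- the unit vector -/
noncomputable def uu (θ : ℝ) : E2 := !₂[cos θ, sin θ]

theorem norm_uu (θ : ℝ) : ‖uu θ‖ = 1 := by
  have h : ‖uu θ‖ ^ 2 = 1 := by
    rw [norm_sq]
    simp [uu]
  have h0 := norm_nonneg (uu θ)
  nlinarith

theorem dot_uu (θ : ℝ) : dot (uu θ) θ = 1 := by
  have := sin_sq_add_cos_sq θ
  simp only [dot, uu, PiLp.toLp_apply, Matrix.cons_val_zero, Matrix.cons_val_one]
  nlinarith

theorem dot_smul (c : ℝ) (x : E2) (θ : ℝ) : dot (c • x) θ = c * dot x θ := by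
  simp only [dot, PiLp.smul_apply, smul_eq_mul]; ring

theorem dot_add_left (x y : E2) (θ : ℝ) : dot (x + y) θ = dot x θ + dot y θ := by
  simp only [dot, PiLp.add_apply]; ring

theorem dot_eq_inner (x : E2) (θ : ℝ) : dot x θ = inner ℝ x (uu θ) := by
  rw [inner_eq]
  simp [dot, uu]

theorem dot_le_norm (x : E2) (θ : ℝ) : dot x θ ≤ ‖x‖ := by
  have h1 := dot_norm x θ
  rw [← norm_sq] at h1
  have h2 : dot x θ ^ 2 ≤ ‖x‖ ^ 2 := by nlinarith [sq_nonneg (dot x (θ + π / 2))]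
  exact (le_abs_self _).trans (abs_le_of_sq_le_sq h2 (norm_nonneg x))

section
variable {S : Set E2} (hS1 : IsCompact S) (hS2 : S.Nonempty)

include hS1 hS2 in
/-- a compact convex set with the support function of a disk is a disk -/
theorem eq_ball (hconv : Convex ℝ S) {O : E2} {r : ℝ} (h : ∀ θ, hS S θ = dot O θ + r) :
    S = Metric.closedBall O r := by
  ext x
  rw [mem_closedBall_iff_norm]
  constructor
  · intro hx
    obtain ⟨φ, _, _, a1, a2⟩ := exists_polar (v := x - O) 0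
    have e : dot (x - O) φ = ‖x - O‖ := by
      unfold dot
      rw [a1, a2]
      have := sin_sq_add_cos_sq φ
      have h1 : cos φ * cos φ + sin φ * sin φ = 1 := by nlinarith
      calc ‖x - O‖ * cos φ * cos φ + ‖x - O‖ * sin φ * sin φ
          = ‖x - O‖ * (cos φ * cos φ + sin φ * sin φ) := by ring
        _ = _ := by rw [h1, mul_one]
    have h1 := dot_le hS1 hx φ
    rw [h] at h1
    rw [← e, dot_sub]
    linarith
  · intro hx
    by_contra hnot
    obtain ⟨g, u, hg1, hg2⟩ := geometric_hahn_banach_closed_point hconv hS1.isClosed hnot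
    set w : E2 := (InnerProductSpace.toDual ℝ E2).symm g with hw
    have hgw : ∀ y, g y = inner ℝ w y := by
      intro y
      rw [hw, InnerProductSpace.toDual_symm_apply]
    obtain ⟨φ, _, _, a1, a2⟩ := exists_polar (v := w) 0
    have hgd : ∀ y, g y = ‖w‖ * dot y φ := by
      intro y
      rw [hgw, inner_eq, a1, a2]
      unfold dot
      ring
    obtain ⟨z, hz, hze⟩ := exists_contact hS1 hS2 φ
    have b1 := hg1 z hz
    rw [hgd, hze, h] at b1
    rw [hgd] at hg2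
    have b2 := dot_le_norm (x - O) φ
    rw [dot_sub] at b2
    have b3 : dot x φ ≤ dot O φ + r := by linarith
    have b4 := mul_le_mul_of_nonneg_left b3 (norm_nonneg w)
    linarith

theorem hS_ball (O : E2) {r : ℝ} (hr : 0 ≤ r) (θ : ℝ) :
    hS (Metric.closedBall O r) θ = dot O θ + r := by
  unfold hS
  apply IsGreatest.csSup_eq
  constructor
  · refine ⟨O + r • uu θ, ?_, ?_⟩
    · rw [mem_closedBall_iff_norm, add_sub_cancel_left, norm_smul, norm_uu, mul_one,
        Real.norm_of_nonneg hr]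
    · simp only
      rw [dot_add_left, dot_smul, dot_uu, mul_one]
  · rintro t ⟨x, hx, rfl⟩
    rw [mem_closedBall_iff_norm] at hx
    have := dot_le_norm (x - O) θ
    rw [dot_sub] at this
    simp only
    linarith

/-- the sight angle of a disk -/
theorem sight_ball (O : E2) {r : ℝ} (hr : 0 < r) {P : E2} (hP : P ∉ Metric.closedBall O r) :
    sightAngle (Metric.closedBall O r) P = π - 2 * arccos (r / dist P O) := by
  rw [Metric.mem_closedBall, not_le] at hP
  have hd : 0 < dist P O := hr.trans hP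
  have hq0 : 0 < r / dist P O := div_pos hr hd
  have hq1 : r / dist P O < 1 := (div_lt_one hd).2 hP
  set β : ℝ := 2 * arccos (r / dist P O) with hβ
  have hβ0 : 0 < β := by
    have := arccos_pos.2 hq1
    linarith
  have hβπ : β < π := by
    have := arccos_lt_pi_div_two.2 hq0
    linarith
  have hcosβ : cos (β / 2) = r / dist P O := by
    rw [hβ, mul_div_cancel_left₀ _ two_ne_zero]
    exact cos_arccos (by linarith) hq1.le
  obtain ⟨φ, _, _, a1, a2⟩ := exists_polar (v := P - O) 0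
  have hdn : ‖P - O‖ = dist P O := (dist_eq_norm P O).symm
  have hdot : ∀ t, dot (P - O) t = dist P O * cos (φ - t) := by
    intro t
    unfold dot
    rw [a1, a2, hdn, cos_sub]
    ring
  have hsin : 0 < sin β := sin_pos_of_pos_of_lt_pi hβ0 hβπ
  have hPP : PP (Metric.closedBall O r) β (φ - β / 2) = P := by
    apply sub_eq_zero.1
    apply eq_zero_of_dot (θ := φ - β / 2) (β := β) hsin.ne'
    · rw [dot_sub, dot_PP, hS_ball O hr.le]
      have := hdot (φ - β / 2)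
      rw [dot_sub, sub_sub_cancel, hcosβ, mul_div_cancel₀ _ hd.ne'] at this
      linarith
    · rw [dot_sub, dot_PP_add _ hsin.ne', hS_ball O hr.le]
      have := hdot (φ - β / 2 + β)
      have e : φ - (φ - β / 2 + β) = -(β / 2) := by ring
      rw [dot_sub, e, cos_neg, hcosβ, mul_div_cancel₀ _ hd.ne'] at this
      linarith
  have hmem := PP_mem_isoptic (S := Metric.closedBall O r) (isCompact_closedBall O r)
    ⟨O, Metric.mem_closedBall_self hr.le⟩ hβ0 hβπ (φ - β / 2) (by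
      rw [hPP, Metric.mem_closedBall, not_le]; exact hP)
  rw [hPP] at hmem
  exact hmem.2

/-- the isoptics of a disk are circles -/
theorem isoptic_ball (O : E2) {r : ℝ} (hr : 0 < r) {α : ℝ} (h0 : 0 < α) (hπ : α < π) :
    isoptic (Metric.closedBall O r) α = Metric.sphere O (r / sin (α / 2)) := by
  have hs0 : 0 < sin (α / 2) := sin_pos_of_pos_of_lt_pi (by linarith) (by linarith)
  have hs1 : sin (α / 2) < 1 := by
    rw [← sin_pi_div_two]
    apply sin_lt_sin_of_lt_of_le_pi_div_two <;> linarith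
  ext P
  rw [Metric.mem_sphere]
  constructor
  · rintro ⟨h1, h2⟩
    rw [sight_ball O hr h1] at h2
    rw [Metric.mem_closedBall, not_le] at h1
    have hd : 0 < dist P O := hr.trans h1
    have hq1 : r / dist P O < 1 := (div_lt_one hd).2 h1
    have hq0 : 0 < r / dist P O := div_pos hr hd
    have e : r / dist P O = sin (α / 2) := by
      have h3 : arccos (r / dist P O) = π / 2 - α / 2 := by linarith
      rw [← cos_arccos (by linarith : -1 ≤ r / dist P O) hq1.le, h3, cos_pi_div_two_sub]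
    rw [← e]
    field_simp
  · intro h
    have hP : P ∉ Metric.closedBall O r := by
      rw [Metric.mem_closedBall, not_le, h, lt_div_iff₀ hs0]
      nlinarith
    refine ⟨hP, ?_⟩
    rw [sight_ball O hr hP, h]
    have e : r / (r / sin (α / 2)) = sin (α / 2) := by field_simp
    rw [e, ← cos_pi_div_two_sub, arccos_cos (by linarith) (by linarith)]
    ring

include hS1 in
/-- **Two circular isoptics force a disk.** -/
theorem two_circles (hconv : Convex ℝ S) (hnt : S.Nontrivial) {α₁ α₂ : ℝ} (h1 : 0 < α₁)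
    (h1' : α₁ < π) (h2 : 0 < α₂) (h2' : α₂ < π) (hne : α₁ ≠ α₂) {O₁ O₂ : E2} {R₁ R₂ : ℝ}
    (hi1 : isoptic S α₁ ⊆ Metric.sphere O₁ R₁) (hi2 : isoptic S α₂ ⊆ Metric.sphere O₂ R₂) :
    ∃ (O : E2) (r : ℝ), 0 < r ∧ S = Metric.closedBall O r := by
  have hS2 : S.Nonempty := hnt.nonempty
  set β₁ := π - α₁ with hβ1
  set β₂ := π - α₂ with hβ2
  have e1 : π - β₁ = α₁ := by rw [hβ1]; ring
  have e2 : π - β₂ = α₂ := by rw [hβ2]; ring
  rw [← e1] at hi1
  rw [← e2] at hi2
  have f1 := func_eq hS1 hS2 hnt (β := β₁) (by linarith) (by linarith) hi1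
  have f2 := func_eq hS1 hS2 hnt (β := β₂) (by linarith) (by linarith) hi2
  have hs1 : 0 < sin β₁ := sin_pos_of_pos_of_lt_pi (by linarith) (by linarith)
  have hs2 : 0 < sin β₂ := sin_pos_of_pos_of_lt_pi (by linarith) (by linarith)
  -- the centres agree
  have p1 : ∀ θ, hS S (θ + 2 * β₁) - dot O₁ (θ + 2 * β₁) = hS S θ - dot O₁ θ := by
    intro θ
    have := (f1 (θ + β₁)).1
    rw [add_sub_cancel_right] at this
    rw [← this]
    congr 2 <;> ring
  have p2 : ∀ θ, hS S (θ + 2 * β₂) - dot O₂ (θ + 2 * β₂) = hS S θ - dot O₂ θ := by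
    intro θ
    have := (f2 (θ + β₂)).1
    rw [add_sub_cancel_right] at this
    rw [← this]
    congr 2 <;> ring
  have hdz : ∀ θ, dot (O₂ - O₁) (θ + β₁ + β₂) = 0 := by
    intro θ
    have h3 := dot_second_diff (O₂ - O₁) θ β₁ β₂
    have h4 : dot (O₂ - O₁) (θ + 2 * β₁ + 2 * β₂) - dot (O₂ - O₁) (θ + 2 * β₁) -
        dot (O₂ - O₁) (θ + 2 * β₂) + dot (O₂ - O₁) θ = 0 := by
      simp only [dot_sub]
      have a1 := p1 θ
      have a2 := p1 (θ + 2 * β₂)
      have a3 := p2 θ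
      have a4 := p2 (θ + 2 * β₁)
      have e : θ + 2 * β₂ + 2 * β₁ = θ + 2 * β₁ + 2 * β₂ := by ring
      rw [e] at a2
      linarith
    rw [h4] at h3
    have h5 : 4 * sin β₁ * sin β₂ * dot (O₂ - O₁) (θ + β₁ + β₂) = 0 := by linarith
    rcases mul_eq_zero.1 h5 with h | h
    · exact absurd h (by positivity)
    · exact h
  have hO : O₂ = O₁ := by
    apply sub_eq_zero.1
    apply eq_zero_of_dot (θ := 0) (β := π / 2) (by rw [sin_pi_div_two]; exact one_ne_zero)
    · have := hdz (0 - β₁ - β₂)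
      have e : 0 - β₁ - β₂ + β₁ + β₂ = 0 := by ring
      rwa [e] at this
    · have := hdz (0 + π / 2 - β₁ - β₂)
      have e : 0 + π / 2 - β₁ - β₂ + β₁ + β₂ = 0 + π / 2 := by ring
      rwa [e] at this
  subst hO
  set f : ℝ → ℝ := fun θ => hS S θ - dot O₂ θ with hf
  have hfc : Continuous f := (continuous_hS hS1 hS2).sub (continuous_dot_right O₂)
  have hper : Function.Periodic f (2 * π) := by
    intro θ
    simp only [hf]
    rw [hS_periodic]
    simp only [dot, cos_add_two_pi, sin_add_two_pi]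
  have hconst := const_of_two hfc hper (β₁ := β₁) (β₂ := β₂) (R₁ := R₁) (R₂ := R₂)
    (by linarith) (by linarith) (by linarith) (by linarith) (by
      intro h
      apply hne
      linarith)
    (fun θ => (f1 θ).1) (fun θ => (f2 θ).1) (fun θ => (f1 θ).2.1) (fun θ => (f2 θ).2.1)
    (fun θ => (f1 θ).2.2) (fun θ => (f2 θ).2.2)
  have hball := eq_ball hS1 hS2 hconv (O := O₂) (r := f 0) (fun θ => by
    have := hconst θ
    simp only [hf] at this ⊢
    linarith)
  refine ⟨O₂, f 0, ?_, hball⟩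
  by_contra hr
  push Not at hr
  have hsub : S ⊆ {O₂} := by
    rw [hball]
    intro x hx
    rw [Metric.mem_closedBall] at hx
    exact dist_le_zero.1 (hx.trans hr)
  exact Set.not_nontrivial_singleton (hnt.mono hsub)

end

end Q189.Iso
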