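import Mathlib

/-!
# Isoptics of plane convex sets: definitions
-/

set_option autoImplicit false

namespace Q189.IsoDefs

/-- the euclidean plane -/
abbrev E2 := EuclideanSpace ℝ (Fin 2)

/-- The angle of sight of `S` at `P`: the largest angle between two rays from `P` through points
of `S`. For a compact convex set `S` and `P ∉ S` it is the opening angle of the cone formed by the
rays from `P` through the points of `S`. -/
noncomputable def sightAngle (S : Set E2) (P : E2) : ℝ :=
  sSup {t | ∃ x ∈ S, ∃ y ∈ S, t = EuclideanGeometry.angle x P y}

/-- The isoptic of `S` at the angle `α`. -/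
def isoptic (S : Set E2) (α : ℝ) : Set E2 := {P | P ∉ S ∧ sightAngle S P = α}

/-- `A` is a circle (of positive radius). -/
def IsCircle (A : Set E2) : Prop := ∃ (O : E2) (R : ℝ), 0 < R ∧ A = Metric.sphere O R

end Q189.IsoDefs
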