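import Mathlib

/-! MP_e72e80_gt: local geometry of the complex quadric cone `z₁ z₃ = z₂²` in `ℂ³`. -/

set_option autoImplicit false

namespace Pool.Agent.Q189.KConv

open Filter Topology

/-- the complex quadric cone -/
def Cone : Set (ℂ × ℂ × ℂ) := {z | z.1 * z.2.2 = z.2.1 ^ 2}

theorem mem_cone (z : ℂ × ℂ × ℂ) : z ∈ Cone ↔ z.1 * z.2.2 = z.2.1 ^ 2 := Iff.rfl

/-- its parametrisation -/
def phi (x y : ℂ) : ℂ × ℂ × ℂ := (x ^ 2, x * y, y ^ 2)

theorem phi_mem (x y : ℂ) : phi x y ∈ Cone := by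
  rw [mem_cone]; simp only [phi]; ring

theorem smul_mem {z : ℂ × ℂ × ℂ} (c : ℂ) (hz : z ∈ Cone) : c • z ∈ Cone := by
  rw [mem_cone] at *
  simp only [Prod.smul_fst, Prod.smul_snd, smul_eq_mul]
  linear_combination c ^ 2 * hz

theorem exists_sq (z : ℂ) : ∃ x : ℂ, x ^ 2 = z := by
  obtain ⟨x, hx⟩ := IsAlgClosed.exists_pow_nat_eq z (n := 2) (by norm_num)
  exact ⟨x, hx⟩

theorem exists_phi {z : ℂ × ℂ × ℂ} (hz : z ∈ Cone) : ∃ x y, z = phi x y := by
  obtain ⟨x, hx⟩ := exists_sq z.1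
  obtain ⟨y, hy⟩ := exists_sq z.2.2
  rw [mem_cone, ← hx, ← hy, ← mul_pow, sq_eq_sq_iff_eq_or_eq_neg] at hz
  rcases hz with h | h
  · exact ⟨x, y, Prod.ext hx.symm (Prod.ext h.symm hy.symm)⟩
  · refine ⟨x, -y, Prod.ext hx.symm (Prod.ext ?_ ?_)⟩
    · simp only [phi]; rw [mul_neg, h, neg_neg]
    · simp only [phi]; rw [neg_sq, hy]

theorem isClosed_cone : IsClosed Cone :=
  isClosed_eq (by fun_prop) (by fun_prop)

/-- complex linear functionals -/
def lin (p z : ℂ × ℂ × ℂ) : ℂ := p.1 * z.1 + p.2.1 * z.2.1 + p.2.2 * z.2.2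

theorem lin_smul (p z : ℂ × ℂ × ℂ) (c : ℂ) : lin p (c • z) = c * lin p z := by
  simp only [lin, Prod.smul_fst, Prod.smul_snd, smul_eq_mul]; ring

theorem continuous_lin (p : ℂ × ℂ × ℂ) : Continuous (lin p) := by
  unfold lin; fun_prop

/-- a nonzero quadratic form has an isotropic vector -/
theorem exists_isotropic (p : ℂ × ℂ × ℂ) : ∃ z ∈ Cone, z ≠ 0 ∧ lin p z = 0 := by
  by_cases h : p.2.2 = 0
  · refine ⟨phi 0 1, phi_mem _ _, ?_, ?_⟩
    · intro h0
      have := congrArg (fun z : ℂ × ℂ × ℂ => z.2.2) h0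
      simp [phi] at this
    · simp [lin, phi, h]
  · obtain ⟨s, hs⟩ := exists_sq (discrim p.2.2 p.2.1 p.1)
    obtain ⟨y, hy⟩ := exists_quadratic_eq_zero h ⟨s, by rw [← hs]; ring⟩
    refine ⟨phi 1 y, phi_mem _ _, ?_, ?_⟩
    · intro h0
      have := congrArg (fun z : ℂ × ℂ × ℂ => z.1) h0
      simp [phi] at this
    · simp only [lin, phi]; linear_combination hy

/-- a rotation making two complex numbers with real ratio purely imaginary -/
theorem exists_rot (A B : ℂ) (h : (starRingEnd ℂ A * B).im = 0) :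
    ∃ η : ℂ, η ≠ 0 ∧ (η * A).re = 0 ∧ (η * B).re = 0 := by
  by_cases hA : A = 0
  · by_cases hB : B = 0
    · exact ⟨1, one_ne_zero, by simp [hA], by simp [hB]⟩
    · refine ⟨Complex.I * starRingEnd ℂ B, ?_, by simp [hA], ?_⟩
      · simpa using hB
      · simp; ring
  · refine ⟨Complex.I * starRingEnd ℂ A, ?_, ?_, ?_⟩
    · simpa using hA
    · simp; ring
    · simp at h ⊢; linarith

/-- the solution of two real-linear equations in a complex unknown -/
noncomputable def om (A B : ℂ) (a b : ℝ) : ℂ :=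
  Complex.I / ((starRingEnd ℂ A * B).im : ℂ) * (a * starRingEnd ℂ B - b * starRingEnd ℂ A)

theorem om_re1 (A B : ℂ) (a b : ℝ) (h : (starRingEnd ℂ A * B).im ≠ 0) :
    (om A B a b * A).re = a := by
  have h2 : om A B a b * A = (((starRingEnd ℂ A * B).im)⁻¹ : ℝ) *
      (Complex.I * ((a * starRingEnd ℂ B - b * starRingEnd ℂ A) * A)) := by
    unfold om; push_cast; ring
  rw [h2, Complex.re_ofReal_mul]
  rw [inv_mul_eq_div, div_eq_iff h]
  simp; ring

theorem om_re2 (A B : ℂ) (a b : ℝ) (h : (starRingEnd ℂ A * B).im ≠ 0) :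
    (om A B a b * B).re = b := by
  have h2 : om A B a b * B = (((starRingEnd ℂ A * B).im)⁻¹ : ℝ) *
      (Complex.I * ((a * starRingEnd ℂ B - b * starRingEnd ℂ A) * B)) := by
    unfold om; push_cast; ring
  rw [h2, Complex.re_ofReal_mul]
  rw [inv_mul_eq_div, div_eq_iff h]
  simp; ring

theorem om_self (A B : ℂ) (h : (starRingEnd ℂ A * B).im ≠ 0) :
    om A B A.re B.re = 1 := by
  unfold om
  rw [div_mul_eq_mul_div, div_eq_iff (by exact_mod_cast h), one_mul]
  apply Complex.ext <;> simp <;> ring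

/-- the polar form -/
noncomputable def pol (p : ℂ × ℂ × ℂ) (x y x' y' : ℂ) : ℂ :=
  p.1 * x * x' + p.2.1 * (x * y' + x' * y) / 2 + p.2.2 * y * y'

theorem lin_phi_add (p : ℂ × ℂ × ℂ) (x y x' y' ν : ℂ) :
    lin p (phi (x + ν * x') (y + ν * y')) =
      lin p (phi x y) + 2 * ν * pol p x y x' y' + ν ^ 2 * lin p (phi x' y') := by
  simp only [lin, phi, pol]; ring

theorem form_zero (p : ℂ × ℂ × ℂ) (x y x' y' : ℂ) (hd : x * y' - x' * y ≠ 0)
    (h1 : lin p (phi x y) = 0) (h2 : pol p x y x' y' = 0) (h3 : lin p (phi x' y') = 0) :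
    p = 0 := by
  simp only [lin, phi, pol] at h1 h2 h3
  have hd2 := pow_ne_zero 2 hd
  have e1 : (x * y' - x' * y) ^ 2 * p.1 = 0 := by
    linear_combination y' ^ 2 * h1 - 2 * y * y' * h2 + y ^ 2 * h3
  have e2 : (x * y' - x' * y) ^ 2 * p.2.1 = 0 := by
    linear_combination (-2 * x' * y') * h1 + 2 * (x * y' + x' * y) * h2 - 2 * x * y * h3
  have e3 : (x * y' - x' * y) ^ 2 * p.2.2 = 0 := by
    linear_combination x' ^ 2 * h1 - 2 * x * x' * h2 + x ^ 2 * h3
  have f1 := (mul_eq_zero.mp e1).resolve_left hd2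
  have f2 := (mul_eq_zero.mp e2).resolve_left hd2
  have f3 := (mul_eq_zero.mp e3).resolve_left hd2
  exact Prod.ext f1 (Prod.ext f2 f3)

end Pool.Agent.Q189.KConv
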