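import Pool.Agent.Q189.KConv1

/-! MP_e72e80_gt: the local alternative at a point of the cone. -/

set_option autoImplicit false

namespace Pool.Agent.Q189.KConv

open Filter Topology

theorem add_mem_cone {z : ℂ × ℂ × ℂ} (hz : z ∈ Cone) (η : ℂ) (τ : ℝ) :
    z + τ • (η • z) ∈ Cone := by
  have h : z + τ • (η • z) = (1 + τ * η) • z := by
    rw [add_smul, one_smul, mul_smul]
    congr 1
  rw [h]
  exact smul_mem _ hz

/-- moving by `± η z` -/
theorem case_dep (p0 p1 p2 z : ℂ × ℂ × ℂ) (hz : z ∈ Cone) (hz0 : z ≠ 0)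
    (h : (starRingEnd ℂ (lin p1 z) * lin p2 z).im = 0) :
    ∃ d : ℂ × ℂ × ℂ, d ≠ 0 ∧ (∃ c : ℂ, d = c • z) ∧ (∀ τ : ℝ, z + τ • d ∈ Cone) ∧
      (lin p1 d).re = 0 ∧ (lin p2 d).re = 0 ∧ 0 ≤ (lin p0 d).re := by
  obtain ⟨η, h0, h1, h2⟩ := exists_rot _ _ h
  by_cases hs : 0 ≤ (lin p0 (η • z)).re
  · exact ⟨η • z, smul_ne_zero h0 hz0, ⟨η, rfl⟩, add_mem_cone hz η, by rw [lin_smul]; exact h1,
      by rw [lin_smul]; exact h2, hs⟩
  · refine ⟨(-η) • z, smul_ne_zero (neg_ne_zero.mpr h0) hz0, ⟨-η, rfl⟩,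
      add_mem_cone hz (-η), ?_, ?_, ?_⟩
    · rw [lin_smul, neg_mul, Complex.neg_re, h1, neg_zero]
    · rw [lin_smul, neg_mul, Complex.neg_re, h2, neg_zero]
    · rw [lin_smul] at hs ⊢
      rw [neg_mul, Complex.neg_re]
      linarith

/-- the vertex of the cone -/
theorem case_zero (p0 p1 p2 : ℂ × ℂ × ℂ) :
    ∃ d : ℂ × ℂ × ℂ, d ≠ 0 ∧ (∀ τ : ℝ, (0 : ℂ × ℂ × ℂ) + τ • d ∈ Cone) ∧ (lin p1 d).re = 0 ∧
      (lin p2 d).re = 0 ∧ 0 ≤ (lin p0 d).re := by
  obtain ⟨e, he, he0, he1⟩ := exists_isotropic p1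
  obtain ⟨d, hd, ⟨c, rfl⟩, -, h1, h2, h3⟩ := case_dep p0 p1 p2 e he he0 (by rw [he1]; simp)
  refine ⟨c • e, hd, fun τ => ?_, h1, h2, h3⟩
  rw [zero_add]
  exact smul_mem (τ : ℂ) (smul_mem c he)

/-- positivity near zero along a suitable direction -/
theorem exists_dir (β γ : ℂ) (h : β ≠ 0 ∨ γ ≠ 0) (ω : ℂ → ℂ) (hω : Tendsto ω (𝓝 0) (𝓝 1)) :
    ∃ κ : ℂ, ∀ᶠ t : ℝ in 𝓝[>] 0,
      0 < (ω (t * κ) * (2 * (t * κ) * β + (t * κ) ^ 2 * γ)).re := by
  have hlin : ∀ κ : ℂ, Tendsto (fun t : ℝ => (t : ℂ) * κ) (𝓝[>] 0) (𝓝 0) := by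
    intro κ
    have h1 : Continuous (fun t : ℝ => (t : ℂ) * κ) := by fun_prop
    have h2 := h1.tendsto 0
    simp only [Complex.ofReal_zero, zero_mul] at h2
    exact h2.mono_left nhdsWithin_le_nhds
  by_cases hβ : β = 0
  · have hγ : γ ≠ 0 := h.resolve_left (fun h' => h' hβ)
    obtain ⟨κ, hκ⟩ := exists_sq (starRingEnd ℂ γ)
    refine ⟨κ, ?_⟩
    have h1 : Tendsto (fun t : ℝ => (ω (t * κ)).re) (𝓝[>] 0) (𝓝 1) := by
      have := (Complex.continuous_re.tendsto 1).comp (hω.comp (hlin κ))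
      rwa [Complex.one_re] at this
    filter_upwards [h1.eventually (lt_mem_nhds (show (1 / 2 : ℝ) < 1 by norm_num)),
      self_mem_nhdsWithin] with t ht ht0
    have ht0' : (0 : ℝ) < t := ht0
    have e : ω (t * κ) * (2 * (t * κ) * β + (t * κ) ^ 2 * γ) =
        ((t ^ 2 * Complex.normSq γ : ℝ) : ℂ) * ω (t * κ) := by
      rw [hβ, mul_pow, hκ]
      push_cast
      rw [Complex.normSq_eq_conj_mul_self]
      ring
    rw [e, Complex.re_ofReal_mul]
    have := Complex.normSq_pos.mpr hγ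
    have : 0 < (ω (t * κ)).re := by linarith
    positivity
  · refine ⟨starRingEnd ℂ β, ?_⟩
    have h1 : Tendsto (fun t : ℝ => (ω (t * starRingEnd ℂ β) *
        (2 * (Complex.normSq β : ℂ) + t * ((starRingEnd ℂ β) ^ 2 * γ))).re) (𝓝[>] 0)
        (𝓝 (1 * (2 * (Complex.normSq β : ℂ) + ((0 : ℝ) : ℂ) *
          ((starRingEnd ℂ β) ^ 2 * γ))).re) := by
      refine (Complex.continuous_re.tendsto _).comp (Tendsto.mul (hω.comp (hlin _)) ?_)
      have : Continuous (fun t : ℝ => (2 * (Complex.normSq β : ℂ) +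
        (t : ℂ) * ((starRingEnd ℂ β) ^ 2 * γ))) := by fun_prop
      exact (this.tendsto 0).mono_left nhdsWithin_le_nhds
    have hpos : 0 < (1 * (2 * (Complex.normSq β : ℂ) + ((0 : ℝ) : ℂ) *
          ((starRingEnd ℂ β) ^ 2 * γ))).re := by
      have := Complex.normSq_pos.mpr hβ
      simp only [one_mul, Complex.ofReal_zero, zero_mul, add_zero]
      rw [show (2 : ℂ) * (Complex.normSq β : ℂ) = ((2 * Complex.normSq β : ℝ) : ℂ) by
        push_cast; ring, Complex.ofReal_re]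
      positivity
    filter_upwards [h1.eventually (lt_mem_nhds hpos), self_mem_nhdsWithin] with t ht ht0
    have ht0' : (0 : ℝ) < t := ht0
    have e : ω (t * starRingEnd ℂ β) * (2 * (t * starRingEnd ℂ β) * β +
        (t * starRingEnd ℂ β) ^ 2 * γ) = (t : ℂ) * (ω (t * starRingEnd ℂ β) *
        (2 * (Complex.normSq β : ℂ) + t * ((starRingEnd ℂ β) ^ 2 * γ))) := by
      rw [Complex.normSq_eq_conj_mul_self]
      ring
    rw [e, Complex.re_ofReal_mul]
    positivity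

/-- the main case -/
theorem case_main (p0 p1 p2 : ℂ × ℂ × ℂ) (hp : ∀ l1 l2 : ℝ, p0 - (l1 : ℂ) • p1 - (l2 : ℂ) • p2 ≠ 0)
    (z : ℂ × ℂ × ℂ) (hz : z ∈ Cone) (hz0 : z ≠ 0)
    (hD : (starRingEnd ℂ (lin p1 z) * lin p2 z).im ≠ 0) (U : Set (ℂ × ℂ × ℂ)) (hU : U ∈ 𝓝 z) :
    ∃ w ∈ U, w ∈ Cone ∧ (lin p1 w).re = (lin p1 z).re ∧ (lin p2 w).re = (lin p2 z).re ∧
      (lin p0 z).re < (lin p0 w).re := by
  obtain ⟨x, y, rfl⟩ := exists_phi hz
  -- real coefficients
  obtain ⟨l1, l2, hl⟩ : ∃ l1 l2 : ℝ, lin p0 (phi x y) = l1 * lin p1 (phi x y) +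
      l2 * lin p2 (phi x y) := by
    set A := lin p1 (phi x y)
    set B := lin p2 (phi x y)
    set C := lin p0 (phi x y)
    set D := (starRingEnd ℂ A * B).im with hDd
    refine ⟨(starRingEnd ℂ C * B).im / D, (starRingEnd ℂ A * C).im / D, ?_⟩
    have hD' : (D : ℂ) ≠ 0 := by exact_mod_cast hD
    push_cast
    field_simp
    rw [hDd]
    apply Complex.ext <;> simp <;> ring
  set a : ℂ × ℂ × ℂ := p0 - (l1 : ℂ) • p1 - (l2 : ℂ) • p2 with ha
  have hane : a ≠ 0 := hp l1 l2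
  have hlin : ∀ w, lin a w = lin p0 w - l1 * lin p1 w - l2 * lin p2 w := by
    intro w
    simp only [lin, ha, Prod.fst_sub, Prod.snd_sub, Prod.smul_fst, Prod.smul_snd, smul_eq_mul]
    ring
  have ha0 : lin a (phi x y) = 0 := by rw [hlin, hl]; ring
  have hxy : x * starRingEnd ℂ x - (-starRingEnd ℂ y) * y ≠ 0 := by
    have e : x * starRingEnd ℂ x - (-starRingEnd ℂ y) * y =
        ((Complex.normSq x + Complex.normSq y : ℝ) : ℂ) := by
      push_cast
      rw [Complex.normSq_eq_conj_mul_self, Complex.normSq_eq_conj_mul_self]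
      ring
    rw [e]
    intro h
    have h1 : Complex.normSq x + Complex.normSq y = 0 := by exact_mod_cast h
    have hx := Complex.normSq_nonneg x
    have hy := Complex.normSq_nonneg y
    have hx0 : x = 0 := Complex.normSq_eq_zero.mp (by linarith)
    have hy0 : y = 0 := Complex.normSq_eq_zero.mp (by linarith)
    apply hz0
    rw [hx0, hy0]
    simp [phi]
  set x' : ℂ := -starRingEnd ℂ y with hx'
  set y' : ℂ := starRingEnd ℂ x with hy'
  set β := pol a x y x' y' with hβ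
  set γ := lin a (phi x' y') with hγ
  have hβγ : β ≠ 0 ∨ γ ≠ 0 := by
    by_contra hcon
    push Not at hcon
    exact hane (form_zero a x y x' y' hxy ha0 hcon.1 hcon.2)
  let P : ℂ → ℂ × ℂ × ℂ := fun ν => phi (x + ν * x') (y + ν * y')
  have hPc : Continuous P := by
    have : P = fun ν => ((x + ν * x') ^ 2, (x + ν * x') * (y + ν * y'), (y + ν * y') ^ 2) := rfl
    rw [this]; fun_prop
  have hP0 : P 0 = phi x y := by simp [P]
  let ω : ℂ → ℂ := fun ν => om (lin p1 (P ν)) (lin p2 (P ν)) (lin p1 (phi x y)).re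
    (lin p2 (phi x y)).re
  have hω0 : ω 0 = 1 := by
    simp only [ω, hP0]
    exact om_self _ _ hD
  have hDc : Continuous (fun ν => (starRingEnd ℂ (lin p1 (P ν)) * lin p2 (P ν)).im) := by
    have h1 := (continuous_lin p1).comp hPc
    have h2 := (continuous_lin p2).comp hPc
    have h3 := Complex.continuous_conj.comp h1
    exact Complex.continuous_im.comp (h3.mul h2)
  have hωc : ContinuousAt ω 0 := by
    have h1 := (continuous_lin p1).comp hPc
    have h2 := (continuous_lin p2).comp hPc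
    have h3 := Complex.continuous_conj.comp h1
    have h4 := Complex.continuous_conj.comp h2
    apply ContinuousAt.mul
    · apply ContinuousAt.div continuousAt_const
      · exact (Complex.continuous_ofReal.comp hDc).continuousAt
      · rw [hP0]; exact_mod_cast hD
    · exact ((continuous_const.mul h4).sub (continuous_const.mul h3)).continuousAt
  have hωt : Tendsto ω (𝓝 0) (𝓝 1) := by
    have := hωc.tendsto
    rwa [hω0] at this
  obtain ⟨κ, hκ⟩ := exists_dir β γ hβγ ω hωt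
  have hlink : Tendsto (fun t : ℝ => (t : ℂ) * κ) (𝓝[>] 0) (𝓝 0) := by
    have h1 : Continuous (fun t : ℝ => (t : ℂ) * κ) := by fun_prop
    have h2 := h1.tendsto 0
    simp only [Complex.ofReal_zero, zero_mul] at h2
    exact h2.mono_left nhdsWithin_le_nhds
  have hz' : Tendsto (fun ν => ω ν • P ν) (𝓝 0) (𝓝 (phi x y)) := by
    have := hωt.smul (hPc.tendsto 0)
    rwa [hP0, one_smul] at this
  have hD' : ∀ᶠ ν in 𝓝 (0 : ℂ), (starRingEnd ℂ (lin p1 (P ν)) * lin p2 (P ν)).im ≠ 0 := by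
    apply hDc.continuousAt.eventually_ne
    rw [hP0]; exact hD
  obtain ⟨t, ht1, ht2, ht3⟩ := (hκ.and ((hlink.eventually hD').and
    (hlink.eventually (hz'.eventually hU)))).exists
  refine ⟨ω (t * κ) • P (t * κ), ht3, smul_mem _ (phi_mem _ _), ?_, ?_, ?_⟩
  · rw [lin_smul]; exact om_re1 _ _ _ _ ht2
  · rw [lin_smul]; exact om_re2 _ _ _ _ ht2
  · have e1 : (lin p1 (ω (t * κ) • P (t * κ))).re = (lin p1 (phi x y)).re := by
      rw [lin_smul]; exact om_re1 _ _ _ _ ht2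
    have e2 : (lin p2 (ω (t * κ) • P (t * κ))).re = (lin p2 (phi x y)).re := by
      rw [lin_smul]; exact om_re2 _ _ _ _ ht2
    have e3 : lin a (ω (t * κ) • P (t * κ)) =
        ω (t * κ) * (2 * (t * κ) * β + (t * κ) ^ 2 * γ) := by
      rw [lin_smul]
      simp only [P]
      rw [lin_phi_add, ha0, zero_add]
    have e4 := congrArg Complex.re (hlin (ω (t * κ) • P (t * κ)))
    have e5 := congrArg Complex.re hl
    rw [Complex.sub_re, Complex.sub_re, Complex.re_ofReal_mul, Complex.re_ofReal_mul, e1, e2,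
      e3] at e4
    rw [Complex.add_re, Complex.re_ofReal_mul, Complex.re_ofReal_mul] at e5
    linarith

/-- the local alternative -/
theorem alternative (p0 p1 p2 : ℂ × ℂ × ℂ)
    (hp : ∀ l1 l2 : ℝ, p0 - (l1 : ℂ) • p1 - (l2 : ℂ) • p2 ≠ 0)
    (z : ℂ × ℂ × ℂ) (hz : z ∈ Cone) :
    (∃ d : ℂ × ℂ × ℂ, d ≠ 0 ∧ (∀ τ : ℝ, z + τ • d ∈ Cone) ∧ (lin p1 d).re = 0 ∧
      (lin p2 d).re = 0 ∧ 0 ≤ (lin p0 d).re) ∨
    ∀ U ∈ 𝓝 z, ∃ w ∈ U, w ∈ Cone ∧ (lin p1 w).re = (lin p1 z).re ∧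
      (lin p2 w).re = (lin p2 z).re ∧ (lin p0 z).re < (lin p0 w).re := by
  by_cases hz0 : z = 0
  · left; rw [hz0]; exact case_zero p0 p1 p2
  by_cases hD : (starRingEnd ℂ (lin p1 z) * lin p2 z).im = 0
  · left
    obtain ⟨d, h1, -, h2⟩ := case_dep p0 p1 p2 z hz hz0 hD
    exact ⟨d, h1, h2⟩
  · right
    intro U hU
    exact case_main p0 p1 p2 hp z hz hz0 hD U hU

end Pool.Agent.Q189.KConv
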