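import Pool.Agent.Q189.KConv2

/-! MP_e72e80_gt: simplices of dimension four meeting the cone. -/

set_option autoImplicit false

namespace Pool.Agent.Q189.KConv

open Filter Topology

/-- real functionals are real parts of complex ones -/
theorem exists_lin (α : (ℂ × ℂ × ℂ) →ₗ[ℝ] ℝ) : ∃ p : ℂ × ℂ × ℂ, ∀ z, α z = (lin p z).re := by
  refine ⟨(⟨α (1, 0, 0), -α (Complex.I, 0, 0)⟩, ⟨α (0, 1, 0), -α (0, Complex.I, 0)⟩,
    ⟨α (0, 0, 1), -α (0, 0, Complex.I)⟩), fun z => ?_⟩
  have hz : z = z.1.re • ((1 : ℂ), (0 : ℂ), (0 : ℂ)) + z.1.im • (Complex.I, (0 : ℂ), (0 : ℂ)) +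
      (z.2.1.re • ((0 : ℂ), (1 : ℂ), (0 : ℂ)) + z.2.1.im • ((0 : ℂ), Complex.I, (0 : ℂ))) +
      (z.2.2.re • ((0 : ℂ), (0 : ℂ), (1 : ℂ)) + z.2.2.im • ((0 : ℂ), (0 : ℂ), Complex.I)) := by
    refine Prod.ext ?_ (Prod.ext ?_ ?_) <;>
    · apply Complex.ext <;> simp
  conv_lhs => rw [hz]
  simp only [map_add, map_smul, smul_eq_mul, lin, Complex.add_re, Complex.mul_re]
  ring

theorem finrank_ccc : Module.finrank ℝ (ℂ × ℂ × ℂ) = 6 := by
  rw [Module.finrank_prod, Module.finrank_prod, Complex.finrank_real_complex]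

/-- four linearly independent vectors in `ℂ³` extend to a real basis -/
theorem exists_coords (w : Fin 4 → ℂ × ℂ × ℂ) (hw : LinearIndependent ℝ w) :
    ∃ (c : Fin 4 → (ℂ × ℂ × ℂ) →ₗ[ℝ] ℝ) (t : Fin 2 → (ℂ × ℂ × ℂ) →ₗ[ℝ] ℝ),
      (∀ i k, c i (w k) = if i = k then 1 else 0) ∧ (∀ s k, t s (w k) = 0) ∧
      ∀ d, t 0 d = 0 → t 1 d = 0 → d = ∑ i, c i d • w i := by
  classical
  let b := Module.Basis.sumExtend hw
  have hfin : Finite (Fin 4 ⊕ Module.Basis.sumExtendIndex hw) := Module.Finite.finite_basis b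
  have hfin2 : Finite (Module.Basis.sumExtendIndex hw) :=
    Finite.of_injective (Sum.inr : _ → Fin 4 ⊕ Module.Basis.sumExtendIndex hw) Sum.inr_injective
  have := Fintype.ofFinite (Module.Basis.sumExtendIndex hw)
  have hcard : Fintype.card (Module.Basis.sumExtendIndex hw) = 2 := by
    have h1 := Module.finrank_eq_card_basis b
    rw [finrank_ccc, Fintype.card_sum, Fintype.card_fin] at h1
    omega
  let e := Fintype.equivFinOfCardEq hcard
  let b' := b.reindex (Equiv.sumCongr (Equiv.refl (Fin 4)) e)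
  have hb' : ∀ i, b' (Sum.inl i) = w i := by
    intro i
    simp only [b', b, Module.Basis.coe_reindex, Function.comp_apply, Equiv.sumCongr_symm,
      Equiv.sumCongr_apply, Sum.map_inl, Equiv.refl_symm, Equiv.refl_apply]
    simp only [Module.Basis.sumExtend, Module.Basis.reindex_apply,
      Module.Basis.extend_apply_self]
    rfl
  refine ⟨fun i => b'.coord (Sum.inl i), fun s => b'.coord (Sum.inr s), ?_, ?_, ?_⟩
  · intro i k
    rw [← hb' k, Module.Basis.coord_apply, Module.Basis.repr_self, Finsupp.single_apply]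
    simp [eq_comm]
  · intro s k
    rw [← hb' k, Module.Basis.coord_apply, Module.Basis.repr_self, Finsupp.single_apply]
    simp
  · intro d h0 h1
    have h2 := b'.sum_repr d
    rw [Fintype.sum_sum_type, Fin.sum_univ_two] at h2
    have h0' : b'.repr d (Sum.inr 0) = 0 := h0
    have h1' : b'.repr d (Sum.inr 1) = 0 := h1
    rw [h0', h1', zero_smul, zero_smul, add_zero, add_zero] at h2
    simp only [hb'] at h2
    exact h2.symm

end Pool.Agent.Q189.KConv
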