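import Pool.Agent.Q189.KConv3

/-! MP_e72e80_gt: the complement of the cone is `3`-convex. -/

set_option autoImplicit false

namespace Pool.Agent.Q189.KConv

open Filter Topology

theorem mem_hull {V : Type*} [AddCommGroup V] [Module ℝ V] (v : Fin 5 → V) (j : Fin 5)
    (a : Fin 4 → ℝ) (ha : ∀ i, 0 ≤ a i) (hs : ∑ i, a i ≤ 1) (S : Set (Fin 5)) (hj : j ∈ S)
    (hS : ∀ i, a i ≠ 0 → j.succAbove i ∈ S) :
    v j + ∑ i, a i • (v (j.succAbove i) - v j) ∈ convexHull ℝ (v '' S) := by
  classical
  let W : Fin 5 → ℝ := j.insertNth (1 - ∑ i, a i) a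
  let z : Fin 5 → V := fun i => if i ∈ S then v i else v j
  have hWj : W j = 1 - ∑ i, a i := by simp [W]
  have hWs : ∀ i, W (j.succAbove i) = a i := by intro i; simp [W]
  have h := (convex_convexHull ℝ (v '' S)).sum_mem (t := Finset.univ) (w := W) (z := z)
    (by
      intro i _
      rcases Fin.eq_self_or_eq_succAbove j i with rfl | ⟨k, rfl⟩
      · rw [hWj]; linarith
      · rw [hWs]; exact ha k)
    (by
      rw [Fin.sum_univ_succAbove _ j, hWj]
      simp only [hWs]
      ring)
    (by
      intro i _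
      by_cases hi : i ∈ S
      · simp only [z, if_pos hi]; exact subset_convexHull ℝ _ ⟨i, hi, rfl⟩
      · simp only [z, if_neg hi]; exact subset_convexHull ℝ _ ⟨j, hj, rfl⟩)
  have e : ∑ i, W i • z i = v j + ∑ i, a i • (v (j.succAbove i) - v j) := by
    rw [Fin.sum_univ_succAbove _ j, hWj]
    simp only [hWs]
    have e1 : ∀ i, a i • z (j.succAbove i) = a i • v (j.succAbove i) := by
      intro i
      by_cases hi : a i = 0
      · rw [hi, zero_smul, zero_smul]
      · simp only [z, if_pos (hS i hi)]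
    simp only [e1, z, if_pos hj, smul_sub, Finset.sum_sub_distrib, sub_smul, one_smul,
      ← Finset.sum_smul]
    abel
  rw [← e]
  exact h

theorem hull_coords (v : Fin 5 → ℂ × ℂ × ℂ) (j : Fin 5) (c : Fin 4 → (ℂ × ℂ × ℂ) →ₗ[ℝ] ℝ)
    (t : Fin 2 → (ℂ × ℂ × ℂ) →ₗ[ℝ] ℝ)
    (hc : ∀ i k, c i (v (j.succAbove k) - v j) = if i = k then 1 else 0)
    (ht : ∀ s k, t s (v (j.succAbove k) - v j) = 0) {x : ℂ × ℂ × ℂ}
    (hx : x ∈ convexHull ℝ (Set.range v)) :
    (∀ i, 0 ≤ c i (x - v j)) ∧ ∑ i, c i (x - v j) ≤ 1 ∧ ∀ s, t s (x - v j) = 0 := by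
  have hsub : convexHull ℝ (Set.range v) ⊆ {x | (∀ i, 0 ≤ c i (x - v j)) ∧
      ∑ i, c i (x - v j) ≤ 1 ∧ ∀ s, t s (x - v j) = 0} := by
    apply convexHull_min
    · rintro _ ⟨k, rfl⟩
      rcases Fin.eq_self_or_eq_succAbove j k with rfl | ⟨k, rfl⟩
      · simp
      · refine ⟨fun i => ?_, ?_, fun s => ht s k⟩
        · rw [hc]; split_ifs <;> norm_num
        · simp [hc]
    · intro x hx y hy a b ha hb hab
      have e : ∀ f : (ℂ × ℂ × ℂ) →ₗ[ℝ] ℝ, f (a • x + b • y - v j) =
          a * f (x - v j) + b * f (y - v j) := by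
        intro f
        have : a • x + b • y - v j = a • (x - v j) + b • (y - v j) := by
          rw [smul_sub, smul_sub]
          have h2 : v j = a • v j + b • v j := by rw [← add_smul, hab, one_smul]
          nth_rewrite 1 [h2]
          abel
        rw [this, map_add, map_smul, map_smul, smul_eq_mul, smul_eq_mul]
      refine ⟨fun i => ?_, ?_, fun s => ?_⟩
      · rw [e]
        exact add_nonneg (mul_nonneg ha (hx.1 i)) (mul_nonneg hb (hy.1 i))
      · simp only [e, Finset.sum_add_distrib, ← Finset.mul_sum]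
        calc _ ≤ a * 1 + b * 1 := add_le_add (mul_le_mul_of_nonneg_left hx.2.1 ha)
              (mul_le_mul_of_nonneg_left hy.2.1 hb)
          _ = 1 := by rw [mul_one, mul_one, hab]
      · rw [e, hx.2.2 s, hy.2.2 s]; ring
  exact hsub hx

theorem cone_simplex (v : Fin 5 → ℂ × ℂ × ℂ) (hv : AffineIndependent ℝ v) (j : Fin 5)
    (hΛ : ∀ i, i ≠ j → ∀ x ∈ convexHull ℝ (v '' {i}ᶜ), x ∉ Cone) :
    ∀ x ∈ convexHull ℝ (Set.range v), x ∉ Cone := by
  classical
  intro x0 hx0 hx0K
  have hw : LinearIndependent ℝ (fun i : Fin 4 => v (j.succAbove i) - v j) := by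
    have h1 := (affineIndependent_iff_linearIndependent_vsub ℝ v j).mp hv
    have h2 := h1.comp (fun i : Fin 4 => (⟨j.succAbove i, Fin.succAbove_ne j i⟩ : {x // x ≠ j}))
      (by
        intro a b hab
        exact Fin.succAbove_right_injective (congrArg Subtype.val hab))
    exact h2
  obtain ⟨c, t, hc, ht, hrep⟩ := exists_coords _ hw
  have hcc : ∀ i, Continuous (c i) := fun i => (c i).continuous_of_finiteDimensional
  -- representation of points with vanishing `t`
  have hpt : ∀ x, t 0 (x - v j) = 0 → t 1 (x - v j) = 0 →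
      x = v j + ∑ i, c i (x - v j) • (v (j.succAbove i) - v j) := by
    intro x h0 h1
    rw [← hrep _ h0 h1]
    abel
  let f : (ℂ × ℂ × ℂ) → ℝ := fun x => -∑ i, c i (x - v j)
  have hf : Continuous f := by
    refine Continuous.neg (continuous_finsetSum _ fun i _ => ?_)
    exact (hcc i).comp (continuous_id.sub continuous_const)
  have hcomp : IsCompact (convexHull ℝ (Set.range v) ∩ Cone) :=
    ((Set.finite_range v).isCompact_convexHull (𝕜 := ℝ)).inter_right isClosed_cone
  obtain ⟨z, hzS, hzmax⟩ := hcomp.exists_isMaxOn ⟨x0, hx0, hx0K⟩ hf.continuousOn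
  obtain ⟨hz1, hz2, hz3⟩ := hull_coords v j c t hc ht hzS.1
  have hzpt := hpt z (hz3 0) (hz3 1)
  have hzpos : ∀ i, 0 < c i (z - v j) := by
    intro i
    rcases (hz1 i).lt_or_eq with h | h
    · exact h
    · exfalso
      apply hΛ (j.succAbove i) (Fin.succAbove_ne j i) z ?_ hzS.2
      rw [hzpt]
      apply mem_hull v j _ hz1 hz2
      · simp [(Fin.succAbove_ne j i).symm]
      · intro k hk
        simp only [Set.mem_compl_iff, Set.mem_singleton_iff]
        intro h2
        apply hk
        rw [Fin.succAbove_right_injective h2, ← h]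
  obtain ⟨p0, hp0⟩ := exists_lin (-∑ i, c i)
  obtain ⟨p1, hp1⟩ := exists_lin (t 0)
  obtain ⟨p2, hp2⟩ := exists_lin (t 1)
  have hα : ∀ d, (lin p0 d).re = -∑ i, c i d := by
    intro d
    rw [← hp0]
    simp
  have hp : ∀ l1 l2 : ℝ, p0 - (l1 : ℂ) • p1 - (l2 : ℂ) • p2 ≠ 0 := by
    intro l1 l2 h
    have e : lin (p0 - (l1 : ℂ) • p1 - (l2 : ℂ) • p2) (v (j.succAbove 0) - v j) =
        lin p0 (v (j.succAbove 0) - v j) - l1 * lin p1 (v (j.succAbove 0) - v j) -
        l2 * lin p2 (v (j.succAbove 0) - v j) := by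
      simp only [lin, Prod.fst_sub, Prod.snd_sub, Prod.smul_fst, Prod.smul_snd, smul_eq_mul]
      ring
    rw [h] at e
    have e2 := congrArg Complex.re e
    rw [Complex.sub_re, Complex.sub_re, Complex.re_ofReal_mul, Complex.re_ofReal_mul, hα,
      ← hp1, ← hp2, ht, ht] at e2
    simp only [hc] at e2
    simp [lin] at e2
  rcases alternative p0 p1 p2 hp z hzS.2 with ⟨d, hd0, hdK, hd1, hd2, hd3⟩ | hA
  · -- a ray inside the cone
    rw [← hp1] at hd1
    rw [← hp2] at hd2
    rw [hα] at hd3
    have hdrep := hrep d hd1 hd2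
    have hneg : (Finset.univ.filter fun i => c i d < 0).Nonempty := by
      by_contra hcon
      rw [Finset.not_nonempty_iff_eq_empty, Finset.filter_eq_empty_iff] at hcon
      have hall : ∀ i ∈ Finset.univ, 0 ≤ c i d := fun i hi => not_lt.mp (hcon hi)
      have hsum : ∑ i, c i d = 0 := le_antisymm (by linarith) (Finset.sum_nonneg hall)
      have hz := (Finset.sum_eq_zero_iff_of_nonneg hall).mp hsum
      apply hd0
      rw [hdrep]
      apply Finset.sum_eq_zero
      intro i hi
      rw [hz i hi, zero_smul]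
    obtain ⟨i0, hi0, hmin⟩ := Finset.exists_min_image _
      (fun i => c i (z - v j) / (-c i d)) hneg
    have hi0' : c i0 d < 0 := (Finset.mem_filter.mp hi0).2
    set τ := c i0 (z - v j) / (-c i0 d) with hτ
    have hτ0 : 0 < τ := div_pos (hzpos i0) (by linarith)
    have hcy : ∀ i, c i (z + τ • d - v j) = c i (z - v j) + τ * c i d := by
      intro i
      rw [show z + τ • d - v j = (z - v j) + τ • d by abel, map_add, map_smul, smul_eq_mul]
    have hty : ∀ s, t s d = 0 → t s (z + τ • d - v j) = 0 := by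
      intro s hs
      rw [show z + τ • d - v j = (z - v j) + τ • d by abel, map_add, map_smul, hs, hz3 s]
      simp
    have hypt := hpt (z + τ • d) (hty 0 hd1) (hty 1 hd2)
    apply hΛ (j.succAbove i0) (Fin.succAbove_ne j i0) (z + τ • d) ?_ (hdK τ)
    rw [hypt]
    apply mem_hull v j
    · intro i
      rw [hcy]
      by_cases hi : c i d < 0
      · have h1 := hmin i (Finset.mem_filter.mpr ⟨Finset.mem_univ _, hi⟩)
        rw [le_div_iff₀ (by linarith)] at h1
        linarith
      · have h1 := mul_nonneg hτ0.le (not_lt.mp hi)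
        have h2 := hz1 i
        linarith
    · simp only [hcy, Finset.sum_add_distrib, ← Finset.mul_sum]
      have h1 : τ * ∑ i, c i d ≤ 0 := mul_nonpos_of_nonneg_of_nonpos hτ0.le (by linarith)
      linarith
    · simp [(Fin.succAbove_ne j i0).symm]
    · intro k hk
      simp only [Set.mem_compl_iff, Set.mem_singleton_iff]
      intro h2
      apply hk
      rw [Fin.succAbove_right_injective h2, hcy, hτ, div_neg, neg_mul,
        div_mul_cancel₀ _ hi0'.ne, add_neg_cancel]
  · -- improvement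
    have hU : {w : ℂ × ℂ × ℂ | ∀ i, 0 < c i (w - v j)} ∈ 𝓝 z := by
      apply IsOpen.mem_nhds
      · have : {w : ℂ × ℂ × ℂ | ∀ i, 0 < c i (w - v j)} =
            ⋂ i, {w : ℂ × ℂ × ℂ | 0 < c i (w - v j)} := by ext; simp
        rw [this]
        apply isOpen_iInter_of_finite
        intro i
        exact isOpen_lt continuous_const ((hcc i).comp (continuous_id.sub continuous_const))
      · exact hzpos
    obtain ⟨w, hwU, hwK, hw1, hw2, hw3⟩ := hA _ hU
    rw [← hp1, ← hp1] at hw1
    rw [← hp2, ← hp2] at hw2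
    rw [hα, hα] at hw3
    have hfz : f w ≤ f z := by
      apply hzmax
      refine ⟨?_, hwK⟩
      have h0 : t 0 (w - v j) = 0 := by rw [map_sub, hw1, ← map_sub]; exact hz3 0
      have h1 : t 1 (w - v j) = 0 := by rw [map_sub, hw2, ← map_sub]; exact hz3 1
      rw [hpt w h0 h1, ← Set.image_univ]
      apply mem_hull v j
      · intro i; exact (hwU i).le
      · simp only [map_sub, Finset.sum_sub_distrib] at hz2 ⊢
        linarith
      · trivial
      · intro _ _; trivial
    simp only [f, map_sub, Finset.sum_sub_distrib] at hfz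
    linarith

end Pool.Agent.Q189.KConv
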