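import Pool.Agent.Q189.KConvDefs
import Pool.Agent.Q189.KConv4

/-! MP_e72e80_gt: the set in `𝔼⁶`. -/

set_option autoImplicit false

namespace Pool.Agent.Q189.KConv

/-- the identification of `𝔼⁶` with `ℂ³` -/
def T : E 6 →ₗ[ℝ] ℂ × ℂ × ℂ where
  toFun x := (⟨x 0, x 1⟩, ⟨x 2, x 3⟩, ⟨x 4, x 5⟩)
  map_add' x y := by
    refine Prod.ext ?_ (Prod.ext ?_ ?_) <;> apply Complex.ext <;> simp
  map_smul' c x := by
    refine Prod.ext ?_ (Prod.ext ?_ ?_) <;> apply Complex.ext <;> simp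

theorem T_apply (x : E 6) : T x = (⟨x 0, x 1⟩, ⟨x 2, x 3⟩, ⟨x 4, x 5⟩) := rfl

theorem T_injective : Function.Injective T := by
  intro x y h
  simp only [T_apply, Prod.mk.injEq, Complex.mk.injEq] at h
  obtain ⟨⟨h0, h1⟩, ⟨h2, h3⟩, ⟨h4, h5⟩⟩ := h
  ext i
  fin_cases i <;> assumption

theorem mem_Om (x : E 6) : x ∈ Om ↔ T x ∉ Cone := Iff.rfl

theorem isOpen_Om : IsOpen Om :=
  isClosed_cone.isOpen_compl.preimage T.continuous_of_finiteDimensional

theorem Om_kConvex : KConvex 3 Om := by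
  intro v hv j hΛ x hx
  rw [mem_Om]
  have hv' : AffineIndependent ℝ (T ∘ v) := hv.map' T.toAffineMap T_injective
  apply cone_simplex (T ∘ v) hv' j
  · intro i hi y hy
    rw [Set.image_comp, ← LinearMap.image_convexHull] at hy
    obtain ⟨y', hy', rfl⟩ := hy
    rw [← mem_Om]
    exact hΛ i hi hy'
  · rw [Set.range_comp, ← LinearMap.image_convexHull]
    exact ⟨x, hx, rfl⟩

end Pool.Agent.Q189.KConv
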