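import Pool.Agent.TH650.Emb.Bridge
import Pool.Agent.H904R2.Degree

/-! MP_e72e80_gt: a cycle which bounds in the target but not in the source shows that the
induced map of Mathlib's singular homology groups is not injective. -/

set_option autoImplicit false

open CategoryTheory AlgebraicTopology

namespace Pool.Agent.Q189.KConv

open Pool.Agent.H904R2 (Ch IsCyc IsBdy psh Pc fund fund_cyc pc_coc)
open Pool.Agent.TH650.Emb (HZ HZmap)
open Pool.Agent.TH650.Emb.BrAux
open Pool.Agent.TH592.Nag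

theorem not_injective_of_cycle {X Y : Type} [TopologicalSpace X] [TopologicalSpace Y]
    (f : C(X, Y)) (n : ℕ) (z : Ch X (n + 1)) (hz : IsCyc (n + 1) z)
    (hb : IsBdy (n + 1) (psh f (n + 1) z)) (hnb : ¬ IsBdy (n + 1) z) :
    ¬ Function.Injective (HZmap (n + 1) f).hom := by
  intro hinj
  have hmap : HZmap (n + 1) f = HomologicalComplex.homologyMap (kmap f) (n + 1) := rfl
  have hs' : Mono (HomologicalComplex.homologyMap (kmap f) (n + 1)) := by
    rw [← hmap]
    exact (ModuleCat.mono_iff_injective _).2 hinj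
  rw [HomologicalComplex.mono_homologyMap_iff_up_to_refinements (kmap f) (n + 2) (n + 1)
      ((ComplexShape.down ℕ).next (n + 1)) (by simp) rfl] at hs'
  obtain ⟨y, hy⟩ := hb
  obtain ⟨A, π, hπ, x₁, hx₁⟩ := hs' (elt (toC ℤ X (n + 1) z)) (by
      rw [elt_comp, (cyc_iff z).1 ((mem_cyc (by omega) z).2 hz), elt_zero])
      (elt (toC ℤ Y (n + 2) y)) (by
      rw [elt_comp, elt_comp, kmap_toC, d_toC, bd_eq, hy])
  have hsu : Function.Surjective π := (ModuleCat.epi_iff_surjective π).1 hπ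
  obtain ⟨a, ha⟩ := hsu (1 : ℤ)
  apply hnb
  refine ⟨(ofC ℤ X (n + 2)).hom (x₁.hom a), ?_⟩
  apply toC_injective (R := ℤ)
  rw [← bd_eq, ← d_toC, toC_ofC]
  have h2 : (π ≫ elt (toC ℤ X (n + 1) z)).hom a = (x₁ ≫ (KK ℤ X).d (n + 2) (n + 1)).hom a := by
    rw [hx₁]
  have h3 : (π ≫ elt (toC ℤ X (n + 1) z)).hom a = toC ℤ X (n + 1) z := by
    show (elt (toC ℤ X (n + 1) z)).hom (π.hom a) = toC ℤ X (n + 1) z
    have ha' : π.hom a = (1 : ℤ) := ha
    rw [ha', elt_one]
  rw [h3] at h2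
  exact h2.symm

end Pool.Agent.Q189.KConv
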