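import Pool.Agent.Q189.KConv5
import Pool.Agent.Q189.KConv6

/-! MP_e72e80_gt: the complement of the cone is not Lefschetz-`3`-convex. -/

set_option autoImplicit false

open CategoryTheory AlgebraicTopology

namespace Pool.Agent.Q189.KConv

open Pool.Agent.H904R2 (Ch IsCyc IsBdy psh Pc fund fund_cyc pc_coc Lmap sphF)
open Pool.Agent.H904R2.Sph Pool.Agent.H904R2.Deg
open Pool.Agent.Helper922.HB.Sc (Sing slice)

/-! ### reflections have degree `-1` -/

/-- the reflection in the first coordinate -/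
def rfun (n : ℕ) (v : Fin (n + 1) → ℝ) : Fin (n + 1) → ℝ := fun i => if i = 0 then -v i else v i

theorem rfun_rfun (n : ℕ) (v : Fin (n + 1) → ℝ) : rfun n (rfun n v) = v := by
  funext i
  by_cases h : i = 0 <;> simp [rfun, h]

theorem continuous_rfun (n : ℕ) : Continuous (rfun n) := by
  refine continuous_pi fun i => ?_
  by_cases h : i = 0
  · simp only [rfun, h, if_true]; fun_prop
  · simp only [rfun, h, if_false]; fun_prop

/-- the reflection as a self map of the punctured space -/
def rmap (n : ℕ) : C(Pc (n + 1), Pc (n + 1)) :=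
  ⟨fun v => ⟨rfun n v.1, fun h => v.2 (by
    rw [← rfun_rfun n v.1, h]
    funext i
    by_cases hi : i = 0 <;> simp [rfun, hi])⟩, by
    apply Continuous.subtype_mk
    exact (continuous_rfun n).comp continuous_subtype_val⟩

theorem rmap_deg_zero : HasDeg 0 (rmap 0) (-1) := by
  have h01 : (rmap 0).comp (sphF 0 0) = sphF 0 1 := by
    apply ContinuousMap.ext
    intro t
    apply Subtype.ext
    funext j
    have ht : t.1 0 = 1 := by
      have := t.2.2
      simpa using this
    have hj : j = 0 := by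
      have := j.2
      exact Fin.ext (by simp)
    subst hj
    change rfun 0 (Lmap 1 (stdSimplex.map (Fin.succAbove 0) t)) 0 =
      Lmap 1 (stdSimplex.map (Fin.succAbove 1) t) 0
    have a1 : (stdSimplex.map (Fin.succAbove (0 : Fin 2)) t).1 0 = 0 := map_apply_zero 0 t
    have a2 : (stdSimplex.map (Fin.succAbove (0 : Fin 2)) t).1 1 = t.1 0 :=
      map_apply (Fin.succAbove (0 : Fin 2)) Fin.succAbove_right_injective t 0
    have a3 : (stdSimplex.map (Fin.succAbove (1 : Fin 2)) t).1 1 = 0 := map_apply_zero 1 t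
    have a4 : (stdSimplex.map (Fin.succAbove (1 : Fin 2)) t).1 0 = t.1 0 :=
      map_apply (Fin.succAbove (1 : Fin 2)) Fin.succAbove_right_injective t 0
    have b1 : rfun 0 (Lmap 1 (stdSimplex.map (Fin.succAbove 0) t)) 0 =
        -((stdSimplex.map (Fin.succAbove (0 : Fin 2)) t).1 1 -
          (stdSimplex.map (Fin.succAbove (0 : Fin 2)) t).1 0) := rfl
    have b2 : Lmap 1 (stdSimplex.map (Fin.succAbove 1) t) 0 =
        (stdSimplex.map (Fin.succAbove (1 : Fin 2)) t).1 1 -
          (stdSimplex.map (Fin.succAbove (1 : Fin 2)) t).1 0 := rfl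
    rw [b1, b2, a1, a2, a3, a4]
    ring
  have h10 : (rmap 0).comp (sphF 0 1) = sphF 0 0 := by
    rw [← h01]
    apply ContinuousMap.ext
    intro t
    apply Subtype.ext
    exact rfun_rfun 0 _
  have e : psh (rmap 0) 0 (fund 0) - (-1 : ℤ) • fund 0 = 0 := by
    unfold fund
    rw [Fin.sum_univ_two]
    simp only [Fin.val_zero, Fin.val_one, pow_zero, pow_one, map_add, map_smul, one_smul]
    rw [psh_single, psh_single, h01, h10]
    module
  unfold HasDeg
  rw [e]
  exact ⟨0, map_zero _⟩

theorem rmap_deg (n : ℕ) : HasDeg n (rmap n) (-1) := by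
  induction n with
  | zero => exact rmap_deg_zero
  | succ n ih =>
    apply deg_susp n (rmap n) (rmap (n + 1)) ?_ ?_ (-1) ih
    · intro v
      change rfun (n + 1) v.1 (Fin.last (n + 1)) = _
      simp [rfun]
    · intro v hv
      funext i
      change rfun (n + 1) v.1 i.castSucc = rfun n (ini v.1) i
      simp [rfun, ini]

/-! ### the homotopy -/

/-- points of `𝔼⁶` from complex triples -/
noncomputable def mkE (a b c : ℂ) : E 6 := !₂[a.re, a.im, b.re, b.im, c.re, c.im]

theorem T_mkE (a b c : ℂ) : T (mkE a b c) = (a, b, c) := by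
  rw [T_apply]
  refine Prod.ext ?_ (Prod.ext ?_ ?_) <;> apply Complex.ext <;> simp [mkE]

theorem continuous_mkE : Continuous (fun p : ℂ × ℂ × ℂ => mkE p.1 p.2.1 p.2.2) := by
  unfold mkE
  refine (PiLp.continuous_toLp 2 _).comp ?_
  refine continuous_pi fun i => ?_
  fin_cases i <;> simp <;> fun_prop

/-- the homotopy, as a map to `𝔼⁶` -/
noncomputable def hfun (v : Fin 3 → ℝ) (s : ℝ) : E 6 :=
  mkE (Complex.exp (2 * (s * Real.pi * Complex.I)) * (v 1 + v 2 * Complex.I))
    (Complex.exp (s * Real.pi * Complex.I) * (v 0 * Complex.I)) (v 1 - v 2 * Complex.I)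

theorem hfun_mem (v : Fin 3 → ℝ) (hv : v ≠ 0) (s : ℝ) : hfun v s ∈ Om := by
  rw [mem_Om, hfun, T_mkE, mem_cone]
  intro h
  simp only at h
  have h2 : Complex.exp (2 * (s * Real.pi * Complex.I)) =
      Complex.exp (s * Real.pi * Complex.I) ^ 2 := by
    rw [← Complex.exp_nat_mul]; norm_num
  rw [h2] at h
  have h3 : Complex.exp (s * Real.pi * Complex.I) ^ 2 *
      ((v 0 ^ 2 + v 1 ^ 2 + v 2 ^ 2 : ℝ) : ℂ) = 0 := by
    push_cast
    linear_combination h + Complex.exp (s * Real.pi * Complex.I) ^ 2 *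
      (v 0 ^ 2 + v 2 ^ 2) * Complex.I_sq
  have h4 := (mul_eq_zero.mp h3).resolve_left (pow_ne_zero 2 (Complex.exp_ne_zero _))
  have h5 : v 0 ^ 2 + v 1 ^ 2 + v 2 ^ 2 = 0 := by exact_mod_cast h4
  apply hv
  funext i
  fin_cases i
  · change v 0 = 0; nlinarith [sq_nonneg (v 0), sq_nonneg (v 1), sq_nonneg (v 2)]
  · change v 1 = 0; nlinarith [sq_nonneg (v 0), sq_nonneg (v 1), sq_nonneg (v 2)]
  · change v 2 = 0; nlinarith [sq_nonneg (v 0), sq_nonneg (v 1), sq_nonneg (v 2)]

theorem continuous_hfun : Continuous (fun p : Pc 3 × unitInterval => hfun p.1.1 p.2.1) := by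
  have hv : ∀ i : Fin 3, Continuous (fun p : Pc 3 × unitInterval => ((p.1.1 i : ℝ) : ℂ)) := by
    intro i
    exact Complex.continuous_ofReal.comp ((continuous_apply i).comp
      (continuous_subtype_val.comp continuous_fst))
  have hs : Continuous (fun p : Pc 3 × unitInterval => ((p.2.1 : ℝ) : ℂ)) :=
    Complex.continuous_ofReal.comp (continuous_subtype_val.comp continuous_snd)
  have hs1 : Continuous (fun p : Pc 3 × unitInterval =>
      ((p.2.1 : ℝ) : ℂ) * Real.pi * Complex.I) := (hs.mul continuous_const).mul continuous_const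
  unfold hfun
  refine continuous_mkE.comp (Continuous.prodMk ?_ (Continuous.prodMk ?_ ?_))
  · exact (Complex.continuous_exp.comp (continuous_const.mul hs1)).mul
      ((hv 1).add ((hv 2).mul continuous_const))
  · exact (Complex.continuous_exp.comp hs1).mul ((hv 0).mul continuous_const)
  · exact (hv 1).sub ((hv 2).mul continuous_const)

/-- the homotopy -/
noncomputable def hh : C(Pc 3 × unitInterval, Om) :=
  ⟨fun p => ⟨hfun p.1.1 p.2.1, hfun_mem _ p.1.2 _⟩, continuous_hfun.subtype_mk _⟩

/-- the punctured `3`-space in `Ω` -/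
noncomputable def jj : C(Pc 3, Om) := slice hh 0

theorem slice_one : slice hh 1 = jj.comp (rmap 2) := by
  apply ContinuousMap.ext
  intro v
  apply Subtype.ext
  apply T_injective
  change T (hfun v.1 ((1 : unitInterval) : ℝ)) = T (hfun (rfun 2 v.1) ((0 : unitInterval) : ℝ))
  unfold hfun
  rw [T_mkE, T_mkE]
  have e1 : Complex.exp (2 * (Real.pi * Complex.I)) = 1 := by
    rw [← mul_assoc]; exact Complex.exp_two_pi_mul_I
  simp [rfun, e1, Complex.exp_pi_mul_I]

theorem two_fund_bdy : IsBdy 2 (psh jj 2 ((2 : ℤ) • fund 2)) := by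
  have h1 := homotopy_bdy hh (fund_cyc 2)
  rw [slice_one] at h1
  change IsBdy 2 (psh (jj.comp (rmap 2)) 2 (fund 2) - psh jj 2 (fund 2)) at h1
  have h2 := bdy_psh jj (rmap_deg 2)
  rw [← psh_comp] at h1
  have e : psh jj 2 ((2 : ℤ) • fund 2) =
      psh jj 2 (psh (rmap 2) 2 (fund 2) - (-1 : ℤ) • fund 2) -
      (psh jj 2 (psh (rmap 2) 2 (fund 2)) - psh jj 2 (fund 2)) := by
    rw [map_smul, map_sub, map_smul]
    module
  rw [e]
  exact bdy_sub h2 h1

theorem two_fund_not_bdy : ¬ IsBdy 2 ((2 : ℤ) • fund 2) := by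
  intro h
  obtain ⟨ω, hω, h1⟩ := pc_coc 2
  have h2 := evm_bdy hω h
  rw [map_smul, h1] at h2
  simp at h2

/-! ### the section -/

/-- a real linear parametrisation of the section -/
noncomputable def J : (Fin 3 → ℝ) →ₗ[ℝ] E 6 where
  toFun v := !₂[v 1, v 2, 0, v 0, v 1, -v 2]
  map_add' x y := by
    ext i; fin_cases i <;> simp; ring
  map_smul' c x := by
    ext i; fin_cases i <;> simp

theorem J_apply (v : Fin 3 → ℝ) : J v = !₂[v 1, v 2, 0, v 0, v 1, -v 2] := rfl

theorem hfun_zero (v : Fin 3 → ℝ) : hfun v 0 = J v := by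
  apply T_injective
  rw [hfun, T_mkE, T_apply, J_apply]
  refine Prod.ext ?_ (Prod.ext ?_ ?_) <;> apply Complex.ext <;> simp

/-- inverse of the parametrisation -/
def Jinv (x : E 6) : Fin 3 → ℝ := ![x 3, x 0, x 1]

theorem Jinv_J (v : Fin 3 → ℝ) : Jinv (J v) = v := by
  funext i
  fin_cases i <;> simp [Jinv, J_apply]

theorem J_injective : Function.Injective J := Function.LeftInverse.injective Jinv_J

/-- the three dimensional section -/
noncomputable def AA : AffineSubspace ℝ (E 6) := (LinearMap.range J).toAffineSubspace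

theorem AA_nonempty : (AA : Set (E 6)).Nonempty := ⟨0, by
  rw [SetLike.mem_coe, AA, Submodule.mem_toAffineSubspace]; exact Submodule.zero_mem _⟩

theorem AA_finrank : Module.finrank ℝ AA.direction = 3 := by
  rw [AA, Submodule.toAffineSubspace_direction, LinearMap.finrank_range_of_inj J_injective]
  simp

theorem zero_notMem_Om : (0 : E 6) ∉ Om := by
  rw [mem_Om, map_zero, not_not]
  simp [mem_cone]

/-- the parametrisation of the section -/
noncomputable def gg : C(Pc 3, ↥(Om ∩ (AA : Set (E 6)))) :=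
  ⟨fun v => ⟨J v.1, by rw [← hfun_zero]; exact hfun_mem _ v.2 _, by
    rw [SetLike.mem_coe, AA, Submodule.mem_toAffineSubspace]; exact ⟨v.1, rfl⟩⟩, by
    apply Continuous.subtype_mk
    exact (LinearMap.continuous_of_finiteDimensional J).comp continuous_subtype_val⟩

/-- and its inverse -/
noncomputable def gi : C(↥(Om ∩ (AA : Set (E 6))), Pc 3) :=
  ⟨fun x => ⟨Jinv x.1, fun h => by
    obtain ⟨x, hx1, hx2⟩ := x
    rw [SetLike.mem_coe, AA, Submodule.mem_toAffineSubspace] at hx2
    obtain ⟨v, rfl⟩ := hx2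
    rw [Jinv_J] at h
    apply zero_notMem_Om
    rw [h, map_zero] at hx1
    exact hx1⟩, by
    apply Continuous.subtype_mk
    unfold Jinv
    refine continuous_pi fun i => ?_
    fin_cases i <;> simp <;> fun_prop⟩

theorem gi_gg : gi.comp gg = ContinuousMap.id _ := by
  apply ContinuousMap.ext
  intro v
  apply Subtype.ext
  exact Jinv_J v.1

theorem Om_not_lefschetz : ¬ LefschetzConvex 3 Om := by
  intro h
  have h1 := h AA AA_nonempty AA_finrank
  let f : C(↥(Om ∩ (AA : Set (E 6))), Om) := incl Om (AA : Set (E 6))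
  apply not_injective_of_cycle f 1 (psh gg 2 ((2 : ℤ) • fund 2)) (cyc_psh gg
    (cyc_smul (fund_cyc 2) 2)) ?_ ?_ h1
  · rw [psh_comp]
    have : f.comp gg = jj := by
      apply ContinuousMap.ext
      intro v
      apply Subtype.ext
      exact (hfun_zero v.1).symm
    rw [this]
    exact two_fund_bdy
  · intro hb
    have h2 := bdy_psh gi hb
    rw [psh_comp, gi_gg, psh_id] at h2
    exact two_fund_not_bdy h2

end Pool.Agent.Q189.KConv
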