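import Mathlib

/-! Definitions for MP_e72e80_gt: `k`-convex open sets and Lefschetz-`k`-convexity. -/

set_option autoImplicit false

open CategoryTheory AlgebraicTopology

namespace Pool.Agent.Q189.KConv

noncomputable section

/-- Euclidean `m`-space -/
abbrev E (m : ℕ) : Type := EuclideanSpace ℝ (Fin m)

/-- Mathlib's singular homology in degree `n` with integer coefficients. -/
def HF (n : ℕ) : TopCat.{0} ⥤ ModuleCat.{0} ℤ :=
  (singularHomologyFunctor (ModuleCat.{0} ℤ) n).obj (ModuleCat.of ℤ ℤ)

/-- The map induced by a continuous map in integral singular homology. -/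
def HMap (n : ℕ) {X Y : Type} [TopologicalSpace X] [TopologicalSpace Y] (f : C(X, Y)) :
    (HF n).obj (TopCat.of X) →ₗ[ℤ] (HF n).obj (TopCat.of Y) :=
  ((HF n).map (TopCat.ofHom f)).hom

/-- The map induced by a continuous map in integral singular homology of degree `n` is
injective. -/
def InjH (n : ℕ) {X Y : Type} [TopologicalSpace X] [TopologicalSpace Y] (f : C(X, Y)) : Prop :=
  Function.Injective (HMap n f)

section

variable {V : Type} [NormedAddCommGroup V] [NormedSpace ℝ V]

/-- the facet opposite to the vertex `v i` of the simplex with vertices `v 0, …, v (k+1)` -/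
def facet {k : ℕ} (v : Fin (k + 2) → V) (i : Fin (k + 2)) : Set V :=
  convexHull ℝ (v '' {i}ᶜ)

/-- `k`-convexity of a set `Ω`: for every `(k+1)`-dimensional simplex, with affinely independent
vertices `v 0, …, v (k+1)`, and every union of `k + 1` of its `k + 2` facets (all facets except
the one opposite to some vertex `v j`): if this union is contained in `Ω`, so is the simplex. -/
def KConvex (k : ℕ) (Ω : Set V) : Prop :=
  ∀ v : Fin (k + 2) → V, AffineIndependent ℝ v → ∀ j : Fin (k + 2),
    (∀ i, i ≠ j → facet v i ⊆ Ω) → convexHull ℝ (Set.range v) ⊆ Ω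

/-- The inclusion `Ω ∩ A → Ω`. -/
def incl (Ω A : Set V) : C(↥(Ω ∩ A), ↥Ω) :=
  ⟨Set.inclusion Set.inter_subset_left, continuous_inclusion Set.inter_subset_left⟩

/-- Lefschetz-`k`-convexity (`k ≥ 1`): for every `k`-dimensional affine subspace `A` the map
`H_{k-1}(Ω ∩ A) → H_{k-1}(Ω)` induced by the inclusion is injective. -/
def LefschetzConvex (k : ℕ) (Ω : Set V) : Prop :=
  ∀ A : AffineSubspace ℝ V, (A : Set V).Nonempty → Module.finrank ℝ A.direction = k →
    InjH (k - 1) (incl Ω A)

end

/-- the first complex coordinate `x₀ + i x₁` of a point of `𝔼⁶` -/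
def z1 (x : E 6) : ℂ := ⟨x 0, x 1⟩

/-- the second complex coordinate `x₂ + i x₃` -/
def z2 (x : E 6) : ℂ := ⟨x 2, x 3⟩

/-- the third complex coordinate `x₄ + i x₅` -/
def z3 (x : E 6) : ℂ := ⟨x 4, x 5⟩

/-- the complement in `𝔼⁶ = ℂ³` of the complex quadric cone `z₁ z₃ = z₂²` -/
def Om : Set (E 6) := {x | z1 x * z3 x ≠ z2 x ^ 2}

end

end Pool.Agent.Q189.KConv
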