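import Mathlib

/-!
# Klamkin's problem: the analytic part
-/

set_option autoImplicit false

open Real MeasureTheory Set
open scoped NNReal

namespace Q189.Klam

theorem lip_ac {f : ℝ → ℝ} {C : ℝ≥0} (hf : LipschitzWith C f) (x y : ℝ) :
    AbsolutelyContinuousOnInterval f x y :=
  hf.lipschitzOnWith.absolutelyContinuousOnInterval

theorem lip_ftc {f : ℝ → ℝ} {C : ℝ≥0} (hf : LipschitzWith C f) (x y : ℝ) :
    ∫ t in x..y, deriv f t = f y - f x := (lip_ac hf x y).integral_deriv_eq_sub

theorem lip_int {f : ℝ → ℝ} {C : ℝ≥0} (hf : LipschitzWith C f) (x y : ℝ) :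
    IntervalIntegrable (deriv f) volume x y := (lip_ac hf x y).intervalIntegrable_deriv

/-- an upper bound of the derivative bounds the increment -/
theorem lip_le {f : ℝ → ℝ} {C : ℝ≥0} (hf : LipschitzWith C f) {x y c : ℝ} (hxy : x ≤ y)
    (h : ∀ᵐ t, t ∈ Ioo x y → deriv f t ≤ c) : f y - f x ≤ c * (y - x) := by
  rw [← lip_ftc hf x y]
  have h1 : ∫ t in x..y, deriv f t ≤ ∫ t in x..y, c := by
    apply intervalIntegral.integral_mono_ae_restrict hxy (lip_int hf x y)
      intervalIntegrable_const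
    rw [Filter.EventuallyLE, ← restrict_Ioo_eq_restrict_Icc, ae_restrict_iff' measurableSet_Ioo]
    exact h
  rw [intervalIntegral.integral_const, smul_eq_mul] at h1
  linarith

/-- existence of a point with large derivative -/
theorem exists_deriv_gt {f : ℝ → ℝ} {C : ℝ≥0} (hf : LipschitzWith C f) {x y c : ℝ} (hxy : x < y)
    (h : c * (y - x) < f y - f x) {P : ℝ → Prop} (hP : ∀ᵐ t, P t) :
    ∃ t ∈ Ioo x y, P t ∧ c < deriv f t := by
  by_contra hcon
  push Not at hcon
  have := lip_le hf hxy.le (c := c) (by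
    filter_upwards [hP] with t ht htt
    exact hcon t htt ht)
  linarith

theorem exists_deriv_lt {f : ℝ → ℝ} {C : ℝ≥0} (hf : LipschitzWith C f) {x y c : ℝ} (hxy : x < y)
    (h : f y - f x < c * (y - x)) {P : ℝ → Prop} (hP : ∀ᵐ t, P t) :
    ∃ t ∈ Ioo x y, P t ∧ deriv f t < c := by
  obtain ⟨t, h1, h2, h3⟩ := exists_deriv_gt (f := fun t => -f t) (C := C) (hf.neg) hxy (c := -c)
    (by linarith) hP
  refine ⟨t, h1, h2, ?_⟩
  rw [deriv.fun_neg] at h3
  linarith

/-- trigonometric convexity compares the derivatives -/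
theorem slope_compare {G : ℝ → ℝ} (hconv : ∀ x y z, x < y → y < z → z - x < π →
    sin (z - x) * G y ≤ sin (z - y) * G x + sin (y - x) * G z) {t s d e : ℝ} (hts : t < s)
    (hs : s - t < π) (h1 : HasDerivAt G d t) (h2 : HasDerivAt G e s) :
    sin (s - t) * (d - e) ≤ (1 - cos (s - t)) * (G t + G s) := by
  set φ : ℝ → ℝ := fun z => sin (s - z) * G t + sin (z - t) * G s - sin (s - t) * G z with hφ
  have hpos : ∀ z ∈ Icc t s, 0 ≤ φ z := by
    intro z hz
    rcases hz.1.eq_or_lt with h | h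
    · rw [hφ, ← h]; simp
    · rcases hz.2.eq_or_lt with h' | h'
      · rw [hφ, h']; simp
      · have := hconv t z s h h' hs
        simp only [hφ]
        linarith
  have hφt : φ t = 0 := by simp [hφ]
  have hφs : φ s = 0 := by simp [hφ]
  have hd1 : HasDerivAt φ (-cos (s - t) * G t + cos (t - t) * G s - sin (s - t) * d) t := by
    have a1 : HasDerivAt (fun z => sin (s - z) * G t) (-cos (s - t) * G t) t := by
      have b1 : HasDerivAt (fun z : ℝ => s - z) (-1) t := by
        simpa using (hasDerivAt_id t).const_sub s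
      have b2 := (b1.sin).mul_const (G t)
      exact b2.congr_deriv (by ring)
    have a2 : HasDerivAt (fun z => sin (z - t) * G s) (cos (t - t) * G s) t := by
      have b1 : HasDerivAt (fun z : ℝ => z - t) 1 t := (hasDerivAt_id t).sub_const t
      have b2 := (b1.sin).mul_const (G s)
      exact b2.congr_deriv (by ring)
    exact (a1.add a2).sub (h1.const_mul _)
  have hd2 : HasDerivAt φ (-cos (s - s) * G t + cos (s - t) * G s - sin (s - t) * e) s := by
    have a1 : HasDerivAt (fun z => sin (s - z) * G t) (-cos (s - s) * G t) s := by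
      have b1 : HasDerivAt (fun z : ℝ => s - z) (-1) s := by
        simpa using (hasDerivAt_id s).const_sub s
      have b2 := (b1.sin).mul_const (G t)
      exact b2.congr_deriv (by ring)
    have a2 : HasDerivAt (fun z => sin (z - t) * G s) (cos (s - t) * G s) s := by
      have b1 : HasDerivAt (fun z : ℝ => z - t) 1 s := (hasDerivAt_id s).sub_const t
      have b2 := (b1.sin).mul_const (G s)
      exact b2.congr_deriv (by ring)
    exact (a1.add a2).sub (h2.const_mul _)
  have e1 : 0 ≤ -cos (s - t) * G t + cos (t - t) * G s - sin (s - t) * d := by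
    apply ge_of_tendsto (hd1.tendsto_slope.mono_left
      (nhdsWithin_mono t (fun z (hz : z ∈ Ioi t) => (ne_of_gt hz : z ≠ t))))
    have : ∀ᶠ z in nhdsWithin t (Ioi t), z ∈ Ioo t s := Ioo_mem_nhdsGT hts
    filter_upwards [this] with z hz
    rw [slope_def_field, hφt, sub_zero]
    exact div_nonneg (hpos z ⟨hz.1.le, hz.2.le⟩) (by linarith [hz.1])
  have e2 : -cos (s - s) * G t + cos (s - t) * G s - sin (s - t) * e ≤ 0 := by
    apply le_of_tendsto (hd2.tendsto_slope.mono_left
      (nhdsWithin_mono s (fun z (hz : z ∈ Iio s) => (ne_of_lt hz : z ≠ s))))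
    have : ∀ᶠ z in nhdsWithin s (Iio s), z ∈ Ioo t s := Ioo_mem_nhdsLT hts
    filter_upwards [this] with z hz
    rw [slope_def_field, hφs, sub_zero]
    exact div_nonpos_of_nonneg_of_nonpos (hpos z ⟨hz.1.le, hz.2.le⟩) (by linarith [hz.2])
  rw [sub_self, cos_zero] at e1 e2
  linarith

theorem one_sub_cos_le {d : ℝ} (h0 : 0 < d) (h1 : d ≤ 1) : 1 - cos d ≤ d * sin d := by
  have a1 := one_sub_sq_div_two_le_cos (x := d)
  have a2 := sin_gt_sub_cube h0
  have a3 : d / 2 ≤ sin d := by nlinarith [mul_pos h0 h0]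
  nlinarith

/-- slope comparison for the reciprocal of the radius -/
theorem slope_compare' {b : ℝ → ℝ} (hconv : ∀ x y z, x < y → y < z → z - x < π →
    sin (z - x) * (b y)⁻¹ ≤ sin (z - y) * (b x)⁻¹ + sin (y - x) * (b z)⁻¹)
    {r₀ M : ℝ} (hr0 : 0 < r₀) (hlo : ∀ t, r₀ ≤ b t) (hM : ∀ t, b t ≤ M) {t s δ : ℝ} (hδ : 0 < δ)
    (hts : t < s) (hs : s - t ≤ 1) (hd1 : DifferentiableAt ℝ b t) (hd2 : DifferentiableAt ℝ b s)
    (h1 : deriv b t ≤ -δ) (h2 : δ ≤ deriv b s) : δ * r₀ ≤ M ^ 2 * (s - t) := by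
  have hpos : ∀ t, 0 < b t := fun t => hr0.trans_le (hlo t)
  have g1 := hd1.hasDerivAt.inv (hpos t).ne'
  have g2 := hd2.hasDerivAt.inv (hpos s).ne'
  have hc := slope_compare (G := fun t => (b t)⁻¹) hconv hts
    (by linarith [pi_gt_three]) g1 g2
  have hsin : 0 < sin (s - t) := sin_pos_of_pos_of_lt_pi (by linarith) (by linarith [pi_gt_three])
  have hcos := one_sub_cos_le (show 0 < s - t by linarith) hs
  have hM0 : 0 < M := (hpos t).trans_le (hM t)
  have k1 : (b t)⁻¹ ≤ r₀⁻¹ := inv_anti₀ hr0 (hlo t)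
  have k2 : (b s)⁻¹ ≤ r₀⁻¹ := inv_anti₀ hr0 (hlo s)
  have k0 : 0 ≤ (b t)⁻¹ + (b s)⁻¹ := by
    have := hpos t
    have := hpos s
    positivity
  have l1 : δ / M ^ 2 ≤ -deriv b t / b t ^ 2 := by
    apply div_le_div₀ (by linarith) (by linarith) (pow_pos (hpos t) 2)
    exact pow_le_pow_left₀ (hpos t).le (hM t) 2
  have l2 : δ / M ^ 2 ≤ deriv b s / b s ^ 2 := by
    apply div_le_div₀ (by linarith) (by linarith) (pow_pos (hpos s) 2)
    exact pow_le_pow_left₀ (hpos s).le (hM s) 2
  have e1 : -deriv b s / b s ^ 2 = -(deriv b s / b s ^ 2) := neg_div _ _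
  have h3 : sin (s - t) * (2 * (δ / M ^ 2)) ≤ sin (s - t) * ((s - t) * (2 * r₀⁻¹)) := by
    calc sin (s - t) * (2 * (δ / M ^ 2))
        ≤ sin (s - t) * (-deriv b t / b t ^ 2 - -deriv b s / b s ^ 2) := by
          apply mul_le_mul_of_nonneg_left _ hsin.le
          rw [e1]; linarith
      _ ≤ (1 - cos (s - t)) * ((b t)⁻¹ + (b s)⁻¹) := hc
      _ ≤ ((s - t) * sin (s - t)) * ((b t)⁻¹ + (b s)⁻¹) :=
          mul_le_mul_of_nonneg_right hcos k0
      _ ≤ ((s - t) * sin (s - t)) * (2 * r₀⁻¹) := by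
          apply mul_le_mul_of_nonneg_left (by linarith)
          exact mul_nonneg (by linarith) hsin.le
      _ = _ := by ring
  have h4 : 2 * (δ / M ^ 2) ≤ (s - t) * (2 * r₀⁻¹) := le_of_mul_le_mul_left h3 hsin
  have h5 : δ / M ^ 2 ≤ (s - t) / r₀ := by
    rw [div_eq_mul_inv (s - t)]
    linarith
  rw [div_le_div_iff₀ (by positivity) hr0] at h5
  linarith

/-- no interior minimum of the small radius -/
theorem no_min {a b : ℝ → ℝ} {C : ℝ≥0} (ha : Continuous a) (hb : LipschitzWith C b)
    (hconv : ∀ x y z, x < y → y < z → z - x < π →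
    sin (z - x) * (b y)⁻¹ ≤ sin (z - y) * (b x)⁻¹ + sin (y - x) * (b z)⁻¹)
    {r₀ M : ℝ} (hr0 : 0 < r₀) (hlo : ∀ t, r₀ ≤ b t) (hM : ∀ t, b t ≤ M)
    (hq : ∀ᵐ t, a t ^ 2 + deriv a t ^ 2 = b t ^ 2 + deriv b t ^ 2) {x m y : ℝ} (hxm : x < m)
    (hmy : m < y) (hab : b m < a m) (hmin : ∀ t ∈ Icc x y, b m ≤ b t) : False := by
  have hbpos : ∀ t, 0 < b t := fun t => hr0.trans_le (hlo t)
  -- a lower bound of the derivative near `m`
  obtain ⟨δ, hδ, hδ'⟩ : ∃ δ > 0, ∀ᶠ t in nhds m, δ ^ 2 < a t ^ 2 - b t ^ 2 := by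
    have h0 : 0 < a m ^ 2 - b m ^ 2 := by nlinarith [hbpos m]
    refine ⟨√((a m ^ 2 - b m ^ 2) / 2), by positivity, ?_⟩
    rw [sq_sqrt (by positivity)]
    have hc : ContinuousAt (fun t => a t ^ 2 - b t ^ 2) m := by
      have := hb.continuous
      fun_prop
    exact hc.eventually_const_lt (by linarith)
  obtain ⟨ε, hε, hε'⟩ := Metric.eventually_nhds_iff.1 hδ'
  set η : ℝ := min (min (ε / 2) ((min (m - x) (y - m)) / 2)) (min (1 / 2) (δ * r₀ / (4 * M ^ 2)))
    with hη
  have hM0 : 0 < M := (hbpos m).trans_le (hM m)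
  have hη0 : 0 < η := by
    have : 0 < m - x := by linarith
    have : 0 < y - m := by linarith
    positivity
  have η1 : η ≤ ε / 2 := (min_le_left _ _).trans (min_le_left _ _)
  have η2 : η ≤ (m - x) / 2 := by
    refine ((min_le_left _ _).trans (min_le_right _ _)).trans ?_
    have := min_le_left (m - x) (y - m)
    linarith
  have η3 : η ≤ (y - m) / 2 := by
    refine ((min_le_left _ _).trans (min_le_right _ _)).trans ?_
    have := min_le_right (m - x) (y - m)
    linarith
  have η4 : η ≤ 1 / 2 := (min_le_right _ _).trans (min_le_left _ _)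
  have η5 : η ≤ δ * r₀ / (4 * M ^ 2) := (min_le_right _ _).trans (min_le_right _ _)
  have hdiff := hb.ae_differentiableAt (μ := volume)
  have hP : ∀ᵐ t, DifferentiableAt ℝ b t ∧ (dist t m < ε → δ ≤ |deriv b t|) := by
    filter_upwards [hdiff, hq] with t h1 h2
    refine ⟨h1, fun h3 => ?_⟩
    have h4 := hε' h3
    have h5 : δ ^ 2 ≤ |deriv b t| ^ 2 := by
      rw [sq_abs]
      nlinarith [sq_nonneg (deriv a t)]
    exact (abs_le_of_sq_le_sq h5 (abs_nonneg _) |> fun h => (le_abs_self δ).trans h)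
  obtain ⟨t, ht, ⟨ht1, ht2⟩, ht3⟩ := exists_deriv_lt hb (x := m - η) (y := m) (c := δ / 2)
    (by linarith) (by
      have := hmin (m - η) ⟨by linarith, by linarith⟩
      nlinarith) hP
  obtain ⟨s, hs, ⟨hs1, hs2⟩, hs3⟩ := exists_deriv_gt hb (x := m) (y := m + η) (c := -(δ / 2))
    (by linarith) (by
      have := hmin (m + η) ⟨by linarith, by linarith⟩
      nlinarith) hP
  have d1 : dist t m < ε := by
    rw [Real.dist_eq, abs_lt]
    constructor <;> linarith [ht.1, ht.2]
  have d2 : dist s m < ε := by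
    rw [Real.dist_eq, abs_lt]
    constructor <;> linarith [hs.1, hs.2]
  have e1 : deriv b t ≤ -δ := by
    rcases le_abs.1 (ht2 d1) with h | h
    · linarith
    · linarith
  have e2 : δ ≤ deriv b s := by
    rcases le_abs.1 (hs2 d2) with h | h
    · exact h
    · linarith
  have := slope_compare' hconv hr0 hlo hM hδ (t := t) (s := s) (by linarith [ht.2, hs.1])
    (by linarith [ht.1, hs.2]) ht1 hs1 e1 e2
  have h6 : s - t < 2 * η := by linarith [ht.1, hs.2]
  have h7 : η * (4 * M ^ 2) ≤ δ * r₀ := by rwa [le_div_iff₀ (by positivity)] at η5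
  have h8 : M ^ 2 * (s - t) < M ^ 2 * (2 * η) := mul_lt_mul_of_pos_left h6 (by positivity)
  have h9 : 0 < M ^ 2 * η := by positivity
  nlinarith

/-- **The analytic core.** -/
theorem radial_symm {r : ℝ → ℝ} {C : ℝ≥0} (hr : LipschitzWith C r) (hpos : ∀ t, 0 < r t)
    (hper : Function.Periodic r (2 * π))
    (hconv : ∀ x y z, x < y → y < z → z - x < π →
      sin (z - x) * (r y)⁻¹ ≤ sin (z - y) * (r x)⁻¹ + sin (y - x) * (r z)⁻¹)
    (hq : ∀ᵐ t, r t ^ 2 + deriv r t ^ 2 = r (t + π) ^ 2 + deriv r (t + π) ^ 2) :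
    ∀ t, r (t + π) = r t := by
  -- bounds
  obtain ⟨r₀, M, hr0, hlo, hM⟩ : ∃ r₀ M, 0 < r₀ ∧ (∀ t, r₀ ≤ r t) ∧ ∀ t, r t ≤ M := by
    have hc : ContinuousOn r (Icc 0 (0 + 2 * π)) := hr.continuous.continuousOn
    have hne : (Icc (0 : ℝ) (0 + 2 * π)).Nonempty := ⟨0, by simp [pi_pos.le]⟩
    obtain ⟨x, _, hx⟩ := isCompact_Icc.exists_isMinOn hne hc
    obtain ⟨y, _, hy⟩ := isCompact_Icc.exists_isMaxOn hne hc
    refine ⟨r x, r y, hpos x, fun t => ?_, fun t => ?_⟩
    · have : r t ∈ r '' Icc 0 (0 + 2 * π) := by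
        rw [hper.image_Icc Real.two_pi_pos 0]; exact ⟨t, rfl⟩
      obtain ⟨s, hs, hst⟩ := this
      rw [← hst]; exact hx hs
    · have : r t ∈ r '' Icc 0 (0 + 2 * π) := by
        rw [hper.image_Icc Real.two_pi_pos 0]; exact ⟨t, rfl⟩
      obtain ⟨s, hs, hst⟩ := this
      rw [← hst]; exact hy hs
  set b : ℝ → ℝ := fun t => r (t + π) with hb
  have hbL : LipschitzWith C b := by
    intro x y
    have := hr (x + π) (y + π)
    rwa [edist_add_right] at this
  have hbd : ∀ t, deriv b t = deriv r (t + π) := fun t => deriv_comp_add_const r π t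
  have hbconv : ∀ x y z, x < y → y < z → z - x < π →
      sin (z - x) * (b y)⁻¹ ≤ sin (z - y) * (b x)⁻¹ + sin (y - x) * (b z)⁻¹ := by
    intro x y z h1 h2 h3
    have := hconv (x + π) (y + π) (z + π) (by linarith) (by linarith) (by linarith)
    simpa only [add_sub_add_right_eq_sub] using this
  have hq' : ∀ᵐ t, r t ^ 2 + deriv r t ^ 2 = b t ^ 2 + deriv b t ^ 2 := by
    filter_upwards [hq] with t ht
    rw [hbd]
    exact ht
  have hbc : Continuous b := hbL.continuous
  have hrc : Continuous r := hr.continuous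
  have hbb : ∀ t, b (t + π) = r t := by
    intro t
    simp only [hb]
    rw [add_assoc, ← two_mul, hper]
  -- main claim
  have main : ∀ t, r t ≤ b t := by
    intro t₀
    by_contra hlt
    push Not at hlt
    set A : Set ℝ := {t | t ≤ t₀ ∧ r t ≤ b t} with hA
    set B : Set ℝ := {t | t₀ ≤ t ∧ r t ≤ b t} with hB
    have hAne : A.Nonempty := by
      refine ⟨t₀ - π, by linarith [pi_pos], ?_⟩
      have h1 : b (t₀ - π) = r t₀ := by simp only [hb]; rw [sub_add_cancel]
      have h2 : r (t₀ - π) = b t₀ := by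
        have := hbb (t₀ - π)
        rw [sub_add_cancel] at this
        exact this.symm
      rw [h1, h2]
      exact hlt.le
    have hBne : B.Nonempty := by
      refine ⟨t₀ + π, by linarith [pi_pos], ?_⟩
      rw [hbb]
      exact hlt.le
    have hAb : BddAbove A := ⟨t₀, fun t ht => ht.1⟩
    have hBb : BddBelow B := ⟨t₀, fun t ht => ht.1⟩
    have hAc : IsClosed A := (isClosed_le continuous_id continuous_const).inter
      (isClosed_le hrc hbc)
    have hBc : IsClosed B := (isClosed_le continuous_const continuous_id).inter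
      (isClosed_le hrc hbc)
    obtain ⟨hp1, hp2⟩ : sSup A ∈ A := hAc.csSup_mem hAne hAb
    obtain ⟨hs1, hs2⟩ : sInf B ∈ B := hBc.csInf_mem hBne hBb
    set p := sSup A with hp
    set s := sInf B with hs
    have hpt : p < t₀ := lt_of_le_of_ne hp1 (fun h => by rw [h] at hp2; linarith)
    have hts : t₀ < s := lt_of_le_of_ne hs1 (fun h => by rw [← h] at hs2; linarith)
    have hin : ∀ t ∈ Ioo p s, b t < r t := by
      intro t ht
      by_contra h0
      push Not at h0
      rcases le_total t t₀ with h | h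
      · have : t ≤ p := le_csSup hAb ⟨h, h0⟩
        linarith [ht.1]
      · have : s ≤ t := csInf_le hBb ⟨h, h0⟩
        linarith [ht.2]
    -- the maximum of `b`
    obtain ⟨q, hqI, hqmax⟩ := isCompact_Icc.exists_isMaxOn (α := ℝ) (f := b)
      (s := Icc p s) ⟨t₀, hpt.le, hts.le⟩ hbc.continuousOn
    have noMin : ∀ x m y, p ≤ x → x < m → m < y → y ≤ s → (∀ t ∈ Icc x y, b m ≤ b t) → False := by
      intro x m y h1 h2 h3 h4 h5
      exact no_min hrc hbL hbconv hr0 (fun t => hlo _) (fun t => hM _) hq' h2 h3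
        (hin m ⟨by linarith, by linarith⟩) h5
    have anti : ∀ x ∈ Icc q s, ∀ y ∈ Icc q s, x < y → b y ≤ b x := by
      intro x hx y hy hxy
      by_contra hcon
      push Not at hcon
      obtain ⟨m, hmI, hmin⟩ := isCompact_Icc.exists_isMinOn (α := ℝ) (f := b)
        (s := Icc q y) ⟨x, hx.1, hxy.le⟩ hbc.continuousOn
      have h1 : b m ≤ b x := hmin ⟨hx.1, hxy.le⟩
      have h2 : b y ≤ b q := hqmax ⟨hqI.1.trans hy.1, hy.2⟩
      have h3 : q < m := lt_of_le_of_ne hmI.1 (fun h => by rw [← h] at h1; linarith)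
      have h4 : m < y := lt_of_le_of_ne hmI.2 (fun h => by rw [h] at h1; linarith)
      exact noMin q m y hqI.1 h3 h4 hy.2 (fun t ht => hmin ht)
    have mono : ∀ x ∈ Icc p q, ∀ y ∈ Icc p q, x < y → b x ≤ b y := by
      intro x hx y hy hxy
      by_contra hcon
      push Not at hcon
      obtain ⟨m, hmI, hmin⟩ := isCompact_Icc.exists_isMinOn (α := ℝ) (f := b)
        (s := Icc x q) ⟨y, hxy.le, hy.2⟩ hbc.continuousOn
      have h1 : b m ≤ b y := hmin ⟨hxy.le, hy.2⟩
      have h2 : b x ≤ b q := hqmax ⟨hx.1, hx.2.trans hqI.2⟩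
      have h3 : x < m := lt_of_le_of_ne hmI.1 (fun h => by rw [← h] at h1; linarith)
      have h4 : m < q := lt_of_le_of_ne hmI.2 (fun h => by rw [h] at h1; linarith)
      exact noMin x m q hx.1 h3 h4 hqI.2 (fun t ht => hmin ht)
    have hdiffb := hbL.ae_differentiableAt (μ := volume)
    have hdiffr := hr.ae_differentiableAt (μ := volume)
    have hL : LipschitzWith (C + C) (fun t => b t - r t) := hbL.sub hr
    rcases le_total t₀ q with hq0 | hq0
    · -- left part: `b` is monotone on `[p, q]`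
      have key : ∀ᵐ t, t ∈ Ioo p t₀ → deriv (fun t => r t - b t) t ≤ 0 := by
        filter_upwards [hdiffb, hdiffr, hq'] with t h1 h2 h3 ht
        rw [deriv_fun_sub h2 h1]
        have hd : 0 ≤ deriv b t := by
          apply ge_of_tendsto (h1.hasDerivAt.tendsto_slope.mono_left
            (nhdsWithin_mono t (fun z (hz : z ∈ Ioi t) => (ne_of_gt hz : z ≠ t))))
          have : ∀ᶠ z in nhdsWithin t (Ioi t), z ∈ Ioo t q := Ioo_mem_nhdsGT (by linarith [ht.2])
          filter_upwards [this] with z hz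
          rw [slope_def_field]
          have := mono t ⟨ht.1.le, by linarith [ht.2]⟩ z ⟨by linarith [ht.1, hz.1], hz.2.le⟩ hz.1
          exact div_nonneg (by linarith) (by linarith [hz.1])
        have hlt' := hin t ⟨ht.1, by linarith [ht.2]⟩
        have h4 : deriv r t ^ 2 ≤ deriv b t ^ 2 := by
          have := hpos (t + π)
          have hb0 : 0 < b t := this
          nlinarith
        have h5 := abs_le_of_sq_le_sq h4 hd
        have := (abs_le.1 h5).2
        linarith
      have hLr : LipschitzWith (C + C) (fun t => r t - b t) := hr.sub hbL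
      have := lip_le hLr hpt.le key
      rw [zero_mul] at this
      linarith
    · -- right part
      have key : ∀ᵐ t, t ∈ Ioo t₀ s → deriv (fun t => b t - r t) t ≤ 0 := by
        filter_upwards [hdiffb, hdiffr, hq'] with t h1 h2 h3 ht
        rw [deriv_fun_sub h1 h2]
        have hd : deriv b t ≤ 0 := by
          apply le_of_tendsto (h1.hasDerivAt.tendsto_slope.mono_left
            (nhdsWithin_mono t (fun z (hz : z ∈ Ioi t) => (ne_of_gt hz : z ≠ t))))
          have : ∀ᶠ z in nhdsWithin t (Ioi t), z ∈ Ioo t s := Ioo_mem_nhdsGT ht.2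
          filter_upwards [this] with z hz
          rw [slope_def_field]
          have := anti t ⟨by linarith [ht.1], ht.2.le⟩ z ⟨by linarith [ht.1, hz.1], hz.2.le⟩ hz.1
          exact div_nonpos_of_nonpos_of_nonneg (by linarith) (by linarith [hz.1])
        have hlt' := hin t ⟨by linarith [ht.1], ht.2⟩
        have h4 : deriv r t ^ 2 ≤ (-deriv b t) ^ 2 := by
          have hb0 : 0 < b t := hpos (t + π)
          nlinarith
        have h5 := abs_le_of_sq_le_sq h4 (by linarith)
        have := (abs_le.1 h5).1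
        linarith
      have := lip_le hL hts.le key
      rw [zero_mul] at this
      linarith
  intro t
  apply le_antisymm _ (main t)
  have := main (t + π)
  rw [hbb] at this
  exact this

end Q189.Klam
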