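import Pool.Agent.Q189.Klam1
import Pool.Agent.Q189.Iso3

/-!
# Klamkin's problem: the length of arcs in polar coordinates
-/

set_option autoImplicit false

open Real MeasureTheory Set Filter
open scoped NNReal ENNReal Topology

namespace Q189.Klam

open Q189.IsoDefs Q189.Iso

/-- the polar curve with radius `r` -/
noncomputable def gam (r : ℝ → ℝ) (t : ℝ) : E2 := r t • uu t

theorem dot_gam (r : ℝ → ℝ) (t ψ : ℝ) : dot (gam r t) ψ = r t * cos (t - ψ) := by
  simp only [gam, dot, uu, PiLp.smul_apply, smul_eq_mul, Matrix.cons_val_zero,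
    Matrix.cons_val_one]
  rw [cos_sub]
  ring

/-- the speed -/
noncomputable def speed (r : ℝ → ℝ) (t : ℝ) : ℝ := √(r t ^ 2 + deriv r t ^ 2)

section
variable {r : ℝ → ℝ} {C : ℝ≥0} (hr : LipschitzWith C r) {M : ℝ} (hM : ∀ t, |r t| ≤ M)

include hM in
theorem M_nonneg : 0 ≤ M := (abs_nonneg _).trans (hM 0)

include hr hM in
theorem speed_le (t : ℝ) : speed r t ≤ C + M := by
  have h1 : |deriv r t| ≤ C := norm_deriv_le_of_lipschitz hr
  have h2 := hM t
  have hM0 := M_nonneg hM
  unfold speed
  apply sqrt_le_iff.2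
  refine ⟨by positivity, ?_⟩
  have h3 : r t ^ 2 ≤ M ^ 2 := by
    rw [← sq_abs]
    exact pow_le_pow_left₀ (abs_nonneg _) h2 2
  have h4 : deriv r t ^ 2 ≤ (C : ℝ) ^ 2 := by
    rw [← sq_abs]
    exact pow_le_pow_left₀ (abs_nonneg _) h1 2
  have : 0 ≤ (C : ℝ) * M := mul_nonneg C.2 hM0
  nlinarith

theorem speed_nonneg (t : ℝ) : 0 ≤ speed r t := sqrt_nonneg _

include hr in
theorem measurable_speed : Measurable (speed r) := by
  unfold speed
  have h1 := hr.continuous.measurable
  have h2 : Measurable (deriv r) := measurable_deriv r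
  exact ((h1.pow_const 2).add (h2.pow_const 2)).sqrt

include hr hM in
theorem speed_int (x y : ℝ) : IntervalIntegrable (speed r) volume x y := by
  apply IntervalIntegrable.mono_fun (g := speed r) (f := fun _ => (C : ℝ) + M)
    intervalIntegrable_const (measurable_speed hr).aestronglyMeasurable
  refine Eventually.of_forall fun t => ?_
  simp only
  rw [Real.norm_of_nonneg (speed_nonneg t), Real.norm_of_nonneg]
  · exact speed_le hr hM t
  · have := M_nonneg hM
    positivity

include hr hM in
theorem int_speed_le {x y : ℝ} (hxy : x ≤ y) : ∫ t in x..y, speed r t ≤ (C + M) * (y - x) := by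
  have h := intervalIntegral.integral_mono hxy (speed_int hr hM x y)
    (intervalIntegrable_const (c := (C : ℝ) + M)) (fun t => speed_le hr hM t)
  rw [intervalIntegral.integral_const, smul_eq_mul] at h
  linarith

theorem int_speed_nonneg {x y : ℝ} (hxy : x ≤ y) : 0 ≤ ∫ t in x..y, speed r t :=
  intervalIntegral.integral_nonneg hxy fun t _ => speed_nonneg t

include hr hM in
theorem int_speed_mono {a x y b : ℝ} (h1 : a ≤ x) (h2 : x ≤ y) (h3 : y ≤ b) :
    ∫ t in x..y, speed r t ≤ ∫ t in a..b, speed r t := by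
  have e1 := intervalIntegral.integral_add_adjacent_intervals (speed_int hr hM a x)
    (speed_int hr hM x y)
  have e2 := intervalIntegral.integral_add_adjacent_intervals (speed_int hr hM a y)
    (speed_int hr hM y b)
  have h4 : 0 ≤ ∫ t in a..x, speed r t := int_speed_nonneg h1
  have h5 : 0 ≤ ∫ t in y..b, speed r t := int_speed_nonneg h3
  linarith

include hr hM in
/-- the coordinate functions are Lipschitz -/
theorem coord_lip (ψ : ℝ) : LipschitzWith (C + M.toNNReal) fun t => r t * cos (t - ψ) := by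
  have hM0 := M_nonneg hM
  apply LipschitzWith.of_dist_le_mul
  intro x y
  rw [Real.dist_eq, Real.dist_eq, NNReal.coe_add, Real.coe_toNNReal _ hM0]
  have e : r x * cos (x - ψ) - r y * cos (y - ψ) =
      (r x - r y) * cos (x - ψ) + r y * (cos (x - ψ) - cos (y - ψ)) := by ring
  rw [e]
  have h1 : |r x - r y| ≤ C * |x - y| := by
    have := hr.dist_le_mul x y
    rwa [Real.dist_eq, Real.dist_eq] at this
  have h2 : |cos (x - ψ) - cos (y - ψ)| ≤ |x - y| := by
    have := Real.abs_cos_sub_cos_le (x - ψ) (y - ψ)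
    rwa [sub_sub_sub_cancel_right] at this
  calc |(r x - r y) * cos (x - ψ) + r y * (cos (x - ψ) - cos (y - ψ))|
      ≤ |(r x - r y) * cos (x - ψ)| + |r y * (cos (x - ψ) - cos (y - ψ))| := abs_add_le _ _
    _ = |r x - r y| * |cos (x - ψ)| + |r y| * |cos (x - ψ) - cos (y - ψ)| := by
        rw [abs_mul, abs_mul]
    _ ≤ (C * |x - y|) * 1 + M * |x - y| := by
        apply add_le_add
        · exact mul_le_mul h1 (Real.abs_cos_le_one _) (abs_nonneg _) (by positivity)
        · exact mul_le_mul (hM y) h2 (abs_nonneg _) hM0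
    _ = _ := by ring

theorem coord_deriv {t : ℝ} (h : DifferentiableAt ℝ r t) (ψ : ℝ) :
    HasDerivAt (fun t => r t * cos (t - ψ)) (deriv r t * cos (t - ψ) - r t * sin (t - ψ)) t := by
  have h1 : HasDerivAt (fun t : ℝ => t - ψ) 1 t := (hasDerivAt_id t).sub_const ψ
  have h2 := h.hasDerivAt.mul h1.cos
  exact h2.congr_deriv (by ring)

theorem coord_deriv_le (t ψ : ℝ) : deriv r t * cos (t - ψ) - r t * sin (t - ψ) ≤ speed r t := by
  unfold speed
  apply le_sqrt_of_sq_le
  have := sin_sq_add_cos_sq (t - ψ)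
  nlinarith [sq_nonneg (deriv r t * sin (t - ψ) + r t * cos (t - ψ))]

theorem exists_coord_deriv (t : ℝ) : ∃ ψ, deriv r t * cos (t - ψ) - r t * sin (t - ψ) =
    speed r t := by
  obtain ⟨φ, _, _, h1, h2⟩ := exists_polar (v := (!₂[deriv r t, r t] : E2)) 0
  have hn : ‖(!₂[deriv r t, r t] : E2)‖ = speed r t := by
    have h3 := norm_sq (!₂[deriv r t, r t] : E2)
    simp only [Matrix.cons_val_zero, Matrix.cons_val_one] at h3
    unfold speed
    rw [add_comm (r t ^ 2), ← h3, sqrt_sq (norm_nonneg _)]
  rw [hn] at h1 h2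
  simp only [Matrix.cons_val_zero, Matrix.cons_val_one] at h1 h2
  refine ⟨t + φ, ?_⟩
  have e : t - (t + φ) = -φ := by ring
  rw [e, cos_neg, sin_neg, h1]
  have h4 : r t = speed r t * sin φ := h2
  rw [h4]
  have h5 := sin_sq_add_cos_sq φ
  have h6 : speed r t * cos φ * cos φ - speed r t * sin φ * -sin φ =
      speed r t * (sin φ ^ 2 + cos φ ^ 2) := by ring
  have h7 : ∀ z : ℝ, z = speed r t → z * cos φ * cos φ - z * sin φ * -sin φ = z := by
    intro z _
    have : z * cos φ * cos φ - z * sin φ * -sin φ = z * (sin φ ^ 2 + cos φ ^ 2) := by ring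
    rw [this, h5, mul_one]
  exact h7 (speed r t) rfl

include hr hM in
theorem coord_le (ψ : ℝ) {x y : ℝ} (hxy : x ≤ y) :
    dot (gam r y) ψ - dot (gam r x) ψ ≤ ∫ t in x..y, speed r t := by
  have hL := coord_lip hr hM ψ
  rw [dot_gam, dot_gam]
  have h1 := lip_ftc hL x y
  rw [← h1]
  apply intervalIntegral.integral_mono_ae_restrict hxy (lip_int hL x y) (speed_int hr hM x y)
  apply ae_restrict_of_ae
  filter_upwards [hr.ae_differentiableAt (μ := volume)] with t ht
  rw [(coord_deriv ht ψ).deriv]
  exact coord_deriv_le t ψ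

include hr hM in
theorem dist_gam_le {x y : ℝ} (hxy : x ≤ y) :
    dist (gam r y) (gam r x) ≤ ∫ t in x..y, speed r t := by
  obtain ⟨φ, _, _, h1, h2⟩ := exists_polar (v := gam r y - gam r x) 0
  have h3 := coord_le hr hM φ hxy
  have h4 : dot (gam r y) φ - dot (gam r x) φ = ‖gam r y - gam r x‖ := by
    rw [← dot_sub]
    unfold dot
    rw [h1, h2]
    have h5 := sin_sq_add_cos_sq φ
    have h6 : ‖gam r y - gam r x‖ * cos φ * cos φ + ‖gam r y - gam r x‖ * sin φ * sin φ =
        ‖gam r y - gam r x‖ * (sin φ ^ 2 + cos φ ^ 2) := by ring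
    rw [h6, h5, mul_one]
  rw [dist_eq_norm, ← h4]
  exact h3

include hr hM in
/-- upper bound of the length of an arc -/
theorem arc_le {x y : ℝ} (hxy : x ≤ y) :
    μH[1] (gam r '' Icc x y) ≤ ENNReal.ofReal (∫ t in x..y, speed r t) := by
  have hM0 := M_nonneg hM
  set h : ℕ → ℝ := fun n => (y - x) / (n + 1) with hh
  have hh0 : ∀ n, 0 ≤ h n := fun n => div_nonneg (by linarith) (by positivity)
  have hyx : ∀ n : ℕ, x + ((n + 1 : ℕ) : ℝ) * h n = y := by
    intro n
    simp only [hh]
    push_cast
    field_simp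
    ring
  set T : ∀ n : ℕ, Fin (n + 1) → Set E2 := fun n i =>
    gam r '' Icc (x + (i : ℕ) * h n) (x + ((i : ℕ) + 1 : ℕ) * h n) with hT
  have hdiam : ∀ n i, Metric.ediam (T n i) ≤ ENNReal.ofReal
      (∫ t in (x + (i : ℕ) * h n)..(x + ((i : ℕ) + 1 : ℕ) * h n), speed r t) := by
    intro n i
    apply Metric.ediam_le
    rintro _ ⟨a, ha, rfl⟩ _ ⟨b, hb, rfl⟩
    rcases le_total a b with hab | hab
    · rw [edist_comm, edist_dist]
      apply ENNReal.ofReal_le_ofReal
      exact (dist_gam_le hr hM hab).trans (int_speed_mono hr hM ha.1 hab hb.2)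
    · rw [edist_dist]
      apply ENNReal.ofReal_le_ofReal
      exact (dist_gam_le hr hM hab).trans (int_speed_mono hr hM hb.1 hab ha.2)
  have hle := Measure.hausdorffMeasure_le_liminf_sum (X := E2) 1 (gam r '' Icc x y)
    (l := atTop) (fun n => ENNReal.ofReal ((C + M) * h n)) (by
      rw [← ENNReal.ofReal_zero]
      apply ENNReal.tendsto_ofReal
      have h1 : Tendsto (fun n : ℕ => (C + M) * (y - x) * (1 / ((n : ℝ) + 1))) atTop
          (𝓝 ((C + M) * (y - x) * 0)) :=
        (tendsto_one_div_add_atTop_nhds_zero_nat).const_mul _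
      rw [mul_zero] at h1
      refine h1.congr fun n => ?_
      simp only [hh]
      ring) T (by
      refine Eventually.of_forall fun n i => (hdiam n i).trans ?_
      apply ENNReal.ofReal_le_ofReal
      refine (int_speed_le hr hM ?_).trans (le_of_eq ?_)
      · have := hh0 n
        push_cast
        nlinarith
      · push_cast
        ring) (by
      refine Eventually.of_forall fun n => ?_
      rintro _ ⟨t, ht, rfl⟩
      rw [mem_iUnion]
      rcases ht.2.eq_or_lt with hty | hty
      · refine ⟨⟨n, Nat.lt_succ_self n⟩, t, ⟨?_, ?_⟩, rfl⟩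
        · simp only
          have := hyx n
          have := hh0 n
          push_cast at *
          nlinarith
        · simp only
          rw [hyx n]; exact hty.le
      · have hpos : 0 < h n := by
          apply div_pos _ (by positivity)
          linarith [ht.1]
        set k := ⌊(t - x) / h n⌋₊ with hk
        have hk0 : 0 ≤ (t - x) / h n := div_nonneg (by linarith [ht.1]) hpos.le
        have hk1 : (k : ℝ) ≤ (t - x) / h n := Nat.floor_le hk0
        have hk2 : (t - x) / h n < k + 1 := Nat.lt_floor_add_one _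
        rw [le_div_iff₀ hpos] at hk1
        rw [div_lt_iff₀ hpos] at hk2
        have hkn : k < n + 1 := by
          have h1 := hyx n
          have h2 : (k : ℝ) * h n < ((n + 1 : ℕ) : ℝ) * h n := by linarith
          exact_mod_cast lt_of_mul_lt_mul_right h2 hpos.le
        refine ⟨⟨k, hkn⟩, t, ⟨?_, ?_⟩, rfl⟩
        · simp only; linarith
        · simp only; push_cast; linarith)
  refine hle.trans ?_
  have hsum : ∀ n : ℕ, ∑ i : Fin (n + 1), Metric.ediam (T n i) ^ (1 : ℝ) ≤
      ENNReal.ofReal (∫ t in x..y, speed r t) := by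
    intro n
    have e : ∫ t in x..y, speed r t = ∑ i ∈ Finset.range (n + 1),
        ∫ t in (x + (i : ℕ) * h n)..(x + (i + 1 : ℕ) * h n), speed r t := by
      have := intervalIntegral.sum_integral_adjacent_intervals (μ := volume) (f := speed r)
        (a := fun i : ℕ => x + (i : ℝ) * h n) (n := n + 1) (fun k _ => speed_int hr hM _ _)
      rw [this]
      simp only [Nat.cast_zero, zero_mul, add_zero]
      rw [hyx n]
    rw [e, ENNReal.ofReal_sum_of_nonneg, Finset.sum_range]
    · apply Finset.sum_le_sum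
      intro i _
      rw [ENNReal.rpow_one]
      exact hdiam n i
    · intro i _
      apply int_speed_nonneg
      have := hh0 n
      push_cast
      nlinarith
  calc liminf (fun n => ∑ i : Fin (n + 1), Metric.ediam (T n i) ^ (1 : ℝ)) atTop
      ≤ liminf (fun _ : ℕ => ENNReal.ofReal (∫ t in x..y, speed r t)) atTop :=
        liminf_le_liminf (Eventually.of_forall hsum)
    _ = _ := liminf_const _

/-- projections do not increase the length -/
theorem dot_lip (ψ : ℝ) : LipschitzWith 1 fun x : E2 => dot x ψ := by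
  apply LipschitzWith.of_dist_le_mul
  intro x y
  rw [NNReal.coe_one, one_mul, Real.dist_eq, dist_eq_norm, abs_le]
  have h1 := dot_le_norm (x - y) ψ
  have h2 := dot_le_norm (y - x) ψ
  rw [dot_sub] at h1 h2
  rw [norm_sub_rev] at h2
  constructor <;> linarith

theorem continuous_uu : Continuous uu := by
  unfold uu
  refine (PiLp.continuous_toLp 2 _).comp ?_
  refine continuous_pi fun i => ?_
  fin_cases i
  · simp only [Fin.zero_eta, Matrix.cons_val_zero]; fun_prop
  · simp only [Fin.mk_one, Matrix.cons_val_one, Matrix.cons_val_zero]; fun_prop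

include hr in
theorem continuous_gam : Continuous (gam r) := hr.continuous.smul continuous_uu

include hr in
theorem le_arc (ψ : ℝ) {x y : ℝ} (hxy : x ≤ y) :
    ENNReal.ofReal (dot (gam r y) ψ - dot (gam r x) ψ) ≤ μH[1] (gam r '' Ioc x y) := by
  have hc : Continuous fun t => dot (gam r t) ψ :=
    (continuous_dot_left ψ).comp (continuous_gam hr)
  have h1 : Ioc (dot (gam r x) ψ) (dot (gam r y) ψ) ⊆
      (fun p : E2 => dot p ψ) '' (gam r '' Ioc x y) := by
    rw [image_image]
    exact intermediate_value_Ioc hxy hc.continuousOn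
  have h2 := (dot_lip ψ).hausdorffMeasure_image_le (d := 1) zero_le_one (gam r '' Ioc x y)
  rw [ENNReal.coe_one, ENNReal.one_rpow, one_mul] at h2
  refine le_trans ?_ h2
  refine le_trans ?_ (measure_mono h1)
  rw [hausdorffMeasure_real, Real.volume_Ioc]

theorem gam_inj (hpos : ∀ t, 0 < r t) {a : ℝ} : InjOn (gam r) (Ioc a (a + 2 * π)) := by
  intro x hx y hy h
  have h1 : r x = r y := by
    have := congrArg norm h
    simp only [gam] at this
    rwa [norm_smul, norm_smul, norm_uu, norm_uu, mul_one, mul_one, Real.norm_of_nonneg (hpos x).le,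
      Real.norm_of_nonneg (hpos y).le] at this
  have h2 : uu x = uu y := by
    simp only [gam] at h
    rw [h1] at h
    exact smul_right_injective E2 (hpos y).ne' h
  have h3 : cos x = cos y := by
    have := congrArg (fun p : E2 => p 0) h2
    simpa [uu] using this
  have h4 : sin x = sin y := by
    have := congrArg (fun p : E2 => p 1) h2
    simpa [uu] using this
  have h5 : cos (x - y) = 1 := by
    rw [cos_sub, h3, h4]
    have := sin_sq_add_cos_sq y
    nlinarith
  rw [Real.cos_eq_one_iff_of_lt_of_lt (by linarith [hx.1, hy.2]) (by linarith [hx.2, hy.1])] at h5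
  linarith

include hr in
theorem measurable_arc (hpos : ∀ t, 0 < r t) {a b : ℝ} (h : b ≤ a + 2 * π) :
    MeasurableSet (gam r '' Ioc a b) := by
  apply measurableSet_Ioc.image_of_continuousOn_injOn (continuous_gam hr).continuousOn
  exact (gam_inj hpos).mono (Ioc_subset_Ioc le_rfl h)

include hr in
theorem arc_add (hpos : ∀ t, 0 < r t) {a b c : ℝ} (hab : a ≤ b) (hbc : b ≤ c)
    (h : c ≤ a + 2 * π) : μH[1] (gam r '' Ioc a c) =
      μH[1] (gam r '' Ioc a b) + μH[1] (gam r '' Ioc b c) := by
  rw [← measure_union, ← image_union, Ioc_union_Ioc_eq_Ioc hab hbc]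
  · rw [Set.disjoint_left]
    rintro _ ⟨s, hs, rfl⟩ ⟨t, ht, hst⟩
    have := gam_inj hpos (a := a) ⟨by linarith [ht.1], by linarith [ht.2]⟩
      ⟨hs.1, by linarith [hs.2]⟩ hst
    linarith [ht.1, hs.2]
  · exact measurable_arc hr hpos (by linarith)

include hr hM in
theorem arc_le' {x y : ℝ} (hxy : x ≤ y) :
    μH[1] (gam r '' Ioc x y) ≤ ENNReal.ofReal (∫ t in x..y, speed r t) :=
  (measure_mono (image_mono Ioc_subset_Icc_self)).trans (arc_le hr hM hxy)

include hr hM in
/-- lower bound of the length of an arc -/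
theorem arc_ge (hpos : ∀ t, 0 < r t) {a b : ℝ} (hab : a ≤ b) (h : b ≤ a + 2 * π) :
    ENNReal.ofReal (∫ t in a..b, speed r t) ≤ μH[1] (gam r '' Ioc a b) := by
  have hM0 := M_nonneg hM
  set S : ℝ → ℝ := fun t => (μH[1] (gam r '' Ioc a t)).toReal with hS
  have hfin : ∀ x y : ℝ, x ≤ y → μH[1] (gam r '' Ioc x y) ≠ ⊤ := fun x y hxy =>
    ((arc_le' hr hM hxy).trans_lt ENNReal.ofReal_lt_top).ne
  have hdiff : ∀ s t, a ≤ s → s ≤ t → t ≤ b → S t - S s = (μH[1] (gam r '' Ioc s t)).toReal := by
    intro s t h1 h2 h3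
    simp only [hS]
    rw [arc_add hr hpos h1 h2 (by linarith), ENNReal.toReal_add (hfin a s h1) (hfin s t h2)]
    ring
  have hup : ∀ s t, a ≤ s → s ≤ t → t ≤ b → S t - S s ≤ (C + M) * (t - s) := by
    intro s t h1 h2 h3
    rw [hdiff s t h1 h2 h3]
    apply ENNReal.toReal_le_of_le_ofReal
    · exact mul_nonneg (add_nonneg C.2 hM0) (by linarith)
    · exact (arc_le' hr hM h2).trans (ENNReal.ofReal_le_ofReal (int_speed_le hr hM h2))
  have hlow : ∀ s t, a ≤ s → s ≤ t → t ≤ b → ∀ ψ,
      dot (gam r t) ψ - dot (gam r s) ψ ≤ S t - S s := by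
    intro s t h1 h2 h3 ψ
    rw [hdiff s t h1 h2 h3]
    exact (ENNReal.ofReal_le_iff_le_toReal (hfin s t h2)).1 (le_arc hr ψ h2)
  have hmono : ∀ s t, a ≤ s → s ≤ t → t ≤ b → 0 ≤ S t - S s := by
    intro s t h1 h2 h3
    rw [hdiff s t h1 h2 h3]
    exact ENNReal.toReal_nonneg
  have hLip : LipschitzOnWith (C + M.toNNReal) S (uIcc a b) := by
    rw [uIcc_of_le hab]
    apply LipschitzOnWith.of_dist_le_mul
    intro x hx y hy
    rw [Real.dist_eq, Real.dist_eq, NNReal.coe_add, Real.coe_toNNReal _ hM0]
    rcases le_total x y with hxy | hxy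
    · rw [abs_sub_comm, abs_sub_comm x y, abs_of_nonneg (hmono x y hx.1 hxy hy.2),
        abs_of_nonneg (by linarith)]
      exact hup x y hx.1 hxy hy.2
    · rw [abs_of_nonneg (hmono y x hy.1 hxy hx.2), abs_of_nonneg (by linarith)]
      exact hup y x hy.1 hxy hx.2
  have hac := hLip.absolutelyContinuousOnInterval
  have hftc := hac.integral_deriv_eq_sub
  have hSa : S a = 0 := by simp [hS]
  have hSb : S b = ∫ t in a..b, deriv S t := by rw [hftc, hSa, sub_zero]
  have hle : ∫ t in a..b, speed r t ≤ ∫ t in a..b, deriv S t := by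
    apply intervalIntegral.integral_mono_ae_restrict hab (speed_int hr hM a b)
      hac.intervalIntegrable_deriv
    rw [EventuallyLE, ← restrict_Ioo_eq_restrict_Icc, ae_restrict_iff' measurableSet_Ioo]
    filter_upwards [hr.ae_differentiableAt (μ := volume), hac.ae_differentiableAt] with t h1 h2 ht
    have h3 : DifferentiableAt ℝ S t := h2 (by
      rw [uIcc_of_le hab]; exact ⟨ht.1.le, ht.2.le⟩)
    obtain ⟨ψ, hψ⟩ := exists_coord_deriv (r := r) t
    rw [← hψ]
    have k1 := (coord_deriv h1 ψ).tendsto_slope.mono_left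
      (nhdsWithin_mono t (fun z (hz : z ∈ Ioi t) => (ne_of_gt hz : z ≠ t)))
    have k2 := h3.hasDerivAt.tendsto_slope.mono_left
      (nhdsWithin_mono t (fun z (hz : z ∈ Ioi t) => (ne_of_gt hz : z ≠ t)))
    apply le_of_tendsto_of_tendsto k1 k2
    have : ∀ᶠ z in 𝓝[>] t, z ∈ Ioo t b := Ioo_mem_nhdsGT ht.2
    filter_upwards [this] with z hz
    rw [slope_def_field, slope_def_field]
    apply div_le_div_of_nonneg_right _ (by linarith [hz.1])
    have := hlow t z ht.1.le hz.1.le hz.2.le ψ
    rw [dot_gam, dot_gam] at this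
    exact this
  rw [← hSb] at hle
  exact (ENNReal.ofReal_le_iff_le_toReal (hfin a b hab)).2 hle

include hr hM in
theorem arc_eq (hpos : ∀ t, 0 < r t) {a b : ℝ} (hab : a ≤ b) (h : b ≤ a + 2 * π) :
    μH[1] (gam r '' Ioo a b) = ENNReal.ofReal (∫ t in a..b, speed r t) := by
  apply le_antisymm
  · exact (measure_mono (image_mono Ioo_subset_Icc_self)).trans (arc_le hr hM hab)
  · refine (arc_ge hr hM hpos hab h).trans ?_
    rcases hab.eq_or_lt with hab' | hab'
    · rw [hab', Ioc_self, image_empty]; simp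
    · rw [← Ioo_union_right hab', image_union, image_singleton]
      refine (measure_union_le _ _).trans ?_
      have := (Measure.nullSingletonClass_hausdorff E2 (d := 1) one_pos).measure_singleton
        (gam r b)
      rw [this, add_zero]

include hr hM in
/-- **Equal arcs give equal speeds.** -/
theorem speed_eq (hpos : ∀ t, 0 < r t) (hper : Function.Periodic r (2 * π))
    (h : ∀ θ, μH[1] (gam r '' Ioo θ (θ + π)) = μH[1] (gam r '' Ioo (θ + π) (θ + 2 * π))) :
    ∀ᵐ t, r t ^ 2 + deriv r t ^ 2 = r (t + π) ^ 2 + deriv r (t + π) ^ 2 := by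
  have hsper : Function.Periodic (speed r) (2 * π) := by
    intro t
    unfold speed
    have e : deriv r (t + 2 * π) = deriv r t := by
      rw [← deriv_comp_add_const]
      congr 1
      funext s
      exact hper s
    rw [hper, e]
  set Q : ℝ → ℝ := fun x => ∫ t in (0 : ℝ)..x, speed r t with hQ
  have hint : ∀ x y, Q y - Q x = ∫ t in x..y, speed r t := by
    intro x y
    exact intervalIntegral.integral_interval_sub_left (speed_int hr hM 0 y) (speed_int hr hM 0 x)
  have hQe : ∀ θ, Q (θ + π) - Q θ = Q (θ + 2 * π) - Q (θ + π) := by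
    intro θ
    rw [hint, hint]
    have h1 := h θ
    rw [arc_eq hr hM hpos (by linarith [pi_pos]) (by linarith [pi_pos]),
      arc_eq hr hM hpos (by linarith [pi_pos]) (by linarith [pi_pos])] at h1
    exact (ENNReal.ofReal_eq_ofReal_iff (int_speed_nonneg (by linarith [pi_pos]))
      (int_speed_nonneg (by linarith [pi_pos]))).1 h1
  have hloc : LocallyIntegrable (speed r) volume := by
    apply (locallyIntegrable_const ((C : ℝ) + M)).mono (measurable_speed hr).aestronglyMeasurable
    refine Eventually.of_forall fun t => ?_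
    rw [Real.norm_of_nonneg (speed_nonneg t), Real.norm_of_nonneg]
    · exact speed_le hr hM t
    · have := M_nonneg hM
      positivity
  have hae := _root_.LocallyIntegrable.ae_hasDerivAt_integral hloc
  have hae1 : ∀ᵐ t, ∀ c, HasDerivAt (fun x => ∫ s in c..x, speed r s) (speed r (t + π)) (t + π) :=
    (measurePreserving_add_right volume π).quasiMeasurePreserving.ae hae
  have hae2 : ∀ᵐ t, ∀ c, HasDerivAt (fun x => ∫ s in c..x, speed r s) (speed r (t + 2 * π))
      (t + 2 * π) :=
    (measurePreserving_add_right volume (2 * π)).quasiMeasurePreserving.ae hae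
  filter_upwards [hae, hae1, hae2] with t h0 h1 h2
  have d0 : HasDerivAt Q (speed r t) t := h0 0
  have d1 : HasDerivAt (fun t => Q (t + π)) (speed r (t + π)) t := (h1 0).comp_add_const t π
  have d2 : HasDerivAt (fun t => Q (t + 2 * π)) (speed r (t + 2 * π)) t :=
    (h2 0).comp_add_const t (2 * π)
  have e1 := d1.sub d0
  have e2 := d2.sub d1
  have e3 : ((fun t => Q (t + π)) - Q) = ((fun t => Q (t + 2 * π)) - fun t => Q (t + π)) := by
    funext θ
    exact hQe θ
  rw [e3] at e1
  have e4 := e1.unique e2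
  rw [hsper] at e4
  have e5 : speed r t = speed r (t + π) := by linarith
  unfold speed at e5
  have e6 := congrArg (fun z => z ^ 2) e5
  rwa [sq_sqrt (by positivity), sq_sqrt (by positivity)] at e6

end

end Q189.Klam
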