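import Pool.Agent.Q189.Klam2

/-!
# Klamkin's problem: the radial function of a convex body
-/

set_option autoImplicit false

open Real MeasureTheory Set Filter
open scoped NNReal ENNReal Topology

namespace Q189.Klam

open Q189.IsoDefs Q189.Iso

/-- the radial function -/
noncomputable def rad (K : Set E2) (t : ℝ) : ℝ := (gauge K (uu t))⁻¹

theorem uu_ne_zero (t : ℝ) : uu t ≠ 0 := by
  intro h
  have := norm_uu t
  rw [h, norm_zero] at this
  exact zero_ne_one this

theorem dist_uu_le (x y : ℝ) : dist (uu x) (uu y) ≤ 2 * |x - y| := by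
  rw [dist_eq_norm]
  have h1 := norm_sq (uu x - uu y)
  have e0 : (uu x - uu y) 0 = cos x - cos y := by simp [uu]
  have e1 : (uu x - uu y) 1 = sin x - sin y := by simp [uu]
  rw [e0, e1] at h1
  have h2 := Real.abs_cos_sub_cos_le x y
  have h3 := Real.abs_sin_sub_sin_le x y
  have h4 : (cos x - cos y) ^ 2 ≤ |x - y| ^ 2 := by
    rw [← sq_abs (cos x - cos y)]
    exact pow_le_pow_left₀ (abs_nonneg _) h2 2
  have h5 : (sin x - sin y) ^ 2 ≤ |x - y| ^ 2 := by
    rw [← sq_abs (sin x - sin y)]
    exact pow_le_pow_left₀ (abs_nonneg _) h3 2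
  have h6 : ‖uu x - uu y‖ ^ 2 ≤ (2 * |x - y|) ^ 2 := by nlinarith [sq_nonneg |x - y|]
  exact (pow_le_pow_iff_left₀ (norm_nonneg _) (by positivity) two_ne_zero).1 h6

/-- every vector is a multiple of a unit vector in a prescribed range of angles -/
theorem exists_uu (v : E2) (a : ℝ) : ∃ φ, a ≤ φ ∧ φ < a + 2 * π ∧ v = ‖v‖ • uu φ := by
  obtain ⟨φ, h1, h2, h3, h4⟩ := exists_polar (v := v) a
  refine ⟨φ, h1, h2, ?_⟩
  ext i
  fin_cases i
  · simpa [uu] using h3
  · simpa [uu] using h4

section
variable {K : Set E2} (hK : IsCompact K) (hconv : Convex ℝ K) (h0 : K ∈ 𝓝 (0 : E2))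

include hK h0 in
theorem gauge_pos' {x : E2} (hx : x ≠ 0) : 0 < gauge K x := by
  rw [gauge_pos (absorbent_nhds_zero h0) (NormedSpace.isVonNBounded_of_isBounded ℝ hK.isBounded)]
  exact hx

include hK h0 in
theorem rad_pos (t : ℝ) : 0 < rad K t := inv_pos.2 (gauge_pos' hK h0 (uu_ne_zero t))

theorem rad_periodic (K : Set E2) : Function.Periodic (rad K) (2 * π) := by
  intro t
  unfold rad uu
  rw [cos_add_two_pi, sin_add_two_pi]

include hK hconv h0 in
theorem rad_bound : ∃ (C : ℝ≥0) (M : ℝ), LipschitzWith C (rad K) ∧ ∀ t, |rad K t| ≤ M := by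
  obtain ⟨R, hR⟩ := hK.isBounded.subset_closedBall 0
  set R' := max R 1 with hR'
  have hR'0 : 0 < R' := lt_max_of_lt_right one_pos
  have hsub : K ⊆ Metric.closedBall 0 R' := hR.trans (Metric.closedBall_subset_closedBall
    (le_max_left _ _))
  have hg : ∀ t, 1 / R' ≤ gauge K (uu t) := by
    intro t
    have := le_gauge_of_subset_closedBall (absorbent_nhds_zero h0) hR'0.le hsub (x := uu t)
    rwa [norm_uu] at this
  have hr : ∀ t, rad K t ≤ R' := by
    intro t
    unfold rad
    rw [inv_le_comm₀ (gauge_pos' hK h0 (uu_ne_zero t)) hR'0]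
    simpa using hg t
  obtain ⟨C, hC⟩ := hconv.lipschitz_gauge h0
  refine ⟨2 * C * R'.toNNReal ^ 2, R', ?_, ?_⟩
  · apply LipschitzWith.of_dist_le_mul
    intro x y
    have hx := gauge_pos' hK h0 (uu_ne_zero x)
    have hy := gauge_pos' hK h0 (uu_ne_zero y)
    have h1 : |gauge K (uu y) - gauge K (uu x)| ≤ C * (2 * |x - y|) := by
      have h2 := hC.dist_le_mul (uu y) (uu x)
      rw [Real.dist_eq] at h2
      refine h2.trans (mul_le_mul_of_nonneg_left ?_ C.2)
      rw [abs_sub_comm]
      exact dist_uu_le y x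
    have e : rad K x - rad K y = (gauge K (uu y) - gauge K (uu x)) * (rad K x * rad K y) := by
      unfold rad
      field_simp
    rw [Real.dist_eq, Real.dist_eq, e, abs_mul]
    have hrx := rad_pos hK h0 x
    have hry := rad_pos hK h0 y
    rw [abs_of_pos (mul_pos hrx hry)]
    push_cast
    rw [Real.coe_toNNReal _ hR'0.le]
    calc |gauge K (uu y) - gauge K (uu x)| * (rad K x * rad K y)
        ≤ (C * (2 * |x - y|)) * (R' * R') := by
          apply mul_le_mul h1 _ (mul_pos hrx hry).le (by positivity)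
          exact mul_le_mul (hr x) (hr y) hry.le hR'0.le
      _ = _ := by ring
  · intro t
    rw [abs_of_pos (rad_pos hK h0 t)]
    exact hr t

theorem uu_comb (x y z : ℝ) : sin (z - x) • uu y = sin (z - y) • uu x + sin (y - x) • uu z := by
  ext i
  fin_cases i
  · simp only [uu, Fin.zero_eta, PiLp.smul_apply, PiLp.add_apply, Matrix.cons_val_zero,
      smul_eq_mul]
    rw [sin_sub, sin_sub, sin_sub]
    ring
  · simp only [uu, Fin.mk_one, PiLp.smul_apply, PiLp.add_apply, Matrix.cons_val_one,
      Matrix.cons_val_zero, smul_eq_mul]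
    rw [sin_sub, sin_sub, sin_sub]
    ring

include hK hconv h0 in
theorem rad_conv : ∀ x y z, x < y → y < z → z - x < π →
    sin (z - x) * (rad K y)⁻¹ ≤ sin (z - y) * (rad K x)⁻¹ + sin (y - x) * (rad K z)⁻¹ := by
  intro x y z h1 h2 h3
  unfold rad
  rw [inv_inv, inv_inv, inv_inv]
  have s1 : 0 ≤ sin (z - x) := (sin_pos_of_pos_of_lt_pi (by linarith) h3).le
  have s2 : 0 ≤ sin (z - y) := (sin_pos_of_pos_of_lt_pi (by linarith) (by linarith)).le
  have s3 : 0 ≤ sin (y - x) := (sin_pos_of_pos_of_lt_pi (by linarith) (by linarith)).le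
  have h4 := gauge_add_le hconv (absorbent_nhds_zero h0) (sin (z - y) • uu x) (sin (y - x) • uu z)
  rw [← uu_comb, gauge_smul_of_nonneg s1, gauge_smul_of_nonneg s2, gauge_smul_of_nonneg s3] at h4
  simpa only [smul_eq_mul] using h4

include hK hconv h0 in
theorem gam_mem (t : ℝ) : gam (rad K) t ∈ frontier K := by
  rw [← gauge_eq_one_iff_mem_frontier hconv h0]
  unfold gam
  rw [gauge_smul_of_nonneg (rad_pos hK h0 t).le, smul_eq_mul]
  unfold rad
  exact inv_mul_cancel₀ (gauge_pos' hK h0 (uu_ne_zero t)).ne'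

include hK hconv h0 in
theorem exists_gam {p : E2} (hp : p ∈ frontier K) (a : ℝ) :
    ∃ t, a ≤ t ∧ t < a + 2 * π ∧ p = gam (rad K) t := by
  rw [← gauge_eq_one_iff_mem_frontier hconv h0] at hp
  obtain ⟨t, h1, h2, h3⟩ := exists_uu p a
  refine ⟨t, h1, h2, ?_⟩
  have h4 : ‖p‖ * gauge K (uu t) = 1 := by
    rw [h3, gauge_smul_of_nonneg (norm_nonneg _)] at hp
    exact hp
  unfold gam rad
  have h5 : ‖p‖ = (gauge K (uu t))⁻¹ := eq_inv_of_mul_eq_one_left h4
  rw [← h5]
  exact h3

include hK hconv h0 in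
theorem upper_arc (θ : ℝ) : frontier K ∩ {x | 0 < dot x (θ + π / 2)} =
    gam (rad K) '' Ioo θ (θ + π) := by
  have hdot : ∀ t, dot (gam (rad K) t) (θ + π / 2) = rad K t * sin (t - θ) := by
    intro t
    rw [dot_gam]
    have e : t - (θ + π / 2) = (t - θ) - π / 2 := by ring
    rw [e, cos_sub_pi_div_two]
  ext p
  constructor
  · rintro ⟨h1, h2⟩
    obtain ⟨t, h3, h4, rfl⟩ := exists_gam hK hconv h0 h1 θ
    rw [mem_setOf_eq, hdot] at h2
    have h5 : 0 < sin (t - θ) := by
      by_contra hcon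
      push Not at hcon
      have := mul_nonpos_of_nonneg_of_nonpos (rad_pos hK h0 t).le hcon
      linarith
    refine ⟨t, ⟨?_, ?_⟩, rfl⟩
    · rcases h3.eq_or_lt with h | h
      · rw [← h, sub_self, sin_zero] at h5
        exact absurd h5 (lt_irrefl _)
      · exact h
    · by_contra hcon
      push Not at hcon
      have : sin (t - θ - 2 * π) ≤ 0 :=
        sin_nonpos_of_nonpos_of_neg_pi_le (by linarith) (by linarith)
      rw [sin_sub_two_pi] at this
      linarith
  · rintro ⟨t, ht, rfl⟩
    refine ⟨gam_mem hK hconv h0 t, ?_⟩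
    rw [mem_setOf_eq, hdot]
    exact mul_pos (rad_pos hK h0 t) (sin_pos_of_pos_of_lt_pi (by linarith [ht.1])
      (by linarith [ht.2]))

include hK hconv h0 in
theorem lower_arc (θ : ℝ) : frontier K ∩ {x | dot x (θ + π / 2) < 0} =
    gam (rad K) '' Ioo (θ + π) (θ + 2 * π) := by
  have h := upper_arc hK hconv h0 (θ + π)
  have e1 : {x : E2 | 0 < dot x (θ + π + π / 2)} = {x | dot x (θ + π / 2) < 0} := by
    ext x
    have e : θ + π + π / 2 = θ + π / 2 + π := by ring
    have e' : dot x (θ + π / 2 + π) = -dot x (θ + π / 2) := by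
      unfold dot
      rw [cos_add_pi, sin_add_pi]
      ring
    simp only [mem_setOf_eq]
    rw [e, e']
    constructor <;> intro h <;> linarith
  have e2 : θ + π + π = θ + 2 * π := by ring
  rw [e1, e2] at h
  exact h

include hK hconv h0 in
/-- **The main theorem with centre at the origin.** -/
theorem symm_zero
    (h : ∀ v : E2, v ≠ 0 → μH[1] (frontier K ∩ {x | 0 < inner ℝ x v}) =
      μH[1] (frontier K ∩ {x | inner ℝ x v < 0})) : ∀ p ∈ frontier K, -p ∈ frontier K := by
  obtain ⟨C, M, hL, hM⟩ := rad_bound hK hconv h0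
  have hq := speed_eq hL hM (rad_pos hK h0) (rad_periodic K) (by
    intro θ
    have := h (uu (θ + π / 2)) (uu_ne_zero _)
    simp only [← dot_eq_inner] at this
    rw [upper_arc hK hconv h0, lower_arc hK hconv h0] at this
    exact this)
  have hs := radial_symm hL (rad_pos hK h0) (rad_periodic K) (rad_conv hK hconv h0) hq
  intro p hp
  obtain ⟨t, _, _, rfl⟩ := exists_gam hK hconv h0 hp 0
  have e : -gam (rad K) t = gam (rad K) (t + π) := by
    unfold gam
    rw [hs t, ← smul_neg]
    congr 1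
    ext i
    fin_cases i
    · simp [uu, cos_add_pi]
    · simp [uu, sin_add_pi]
  rw [e]
  exact gam_mem hK hconv h0 _

end

/-- the centre is an interior point -/
theorem center_interior {K : Set E2} (hK : IsCompact K) (hconv : Convex ℝ K)
    (hint : (interior K).Nonempty) {O : E2}
    (h : ∀ v : E2, v ≠ 0 → μH[1] (frontier K ∩ {x | 0 < inner ℝ (x - O) v}) =
      μH[1] (frontier K ∩ {x | inner ℝ (x - O) v < 0})) : O ∈ interior K := by
  by_contra hO
  obtain ⟨f, hf⟩ := geometric_hahn_banach_open_point hconv.interior isOpen_interior hO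
  set w : E2 := (InnerProductSpace.toDual ℝ E2).symm f with hw
  have hfw : ∀ y, f y = inner ℝ w y := by
    intro y
    rw [hw, InnerProductSpace.toDual_symm_apply]
  obtain ⟨φ, _, _, hφ⟩ := exists_uu w 0
  have hfd : ∀ y, f y = ‖w‖ * dot y φ := by
    intro y
    rw [hfw, hφ, real_inner_smul_left, norm_smul, norm_norm, norm_uu, mul_one, dot_eq_inner,
      real_inner_comm]
  obtain ⟨p, hp⟩ := hint
  have hw0 : 0 < ‖w‖ := by
    rw [norm_pos_iff]
    intro hw0
    have := hf p hp
    rw [hfd, hfd, hw0, norm_zero, zero_mul, zero_mul] at this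
    exact lt_irrefl _ this
  have hlt : ∀ a ∈ interior K, dot a φ < dot O φ := by
    intro a ha
    have := hf a ha
    rw [hfd, hfd] at this
    exact lt_of_mul_lt_mul_left this hw0.le
  have hle : ∀ a ∈ K, dot a φ ≤ dot O φ := by
    have hcl : IsClosed {a : E2 | dot a φ ≤ dot O φ} :=
      isClosed_le (continuous_dot_left φ) continuous_const
    have h1 : closure (interior K) ⊆ {a : E2 | dot a φ ≤ dot O φ} :=
      closure_minimal (fun a ha => (hlt a ha).le) hcl
    rw [hconv.closure_interior_eq_closure_of_nonempty_interior ⟨p, hp⟩, hK.isClosed.closure_eq]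
      at h1
    exact h1
  have h1 := h (uu φ) (uu_ne_zero φ)
  simp only [← dot_eq_inner] at h1
  have h2 : frontier K ∩ {x : E2 | 0 < dot (x - O) φ} = ∅ := by
    rw [Set.eq_empty_iff_forall_notMem]
    rintro x ⟨hx1, hx2⟩
    have h3 := hle x (hK.isClosed.frontier_subset hx1)
    rw [mem_setOf_eq, dot_sub] at hx2
    linarith
  rw [h2, measure_empty] at h1
  -- the part of the frontier strictly below has positive length
  obtain ⟨ε, hε, hball⟩ := Metric.isOpen_iff.1 isOpen_interior p hp
  have hproj : Ioo (dot p (φ + π / 2) - ε) (dot p (φ + π / 2) + ε) ⊆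
      (fun x : E2 => dot x (φ + π / 2)) '' (frontier K ∩ {x | dot (x - O) φ < 0}) := by
    intro c hc
    set s := c - dot p (φ + π / 2) with hs
    have hsε : |s| < ε := by rw [abs_lt]; constructor <;> linarith [hc.1, hc.2]
    set y : E2 := p + s • uu (φ + π / 2) with hy
    have hyK : y ∈ interior K := by
      apply hball
      rw [mem_ball_iff_norm, hy, add_sub_cancel_left, norm_smul, norm_uu, mul_one,
        Real.norm_eq_abs]
      exact hsε
    set A : Set ℝ := {t | 0 ≤ t ∧ y - t • uu φ ∈ K} with hA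
    have hcont : Continuous fun t : ℝ => y - t • uu φ := by fun_prop
    have hAc : IsClosed A := (isClosed_le continuous_const continuous_id).inter
      (hK.isClosed.preimage hcont)
    have hAne : A.Nonempty := ⟨0, le_rfl, by
      rw [zero_smul, sub_zero]; exact interior_subset hyK⟩
    obtain ⟨R, hR⟩ := hK.isBounded.exists_norm_le
    have hAb : BddAbove A := by
      refine ⟨‖y‖ + R, fun t ht => ?_⟩
      have h3 := hR _ ht.2
      have h4 : ‖t • uu φ‖ = t := by
        rw [norm_smul, norm_uu, mul_one, Real.norm_of_nonneg ht.1]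
      have h5 : ‖t • uu φ‖ ≤ ‖y‖ + ‖y - t • uu φ‖ := by
        have : t • uu φ = y - (y - t • uu φ) := by abel
        calc ‖t • uu φ‖ = ‖y - (y - t • uu φ)‖ := by rw [← this]
          _ ≤ _ := norm_sub_le _ _
      linarith
    obtain ⟨ht1, ht2⟩ : sSup A ∈ A := hAc.csSup_mem hAne hAb
    set t := sSup A with ht
    have hnot : y - t • uu φ ∉ interior K := by
      intro hin
      obtain ⟨δ, hδ, hδ'⟩ := Metric.isOpen_iff.1 isOpen_interior _ hin
      have : t + δ / 2 ∈ A := by
        refine ⟨by linarith, interior_subset (hδ' ?_)⟩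
        rw [mem_ball_iff_norm]
        have e : y - (t + δ / 2) • uu φ - (y - t • uu φ) = -((δ / 2) • uu φ) := by
          rw [add_smul]; abel
        rw [e, norm_neg, norm_smul, norm_uu, mul_one, Real.norm_of_nonneg (by linarith)]
        linarith
      have := le_csSup hAb this
      linarith
    refine ⟨y - t • uu φ, ⟨?_, ?_⟩, ?_⟩
    · rw [hK.isClosed.frontier_eq]
      exact ⟨ht2, hnot⟩
    · rw [mem_setOf_eq, dot_sub, dot_sub, dot_smul, dot_uu, mul_one]
      have h3 : dot y φ < dot O φ := hlt y hyK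
      linarith
    · simp only
      rw [dot_sub, hy, dot_add_left, dot_smul, dot_smul, dot_uu]
      have h3 : dot (uu φ) (φ + π / 2) = 0 := by
        unfold dot uu
        simp only [PiLp.toLp_apply, Matrix.cons_val_zero, Matrix.cons_val_one]
        rw [cos_add_pi_div_two, sin_add_pi_div_two]
        ring
      rw [h3]
      linarith
  have h3 := (dot_lip (φ + π / 2)).hausdorffMeasure_image_le (d := 1) zero_le_one
    (frontier K ∩ {x | dot (x - O) φ < 0})
  rw [ENNReal.coe_one, ENNReal.one_rpow, one_mul, ← h1] at h3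
  have h4 := measure_mono (μ := (μH[1] : Measure ℝ)) hproj
  have h5 : μH[1] (Ioo (dot p (φ + π / 2) - ε) (dot p (φ + π / 2) + ε)) = 0 :=
    le_antisymm (h4.trans h3) bot_le
  rw [hausdorffMeasure_real, Real.volume_Ioo, ENNReal.ofReal_eq_zero] at h5
  linarith

/-- **Klamkin's question.** -/
theorem klamkin {K : Set E2} (hK : IsCompact K) (hconv : Convex ℝ K)
    (hint : (interior K).Nonempty) {O : E2}
    (h : ∀ v : E2, v ≠ 0 → μH[1] (frontier K ∩ {x | 0 < inner ℝ (x - O) v}) =
      μH[1] (frontier K ∩ {x | inner ℝ (x - O) v < 0})) :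
    (fun x => (2 : ℝ) • O - x) '' frontier K = frontier K := by
  have hO := center_interior hK hconv hint h
  set e : E2 ≃ᵢ E2 := IsometryEquiv.subRight O with he
  set K' : Set E2 := e '' K with hK'
  have hK'c : IsCompact K' := hK.image e.continuous
  have heq : ∀ x, e x = x - O := fun x => rfl
  have hconv' : Convex ℝ K' := by
    have : K' = (fun x => x - O) '' K := rfl
    rw [this]
    have h1 : (fun x : E2 => x - O) = fun x => -O + x := by funext x; abel
    rw [h1]
    exact hconv.translate (-O)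
  have hfr : frontier K' = e '' frontier K := (e.toHomeomorph.image_frontier K).symm
  have h0' : K' ∈ 𝓝 (0 : E2) := by
    rw [mem_interior_iff_mem_nhds.symm]
    have : interior K' = e '' interior K := (e.toHomeomorph.image_interior K).symm
    rw [this]
    exact ⟨O, hO, by rw [heq, sub_self]⟩
  have h' : ∀ v : E2, v ≠ 0 → μH[1] (frontier K' ∩ {x | 0 < inner ℝ x v}) =
      μH[1] (frontier K' ∩ {x | inner ℝ x v < 0}) := by
    intro v hv
    have e1 : frontier K' ∩ {x | 0 < inner ℝ x v} =
        e '' (frontier K ∩ {x | 0 < inner ℝ (x - O) v}) := by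
      rw [hfr]
      ext x
      constructor
      · rintro ⟨⟨y, hy, rfl⟩, hx⟩
        exact ⟨y, ⟨hy, hx⟩, rfl⟩
      · rintro ⟨y, ⟨hy, hx⟩, rfl⟩
        exact ⟨⟨y, hy, rfl⟩, hx⟩
    have e2 : frontier K' ∩ {x | inner ℝ x v < 0} =
        e '' (frontier K ∩ {x | inner ℝ (x - O) v < 0}) := by
      rw [hfr]
      ext x
      constructor
      · rintro ⟨⟨y, hy, rfl⟩, hx⟩
        exact ⟨y, ⟨hy, hx⟩, rfl⟩
      · rintro ⟨y, ⟨hy, hx⟩, rfl⟩
        exact ⟨⟨y, hy, rfl⟩, hx⟩
    rw [e1, e2, e.hausdorffMeasure_image, e.hausdorffMeasure_image]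
    exact h v hv
  have hs := symm_zero hK'c hconv' h0' h'
  have key : ∀ p ∈ frontier K, (2 : ℝ) • O - p ∈ frontier K := by
    intro p hp
    have h1 : e p ∈ frontier K' := by rw [hfr]; exact ⟨p, hp, rfl⟩
    have h2 := hs _ h1
    rw [hfr] at h2
    obtain ⟨q, hq, hqe⟩ := h2
    have h3 : q = (2 : ℝ) • O - p := by
      rw [heq, heq] at hqe
      rw [two_smul]
      have : q = -(p - O) + O := by rw [← hqe]; abel
      rw [this]; abel
    rw [← h3]; exact hq
  ext p
  constructor
  · rintro ⟨q, hq, rfl⟩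
    exact key q hq
  · intro hp
    exact ⟨(2 : ℝ) • O - p, key p hp, by simp⟩

end Q189.Klam
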