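import Mathlib

/-!
# Symmetrizations, mean width
-/

set_option autoImplicit false

open MeasureTheory Set

namespace Q189.MW

/-- Euclidean space of dimension `n`. -/
abbrev E (n : ℕ) := EuclideanSpace ℝ (Fin n)

/-- The support function `h_K(u) = max {⟨x, u⟩ : x ∈ K}`. -/
noncomputable def supportFn {n : ℕ} (K : Set (E n)) (u : E n) : ℝ :=
  sSup ((fun x : E n => inner ℝ x u) '' K)

/-- The mean width `w(K) = 2 / (n κ_n) ∫ h_K(u) du`, the integral being over the unit sphere with
respect to the spherical Lebesgue measure and `κ_n` being the volume of the unit ball. -/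
noncomputable def meanWidth {n : ℕ} (K : Set (E n)) : ℝ :=
  2 / (n * (volume (Metric.closedBall (0 : E n) 1)).toReal) *
    ∫ u : Metric.sphere (0 : E n) 1, supportFn K u ∂((volume : Measure (E n)).toSphere)

/-- `K` is symmetric with respect to the subspace `H`: it is invariant under the reflection
`R_H`. -/
def HSymm {n : ℕ} (H : Submodule ℝ (E n)) (K : Set (E n)) : Prop :=
  H.reflection '' K = K

/-- The nonempty compact convex subsets of `ℝⁿ`. -/
def compactConvex (n : ℕ) : Set (Set (E n)) :=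
  {K | IsCompact K ∧ Convex ℝ K ∧ K.Nonempty}

/-- The convex bodies in `ℝⁿ`: compact convex sets with nonempty interior. -/
def convexBodies (n : ℕ) : Set (Set (E n)) :=
  {K | IsCompact K ∧ Convex ℝ K ∧ (interior K).Nonempty}

/-- `D` is a symmetrization `𝓑 → 𝓑_H` which is monotonic, mean width preserving and invariant
on `H`-symmetric sets. -/
structure MonotonicWidthPreserving {n : ℕ} (𝓑 : Set (Set (E n))) (H : Submodule ℝ (E n))
    (D : Set (E n) → Set (E n)) : Prop where
  maps : ∀ K ∈ 𝓑, D K ∈ 𝓑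
  symm : ∀ K ∈ 𝓑, HSymm H (D K)
  monotonic : ∀ K ∈ 𝓑, ∀ L ∈ 𝓑, K ⊆ L → D K ⊆ D L
  preserves : ∀ K ∈ 𝓑, meanWidth (D K) = meanWidth K
  fixes : ∀ K ∈ 𝓑, HSymm H K → D K = K

/-- `D` is invariant under translations orthogonal to `H` of `H`-symmetric sets. -/
def OrthogonalTranslationInvariant {n : ℕ} (𝓑 : Set (Set (E n))) (H : Submodule ℝ (E n))
    (D : Set (E n) → Set (E n)) : Prop :=
  ∀ K ∈ 𝓑, HSymm H K → ∀ y ∈ Hᗮ, D ((fun x => x + y) '' K) = D K

end Q189.MW
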