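import Pool.Agent.S13718
import Pool.Agent.Q189.MWDefs

set_option autoImplicit false

open MeasureTheory Set Metric
open scoped Pointwise

namespace Q189.MW

variable {n : ℕ}

open Pool.Agent.S13718 (V supp)

lemma supp_eq (K : Set (E n)) : supportFn K = supp K := rfl

lemma supp_smul (K : Set (E n)) {r : ℝ} (hr : 0 ≤ r) (v : E n) : supp K (r • v) = r * supp K v := by
  unfold Pool.Agent.S13718.supp
  have : (fun y : E n => inner ℝ y (r • v)) '' K = r • ((fun y : E n => inner ℝ y v) '' K) := by
    rw [← image_smul, image_image]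
    refine image_congr fun y _ => ?_
    rw [real_inner_smul_right, smul_eq_mul]
  rw [this, Real.sSup_smul_of_nonneg hr, smul_eq_mul]

/-- the radial factor -/
noncomputable def rad (n : ℕ) : ℝ :=
  ∫ r : Ioi (0 : ℝ), (r : ℝ) * Real.exp (-(r : ℝ) ^ 2) ∂(Measure.volumeIoiPow (n - 1))

lemma V_eq_sphere (K : Set (E n)) :
    V K = (∫ u : sphere (0 : E n) 1, supportFn K u ∂((volume : Measure (E n)).toSphere)) *
      rad n := by
  have hfr : Module.finrank ℝ (E n) = n := finrank_euclideanSpace_fin
  have hmp := (volume : Measure (E n)).measurePreserving_homeomorphUnitSphereProd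
  rw [hfr] at hmp
  rcases Nat.eq_zero_or_pos n with rfl | hn
  · unfold Pool.Agent.S13718.V
    have h0 : ∀ v : E 0, supp K v = 0 := by
      intro v
      have hv : v = (0 : ℝ) • v := by ext i; exact i.elim0
      rw [hv, supp_smul K le_rfl, zero_mul]
    simp_rw [h0, supp_eq, h0]
    simp
  have : Nonempty (Fin n) := ⟨⟨0, hn⟩⟩
  calc V K = ∫ x : ({(0 : E n)}ᶜ : Set (E n)), supp K x.1 * Real.exp (-‖(x : E n)‖ ^ 2)
          ∂((volume : Measure (E n)).comap (↑)) := by
        rw [integral_subtype_comap (measurableSet_singleton _).compl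
          (fun x : E n => supp K x * Real.exp (-‖x‖ ^ 2)), restrict_compl_singleton]
        rfl
    _ = ∫ p, supportFn K (p.1 : E n) * ((p.2 : ℝ) * Real.exp (-(p.2 : ℝ) ^ 2))
          ∂((volume : Measure (E n)).toSphere.prod (.volumeIoiPow (n - 1))) := by
        have h := hmp.integral_comp (Homeomorph.measurableEmbedding _)
          (fun p : (sphere (0 : E n) 1) × (Ioi (0 : ℝ)) =>
            supportFn K (p.1 : E n) * ((p.2 : ℝ) * Real.exp (-(p.2 : ℝ) ^ 2)))
        rw [← h]
        apply integral_congr_ae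
        filter_upwards with x
        have hx : 0 < ‖(x : E n)‖ := norm_pos_iff.2 x.2
        rw [homeomorphUnitSphereProd_apply_snd_coe, homeomorphUnitSphereProd_apply_fst_coe,
          supp_eq, supp_smul K (inv_nonneg.2 hx.le)]
        field_simp
    _ = _ := by
        rw [integral_prod_mul (fun x : sphere (0 : E n) 1 => supportFn K x)
          (fun y : Ioi (0 : ℝ) => (y : ℝ) * Real.exp (-(y : ℝ) ^ 2))]
        rfl

lemma rad_pos (hn : 1 ≤ n) : 0 < rad n := by
  have : Nonempty (Fin n) := ⟨⟨0, hn⟩⟩
  have h0 : 0 ≤ rad n := integral_nonneg fun r => mul_nonneg r.2.le (Real.exp_pos _).le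
  refine lt_of_le_of_ne h0 fun h => ?_
  have h1 := V_eq_sphere (closedBall (0 : E n) 1)
  rw [← h, mul_zero] at h1
  have h2 : 0 < V (closedBall (0 : E n) 1) := by
    apply Pool.Agent.S13718.V_pos_of_interior hn (isCompact_closedBall _ _)
    rw [interior_closedBall _ one_ne_zero]
    exact ⟨0, by simp⟩
  linarith

lemma meanWidth_eq (hn : 1 ≤ n) : ∃ c : ℝ, 0 < c ∧ ∀ K : Set (E n), meanWidth K = c * V K := by
  have : Nonempty (Fin n) := ⟨⟨0, hn⟩⟩
  have h1 := rad_pos hn
  have h2 : 0 < (volume (closedBall (0 : E n) 1)).toReal :=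
    ENNReal.toReal_pos (measure_closedBall_pos _ _ one_pos).ne' measure_closedBall_lt_top.ne
  have h3 : (0 : ℝ) < n := by exact_mod_cast hn
  refine ⟨2 / (n * (volume (closedBall (0 : E n) 1)).toReal) / rad n, by positivity, ?_⟩
  intro K
  rw [V_eq_sphere]
  unfold meanWidth
  field_simp

lemma meanWidth_iff (hn : 1 ≤ n) (K L : Set (E n)) : meanWidth K = meanWidth L ↔ V K = V L := by
  obtain ⟨c, hc, h⟩ := meanWidth_eq hn
  rw [h, h]
  constructor
  · exact fun h => mul_left_cancel₀ hc.ne' h
  · exact fun h => by rw [h]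

/-- separation -/
lemma mem_of_supp {K : Set (E n)} (hK : IsCompact K) (hc : Convex ℝ K) (hne : K.Nonempty)
    {x : E n} (h : ∀ u, inner ℝ x u ≤ supp K u) : x ∈ K := by
  by_contra hx
  obtain ⟨f, c, hf1, hf2⟩ := geometric_hahn_banach_closed_point hc hK.isClosed hx
  set u := (InnerProductSpace.toDual ℝ (E n)).symm f with hu
  have h1 : ∀ y : E n, inner ℝ y u = f y := by
    intro y
    rw [real_inner_comm, hu, InnerProductSpace.toDual_symm_apply]
  have h2 := h u
  have h3 : supp K u ≤ c := by
    apply Pool.Agent.S13718.supp_le hne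
    intro y hy
    have := hf1 y hy
    have h4 := h1 y
    linarith [h4.le]
  have h5 := h1 x
  linarith [h5.ge]

lemma supp_mono {K L : Set (E n)} (hL : IsCompact L) (hne : K.Nonempty) (h : K ⊆ L) (u : E n) :
    supp K u ≤ supp L u :=
  Pool.Agent.S13718.supp_le hne fun y hy => Pool.Agent.S13718.le_supp hL (h hy) u

lemma eq_of_subset {K L : Set (E n)} (hK : IsCompact K) (hKc : Convex ℝ K) (hKne : K.Nonempty)
    (hL : IsCompact L) (h : K ⊆ L) (hV : V L ≤ V K) : K = L := by
  have hLne := hKne.mono h
  apply Subset.antisymm h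
  intro x hx
  apply mem_of_supp hK hKc hKne
  intro u
  by_contra hu
  push Not at hu
  have h1 := Pool.Agent.S13718.le_supp hL hx u
  have hcK := Pool.Agent.S13718.supp_continuous hK
  have hcL := Pool.Agent.S13718.supp_continuous hL
  have hiK := Pool.Agent.S13718.supp_integrable hK hKne
  have hiL := Pool.Agent.S13718.supp_integrable hL hLne
  have h2 : 0 < ∫ v : E n, (supp L v - supp K v) * Real.exp (-‖v‖ ^ 2) := by
    refine Pool.Agent.S13718.integral_pos_aux (v := u) (by fun_prop) ?_ ?_ ?_
    · intro v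
      exact mul_nonneg (sub_nonneg.2 (supp_mono hL hKne h v)) (Real.exp_pos _).le
    · refine (hiL.sub hiK).congr (Filter.Eventually.of_forall fun v => ?_)
      simp only [Pi.sub_apply]
      ring
    · exact mul_pos (by linarith) (Real.exp_pos _)
  have h3 : ∫ v : E n, (supp L v - supp K v) * Real.exp (-‖v‖ ^ 2) = V L - V K := by
    unfold Pool.Agent.S13718.V
    rw [← integral_sub hiL hiK]
    congr 1
    ext v
    ring
  linarith

lemma supp_translate {K : Set (E n)} (hK : IsCompact K) (hne : K.Nonempty) (y u : E n) :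
    supp ((fun x => x + y) '' K) u = supp K u + inner ℝ y u := by
  apply le_antisymm
  · apply Pool.Agent.S13718.supp_le (hne.image _)
    rintro _ ⟨x, hx, rfl⟩
    rw [inner_add_left]
    have := Pool.Agent.S13718.le_supp hK hx u
    linarith
  · obtain ⟨x, hx, h⟩ := Pool.Agent.S13718.supp_attained hK hne u
    have h1 := Pool.Agent.S13718.le_supp (K := (fun x => x + y) '' K)
      (hK.image (by fun_prop)) ⟨x, hx, rfl⟩ u
    rw [inner_add_left, h] at h1
    exact h1

lemma inner_integrable (y : E n) : Integrable (fun v : E n => inner ℝ y v * Real.exp (-‖v‖ ^ 2)) := by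
  have h := Pool.Agent.S13718.supp_integrable (K := {y}) isCompact_singleton (singleton_nonempty y)
  refine h.congr (Filter.Eventually.of_forall fun v => ?_)
  simp [Pool.Agent.S13718.supp]

lemma inner_integral (y : E n) : ∫ v : E n, inner ℝ y v * Real.exp (-‖v‖ ^ 2) = 0 := by
  have h := integral_neg_eq_self (fun v : E n => inner ℝ y v * Real.exp (-‖v‖ ^ 2)) volume
  simp only [norm_neg, inner_neg_right, neg_mul] at h
  rw [integral_neg] at h
  linarith

lemma V_translate {K : Set (E n)} (hK : IsCompact K) (hne : K.Nonempty) (y : E n) :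
    V ((fun x => x + y) '' K) = V K := by
  have h1 : V ((fun x => x + y) '' K) = ∫ v : E n, (supp K v * Real.exp (-‖v‖ ^ 2) +
      inner ℝ y v * Real.exp (-‖v‖ ^ 2)) := by
    unfold Pool.Agent.S13718.V
    congr 1
    ext v
    rw [supp_translate hK hne]
    ring
  rw [h1, integral_add (Pool.Agent.S13718.supp_integrable hK hne) (inner_integrable y),
    inner_integral, add_zero]
  rfl

end Q189.MW
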