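import Pool.Agent.Q189.MW1

set_option autoImplicit false

open MeasureTheory Set Metric Filter Topology
open scoped Pointwise

namespace Q189.MW

variable {n : ℕ}

open Pool.Agent.S13718 (V supp)

lemma gauss_half_integrable : Integrable (fun v : E n => ‖v‖ * Real.exp (-(1/2) * ‖v‖ ^ 2)) := by
  have h0 : Integrable (fun v : E n => Real.exp (-(1/4) * ‖v‖ ^ 2)) := by
    by_contra h
    have h1 := GaussianFourier.integral_rexp_neg_mul_sq_norm (V := E n) (b := 1/4) (by norm_num)
    rw [integral_undef h] at h1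
    have : (0:ℝ) < (Real.pi / (1/4)) ^ (Module.finrank ℝ (E n) / 2 : ℝ) := by positivity
    linarith
  refine h0.mono' (by fun_prop) ?_
  refine Filter.Eventually.of_forall fun v => ?_
  rw [Real.norm_eq_abs, abs_mul, abs_of_pos (Real.exp_pos _), abs_of_nonneg (norm_nonneg v)]
  have h1 : ‖v‖ ≤ Real.exp ((1/4) * ‖v‖ ^ 2) := by
    have h2 := Real.add_one_le_exp ((1/4) * ‖v‖ ^ 2)
    nlinarith [sq_nonneg (‖v‖ / 2 - 1)]
  calc ‖v‖ * Real.exp (-(1/2) * ‖v‖ ^ 2) ≤
      Real.exp ((1/4) * ‖v‖ ^ 2) * Real.exp (-(1/2) * ‖v‖ ^ 2) := by gcongr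
    _ = Real.exp (-(1/4) * ‖v‖ ^ 2) := by
        rw [← Real.exp_add]; ring_nf

/-- continuous functions of linear growth are integrable -/
lemma growth_integrable {f : E n → ℝ} (hf : Continuous f) {R : ℝ} (hR : ∀ v, |f v| ≤ R * ‖v‖) :
    Integrable (fun v : E n => f v * Real.exp (-‖v‖ ^ 2)) := by
  have h1 : Integrable (fun v : E n => R * (‖v‖ * Real.exp (-‖v‖ ^ 2))) :=
    Pool.Agent.S13718.gauss_integrable.const_mul R
  refine h1.mono' ?_ ?_
  · apply Continuous.aestronglyMeasurable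
    fun_prop
  · refine Filter.Eventually.of_forall fun v => ?_
    rw [Real.norm_eq_abs, abs_mul, abs_of_pos (Real.exp_pos _), ← mul_assoc]
    exact mul_le_mul_of_nonneg_right (hR v) (Real.exp_pos _).le

/-- the limit step -/
lemma limit_step {A P : Set (E n)} (hA : IsCompact A) (hAne : A.Nonempty) (hP : IsCompact P)
    (hPne : P.Nonempty) {g : E n → ℝ} (hg : Continuous g) {R : ℝ} (hR : ∀ v, |g v| ≤ R * ‖v‖)
    (h : ∀ k : ℕ, ∫ v, max (supp P v) ((k : ℝ) ^ 2 * g v + k * ‖v‖) * Real.exp (-‖v‖ ^ 2) ≤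
      ∫ v, max (supp A v) ((k : ℝ) ^ 2 * g v + k * ‖v‖) * Real.exp (-‖v‖ ^ 2)) :
    ∫ v, {v | g v < 0}.indicator (fun v => (supp P v - supp A v) * Real.exp (-‖v‖ ^ 2)) v ≤ 0 := by
  have hcA := Pool.Agent.S13718.supp_continuous hA
  have hcP := Pool.Agent.S13718.supp_continuous hP
  obtain ⟨RA, hRA⟩ := Pool.Agent.S13718.supp_abs_le hA hAne
  obtain ⟨RP, hRP⟩ := Pool.Agent.S13718.supp_abs_le hP hPne
  set F : ℕ → E n → ℝ := fun k v => (max (supp P v) ((k : ℝ) ^ 2 * g v + k * ‖v‖) -
    max (supp A v) ((k : ℝ) ^ 2 * g v + k * ‖v‖)) * Real.exp (-‖v‖ ^ 2) with hF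
  have hgrow : ∀ {f : E n → ℝ} {r : ℝ}, (∀ v, |f v| ≤ r * ‖v‖) → ∀ k : ℕ, ∀ v,
      |max (f v) ((k : ℝ) ^ 2 * g v + k * ‖v‖)| ≤ (|r| + (k : ℝ) ^ 2 * |R| + k) * ‖v‖ := by
    intro f r hf k v
    have hv := norm_nonneg v
    have h1 := hf v
    have h2 := hR v
    have hk : (0 : ℝ) ≤ k := by positivity
    have h3 : |f v| ≤ |r| * ‖v‖ := h1.trans (mul_le_mul_of_nonneg_right (le_abs_self r) hv)
    have h4 : |g v| ≤ |R| * ‖v‖ := h2.trans (mul_le_mul_of_nonneg_right (le_abs_self R) hv)
    have h5 : |(k : ℝ) ^ 2 * g v + k * ‖v‖| ≤ (k : ℝ) ^ 2 * (|R| * ‖v‖) + k * ‖v‖ := by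
      calc |(k : ℝ) ^ 2 * g v + k * ‖v‖| ≤ |(k : ℝ) ^ 2 * g v| + |k * ‖v‖| := abs_add_le _ _
        _ = (k : ℝ) ^ 2 * |g v| + k * ‖v‖ := by
            rw [abs_mul, abs_of_nonneg (by positivity : (0:ℝ) ≤ (k:ℝ)^2),
              abs_of_nonneg (by positivity : (0:ℝ) ≤ k * ‖v‖)]
        _ ≤ _ := by gcongr
    have h6 : 0 ≤ |r| * ‖v‖ := by positivity
    have h7 : 0 ≤ (k : ℝ) ^ 2 * (|R| * ‖v‖) + k * ‖v‖ := by positivity
    calc |max (f v) ((k : ℝ) ^ 2 * g v + k * ‖v‖)| ≤ max |f v| |(k : ℝ) ^ 2 * g v + k * ‖v‖| :=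
          abs_max_le_max_abs_abs
      _ ≤ |r| * ‖v‖ + ((k : ℝ) ^ 2 * (|R| * ‖v‖) + k * ‖v‖) := by
          apply max_le <;> linarith
      _ = _ := by ring
  have hint : ∀ {f : E n → ℝ} {r : ℝ}, Continuous f → (∀ v, |f v| ≤ r * ‖v‖) → ∀ k : ℕ,
      Integrable (fun v => max (f v) ((k : ℝ) ^ 2 * g v + k * ‖v‖) * Real.exp (-‖v‖ ^ 2)) := by
    intro f r hf hfr k
    exact growth_integrable (by fun_prop) (hgrow hfr k)
  have hFint : ∀ k, ∫ v, F k v ≤ 0 := by
    intro k
    have h1 : ∫ v, F k v = (∫ v, max (supp P v) ((k : ℝ) ^ 2 * g v + k * ‖v‖) *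
        Real.exp (-‖v‖ ^ 2)) - ∫ v, max (supp A v) ((k : ℝ) ^ 2 * g v + k * ‖v‖) *
        Real.exp (-‖v‖ ^ 2) := by
      rw [← integral_sub (hint hcP hRP k) (hint hcA hRA k)]
      congr 1
      ext v
      simp only [hF]
      ring
    rw [h1]
    have := h k
    linarith
  have hdiff : Integrable (fun v : E n => |supp P v - supp A v| * Real.exp (-‖v‖ ^ 2)) := by
    refine growth_integrable (R := |RP| + |RA|) (by fun_prop) ?_
    intro v
    rw [abs_abs]
    have hv := norm_nonneg v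
    have h1 := hRP v
    have h2 := hRA v
    have h3 : |supp P v| ≤ |RP| * ‖v‖ := h1.trans (mul_le_mul_of_nonneg_right (le_abs_self _) hv)
    have h4 : |supp A v| ≤ |RA| * ‖v‖ := h2.trans (mul_le_mul_of_nonneg_right (le_abs_self _) hv)
    calc |supp P v - supp A v| ≤ |supp P v| + |supp A v| := abs_sub _ _
      _ ≤ _ := by rw [add_mul]; exact add_le_add h3 h4
  have hlim : Tendsto (fun k => ∫ v, F k v) atTop (𝓝 (∫ v, {v | g v < 0}.indicator
      (fun v => (supp P v - supp A v) * Real.exp (-‖v‖ ^ 2)) v)) := by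
    apply tendsto_integral_of_dominated_convergence _ _ hdiff
    · intro k
      refine Eventually.of_forall fun v => ?_
      simp only [hF]
      rw [Real.norm_eq_abs, abs_mul, abs_of_pos (Real.exp_pos _)]
      apply mul_le_mul_of_nonneg_right _ (Real.exp_pos _).le
      exact abs_max_sub_max_le_abs _ _ _
    · refine Eventually.of_forall fun v => ?_
      by_cases hv : g v < 0
      · rw [indicator_of_mem (show v ∈ {v | g v < 0} from hv)]
        have h1 : ∀ᶠ k : ℕ in atTop, (k : ℝ) ^ 2 * g v + k * ‖v‖ ≤ min (supp P v) (supp A v) := by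
          have h2 : Tendsto (fun x : ℝ => x * (x * g v + ‖v‖)) atTop atBot := by
            apply Tendsto.atTop_mul_atBot₀ tendsto_id
            exact tendsto_atBot_add_const_right _ _ (tendsto_id.atTop_mul_const_of_neg hv)
          have h3 := h2.comp tendsto_natCast_atTop_atTop
          filter_upwards [h3.eventually_le_atBot (min (supp P v) (supp A v))] with k hk
          simp only [Function.comp_apply] at hk
          calc (k : ℝ) ^ 2 * g v + k * ‖v‖ = (k : ℝ) * (k * g v + ‖v‖) := by ring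
            _ ≤ _ := hk
        refine Tendsto.congr' ?_ tendsto_const_nhds
        filter_upwards [h1] with k hk
        simp only [hF]
        rw [max_eq_left (hk.trans (min_le_left _ _)), max_eq_left (hk.trans (min_le_right _ _))]
      · rw [indicator_of_notMem (show v ∉ {v | g v < 0} from hv)]
        push Not at hv
        rcases eq_or_ne v 0 with rfl | hv0
        · have h0 : ∀ K : Set (E n), supp K (0 : E n) = 0 := by
            intro K
            have := supp_smul K (le_refl (0:ℝ)) (0 : E n)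
            rwa [zero_smul, zero_mul] at this
          refine Tendsto.congr' ?_ tendsto_const_nhds
          filter_upwards with k
          simp only [hF, h0, sub_self, zero_mul]
        · have hnv : 0 < ‖v‖ := norm_pos_iff.2 hv0
          have h1 : ∀ᶠ k : ℕ in atTop, max (supp P v) (supp A v) ≤
              (k : ℝ) ^ 2 * g v + k * ‖v‖ := by
            have h2 : Tendsto (fun k : ℕ => (k : ℝ) * ‖v‖) atTop atTop :=
              tendsto_natCast_atTop_atTop.atTop_mul_const hnv
            filter_upwards [h2.eventually_ge_atTop (max (supp P v) (supp A v))] with k hk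
            have : 0 ≤ (k : ℝ) ^ 2 * g v := by positivity
            linarith
          refine Tendsto.congr' ?_ tendsto_const_nhds
          filter_upwards [h1] with k hk
          simp only [hF]
          rw [max_eq_right ((le_max_left _ _).trans hk), max_eq_right ((le_max_right _ _).trans hk),
            sub_self, zero_mul]
    · intro k
      apply Continuous.aestronglyMeasurable
      simp only [hF]
      fun_prop
  exact le_of_tendsto' hlim hFint

end Q189.MW
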