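import Pool.Agent.Q189.MW2

set_option autoImplicit false

open MeasureTheory Set Metric Filter Topology
open scoped Pointwise

namespace Q189.MW

variable {n : ℕ}

open Pool.Agent.S13718 (V supp)

/-- `c e + a Disc_U + b B` -/
def WW (e : E n) (U : Submodule ℝ (E n)) (c a b : ℝ) : Set (E n) :=
  (fun p : E n × E n => c • e + a • p.1 + b • p.2) '' (({z | z ∈ U ∧ ‖z‖ ≤ 1}) ×ˢ closedBall 0 1)

lemma disc_compact (U : Submodule ℝ (E n)) : IsCompact {z : E n | z ∈ U ∧ ‖z‖ ≤ 1} := by
  have h : {z : E n | z ∈ U ∧ ‖z‖ ≤ 1} = (U : Set (E n)) ∩ closedBall 0 1 := by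
    ext z
    simp
  rw [h]
  exact (isCompact_closedBall (0 : E n) 1).inter_left U.closed_of_finiteDimensional

lemma WW_compact (e : E n) (U : Submodule ℝ (E n)) (c a b : ℝ) : IsCompact (WW e U c a b) :=
  ((disc_compact U).prod (isCompact_closedBall _ _)).image (by fun_prop)

lemma WW_nonempty (e : E n) (U : Submodule ℝ (E n)) (c a b : ℝ) : (WW e U c a b).Nonempty :=
  ⟨_, ⟨((0 : E n), (0 : E n)), ⟨⟨U.zero_mem, by simp⟩, by simp⟩, rfl⟩⟩

lemma WW_convex (e : E n) (U : Submodule ℝ (E n)) (c a b : ℝ) : Convex ℝ (WW e U c a b) := by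
  rintro _ ⟨⟨z, w⟩, ⟨⟨hz, hz1⟩, hw⟩, rfl⟩ _ ⟨⟨z', w'⟩, ⟨⟨hz', hz1'⟩, hw'⟩, rfl⟩ s t hs ht hst
  refine ⟨(s • z + t • z', s • w + t • w'), ⟨⟨U.add_mem (U.smul_mem _ hz) (U.smul_mem _ hz'), ?_⟩,
    ?_⟩, ?_⟩
  · have := (convex_closedBall (0 : E n) 1) (mem_closedBall_zero_iff.2 hz1)
      (mem_closedBall_zero_iff.2 hz1') hs ht hst
    exact mem_closedBall_zero_iff.1 this
  · exact (convex_closedBall (0 : E n) 1) hw hw' hs ht hst
  · have : c • e = s • (c • e) + t • (c • e) := by rw [← add_smul, hst, one_smul]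
    show c • e + a • (s • z + t • z') + b • (s • w + t • w') =
      s • (c • e + a • z + b • w) + t • (c • e + a • z' + b • w')
    conv_lhs => rw [this]
    module

lemma WW_supp (e : E n) (U : Submodule ℝ (E n)) {c a b : ℝ} (ha : 0 ≤ a) (hb : 0 ≤ b) (u : E n) :
    supp (WW e U c a b) u = c * inner ℝ e u + a * ‖U.starProjection u‖ + b * ‖u‖ := by
  apply le_antisymm
  · apply Pool.Agent.S13718.supp_le (WW_nonempty e U c a b)
    rintro _ ⟨⟨z, w⟩, ⟨⟨hz, hz1⟩, hw⟩, rfl⟩
    have hw1 : ‖w‖ ≤ 1 := mem_closedBall_zero_iff.1 hw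
    simp only [inner_add_left, real_inner_smul_left]
    have h1 : inner ℝ z u ≤ ‖U.starProjection u‖ := by
      have h2 : inner ℝ z u = inner ℝ z (U.starProjection u) := by
        rw [← Submodule.inner_starProjection_left_eq_right,
          Submodule.starProjection_eq_self_iff.2 hz]
      rw [h2]
      calc inner ℝ z (U.starProjection u) ≤ ‖z‖ * ‖U.starProjection u‖ := real_inner_le_norm _ _
        _ ≤ 1 * ‖U.starProjection u‖ := by gcongr
        _ = _ := one_mul _
    have h3 : inner ℝ w u ≤ ‖u‖ := by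
      calc inner ℝ w u ≤ ‖w‖ * ‖u‖ := real_inner_le_norm _ _
        _ ≤ 1 * ‖u‖ := by gcongr
        _ = _ := one_mul _
    have h4 := mul_le_mul_of_nonneg_left h1 ha
    have h5 := mul_le_mul_of_nonneg_left h3 hb
    linarith
  · set z : E n := ‖U.starProjection u‖⁻¹ • U.starProjection u with hz
    set w : E n := ‖u‖⁻¹ • u with hw
    have hzU : z ∈ U := U.smul_mem _ (Submodule.starProjection_apply_mem U u)
    have hnz : ∀ v : E n, ‖‖v‖⁻¹ • v‖ ≤ 1 := by
      intro v
      rw [norm_smul, norm_inv, norm_norm]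
      rcases eq_or_ne ‖v‖ 0 with h | h
      · rw [h]; simp
      · rw [inv_mul_cancel₀ h]
    have h1 : inner ℝ z u = ‖U.starProjection u‖ := by
      rw [hz, real_inner_smul_left]
      have h2 : inner ℝ (U.starProjection u) u = ‖U.starProjection u‖ ^ 2 := by
        rw [← real_inner_self_eq_norm_sq, Submodule.inner_starProjection_left_eq_right,
          Submodule.inner_starProjection_left_eq_right]
        rw [Submodule.starProjection_eq_self_iff.2 (Submodule.starProjection_apply_mem U u)]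
      rw [h2]
      rcases eq_or_ne ‖U.starProjection u‖ 0 with h | h
      · rw [h]; simp
      · field_simp
    have h2 : inner ℝ w u = ‖u‖ := by
      rw [hw, real_inner_smul_left, real_inner_self_eq_norm_sq]
      rcases eq_or_ne ‖u‖ 0 with h | h
      · rw [h]; simp
      · field_simp
    have h3 := Pool.Agent.S13718.le_supp (WW_compact e U c a b)
      (y := c • e + a • z + b • w) ⟨(z, w), ⟨⟨hzU, hnz _⟩, mem_closedBall_zero_iff.2 (hnz _)⟩, rfl⟩ u
    rw [inner_add_left, inner_add_left, real_inner_smul_left, real_inner_smul_left (y := u) (x := z),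
      real_inner_smul_left (x := w), h1, h2] at h3
    exact h3

/-- membership form of symmetry -/
lemma hsymm_iff {H : Submodule ℝ (E n)} {K : Set (E n)} :
    HSymm H K ↔ ∀ x ∈ K, H.reflection x ∈ K := by
  unfold HSymm
  constructor
  · intro h x hx
    rw [← h]
    exact ⟨x, hx, rfl⟩
  · intro h
    apply Subset.antisymm
    · rintro _ ⟨x, hx, rfl⟩
      exact h x hx
    · intro x hx
      exact ⟨H.reflection x, h x hx, H.reflection_reflection x⟩

lemma refl_perp {H : Submodule ℝ (E n)} {x : E n} (hx : x ∈ Hᗮ) : H.reflection x = -x :=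
  Submodule.reflection_mem_subspace_orthogonalComplement_eq_neg hx

lemma refl_mem {H : Submodule ℝ (E n)} {x : E n} (hx : x ∈ H) : H.reflection x = x :=
  Submodule.reflection_mem_subspace_eq_self hx

lemma WW_symm {H : Submodule ℝ (E n)} {e : E n} (he : e ∈ H) {U : Submodule ℝ (E n)} (hU : U ≤ Hᗮ)
    (c a b : ℝ) : HSymm H (WW e U c a b) := by
  rw [hsymm_iff]
  rintro _ ⟨⟨z, w⟩, ⟨⟨hz, hz1⟩, hw⟩, rfl⟩
  refine ⟨(-z, H.reflection w), ⟨⟨U.neg_mem hz, by rw [norm_neg]; exact hz1⟩, ?_⟩, ?_⟩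
  · rw [mem_closedBall_zero_iff] at hw ⊢
    rw [LinearIsometryEquiv.norm_map]
    exact hw
  · simp only [map_add, map_smul, refl_mem he, refl_perp (hU hz)]

/-! ### the join -/

lemma join_compact {A W : Set (E n)} (hA : IsCompact A) (hW : IsCompact W) :
    IsCompact (convexJoin ℝ A W) := by
  have h : convexJoin ℝ A W = (fun p : ℝ × E n × E n => (1 - p.1) • p.2.1 + p.1 • p.2.2) ''
      (Icc (0:ℝ) 1 ×ˢ A ×ˢ W) := by
    ext x
    rw [mem_convexJoin]
    constructor
    · rintro ⟨a, ha, w, hw, hx⟩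
      rw [segment_eq_image] at hx
      obtain ⟨t, ht, rfl⟩ := hx
      exact ⟨(t, a, w), ⟨ht, ha, hw⟩, rfl⟩
    · rintro ⟨⟨t, a, w⟩, ⟨ht, ha, hw⟩, rfl⟩
      refine ⟨a, ha, w, hw, ?_⟩
      rw [segment_eq_image]
      exact ⟨t, ht, rfl⟩
  rw [h]
  exact (isCompact_Icc.prod (hA.prod hW)).image (by fun_prop)

lemma join_nonempty {A W : Set (E n)} (hA : A.Nonempty) (hW : W.Nonempty) :
    (convexJoin ℝ A W).Nonempty := by
  obtain ⟨a, ha⟩ := hA
  exact ⟨a, subset_convexJoin_left hW ha⟩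

lemma join_supp_le {A W : Set (E n)} (hA : IsCompact A) (hAne : A.Nonempty) (hW : IsCompact W)
    (hWne : W.Nonempty) (u : E n) : supp (convexJoin ℝ A W) u ≤ max (supp A u) (supp W u) := by
  apply Pool.Agent.S13718.supp_le
  · exact join_nonempty hAne hWne
  · intro x hx
    rw [mem_convexJoin] at hx
    obtain ⟨a, ha, w, hw, hx⟩ := hx
    obtain ⟨s, t, hs, ht, hst, rfl⟩ := hx
    rw [inner_add_left, real_inner_smul_left, real_inner_smul_left]
    have h1 := (Pool.Agent.S13718.le_supp hA ha u).trans (le_max_left _ (supp W u))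
    have h2 := (Pool.Agent.S13718.le_supp hW hw u).trans (le_max_right (supp A u) _)
    calc s * inner ℝ a u + t * inner ℝ w u ≤ s * max (supp A u) (supp W u) +
          t * max (supp A u) (supp W u) := by gcongr
      _ = max (supp A u) (supp W u) := by rw [← add_mul, hst, one_mul]

/-- the basic inequality -/
lemma sym_step {H : Submodule ℝ (E n)} {D : Set (E n) → Set (E n)}
    (hn : 1 ≤ n) (hD : MonotonicWidthPreserving (compactConvex n) H D) {A W : Set (E n)}
    (hA : A ∈ compactConvex n) (hW : W ∈ compactConvex n) (hWs : HSymm H W) :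
    ∫ v, max (supp (D A) v) (supp W v) * Real.exp (-‖v‖ ^ 2) ≤
      ∫ v, max (supp A v) (supp W v) * Real.exp (-‖v‖ ^ 2) := by
  have hint : ∀ {K L : Set (E n)}, IsCompact K → K.Nonempty → IsCompact L → L.Nonempty →
      Integrable (fun v => max (supp K v) (supp L v) * Real.exp (-‖v‖ ^ 2)) := by
    intro K L hK hKne hL hLne
    obtain ⟨r, hr⟩ := Pool.Agent.S13718.supp_abs_le hK hKne
    obtain ⟨r', hr'⟩ := Pool.Agent.S13718.supp_abs_le hL hLne
    have h1 := Pool.Agent.S13718.supp_continuous hK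
    have h2 := Pool.Agent.S13718.supp_continuous hL
    refine growth_integrable (R := |r| + |r'|) (by fun_prop) fun v => ?_
    have hv := norm_nonneg v
    have h3 : |supp K v| ≤ |r| * ‖v‖ := (hr v).trans (mul_le_mul_of_nonneg_right (le_abs_self _) hv)
    have h4 : |supp L v| ≤ |r'| * ‖v‖ :=
      (hr' v).trans (mul_le_mul_of_nonneg_right (le_abs_self _) hv)
    have h5 : 0 ≤ |r| * ‖v‖ := by positivity
    have h6 : 0 ≤ |r'| * ‖v‖ := by positivity
    rw [add_mul]
    exact abs_max_le_max_abs_abs.trans (max_le (by linarith) (by linarith))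
  set J := convexJoin ℝ A W with hJ
  have hJne : J.Nonempty := join_nonempty hA.2.2 hW.2.2
  have hJm : J ∈ compactConvex n := ⟨join_compact hA.1 hW.1, hA.2.1.convexJoin hW.2.1, hJne⟩
  have hDJ := hD.maps J hJm
  have hDA := hD.maps A hA
  have h1 : D A ⊆ D J := hD.monotonic A hA J hJm (subset_convexJoin_left hW.2.2)
  have h2 : W ⊆ D J := by
    have h3 := hD.monotonic W hW J hJm (subset_convexJoin_right hA.2.2)
    rwa [hD.fixes W hW hWs] at h3
  have h4 : V (D J) = V J := (meanWidth_iff hn _ _).1 (hD.preserves J hJm)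
  calc ∫ v, max (supp (D A) v) (supp W v) * Real.exp (-‖v‖ ^ 2) ≤ V (D J) := by
        apply integral_mono (hint hDA.1 hDA.2.2 hW.1 hW.2.2)
          (Pool.Agent.S13718.supp_integrable hDJ.1 hDJ.2.2)
        intro v
        exact mul_le_mul_of_nonneg_right (max_le (supp_mono hDJ.1 hDA.2.2 h1 v)
          (supp_mono hDJ.1 hW.2.2 h2 v)) (Real.exp_pos _).le
    _ = V J := h4
    _ ≤ _ := by
        apply integral_mono (Pool.Agent.S13718.supp_integrable hJm.1 hJne)
          (hint hA.1 hA.2.2 hW.1 hW.2.2)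
        intro v
        exact mul_le_mul_of_nonneg_right (join_supp_le hA.1 hA.2.2 hW.1 hW.2.2 v)
          (Real.exp_pos _).le

/-- the inequality on the cone -/
lemma cone_step {H : Submodule ℝ (E n)} {D : Set (E n) → Set (E n)}
    (hn : 1 ≤ n) (hD : MonotonicWidthPreserving (compactConvex n) H D) {A : Set (E n)}
    (hA : A ∈ compactConvex n) {e : E n} (he : e ∈ H) {U : Submodule ℝ (E n)} (hU : U ≤ Hᗮ)
    {R : ℝ} (hR : 0 ≤ R) :
    ∫ v, {v | inner ℝ e v + R * ‖U.starProjection v‖ < 0}.indicator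
      (fun v => (supp (D A) v - supp A v) * Real.exp (-‖v‖ ^ 2)) v ≤ 0 := by
  have hDA := hD.maps A hA
  refine limit_step hA.1 hA.2.2 hDA.1 hDA.2.2 (g := fun v => inner ℝ e v +
    R * ‖U.starProjection v‖) (by fun_prop) (R := ‖e‖ + R) ?_ ?_
  · intro v
    have h1 : |inner ℝ e v| ≤ ‖e‖ * ‖v‖ := abs_real_inner_le_norm _ _
    have h2 : ‖U.starProjection v‖ ≤ ‖v‖ := Submodule.norm_starProjection_apply_le U v
    calc |inner ℝ e v + R * ‖U.starProjection v‖| ≤ |inner ℝ e v| + |R * ‖U.starProjection v‖| :=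
          abs_add_le _ _
      _ = |inner ℝ e v| + R * ‖U.starProjection v‖ := by
          rw [abs_of_nonneg (by positivity : 0 ≤ R * ‖U.starProjection v‖)]
      _ ≤ ‖e‖ * ‖v‖ + R * ‖v‖ := by gcongr
      _ = _ := by ring
  · intro k
    have h1 := sym_step hn hD hA (W := WW e U ((k:ℝ)^2) ((k:ℝ)^2 * R) k)
      ⟨WW_compact _ _ _ _ _, WW_convex _ _ _ _ _, WW_nonempty _ _ _ _ _⟩ (WW_symm he hU _ _ _)
    have h2 : ∀ v, supp (WW e U ((k:ℝ)^2) ((k:ℝ)^2 * R) k) v =
        (k:ℝ)^2 * (inner ℝ e v + R * ‖U.starProjection v‖) + k * ‖v‖ := by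
      intro v
      rw [WW_supp e U (by positivity) (by positivity)]
      ring
    simp only [h2] at h1
    exact h1

end Q189.MW
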