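import Pool.Agent.Q189.MW3

set_option autoImplicit false

open MeasureTheory Set Metric Filter Topology
open scoped Pointwise

namespace Q189.MW

variable {n : ℕ}

open Pool.Agent.S13718 (V supp)

lemma supp_neg_eq {K : Set (E n)} (hs : ∀ x ∈ K, -x ∈ K) (u : E n) : supp K (-u) = supp K u := by
  unfold Pool.Agent.S13718.supp
  congr 1
  ext r
  constructor
  · rintro ⟨x, hx, rfl⟩
    exact ⟨-x, hs x hx, by simp⟩
  · rintro ⟨x, hx, rfl⟩
    exact ⟨-x, hs x hx, by simp⟩

/-- the compression towards the orthogonal complement of `U` -/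
noncomputable def T (U : Submodule ℝ (E n)) (δ : ℝ) : E n →L[ℝ] E n :=
  ContinuousLinearMap.id ℝ _ - (1 - δ) • U.starProjection

lemma T_apply (U : Submodule ℝ (E n)) (δ : ℝ) (v : E n) :
    T U δ v = v - (1 - δ) • U.starProjection v := rfl

lemma T_proj (U : Submodule ℝ (E n)) (δ : ℝ) (v : E n) :
    U.starProjection (T U δ v) = δ • U.starProjection v := by
  rw [T_apply, map_sub, map_smul,
    Submodule.starProjection_eq_self_iff.2 (Submodule.starProjection_apply_mem U v)]
  module

lemma T_inner (U : Submodule ℝ (E n)) (δ : ℝ) {x : E n} (hx : x ∈ Uᗮ) (v : E n) :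
    inner ℝ x (T U δ v) = inner ℝ x v := by
  rw [T_apply, inner_sub_right, real_inner_smul_right]
  have : inner ℝ x (U.starProjection v) = 0 := by
    rw [real_inner_comm]
    exact hx _ (Submodule.starProjection_apply_mem U v)
  rw [this]
  ring

lemma T_norm (U : Submodule ℝ (E n)) (δ : ℝ) (v : E n) :
    ‖T U δ v‖ ^ 2 = ‖v - U.starProjection v‖ ^ 2 + δ ^ 2 * ‖U.starProjection v‖ ^ 2 := by
  have h : T U δ v = (v - U.starProjection v) + δ • U.starProjection v := by
    rw [T_apply]; module
  have h2 : inner ℝ (v - U.starProjection v) (δ • U.starProjection v) = 0 := by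
    rw [real_inner_smul_right]
    have := Submodule.starProjection_inner_eq_zero (K := U) v _
      (Submodule.starProjection_apply_mem U v)
    rw [this, mul_zero]
  rw [h, @norm_add_sq_real, h2, norm_smul, mul_pow, Real.norm_eq_abs, sq_abs]
  ring

lemma norm_split (U : Submodule ℝ (E n)) (v : E n) :
    ‖v‖ ^ 2 = ‖v - U.starProjection v‖ ^ 2 + ‖U.starProjection v‖ ^ 2 := by
  have h := T_norm U 1 v
  have h1 : T U 1 v = v := by rw [T_apply]; simp
  rw [h1] at h
  rw [h]
  ring

lemma T_inj (U : Submodule ℝ (E n)) {δ : ℝ} (hδ : δ ≠ 0) : Function.Injective (T U δ) := by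
  intro v w hvw
  have h1 := congrArg U.starProjection hvw
  rw [T_proj, T_proj] at h1
  have h2 := smul_right_injective _ hδ h1
  rw [T_apply, T_apply, h2] at hvw
  exact sub_left_injective hvw

/-- change of variables -/
lemma T_integral (U : Submodule ℝ (E n)) {δ : ℝ} (hδ : δ ≠ 0) (G : E n → ℝ)
    (h : ∫ v, G v ≤ 0) : ∫ v, G (T U δ v) ≤ 0 := by
  have hinj := T_inj U hδ
  have hdet : LinearMap.det (T U δ : E n →ₗ[ℝ] E n) ≠ 0 := by
    intro h0
    have h1 := LinearMap.bot_lt_ker_of_det_eq_zero h0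
    have h2 : LinearMap.ker (T U δ : E n →ₗ[ℝ] E n) = ⊥ := LinearMap.ker_eq_bot.2 hinj
    rw [h2] at h1
    exact lt_irrefl _ h1
  have hmap := Measure.map_linearMap_addHaar_eq_smul_addHaar (volume : Measure (E n)) hdet
  have hemb : MeasurableEmbedding (T U δ) := (T U δ).continuous.measurableEmbedding hinj
  have h1 := hemb.integral_map (μ := (volume : Measure (E n))) G
  rw [← h1]
  have h2 : Measure.map (T U δ) (volume : Measure (E n)) =
      ENNReal.ofReal |(LinearMap.det (T U δ : E n →ₗ[ℝ] E n))⁻¹| • volume := hmap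
  rw [h2, integral_smul_measure]
  exact mul_nonpos_of_nonneg_of_nonpos ENNReal.toReal_nonneg h

/-- localisation in the direction `u₁` -/
lemma loc_step {H : Submodule ℝ (E n)} {P S : Set (E n)} (hP : IsCompact P) (hPne : P.Nonempty)
    (hS : IsCompact S) (hSne : S.Nonempty) (hPH : ∀ x ∈ P, x ∈ Hᗮ) (hSH : ∀ x ∈ S, x ∈ Hᗮ)
    (hPs : ∀ x ∈ P, -x ∈ P) (hSs : ∀ x ∈ S, -x ∈ S) {e : E n} (he : e ∈ H) (hen : ‖e‖ = 1)
    {u₁ : E n} (hu : u₁ ∈ Hᗮ) (hun : ‖u₁‖ = 1)
    (h : ∀ R : ℝ, 0 ≤ R → ∫ v, {v | inner ℝ e v +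
      R * ‖(H ⊔ Submodule.span ℝ {u₁})ᗮ.starProjection v‖ < 0}.indicator
      (fun v => (supp P v - supp S v) * Real.exp (-‖v‖ ^ 2)) v ≤ 0) :
    supp P u₁ ≤ supp S u₁ := by
  set U := (H ⊔ Submodule.span ℝ {u₁})ᗮ with hU
  have heU : e ∈ Uᗮ := Submodule.le_orthogonal_orthogonal _ (Submodule.mem_sup_left he)
  have huU : u₁ ∈ Uᗮ := Submodule.le_orthogonal_orthogonal _
    (Submodule.mem_sup_right (Submodule.mem_span_singleton_self u₁))
  have hcP := Pool.Agent.S13718.supp_continuous hP
  have hcS := Pool.Agent.S13718.supp_continuous hS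
  obtain ⟨RP, hRP⟩ := Pool.Agent.S13718.supp_abs_le hP hPne
  obtain ⟨RS, hRS⟩ := Pool.Agent.S13718.supp_abs_le hS hSne
  set C : ℝ := |RP| + |RS| with hC
  have hC0 : 0 ≤ C := by positivity
  have hCb : ∀ v, |supp P v - supp S v| ≤ C * ‖v‖ := by
    intro v
    have hv := norm_nonneg v
    have h3 : |supp P v| ≤ |RP| * ‖v‖ :=
      (hRP v).trans (mul_le_mul_of_nonneg_right (le_abs_self _) hv)
    have h4 : |supp S v| ≤ |RS| * ‖v‖ :=
      (hRS v).trans (mul_le_mul_of_nonneg_right (le_abs_self _) hv)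
    calc |supp P v - supp S v| ≤ |supp P v| + |supp S v| := abs_sub _ _
      _ ≤ _ := by rw [hC, add_mul]; exact add_le_add h3 h4
  set N : Set (E n) := {v | inner ℝ e v + ‖U.starProjection v‖ < 0} with hN
  have hNo : IsOpen N := isOpen_lt (by fun_prop) continuous_const
  -- the transformed inequalities
  set F : ℕ → E n → ℝ := fun k v => N.indicator (fun v => (supp P (T U (1 / ((k:ℝ) + 1)) v) -
    supp S (T U (1 / ((k:ℝ) + 1)) v)) * Real.exp (-‖T U (1 / ((k:ℝ) + 1)) v‖ ^ 2)) v with hF
  have hFint : ∀ k, ∫ v, F k v ≤ 0 := by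
    intro k
    have hk : (0:ℝ) < (k:ℝ) + 1 := by positivity
    have h1 := T_integral U (δ := 1 / ((k:ℝ) + 1)) (by positivity) _ (h ((k:ℝ) + 1) hk.le)
    refine le_of_eq_of_le ?_ h1
    congr 1
    ext v
    simp only [hF]
    have hmem : v ∈ N ↔ T U (1 / ((k:ℝ) + 1)) v ∈ {v | inner ℝ e v +
        ((k:ℝ) + 1) * ‖U.starProjection v‖ < 0} := by
      simp only [hN, mem_ofPred_eq]
      rw [T_inner U _ heU, T_proj, norm_smul, Real.norm_eq_abs,
        abs_of_pos (by positivity : (0:ℝ) < 1 / ((k:ℝ) + 1)), ← mul_assoc,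
        mul_one_div_cancel hk.ne', one_mul]
    by_cases hv : v ∈ N
    · rw [indicator_of_mem hv, indicator_of_mem (hmem.1 hv)]
    · rw [indicator_of_notMem hv, indicator_of_notMem (fun h => hv (hmem.2 h))]
  -- the bound
  have hhalf : ∀ v ∈ N, ∀ δ : ℝ, ‖v‖ ^ 2 ≤ 2 * ‖T U δ v‖ ^ 2 := by
    intro v hv δ
    have h1 := T_norm U δ v
    have h2 := norm_split U v
    have h3 : ‖U.starProjection v‖ ≤ ‖v - U.starProjection v‖ := by
      have h4 : inner ℝ e v = inner ℝ e (v - U.starProjection v) := by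
        have h5 := T_inner U 0 heU v
        rw [T_apply, sub_zero, one_smul] at h5
        exact h5.symm
      have h6 := abs_real_inner_le_norm e (v - U.starProjection v)
      rw [hen, one_mul] at h6
      have h7 := neg_abs_le (inner ℝ e (v - U.starProjection v))
      have h8 : inner ℝ e v + ‖U.starProjection v‖ < 0 := hv
      rw [h4] at h8
      linarith
    have h4 := norm_nonneg (U.starProjection v)
    have h5 : ‖U.starProjection v‖ ^ 2 ≤ ‖v - U.starProjection v‖ ^ 2 := by
      apply pow_le_pow_left₀ h4 h3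
    have h6 : 0 ≤ δ ^ 2 * ‖U.starProjection v‖ ^ 2 := by positivity
    linarith
  have hTle : ∀ v, ∀ δ : ℝ, 0 ≤ δ → δ ≤ 1 → ‖T U δ v‖ ≤ ‖v‖ := by
    intro v δ h0 h1
    have h2 := T_norm U δ v
    have h3 := norm_split U v
    have h4 : δ ^ 2 * ‖U.starProjection v‖ ^ 2 ≤ 1 * ‖U.starProjection v‖ ^ 2 := by
      apply mul_le_mul_of_nonneg_right _ (by positivity)
      exact pow_le_one₀ h0 h1
    apply le_of_sq_le_sq _ (norm_nonneg v)
    linarith
  have hbint : Integrable (fun v : E n => C * (‖v‖ * Real.exp (-(1/2) * ‖v‖ ^ 2))) :=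
    gauss_half_integrable.const_mul C
  have hbd : ∀ (δ : ℝ), 0 ≤ δ → δ ≤ 1 → ∀ v, ∀ r : ℝ, |r| ≤ C * ‖T U δ v‖ →
      ‖N.indicator (fun v => r * Real.exp (-‖T U δ v‖ ^ 2)) v‖ ≤
        C * (‖v‖ * Real.exp (-(1/2) * ‖v‖ ^ 2)) := by
    intro δ h0 h1 v r hr
    by_cases hv : v ∈ N
    · rw [indicator_of_mem hv, Real.norm_eq_abs, abs_mul, abs_of_pos (Real.exp_pos _)]
      have h2 := hhalf v hv δ
      have h3 := hTle v δ h0 h1
      calc |r| * Real.exp (-‖T U δ v‖ ^ 2) ≤ (C * ‖v‖) * Real.exp (-(1/2) * ‖v‖ ^ 2) := by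
            apply mul_le_mul _ _ (Real.exp_pos _).le (by positivity)
            · exact hr.trans (mul_le_mul_of_nonneg_left h3 hC0)
            · apply Real.exp_le_exp.2
              linarith
        _ = _ := by ring
    · rw [indicator_of_notMem hv, norm_zero]
      positivity
  -- the limit function
  have hval : ∀ {K : Set (E n)}, IsCompact K → K.Nonempty → (∀ x ∈ K, x ∈ Hᗮ) →
      (∀ x ∈ K, -x ∈ K) → ∀ v, supp K (T U 0 v) = |inner ℝ u₁ v| * supp K u₁ := by
    intro K hK hKne hKH hKs v
    have h1 : ∀ x ∈ Hᗮ, inner ℝ x (T U 0 v) = inner ℝ x (inner ℝ u₁ v • u₁) := by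
      intro x hx
      have hx' : x - inner ℝ u₁ x • u₁ ∈ U := by
        rw [hU, ← Submodule.inf_orthogonal, Submodule.mem_inf]
        refine ⟨Submodule.sub_mem _ hx (Submodule.smul_mem _ _ hu), ?_⟩
        rw [Submodule.mem_orthogonal_singleton_iff_inner_right, inner_sub_right,
          real_inner_smul_right, real_inner_self_eq_norm_sq, hun]
        ring
      have h2 : inner ℝ (x - inner ℝ u₁ x • u₁) (T U 0 v) = 0 := by
        rw [T_apply, sub_zero, one_smul, real_inner_comm]
        exact Submodule.starProjection_inner_eq_zero (K := U) v _ hx'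
      rw [inner_sub_left, real_inner_smul_left, T_inner U 0 huU] at h2
      rw [real_inner_smul_right, real_inner_comm u₁ x]
      have h3 := real_inner_comm u₁ x
      linarith
    have h2 : supp K (T U 0 v) = supp K (inner ℝ u₁ v • u₁) := by
      unfold Pool.Agent.S13718.supp
      congr 1
      exact image_congr fun x hx => h1 x (hKH x hx)
    rw [h2]
    rcases le_total 0 (inner ℝ u₁ v) with h3 | h3
    · rw [supp_smul K h3, abs_of_nonneg h3]
    · rw [abs_of_nonpos h3, ← supp_smul K (neg_nonneg.2 h3), neg_smul, supp_neg_eq hKs]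
  set L : E n → ℝ := fun v => N.indicator (fun v => |inner ℝ u₁ v| *
    Real.exp (-‖T U 0 v‖ ^ 2)) v with hL
  have hlim : Tendsto (fun k => ∫ v, F k v) atTop (𝓝 (∫ v, (supp P u₁ - supp S u₁) * L v)) := by
    apply tendsto_integral_of_dominated_convergence _ _ hbint
    · intro k
      refine Eventually.of_forall fun v => ?_
      have hk : (0:ℝ) < (k:ℝ) + 1 := by positivity
      have hk1 : 1 / ((k:ℝ) + 1) ≤ 1 := by
        rw [div_le_one hk]
        have : (0:ℝ) ≤ k := by positivity
        linarith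
      have h1 := hbd (1 / ((k:ℝ) + 1)) (by positivity) hk1 v _ (hCb (T U (1 / ((k:ℝ) + 1)) v))
      refine le_trans (le_of_eq ?_) h1
      congr 1
    · refine Eventually.of_forall fun v => ?_
      by_cases hv : v ∈ N
      · simp only [hF, hL]
        rw [indicator_of_mem hv]
        have h1 : (supp P u₁ - supp S u₁) * (|inner ℝ u₁ v| * Real.exp (-‖T U 0 v‖ ^ 2)) =
            (supp P (T U 0 v) - supp S (T U 0 v)) * Real.exp (-‖T U 0 v‖ ^ 2) := by
          rw [hval hP hPne hPH hPs v, hval hS hSne hSH hSs v]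
          ring
        rw [h1]
        have h2 : Tendsto (fun k : ℕ => T U (1 / ((k:ℝ) + 1)) v) atTop (𝓝 (T U 0 v)) := by
          have h3 : Continuous (fun δ : ℝ => T U δ v) := by
            simp only [T_apply]
            fun_prop
          exact (h3.tendsto 0).comp tendsto_one_div_add_atTop_nhds_zero_nat
        have h4 : Continuous (fun w : E n => (supp P w - supp S w) * Real.exp (-‖w‖ ^ 2)) := by
          fun_prop
        have h5 := (h4.tendsto (T U 0 v)).comp h2
        refine h5.congr fun k => ?_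
        rw [indicator_of_mem hv]
        rfl
      · simp only [hF, hL]
        rw [indicator_of_notMem hv, mul_zero]
        refine Tendsto.congr (fun k => ?_) tendsto_const_nhds
        rw [indicator_of_notMem hv]
    · intro k
      apply Measurable.aestronglyMeasurable
      apply Measurable.indicator _ hNo.measurableSet
      apply Continuous.measurable
      have := (T U (1 / ((k:ℝ) + 1))).continuous
      fun_prop
  have h1 : ∫ v, (supp P u₁ - supp S u₁) * L v ≤ 0 := le_of_tendsto' hlim hFint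
  rw [integral_const_mul] at h1
  have hLmeas : Measurable L := by
    apply Measurable.indicator _ hNo.measurableSet
    apply Continuous.measurable
    have := (T U 0).continuous
    fun_prop
  have hLint : Integrable L := by
    refine (gauss_half_integrable (n := n)).mono' hLmeas.aestronglyMeasurable ?_
    refine Eventually.of_forall fun v => ?_
    by_cases hv : v ∈ N
    · simp only [hL]
      rw [indicator_of_mem hv, Real.norm_eq_abs, abs_mul, abs_of_pos (Real.exp_pos _), abs_abs]
      have h2 := hhalf v hv 0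
      have h3 : |inner ℝ u₁ v| ≤ ‖v‖ := by
        have := abs_real_inner_le_norm u₁ v
        rwa [hun, one_mul] at this
      apply mul_le_mul h3 _ (Real.exp_pos _).le (norm_nonneg _)
      apply Real.exp_le_exp.2
      linarith
    · simp only [hL]
      rw [indicator_of_notMem hv, norm_zero]
      positivity
  have hL0 : ∀ v, 0 ≤ L v := by
    intro v
    exact indicator_nonneg (fun v _ => by positivity) v
  have hLpos : 0 < ∫ v, L v := by
    rw [integral_pos_iff_support_of_nonneg hL0 hLint]
    have hsub : N ∩ {v | inner ℝ u₁ v ≠ 0} ⊆ Function.support L := by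
      rintro v ⟨hv, hv2⟩
      simp only [hL, Function.mem_support]
      rw [indicator_of_mem hv]
      have : 0 < |inner ℝ u₁ v| := abs_pos.2 hv2
      positivity
    refine lt_of_lt_of_le ?_ (measure_mono hsub)
    apply IsOpen.measure_pos
    · exact hNo.inter (isOpen_ne_fun (by fun_prop) continuous_const)
    · refine ⟨-e + u₁, ?_, ?_⟩
      · show inner ℝ e (-e + u₁) + ‖U.starProjection (-e + u₁)‖ < 0
        have h3 : -e + u₁ ∈ Uᗮ := Submodule.add_mem _ (Submodule.neg_mem _ heU) huU
        have h4 : U.starProjection (-e + u₁) = 0 :=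
          (Submodule.starProjection_apply_eq_zero_iff U).2 h3
        have h5 : inner ℝ e u₁ = 0 := hu e he
        rw [h4, norm_zero, inner_add_right, inner_neg_right, real_inner_self_eq_norm_sq, hen, h5]
        norm_num
      · show inner ℝ u₁ (-e + u₁) ≠ 0
        have h5 : inner ℝ u₁ e = 0 := by rw [real_inner_comm]; exact hu e he
        rw [inner_add_right, inner_neg_right, h5, real_inner_self_eq_norm_sq, hun]
        norm_num
  by_contra hcon
  push Not at hcon
  have := mul_pos (sub_pos.2 hcon) hLpos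
  linarith

end Q189.MW
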