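import Pool.Agent.Q189.MW4

set_option autoImplicit false

open MeasureTheory Set Metric Filter Topology Module
open scoped Pointwise

namespace Q189.MW

variable {n : ℕ}

open Pool.Agent.S13718 (V supp)

lemma refl_inner {H : Submodule ℝ (E n)} (x v : E n) :
    inner ℝ x (H.reflection v) = inner ℝ (H.reflection x) v := by
  rw [← LinearIsometryEquiv.inner_map_map H.reflection x, Submodule.reflection_reflection]

/-- translate -/
def tr (y : E n) (K : Set (E n)) : Set (E n) := (fun x => x + y) '' K

lemma tr_mem {K : Set (E n)} (hK : K ∈ compactConvex n) (y : E n) : tr y K ∈ compactConvex n := by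
  refine ⟨hK.1.image (by fun_prop), ?_, hK.2.2.image _⟩
  rintro _ ⟨a, ha, rfl⟩ _ ⟨b, hb, rfl⟩ s t hs ht hst
  refine ⟨s • a + t • b, hK.2.1 ha hb hs ht hst, ?_⟩
  simp only
  have : y = s • y + t • y := by rw [← add_smul, hst, one_smul]
  conv_lhs => rw [this]
  module

lemma tr_tr (x y : E n) (K : Set (E n)) : tr x (tr y K) = tr (y + x) K := by
  unfold tr
  rw [image_image]
  simp only [add_assoc]

lemma tr_zero (K : Set (E n)) : tr 0 K = K := by
  unfold tr
  simp

lemma tr_symm {H : Submodule ℝ (E n)} {K : Set (E n)} (hK : HSymm H K) {x : E n} (hx : x ∈ H) :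
    HSymm H (tr x K) := by
  rw [hsymm_iff] at hK ⊢
  rintro _ ⟨a, ha, rfl⟩
  refine ⟨H.reflection a, hK a ha, ?_⟩
  simp only [map_add, refl_mem hx]

lemma V_tr {K : Set (E n)} (hK : K ∈ compactConvex n) (y : E n) : V (tr y K) = V K :=
  V_translate hK.1 hK.2.2 y

/-- one fibre -/
lemma step1 {H : Submodule ℝ (E n)} {D : Set (E n) → Set (E n)}
    (hn : 1 ≤ n) (hD : MonotonicWidthPreserving (compactConvex n) H D) {e : E n} (he : e ∈ H)
    (hen : ‖e‖ = 1) {S : Set (E n)} (hS : S ∈ compactConvex n) (hSH : ∀ x ∈ S, x ∈ Hᗮ)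
    (hSs : ∀ x ∈ S, -x ∈ S) {y : E n} (hy : y ∈ Hᗮ) : D (tr y S) = S := by
  set A := tr y S with hAdef
  have hA : A ∈ compactConvex n := tr_mem hS y
  have hAH : ∀ x ∈ A, x ∈ Hᗮ := by
    rintro _ ⟨x, hx, rfl⟩
    exact Submodule.add_mem _ (hSH x hx) hy
  have hP := hD.maps A hA
  -- P lies in the orthogonal complement
  have hPH : ∀ x ∈ D A, x ∈ Hᗮ := by
    obtain ⟨r, hr⟩ := hA.1.isBounded.exists_norm_le
    obtain ⟨a, ha⟩ := hA.2.2
    set B : Set (E n) := (Hᗮ : Set (E n)) ∩ closedBall 0 r with hB
    have hBm : B ∈ compactConvex n := by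
      refine ⟨(isCompact_closedBall (0 : E n) r).inter_left Hᗮ.closed_of_finiteDimensional,
        (Submodule.convex Hᗮ).inter (convex_closedBall 0 r), ⟨a, hAH a ha, ?_⟩⟩
      rw [mem_closedBall_zero_iff]
      exact hr a ha
    have hBs : HSymm H B := by
      rw [hsymm_iff]
      rintro x ⟨hx, hx2⟩
      rw [refl_perp hx]
      refine ⟨Submodule.neg_mem _ hx, ?_⟩
      rw [mem_closedBall_zero_iff] at hx2 ⊢
      rwa [norm_neg]
    have hAB : A ⊆ B := fun x hx => ⟨hAH x hx, by rw [mem_closedBall_zero_iff]; exact hr x hx⟩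
    have h1 := hD.monotonic A hA B hBm hAB
    rw [hD.fixes B hBm hBs] at h1
    exact fun x hx => (h1 hx).1
  have hPs : ∀ x ∈ D A, -x ∈ D A := by
    intro x hx
    have h1 := hsymm_iff.1 (hD.symm A hA) x hx
    rwa [refl_perp (hPH x hx)] at h1
  have hVP : V (D A) = V S := by
    rw [(meanWidth_iff hn _ _).1 (hD.preserves A hA), hAdef, V_tr hS]
  have hcP := Pool.Agent.S13718.supp_continuous hP.1
  have hcA := Pool.Agent.S13718.supp_continuous hA.1
  -- the key inequality
  have hkey : ∀ u ∈ Hᗮ, ‖u‖ = 1 → supp (D A) u ≤ supp S u := by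
    intro u₁ hu₁ hun
    refine loc_step hP.1 hP.2.2 hS.1 hS.2.2 hPH hSH hPs hSs he hen hu₁ hun ?_
    intro R hR
    set U := (H ⊔ Submodule.span ℝ {u₁})ᗮ with hU
    have hUH : U ≤ Hᗮ := Submodule.orthogonal_le le_sup_left
    have h1 := cone_step hn hD hA he hUH hR
    set N : Set (E n) := {v | inner ℝ e v + R * ‖U.starProjection v‖ < 0} with hN
    have hNm : MeasurableSet N := (isOpen_lt (by fun_prop) continuous_const).measurableSet
    have hUref : ∀ v, U.starProjection (H.reflection v) = -U.starProjection v := by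
      intro v
      rw [Submodule.reflection_apply, map_sub, two_smul, map_add]
      have h2 : U.starProjection (H.starProjection v) = 0 := by
        rw [Submodule.starProjection_apply_eq_zero_iff]
        exact Submodule.le_orthogonal_orthogonal _
          (Submodule.mem_sup_left (Submodule.starProjection_apply_mem H v))
      rw [h2]
      simp
    have hNref : ∀ v, H.reflection v ∈ N ↔ v ∈ N := by
      intro v
      simp only [hN, mem_ofPred_eq]
      rw [refl_inner, refl_mem he, hUref, norm_neg]
    have hzero : ∫ v, N.indicator (fun v => inner ℝ y v * Real.exp (-‖v‖ ^ 2)) v = 0 := by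
      have h2 := (H.reflection.measurePreserving).integral_comp
        H.reflection.toHomeomorph.measurableEmbedding
        (N.indicator (fun v => inner ℝ y v * Real.exp (-‖v‖ ^ 2)))
      have h3 : ∀ v, N.indicator (fun v => inner ℝ y v * Real.exp (-‖v‖ ^ 2)) (H.reflection v) =
          -N.indicator (fun v => inner ℝ y v * Real.exp (-‖v‖ ^ 2)) v := by
        intro v
        by_cases hv : v ∈ N
        · rw [indicator_of_mem hv, indicator_of_mem ((hNref v).2 hv), refl_inner, refl_perp hy,
            LinearIsometryEquiv.norm_map, inner_neg_left]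
          ring
        · rw [indicator_of_notMem hv, indicator_of_notMem (fun h => hv ((hNref v).1 h)), neg_zero]
      simp only [h3] at h2
      rw [integral_neg] at h2
      linarith
    have hi1 : Integrable (N.indicator (fun v => (supp (D A) v - supp A v) *
        Real.exp (-‖v‖ ^ 2))) := by
      refine Integrable.indicator ?_ hNm
      refine ((Pool.Agent.S13718.supp_integrable hP.1 hP.2.2).sub
        (Pool.Agent.S13718.supp_integrable hA.1 hA.2.2)).congr (Eventually.of_forall fun v => ?_)
      simp only [Pi.sub_apply]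
      ring
    have hi2 : Integrable (N.indicator (fun v => inner ℝ y v * Real.exp (-‖v‖ ^ 2))) :=
      (inner_integrable y).indicator hNm
    have h2 : ∫ v, N.indicator (fun v => (supp (D A) v - supp S v) * Real.exp (-‖v‖ ^ 2)) v =
        (∫ v, N.indicator (fun v => (supp (D A) v - supp A v) * Real.exp (-‖v‖ ^ 2)) v) +
          ∫ v, N.indicator (fun v => inner ℝ y v * Real.exp (-‖v‖ ^ 2)) v := by
      rw [← integral_add hi1 hi2]
      congr 1
      ext v
      by_cases hv : v ∈ N
      · rw [indicator_of_mem hv, indicator_of_mem hv, indicator_of_mem hv, hAdef]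
        have : supp (tr y S) v = supp S v + inner ℝ y v := supp_translate hS.1 hS.2.2 y v
        rw [this]
        ring
      · rw [indicator_of_notMem hv, indicator_of_notMem hv, indicator_of_notMem hv, add_zero]
    rw [h2, hzero, add_zero]
    exact h1
  -- P ⊆ S
  have hsub : D A ⊆ S := by
    intro p hp
    apply mem_of_supp hS.1 hS.2.1 hS.2.2
    intro u
    have hperp : ∀ x ∈ Hᗮ, inner ℝ x u = inner ℝ x (Hᗮ.starProjection u) := by
      intro x hx
      rw [← Submodule.inner_starProjection_left_eq_right,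
        Submodule.starProjection_eq_self_iff.2 hx]
    set w := Hᗮ.starProjection u with hw
    have hwH : w ∈ Hᗮ := Submodule.starProjection_apply_mem _ u
    have h1 : supp S u = supp S w := by
      unfold Pool.Agent.S13718.supp
      congr 1
      exact image_congr fun x hx => hperp x (hSH x hx)
    rw [h1, hperp p (hPH p hp)]
    rcases eq_or_ne w 0 with h0 | h0
    · rw [h0, inner_zero_right]
      have := supp_smul S (le_refl (0:ℝ)) (0 : E n)
      rw [zero_smul, zero_mul] at this
      rw [this]
    · have hnw : 0 < ‖w‖ := norm_pos_iff.2 h0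
      have h2 := hkey (‖w‖⁻¹ • w) (Submodule.smul_mem _ _ hwH)
        (by rw [norm_smul, norm_inv, norm_norm, inv_mul_cancel₀ hnw.ne'])
      rw [supp_smul _ (inv_nonneg.2 hnw.le), supp_smul _ (inv_nonneg.2 hnw.le)] at h2
      have h3 := le_of_mul_le_mul_left h2 (inv_pos.2 hnw)
      exact (Pool.Agent.S13718.le_supp hP.1 hp w).trans h3
  exact eq_of_subset hP.1 hP.2.1 hP.2.2 hS.1 hsub hVP.ge

/-- the conjugate of a symmetrization by a translation along `H` -/
lemma conj_sym {H : Submodule ℝ (E n)} {D : Set (E n) → Set (E n)}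
    (hn : 1 ≤ n) (hD : MonotonicWidthPreserving (compactConvex n) H D) {x : E n} (hx : x ∈ H) :
    MonotonicWidthPreserving (compactConvex n) H (fun K => tr (-x) (D (tr x K))) := by
  constructor
  · intro K hK
    exact tr_mem (hD.maps _ (tr_mem hK x)) _
  · intro K hK
    exact tr_symm (hD.symm _ (tr_mem hK x)) (Submodule.neg_mem _ hx)
  · intro K hK L hL h
    exact image_mono (hD.monotonic _ (tr_mem hK x) _ (tr_mem hL x) (image_mono h))
  · intro K hK
    rw [meanWidth_iff hn, V_tr (hD.maps _ (tr_mem hK x)),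
      (meanWidth_iff hn _ _).1 (hD.preserves _ (tr_mem hK x)), V_tr hK]
  · intro K hK hs
    rw [hD.fixes _ (tr_mem hK x) (tr_symm hs hx), tr_tr, add_neg_cancel, tr_zero]

/-- the theorem for the class of compact convex sets -/
lemma step2 {H : Submodule ℝ (E n)} {D : Set (E n) → Set (E n)}
    (hn : 1 ≤ n) (hD : MonotonicWidthPreserving (compactConvex n) H D) {e : E n} (he : e ∈ H)
    (hen : ‖e‖ = 1) {K : Set (E n)} (hK : K ∈ compactConvex n) (hKs : HSymm H K)
    {y : E n} (hy : y ∈ Hᗮ) : D (tr y K) = K := by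
  have hKy := tr_mem hK y
  have hDK := hD.maps _ hKy
  have hsub : K ⊆ D (tr y K) := by
    intro z hz
    set x := H.starProjection z with hx
    have hxH : x ∈ H := Submodule.starProjection_apply_mem H z
    set S : Set (E n) := (Hᗮ : Set (E n)) ∩ tr (-x) K with hS
    have hKx := tr_mem hK (-x)
    have hzS : z - x ∈ S := by
      refine ⟨Submodule.sub_starProjection_mem_orthogonal z, z, hz, ?_⟩
      simp only
      abel
    have hSm : S ∈ compactConvex n :=
      ⟨hKx.1.inter_left Hᗮ.closed_of_finiteDimensional, (Submodule.convex Hᗮ).inter hKx.2.1,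
        ⟨_, hzS⟩⟩
    have hSs : ∀ s ∈ S, -s ∈ S := by
      rintro s ⟨hs, hs2⟩
      refine ⟨Submodule.neg_mem _ hs, ?_⟩
      have h1 := hsymm_iff.1 (tr_symm hKs (Submodule.neg_mem _ hxH)) s hs2
      rwa [refl_perp hs] at h1
    have h1 := step1 hn (conj_sym hn hD hxH) he hen hSm (fun s hs => hs.1) hSs hy
    have h2 : z - x ∈ tr (-x) (D (tr x (tr y S))) := by
      rw [h1]
      exact hzS
    obtain ⟨w, hw, hwz⟩ := h2
    have h3 : w = z := by
      simp only at hwz
      have : w + -x = z + -x := by rw [hwz, sub_eq_add_neg]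
      exact add_right_cancel this
    rw [h3] at hw
    refine hD.monotonic _ (tr_mem (tr_mem hSm y) x) _ hKy ?_ hw
    rintro _ ⟨_, ⟨s, hs, rfl⟩, rfl⟩
    obtain ⟨k, hk, hks⟩ := hs.2
    refine ⟨k, hk, ?_⟩
    simp only at hks ⊢
    rw [← hks]
    abel
  have hV : V (D (tr y K)) = V K := by
    rw [(meanWidth_iff hn _ _).1 (hD.preserves _ hKy), V_tr hK]
  exact (eq_of_subset hK.1 hK.2.1 hK.2.2 hDK.1 hsub hV.le).symm

end Q189.MW
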