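import Pool.Agent.Q189.MW5

set_option autoImplicit false

open MeasureTheory Set Metric Filter Topology Module
open scoped Pointwise

namespace Q189.MW

variable {n : ℕ}

open Pool.Agent.S13718 (V supp)

/-- the parallel body -/
def thick (r : ℝ) (A : Set (E n)) : Set (E n) :=
  (fun p : E n × E n => p.1 + r • p.2) '' (A ×ˢ closedBall 0 1)

lemma thick_compact (r : ℝ) {A : Set (E n)} (hA : IsCompact A) : IsCompact (thick r A) :=
  (hA.prod (isCompact_closedBall _ _)).image (by fun_prop)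

lemma thick_convex (r : ℝ) {A : Set (E n)} (hA : Convex ℝ A) : Convex ℝ (thick r A) := by
  rintro _ ⟨⟨a, z⟩, ⟨ha, hz⟩, rfl⟩ _ ⟨⟨b, w⟩, ⟨hb, hw⟩, rfl⟩ s t hs ht hst
  refine ⟨(s • a + t • b, s • z + t • w), ⟨hA ha hb hs ht hst,
    (convex_closedBall (0 : E n) 1) hz hw hs ht hst⟩, ?_⟩
  simp only
  module

lemma thick_body {r : ℝ} (hr : 0 < r) {A : Set (E n)} (hA : A ∈ compactConvex n) :
    thick r A ∈ convexBodies n := by
  refine ⟨thick_compact r hA.1, thick_convex r hA.2.1, ?_⟩
  obtain ⟨a, ha⟩ := hA.2.2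
  refine ⟨a, mem_interior.2 ⟨ball a r, ?_, isOpen_ball, mem_ball_self hr⟩⟩
  intro x hx
  refine ⟨(a, r⁻¹ • (x - a)), ⟨ha, ?_⟩, ?_⟩
  · rw [mem_closedBall_zero_iff, norm_smul, norm_inv, Real.norm_eq_abs, abs_of_pos hr]
    rw [mem_ball, dist_eq_norm] at hx
    rw [inv_mul_le_iff₀ hr]
    linarith
  · simp only
    rw [smul_smul, mul_inv_cancel₀ hr.ne', one_smul]
    abel

lemma thick_mono {r s : ℝ} (hr : 0 ≤ r) (hrs : r ≤ s) {A B : Set (E n)} (h : A ⊆ B) :
    thick r A ⊆ thick s B := by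
  rintro _ ⟨⟨a, z⟩, ⟨ha, hz⟩, rfl⟩
  rcases eq_or_lt_of_le (hr.trans hrs) with h0 | h0
  · have hr0 : r = 0 := by linarith
    refine ⟨(a, z), ⟨h ha, hz⟩, ?_⟩
    simp only [← h0, hr0]
  · refine ⟨(a, (r / s) • z), ⟨h ha, ?_⟩, ?_⟩
    · rw [mem_closedBall_zero_iff] at hz ⊢
      rw [norm_smul, Real.norm_eq_abs, abs_of_nonneg (by positivity)]
      calc r / s * ‖z‖ ≤ 1 * 1 := by
            apply mul_le_mul _ hz (norm_nonneg _) zero_le_one
            rw [div_le_one h0]
            exact hrs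
        _ = 1 := one_mul 1
    · simp only
      rw [smul_smul, mul_div_cancel₀ _ h0.ne']

lemma subset_thick (r : ℝ) (A : Set (E n)) : A ⊆ thick r A := fun a ha =>
  ⟨(a, 0), ⟨ha, by simp⟩, by simp⟩

lemma thick_supp {r : ℝ} (hr : 0 ≤ r) {A : Set (E n)} (hA : IsCompact A) (hne : A.Nonempty)
    (u : E n) : supp (thick r A) u = supp A u + r * ‖u‖ := by
  apply le_antisymm
  · apply Pool.Agent.S13718.supp_le (hne.mono (subset_thick r A))
    rintro _ ⟨⟨a, z⟩, ⟨ha, hz⟩, rfl⟩
    rw [mem_closedBall_zero_iff] at hz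
    simp only [inner_add_left, real_inner_smul_left]
    have h1 := Pool.Agent.S13718.le_supp hA ha u
    have h2 : inner ℝ z u ≤ ‖u‖ := by
      calc inner ℝ z u ≤ ‖z‖ * ‖u‖ := real_inner_le_norm _ _
        _ ≤ 1 * ‖u‖ := by
            have := hz
            simp only at this
            gcongr
        _ = _ := one_mul _
    have h3 := mul_le_mul_of_nonneg_left h2 hr
    linarith
  · obtain ⟨a, ha, hau⟩ := Pool.Agent.S13718.supp_attained hA hne u
    have h1 := Pool.Agent.S13718.le_supp (thick_compact r hA) (y := a + r • (‖u‖⁻¹ • u))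
      ⟨(a, ‖u‖⁻¹ • u), ⟨ha, by
        rw [mem_closedBall_zero_iff, norm_smul, norm_inv, norm_norm]
        rcases eq_or_ne ‖u‖ 0 with h | h
        · rw [h]; simp
        · rw [inv_mul_cancel₀ h]⟩, rfl⟩ u
    rw [inner_add_left, real_inner_smul_left, real_inner_smul_left, real_inner_self_eq_norm_sq,
      hau] at h1
    have h2 : ‖u‖⁻¹ * ‖u‖ ^ 2 = ‖u‖ := by
      rcases eq_or_ne ‖u‖ 0 with h | h
      · rw [h]; simp
      · field_simp
    rwa [h2] at h1

lemma thick_symm {H : Submodule ℝ (E n)} {A : Set (E n)} (hA : HSymm H A) (r : ℝ) :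
    HSymm H (thick r A) := by
  rw [hsymm_iff] at hA ⊢
  rintro _ ⟨⟨a, z⟩, ⟨ha, hz⟩, rfl⟩
  refine ⟨(H.reflection a, H.reflection z), ⟨hA a ha, ?_⟩, ?_⟩
  · rw [mem_closedBall_zero_iff] at hz ⊢
    rwa [LinearIsometryEquiv.norm_map]
  · simp only [map_add, map_smul]

/-- the radii -/
noncomputable def rr (k : ℕ) : ℝ := 1 / ((k : ℝ) + 1)

lemma rr_pos (k : ℕ) : 0 < rr k := by unfold rr; positivity

lemma rr_anti {k l : ℕ} (h : k ≤ l) : rr l ≤ rr k := by
  unfold rr
  have : (k : ℝ) ≤ l := by exact_mod_cast h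
  gcongr

lemma rr_tendsto : Tendsto rr atTop (𝓝 0) := tendsto_one_div_add_atTop_nhds_zero_nat

lemma compact_iInter {C : ℕ → Set (E n)} (hC : ∀ k, IsCompact (C k)) : IsCompact (⋂ k, C k) :=
  (hC 0).of_isClosed_subset (isClosed_iInter fun k => (hC k).isClosed) (iInter_subset C 0)

/-- decreasing sequences of compact sets -/
lemma supp_iInter {C : ℕ → Set (E n)} (hC : ∀ k, IsCompact (C k)) (hne : ∀ k, (C k).Nonempty)
    (hanti : ∀ k l, k ≤ l → C l ⊆ C k) (u : E n) :
    Tendsto (fun k => supp (C k) u) atTop (𝓝 (supp (⋂ k, C k) u)) := by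
  have hcomp : IsCompact (⋂ k, C k) := compact_iInter hC
  have hInt : (⋂ k, C k).Nonempty :=
    IsCompact.nonempty_iInter_of_sequence_nonempty_isCompact_isClosed C
      (fun k => hanti k (k+1) (Nat.le_succ k)) hne (hC 0) fun k => (hC k).isClosed
  rw [Metric.tendsto_atTop]
  intro ε hε
  have h1 : ∃ k, supp (C k) u < supp (⋂ k, C k) u + ε := by
    by_contra hcon
    push Not at hcon
    have h2 : (⋂ k, (C k ∩ {x | supp (⋂ k, C k) u + ε ≤ inner ℝ x u})).Nonempty := by
      have hcl : IsClosed {x : E n | supp (⋂ k, C k) u + ε ≤ inner ℝ x u} :=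
        isClosed_le continuous_const (by fun_prop)
      apply IsCompact.nonempty_iInter_of_sequence_nonempty_isCompact_isClosed
      · intro k
        exact inter_subset_inter_left _ (hanti k (k+1) (Nat.le_succ k))
      · intro k
        obtain ⟨y, hy, hyu⟩ := Pool.Agent.S13718.supp_attained (hC k) (hne k) u
        exact ⟨y, hy, by rw [mem_ofPred_eq, hyu]; exact hcon k⟩
      · exact (hC 0).inter_right hcl
      · intro k
        exact (hC k).isClosed.inter hcl
    obtain ⟨x, hx⟩ := h2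
    rw [mem_iInter] at hx
    have h3 : x ∈ ⋂ k, C k := mem_iInter.2 fun k => (hx k).1
    have h4 := Pool.Agent.S13718.le_supp hcomp h3 u
    have h5 : supp (⋂ k, C k) u + ε ≤ inner ℝ x u := (hx 0).2
    linarith
  obtain ⟨k, hk⟩ := h1
  refine ⟨k, fun l hl => ?_⟩
  have h2 : supp (C l) u ≤ supp (C k) u := supp_mono (hC k) (hne l) (hanti k l hl) u
  have h3 : supp (⋂ k, C k) u ≤ supp (C l) u := supp_mono (hC l) hInt (iInter_subset C l) u
  rw [Real.dist_eq, abs_lt]
  constructor <;> linarith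

lemma V_iInter {C : ℕ → Set (E n)} (hC : ∀ k, IsCompact (C k)) (hne : ∀ k, (C k).Nonempty)
    (hanti : ∀ k l, k ≤ l → C l ⊆ C k) :
    Tendsto (fun k => V (C k)) atTop (𝓝 (V (⋂ k, C k))) := by
  obtain ⟨r, hr⟩ := (hC 0).isBounded.exists_norm_le
  have hb : Integrable (fun v : E n => |r| * (‖v‖ * Real.exp (-‖v‖ ^ 2))) :=
    Pool.Agent.S13718.gauss_integrable.const_mul |r|
  unfold Pool.Agent.S13718.V
  apply tendsto_integral_of_dominated_convergence _ _ hb
  · intro k
    refine Eventually.of_forall fun v => ?_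
    rw [Real.norm_eq_abs, abs_mul, abs_of_pos (Real.exp_pos _), ← mul_assoc]
    apply mul_le_mul_of_nonneg_right _ (Real.exp_pos _).le
    obtain ⟨y, hy, hyv⟩ := Pool.Agent.S13718.supp_attained (hC k) (hne k) v
    rw [← hyv]
    calc |inner ℝ y v| ≤ ‖y‖ * ‖v‖ := abs_real_inner_le_norm _ _
      _ ≤ |r| * ‖v‖ := by
          apply mul_le_mul_of_nonneg_right _ (norm_nonneg _)
          exact (hr y (hanti 0 k (Nat.zero_le k) hy)).trans (le_abs_self r)
  · refine Eventually.of_forall fun v => ?_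
    exact (supp_iInter hC hne hanti v).mul_const _
  · intro k
    have := Pool.Agent.S13718.supp_continuous (hC k)
    apply Continuous.aestronglyMeasurable
    fun_prop

/-- the extension of a symmetrization of convex bodies -/
def ext (D : Set (E n) → Set (E n)) (A : Set (E n)) : Set (E n) := ⋂ k : ℕ, D (thick (rr k) A)

lemma body_mem {K : Set (E n)} (hK : K ∈ convexBodies n) : K ∈ compactConvex n :=
  ⟨hK.1, hK.2.1, hK.2.2.mono interior_subset⟩

lemma ext_sym {H : Submodule ℝ (E n)} {D : Set (E n) → Set (E n)}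
    (hn : 1 ≤ n) (hD : MonotonicWidthPreserving (convexBodies n) H D) :
    MonotonicWidthPreserving (compactConvex n) H (ext D) := by
  have hth : ∀ {A : Set (E n)}, A ∈ compactConvex n → ∀ k, thick (rr k) A ∈ convexBodies n :=
    fun hA k => thick_body (rr_pos k) hA
  have hanti : ∀ {A : Set (E n)}, A ∈ compactConvex n → ∀ k l, k ≤ l →
      D (thick (rr l) A) ⊆ D (thick (rr k) A) := by
    intro A hA k l hkl
    exact hD.monotonic _ (hth hA l) _ (hth hA k)
      (thick_mono (rr_pos l).le (rr_anti hkl) subset_rfl)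
  have hcc : ∀ {A : Set (E n)}, A ∈ compactConvex n → ∀ k,
      D (thick (rr k) A) ∈ compactConvex n := fun hA k => body_mem (hD.maps _ (hth hA k))
  have hlimV : ∀ {A : Set (E n)}, A ∈ compactConvex n →
      Tendsto (fun k => V (thick (rr k) A)) atTop (𝓝 (V A)) := by
    intro A hA
    have h1 : ∀ k, V (thick (rr k) A) = V A + rr k * ∫ v : E n, ‖v‖ * Real.exp (-‖v‖ ^ 2) := by
      intro k
      rw [← integral_const_mul]
      unfold Pool.Agent.S13718.V
      rw [← integral_add (Pool.Agent.S13718.supp_integrable hA.1 hA.2.2)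
        (Pool.Agent.S13718.gauss_integrable.const_mul _)]
      congr 1
      ext v
      rw [thick_supp (rr_pos k).le hA.1 hA.2.2]
      ring
    simp only [h1]
    have h2 : Tendsto (fun k => V A + rr k * ∫ v : E n, ‖v‖ * Real.exp (-‖v‖ ^ 2)) atTop
        (𝓝 (V A + 0 * ∫ v : E n, ‖v‖ * Real.exp (-‖v‖ ^ 2))) :=
      tendsto_const_nhds.add (rr_tendsto.mul_const _)
    rwa [zero_mul, add_zero] at h2
  constructor
  · intro A hA
    refine ⟨compact_iInter fun k => (hcc hA k).1, convex_iInter fun k => (hcc hA k).2.1, ?_⟩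
    exact IsCompact.nonempty_iInter_of_sequence_nonempty_isCompact_isClosed _
      (fun k => hanti hA k (k+1) (Nat.le_succ k)) (fun k => (hcc hA k).2.2) (hcc hA 0).1
      fun k => (hcc hA k).1.isClosed
  · intro A hA
    rw [hsymm_iff]
    intro x hx
    rw [ext, mem_iInter] at hx ⊢
    exact fun k => hsymm_iff.1 (hD.symm _ (hth hA k)) x (hx k)
  · intro A hA B hB h
    exact iInter_mono fun k => hD.monotonic _ (hth hA k) _ (hth hB k)
      (thick_mono (rr_pos k).le le_rfl h)
  · intro A hA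
    rw [meanWidth_iff hn]
    have h1 := V_iInter (fun k => (hcc hA k).1) (fun k => (hcc hA k).2.2) (hanti hA)
    have h2 : ∀ k, V (D (thick (rr k) A)) = V (thick (rr k) A) := fun k =>
      (meanWidth_iff hn _ _).1 (hD.preserves _ (hth hA k))
    simp only [h2] at h1
    exact tendsto_nhds_unique h1 (hlimV hA)
  · intro A hA hs
    have h1 : ∀ k, D (thick (rr k) A) = thick (rr k) A := fun k =>
      hD.fixes _ (hth hA k) (thick_symm hs _)
    apply Subset.antisymm
    · intro x hx
      rw [ext, mem_iInter] at hx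
      simp only [h1] at hx
      apply mem_of_supp hA.1 hA.2.1 hA.2.2
      intro u
      have h2 : ∀ k, inner ℝ x u ≤ supp A u + rr k * ‖u‖ := by
        intro k
        rw [← thick_supp (rr_pos k).le hA.1 hA.2.2]
        exact Pool.Agent.S13718.le_supp (thick_compact _ hA.1) (hx k) u
      have h3 : Tendsto (fun k => supp A u + rr k * ‖u‖) atTop (𝓝 (supp A u + 0 * ‖u‖)) :=
        tendsto_const_nhds.add (rr_tendsto.mul_const _)
      rw [zero_mul, add_zero] at h3
      exact ge_of_tendsto' h3 h2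
    · intro x hx
      rw [ext, mem_iInter]
      intro k
      rw [h1]
      exact subset_thick _ _ hx

/-- the theorem for the class of convex bodies -/
lemma step3 {H : Submodule ℝ (E n)} {D : Set (E n) → Set (E n)}
    (hn : 1 ≤ n) (hD : MonotonicWidthPreserving (convexBodies n) H D) {e : E n} (he : e ∈ H)
    (hen : ‖e‖ = 1) {K : Set (E n)} (hK : K ∈ convexBodies n) (hKs : HSymm H K)
    {y : E n} (hy : y ∈ Hᗮ) : D (tr y K) = K := by
  have hKc := body_mem hK
  have hKy : tr y K ∈ convexBodies n := by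
    refine ⟨(tr_mem hKc y).1, (tr_mem hKc y).2.1, ?_⟩
    have hop : IsOpenMap (fun z : E n => z + y) := (Homeomorph.addRight y).isOpenMap
    have h1 := hop _ (isOpen_interior (s := K))
    exact (hK.2.2.image _).mono (interior_maximal (image_mono interior_subset) h1)
  have h1 := step2 hn (ext_sym hn hD) he hen hKc hKs hy
  have hsub : D (tr y K) ⊆ K := by
    intro x hx
    rw [← h1, ext, mem_iInter]
    intro k
    exact hD.monotonic _ hKy _ (thick_body (rr_pos k) (body_mem hKy)) (subset_thick _ _) hx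
  have hDK := body_mem (hD.maps _ hKy)
  have hV : V (D (tr y K)) = V K := by
    rw [(meanWidth_iff hn _ _).1 (hD.preserves _ hKy), V_tr hKc]
  exact eq_of_subset hDK.1 hDK.2.1 hDK.2.2 hK.1 hsub hV.ge

/-- for `dim H ≥ 1` the translation invariance is automatic -/
theorem invariant {n : ℕ} {H : Submodule ℝ (E n)} (hH : H ≠ ⊥) {𝓑 : Set (Set (E n))}
    (h𝓑 : 𝓑 = compactConvex n ∨ 𝓑 = convexBodies n) {D : Set (E n) → Set (E n)}
    (hD : MonotonicWidthPreserving 𝓑 H D) : OrthogonalTranslationInvariant 𝓑 H D := by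
  obtain ⟨e', he', he0⟩ := (Submodule.ne_bot_iff H).1 hH
  have hn : 1 ≤ n := by
    rcases Nat.eq_zero_or_pos n with rfl | h
    · exact absurd (by ext i; exact i.elim0) he0
    · exact h
  set e := ‖e'‖⁻¹ • e' with hedef
  have he : e ∈ H := Submodule.smul_mem _ _ he'
  have hen : ‖e‖ = 1 := by
    rw [hedef, norm_smul, norm_inv, norm_norm, inv_mul_cancel₀ (norm_pos_iff.2 he0).ne']
  intro K hK hKs y hy
  rw [hD.fixes K hK hKs]
  rcases h𝓑 with rfl | rfl
  · exact step2 hn hD he hen hK hKs hy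
  · exact step3 hn hD he hen hK hKs hy

/-- for `H = 0` there is a counterexample -/
theorem exotic {n : ℕ} (hn : 2 ≤ n) {𝓑 : Set (Set (E n))}
    (h𝓑 : 𝓑 = compactConvex n ∨ 𝓑 = convexBodies n) : ∃ D : Set (E n) → Set (E n),
    MonotonicWidthPreserving 𝓑 ⊥ D ∧ ¬ OrthogonalTranslationInvariant 𝓑 ⊥ D := by
  have hsy : ∀ K : Set (E n), HSymm ⊥ K ↔ ∀ x ∈ K, -x ∈ K := by
    intro K
    rw [hsymm_iff]
    have : ∀ x : E n, (⊥ : Submodule ℝ (E n)).reflection x = -x := by
      intro x
      apply refl_perp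
      simp
    simp only [this]
  rcases h𝓑 with rfl | rfl
  · obtain ⟨D, h1, h2, h3, h4, x, h5⟩ := Pool.Agent.S13718.general n hn false
    simp only [Bool.false_eq_true, false_imp_iff, and_true] at h1 h2 h3 h4
    refine ⟨D, ⟨fun K hK => (h1 K hK).1, fun K hK => (hsy _).2 (h1 K hK).2, fun K hK L hL =>
      h2 K L hK hL, fun K hK => ?_, fun K hK hs => h4 K hK ((hsy _).1 hs)⟩, fun h => ?_⟩
    · exact (meanWidth_iff (by omega) _ _).2 (h3 K hK)
    · have hB : closedBall (0 : E n) 1 ∈ compactConvex n :=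
        ⟨isCompact_closedBall 0 1, convex_closedBall 0 1, ⟨0, by simp⟩⟩
      have hBs : ∀ x ∈ closedBall (0 : E n) 1, -x ∈ closedBall (0 : E n) 1 := by
        intro x hx
        simpa using hx
      have h6 := h _ hB ((hsy _).2 hBs) x (by simp)
      rw [h4 _ hB hBs] at h6
      exact h5 h6
  · obtain ⟨D, h1, h2, h3, h4, x, h5⟩ := Pool.Agent.S13718.general n hn true
    have key : ∀ K : Set (E n), K ∈ convexBodies n ↔ (IsCompact K ∧ Convex ℝ K ∧ K.Nonempty ∧
        (true = true → (interior K).Nonempty)) := by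
      intro K
      constructor
      · rintro ⟨h, h', h''⟩
        exact ⟨h, h', h''.mono interior_subset, fun _ => h''⟩
      · rintro ⟨h, h', _, h''⟩
        exact ⟨h, h', h'' rfl⟩
    refine ⟨D, ⟨fun K hK => (key _).2 (h1 K ((key K).1 hK)).1,
      fun K hK => (hsy _).2 (h1 K ((key K).1 hK)).2, fun K hK L hL =>
      h2 K L ((key K).1 hK) ((key L).1 hL), fun K hK => ?_,
      fun K hK hs => h4 K ((key K).1 hK) ((hsy _).1 hs)⟩, fun h => ?_⟩
    · exact (meanWidth_iff (by omega) _ _).2 (h3 K ((key K).1 hK))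
    · have hB : closedBall (0 : E n) 1 ∈ convexBodies n :=
        ⟨isCompact_closedBall 0 1, convex_closedBall 0 1, by
          have : Nonempty (Fin n) := ⟨⟨0, by omega⟩⟩
          rw [interior_closedBall _ one_ne_zero]
          exact ⟨0, by simp⟩⟩
      have hBs : ∀ x ∈ closedBall (0 : E n) 1, -x ∈ closedBall (0 : E n) 1 := by
        intro x hx
        simpa using hx
      have h6 := h _ hB ((hsy _).2 hBs) x (by simp)
      rw [h4 _ ((key _).1 hB) hBs] at h6
      exact h5 h6

end Q189.MW
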