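import Pool.Agent.Q189.MedialDefs

/-!
# Reconstruction of points of the convex hull from the medial axis
-/

set_option autoImplicit false

open Set Metric Filter Topology

namespace Q189.Medial

variable {n : ℕ}

/-- a half-space argument -/
lemma exists_inner_nonneg {t : Set (E n)} {q : E n} (hq : q ∈ convexHull ℝ t) (v : E n) :
    ∃ x ∈ t, 0 ≤ inner ℝ v (x - q) := by
  by_contra hcon
  push Not at hcon
  have hconv : Convex ℝ {y : E n | inner ℝ v (y - q) < 0} := by
    intro y hy z hz a b ha hb hab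
    simp only [mem_ofPred_eq] at hy hz ⊢
    have e : a • y + b • z - q = a • (y - q) + b • (z - q) := by
      obtain rfl : b = 1 - a := by linarith
      module
    rw [e, inner_add_right, inner_smul_right, inner_smul_right]
    rcases ha.eq_or_lt with h0 | h0
    · subst h0
      have : b = 1 := by linarith
      subst this
      linarith
    · have h1 := mul_pos_of_neg_of_neg hy (neg_neg_of_pos h0)
      have h2 : b * inner ℝ v (z - q) ≤ 0 := mul_nonpos_of_nonneg_of_nonpos hb hz.le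
      linarith
  have h1 : convexHull ℝ t ⊆ {y : E n | inner ℝ v (y - q) < 0} :=
    convexHull_min (fun y hy => hcon y hy) hconv
  have h2 := h1 hq
  simp only [mem_ofPred_eq, sub_self, inner_zero_right, lt_self_iff_false] at h2

/-- the same for the closure of the convex hull of a compact set -/
lemma exists_inner_nonneg' {t : Set (E n)} (ht : IsCompact t) (hne : t.Nonempty) {q : E n}
    (hq : q ∈ closure (convexHull ℝ t)) (v : E n) :
    ∃ x ∈ t, 0 ≤ inner ℝ v (x - q) := by
  have hc : Continuous fun x : E n => inner ℝ v x := continuous_const.inner continuous_id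
  obtain ⟨x, hx, hmax⟩ := ht.exists_isMaxOn hne hc.continuousOn
  refine ⟨x, hx, ?_⟩
  have hconv : Convex ℝ {y : E n | inner ℝ v y ≤ inner ℝ v x} := by
    intro y hy z hz a b ha hb hab
    simp only [mem_ofPred_eq] at hy hz ⊢
    rw [inner_add_right, inner_smul_right, inner_smul_right]
    have h1 := mul_le_mul_of_nonneg_left hy ha
    have h2 := mul_le_mul_of_nonneg_left hz hb
    have h3 : a * inner ℝ v x + b * inner ℝ v x = inner ℝ v x := by rw [← add_mul, hab, one_mul]
    linarith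
  have hcl : IsClosed {y : E n | inner ℝ v y ≤ inner ℝ v x} := isClosed_le hc continuous_const
  have h1 : closure (convexHull ℝ t) ⊆ {y : E n | inner ℝ v y ≤ inner ℝ v x} :=
    closure_minimal (convexHull_min (fun y hy => hmax hy) hconv) hcl
  have h2 := h1 hq
  simp only [mem_ofPred_eq] at h2
  rw [inner_sub_right]
  linarith

lemma nearest_compact {X : Set (E n)} (hX : IsClosed X) (a : E n) : IsCompact (nearest X a) := by
  have h1 : nearest X a = X ∩ sphere a (infDist a X) := by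
    ext x
    simp only [nearest, mem_ofPred_eq, mem_inter_iff, mem_sphere, dist_comm]
  rw [h1]
  exact (isCompact_sphere a _).inter_left hX

lemma nearest_nonempty {X : Set (E n)} (hX : IsClosed X) (hne : X.Nonempty) (a : E n) :
    (nearest X a).Nonempty := by
  obtain ⟨x, hx, h⟩ := hX.exists_infDist_eq_dist hne a
  exact ⟨x, hx, h.symm⟩

/-- the optimality condition -/
lemma optimality {X : Set (E n)} (hX : IsClosed X) (hne : X.Nonempty) {p a : E n} {ε : ℝ}
    (hmax : ∀ b : E n, infDist b X ^ 2 - (1 + ε) * ‖b - p‖ ^ 2 ≤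
      infDist a X ^ 2 - (1 + ε) * ‖a - p‖ ^ 2) :
    p - ε • (a - p) ∈ closure (convexHull ℝ (nearest X a)) := by
  by_contra hq
  set q := p - ε • (a - p) with hqdef
  obtain ⟨f, s, hs1, hs2⟩ := geometric_hahn_banach_point_closed (convex_convexHull ℝ _).closure
    isClosed_closure hq
  set u : E n := -(InnerProductSpace.toDual ℝ (E n)).symm f with hu
  have hfu : ∀ x : E n, inner ℝ u x = - f x := by
    intro x
    rw [hu, inner_neg_left, InnerProductSpace.toDual_symm_apply]
  -- the nearest points of the perturbed points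
  have hx : ∀ k : ℕ, ∃ x ∈ X, infDist (a + (1 / ((k : ℝ) + 1)) • u) X =
      dist (a + (1 / ((k : ℝ) + 1)) • u) x := fun k =>
    hX.exists_infDist_eq_dist hne _
  choose x hxX hxd using hx
  have ht : Tendsto (fun k : ℕ => 1 / ((k : ℝ) + 1)) atTop (𝓝 0) :=
    tendsto_one_div_add_atTop_nhds_zero_nat
  have ha : Tendsto (fun k : ℕ => a + (1 / ((k : ℝ) + 1)) • u) atTop (𝓝 a) := by
    have := (ht.smul_const u).const_add a
    simpa using this
  have hb : ∀ k, x k ∈ closedBall a (infDist a X + 2 * ‖u‖) := by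
    intro k
    have h0 : 0 < 1 / ((k : ℝ) + 1) := by positivity
    have h1 : 1 / ((k : ℝ) + 1) ≤ 1 := by
      rw [div_le_one (by positivity)]
      linarith [(Nat.cast_nonneg k : (0 : ℝ) ≤ k)]
    have h2 : dist a (a + (1 / ((k : ℝ) + 1)) • u) ≤ ‖u‖ := by
      rw [dist_eq_norm]
      have : a - (a + (1 / ((k : ℝ) + 1)) • u) = -((1 / ((k : ℝ) + 1)) • u) := by abel
      rw [this, norm_neg, norm_smul, Real.norm_eq_abs, abs_of_pos h0]
      nlinarith [norm_nonneg u]
    have h3 := infDist_le_infDist_add_dist (s := X) (x := a + (1 / ((k : ℝ) + 1)) • u) (y := a)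
    rw [mem_closedBall, dist_comm]
    calc dist a (x k) ≤ dist a (a + (1 / ((k : ℝ) + 1)) • u) +
        dist (a + (1 / ((k : ℝ) + 1)) • u) (x k) := dist_triangle _ _ _
      _ ≤ ‖u‖ + (infDist a X + ‖u‖) := by
        rw [← hxd k]
        have h4 := h2
        rw [dist_comm] at h4
        linarith
      _ = infDist a X + 2 * ‖u‖ := by ring
  obtain ⟨x0, -, φ, hφ, hlim⟩ := (isCompact_closedBall a (infDist a X + 2 * ‖u‖)).tendsto_subseq hb
  have hx0X : x0 ∈ X := hX.mem_of_tendsto hlim (Eventually.of_forall fun k => hxX (φ k))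
  have haφ : Tendsto (fun k : ℕ => a + (1 / ((φ k : ℝ) + 1)) • u) atTop (𝓝 a) :=
    ha.comp hφ.tendsto_atTop
  have hx0 : x0 ∈ nearest X a := by
    refine ⟨hx0X, ?_⟩
    have h1 : Tendsto (fun k => dist (a + (1 / ((φ k : ℝ) + 1)) • u) (x (φ k))) atTop
        (𝓝 (dist a x0)) := haφ.dist hlim
    have h2 : Tendsto (fun k => infDist (a + (1 / ((φ k : ℝ) + 1)) • u) X) atTop
        (𝓝 (infDist a X)) := ((continuous_infDist_pt X).tendsto a).comp haφ
    have h3 : (fun k => infDist (a + (1 / ((φ k : ℝ) + 1)) • u) X) =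
        fun k => dist (a + (1 / ((φ k : ℝ) + 1)) • u) (x (φ k)) := by
      funext k
      exact hxd (φ k)
    rw [h3] at h2
    exact tendsto_nhds_unique h1 h2
  have hpos : 0 < inner ℝ u (q - x0) := by
    have h1 := hs2 x0 (subset_closure (subset_convexHull ℝ _ hx0))
    rw [hfu, map_sub]
    linarith
  have hl1 : Tendsto (fun k => 2 * inner ℝ u (q - x (φ k)) -
      ε * (1 / ((φ k : ℝ) + 1)) * ‖u‖ ^ 2) atTop
      (𝓝 (2 * inner ℝ u (q - x0) - ε * 0 * ‖u‖ ^ 2)) := by
    refine Tendsto.sub ?_ ?_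
    · exact (Tendsto.inner tendsto_const_nhds (tendsto_const_nhds.sub hlim)).const_mul 2
    · exact (((ht.comp hφ.tendsto_atTop).const_mul ε).mul_const _)
  have hl2 : ∀ᶠ k in atTop, 0 < 2 * inner ℝ u (q - x (φ k)) -
      ε * (1 / ((φ k : ℝ) + 1)) * ‖u‖ ^ 2 := by
    refine hl1.eventually (lt_mem_nhds ?_)
    linarith
  obtain ⟨k, hk⟩ := hl2.exists
  set t : ℝ := 1 / ((φ k : ℝ) + 1) with htdef
  have ht0 : 0 < t := by positivity
  have h1 := hmax (a + t • u)
  rw [hxd (φ k), ← htdef, dist_eq_norm] at h1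
  have h2 : infDist a X ≤ ‖a - x (φ k)‖ := by
    rw [← dist_eq_norm]
    exact infDist_le_dist_of_mem (hxX (φ k))
  have h3 : infDist a X ^ 2 ≤ ‖a - x (φ k)‖ ^ 2 := by
    have := infDist_nonneg (s := X) (x := a)
    nlinarith
  have e1 : ‖a + t • u - x (φ k)‖ ^ 2 = ‖a - x (φ k)‖ ^ 2 + 2 * t * inner ℝ u (a - x (φ k)) +
      t ^ 2 * ‖u‖ ^ 2 := by
    have : a + t • u - x (φ k) = (a - x (φ k)) + t • u := by abel
    rw [this, norm_add_sq_real, inner_smul_right, norm_smul, mul_pow, Real.norm_eq_abs, sq_abs,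
      real_inner_comm]
    ring
  have e2 : ‖a + t • u - p‖ ^ 2 = ‖a - p‖ ^ 2 + 2 * t * inner ℝ u (a - p) +
      t ^ 2 * ‖u‖ ^ 2 := by
    have : a + t • u - p = (a - p) + t • u := by abel
    rw [this, norm_add_sq_real, inner_smul_right, norm_smul, mul_pow, Real.norm_eq_abs, sq_abs,
      real_inner_comm]
    ring
  rw [e1, e2] at h1
  have e3 : inner ℝ u (q - x (φ k)) = inner ℝ u (a - x (φ k)) - (1 + ε) * inner ℝ u (a - p) := by
    have : q - x (φ k) = (a - x (φ k)) - (1 + ε) • (a - p) := by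
      rw [hqdef]
      module
    rw [this, inner_sub_right, inner_smul_right]
  rw [e3] at hk
  have h4 := mul_pos ht0 hk
  nlinarith

theorem main {X : Set (E n)} (hX : IsClosed X) (hne : X.Nonempty) {lam : ℝ} (hlam : 0 ≤ lam)
    {p : E n} (hp : p ∈ convexHull ℝ X) (hd : lam < infDist p X) : Reconstructible X lam p := by
  -- a bound
  obtain ⟨C, hC0, hC⟩ : ∃ C : ℝ, 0 ≤ C ∧ ∀ a : E n, infDist a X ^ 2 ≤ ‖a - p‖ ^ 2 + C := by
    rw [convexHull_eq_union_convexHull_finite_subsets] at hp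
    simp only [mem_iUnion] at hp
    obtain ⟨t, htX, hpt⟩ := hp
    refine ⟨∑ x ∈ t, ‖x - p‖ ^ 2, Finset.sum_nonneg fun _ _ => by positivity, fun a => ?_⟩
    obtain ⟨x, hxt, hx⟩ := exists_inner_nonneg hpt (a - p)
    have h1 : infDist a X ≤ ‖a - x‖ := by
      rw [← dist_eq_norm]
      exact infDist_le_dist_of_mem (htX hxt)
    have h2 : infDist a X ^ 2 ≤ ‖a - x‖ ^ 2 := by
      have := infDist_nonneg (s := X) (x := a)
      nlinarith
    have h3 : ‖a - x‖ ^ 2 = ‖a - p‖ ^ 2 - 2 * inner ℝ (a - p) (x - p) + ‖x - p‖ ^ 2 := by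
      have : a - x = (a - p) - (x - p) := by abel
      rw [this, norm_sub_sq_real]
    have h4 : ‖x - p‖ ^ 2 ≤ ∑ x ∈ t, ‖x - p‖ ^ 2 :=
      Finset.single_le_sum (f := fun x => ‖x - p‖ ^ 2) (fun _ _ => by positivity) hxt
    linarith
  set d := infDist p X with hddef
  have hd0 : 0 < d := lt_of_le_of_lt hlam hd
  obtain ⟨ε, hε, hεC⟩ : ∃ ε : ℝ, 0 < ε ∧ ε * C < (d - lam) ^ 2 := by
    have h1 : 0 < (d - lam) ^ 2 := by
      have : 0 < d - lam := by linarith
      positivity
    refine ⟨(d - lam) ^ 2 / (C + 1) , by positivity, ?_⟩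
    rw [div_mul_eq_mul_div, div_lt_iff₀ (by positivity)]
    nlinarith
  -- the maximum
  have hcont : Continuous fun b : E n => infDist b X ^ 2 - (1 + ε) * ‖b - p‖ ^ 2 := by
    have := continuous_infDist_pt X
    fun_prop
  obtain ⟨a, ha, hmax'⟩ := (isCompact_closedBall p (√(C / ε))).exists_isMaxOn
    ⟨p, mem_closedBall_self (Real.sqrt_nonneg _)⟩ hcont.continuousOn
  have hpp : infDist p X ^ 2 - (1 + ε) * ‖p - p‖ ^ 2 = d ^ 2 := by
    rw [sub_self, norm_zero, ← hddef]
    ring
  have hpa : d ^ 2 ≤ infDist a X ^ 2 - (1 + ε) * ‖a - p‖ ^ 2 := by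
    rw [← hpp]
    exact hmax' (mem_closedBall_self (Real.sqrt_nonneg _))
  have hmax : ∀ b : E n, infDist b X ^ 2 - (1 + ε) * ‖b - p‖ ^ 2 ≤
      infDist a X ^ 2 - (1 + ε) * ‖a - p‖ ^ 2 := by
    intro b
    by_cases hb : b ∈ closedBall p (√(C / ε))
    · exact hmax' hb
    · rw [mem_closedBall, dist_eq_norm, not_le] at hb
      have h1 : C / ε < ‖b - p‖ ^ 2 := (Real.sqrt_lt' (lt_of_le_of_lt (Real.sqrt_nonneg _) hb)).1 hb
      rw [div_lt_iff₀ hε] at h1
      have h2 := hC b
      have h3 : 0 < d ^ 2 := by positivity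
      linarith
  have hq := optimality hX hne hmax
  set q := p - ε • (a - p) with hqdef
  have hqp : ‖q - p‖ < d - lam := by
    have h1 : q - p = -(ε • (a - p)) := by
      rw [hqdef]
      abel
    rw [h1, norm_neg, norm_smul, Real.norm_eq_abs, abs_of_pos hε]
    have h2 := hC a
    have h3 : ε * ‖a - p‖ ^ 2 ≤ C := by
      have h4 : 0 < d ^ 2 := by positivity
      linarith
    have h5 : (ε * ‖a - p‖) ^ 2 < (d - lam) ^ 2 := by
      calc (ε * ‖a - p‖) ^ 2 = ε * (ε * ‖a - p‖ ^ 2) := by ring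
        _ ≤ ε * C := mul_le_mul_of_nonneg_left h3 hε.le
        _ < (d - lam) ^ 2 := hεC
    exact lt_of_pow_lt_pow_left₀ 2 (by linarith) h5
  have hball : ∀ c : E n, ¬ nearest X a ⊆ closedBall c lam := by
    intro c hc
    obtain ⟨x, hx, hxi⟩ := exists_inner_nonneg' (nearest_compact hX a)
      (nearest_nonempty hX hne a) hq (q - c)
    have h1 := hc hx
    rw [mem_closedBall, dist_eq_norm] at h1
    have h2 : ‖x - c‖ ^ 2 = ‖x - q‖ ^ 2 + 2 * inner ℝ (q - c) (x - q) + ‖q - c‖ ^ 2 := by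
      have : x - c = (x - q) + (q - c) := by abel
      rw [this, norm_add_sq_real, real_inner_comm]
    have h3 : ‖x - q‖ ≤ lam := by
      have h4 : ‖x - q‖ ^ 2 ≤ lam ^ 2 := by
        have h5 : ‖x - c‖ ^ 2 ≤ lam ^ 2 := by
          have := norm_nonneg (x - c)
          nlinarith
        nlinarith [norm_nonneg (q - c)]
      exact le_of_sq_le_sq h4 hlam
    have h6 : infDist p X ≤ infDist q X + dist p q := infDist_le_infDist_add_dist
    have h7 : infDist q X ≤ dist q x := infDist_le_dist_of_mem hx.1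
    rw [dist_eq_norm, norm_sub_rev] at h6 h7
    linarith
  have hnt : (nearest X a).Nontrivial := by
    by_contra hcon
    rw [not_nontrivial_iff] at hcon
    obtain ⟨x, hx⟩ := nearest_nonempty hX hne a
    refine hball x fun y hy => ?_
    rw [hcon hy hx]
    exact mem_closedBall_self hlam
  refine mem_iUnion₂.2 ⟨a, ⟨hnt, hball⟩, ?_⟩
  rw [mem_ball, dist_comm, dist_eq_norm]
  have h1 : ‖a - p‖ ^ 2 < infDist a X ^ 2 := by
    have h2 : 0 < d ^ 2 := by positivity
    nlinarith [mul_nonneg hε.le (sq_nonneg ‖a - p‖)]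
  exact lt_of_pow_lt_pow_left₀ 2 infDist_nonneg h1

end Q189.Medial
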