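import Mathlib

/-!
# The `lam`-medial axis of a closed set
-/

set_option autoImplicit false

open Set Metric

namespace Q189.Medial

/-- Euclidean space -/
abbrev E (n : ℕ) : Type := EuclideanSpace ℝ (Fin n)

variable {n : ℕ}

/-- The set `m(a)` of the points of `X` nearest to `a`. -/
def nearest (X : Set (E n)) (a : E n) : Set (E n) := {x | x ∈ X ∧ dist a x = infDist a X}

/-- The `lam`-medial axis of `X`: the points `a` with more than one nearest point such that the set
of the nearest points is not contained in a closed ball of radius `lam`. -/
def medialAxis (X : Set (E n)) (lam : ℝ) : Set (E n) :=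
  {a | (nearest X a).Nontrivial ∧ ∀ c : E n, ¬ nearest X a ⊆ closedBall c lam}

/-- The point `p` is `lam`-reconstructible. -/
def Reconstructible (X : Set (E n)) (lam : ℝ) (p : E n) : Prop :=
  p ∈ ⋃ a ∈ medialAxis X lam, ball a (infDist a X)

end Q189.Medial
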