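import Pool.Agent.Q189.Trapezoid

/-!
# An octagon with a refinement on seven vertices
-/

set_option autoImplicit false

namespace Q189.Octagon

open Q189.SimpDefs Q189.SimpBuild
open Q189.Trapezoid (only_max extreme_of_max lin)

/-- the stochastic matrix -/
noncomputable def A : Fin 8 → Fin 7 → ℝ :=
  ![![1 / 2, 0, 1 / 2, 0, 0, 0, 0], ![0, 1 / 2, 1 / 2, 0, 0, 0, 0],
    ![1 / 3, 0, 0, 2 / 3, 0, 0, 0], ![0, 1 / 3, 0, 2 / 3, 0, 0, 0],
    ![1 / 6, 0, 0, 0, 5 / 6, 0, 0], ![0, 1 / 6, 0, 0, 5 / 6, 0, 0],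
    ![0, 0, 0, 0, 0, 1, 0], ![0, 0, 0, 0, 0, 0, 1]]

/-- the linear map -/
noncomputable def F : (Fin 7 → ℝ) →ₗ[ℝ] (Fin 2 → ℝ) where
  toFun x := ![6 * x 0 - 6 * x 1 + 6 * x 5 - 6 * x 6, 3 * x 3 + 18 / 5 * x 4 - 9 * x 5 - 9 * x 6]
  map_add' x y := by
    funext i
    fin_cases i <;> simp <;> ring
  map_smul' c x := by
    funext i
    fin_cases i <;> simp <;> ring

theorem hA : ∀ i, A i ∈ stdSimplex ℝ (Fin 7) := by
  intro i
  fin_cases i <;> refine ⟨fun j => ?_, ?_⟩ <;>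
    first | (fin_cases j <;> simp [A] <;> norm_num) | (simp [A, Fin.sum_univ_succ] <;> norm_num)

theorem FA : (fun i => F (A i)) = ![![3, 0], ![-3, 0], ![2, 2], ![-2, 2], ![1, 3], ![-1, 3],
    ![6, -9], ![-6, -9]] := by
  funext i j
  fin_cases i <;> fin_cases j <;> simp [F, A] <;> norm_num

theorem rel {ω : img A F → ℝ} (hω : ω ∈ convexForms (img A F)) (x y z w : img A F)
    (a b c d : ℝ) (ha : 0 ≤ a) (hb : 0 ≤ b) (hc : 0 ≤ c) (hd : 0 ≤ d) (hab : a + b = 1)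
    (hcd : c + d = 1) (h : a • (x : Fin 2 → ℝ) + b • (y : Fin 2 → ℝ) =
      c • (z : Fin 2 → ℝ) + d • (w : Fin 2 → ℝ)) :
    a * ω x + b * ω y = c * ω z + d * ω w := by
  have hz : a • (x : Fin 2 → ℝ) + b • (y : Fin 2 → ℝ) ∈ img A F :=
    convex_convexHull ℝ _ x.2 y.2 ha hb hab
  have e1 := hω.2 x y ⟨_, hz⟩ a b ha hb hab rfl
  have e2 := hω.2 z w ⟨_, hz⟩ c d hc hd hcd h
  rw [← e1, ← e2]

theorem H : ∀ ω ∈ convexForms (img A F), ∃ β : Fin 7 → ℝ, (∀ j, β j ∈ Set.Icc (0 : ℝ) 1) ∧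
      ∀ i, ∑ j, A i j * β j = ω ⟨F (A i), vert_mem A F i⟩ := by
  intro ω hω
  set c : Fin 8 → img A F := fun i => ⟨F (A i), vert_mem A F i⟩ with hc
  set p : Fin 8 → ℝ := fun i => ω (c i) with hp
  have hp01 : ∀ i, 0 ≤ p i ∧ p i ≤ 1 := fun i => hω.1 _
  have hcv : ∀ i, (c i : Fin 2 → ℝ) = ![![3, 0], ![-3, 0], ![2, 2], ![-2, 2], ![1, 3], ![-1, 3],
    ![6, -9], ![-6, -9]] i := fun i => congrFun FA i
  -- midpoints
  have hmid : ∀ i j, ((1 / 2 : ℝ) • (c i : Fin 2 → ℝ) + (1 / 2 : ℝ) • (c j : Fin 2 → ℝ)) ∈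
      img A F := fun i j => convex_convexHull ℝ _ (c i).2 (c j).2 (by norm_num) (by norm_num)
        (by norm_num)
  have hmv : ∀ i j, ω ⟨_, hmid i j⟩ = 1 / 2 * p i + 1 / 2 * p j := fun i j =>
    hω.2 (c i) (c j) ⟨_, hmid i j⟩ (1 / 2) (1 / 2) (by norm_num) (by norm_num) (by norm_num) rfl
  have r1 : 3 / 5 * p 2 + 2 / 5 * p 1 = 3 / 5 * p 3 + 2 / 5 * p 0 :=
    rel hω (c 2) (c 1) (c 3) (c 0) _ _ _ _ (by norm_num) (by norm_num) (by norm_num) (by norm_num)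
      (by norm_num) (by norm_num) (by
        rw [hcv, hcv, hcv, hcv]; funext i; fin_cases i <;> simp <;> norm_num)
  have r2 : 3 / 4 * p 4 + 1 / 4 * p 1 = 3 / 4 * p 5 + 1 / 4 * p 0 :=
    rel hω (c 4) (c 1) (c 5) (c 0) _ _ _ _ (by norm_num) (by norm_num) (by norm_num) (by norm_num)
      (by norm_num) (by norm_num) (by
        rw [hcv, hcv, hcv, hcv]; funext i; fin_cases i <;> simp <;> norm_num)
  have r3 : 1 / 3 * p 6 + 2 / 3 * p 1 = 1 / 3 * p 7 + 2 / 3 * p 0 :=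
    rel hω (c 6) (c 1) (c 7) (c 0) _ _ _ _ (by norm_num) (by norm_num) (by norm_num) (by norm_num)
      (by norm_num) (by norm_num) (by
        rw [hcv, hcv, hcv, hcv]; funext i; fin_cases i <;> simp <;> norm_num)
  have r4 : 9 / 11 * (1 / 2 * p 2 + 1 / 2 * p 3) + 2 / 11 * (1 / 2 * p 6 + 1 / 2 * p 7) =
      1 / 2 * p 0 + 1 / 2 * p 1 := by
    have := rel hω ⟨_, hmid 2 3⟩ ⟨_, hmid 6 7⟩ (c 0) (c 1) (9 / 11) (2 / 11) (1 / 2) (1 / 2)
      (by norm_num) (by norm_num) (by norm_num) (by norm_num) (by norm_num) (by norm_num) (by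
        simp only
        rw [hcv, hcv, hcv, hcv, hcv, hcv]; funext i; fin_cases i <;> simp <;> norm_num)
    rw [hmv, hmv] at this
    exact this
  have r5 : 2 / 3 * (1 / 2 * p 4 + 1 / 2 * p 5) + 1 / 3 * (1 / 2 * p 0 + 1 / 2 * p 1) =
      1 / 2 * p 2 + 1 / 2 * p 3 := by
    have := rel hω ⟨_, hmid 4 5⟩ ⟨_, hmid 0 1⟩ (c 2) (c 3) (2 / 3) (1 / 3) (1 / 2) (1 / 2)
      (by norm_num) (by norm_num) (by norm_num) (by norm_num) (by norm_num) (by norm_num) (by
        simp only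
        rw [hcv, hcv, hcv, hcv, hcv, hcv]; funext i; fin_cases i <;> simp <;> norm_num)
    rw [hmv, hmv] at this
    exact this
  obtain ⟨a0, a0'⟩ := hp01 0
  obtain ⟨a1, a1'⟩ := hp01 1
  obtain ⟨a2, a2'⟩ := hp01 2
  obtain ⟨a3, a3'⟩ := hp01 3
  obtain ⟨a4, a4'⟩ := hp01 4
  obtain ⟨a5, a5'⟩ := hp01 5
  obtain ⟨a6, a6'⟩ := hp01 6
  obtain ⟨a7, a7'⟩ := hp01 7
  -- choice of `b`
  obtain ⟨b, b1, b2, b3, b4, b5, b6, b7, b8, b9, b10⟩ : ∃ b : ℝ, p 0 - p 1 ≤ b ∧ p 1 - p 0 ≤ b ∧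
      p 0 + p 1 - 1 ≤ b ∧ 3 / 2 * (p 2 + p 3) - 2 ≤ b ∧ 3 * (p 4 + p 5) - 5 ≤ b ∧
      b ≤ p 0 + p 1 ∧ b ≤ 3 / 2 * (p 2 + p 3) ∧ b ≤ 3 * (p 4 + p 5) ∧
      b ≤ 1 - (p 0 - p 1) ∧ b ≤ 1 - (p 1 - p 0) := by
    refine ⟨max (max (p 0 - p 1) (p 1 - p 0)) (max (p 0 + p 1 - 1)
      (max (3 / 2 * (p 2 + p 3) - 2) (3 * (p 4 + p 5) - 5))), ?_, ?_, ?_, ?_, ?_, ?_, ?_, ?_, ?_,
      ?_⟩
    · exact (le_max_left _ _).trans (le_max_left _ _)
    · exact (le_max_right _ _).trans (le_max_left _ _)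
    · exact (le_max_left _ _).trans (le_max_right _ _)
    · exact (le_max_left _ _).trans ((le_max_right _ _).trans (le_max_right _ _))
    · exact (le_max_right _ _).trans ((le_max_right _ _).trans (le_max_right _ _))
    all_goals
      refine max_le (max_le ?_ ?_) (max_le ?_ (max_le ?_ ?_)) <;> linarith
  refine ⟨![b + (p 0 - p 1), b - (p 0 - p 1), p 0 + p 1 - b, (3 / 2 * (p 2 + p 3) - b) / 2,
    (3 * (p 4 + p 5) - b) / 5, p 6, p 7], ?_, ?_⟩
  · intro j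
    fin_cases j
    · change b + (p 0 - p 1) ∈ Set.Icc (0 : ℝ) 1
      constructor <;> linarith
    · change b - (p 0 - p 1) ∈ Set.Icc (0 : ℝ) 1
      constructor <;> linarith
    · change p 0 + p 1 - b ∈ Set.Icc (0 : ℝ) 1
      constructor <;> linarith
    · change (3 / 2 * (p 2 + p 3) - b) / 2 ∈ Set.Icc (0 : ℝ) 1
      constructor <;> linarith
    · change (3 * (p 4 + p 5) - b) / 5 ∈ Set.Icc (0 : ℝ) 1
      constructor <;> linarith
    · exact ⟨a6, a6'⟩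
    · exact ⟨a7, a7'⟩
  · intro i
    change _ = p i
    fin_cases i
    · simp [A, Fin.sum_univ_succ]; ring
    · simp [A, Fin.sum_univ_succ]; ring
    · simp [A, Fin.sum_univ_succ]; linarith
    · simp [A, Fin.sum_univ_succ]; linarith
    · simp [A, Fin.sum_univ_succ]; linarith
    · simp [A, Fin.sum_univ_succ]; linarith
    · simp [A, Fin.sum_univ_succ]
    · simp [A, Fin.sum_univ_succ]

theorem ext_all : ∀ i, F (A i) ∈ (img A F).extremePoints ℝ := by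
  have key : ∀ (i : Fin 8) (a b : ℝ),
      (∀ j, j ≠ i → lin a b (F (A j)) < lin a b (F (A i))) →
      F (A i) ∈ (img A F).extremePoints ℝ := fun i a b h =>
    extreme_of_max (fun i => F (A i)) i (lin a b) h
  have hv : ∀ (a b : ℝ) (i : Fin 8), lin a b (F (A i)) =
      ![3 * a, -3 * a, 2 * a + 2 * b, -2 * a + 2 * b, a + 3 * b, -a + 3 * b, 6 * a - 9 * b,
        -6 * a - 9 * b] i := by
    intro a b i
    have := congrFun FA i
    rw [show F (A i) = _ from this]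
    fin_cases i <;> simp [lin] <;> ring
  intro i
  fin_cases i
  · refine key 0 5 2 fun j hj => ?_
    rw [hv, hv]
    fin_cases j <;> simp at hj ⊢ <;> norm_num
  · refine key 1 (-5) 2 fun j hj => ?_
    rw [hv, hv]
    fin_cases j <;> simp at hj ⊢ <;> norm_num
  · refine key 2 3 2 fun j hj => ?_
    rw [hv, hv]
    fin_cases j <;> simp at hj ⊢ <;> norm_num
  · refine key 3 (-3) 2 fun j hj => ?_
    rw [hv, hv]
    fin_cases j <;> simp at hj ⊢ <;> norm_num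
  · refine key 4 1 2 fun j hj => ?_
    rw [hv, hv]
    fin_cases j <;> simp at hj ⊢ <;> norm_num
  · refine key 5 (-1) 2 fun j hj => ?_
    rw [hv, hv]
    fin_cases j <;> simp at hj ⊢ <;> norm_num
  · refine key 6 1 (-1) fun j hj => ?_
    rw [hv, hv]
    fin_cases j <;> simp at hj ⊢ <;> norm_num
  · refine key 7 (-1) (-1) fun j hj => ?_
    rw [hv, hv]
    fin_cases j <;> simp at hj ⊢ <;> norm_num

theorem inj : Function.Injective (fun i => F (A i)) := by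
  rw [FA]
  intro i j h
  fin_cases i <;> fin_cases j <;> simp at h ⊢ <;> norm_num at h

theorem ext_eq : (img A F).extremePoints ℝ = Set.range (fun i => F (A i)) := by
  apply Set.Subset.antisymm
  · exact extremePoints_convexHull_subset
  · rintro _ ⟨i, rfl⟩
    exact ext_all i

theorem ext_card : ((img A F).extremePoints ℝ).ncard = 8 := by
  rw [ext_eq, ← Set.image_univ, Set.ncard_image_of_injective _ inj]
  simp

theorem not_simplex : ¬ IsSimplex (img A F) := by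
  rintro ⟨k, v, hv, he⟩
  have h1 : ∀ i, F (A i) ∈ Set.range v := by
    intro i
    have := ext_all i
    rw [he] at this
    exact extremePoints_convexHull_subset this
  choose g hg using h1
  have hginj : Function.Injective g := by
    intro i j hij
    apply inj
    simp only
    rw [← hg i, ← hg j, hij]
  have h2 : 8 ≤ k + 1 := by
    have := Fintype.card_le_of_injective g hginj
    simpa using this
  have h3 := hv.card_le_finrank_succ
  have h4 : Module.finrank ℝ (vectorSpan ℝ (Set.range v)) ≤ 2 := by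
    have := Submodule.finrank_le (vectorSpan ℝ (Set.range v))
    simpa using this
  simp at h3
  omega

theorem polytope : IsPolytope (img A F) :=
  ⟨Set.range (fun i => F (A i)), Set.finite_range _, ⟨_, ⟨0, rfl⟩⟩, rfl⟩

end Q189.Octagon
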