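import Pool.Agent.S13718

/-!
# Polar coordinates for positively homogeneous functions in the plane
-/

set_option autoImplicit false

open MeasureTheory Set

namespace Q189.Polar2

/-- the plane -/
abbrev E2 := EuclideanSpace ℝ (Fin 2)

theorem integral_plane (f : E2 → ℝ) :
    ∫ v : E2, f v = ∫ p : ℝ × ℝ, f (WithLp.toLp 2 ![p.1, p.2]) := by
  have h1 : ∫ v : E2, f v = ∫ w : Fin 2 → ℝ, f (WithLp.toLp 2 w) :=
    ((PiLp.volume_preserving_toLp (Fin 2)).integral_comp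
      (MeasurableEquiv.toLp 2 (Fin 2 → ℝ)).measurableEmbedding f).symm
  have h2 : ∫ p : ℝ × ℝ, f (WithLp.toLp 2 ![p.1, p.2]) = ∫ w : Fin 2 → ℝ, f (WithLp.toLp 2 w) := by
    have := (volume_preserving_finTwoArrow ℝ).symm.integral_comp
      (MeasurableEquiv.finTwoArrow.symm.measurableEmbedding) (fun w : Fin 2 → ℝ => f (WithLp.toLp 2 w))
    rw [← this]
    congr 1
  rw [h1, h2]

theorem polar (f : E2 → ℝ) (hf : ∀ (c : ℝ) (v : E2), 0 < c → f (c • v) = c * f v) :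
    ∫ v : E2, f v * Real.exp (-‖v‖ ^ 2) =
      (∫ r in Ioi (0 : ℝ), r ^ 2 * Real.exp (-r ^ 2)) *
        ∫ θ in Ioo (-Real.pi) Real.pi, f (WithLp.toLp 2 ![Real.cos θ, Real.sin θ]) := by
  rw [integral_plane, ← integral_comp_polarCoord_symm, ← setIntegral_prod_mul]
  have ht : polarCoord.target = Ioi (0 : ℝ) ×ˢ Ioo (-Real.pi) Real.pi := rfl
  rw [ht]
  refine setIntegral_congr_fun (measurableSet_Ioi.prod measurableSet_Ioo) ?_
  rintro ⟨r, θ⟩ ⟨hr, -⟩
  have hr0 : 0 < r := hr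
  simp only [polarCoord_symm_apply, smul_eq_mul]
  have e : (WithLp.toLp 2 ![r * Real.cos θ, r * Real.sin θ] : E2) =
      r • WithLp.toLp 2 ![Real.cos θ, Real.sin θ] := by
    ext i
    fin_cases i <;> simp
  rw [e, hf r _ hr0]
  have hn : ‖(WithLp.toLp 2 ![Real.cos θ, Real.sin θ] : E2)‖ = 1 := by
    rw [EuclideanSpace.norm_eq]
    simp [Fin.sum_univ_two]
  rw [norm_smul, hn, Real.norm_of_nonneg hr0.le]
  simp only [mul_one]
  ring

end Q189.Polar2
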