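import Mathlib

/-!
One-dimensional Brunn-Minkowski, Prekopa-Leindler and Borell-Brascamp-Lieb inequalities
for several functions (helper189).
-/

set_option autoImplicit false

open Real Set Filter MeasureTheory
open scoped Topology ENNReal Pointwise

namespace Pool.Agent.Q189.SC

theorem two_sets {K L : Set ℝ} (hK : IsCompact K) (hL : IsCompact L)
    (hK' : K.Nonempty) (hL' : L.Nonempty) :
    volume K + volume L ≤ volume (K + L) := by
  obtain ⟨a, ha, hamax⟩ := hK.exists_isMaxOn hK' continuousOn_id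
  obtain ⟨b, hb, hbmin⟩ := hL.exists_isMinOn hL' continuousOn_id
  have hamax' : ∀ x ∈ K, x ≤ a := fun x hx => hamax hx
  have hbmin' : ∀ y ∈ L, b ≤ y := fun y hy => hbmin hy
  set S1 : Set ℝ := (fun x => b + x) '' K with hS1
  set S2 : Set ℝ := (fun y => a + y) '' L with hS2
  have hS1c : IsCompact S1 := hK.image (by fun_prop)
  have hS2c : IsCompact S2 := hL.image (by fun_prop)
  have h1 : S1 ∪ S2 ⊆ K + L := by
    rintro z (⟨x, hx, rfl⟩ | ⟨y, hy, rfl⟩)
    · exact ⟨x, hx, b, hb, by simp only; ring⟩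
    · exact ⟨a, ha, y, hy, rfl⟩
  have hint : volume (S1 ∩ S2) = 0 := by
    refine measure_mono_null (t := {a + b}) ?_ (by simp)
    rintro z ⟨⟨x, hx, hxz⟩, ⟨y, hy, hyz⟩⟩
    simp only at hxz hyz
    have e1 := hamax' x hx
    have e2 := hbmin' y hy
    simp only [mem_singleton_iff]
    linarith
  have hv1 : volume S1 = volume K := by
    rw [hS1, image_add_left]
    simp
  have hv2 : volume S2 = volume L := by
    rw [hS2, image_add_left]
    simp
  have hu := measure_union_add_inter S1 hS2c.measurableSet (μ := (volume : Measure ℝ))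
  rw [hint, add_zero] at hu
  rw [← hv1, ← hv2, ← hu]
  exact measure_mono h1

theorem k_sets {α : Type*} (J : Finset α) (K : α → Set ℝ) (hK : ∀ j ∈ J, IsCompact (K j))
    (hK' : ∀ j ∈ J, (K j).Nonempty) :
    IsCompact (∑ j ∈ J, K j) ∧ (∑ j ∈ J, K j).Nonempty ∧
      ∑ j ∈ J, volume (K j) ≤ volume (∑ j ∈ J, K j) := by
  classical
  induction J using Finset.induction_on with
  | empty => simp
  | insert a J ha ih =>
    obtain ⟨h1, h2, h3⟩ := ih (fun j hj => hK j (Finset.mem_insert_of_mem hj))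
      (fun j hj => hK' j (Finset.mem_insert_of_mem hj))
    have h4 := hK a (Finset.mem_insert_self a J)
    have h5 := hK' a (Finset.mem_insert_self a J)
    rw [Finset.sum_insert ha]
    refine ⟨h4.add h1, h5.add h2, ?_⟩
    rw [Finset.sum_insert ha]
    exact (add_le_add le_rfl h3).trans (two_sets h4 h1 h5 h2)

/-- Brunn-Minkowski on the line, several measurable sets -/
theorem bm_k {α : Type*} (J : Finset α) (A : α → Set ℝ) (C : Set ℝ)
    (hA : ∀ j ∈ J, MeasurableSet (A j)) (hA' : ∀ j ∈ J, (A j).Nonempty)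
    (hC : ∀ z : α → ℝ, (∀ j ∈ J, z j ∈ A j) → ∑ j ∈ J, z j ∈ C) :
    ∑ j ∈ J, volume (A j) ≤ volume C := by
  classical
  by_cases hCt : volume C = ∞
  · rw [hCt]; exact le_top
  -- every set has finite measure
  have hfin : ∀ j ∈ J, volume (A j) ≠ ∞ := by
    intro i hi
    choose! p hp using hA'
    have h1 : (fun x => (∑ j ∈ J.erase i, p j) + x) '' (A i) ⊆ C := by
      rintro _ ⟨x, hx, rfl⟩
      have h2 := hC (Function.update p i x) (by
        intro j hj
        by_cases hji : j = i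
        · subst hji; simpa using hx
        · rw [Function.update_of_ne hji]; exact hp j hj)
      rw [← Finset.sum_erase_add _ _ hi] at h2
      rw [Function.update_self] at h2
      have h3 : ∑ j ∈ J.erase i, Function.update p i x j = ∑ j ∈ J.erase i, p j :=
        Finset.sum_congr rfl fun j hj => by
          rw [Function.update_of_ne (Finset.ne_of_mem_erase hj)]
      rw [h3] at h2
      exact h2
    have h2 := measure_mono (μ := (volume : Measure ℝ)) h1
    rw [image_add_left] at h2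
    have h3 : volume ((fun x => -(∑ j ∈ J.erase i, p j) + x) ⁻¹' A i) = volume (A i) := by simp
    rw [h3] at h2
    exact ne_top_of_le_ne_top hCt h2
  refine ENNReal.le_of_forall_pos_le_add fun ε hε _ => ?_
  have hcard : (0:ℝ) < (J.card : ℝ) + 1 := by positivity
  set δ : ℝ≥0∞ := ENNReal.ofReal ((ε:ℝ) / (J.card + 1)) with hδ
  have hδ0 : δ ≠ 0 := by
    rw [hδ, ne_eq, ENNReal.ofReal_eq_zero, not_le]
    positivity
  have hK : ∀ j ∈ J, ∃ K : Set ℝ, K ⊆ A j ∧ IsCompact K ∧ K.Nonempty ∧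
      volume (A j) ≤ volume K + δ := by
    intro j hj
    obtain ⟨K, hK1, hK2, hK3⟩ := (hA j hj).exists_isCompact_lt_add (hfin j hj) hδ0
    obtain ⟨p, hp⟩ := hA' j hj
    refine ⟨insert p K, insert_subset hp hK1, hK2.insert p, insert_nonempty _ _, ?_⟩
    refine hK3.le.trans ?_
    gcongr
    exact subset_insert _ _
  choose! K hK1 hK2 hK3 hK4 using hK
  obtain ⟨h1, h2, h3⟩ := k_sets J K hK2 hK3
  have h4 : (∑ j ∈ J, K j) ⊆ C := by
    intro z hz
    rw [Set.mem_finsetSum] at hz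
    obtain ⟨g, hg, rfl⟩ := hz
    exact hC g fun j hj => hK1 j hj (hg hj)
  calc ∑ j ∈ J, volume (A j) ≤ ∑ j ∈ J, (volume (K j) + δ) :=
        Finset.sum_le_sum fun j hj => hK4 j hj
    _ = ∑ j ∈ J, volume (K j) + J.card * δ := by
        rw [Finset.sum_add_distrib, Finset.sum_const, nsmul_eq_mul]
    _ ≤ volume C + ε := by
        refine add_le_add (h3.trans (measure_mono h4)) ?_
        rw [hδ, ← ENNReal.ofReal_natCast, ← ENNReal.ofReal_mul (by positivity)]
        rw [← ENNReal.ofReal_coe_nnreal]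
        refine ENNReal.ofReal_le_ofReal ?_
        rw [mul_div_assoc', div_le_iff₀ hcard]
        nlinarith [NNReal.coe_nonneg ε]

/-- level set inequality for several functions with supremum one -/
theorem min_pl {α : Type*} (J : Finset α) (f : α → ℝ → ℝ≥0∞) (h : ℝ → ℝ≥0∞)
    (hf : ∀ j ∈ J, Measurable (f j)) (hh : Measurable h)
    (f1 : ∀ j ∈ J, ∀ x, f j x ≤ 1)
    (hfs : ∀ j ∈ J, ∀ s : ℝ≥0∞, s < 1 → ∃ x, s < f j x)
    (H : ∀ z : α → ℝ, ∀ s : ℝ≥0∞, s < 1 → (∀ j ∈ J, s < f j (z j)) → s < h (∑ j ∈ J, z j)) :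
    ∑ j ∈ J, ∫⁻ x, f j x ≤ ∫⁻ x, h x := by
  classical
  set h1 : ℝ → ℝ := fun x => (min (h x) 1).toReal with hh1
  have hh1m : Measurable h1 := (hh.min measurable_const).ennreal_toReal
  have hh10 : ∀ x, 0 ≤ h1 x := fun x => ENNReal.toReal_nonneg
  have key1 : ∫⁻ x, ENNReal.ofReal (h1 x) ≤ ∫⁻ x, h x := by
    refine lintegral_mono fun x => ?_
    rw [hh1]
    simp only
    rw [ENNReal.ofReal_toReal (ne_top_of_le_ne_top ENNReal.one_ne_top (min_le_right _ _))]
    exact min_le_left _ _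
  refine le_trans ?_ key1
  have key2 : ∀ j ∈ J, ∫⁻ x, f j x = ∫⁻ s in Ioi (0:ℝ), volume {a : ℝ | s < (f j a).toReal} := by
    intro j hj
    rw [← lintegral_eq_lintegral_meas_lt volume
      (Filter.Eventually.of_forall fun x => ENNReal.toReal_nonneg)
      (hf j hj).ennreal_toReal.aemeasurable]
    refine lintegral_congr fun x => ?_
    rw [ENNReal.ofReal_toReal (ne_top_of_le_ne_top ENNReal.one_ne_top (f1 j hj x))]
  rw [Finset.sum_congr rfl key2]
  rw [lintegral_eq_lintegral_meas_lt volume (Filter.Eventually.of_forall hh10) hh1m.aemeasurable]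
  have hm : ∀ k : ℝ → ℝ, Measurable (fun s : ℝ => volume {a : ℝ | s < k a}) := fun k =>
    (Antitone.measurable (fun s t hst => measure_mono (fun a (ha : t < k a) =>
      show s < k a from lt_of_le_of_lt hst ha)))
  rw [← lintegral_finsetSum _ (fun j _ => hm _)]
  refine setLIntegral_mono' measurableSet_Ioi ?_
  intro s hs
  have hs0 : 0 < s := hs
  by_cases hs1 : s < 1
  · have hs1' : ENNReal.ofReal s < 1 := by
      rw [← ENNReal.ofReal_one]
      exact (ENNReal.ofReal_lt_ofReal_iff one_pos).2 hs1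
    have hlt : ∀ j ∈ J, ∀ x, s < (f j x).toReal ↔ ENNReal.ofReal s < f j x := by
      intro j hj x
      rw [ENNReal.ofReal_lt_iff_lt_toReal hs0.le
        (ne_top_of_le_ne_top ENNReal.one_ne_top (f1 j hj x))]
    refine bm_k J (fun j => {a : ℝ | s < (f j a).toReal}) _ ?_ ?_ ?_
    · intro j hj
      exact (hf j hj).ennreal_toReal measurableSet_Ioi
    · intro j hj
      obtain ⟨x, hx⟩ := hfs j hj _ hs1'
      exact ⟨x, (hlt j hj x).2 hx⟩
    · intro z hz
      have h2 := H z (ENNReal.ofReal s) hs1' fun j hj => (hlt j hj _).1 (hz j hj)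
      simp only [mem_ofPred_eq, hh1]
      rw [← ENNReal.ofReal_lt_iff_lt_toReal hs0.le
        (ne_top_of_le_ne_top ENNReal.one_ne_top (min_le_right _ _))]
      exact lt_min h2 hs1'
  · push Not at hs1
    have e1 : ∀ j ∈ J, volume {a : ℝ | s < (f j a).toReal} = 0 := by
      intro j hj
      have : {a : ℝ | s < (f j a).toReal} = ∅ := by
        ext a
        simp only [mem_ofPred_eq, mem_empty_iff_false, iff_false, not_lt]
        refine le_trans ?_ hs1
        have := ENNReal.toReal_mono ENNReal.one_ne_top (f1 j hj a)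
        simpa using this
      rw [this, measure_empty]
    rw [Finset.sum_eq_zero e1]
    exact zero_le

theorem amgm {α : Type*} (J : Finset α) (hJ : J.Nonempty) (a : α → ℝ≥0∞) :
    ∏ j ∈ J, (a j) ^ ((J.card : ℝ)⁻¹) ≤ (J.card : ℝ≥0∞)⁻¹ * ∑ j ∈ J, a j := by
  classical
  have hc : (0:ℝ) < J.card := by exact_mod_cast hJ.card_pos
  by_cases h : ∃ j ∈ J, a j = ∞
  · obtain ⟨j, hj, hj'⟩ := h
    have h1 : ∑ j ∈ J, a j = ∞ := ENNReal.sum_eq_top.2 ⟨j, hj, hj'⟩
    rw [h1, ENNReal.mul_top (by simp)]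
    exact le_top
  · push Not at h
    have h1 := NNReal.geom_mean_le_arith_mean_weighted J (fun _ => (J.card : NNReal)⁻¹)
      (fun j => (a j).toNNReal) (by
        rw [Finset.sum_const, nsmul_eq_mul]
        exact mul_inv_cancel₀ (by exact_mod_cast hc.ne'))
    have h2 := ENNReal.coe_le_coe.2 h1
    rw [ENNReal.ofNNReal_finsetProd, ENNReal.ofNNReal_finsetSum] at h2
    have e1 : ∀ j ∈ J, (((a j).toNNReal ^ (((J.card : NNReal)⁻¹ : NNReal) : ℝ) : NNReal) : ℝ≥0∞)
        = (a j) ^ ((J.card : ℝ)⁻¹) := by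
      intro j hj
      rw [ENNReal.coe_rpow_of_nonneg _ (by positivity), ENNReal.coe_toNNReal (h j hj)]
      simp
    rw [Finset.prod_congr rfl e1] at h2
    refine h2.trans (le_of_eq ?_)
    rw [Finset.mul_sum]
    refine Finset.sum_congr rfl fun j hj => ?_
    rw [ENNReal.coe_mul, ENNReal.coe_toNNReal (h j hj), ENNReal.coe_inv (by exact_mod_cast hc.ne')]
    simp

theorem lint_mul_left {a : ℝ} (ha : 0 < a) (H : ℝ → ℝ≥0∞) (hH : Measurable H) :
    ∫⁻ x, H (a * x) = ENNReal.ofReal a⁻¹ * ∫⁻ x, H x := by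
  have h1 := lintegral_map (μ := (volume : Measure ℝ)) (f := H) (g := fun x => a * x) hH
    (measurable_const_mul a)
  rw [← h1, Real.map_volume_mul_left ha.ne', lintegral_smul_measure, abs_of_pos (inv_pos.2 ha)]
  rfl

theorem prod_lt {α : Type*} (J : Finset α) (hJ : J.Nonempty) {a b : α → ℝ≥0∞}
    (h : ∀ j ∈ J, a j < b j) : ∏ j ∈ J, a j < ∏ j ∈ J, b j := by
  classical
  induction hJ using Finset.Nonempty.cons_induction with
  | singleton i => simpa using h i (by simp)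
  | cons i s hi hs ih =>
    rw [Finset.prod_cons, Finset.prod_cons]
    exact ENNReal.mul_lt_mul (h i (by simp)) (ih fun j hj => h j (by simp [hj]))

/-- bounded functions -/
theorem pl_k_bdd {α : Type*} (J : Finset α) (hJ : J.Nonempty) (F : α → ℝ → ℝ≥0∞)
    (H : ℝ → ℝ≥0∞) (hF : ∀ j ∈ J, Measurable (F j)) (hH : Measurable H) (M : ℝ≥0∞)
    (hM : M ≠ ∞) (hFM : ∀ j ∈ J, ∀ x, F j x ≤ M)
    (HH : ∀ z : α → ℝ, ∏ j ∈ J, (F j (z j)) ^ ((J.card : ℝ)⁻¹) ≤
      H ((J.card : ℝ)⁻¹ * ∑ j ∈ J, z j)) :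
    ∏ j ∈ J, (∫⁻ x, F j x) ^ ((J.card : ℝ)⁻¹) ≤ ∫⁻ x, H x := by
  classical
  have hc : (0:ℝ) < J.card := by exact_mod_cast hJ.card_pos
  have hci : (0:ℝ) < (J.card : ℝ)⁻¹ := inv_pos.2 hc
  set m : α → ℝ≥0∞ := fun j => ⨆ x, F j x with hm
  by_cases h0 : ∃ j ∈ J, m j = 0
  · obtain ⟨j, hj, hj'⟩ := h0
    have h1 : ∀ x, F j x = 0 := fun x => le_antisymm (by rw [← hj']; exact le_iSup (F j) x) zero_le
    rw [Finset.prod_eq_zero hj]
    · exact zero_le
    · simp only [h1, lintegral_zero]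
      exact ENNReal.zero_rpow_of_pos hci
  push Not at h0
  have hmt : ∀ j ∈ J, m j ≠ ∞ := fun j hj => ne_top_of_le_ne_top hM (iSup_le (hFM j hj))
  set P : ℝ≥0∞ := ∏ j ∈ J, (m j) ^ ((J.card : ℝ)⁻¹) with hP
  have hP0 : P ≠ 0 := by
    rw [hP, Finset.prod_ne_zero_iff]
    intro j hj
    exact (ENNReal.rpow_pos (pos_iff_ne_zero.2 (h0 j hj)) (hmt j hj)).ne'
  have hPt : P ≠ ∞ := by
    rw [hP]
    exact ENNReal.prod_ne_top fun j hj => ENNReal.rpow_ne_top_of_nonneg hci.le (hmt j hj)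
  have key := min_pl J (fun j x => (m j)⁻¹ * F j x)
    (fun x => P⁻¹ * H ((J.card : ℝ)⁻¹ * x))
    (fun j hj => (hF j hj).const_mul _) ((hH.comp (measurable_const_mul _)).const_mul _)
    ?_ ?_ ?_
  · have hHm : Measurable fun x : ℝ => H ((J.card : ℝ)⁻¹ * x) := hH.comp (measurable_const_mul _)
    rw [lintegral_const_mul _ hHm, lint_mul_left hci H hH, inv_inv] at key
    have key2 : ∑ j ∈ J, (m j)⁻¹ * ∫⁻ x, F j x ≤ P⁻¹ * (J.card * ∫⁻ x, H x) := by
      refine le_trans (le_of_eq ?_) (key.trans (le_of_eq ?_))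
      · refine Finset.sum_congr rfl fun j hj => ?_
        rw [lintegral_const_mul _ (hF j hj)]
      · simp
    have h3 := amgm J hJ (fun j => (m j)⁻¹ * ∫⁻ x, F j x)
    have h4 : ∏ j ∈ J, ((m j)⁻¹ * ∫⁻ x, F j x) ^ ((J.card : ℝ)⁻¹) =
        P⁻¹ * ∏ j ∈ J, (∫⁻ x, F j x) ^ ((J.card : ℝ)⁻¹) := by
      simp_rw [ENNReal.mul_rpow_of_nonneg _ _ hci.le]
      rw [Finset.prod_mul_distrib]
      congr 1
      rw [hP, ENNReal.prod_inv_distrib]
      · exact Finset.prod_congr rfl fun j _ => ENNReal.inv_rpow _ _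
      · intro i hi j hj _
        right
        exact ENNReal.rpow_ne_top_of_nonneg hci.le (hmt j hj)
    rw [h4] at h3
    have h5 : P⁻¹ * ∏ j ∈ J, (∫⁻ x, F j x) ^ ((J.card : ℝ)⁻¹) ≤ P⁻¹ * ∫⁻ x, H x := by
      refine h3.trans ?_
      calc (J.card : ℝ≥0∞)⁻¹ * ∑ j ∈ J, (m j)⁻¹ * ∫⁻ x, F j x
          ≤ (J.card : ℝ≥0∞)⁻¹ * (P⁻¹ * (J.card * ∫⁻ x, H x)) := by gcongr
        _ = ((J.card : ℝ≥0∞)⁻¹ * J.card) * (P⁻¹ * ∫⁻ x, H x) := by ring
        _ = P⁻¹ * ∫⁻ x, H x := by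
          rw [ENNReal.inv_mul_cancel (by exact_mod_cast hJ.card_pos.ne') (by simp), one_mul]
    have hPi0 : P⁻¹ ≠ 0 := ENNReal.inv_ne_zero.2 hPt
    have hPit : P⁻¹ ≠ ∞ := ENNReal.inv_ne_top.2 hP0
    exact (ENNReal.mul_le_mul_iff_right hPi0 hPit).1 h5
  · intro j hj x
    rw [mul_comm, ← div_eq_mul_inv]
    exact ENNReal.div_le_of_le_mul (by rw [one_mul]; exact le_iSup (F j) x)
  · intro j hj s hs
    have h1 : s * m j < m j := by
      calc s * m j < 1 * m j := ENNReal.mul_lt_mul_left (h0 j hj) (hmt j hj) hs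
        _ = m j := one_mul _
    obtain ⟨x, hx⟩ := lt_iSup_iff.1 h1
    refine ⟨x, ?_⟩
    rw [mul_comm, ← div_eq_mul_inv]
    rwa [ENNReal.lt_div_iff_mul_lt (Or.inl (h0 j hj)) (Or.inl (hmt j hj))]
  · intro z s hs hz
    have h1 : s * P < ∏ j ∈ J, (F j (z j)) ^ ((J.card : ℝ)⁻¹) := by
      have e1 : s = ∏ j ∈ J, s ^ ((J.card : ℝ)⁻¹) := by
        rw [Finset.prod_const, ← ENNReal.rpow_natCast, ← ENNReal.rpow_mul,
          inv_mul_cancel₀ hc.ne', ENNReal.rpow_one]
      have e2 : s * P = ∏ j ∈ J, (s * m j) ^ ((J.card : ℝ)⁻¹) := by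
        simp_rw [ENNReal.mul_rpow_of_nonneg _ _ hci.le]
        rw [Finset.prod_mul_distrib, ← e1]
      rw [e2]
      refine prod_lt J hJ ?_
      intro j hj
      have h2 := hz j hj
      rw [mul_comm, ← div_eq_mul_inv, ENNReal.lt_div_iff_mul_lt (Or.inl (h0 j hj))
        (Or.inl (hmt j hj))] at h2
      exact ENNReal.rpow_lt_rpow h2 hci
    have h2 := h1.trans_le (HH z)
    rw [mul_comm, ← div_eq_mul_inv]
    rwa [ENNReal.lt_div_iff_mul_lt (Or.inl hP0) (Or.inl hPt)]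

theorem iSup_prod_mono {α : Type*} (J : Finset α) (a : α → ℕ → ℝ≥0∞)
    (h : ∀ j ∈ J, Monotone (a j)) : ∏ j ∈ J, ⨆ n, a j n = ⨆ n, ∏ j ∈ J, a j n := by
  classical
  induction J using Finset.induction_on with
  | empty => simp
  | insert i J hi ih =>
    rw [Finset.prod_insert hi, ih fun j hj => h j (Finset.mem_insert_of_mem hj)]
    refine le_antisymm ?_ ?_
    · rw [ENNReal.iSup_mul]
      refine iSup_le fun p => ?_
      rw [ENNReal.mul_iSup]
      refine iSup_le fun q => ?_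
      refine le_trans ?_ (le_iSup _ (max p q))
      rw [Finset.prod_insert hi]
      refine mul_le_mul' (h i (Finset.mem_insert_self i J) (le_max_left _ _)) ?_
      exact Finset.prod_le_prod' fun j hj => h j (Finset.mem_insert_of_mem hj) (le_max_right _ _)
    · refine iSup_le fun n => ?_
      rw [Finset.prod_insert hi]
      exact mul_le_mul' (le_iSup (a i) n) (le_iSup (fun n => ∏ j ∈ J, a j n) n)

theorem lint_trunc (K : ℝ → ℝ≥0∞) (hK : Measurable K) :
    (∫⁻ x, K x) = ⨆ k : ℕ, ∫⁻ x, min (K x) (k : ℝ≥0∞) := by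
  rw [← lintegral_iSup (fun k => hK.min measurable_const)]
  · refine lintegral_congr (fun x => ?_)
    rw [← inf_iSup_eq, ENNReal.iSup_natCast]
    simp
  · intro k l hkl x
    simp only
    gcongr

/-- Prekopa-Leindler on the line for several functions with equal weights -/
theorem pl_k {α : Type*} (J : Finset α) (hJ : J.Nonempty) (F : α → ℝ → ℝ≥0∞)
    (H : ℝ → ℝ≥0∞) (hF : ∀ j ∈ J, Measurable (F j)) (hH : Measurable H)
    (HH : ∀ z : α → ℝ, ∏ j ∈ J, (F j (z j)) ^ ((J.card : ℝ)⁻¹) ≤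
      H ((J.card : ℝ)⁻¹ * ∑ j ∈ J, z j)) :
    ∏ j ∈ J, (∫⁻ x, F j x) ^ ((J.card : ℝ)⁻¹) ≤ ∫⁻ x, H x := by
  classical
  have hc : (0:ℝ) < J.card := by exact_mod_cast hJ.card_pos
  have hci : (0:ℝ) < (J.card : ℝ)⁻¹ := inv_pos.2 hc
  have e1 : ∀ j ∈ J, (∫⁻ x, F j x) ^ ((J.card : ℝ)⁻¹) =
      ⨆ n : ℕ, (∫⁻ x, min (F j x) (n : ℝ≥0∞)) ^ ((J.card : ℝ)⁻¹) := by
    intro j hj
    rw [lint_trunc (F j) (hF j hj)]
    exact (ENNReal.orderIsoRpow _ hci).map_iSup _
  rw [Finset.prod_congr rfl e1, iSup_prod_mono]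
  · refine iSup_le fun n => ?_
    refine pl_k_bdd J hJ (fun j x => min (F j x) (n : ℝ≥0∞)) H
      (fun j hj => (hF j hj).min measurable_const) hH n (by simp)
      (fun j hj x => min_le_right _ _) ?_
    intro z
    refine le_trans ?_ (HH z)
    refine Finset.prod_le_prod' fun j hj => ?_
    exact ENNReal.rpow_le_rpow (min_le_left _ _) hci.le
  · intro j hj p q hpq
    simp only
    refine ENNReal.rpow_le_rpow (lintegral_mono fun x => ?_) hci.le
    simp only
    gcongr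

/-- the same with a constant factor -/
theorem pl_k_const {α : Type*} (J : Finset α) (hJ : J.Nonempty) (F : α → ℝ → ℝ≥0∞)
    (H : ℝ → ℝ≥0∞) (hF : ∀ j ∈ J, Measurable (F j)) (hH : Measurable H) (C : ℝ≥0∞)
    (HH : ∀ z : α → ℝ, C * ∏ j ∈ J, (F j (z j)) ^ ((J.card : ℝ)⁻¹) ≤
      H ((J.card : ℝ)⁻¹ * ∑ j ∈ J, z j)) :
    C * ∏ j ∈ J, (∫⁻ x, F j x) ^ ((J.card : ℝ)⁻¹) ≤ ∫⁻ x, H x := by
  classical
  have hc : (0:ℝ) < J.card := by exact_mod_cast hJ.card_pos
  have hci : (0:ℝ) < (J.card : ℝ)⁻¹ := inv_pos.2 hc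
  obtain ⟨i, hi⟩ := hJ
  have hCk : (C ^ J.card) ^ ((J.card : ℝ)⁻¹) = C := by
    rw [← ENNReal.rpow_natCast, ← ENNReal.rpow_mul, mul_inv_cancel₀ hc.ne', ENNReal.rpow_one]
  have hsplit : ∀ a : α → ℝ≥0∞, ∏ j ∈ J, (if j = i then C ^ J.card * a j else a j) ^
      ((J.card : ℝ)⁻¹) = C * ∏ j ∈ J, (a j) ^ ((J.card : ℝ)⁻¹) := by
    intro a
    rw [← Finset.mul_prod_erase J _ hi, ← Finset.mul_prod_erase J (fun j => (a j) ^ _) hi]
    rw [if_pos rfl, ENNReal.mul_rpow_of_nonneg _ _ hci.le, hCk, mul_assoc]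
    congr 2
    refine Finset.prod_congr rfl fun j hj => ?_
    rw [if_neg (Finset.ne_of_mem_erase hj)]
  have main := pl_k J ⟨i, hi⟩ (fun j x => if j = i then C ^ J.card * F j x else F j x) H ?_ hH ?_
  · refine le_trans (le_of_eq ?_) main
    rw [← hsplit]
    refine Finset.prod_congr rfl fun j hj => ?_
    congr 1
    by_cases hji : j = i
    · simp only [hji, if_true]
      rw [lintegral_const_mul _ (hF i hi)]
    · simp only [hji, if_false]
  · intro j hj
    by_cases hji : j = i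
    · simp only [hji, if_true]
      exact (hF i hi).const_mul _
    · simp only [hji, if_false]
      exact hF j hj
  · intro z
    rw [hsplit]
    exact HH z

end Pool.Agent.Q189.SC
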