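import Pool.Agent.Q189.SC1

/-!
Borell-Brascamp-Lieb inequality on the line with negative exponent (helper189).
-/

set_option autoImplicit false

open Real Set Filter MeasureTheory
open scoped Topology ENNReal Pointwise

namespace Pool.Agent.Q189.SC

theorem rpow_neg_lt {a b : ℝ≥0∞} {c : ℝ} (hc : 0 < c) (h : a < b) : b ^ (-c) < a ^ (-c) := by
  rw [ENNReal.rpow_neg, ENNReal.rpow_neg, ENNReal.inv_lt_inv]
  exact ENNReal.rpow_lt_rpow h hc

theorem lt_of_rpow_neg_lt {a b : ℝ≥0∞} {c : ℝ} (hc : 0 < c) (h : b ^ (-c) < a ^ (-c)) : a < b := by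
  rw [ENNReal.rpow_neg, ENNReal.rpow_neg, ENNReal.inv_lt_inv] at h
  exact (ENNReal.rpow_lt_rpow_iff hc).1 h

theorem rpow_neg_le {a b : ℝ≥0∞} {c : ℝ} (hc : 0 < c) (h : a ≤ b) : b ^ (-c) ≤ a ^ (-c) := by
  rw [ENNReal.rpow_neg, ENNReal.rpow_neg, ENNReal.inv_le_inv]
  exact ENNReal.rpow_le_rpow h hc.le

/-- the final Hoelder step -/
theorem hoelder_step {d : ℝ} (hd : 0 < d) (a b X Y Z : ℝ≥0∞) (ha : a ≠ 0) (hat : a ≠ ∞)
    (hb : b ≠ 0) (hbt : b ≠ ∞) (hX : X ≠ 0) (hY : Y ≠ 0)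
    (h : X / a + Y / b ≤ (a ^ (-(1 / (d + 1))) + b ^ (-(1 / (d + 1)))) ^ (d + 1) * Z) :
    Z ^ (-(1 / d)) ≤ X ^ (-(1 / d)) + Y ^ (-(1 / d)) := by
  have hd1 : 0 < d + 1 := by linarith
  set c : ℝ≥0∞ := a ^ (-(1 / (d + 1))) + b ^ (-(1 / (d + 1))) with hc
  have hat' : a ^ (-(1 / (d + 1))) ≠ ∞ := by
    rw [ENNReal.rpow_neg, ENNReal.inv_ne_top]
    exact (ENNReal.rpow_pos (pos_iff_ne_zero.2 ha) hat).ne'
  have hbt' : b ^ (-(1 / (d + 1))) ≠ ∞ := by
    rw [ENNReal.rpow_neg, ENNReal.inv_ne_top]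
    exact (ENNReal.rpow_pos (pos_iff_ne_zero.2 hb) hbt).ne'
  have ha0' : a ^ (-(1 / (d + 1))) ≠ 0 := by
    rw [ENNReal.rpow_neg, ENNReal.inv_ne_zero]
    exact ENNReal.rpow_ne_top_of_nonneg (by positivity) hat
  have hct : c ≠ ∞ := ENNReal.add_ne_top.2 ⟨hat', hbt'⟩
  have hc0 : c ≠ 0 := by
    rw [hc]
    intro h0
    exact ha0' (add_eq_zero.1 h0).1
  by_cases hZ : Z = ∞
  · rw [hZ, ENNReal.rpow_neg, ENNReal.top_rpow_of_pos (by positivity), ENNReal.inv_top]
    exact zero_le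
  have hR : c ^ (d + 1) * Z ≠ ∞ :=
    ENNReal.mul_ne_top (ENNReal.rpow_ne_top_of_nonneg hd1.le hct) hZ
  have hL := ne_top_of_le_ne_top hR h
  have hXt : X ≠ ∞ := by
    rintro rfl
    apply hL
    rw [ENNReal.top_div_of_ne_top hat]
    simp
  have hYt : Y ≠ ∞ := by
    rintro rfl
    apply hL
    rw [ENNReal.top_div_of_ne_top hbt]
    simp
  -- real numbers
  set a' := a.toReal with ha'
  set b' := b.toReal with hb'
  set x := X.toReal with hx
  set y := Y.toReal with hy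
  set z := Z.toReal with hz
  have apos : 0 < a' := ENNReal.toReal_pos ha hat
  have bpos : 0 < b' := ENNReal.toReal_pos hb hbt
  have xpos : 0 < x := ENNReal.toReal_pos hX hXt
  have ypos : 0 < y := ENNReal.toReal_pos hY hYt
  have h1 := ENNReal.toReal_mono hR h
  rw [ENNReal.toReal_add (ENNReal.add_ne_top.1 hL).1 (ENNReal.add_ne_top.1 hL).2,
    ENNReal.toReal_div, ENNReal.toReal_div, ENNReal.toReal_mul, ← ENNReal.toReal_rpow, hc,
    ENNReal.toReal_add hat' hbt', ← ENNReal.toReal_rpow, ← ENNReal.toReal_rpow,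
    ← ha', ← hb', ← hx, ← hy, ← hz] at h1
  have zpos : 0 < z := by
    by_contra hcon
    have hz0 : z = 0 := le_antisymm (not_lt.1 hcon) ENNReal.toReal_nonneg
    rw [hz0, mul_zero] at h1
    have : 0 < x / a' + y / b' := by positivity
    linarith
  have hpq : (d + 1).HolderConjugate ((d + 1) / d) := by
    rw [Real.holderConjugate_iff]
    refine ⟨by linarith, ?_⟩
    field_simp
    ring
  have h2 := Real.inner_le_Lp_mul_Lq_of_nonneg (Finset.univ : Finset (Fin 2))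
    (f := ![(x / a') ^ (1 / (d + 1)), (y / b') ^ (1 / (d + 1))])
    (g := ![x ^ (-(1 / (d + 1))), y ^ (-(1 / (d + 1)))]) hpq
    (by intro i _; fin_cases i <;> simp <;> positivity)
    (by intro i _; fin_cases i <;> simp <;> positivity)
  simp only [Fin.sum_univ_two, Matrix.cons_val_zero, Matrix.cons_val_one] at h2
  have e1 : ∀ {u v : ℝ}, 0 < u → 0 < v →
      (u / v) ^ (1 / (d + 1)) * u ^ (-(1 / (d + 1))) = v ^ (-(1 / (d + 1))) := by
    intro u v hu hv
    rw [Real.div_rpow hu.le hv.le, Real.rpow_neg hu.le, Real.rpow_neg hv.le]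
    have := Real.rpow_pos_of_pos hu (1 / (d + 1))
    have := Real.rpow_pos_of_pos hv (1 / (d + 1))
    field_simp
  have e2 : ∀ {u : ℝ}, 0 < u → (u ^ (1 / (d + 1))) ^ (d + 1) = u := by
    intro u hu
    rw [← Real.rpow_mul hu.le, one_div_mul_cancel hd1.ne', Real.rpow_one]
  have e3 : ∀ {u : ℝ}, 0 < u → (u ^ (-(1 / (d + 1)))) ^ ((d + 1) / d) = u ^ (-(1 / d)) := by
    intro u hu
    rw [← Real.rpow_mul hu.le]
    congr 1
    field_simp
  rw [e1 xpos apos, e1 ypos bpos, e2 (by positivity), e2 (by positivity), e3 xpos, e3 ypos] at h2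
  -- c <= (X/a+Y/b)^(1/(d+1)) * S^(d/(d+1))
  set S : ℝ := x ^ (-(1 / d)) + y ^ (-(1 / d)) with hS
  have Spos : 0 < S := by positivity
  set cc : ℝ := a' ^ (-(1 / (d + 1))) + b' ^ (-(1 / (d + 1))) with hcc
  have ccpos : 0 < cc := by positivity
  have h3 : cc ^ (d + 1) ≤ (x / a' + y / b') * S ^ d := by
    calc cc ^ (d + 1) ≤ ((x / a' + y / b') ^ (1 / (d + 1)) * S ^ (1 / ((d + 1) / d))) ^ (d + 1) :=
          Real.rpow_le_rpow ccpos.le h2 hd1.le
      _ = (x / a' + y / b') * S ^ d := by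
          rw [Real.mul_rpow (by positivity) (by positivity), e2 (by positivity),
            ← Real.rpow_mul Spos.le]
          congr 2
          field_simp
  have h4 : 1 ≤ z * S ^ d := by
    have h5 : cc ^ (d + 1) ≤ cc ^ (d + 1) * (z * S ^ d) := by
      calc cc ^ (d + 1) ≤ (x / a' + y / b') * S ^ d := h3
        _ ≤ (cc ^ (d + 1) * z) * S ^ d := by gcongr
        _ = _ := by ring
    have h6 : 0 < cc ^ (d + 1) := by positivity
    by_contra hcon
    push Not at hcon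
    have := mul_lt_mul_of_pos_left hcon h6
    linarith
  have h5 : z ^ (-(1 / d)) ≤ S := by
    have h6 : (S ^ d)⁻¹ ≤ z := by
      rw [inv_le_iff_one_le_mul₀ (by positivity)]
      exact h4
    calc z ^ (-(1 / d)) ≤ ((S ^ d)⁻¹) ^ (-(1 / d)) :=
          Real.rpow_le_rpow_of_nonpos (by positivity) h6 (by
            rw [neg_nonpos]; positivity)
      _ = S := by
          rw [← Real.rpow_neg Spos.le, ← Real.rpow_mul Spos.le]
          have : -d * -(1 / d) = 1 := by field_simp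
          rw [this, Real.rpow_one]
  have hZ0 : Z ≠ 0 := by
    intro h0
    rw [hz, h0] at zpos
    simp at zpos
  have f1 : ∀ {U : ℝ≥0∞}, U ≠ 0 → U ≠ ∞ → U ^ (-(1 / d)) = ENNReal.ofReal (U.toReal ^ (-(1 / d))) := by
    intro U h0 ht
    rw [← ENNReal.ofReal_rpow_of_pos (ENNReal.toReal_pos h0 ht), ENNReal.ofReal_toReal ht]
  rw [f1 hZ0 hZ, f1 hX hXt, f1 hY hYt, ← ENNReal.ofReal_add (by positivity) (by positivity)]
  exact ENNReal.ofReal_le_ofReal h5

theorem bbl_bdd {d : ℝ} (hd : 0 < d) (F G H : ℝ → ℝ≥0∞) (hF : Measurable F) (hG : Measurable G)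
    (hH : Measurable H) (M : ℝ≥0∞) (hM : M ≠ ∞) (hFM : ∀ x, F x ≤ M) (hGM : ∀ x, G x ≤ M)
    (HH : ∀ u v, (H (u + v)) ^ (-(1 / (d + 1))) ≤
      (F u) ^ (-(1 / (d + 1))) + (G v) ^ (-(1 / (d + 1)))) :
    (∫⁻ x, H x) ^ (-(1 / d)) ≤ (∫⁻ x, F x) ^ (-(1 / d)) + (∫⁻ x, G x) ^ (-(1 / d)) := by
  have hd1 : 0 < d + 1 := by linarith
  have hd' : 0 < 1 / d := by positivity
  have hd1' : 0 < 1 / (d + 1) := by positivity
  by_cases hX : ∫⁻ x, F x = 0
  · rw [hX, ENNReal.zero_rpow_of_neg (neg_neg_of_pos hd'), top_add]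
    exact le_top
  by_cases hY : ∫⁻ x, G x = 0
  · rw [hY, ENNReal.zero_rpow_of_neg (neg_neg_of_pos hd'), add_top]
    exact le_top
  set a := ⨆ x, F x with ha
  set b := ⨆ x, G x with hb
  have hat : a ≠ ∞ := ne_top_of_le_ne_top hM (iSup_le hFM)
  have hbt : b ≠ ∞ := ne_top_of_le_ne_top hM (iSup_le hGM)
  have ha0 : a ≠ 0 := by
    intro h0
    apply hX
    have : ∀ x, F x = 0 := fun x => le_antisymm (by rw [← h0]; exact le_iSup F x) zero_le
    simp [this]
  have hb0 : b ≠ 0 := by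
    intro h0
    apply hY
    have : ∀ x, G x = 0 := fun x => le_antisymm (by rw [← h0]; exact le_iSup G x) zero_le
    simp [this]
  set c : ℝ≥0∞ := a ^ (-(1 / (d + 1))) + b ^ (-(1 / (d + 1))) with hc
  have hat' : a ^ (-(1 / (d + 1))) ≠ ∞ := by
    rw [ENNReal.rpow_neg, ENNReal.inv_ne_top]
    exact (ENNReal.rpow_pos (pos_iff_ne_zero.2 ha0) hat).ne'
  have hbt' : b ^ (-(1 / (d + 1))) ≠ ∞ := by
    rw [ENNReal.rpow_neg, ENNReal.inv_ne_top]
    exact (ENNReal.rpow_pos (pos_iff_ne_zero.2 hb0) hbt).ne'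
  have ha0' : a ^ (-(1 / (d + 1))) ≠ 0 := by
    rw [ENNReal.rpow_neg, ENNReal.inv_ne_zero]
    exact ENNReal.rpow_ne_top_of_nonneg (by positivity) hat
  have hct : c ≠ ∞ := ENNReal.add_ne_top.2 ⟨hat', hbt'⟩
  have hc0 : c ≠ 0 := by
    rw [hc]
    intro h0
    exact ha0' (add_eq_zero.1 h0).1
  refine hoelder_step hd a b _ _ _ ha0 hat hb0 hbt hX hY ?_
  have key := min_pl (Finset.univ : Finset (Fin 2)) ![fun x => a⁻¹ * F x, fun x => b⁻¹ * G x]
    (fun x => c ^ (d + 1) * H x)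
    (by
      intro j _
      fin_cases j
      · exact hF.const_mul _
      · exact hG.const_mul _) (hH.const_mul _)
    (by
      intro j _ x
      fin_cases j
      · change a⁻¹ * F x ≤ 1
        rw [mul_comm, ← div_eq_mul_inv]
        exact ENNReal.div_le_of_le_mul (by rw [one_mul]; exact le_iSup F x)
      · change b⁻¹ * G x ≤ 1
        rw [mul_comm, ← div_eq_mul_inv]
        exact ENNReal.div_le_of_le_mul (by rw [one_mul]; exact le_iSup G x))
    (by
      intro j _ s hs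
      fin_cases j
      · have h1 : s * a < a := by
          calc s * a < 1 * a := ENNReal.mul_lt_mul_left ha0 hat hs
            _ = a := one_mul _
        obtain ⟨x, hx⟩ := lt_iSup_iff.1 h1
        refine ⟨x, ?_⟩
        change s < a⁻¹ * F x
        rw [mul_comm, ← div_eq_mul_inv]
        rwa [ENNReal.lt_div_iff_mul_lt (Or.inl ha0) (Or.inl hat)]
      · have h1 : s * b < b := by
          calc s * b < 1 * b := ENNReal.mul_lt_mul_left hb0 hbt hs
            _ = b := one_mul _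
        obtain ⟨x, hx⟩ := lt_iSup_iff.1 h1
        refine ⟨x, ?_⟩
        change s < b⁻¹ * G x
        rw [mul_comm, ← div_eq_mul_inv]
        rwa [ENNReal.lt_div_iff_mul_lt (Or.inl hb0) (Or.inl hbt)])
    (by
      intro z s hs hz
      have z0 : s < a⁻¹ * F (z 0) := hz 0 (Finset.mem_univ _)
      have z1 : s < b⁻¹ * G (z 1) := hz 1 (Finset.mem_univ _)
      rw [mul_comm, ← div_eq_mul_inv,
        ENNReal.lt_div_iff_mul_lt (Or.inl ha0) (Or.inl hat)] at z0
      rw [mul_comm, ← div_eq_mul_inv,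
        ENNReal.lt_div_iff_mul_lt (Or.inl hb0) (Or.inl hbt)] at z1
      rw [Fin.sum_univ_two]
      have h1 := HH (z 0) (z 1)
      have h2 := rpow_neg_lt hd1' z0
      have h3 := rpow_neg_lt hd1' z1
      have h4 : (H (z 0 + z 1)) ^ (-(1 / (d + 1))) <
          (s * a) ^ (-(1 / (d + 1))) + (s * b) ^ (-(1 / (d + 1))) :=
        h1.trans_lt (ENNReal.add_lt_add h2 h3)
      have hmulneg : ∀ {u : ℝ≥0∞}, u ≠ 0 → u ≠ ∞ → (s * u) ^ (-(1 / (d + 1))) =
          s ^ (-(1 / (d + 1))) * u ^ (-(1 / (d + 1))) := by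
        intro u hu0 hut
        rw [ENNReal.rpow_neg, ENNReal.rpow_neg, ENNReal.rpow_neg,
          ENNReal.mul_rpow_of_nonneg _ _ hd1'.le, ENNReal.mul_inv]
        · right; exact ENNReal.rpow_ne_top_of_nonneg hd1'.le hut
        · right; exact (ENNReal.rpow_pos (pos_iff_ne_zero.2 hu0) hut).ne'
      rw [hmulneg ha0 hat, hmulneg hb0 hbt, ← mul_add, ← hc] at h4
      have h5 : c = (c ^ (-(d + 1))) ^ (-(1 / (d + 1))) := by
        rw [← ENNReal.rpow_mul]
        have : -(d + 1) * -(1 / (d + 1)) = 1 := by field_simp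
        rw [this, ENNReal.rpow_one]
      have hcn0 : c ^ (-(d + 1)) ≠ 0 := by
        rw [ENNReal.rpow_neg, ENNReal.inv_ne_zero]
        exact ENNReal.rpow_ne_top_of_nonneg hd1.le hct
      have hcnt : c ^ (-(d + 1)) ≠ ∞ := by
        rw [ENNReal.rpow_neg, ENNReal.inv_ne_top]
        exact (ENNReal.rpow_pos (pos_iff_ne_zero.2 hc0) hct).ne'
      rw [h5, ← hmulneg hcn0 hcnt] at h4
      have h6 := lt_of_rpow_neg_lt hd1' h4
      rw [ENNReal.rpow_neg, ← div_eq_mul_inv, ENNReal.div_lt_iff] at h6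
      · rwa [mul_comm]
      · left
        exact (ENNReal.rpow_pos (pos_iff_ne_zero.2 hc0) hct).ne'
      · left
        exact ENNReal.rpow_ne_top_of_nonneg hd1.le hct)
  rw [Fin.sum_univ_two] at key
  change (∫⁻ x, a⁻¹ * F x) + (∫⁻ x, b⁻¹ * G x) ≤ _ at key
  rw [lintegral_const_mul _ hF, lintegral_const_mul _ hG, lintegral_const_mul _ hH] at key
  rw [div_eq_mul_inv, div_eq_mul_inv, mul_comm _ a⁻¹, mul_comm _ b⁻¹]
  exact key

/-- Borell-Brascamp-Lieb on the line with exponent `-1/(d+1)` -/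
theorem bbl {d : ℝ} (hd : 0 < d) (F G H : ℝ → ℝ≥0∞) (hF : Measurable F) (hG : Measurable G)
    (hH : Measurable H)
    (HH : ∀ u v, (H (u + v)) ^ (-(1 / (d + 1))) ≤
      (F u) ^ (-(1 / (d + 1))) + (G v) ^ (-(1 / (d + 1)))) :
    (∫⁻ x, H x) ^ (-(1 / d)) ≤ (∫⁻ x, F x) ^ (-(1 / d)) + (∫⁻ x, G x) ^ (-(1 / d)) := by
  have hd1 : 0 < d + 1 := by linarith
  have hd' : 0 < 1 / d := by positivity
  have hd1' : 0 < 1 / (d + 1) := by positivity
  have key : ∀ n : ℕ, (∫⁻ x, H x) ^ (-(1 / d)) ≤ (∫⁻ x, min (F x) (n : ℝ≥0∞)) ^ (-(1 / d)) +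
      (∫⁻ x, min (G x) (n : ℝ≥0∞)) ^ (-(1 / d)) := by
    intro n
    refine bbl_bdd hd _ _ H (hF.min measurable_const) (hG.min measurable_const) hH n (by simp)
      (fun x => min_le_right _ _) (fun x => min_le_right _ _) ?_
    intro u v
    refine (HH u v).trans (add_le_add ?_ ?_)
    · exact rpow_neg_le hd1' (min_le_left _ _)
    · exact rpow_neg_le hd1' (min_le_left _ _)
  have hlim : ∀ K : ℝ → ℝ≥0∞, Measurable K →
      Tendsto (fun n : ℕ => (∫⁻ x, min (K x) (n : ℝ≥0∞)) ^ (-(1 / d))) atTop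
        (𝓝 ((∫⁻ x, K x) ^ (-(1 / d)))) := by
    intro K hK
    have hmono : Monotone fun n : ℕ => ∫⁻ x, min (K x) (n : ℝ≥0∞) := by
      intro p q hpq
      refine lintegral_mono fun x => ?_
      simp only
      gcongr
    have h1 := tendsto_atTop_iSup hmono
    rw [← lint_trunc K hK] at h1
    exact (ENNReal.continuous_rpow_const.tendsto _).comp h1
  exact le_of_tendsto_of_tendsto' tendsto_const_nhds ((hlim F hF).add (hlim G hG)) key

end Pool.Agent.Q189.SC
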