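import Pool.Agent.Q189.SC2

/-!
The functional dual Bollobas-Thomason inequality of Liakopoulos, by induction over the
coordinates (helper189).
-/

set_option autoImplicit false

open Real Set Filter MeasureTheory
open scoped Topology ENNReal Pointwise

namespace Pool.Agent.Q189.SC

/-- the integral over the coordinates in `s` -/
noncomputable abbrev LM {ι : Type*} [DecidableEq ι] (s : Finset ι) (f : (ι → ℝ) → ℝ≥0∞) :
    (ι → ℝ) → ℝ≥0∞ := lmarginal (fun _ => (volume : Measure ℝ)) s f

theorem liak {ι α : Type*} [DecidableEq ι] (J : Finset α) (k : ℕ) (hk : 0 < k)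
    (S : Finset ι) : ∀ (τ : α → Finset ι) (G : (ι → ℝ) → ℝ≥0∞) (Gj : α → (ι → ℝ) → ℝ≥0∞),
    Measurable G → (∀ j ∈ J, Measurable (Gj j)) → (∀ j ∈ J, τ j ⊆ S) →
    (∀ i ∈ S, (J.filter (fun j => i ∈ τ j)).card = k) →
    (∀ x : α → ι → ℝ, (∀ j ∈ J, ∀ i, i ∉ τ j → x j i = 0) →
      ∏ j ∈ J, (Gj j (x j)) ^ ((k : ℝ)⁻¹) ≤ G ((k : ℝ)⁻¹ • ∑ j ∈ J, x j)) →
    ∏ j ∈ J, (LM (τ j) (Gj j) 0) ^ ((k : ℝ)⁻¹) ≤ LM S G 0 := by
  classical
  induction S using Finset.induction_on with
  | empty =>
    intro τ G Gj hG hGj hτ hcov H
    have h1 := H (fun _ => 0) (fun j _ i _ => rfl)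
    have h2 : ((k : ℝ)⁻¹ • ∑ j ∈ J, (fun _ : α => (0 : ι → ℝ)) j) = 0 := by simp
    rw [h2] at h1
    rw [LM, lmarginal_empty]
    refine le_trans (le_of_eq (Finset.prod_congr rfl fun j hj => ?_)) h1
    have : τ j = ∅ := Finset.subset_empty.1 (hτ j hj)
    rw [LM, this, lmarginal_empty]
  | insert a S ha ih =>
    intro τ G Gj hG hGj hτ hcov H
    set Ja := J.filter (fun j => a ∈ τ j) with hJa
    have hcard : Ja.card = k := hcov a (Finset.mem_insert_self a S)
    have hJane : Ja.Nonempty := by
      rw [← Finset.card_pos, hcard]; exact hk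
    have hupd : ∀ z : ℝ, Measurable fun x : ι → ℝ => Function.update x a z := fun z =>
      measurable_update_left
    have hupd2 : Measurable fun z : ℝ => Function.update (0 : ι → ℝ) a z := measurable_update _
    -- the frozen functions
    set HH : ℝ → ℝ≥0∞ := fun z => LM S G (Function.update 0 a z) with hHH
    set Hj : α → ℝ → ℝ≥0∞ := fun j z => LM ((τ j).erase a) (Gj j) (Function.update 0 a z) with hHj
    set C : ℝ≥0∞ := ∏ j ∈ J.filter (fun j => a ∉ τ j), (LM (τ j) (Gj j) 0) ^ ((k : ℝ)⁻¹) with hC
    have e1 : LM (insert a S) G 0 = ∫⁻ z, HH z := by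
      rw [LM, lmarginal_insert _ hG ha]
    have e2 : ∀ j ∈ Ja, LM (τ j) (Gj j) 0 = ∫⁻ z, Hj j z := by
      intro j hj
      rw [LM, lmarginal_erase _ (hGj j (Finset.mem_filter.1 hj).1) (Finset.mem_filter.1 hj).2]
    have hmain : ∀ z : α → ℝ, C * ∏ j ∈ Ja, (Hj j (z j)) ^ ((Ja.card : ℝ)⁻¹) ≤
        HH ((Ja.card : ℝ)⁻¹ * ∑ j ∈ Ja, z j) := by
      intro z
      rw [hcard]
      have h1 := ih (fun j => (τ j).erase a)
        (fun x => G (Function.update x a ((k : ℝ)⁻¹ * ∑ j ∈ Ja, z j)))
        (fun j x => if a ∈ τ j then Gj j (Function.update x a (z j)) else Gj j x)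
        (hG.comp (hupd _)) ?_ ?_ ?_ ?_
      · refine le_trans (le_of_eq ?_) (h1.trans (le_of_eq ?_))
        · rw [← Finset.prod_filter_mul_prod_filter_not J (fun j => a ∈ τ j), mul_comm]
          congr 1
          · refine Finset.prod_congr rfl fun j hj => ?_
            have hj' := (Finset.mem_filter.1 hj).2
            simp only [hj', if_true]
            congr 1
            rw [hHj]
            simp only
            rw [LM, lmarginal_update_of_notMem (hGj j (Finset.mem_filter.1 hj).1)
              (Finset.notMem_erase a _)]
            rfl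
          · refine Finset.prod_congr rfl fun j hj => ?_
            have hj' := (Finset.mem_filter.1 hj).2
            simp only [hj', if_false]
            rw [Finset.erase_eq_of_notMem hj']
        · rw [hHH]
          simp only
          rw [LM, LM, lmarginal_update_of_notMem hG ha]
          rfl
      · intro j hj
        by_cases h : a ∈ τ j
        · simp only [h, if_true]
          exact (hGj j hj).comp (hupd _)
        · simp only [h, if_false]
          exact hGj j hj
      · intro j hj i hi
        have h2 := Finset.mem_of_mem_erase hi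
        have h3 := Finset.ne_of_mem_erase hi
        exact (Finset.mem_insert.1 (hτ j hj h2)).resolve_left h3
      · intro i hi
        rw [← hcov i (Finset.mem_insert_of_mem hi)]
        congr 1
        refine Finset.filter_congr fun j _ => ?_
        rw [Finset.mem_erase]
        constructor
        · exact fun h => h.2
        · intro h
          exact ⟨fun h' => ha (h' ▸ hi), h⟩
      · intro x hx
        have hx0 : ∀ j ∈ J, x j a = 0 := fun j hj => hx j hj a (Finset.notMem_erase a _)
        have h2 := H (fun j => if a ∈ τ j then Function.update (x j) a (z j) else x j) (by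
          intro j hj i hi
          by_cases h : a ∈ τ j
          · simp only [h, if_true]
            have hia : i ≠ a := fun h' => hi (h' ▸ h)
            rw [Function.update_of_ne hia]
            exact hx j hj i fun h' => hi (Finset.mem_of_mem_erase h')
          · simp only [h, if_false]
            exact hx j hj i fun h' => hi (Finset.mem_of_mem_erase h'))
        refine le_trans (le_of_eq ?_) (h2.trans (le_of_eq ?_))
        · refine Finset.prod_congr rfl fun j _ => ?_
          by_cases h : a ∈ τ j
          · simp only [h, if_true]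
          · simp only [h, if_false]
        · congr 1
          ext i
          by_cases hia : i = a
          · subst hia
            rw [Function.update_self]
            simp only [Pi.smul_apply, smul_eq_mul, Finset.sum_apply]
            congr 1
            rw [hJa, Finset.sum_filter]
            refine Finset.sum_congr rfl fun j hj => ?_
            by_cases h : i ∈ τ j
            · simp [h]
            · simp [h, hx0 j hj]
          · rw [Function.update_of_ne hia]
            simp only [Pi.smul_apply, smul_eq_mul, Finset.sum_apply]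
            congr 1
            refine Finset.sum_congr rfl fun j hj => ?_
            by_cases h : a ∈ τ j
            · simp [h, Function.update_of_ne hia]
            · simp [h]
    have hmH : Measurable HH := (hG.lmarginal _).comp hupd2
    have hmHj : ∀ j ∈ Ja, Measurable (Hj j) := fun j hj =>
      ((hGj j (Finset.mem_filter.1 hj).1).lmarginal _).comp hupd2
    have key := pl_k_const Ja hJane Hj HH hmHj hmH C hmain
    rw [hcard] at key
    rw [e1]
    refine le_trans (le_of_eq ?_) key
    rw [← Finset.prod_filter_mul_prod_filter_not J (fun j => a ∈ τ j), mul_comm]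
    congr 1
    refine Finset.prod_congr rfl fun j hj => ?_
    rw [e2 j hj]

end Pool.Agent.Q189.SC
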