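import Pool.Agent.Q189.SC3

/-!
Integration along rays (helper189).
-/

set_option autoImplicit false

open Real Set Filter MeasureTheory
open scoped Topology ENNReal Pointwise

namespace Pool.Agent.Q189.SC

/-- the decreasing exponential on `[0,∞]` -/
noncomputable def ex (a : ℝ≥0∞) : ℝ≥0∞ := if a = ∞ then 0 else ENNReal.ofReal (Real.exp (-a.toReal))

theorem ex_top : ex ∞ = 0 := by simp [ex]

theorem ex_of_ne {a : ℝ≥0∞} (h : a ≠ ∞) : ex a = ENNReal.ofReal (Real.exp (-a.toReal)) := by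
  simp [ex, h]

theorem ex_zero : ex 0 = 1 := by simp [ex]

theorem ex_anti : Antitone ex := by
  intro a b hab
  by_cases hb : b = ∞
  · rw [hb, ex_top]; exact zero_le
  · have ha : a ≠ ∞ := ne_top_of_le_ne_top hb hab
    rw [ex_of_ne ha, ex_of_ne hb]
    refine ENNReal.ofReal_le_ofReal (Real.exp_le_exp.2 ?_)
    have := ENNReal.toReal_mono hb hab
    linarith

theorem ex_le_one (a : ℝ≥0∞) : ex a ≤ 1 := by
  rw [← ex_zero]
  exact ex_anti zero_le

theorem ex_meas : Measurable ex := ex_anti.measurable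

theorem ex_add (a b : ℝ≥0∞) : ex (a + b) = ex a * ex b := by
  by_cases ha : a = ∞
  · simp [ha, ex_top]
  by_cases hb : b = ∞
  · simp [hb, ex_top]
  rw [ex_of_ne ha, ex_of_ne hb, ex_of_ne (ENNReal.add_ne_top.2 ⟨ha, hb⟩),
    ← ENNReal.ofReal_mul (Real.exp_pos _).le, ← Real.exp_add, ENNReal.toReal_add ha hb]
  congr 2
  ring

theorem ex_sum {α : Type*} (J : Finset α) (a : α → ℝ≥0∞) :
    ex (∑ j ∈ J, a j) = ∏ j ∈ J, ex (a j) := by
  classical
  induction J using Finset.induction_on with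
  | empty => simp [ex_zero]
  | insert i J hi ih => rw [Finset.sum_insert hi, Finset.prod_insert hi, ex_add, ih]

theorem ex_mul {c : ℝ} (hc : 0 < c) (a : ℝ≥0∞) : ex (ENNReal.ofReal c * a) = (ex a) ^ c := by
  by_cases ha : a = ∞
  · rw [ha, ENNReal.mul_top (by simpa using hc), ex_top, ENNReal.zero_rpow_of_pos hc]
  · rw [ex_of_ne ha, ex_of_ne (ENNReal.mul_ne_top ENNReal.ofReal_ne_top ha),
      ENNReal.ofReal_rpow_of_pos (Real.exp_pos _), ENNReal.toReal_mul,
      ENNReal.toReal_ofReal hc.le, ← Real.exp_mul]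
    congr 2
    ring

/-- the Gamma integral -/
theorem ex_gamma {p : ℕ} (hp : 0 < p) (a : ℝ≥0∞) :
    ∫⁻ r in Ioi (0:ℝ), ENNReal.ofReal (r ^ (p - 1)) * ex (ENNReal.ofReal r * a) =
      ((p - 1).factorial : ℝ≥0∞) * a ^ (-(p:ℝ)) := by
  have hp' : (0:ℝ) < p := by exact_mod_cast hp
  rcases eq_or_ne a ∞ with ha | ha
  · rw [ha, ENNReal.rpow_neg, ENNReal.top_rpow_of_pos hp', ENNReal.inv_top, mul_zero]
    rw [setLIntegral_congr_fun (g := fun _ => 0) measurableSet_Ioi]
    · simp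
    · intro r hr
      simp only
      rw [ENNReal.mul_top (by simpa using hr), ex_top, mul_zero]
  rcases eq_or_ne a 0 with ha0 | ha0
  · rw [ha0, ENNReal.zero_rpow_of_neg (by linarith), ENNReal.mul_top (by
      exact_mod_cast Nat.factorial_ne_zero _)]
    refine le_antisymm le_top ?_
    have h1 : (∞ : ℝ≥0∞) = ∫⁻ r in Ioi (1:ℝ), 1 := by simp
    rw [h1]
    have h2 : Ioi (1:ℝ) ⊆ Ioi 0 := Ioi_subset_Ioi zero_le_one
    refine le_trans ?_ (lintegral_mono_set h2)
    refine setLIntegral_mono' measurableSet_Ioi fun r hr => ?_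
    rw [mul_zero, ex_zero, mul_one, ← ENNReal.ofReal_one]
    exact ENNReal.ofReal_le_ofReal (one_le_pow₀ (le_of_lt hr))
  · have hapos : 0 < a.toReal := ENNReal.toReal_pos ha0 ha
    have h1 := Real.integral_rpow_mul_exp_neg_mul_Ioi (a := (p:ℝ)) (r := a.toReal) hp' hapos
    have hint : IntegrableOn (fun t : ℝ => t ^ ((p:ℝ) - 1) * Real.exp (-(a.toReal * t))) (Ioi 0) := by
      have := integrableOn_rpow_mul_exp_neg_mul_rpow (s := (p:ℝ) - 1) (p := 1) (by linarith)
        one_pos hapos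
      refine this.congr_fun ?_ measurableSet_Ioi
      intro t ht
      simp
    have e1 : ∫⁻ r in Ioi (0:ℝ), ENNReal.ofReal (r ^ (p - 1)) * ex (ENNReal.ofReal r * a) =
        ∫⁻ r in Ioi (0:ℝ), ENNReal.ofReal (r ^ ((p:ℝ) - 1) * Real.exp (-(a.toReal * r))) := by
      refine setLIntegral_congr_fun measurableSet_Ioi fun r hr => ?_
      have hr' : (0:ℝ) < r := hr
      rw [ex_of_ne (ENNReal.mul_ne_top ENNReal.ofReal_ne_top ha), ENNReal.toReal_mul,
        ENNReal.toReal_ofReal hr'.le, ← ENNReal.ofReal_mul (by positivity)]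
      congr 2
      · rw [← Real.rpow_natCast, Nat.cast_sub hp, Nat.cast_one]
      · ring_nf
    rw [e1, ← ofReal_integral_eq_lintegral_ofReal hint, h1]
    · obtain ⟨q, rfl⟩ : ∃ q, p = q + 1 := ⟨p - 1, by omega⟩
      have hg : Real.Gamma ((q + 1 : ℕ) : ℝ) = (q.factorial : ℝ) := by
        rw [Nat.cast_succ]
        exact Real.Gamma_nat_eq_factorial q
      rw [hg, Nat.add_sub_cancel, mul_comm, ENNReal.ofReal_mul (by positivity),
        ENNReal.ofReal_natCast, ENNReal.rpow_neg]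
      congr 1
      rw [one_div, Real.inv_rpow hapos.le, ENNReal.ofReal_inv_of_pos (by positivity),
        ← ENNReal.ofReal_rpow_of_pos hapos, ENNReal.ofReal_toReal ha]
    · refine (ae_restrict_iff' measurableSet_Ioi).2 (ae_of_all _ fun t ht => ?_)
      have ht' : (0:ℝ) < t := ht
      simp only [Pi.zero_apply]
      positivity

theorem lint_pow_Ioc {p : ℕ} (hp : 0 < p) {a : ℝ} (ha : 0 < a) :
    ∫⁻ r in Ioc 0 a, ENNReal.ofReal (r ^ (p - 1)) = ENNReal.ofReal (a ^ p / p) := by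
  obtain ⟨q, rfl⟩ : ∃ q, p = q + 1 := ⟨p - 1, by omega⟩
  rw [Nat.add_sub_cancel]
  have hint : IntegrableOn (fun r : ℝ => r ^ q) (Ioc 0 a) :=
    ((continuous_pow q).integrableOn_Icc).mono_set Ioc_subset_Icc_self
  rw [← ofReal_integral_eq_lintegral_ofReal hint
    ((ae_restrict_iff' measurableSet_Ioc).2 (ae_of_all _ fun r hr => pow_nonneg hr.1.le q)),
    ← intervalIntegral.integral_of_le ha.le, integral_pow]
  congr 1
  simp

/-- comparison of two moments of a function with values in `[0,1]` -/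
theorem moment_le {p q : ℕ} (hp : 0 < p) (hpq : p ≤ q) (h : ℝ → ℝ≥0∞) (hh : Measurable h)
    (h1 : ∀ r, h r ≤ 1) :
    (p : ℝ≥0∞) * ∫⁻ r in Ioi (0:ℝ), ENNReal.ofReal (r ^ (p - 1)) * h r ≤
      ((q : ℝ≥0∞) * ∫⁻ r in Ioi (0:ℝ), ENNReal.ofReal (r ^ (q - 1)) * h r) ^ ((p:ℝ) / q) := by
  have hq : 0 < q := lt_of_lt_of_le hp hpq
  have hp' : (0:ℝ) < p := by exact_mod_cast hp
  have hq' : (0:ℝ) < q := by exact_mod_cast hq
  set X := ∫⁻ r in Ioi (0:ℝ), ENNReal.ofReal (r ^ (q - 1)) * h r with hX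
  set Y := ∫⁻ r in Ioi (0:ℝ), ENNReal.ofReal (r ^ (p - 1)) * h r with hY
  have key : ∀ a : ℝ, 0 < a → ENNReal.ofReal (a ^ (q - p)) * Y + ENNReal.ofReal (a ^ q / q) ≤
      X + ENNReal.ofReal (a ^ (q - p)) * ENNReal.ofReal (a ^ p / p) := by
    intro a ha
    have m1 : Measurable fun r : ℝ => ENNReal.ofReal (r ^ (p - 1)) * h r := by fun_prop
    have m2 : Measurable fun r : ℝ => ENNReal.ofReal (r ^ (q - 1)) * h r := by fun_prop
    have m3 : Measurable fun r : ℝ => ENNReal.ofReal (r ^ (p - 1)) := by fun_prop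
    have m4 : Measurable fun r : ℝ => ENNReal.ofReal (r ^ (q - 1)) := by fun_prop
    have hIoc : ∀ f : ℝ → ℝ≥0∞, ∫⁻ r in Ioc 0 a, f r =
        ∫⁻ r in Ioi (0:ℝ), (Ioc 0 a).indicator f r := by
      intro f
      rw [setLIntegral_indicator measurableSet_Ioc]
      congr 2
      ext r
      simp only [mem_inter_iff, mem_Ioc, mem_Ioi]
      tauto
    rw [← lint_pow_Ioc hq ha, ← lint_pow_Ioc hp ha, hIoc, hIoc, hX, hY,
      ← lintegral_const_mul _ m1, ← lintegral_const_mul _ (m3.indicator measurableSet_Ioc),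
      ← lintegral_add_left (m1.const_mul _), ← lintegral_add_left m2]
    refine setLIntegral_mono' measurableSet_Ioi fun r hr => ?_
    have hr0 : (0:ℝ) < r := hr
    have ht : h r ≠ ∞ := ne_top_of_le_ne_top ENNReal.one_ne_top (h1 r)
    obtain ⟨y, hy0, hy1, hy⟩ : ∃ y : ℝ, 0 ≤ y ∧ y ≤ 1 ∧ h r = ENNReal.ofReal y := by
      refine ⟨(h r).toReal, ENNReal.toReal_nonneg, ?_, (ENNReal.ofReal_toReal ht).symm⟩
      have := ENNReal.toReal_mono ENNReal.one_ne_top (h1 r)
      simpa using this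
    rw [hy]
    have hsplit : r ^ (q - 1) = r ^ (q - p) * r ^ (p - 1) := by
      rw [← pow_add]; congr 1; omega
    by_cases hra : r ≤ a
    · have hmem : r ∈ Ioc 0 a := ⟨hr0, hra⟩
      rw [indicator_of_mem hmem, indicator_of_mem hmem, ← ENNReal.ofReal_mul (by positivity),
        ← ENNReal.ofReal_mul (by positivity), ← ENNReal.ofReal_mul (by positivity),
        ← ENNReal.ofReal_mul (by positivity),
        ← ENNReal.ofReal_add (by positivity) (by positivity),
        ← ENNReal.ofReal_add (by positivity) (by positivity)]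
      refine ENNReal.ofReal_le_ofReal ?_
      rw [hsplit]
      have h2 : r ^ (q - p) ≤ a ^ (q - p) := pow_le_pow_left₀ hr0.le hra _
      have h3 : 0 < r ^ (p - 1) := by positivity
      nlinarith [mul_nonneg (mul_nonneg (sub_nonneg.2 h2) h3.le) (sub_nonneg.2 hy1)]
    · have hmem : r ∉ Ioc 0 a := fun h => hra h.2
      rw [indicator_of_notMem hmem, indicator_of_notMem hmem, mul_zero, add_zero, add_zero,
        ← ENNReal.ofReal_mul (by positivity), ← ENNReal.ofReal_mul (by positivity),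
        ← ENNReal.ofReal_mul (by positivity)]
      refine ENNReal.ofReal_le_ofReal ?_
      rw [hsplit]
      have h2 : a ^ (q - p) ≤ r ^ (q - p) := pow_le_pow_left₀ ha.le (not_le.1 hra).le _
      have h3 : 0 < r ^ (p - 1) := by positivity
      nlinarith [mul_nonneg (mul_nonneg (sub_nonneg.2 h2) h3.le) hy0]
  have hpq' : 0 < (p:ℝ) / q := by positivity
  rcases eq_or_ne Y ∞ with hYt | hYt
  · have h2 := key 1 one_pos
    rw [hYt, one_pow, one_pow, one_pow] at h2
    simp only [ENNReal.ofReal_one, one_mul, top_add] at h2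
    have h3 : X = ∞ := by
      by_contra hcon
      exact absurd (top_le_iff.1 h2) (ENNReal.add_ne_top.2 ⟨hcon, ENNReal.ofReal_ne_top⟩)
    rw [h3, ENNReal.mul_top (by exact_mod_cast hq.ne'), ENNReal.top_rpow_of_pos hpq']
    exact le_top
  rcases eq_or_ne Y 0 with hY0 | hY0
  · rw [hY0, mul_zero]; exact zero_le
  have hy : 0 < Y.toReal := ENNReal.toReal_pos hY0 hYt
  set a : ℝ := ((p:ℝ) * Y.toReal) ^ (1 / (p:ℝ)) with ha
  have ha0 : 0 < a := by positivity
  have hap : a ^ p = p * Y.toReal := by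
    rw [ha, ← Real.rpow_natCast, ← Real.rpow_mul (by positivity), one_div_mul_cancel hp'.ne',
      Real.rpow_one]
  have h2 := key a ha0
  have e1 : ENNReal.ofReal (a ^ p / p) = Y := by
    rw [hap, mul_div_cancel_left₀ _ hp'.ne', ENNReal.ofReal_toReal hYt]
  rw [e1, add_comm X] at h2
  have h3 : ENNReal.ofReal (a ^ q / q) ≤ X :=
    (ENNReal.add_le_add_iff_left (ENNReal.mul_ne_top ENNReal.ofReal_ne_top hYt)).1 h2
  calc (p : ℝ≥0∞) * Y = ENNReal.ofReal (a ^ p) := by
        rw [hap, ENNReal.ofReal_mul hp'.le, ENNReal.ofReal_natCast, ENNReal.ofReal_toReal hYt]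
    _ = (ENNReal.ofReal (a ^ q)) ^ ((p:ℝ) / q) := by
        rw [ENNReal.ofReal_rpow_of_pos (by positivity), ← Real.rpow_natCast, ← Real.rpow_natCast,
          ← Real.rpow_mul ha0.le]
        congr 2
        field_simp
    _ ≤ ((q : ℝ≥0∞) * X) ^ ((p:ℝ) / q) := by
        refine ENNReal.rpow_le_rpow ?_ hpq'.le
        calc ENNReal.ofReal (a ^ q) = (q : ℝ≥0∞) * ENNReal.ofReal (a ^ q / q) := by
              rw [← ENNReal.ofReal_natCast, ← ENNReal.ofReal_mul hq'.le, mul_div_cancel₀ _ hq'.ne']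
          _ ≤ _ := by gcongr

/-- indicator of a shell -/
noncomputable def shell {κ : Type*} [Fintype κ] (y : κ → ℝ) : ℝ≥0∞ :=
  {y : κ → ℝ | 1 ≤ ‖y‖ ∧ ‖y‖ < Real.exp 1}.indicator 1 y

theorem shell_meas {κ : Type*} [Fintype κ] : Measurable (shell (κ := κ)) := by
  refine measurable_one.indicator ?_
  exact (measurableSet_le measurable_const measurable_norm).inter
    (measurableSet_lt measurable_norm measurable_const)

theorem shell_int {κ : Type*} [Fintype κ] (x : κ → ℝ) (hx : x ≠ 0) :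
    ∫⁻ r in Ioi (0:ℝ), ENNReal.ofReal r⁻¹ * shell (r⁻¹ • x) = 1 := by
  have hn : 0 < ‖x‖ := norm_pos_iff.2 hx
  have he : 0 < Real.exp 1 := Real.exp_pos 1
  have h0 : 0 < ‖x‖ / Real.exp 1 := by positivity
  have h01 : ‖x‖ / Real.exp 1 ≤ ‖x‖ := div_le_self hn.le (Real.one_le_exp zero_le_one)
  have e1 : ∀ r ∈ Ioi (0:ℝ), ENNReal.ofReal r⁻¹ * shell (r⁻¹ • x) =
      (Ioc (‖x‖ / Real.exp 1) ‖x‖).indicator (fun r => ENNReal.ofReal r⁻¹) r := by
    intro r hr
    have hr0 : (0:ℝ) < r := hr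
    have hiff : (r⁻¹ • x ∈ {y : κ → ℝ | 1 ≤ ‖y‖ ∧ ‖y‖ < Real.exp 1}) ↔
        r ∈ Ioc (‖x‖ / Real.exp 1) ‖x‖ := by
      simp only [mem_ofPred_eq, mem_Ioc, norm_smul, norm_inv, Real.norm_eq_abs, abs_of_pos hr0]
      rw [inv_mul_eq_div, one_le_div hr0, div_lt_iff₀ hr0, div_lt_iff₀ he, mul_comm (Real.exp 1)]
      exact and_comm
    by_cases h : r ∈ Ioc (‖x‖ / Real.exp 1) ‖x‖
    · rw [indicator_of_mem h, shell, indicator_of_mem (hiff.2 h)]
      simp
    · rw [indicator_of_notMem h, shell, indicator_of_notMem (fun h' => h (hiff.1 h')), mul_zero]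
  rw [setLIntegral_congr_fun measurableSet_Ioi e1, setLIntegral_indicator measurableSet_Ioc]
  have e2 : Ioc (‖x‖ / Real.exp 1) ‖x‖ ∩ Ioi 0 = Ioc (‖x‖ / Real.exp 1) ‖x‖ := by
    ext r
    simp only [mem_inter_iff, mem_Ioc, mem_Ioi]
    constructor
    · exact fun h => h.1
    · exact fun h => ⟨h, h0.trans h.1⟩
  rw [e2]
  have hint : IntegrableOn (fun r : ℝ => r⁻¹) (Ioc (‖x‖ / Real.exp 1) ‖x‖) := by
    have : ContinuousOn (fun r : ℝ => r⁻¹) (Icc (‖x‖ / Real.exp 1) ‖x‖) :=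
      continuousOn_inv₀.mono fun r hr => by
        simp only [mem_compl_iff, mem_singleton_iff]
        exact (lt_of_lt_of_le h0 hr.1).ne'
    exact (this.integrableOn_Icc).mono_set Ioc_subset_Icc_self
  rw [← ofReal_integral_eq_lintegral_ofReal hint
    ((ae_restrict_iff' measurableSet_Ioc).2 (ae_of_all _ fun r hr =>
      (inv_pos.2 (h0.trans hr.1)).le)),
    ← intervalIntegral.integral_of_le h01, integral_inv_of_pos h0 hn]
  have e3 : ‖x‖ / (‖x‖ / Real.exp 1) = Real.exp 1 := by field_simp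
  rw [e3, Real.log_exp, ENNReal.ofReal_one]

theorem shell_polar {κ : Type*} [Fintype κ] [Nonempty κ] (F : (κ → ℝ) → ℝ≥0∞)
    (hF : Measurable F) :
    ∫⁻ y, shell y * ∫⁻ r in Ioi (0:ℝ), ENNReal.ofReal (r ^ (Fintype.card κ - 1)) * F (r • y) =
      ∫⁻ x, F x := by
  have hp : 0 < Fintype.card κ := Fintype.card_pos
  have hsm : Measurable fun q : (κ → ℝ) × ℝ => q.2 • q.1 := measurable_snd.smul measurable_fst
  have hin : Measurable fun q : (κ → ℝ) × ℝ => q.2⁻¹ • q.1 :=
    measurable_snd.inv.smul measurable_fst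
  have e1 : ∀ y : κ → ℝ, shell y * ∫⁻ r in Ioi (0:ℝ),
      ENNReal.ofReal (r ^ (Fintype.card κ - 1)) * F (r • y) =
      ∫⁻ r in Ioi (0:ℝ), shell y * (ENNReal.ofReal (r ^ (Fintype.card κ - 1)) * F (r • y)) := by
    intro y
    rw [lintegral_const_mul]
    have : Measurable fun r : ℝ => r • y := measurable_id.smul_const y
    exact (by fun_prop : Measurable fun r : ℝ => ENNReal.ofReal (r ^ (Fintype.card κ - 1))).mul
      (hF.comp this)
  simp_rw [e1]
  rw [lintegral_lintegral_swap]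
  swap
  · refine Measurable.aemeasurable ?_
    exact (shell_meas.comp measurable_fst).mul (((by fun_prop : Measurable fun r : ℝ =>
      ENNReal.ofReal (r ^ (Fintype.card κ - 1))).comp measurable_snd).mul (hF.comp hsm))
  have e2 : ∀ r ∈ Ioi (0:ℝ), ∫⁻ y : κ → ℝ, shell y *
      (ENNReal.ofReal (r ^ (Fintype.card κ - 1)) * F (r • y)) =
      ∫⁻ x : κ → ℝ, F x * (ENNReal.ofReal r⁻¹ * shell (r⁻¹ • x)) := by
    intro r hr
    have hr0 : (0:ℝ) < r := hr
    have hm : Measurable fun x : κ → ℝ => shell (r⁻¹ • x) * F x :=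
      (shell_meas.comp (measurable_const_smul _)).mul hF
    have h1 := lintegral_map (μ := (volume : Measure (κ → ℝ))) hm (measurable_const_smul r)
    rw [Measure.map_addHaar_smul _ hr0.ne', lintegral_smul_measure] at h1
    simp only [inv_smul_smul₀ hr0.ne'] at h1
    have h2 : ∫⁻ y : κ → ℝ, shell y * (ENNReal.ofReal (r ^ (Fintype.card κ - 1)) * F (r • y)) =
        ENNReal.ofReal (r ^ (Fintype.card κ - 1)) * ∫⁻ y : κ → ℝ, shell y * F (r • y) := by
      rw [← lintegral_const_mul]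
      · refine lintegral_congr fun y => ?_
        ring
      · exact shell_meas.mul (hF.comp (measurable_const_smul _))
    rw [h2, ← h1, smul_eq_mul, ← mul_assoc, ← ENNReal.ofReal_mul (by positivity)]
    have h3 : r ^ (Fintype.card κ - 1) * |(r ^ Module.finrank ℝ (κ → ℝ))⁻¹| = r⁻¹ := by
      rw [Module.finrank_fintype_fun_eq_card, abs_of_pos (by positivity)]
      obtain ⟨q, hq⟩ : ∃ q, Fintype.card κ = q + 1 := ⟨Fintype.card κ - 1, by omega⟩
      rw [hq, Nat.add_sub_cancel, pow_succ]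
      field_simp
    rw [h3, ← lintegral_const_mul _ hm]
    refine lintegral_congr fun x => ?_
    ring
  rw [setLIntegral_congr_fun measurableSet_Ioi e2, lintegral_lintegral_swap]
  swap
  · refine Measurable.aemeasurable ?_
    have hsw : Measurable fun q : ℝ × (κ → ℝ) => q.1⁻¹ • q.2 :=
      measurable_fst.inv.smul measurable_snd
    exact (hF.comp measurable_snd).mul ((measurable_fst.inv.ennreal_ofReal).mul
      (shell_meas.comp hsw))
  refine lintegral_congr_ae ?_
  have hne : ∀ᵐ x : κ → ℝ, x ≠ 0 := by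
    rw [ae_iff]
    simp only [ne_eq, not_not]
    have : {a : κ → ℝ | a = 0} = {0} := by ext; simp
    rw [this]
    exact measure_singleton 0
  filter_upwards [hne] with x hx
  rw [lintegral_const_mul, shell_int x hx, mul_one]
  have hsw : Measurable fun r : ℝ => r⁻¹ • x := measurable_inv.smul_const x
  exact (measurable_inv.ennreal_ofReal).mul (shell_meas.comp hsw)

theorem ray_mono {κ : Type*} [Fintype κ] [Nonempty κ] (F1 F2 : (κ → ℝ) → ℝ≥0∞)
    (h1 : Measurable F1) (h2 : Measurable F2)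
    (h : ∀ y : κ → ℝ, ∫⁻ r in Ioi (0:ℝ), ENNReal.ofReal (r ^ (Fintype.card κ - 1)) * F1 (r • y) ≤
      ∫⁻ r in Ioi (0:ℝ), ENNReal.ofReal (r ^ (Fintype.card κ - 1)) * F2 (r • y)) :
    ∫⁻ x, F1 x ≤ ∫⁻ x, F2 x := by
  rw [← shell_polar F1 h1, ← shell_polar F2 h2]
  refine lintegral_mono fun y => ?_
  exact mul_le_mul' le_rfl (h y)

end Pool.Agent.Q189.SC
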