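import Pool.Agent.Q189.SC4

/-!
Ball bodies of logarithmically concave functions in `ℝ^ι` and the functional section
inequality for covers of the coordinates (helper189; proof by helper188).
-/

set_option autoImplicit false
set_option linter.unusedSectionVars false

open Real Set Filter MeasureTheory
open scoped Topology ENNReal Pointwise

namespace Pool.Agent.Q189.SC

variable {ι : Type*} [Fintype ι]

/-- `d ∫_0^∞ r^(d-1) g(r x) dr` -/
noncomputable def BI (g : (ι → ℝ) → ℝ≥0∞) (d : ℕ) (x : ι → ℝ) : ℝ≥0∞ :=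
  (d : ℝ≥0∞) * ∫⁻ r in Ioi (0:ℝ), ENNReal.ofReal (r ^ (d - 1)) * g (r • x)

/-- the gauge of the Ball body -/
noncomputable def BN (g : (ι → ℝ) → ℝ≥0∞) (d : ℕ) (x : ι → ℝ) : ℝ≥0∞ :=
  (BI g d x) ^ (-(1 / (d:ℝ)))

/-- `exp (-N)` -/
noncomputable def BW (g : (ι → ℝ) → ℝ≥0∞) (d : ℕ) (x : ι → ℝ) : ℝ≥0∞ := ex (BN g d x)

theorem BI_meas {g : (ι → ℝ) → ℝ≥0∞} (hg : Measurable g) (d : ℕ) : Measurable (BI g d) := by
  unfold BI
  refine Measurable.const_mul ?_ _
  have hsm : Measurable fun q : (ι → ℝ) × ℝ => q.2 • q.1 := measurable_snd.smul measurable_fst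
  have h : Measurable fun q : (ι → ℝ) × ℝ => ENNReal.ofReal (q.2 ^ (d - 1)) * g (q.2 • q.1) :=
    ((by fun_prop : Measurable fun r : ℝ => ENNReal.ofReal (r ^ (d - 1))).comp
      measurable_snd).mul (hg.comp hsm)
  exact h.lintegral_prod_right'

theorem BN_meas {g : (ι → ℝ) → ℝ≥0∞} (hg : Measurable g) (d : ℕ) : Measurable (BN g d) := by
  unfold BN
  exact (BI_meas hg d).pow_const _

theorem BW_meas {g : (ι → ℝ) → ℝ≥0∞} (hg : Measurable g) (d : ℕ) : Measurable (BW g d) :=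
  ex_meas.comp (BN_meas hg d)

theorem mul_rpow_neg' {a : ℝ≥0∞} (ha0 : a ≠ 0) (hat : a ≠ ∞) {c : ℝ} (hc : 0 < c) (b : ℝ≥0∞) :
    (a * b) ^ (-c) = a ^ (-c) * b ^ (-c) := by
  rw [ENNReal.rpow_neg, ENNReal.rpow_neg, ENNReal.rpow_neg, ENNReal.mul_rpow_of_nonneg _ _ hc.le,
    ENNReal.mul_inv]
  · left; exact (ENNReal.rpow_pos (pos_iff_ne_zero.2 ha0) hat).ne'
  · left; exact ENNReal.rpow_ne_top_of_nonneg hc.le hat

theorem BI_smul {g : (ι → ℝ) → ℝ≥0∞} (hg : Measurable g) {d : ℕ} (hd : 0 < d) {c : ℝ} (hc : 0 < c)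
    (x : ι → ℝ) : BI g d (c • x) = ENNReal.ofReal (c ^ d)⁻¹ * BI g d x := by
  unfold BI
  set F : ℝ → ℝ≥0∞ := (Ioi (0:ℝ)).indicator fun r => ENNReal.ofReal (r ^ (d - 1)) * g (r • x)
    with hF
  have hm : Measurable F := by
    refine Measurable.indicator ?_ measurableSet_Ioi
    exact (by fun_prop : Measurable fun r : ℝ => ENNReal.ofReal (r ^ (d - 1))).mul
      (hg.comp (measurable_id.smul_const x))
  have e1 : ∫⁻ r in Ioi (0:ℝ), ENNReal.ofReal (r ^ (d - 1)) * g (r • x) = ∫⁻ r, F r := by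
    rw [hF, lintegral_indicator measurableSet_Ioi]
  have e2 : ∫⁻ r in Ioi (0:ℝ), ENNReal.ofReal (r ^ (d - 1)) * g (r • c • x) =
      ∫⁻ r, ENNReal.ofReal (c ^ (d - 1))⁻¹ * F (c * r) := by
    rw [← lintegral_indicator measurableSet_Ioi]
    refine lintegral_congr fun r => ?_
    by_cases hr : r ∈ Ioi (0:ℝ)
    · have hr0 : (0:ℝ) < r := hr
      have hcr : c * r ∈ Ioi (0:ℝ) := mul_pos hc hr0
      rw [hF, indicator_of_mem hr, indicator_of_mem hcr, ← mul_assoc,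
        ← ENNReal.ofReal_mul (by positivity), mul_pow]
      congr 2
      · field_simp
      · rw [smul_smul, mul_comm]
    · have hr0 : r ≤ 0 := not_lt.1 hr
      have hcr : c * r ∉ Ioi (0:ℝ) := by
        simp only [mem_Ioi, not_lt]
        exact mul_nonpos_of_nonneg_of_nonpos hc.le hr0
      rw [hF, indicator_of_notMem hr, indicator_of_notMem hcr, mul_zero]
  have hm2 : Measurable fun r : ℝ => F (c * r) := hm.comp (measurable_const_mul c)
  rw [e1, e2, lintegral_const_mul _ hm2, lint_mul_left hc F hm]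
  rw [← mul_assoc (ENNReal.ofReal (c ^ (d - 1))⁻¹), ← ENNReal.ofReal_mul (by positivity)]
  have : (c ^ (d - 1))⁻¹ * c⁻¹ = (c ^ d)⁻¹ := by
    rw [← mul_inv, ← pow_succ, Nat.sub_add_cancel hd]
  rw [this]
  ring

theorem BN_smul {g : (ι → ℝ) → ℝ≥0∞} (hg : Measurable g) {d : ℕ} (hd : 0 < d) {c : ℝ} (hc : 0 < c)
    (x : ι → ℝ) : BN g d (c • x) = ENNReal.ofReal c * BN g d x := by
  have hd' : (0:ℝ) < d := by exact_mod_cast hd
  unfold BN
  rw [BI_smul hg hd hc, mul_rpow_neg' (by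
    rw [ne_eq, ENNReal.ofReal_eq_zero, not_le]; positivity) ENNReal.ofReal_ne_top (by positivity)]
  congr 1
  rw [ENNReal.ofReal_inv_of_pos (by positivity), ENNReal.inv_rpow, ← ENNReal.rpow_neg, neg_neg,
    ENNReal.ofReal_pow hc.le, ← ENNReal.rpow_natCast, ← ENNReal.rpow_mul,
    mul_one_div_cancel hd'.ne', ENNReal.rpow_one]

/-- the substituted integrand -/
noncomputable def Fu (g : (ι → ℝ) → ℝ≥0∞) (d : ℕ) (x : ι → ℝ) : ℝ → ℝ≥0∞ :=
  (Ioi (0:ℝ)).indicator fun u => ENNReal.ofReal (u ^ (d + 1))⁻¹ * g (u⁻¹ • x)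

theorem Fu_meas {g : (ι → ℝ) → ℝ≥0∞} (hg : Measurable g) (d : ℕ) (x : ι → ℝ) :
    Measurable (Fu g d x) := by
  refine Measurable.indicator ?_ measurableSet_Ioi
  exact (by fun_prop : Measurable fun r : ℝ => ENNReal.ofReal (r ^ (d + 1))⁻¹).mul
    (hg.comp (measurable_inv.smul_const x))

theorem BI_inv {g : (ι → ℝ) → ℝ≥0∞} {d : ℕ} (hd : 0 < d) (x : ι → ℝ) :
    BI g d x = (d : ℝ≥0∞) * ∫⁻ u, Fu g d x u := by
  unfold BI
  congr 1
  have himg : (fun u : ℝ => u⁻¹) '' Ioi 0 = Ioi 0 := by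
    ext r
    constructor
    · rintro ⟨u, hu, rfl⟩
      have hu0 : (0:ℝ) < u := hu
      exact inv_pos.2 hu0
    · intro hr
      have hr0 : (0:ℝ) < r := hr
      exact ⟨r⁻¹, inv_pos.2 hr0, inv_inv r⟩
  have h1 := lintegral_image_eq_lintegral_abs_deriv_mul (s := Ioi (0:ℝ)) (f := fun u : ℝ => u⁻¹)
    (f' := fun u => -(u ^ 2)⁻¹) measurableSet_Ioi
    (fun u hu => (hasDerivAt_inv (ne_of_gt hu)).hasDerivWithinAt)
    (fun a _ b _ hab => inv_injective hab)
    (fun r => ENNReal.ofReal (r ^ (d - 1)) * g (r • x))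
  rw [himg] at h1
  rw [h1, Fu, lintegral_indicator measurableSet_Ioi]
  refine setLIntegral_congr_fun measurableSet_Ioi fun u hu => ?_
  have hu0 : (0:ℝ) < u := hu
  rw [← mul_assoc, ← ENNReal.ofReal_mul (abs_nonneg _), abs_neg, abs_of_pos (by positivity)]
  congr 2
  rw [← inv_pow, ← inv_pow, ← pow_add]
  congr 1
  omega

/-- weighted arithmetic-geometric mean inequality for two numbers of `[0,∞]` -/
theorem amgm2 {t : ℝ} (h0 : 0 < t) (h1 : t < 1) (p q : ℝ≥0∞) :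
    p ^ (1 - t) * q ^ t ≤ ENNReal.ofReal (1 - t) * p + ENNReal.ofReal t * q := by
  have h1' : 0 < 1 - t := by linarith
  by_cases hp : p = ∞
  · rw [hp, ENNReal.mul_top (by simpa using h1), top_add]; exact le_top
  by_cases hq : q = ∞
  · rw [hq, ENNReal.mul_top (by simpa using h0), add_top]; exact le_top
  have h := Real.geom_mean_le_arith_mean2_weighted h1'.le h0.le
    (ENNReal.toReal_nonneg (a := p)) (ENNReal.toReal_nonneg (a := q)) (by ring)
  rw [← ENNReal.ofReal_toReal hp, ← ENNReal.ofReal_toReal hq,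
    ENNReal.ofReal_rpow_of_nonneg ENNReal.toReal_nonneg h1'.le,
    ENNReal.ofReal_rpow_of_nonneg ENNReal.toReal_nonneg h0.le,
    ← ENNReal.ofReal_mul (by positivity), ← ENNReal.ofReal_mul h1'.le,
    ← ENNReal.ofReal_mul h0.le,
    ← ENNReal.ofReal_add (mul_nonneg h1'.le ENNReal.toReal_nonneg)
      (mul_nonneg h0.le ENNReal.toReal_nonneg)]
  exact ENNReal.ofReal_le_ofReal h

/-- logarithmic concavity -/
def LogC (g : (ι → ℝ) → ℝ≥0∞) : Prop :=
  ∀ x y : ι → ℝ, ∀ t : ℝ, 0 < t → t < 1 → g x ^ (1 - t) * g y ^ t ≤ g ((1 - t) • x + t • y)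

theorem Fu_add {g : (ι → ℝ) → ℝ≥0∞} (hl : LogC g) {d : ℕ} (x y : ι → ℝ) (u v : ℝ) :
    (Fu g d (x + y) (u + v)) ^ (-(1 / ((d:ℝ) + 1))) ≤
      (Fu g d x u) ^ (-(1 / ((d:ℝ) + 1))) + (Fu g d y v) ^ (-(1 / ((d:ℝ) + 1))) := by
  have hd1 : (0:ℝ) < d + 1 := by positivity
  have hc : 0 < 1 / ((d:ℝ) + 1) := by positivity
  set c := 1 / ((d:ℝ) + 1) with hcdef
  have hz : (0 : ℝ≥0∞) ^ (-c) = ∞ := ENNReal.zero_rpow_of_neg (neg_neg_of_pos hc)
  by_cases hu : u ∈ Ioi (0:ℝ)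
  swap
  · have : Fu g d x u = 0 := by rw [Fu, indicator_of_notMem hu]
    rw [this, hz, top_add]; exact le_top
  by_cases hv : v ∈ Ioi (0:ℝ)
  swap
  · have : Fu g d y v = 0 := by rw [Fu, indicator_of_notMem hv]
    rw [this, hz, add_top]; exact le_top
  have hu0 : (0:ℝ) < u := hu
  have hv0 : (0:ℝ) < v := hv
  have huv : u + v ∈ Ioi (0:ℝ) := add_pos hu0 hv0
  have huv0 : 0 < u + v := huv
  rw [Fu, Fu, Fu, indicator_of_mem hu, indicator_of_mem hv, indicator_of_mem huv]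
  have hne : ∀ {w : ℝ}, 0 < w → ENNReal.ofReal (w ^ (d + 1))⁻¹ ≠ 0 := by
    intro w hw
    rw [ne_eq, ENNReal.ofReal_eq_zero, not_le]; positivity
  have hpow : ∀ {w : ℝ}, 0 < w → (ENNReal.ofReal (w ^ (d + 1))⁻¹) ^ (-c) = ENNReal.ofReal w := by
    intro w hw
    rw [ENNReal.ofReal_inv_of_pos (by positivity), ENNReal.inv_rpow, ← ENNReal.rpow_neg, neg_neg,
      ENNReal.ofReal_pow hw.le, ← ENNReal.rpow_natCast, ← ENNReal.rpow_mul, hcdef]
    have : ((d + 1 : ℕ) : ℝ) * (1 / ((d:ℝ) + 1)) = 1 := by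
      push_cast
      exact mul_one_div_cancel hd1.ne'
    rw [this, ENNReal.rpow_one]
  rw [mul_rpow_neg' (hne hu0) ENNReal.ofReal_ne_top hc,
    mul_rpow_neg' (hne hv0) ENNReal.ofReal_ne_top hc,
    mul_rpow_neg' (hne huv0) ENNReal.ofReal_ne_top hc, hpow hu0, hpow hv0, hpow huv0]
  set A := g (u⁻¹ • x) with hA
  set B := g (v⁻¹ • y) with hB
  by_cases hA0 : A = 0
  · rw [hA0, hz, ENNReal.mul_top (by simpa using hu0), top_add]; exact le_top
  by_cases hB0 : B = 0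
  · rw [hB0, hz, ENNReal.mul_top (by simpa using hv0), add_top]; exact le_top
  set t : ℝ := v / (u + v) with ht
  have ht0 : 0 < t := by positivity
  have ht1 : t < 1 := by rw [ht, div_lt_one huv0]; linarith
  have ht1' : 1 - t = u / (u + v) := by rw [ht]; field_simp; ring
  have h1 := hl (u⁻¹ • x) (v⁻¹ • y) t ht0 ht1
  have h2 : (1 - t) • u⁻¹ • x + t • v⁻¹ • y = (u + v)⁻¹ • (x + y) := by
    rw [ht1', ht, smul_smul, smul_smul, smul_add]
    congr 2 <;> field_simp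
  rw [h2, ← hA, ← hB] at h1
  set C := g ((u + v)⁻¹ • (x + y)) with hC
  have h3 : C ^ (-c) ≤ (A ^ (1 - t) * B ^ t) ^ (-c) := rpow_neg_le hc h1
  have h4 : (A ^ (1 - t) * B ^ t) ^ (-c) = (A ^ (-c)) ^ (1 - t) * (B ^ (-c)) ^ t := by
    have h5 : (A ^ (1 - t) * B ^ t) ^ (-c) = (A ^ (1 - t)) ^ (-c) * (B ^ t) ^ (-c) := by
      rw [ENNReal.rpow_neg, ENNReal.rpow_neg, ENNReal.rpow_neg,
        ENNReal.mul_rpow_of_nonneg _ _ hc.le, ENNReal.mul_inv]
      · left
        intro h6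
        rw [ENNReal.rpow_eq_zero_iff] at h6
        rcases h6 with ⟨h6, _⟩ | ⟨_, h6⟩
        · rw [ENNReal.rpow_eq_zero_iff] at h6
          rcases h6 with ⟨h6, _⟩ | ⟨_, h6⟩
          · exact hA0 h6
          · linarith
        · linarith
      · right
        intro h6
        rw [ENNReal.rpow_eq_zero_iff] at h6
        rcases h6 with ⟨h6, _⟩ | ⟨_, h6⟩
        · rw [ENNReal.rpow_eq_zero_iff] at h6
          rcases h6 with ⟨h6, _⟩ | ⟨_, h6⟩
          · exact hB0 h6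
          · linarith
        · linarith
    rw [h5, ← ENNReal.rpow_mul, ← ENNReal.rpow_mul, ← ENNReal.rpow_mul, ← ENNReal.rpow_mul,
      mul_comm (1 - t), mul_comm t]
  rw [h4] at h3
  have h5 := h3.trans (amgm2 ht0 ht1 _ _)
  calc ENNReal.ofReal (u + v) * C ^ (-c)
      ≤ ENNReal.ofReal (u + v) * (ENNReal.ofReal (1 - t) * A ^ (-c) +
        ENNReal.ofReal t * B ^ (-c)) := by gcongr
    _ = ENNReal.ofReal u * A ^ (-c) + ENNReal.ofReal v * B ^ (-c) := by
        rw [mul_add, ← mul_assoc, ← mul_assoc, ← ENNReal.ofReal_mul huv0.le,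
          ← ENNReal.ofReal_mul huv0.le, ht1', ht, mul_div_cancel₀ _ huv0.ne',
          mul_div_cancel₀ _ huv0.ne']

theorem BN_add {g : (ι → ℝ) → ℝ≥0∞} (hg : Measurable g) (hl : LogC g) {d : ℕ} (hd : 0 < d)
    (x y : ι → ℝ) : BN g d (x + y) ≤ BN g d x + BN g d y := by
  have hd' : (0:ℝ) < d := by exact_mod_cast hd
  have h1 := bbl hd' (Fu g d x) (Fu g d y) (Fu g d (x + y)) (Fu_meas hg d x) (Fu_meas hg d y)
    (Fu_meas hg d (x + y)) (fun u v => Fu_add hl x y u v)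
  have hdn : ((d : ℝ≥0∞)) ≠ 0 := by exact_mod_cast hd.ne'
  unfold BN
  rw [BI_inv hd, BI_inv hd, BI_inv hd, mul_rpow_neg' hdn (by simp) (by positivity),
    mul_rpow_neg' hdn (by simp) (by positivity), mul_rpow_neg' hdn (by simp) (by positivity),
    ← mul_add]
  gcongr

theorem BN_sum {α : Type*} {g : (ι → ℝ) → ℝ≥0∞} (hg : Measurable g) (hl : LogC g) {d : ℕ}
    (hd : 0 < d) (J : Finset α) (hJ : J.Nonempty) (x : α → ι → ℝ) :
    BN g d (∑ j ∈ J, x j) ≤ ∑ j ∈ J, BN g d (x j) := by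
  classical
  induction hJ using Finset.Nonempty.cons_induction with
  | singleton i => simp
  | cons i s hi hs ih =>
    rw [Finset.sum_cons, Finset.sum_cons]
    exact (BN_add hg hl hd _ _).trans (add_le_add le_rfl ih)

theorem BW_ray {g : (ι → ℝ) → ℝ≥0∞} (hg : Measurable g) {d : ℕ} (hd : 0 < d) {p : ℕ}
    (hp : 0 < p) (x : ι → ℝ) :
    ∫⁻ r in Ioi (0:ℝ), ENNReal.ofReal (r ^ (p - 1)) * BW g d (r • x) =
      ((p - 1).factorial : ℝ≥0∞) * (BI g d x) ^ ((p:ℝ) / d) := by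
  have hd' : (0:ℝ) < d := by exact_mod_cast hd
  have e1 : ∫⁻ r in Ioi (0:ℝ), ENNReal.ofReal (r ^ (p - 1)) * BW g d (r • x) =
      ∫⁻ r in Ioi (0:ℝ), ENNReal.ofReal (r ^ (p - 1)) * ex (ENNReal.ofReal r * BN g d x) := by
    refine setLIntegral_congr_fun measurableSet_Ioi fun r hr => ?_
    simp only [BW]
    rw [BN_smul hg hd hr]
  rw [e1, ex_gamma hp, BN, ← ENNReal.rpow_mul]
  congr 2
  field_simp

theorem ray_le {g : (ι → ℝ) → ℝ≥0∞} (hg : Measurable g) (hg1 : ∀ x, g x ≤ 1) {p d : ℕ}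
    (hp : 0 < p) (hpd : p ≤ d) (x : ι → ℝ) :
    ∫⁻ r in Ioi (0:ℝ), ENNReal.ofReal (r ^ (p - 1)) * ((p.factorial : ℝ≥0∞) * g (r • x)) ≤
      ∫⁻ r in Ioi (0:ℝ), ENNReal.ofReal (r ^ (p - 1)) * BW g d (r • x) := by
  have hd : 0 < d := lt_of_lt_of_le hp hpd
  have hgx : Measurable fun r : ℝ => g (r • x) := hg.comp (measurable_id.smul_const x)
  have h1 := moment_le hp hpd (fun r => g (r • x)) hgx (fun r => hg1 _)
  rw [BW_ray hg hd hp]
  have e1 : ∫⁻ r in Ioi (0:ℝ), ENNReal.ofReal (r ^ (p - 1)) * ((p.factorial : ℝ≥0∞) * g (r • x)) =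
      ((p - 1).factorial : ℝ≥0∞) * ((p : ℝ≥0∞) * ∫⁻ r in Ioi (0:ℝ),
        ENNReal.ofReal (r ^ (p - 1)) * g (r • x)) := by
    have hm : Measurable fun r : ℝ => ENNReal.ofReal (r ^ (p - 1)) * g (r • x) :=
      (by fun_prop : Measurable fun r : ℝ => ENNReal.ofReal (r ^ (p - 1))).mul hgx
    rw [← mul_assoc, ← lintegral_const_mul _ hm]
    refine lintegral_congr fun r => ?_
    have : (p.factorial : ℝ≥0∞) = ((p - 1).factorial : ℝ≥0∞) * p := by
      rw [← Nat.mul_factorial_pred hp.ne', Nat.cast_mul, mul_comm]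
    rw [this]
    ring
  rw [e1]
  exact mul_le_mul' le_rfl h1

theorem ray_eq {g : (ι → ℝ) → ℝ≥0∞} (hg : Measurable g) {d : ℕ} (hd : 0 < d) (x : ι → ℝ) :
    ∫⁻ r in Ioi (0:ℝ), ENNReal.ofReal (r ^ (d - 1)) * BW g d (r • x) =
    ∫⁻ r in Ioi (0:ℝ), ENNReal.ofReal (r ^ (d - 1)) * ((d.factorial : ℝ≥0∞) * g (r • x)) := by
  have hd' : (0:ℝ) < d := by exact_mod_cast hd
  have hgx : Measurable fun r : ℝ => g (r • x) := hg.comp (measurable_id.smul_const x)
  rw [BW_ray hg hd hd, div_self hd'.ne', ENNReal.rpow_one, BI]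
  have hm : Measurable fun r : ℝ => ENNReal.ofReal (r ^ (d - 1)) * g (r • x) :=
    (by fun_prop : Measurable fun r : ℝ => ENNReal.ofReal (r ^ (d - 1))).mul hgx
  rw [← mul_assoc, ← lintegral_const_mul _ hm]
  refine lintegral_congr fun r => ?_
  have : (d.factorial : ℝ≥0∞) = ((d - 1).factorial : ℝ≥0∞) * d := by
    rw [← Nat.mul_factorial_pred hd.ne', Nat.cast_mul, mul_comm]
  rw [this]
  ring

theorem updF_smul [DecidableEq ι] (τ : Finset ι) (r : ℝ) (y : τ → ℝ) :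
    Function.updateFinset (0 : ι → ℝ) τ (r • y) = r • Function.updateFinset (0 : ι → ℝ) τ y := by
  ext i
  by_cases hi : i ∈ τ
  · simp [Function.updateFinset, hi]
  · simp [Function.updateFinset, hi]

theorem LM_le [DecidableEq ι] {g : (ι → ℝ) → ℝ≥0∞} (hg : Measurable g) (hg1 : ∀ x, g x ≤ 1)
    (τ : Finset ι) {d : ℕ} (hd : 0 < d) (hτ : τ.card ≤ d) :
    (τ.card.factorial : ℝ≥0∞) * LM τ g 0 ≤ LM τ (BW g d) 0 := by
  rcases τ.eq_empty_or_nonempty with rfl | hne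
  · rw [LM, LM, lmarginal_empty, lmarginal_empty]
    simp only [Finset.card_empty, Nat.factorial_zero, Nat.cast_one, one_mul]
    rcases eq_or_ne (g 0) 0 with h0 | h0
    · rw [h0]; exact zero_le
    · have hBI : BI g d 0 = ∞ := by
        unfold BI
        simp only [smul_zero]
        rw [lintegral_mul_const _ (by fun_prop)]
        have h1 : ∫⁻ r in Ioi (0:ℝ), ENNReal.ofReal (r ^ (d - 1)) = ∞ := by
          refine le_antisymm le_top ?_
          have h1 : (∞ : ℝ≥0∞) = ∫⁻ r in Ioi (1:ℝ), 1 := by simp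
          rw [h1]
          refine le_trans ?_ (lintegral_mono_set (Ioi_subset_Ioi zero_le_one))
          refine setLIntegral_mono' measurableSet_Ioi fun r hr => ?_
          rw [← ENNReal.ofReal_one]
          exact ENNReal.ofReal_le_ofReal (one_le_pow₀ (le_of_lt hr))
        rw [h1, ENNReal.top_mul h0, ENNReal.mul_top (by exact_mod_cast hd.ne')]
      have hd' : (0:ℝ) < 1 / d := by
        have : (0:ℝ) < d := by exact_mod_cast hd
        positivity
      rw [BW, BN, hBI, ENNReal.rpow_neg, ENNReal.top_rpow_of_pos hd', ENNReal.inv_top, ex_zero]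
      exact hg1 0
  · have hu : Measurable fun y : τ → ℝ => Function.updateFinset (0 : ι → ℝ) τ y :=
      measurable_updateFinset
    have : Nonempty τ := hne.to_subtype
    have hgm : Measurable fun y : τ → ℝ => g (Function.updateFinset (0 : ι → ℝ) τ y) := hg.comp hu
    have h1 := ray_mono (fun y : τ → ℝ => (τ.card.factorial : ℝ≥0∞) *
      g (Function.updateFinset (0 : ι → ℝ) τ y))
      (fun y : τ → ℝ => BW g d (Function.updateFinset (0 : ι → ℝ) τ y))
      (hgm.const_mul _) ((BW_meas hg d).comp hu) (by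
        intro y
        have h2 := ray_le hg hg1 (p := τ.card) (d := d) hne.card_pos hτ
          (Function.updateFinset (0 : ι → ℝ) τ y)
        rw [Fintype.card_coe]
        simp only [updF_smul]
        exact h2)
    rw [lintegral_const_mul _ hgm] at h1
    exact h1

theorem LM_eq [DecidableEq ι] {g : (ι → ℝ) → ℝ≥0∞} (hg : Measurable g) (σ : Finset ι)
    (hσ : σ.Nonempty) : LM σ (BW g σ.card) 0 ≤ (σ.card.factorial : ℝ≥0∞) * LM σ g 0 := by
  have hu : Measurable fun y : σ → ℝ => Function.updateFinset (0 : ι → ℝ) σ y :=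
    measurable_updateFinset
  have : Nonempty σ := hσ.to_subtype
  have hgm : Measurable fun y : σ → ℝ => g (Function.updateFinset (0 : ι → ℝ) σ y) := hg.comp hu
  have h1 := ray_mono (fun y : σ → ℝ => BW g σ.card (Function.updateFinset (0 : ι → ℝ) σ y))
    (fun y : σ → ℝ => (σ.card.factorial : ℝ≥0∞) * g (Function.updateFinset (0 : ι → ℝ) σ y))
    ((BW_meas hg _).comp hu) (hgm.const_mul _) (by
      intro y
      have h2 := ray_eq hg (d := σ.card) hσ.card_pos (Function.updateFinset (0 : ι → ℝ) σ y)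
      rw [Fintype.card_coe]
      simp only [updF_smul]
      exact h2.le)
  rw [lintegral_const_mul _ hgm] at h1
  exact h1

/-- the functional form of the section inequality -/
theorem functional [DecidableEq ι] {α : Type*} {g : (ι → ℝ) → ℝ≥0∞} (hg : Measurable g)
    (hg1 : ∀ x, g x ≤ 1) (hl : LogC g) (σ : Finset ι) (hσ : σ.Nonempty) (J : Finset α)
    (τ : α → Finset ι) (hτ : ∀ j ∈ J, τ j ⊆ σ) {k : ℕ} (hk : 0 < k)
    (hcov : ∀ i ∈ σ, (J.filter (fun j => i ∈ τ j)).card = k) :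
    ∏ j ∈ J, (((τ j).card.factorial : ℝ≥0∞) * LM (τ j) g 0) ≤
      ((σ.card.factorial : ℝ≥0∞) * LM σ g 0) ^ k := by
  classical
  have hk' : (0:ℝ) < k := by exact_mod_cast hk
  have hki : (0:ℝ) < (k:ℝ)⁻¹ := inv_pos.2 hk'
  have hd : 0 < σ.card := hσ.card_pos
  have hJ : J.Nonempty := by
    obtain ⟨i, hi⟩ := hσ
    have h1 := hcov i hi
    have h2 : (J.filter (fun j => i ∈ τ j)).Nonempty := by
      rw [← Finset.card_pos, h1]; exact hk
    obtain ⟨j, hj⟩ := h2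
    exact ⟨j, (Finset.mem_filter.1 hj).1⟩
  have main := liak J k hk σ τ (BW g σ.card) (fun _ => BW g σ.card) (BW_meas hg _)
    (fun _ _ => BW_meas hg _) hτ hcov (by
      intro x _
      have h1 : BN g σ.card ((k:ℝ)⁻¹ • ∑ j ∈ J, x j) ≤
          ∑ j ∈ J, ENNReal.ofReal (k:ℝ)⁻¹ * BN g σ.card (x j) := by
        rw [BN_smul hg hd hki, ← Finset.mul_sum]
        gcongr
        exact BN_sum hg hl hd J hJ x
      have h2 := ex_anti h1
      rw [ex_sum] at h2
      refine le_trans (le_of_eq ?_) h2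
      refine Finset.prod_congr rfl fun j _ => ?_
      rw [ex_mul hki]
      rfl)
  calc ∏ j ∈ J, (((τ j).card.factorial : ℝ≥0∞) * LM (τ j) g 0)
      ≤ ∏ j ∈ J, LM (τ j) (BW g σ.card) 0 :=
        Finset.prod_le_prod' fun j hj => LM_le hg hg1 (τ j) hd (Finset.card_le_card (hτ j hj))
    _ = (∏ j ∈ J, (LM (τ j) (BW g σ.card) 0) ^ ((k:ℝ)⁻¹)) ^ k := by
        rw [← Finset.prod_pow]
        refine Finset.prod_congr rfl fun j _ => ?_
        rw [← ENNReal.rpow_natCast, ← ENNReal.rpow_mul, inv_mul_cancel₀ hk'.ne', ENNReal.rpow_one]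
    _ ≤ (LM σ (BW g σ.card) 0) ^ k := by gcongr
    _ ≤ ((σ.card.factorial : ℝ≥0∞) * LM σ g 0) ^ k := by
        gcongr
        exact LM_eq hg σ hσ

end Pool.Agent.Q189.SC
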