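import Pool.Agent.Q189.SC5
import Pool.Agent.H212R2.KLS.T1

/-!
Sections of convex bodies by coordinate subspaces: reduction to the functional inequality
(helper189).
-/

set_option autoImplicit false

open Real Set Filter MeasureTheory
open scoped Topology ENNReal Pointwise

namespace Pool.Agent.Q189.SC

/-- The `(n - |τ|)`-dimensional volume of the section `K ∩ (x + H_τ^⊥)`: the points of
`x + H_τ^⊥` have the coordinates of `x` on `τ` and arbitrary coordinates `y` outside `τ`. -/
noncomputable def secVolE {n : ℕ} (K : Set (Fin n → ℝ)) (τ : Finset (Fin n)) (x : Fin n → ℝ) :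
    ℝ≥0∞ :=
  volume {y : (τᶜ : Finset (Fin n)) → ℝ | Function.updateFinset x τᶜ y ∈ K}

theorem secVolE_eq {n : ℕ} {K : Set (Fin n → ℝ)} (hK : MeasurableSet K) (τ : Finset (Fin n))
    (x : Fin n → ℝ) : secVolE K τ x = LM τᶜ (K.indicator 1) x := by
  unfold secVolE LM lmarginal
  have hu : Measurable fun y : (τᶜ : Finset (Fin n)) → ℝ => Function.updateFinset x τᶜ y :=
    measurable_updateFinset
  have h1 : MeasurableSet {y : (τᶜ : Finset (Fin n)) → ℝ | Function.updateFinset x τᶜ y ∈ K} :=
    hu hK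
  rw [← lintegral_indicator_one h1]
  rfl

theorem LM_split {n : ℕ} {f : (Fin n → ℝ) → ℝ≥0∞} (hf : Measurable f) {c σ : Finset (Fin n)}
    (hc : c ⊆ σ) : LM cᶜ f 0 = LM (σ \ c) (LM σᶜ f) 0 := by
  have h1 : cᶜ = (σ \ c) ∪ σᶜ := by
    ext i
    simp only [Finset.mem_compl, Finset.mem_union, Finset.mem_sdiff]
    constructor
    · intro hi
      by_cases h : i ∈ σ
      · exact Or.inl ⟨h, hi⟩
      · exact Or.inr h
    · rintro (h | h)
      · exact h.2
      · exact fun h' => h (hc h')
  have h2 : Disjoint (σ \ c) σᶜ := by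
    rw [Finset.disjoint_left]
    intro i hi hi'
    exact (Finset.mem_compl.1 hi') (Finset.mem_sdiff.1 hi).1
  rw [LM, h1, lmarginal_union _ f hf h2]

theorem logC_LM {n : ℕ} {K : Set (Fin n → ℝ)} (hK : MeasurableSet K) (hc : Convex ℝ K)
    (τ : Finset (Fin n)) : LogC (LM τ (K.indicator (1 : (Fin n → ℝ) → ℝ≥0∞))) := by
  classical
  intro x y t ht0 ht1
  have hu : ∀ z : Fin n → ℝ, Measurable fun y : τ → ℝ => Function.updateFinset z τ y := fun z =>
    measurable_updateFinset
  have hm : Measurable (K.indicator (1 : (Fin n → ℝ) → ℝ≥0∞)) := measurable_one.indicator hK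
  refine Pool.Agent.H212R2.KLS.PL (volume : Measure (τ → ℝ)) t ht0 ht1 _ _ _ (hm.comp (hu x))
    (hm.comp (hu y)) (hm.comp (hu _)) ?_
  intro u v
  have t1 : 0 < 1 - t := by linarith
  by_cases hx : Function.updateFinset x τ u ∈ K
  · by_cases hy : Function.updateFinset y τ v ∈ K
    · have h3 : Function.updateFinset ((1 - t) • x + t • y) τ ((1 - t) • u + t • v) =
          (1 - t) • Function.updateFinset x τ u + t • Function.updateFinset y τ v := by
        ext i
        by_cases hi : i ∈ τ
        · simp [Function.updateFinset, hi]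
        · simp [Function.updateFinset, hi]
      have h4 : Function.updateFinset ((1 - t) • x + t • y) τ ((1 - t) • u + t • v) ∈ K := by
        rw [h3]
        exact hc hx hy t1.le ht0.le (by ring)
      rw [indicator_of_mem hx, indicator_of_mem hy, indicator_of_mem h4]
      simp
    · rw [indicator_of_notMem hy, ENNReal.zero_rpow_of_pos ht0, mul_zero]
      exact zero_le
  · rw [indicator_of_notMem hx, ENNReal.zero_rpow_of_pos t1, zero_mul]
    exact zero_le

theorem secVolE_bdd {n : ℕ} {K : Set (Fin n → ℝ)} (hK : Bornology.IsBounded K)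
    (τ : Finset (Fin n)) : ∃ B : ℝ≥0∞, B ≠ ∞ ∧ ∀ x, secVolE K τ x ≤ B := by
  obtain ⟨R, hR⟩ := hK.subset_closedBall 0
  refine ⟨volume (Metric.closedBall (0 : (τᶜ : Finset (Fin n)) → ℝ) (max R 0)),
    measure_closedBall_lt_top.ne, fun x => measure_mono ?_⟩
  intro y hy
  have h1 := hR hy
  rw [mem_closedBall_zero_iff] at h1 ⊢
  rw [pi_norm_le_iff_of_nonneg (le_max_right _ _)]
  intro i
  have h2 := norm_le_pi_norm (Function.updateFinset x τᶜ y) i.1
  have h3 : Function.updateFinset x τᶜ y i.1 = y i := by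
    simp only [Function.updateFinset]
    rw [dif_pos i.2]
  rw [h3] at h2
  exact (h2.trans h1).trans (le_max_left _ _)

/-- the inequality in `[0,∞]` with natural exponents -/
theorem main_nat {n : ℕ} {K : Set (Fin n → ℝ)} (hKc : Convex ℝ K) (hK : IsCompact K)
    (hKi : (interior K).Nonempty) (σ : Finset (Fin n)) (hσ : σ.Nonempty) {m s k : ℕ}
    (hmsk : m = s + k) (c : Fin m → Finset (Fin n)) (hc : ∀ j, c j ⊆ σ)
    (hcov : ∀ i ∈ σ, (Finset.univ.filter (fun j => i ∈ c j)).card = s) :
    (∏ j, ((σ.card - (c j).card).factorial : ℝ)) * ∏ j, (secVolE K (c j) 0).toReal ≤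
      (σ.card.factorial : ℝ) ^ k * ((volume K).toReal ^ k *
        (⨆ x, secVolE K σ x).toReal ^ s) := by
  classical
  have hKm : MeasurableSet K := hK.isClosed.measurableSet
  have hm1 : Measurable (K.indicator (1 : (Fin n → ℝ) → ℝ≥0∞)) := measurable_one.indicator hKm
  obtain ⟨B, hBt, hB⟩ := secVolE_bdd hK.isBounded σ
  set f : (Fin n → ℝ) → ℝ≥0∞ := LM σᶜ (K.indicator 1) with hf
  have hfm : Measurable f := hm1.lmarginal _
  have hfe : ∀ x, secVolE K σ x = f x := fun x => secVolE_eq hKm σ x
  set M := ⨆ x, secVolE K σ x with hM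
  have hMt : M ≠ ∞ := ne_top_of_le_ne_top hBt (iSup_le hB)
  have hfM : ∀ x, f x ≤ M := fun x => by rw [← hfe]; exact le_iSup (secVolE K σ) x
  have hV : volume K = LM σ f 0 := by
    have h1 := LM_split hm1 (Finset.empty_subset σ)
    rw [Finset.compl_empty, Finset.sdiff_empty] at h1
    rw [hf, ← h1, LM, lmarginal_univ, ← volume_pi, lintegral_indicator_one hKm]
  have hV0 : volume K ≠ 0 := by
    intro h0
    have h1 := measure_mono_null interior_subset h0
    exact (isOpen_interior.measure_pos volume hKi).ne' h1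
  have hVt : volume K ≠ ∞ := hK.measure_lt_top.ne
  have hM0 : M ≠ 0 := by
    intro h0
    apply hV0
    have h1 : f = fun _ => 0 := by
      ext x
      exact le_antisymm (by rw [← h0]; exact hfM x) zero_le
    rw [hV, h1]
    simp [lmarginal]
  have hA : ∀ j, secVolE K (c j) 0 = LM (σ \ c j) f 0 := fun j => by
    rw [secVolE_eq hKm, LM_split hm1 (hc j)]
  have hcard : ∀ j, (σ \ c j).card = σ.card - (c j).card := fun j =>
    Finset.card_sdiff_of_subset (hc j)
  have hMpos : 0 < M.toReal := ENNReal.toReal_pos hM0 hMt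
  rcases Nat.eq_zero_or_pos k with rfl | hk
  · -- all the sets are equal to `σ`
    rw [add_zero] at hmsk
    have hall : ∀ j, c j = σ := by
      intro j
      refine Finset.Subset.antisymm (hc j) fun i hi => ?_
      have h1 := hcov i hi
      have h2 : Finset.univ.filter (fun j => i ∈ c j) = Finset.univ := by
        rw [← Finset.card_eq_iff_eq_univ, h1, Fintype.card_fin, hmsk]
      have h3 := Finset.mem_univ j
      rw [← h2] at h3
      exact (Finset.mem_filter.1 h3).2
    rw [pow_zero, pow_zero, one_mul, one_mul]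
    have h1 : ∀ j, ((σ.card - (c j).card).factorial : ℝ) = 1 := by
      intro j; rw [hall j]; simp
    rw [Finset.prod_congr rfl (fun j _ => h1 j), Finset.prod_const_one, one_mul]
    calc ∏ j, (secVolE K (c j) 0).toReal ≤ ∏ _j : Fin m, M.toReal := by
          refine Finset.prod_le_prod (fun j _ => ENNReal.toReal_nonneg) fun j _ => ?_
          rw [hall j]
          exact ENNReal.toReal_mono hMt (le_iSup (secVolE K σ) 0)
      _ = M.toReal ^ s := by
          rw [Finset.prod_const, Finset.card_univ, Fintype.card_fin, hmsk]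
  · set g : (Fin n → ℝ) → ℝ≥0∞ := fun x => M⁻¹ * f x with hg
    have hgm : Measurable g := hfm.const_mul _
    have hg1 : ∀ x, g x ≤ 1 := fun x => by
      rw [hg]
      simp only
      rw [mul_comm, ← div_eq_mul_inv]
      exact ENNReal.div_le_of_le_mul (by rw [one_mul]; exact hfM x)
    have hMi0 : M⁻¹ ≠ 0 := ENNReal.inv_ne_zero.2 hMt
    have hMit : M⁻¹ ≠ ∞ := ENNReal.inv_ne_top.2 hM0
    have hgl : LogC g := by
      intro x y t ht0 ht1
      have h1 := logC_LM hKm hKc σᶜ x y t ht0 ht1
      have t1 : 0 < 1 - t := by linarith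
      rw [hg]
      simp only
      rw [ENNReal.mul_rpow_of_nonneg _ _ t1.le, ENNReal.mul_rpow_of_nonneg _ _ ht0.le]
      calc M⁻¹ ^ (1 - t) * f x ^ (1 - t) * (M⁻¹ ^ t * f y ^ t)
          = (M⁻¹ ^ (1 - t) * M⁻¹ ^ t) * (f x ^ (1 - t) * f y ^ t) := by ring
        _ = M⁻¹ * (f x ^ (1 - t) * f y ^ t) := by
            rw [← ENNReal.rpow_add _ _ hMi0 hMit]
            simp
        _ ≤ _ := by gcongr
    have hcov' : ∀ i ∈ σ, ((Finset.univ : Finset (Fin m)).filter
        (fun j => i ∈ σ \ c j)).card = k := by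
      intro i hi
      have h1 : (Finset.univ : Finset (Fin m)).filter (fun j => i ∈ σ \ c j) =
          (Finset.univ.filter (fun j => i ∈ c j))ᶜ := by
        ext j
        simp [hi]
      rw [h1, Finset.card_compl, hcov i hi, Fintype.card_fin, hmsk]
      omega
    have hfun := functional hgm hg1 hgl σ hσ (Finset.univ : Finset (Fin m)) (fun j => σ \ c j)
      (fun j _ => Finset.sdiff_subset) hk hcov'
    have hLMg : ∀ τ : Finset (Fin n), LM τ g 0 = M⁻¹ * LM τ f 0 := by
      intro τ
      have hfu : Measurable fun y : τ → ℝ => f (Function.updateFinset (0 : Fin n → ℝ) τ y) :=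
        hfm.comp measurable_updateFinset
      unfold LM lmarginal
      rw [← lintegral_const_mul _ hfu]
    simp_rw [hLMg, ← hA, hcard, ← hV] at hfun
    have hAt : ∀ j, secVolE K (c j) 0 ≠ ∞ := by
      intro j
      obtain ⟨B', hB't, hB'⟩ := secVolE_bdd hK.isBounded (c j)
      exact ne_top_of_le_ne_top hB't (hB' 0)
    have hRt : ((σ.card.factorial : ℝ≥0∞) * (M⁻¹ * volume K)) ^ k ≠ ∞ :=
      ENNReal.pow_ne_top (ENNReal.mul_ne_top (by simp) (ENNReal.mul_ne_top hMit hVt))
    have hreal := ENNReal.toReal_mono hRt hfun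
    rw [ENNReal.toReal_prod] at hreal
    simp only [ENNReal.toReal_mul, ENNReal.toReal_pow, ENNReal.toReal_inv,
      ENNReal.toReal_natCast] at hreal
    rw [Finset.prod_mul_distrib, Finset.prod_mul_distrib, Finset.prod_const, Finset.card_univ,
      Fintype.card_fin] at hreal
    have h5 : M.toReal⁻¹ ^ m * M.toReal ^ m = 1 := by
      rw [← mul_pow, inv_mul_cancel₀ hMpos.ne', one_pow]
    have h6 : M.toReal⁻¹ ^ k * M.toReal ^ m = M.toReal ^ s := by
      rw [hmsk, pow_add, mul_comm (M.toReal ^ s), ← mul_assoc, ← mul_pow,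
        inv_mul_cancel₀ hMpos.ne', one_pow, one_mul]
    calc (∏ j, ((σ.card - (c j).card).factorial : ℝ)) * ∏ j, (secVolE K (c j) 0).toReal
        = ((∏ j, ((σ.card - (c j).card).factorial : ℝ)) * (M.toReal⁻¹ ^ m *
          ∏ j, (secVolE K (c j) 0).toReal)) * M.toReal ^ m := by
          rw [show ∀ a b e f : ℝ, (a * (b * e)) * f = (a * e) * (b * f) from fun a b e f => by ring,
            h5, mul_one]
      _ ≤ ((σ.card.factorial : ℝ) * (M.toReal⁻¹ * (volume K).toReal)) ^ k * M.toReal ^ m := by
          gcongr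
      _ = _ := by
          rw [← h6]
          ring

end Pool.Agent.Q189.SC
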