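import Pool.Agent.Q189.ShDefs

/-! MP_625e57_gt: neighbours generate the tangent cone at a vertex. -/

set_option autoImplicit false

namespace Pool.Agent.Q189.Sh

open Finset

variable {N : ℕ} {n : Fin N → R31}

/-- `x` is a combination of `n v` (any sign) and of the `n a`, `a ∈ A` (nonnegative). -/
def Rep (n : Fin N → R31) (v : Fin N) (A : Finset (Fin N)) (x : R31) : Prop :=
  ∃ (α : ℝ) (β : Fin N → ℝ), (∀ a, 0 ≤ β a) ∧ x = α • n v + ∑ a ∈ A, β a • n a

theorem Rep.add {v : Fin N} {A : Finset (Fin N)} {x y : R31} (hx : Rep n v A x)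
    (hy : Rep n v A y) : Rep n v A (x + y) := by
  obtain ⟨α, β, hβ, rfl⟩ := hx
  obtain ⟨α', β', hβ', rfl⟩ := hy
  refine ⟨α + α', fun a => β a + β' a, fun a => add_nonneg (hβ a) (hβ' a), ?_⟩
  simp only [add_smul, Finset.sum_add_distrib]
  abel

theorem Rep.smul {v : Fin N} {A : Finset (Fin N)} {x : R31} (hx : Rep n v A x) {c : ℝ}
    (hc : 0 ≤ c) : Rep n v A (c • x) := by
  obtain ⟨α, β, hβ, rfl⟩ := hx
  refine ⟨c * α, fun a => c * β a, fun a => mul_nonneg hc (hβ a), ?_⟩
  simp only [smul_add, Finset.smul_sum, mul_smul]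

theorem Rep.line (v : Fin N) (A : Finset (Fin N)) (α : ℝ) : Rep n v A (α • n v) :=
  ⟨α, fun _ => 0, fun _ => le_rfl, by simp⟩

theorem Rep.sum {v : Fin N} {A : Finset (Fin N)} {ι : Type} (s : Finset ι) (x : ι → R31)
    (hx : ∀ i ∈ s, Rep n v A (x i)) : Rep n v A (∑ i ∈ s, x i) := by
  classical
  induction s using Finset.induction_on with
  | empty => rw [Finset.sum_empty]; simpa using Rep.line (n := n) v A 0
  | insert a s ha ih =>
    rw [Finset.sum_insert ha]
    exact (hx a (Finset.mem_insert_self a s)).add (ih fun i hi =>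
      hx i (Finset.mem_insert_of_mem hi))

theorem Rep.self {v : Fin N} {A : Finset (Fin N)} {a : Fin N} (ha : a ∈ A) :
    Rep n v A (n a) := by
  classical
  refine ⟨0, fun b => if b = a then 1 else 0, fun b => by dsimp only; split_ifs <;> norm_num, ?_⟩
  rw [Finset.sum_eq_single a]
  · simp
  · intro b _ hb; simp [hb]
  · intro h; exact absurd ha h

/-- separation -/
theorem exists_sep {v : Fin N} {A : Finset (Fin N)} {a : Fin N} {g : R31 →ₗ[ℝ] ℝ}
    (hgv : g (n v) = 0) (hg : ∀ w, w ≠ v → 0 < g (n w)) (hav : a ≠ v) (hvA : v ∉ A)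
    (hna : ¬ Rep n v A (n a)) :
    ∃ l : R31 →ₗ[ℝ] ℝ, l (n v) = 0 ∧ l (n a) < 0 ∧ ∀ b ∈ A, 0 < l (n b) := by
  classical
  rcases A.eq_empty_or_nonempty with rfl | hAne
  · refine ⟨-g, by simp [hgv], ?_, by simp⟩
    rw [LinearMap.neg_apply]
    linarith [hg a hav]
  set S : Set R31 := convexHull ℝ ((fun b => (g (n b))⁻¹ • n b) '' (A : Set (Fin N))) with hS
  set L : Set R31 := Set.range (fun t : ℝ => (g (n a))⁻¹ • n a + t • n v) with hL
  have hScomp : IsCompact S := ((A.finite_toSet.image _).isCompact_convexHull (𝕜 := ℝ))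
  have hSconv : Convex ℝ S := convex_convexHull ℝ _
  have hga : 0 < g (n a) := hg a hav
  have hLconv : Convex ℝ L := by
    rintro _ ⟨s, rfl⟩ _ ⟨t, rfl⟩ c d hc hd hcd
    refine ⟨c * s + d * t, ?_⟩
    simp only [smul_add, add_smul, mul_smul]
    have h2 : (g (n a))⁻¹ • n a = c • ((g (n a))⁻¹ • n a) + d • ((g (n a))⁻¹ • n a) := by
      rw [← add_smul, hcd, one_smul]
    nth_rewrite 1 [h2]
    abel
  have hLclosed : IsClosed L := by
    have hL' : L = (fun x => (g (n a))⁻¹ • n a + x) '' (Submodule.span ℝ {n v} : Set R31) := by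
      ext x
      simp only [hL, Set.mem_range, Set.mem_image, SetLike.mem_coe,
        Submodule.mem_span_singleton]
      constructor
      · rintro ⟨t, rfl⟩; exact ⟨t • n v, ⟨t, rfl⟩, rfl⟩
      · rintro ⟨_, ⟨t, rfl⟩, rfl⟩; exact ⟨t, rfl⟩
    rw [hL']
    exact (Homeomorph.addLeft _).isClosedMap _ (Submodule.closed_of_finiteDimensional _)
  have hdis : Disjoint S L := by
    rw [Set.disjoint_left]
    rintro x hxS ⟨t, rfl⟩
    apply hna
    rw [hS] at hxS
    have himg : ((fun b => (g (n b))⁻¹ • n b) '' (A : Set (Fin N))) =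
        ((A.image fun b => (g (n b))⁻¹ • n b : Finset R31) : Set R31) := by
      rw [Finset.coe_image]
    rw [himg, Finset.mem_convexHull'] at hxS
    obtain ⟨w, hw0, hw1, hwx⟩ := hxS
    have hrep : Rep n v A ((g (n a))⁻¹ • n a + t • n v) := by
      simp only at hwx
      rw [← hwx]
      apply Rep.sum
      intro y hy
      rw [Finset.mem_image] at hy
      obtain ⟨b, hb, rfl⟩ := hy
      have hbv : b ≠ v := fun h => hvA (h ▸ hb)
      exact ((Rep.self hb).smul (inv_nonneg.mpr (hg b hbv).le)).smul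
        (hw0 _ (Finset.mem_image_of_mem _ hb))
    have h3 : Rep n v A (g (n a) • (((g (n a))⁻¹ • n a + t • n v) + (-t) • n v)) :=
      (hrep.add (Rep.line v A (-t))).smul hga.le
    have h4 : g (n a) • (((g (n a))⁻¹ • n a + t • n v) + (-t) • n v) = n a := by
      rw [add_assoc, ← add_smul, add_neg_cancel, zero_smul, add_zero, smul_smul,
        mul_inv_cancel₀ hga.ne', one_smul]
    rwa [h4] at h3
  obtain ⟨f, p, q, hfS, hpq, hfL⟩ := geometric_hahn_banach_compact_closed hSconv hScomp hLconv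
    hLclosed hdis
  -- `f` vanishes on `n v`
  have hfv : f (n v) = 0 := by
    by_contra hne
    have h1 := hfL _ ⟨(q - 1 - f ((g (n a))⁻¹ • n a)) / f (n v), rfl⟩
    simp only [map_add, map_smul, smul_eq_mul] at h1
    rw [div_mul_cancel₀ _ hne] at h1
    linarith
  have hfa := hfL _ ⟨0, rfl⟩
  simp only [zero_smul, add_zero, map_smul, smul_eq_mul] at hfa
  refine ⟨q • g - (f : R31 →ₗ[ℝ] ℝ), ?_, ?_, ?_⟩
  · simp [hgv, hfv]
  · simp only [LinearMap.sub_apply, LinearMap.smul_apply, smul_eq_mul,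
      ContinuousLinearMap.coe_coe]
    have h1 := mul_lt_mul_of_pos_left hfa hga
    rw [← mul_assoc, mul_inv_cancel₀ hga.ne', one_mul] at h1
    linarith
  · intro b hb
    have hbv : b ≠ v := fun h => hvA (h ▸ hb)
    have hgb := hg b hbv
    have h1 := hfS _ (subset_convexHull ℝ _ ⟨b, hb, rfl⟩)
    simp only [map_smul, smul_eq_mul] at h1
    have h2 := mul_lt_mul_of_pos_left (h1.trans hpq) hgb
    rw [← mul_assoc, mul_inv_cancel₀ hgb.ne', one_mul] at h2
    simp only [LinearMap.sub_apply, LinearMap.smul_apply, smul_eq_mul,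
      ContinuousLinearMap.coe_coe]
    linarith

end Pool.Agent.Q189.Sh
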