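import Pool.Agent.Q189.Sh1

/-! MP_625e57_gt: neighbours generate the tangent cone at a vertex. -/

set_option autoImplicit false

namespace Pool.Agent.Q189.Sh

open Finset

variable {N : ℕ} {n : Fin N → R31}

/-- a vertex vector is not a nonnegative combination of the others -/
theorem vertex_not_comb (h : ConvexCPolyhedron n) {u : Fin N} {A : Finset (Fin N)} (hu : u ∉ A)
    {v : Fin N} (huv : u ≠ v) {α : ℝ} (hα : 0 ≤ α) {β : Fin N → ℝ} (hβ : ∀ a, 0 ≤ β a)
    (he : n u = α • n v + ∑ a ∈ A, β a • n a) : False := by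
  obtain ⟨l, hl0, hl⟩ := h.vertex u
  have h1 := congrArg l he
  rw [hl0, map_add, map_smul, map_sum] at h1
  simp only [map_smul, smul_eq_mul] at h1
  have hnn : ∀ a ∈ A, 0 ≤ β a * l (n a) := by
    intro a ha
    exact mul_nonneg (hβ a) (hl a (fun hh => hu (hh ▸ ha))).le
  have hlv := hl v huv.symm
  have h2 : 0 ≤ α * l (n v) := mul_nonneg hα hlv.le
  have h3 := Finset.sum_nonneg hnn
  have h4 : ∑ a ∈ A, β a * l (n a) = 0 := by linarith
  have h5 := (Finset.sum_eq_zero_iff_of_nonneg hnn).mp h4
  have h6 : α = 0 := by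
    have : α * l (n v) = 0 := by linarith
    rcases mul_eq_zero.mp this with h7 | h7
    · exact h7
    · exact absurd h7 hlv.ne'
  have h7 : n u = 0 := by
    rw [he, h6, zero_smul, zero_add]
    apply Finset.sum_eq_zero
    intro a ha
    have h8 := h5 a ha
    rcases mul_eq_zero.mp h8 with h9 | h9
    · rw [h9, zero_smul]
    · exact absurd h9 (hl a (fun hh => hu (hh ▸ ha))).ne'
  obtain ⟨φ, hφ⟩ := h.pointed
  have := hφ u
  rw [h7, map_zero] at this
  exact lt_irrefl _ this

/-- every vertex vector is a combination of `n v` and of vectors of neighbours of `v` -/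
theorem exists_neighbours (h : ConvexCPolyhedron n) (v : Fin N) :
    ∃ A : Finset (Fin N), v ∉ A ∧ (∀ a ∈ A, Adjacent n v a) ∧
      ∀ u, u ≠ v → Rep n v A (n u) := by
  classical
  obtain ⟨g, hgv, hg⟩ := h.vertex v
  -- minimal generating sets
  let P : ℕ → Prop := fun k => ∃ A : Finset (Fin N), A.card = k ∧ v ∉ A ∧
    ∀ u, u ≠ v → Rep n v A (n u)
  have hP : ∃ k, P k := ⟨_, Finset.univ.erase v, rfl, Finset.notMem_erase v _, fun u hu =>
    Rep.self (Finset.mem_erase.mpr ⟨hu, Finset.mem_univ u⟩)⟩
  obtain ⟨A, hcard, hvA, hA⟩ := Nat.find_spec hP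
  refine ⟨A, hvA, ?_, hA⟩
  intro a ha
  have hav : a ≠ v := fun hh => hvA (hh ▸ ha)
  have hvA' : v ∉ A.erase a := fun hh => hvA (Finset.mem_of_mem_erase hh)
  have hna : ¬ Rep n v (A.erase a) (n a) := by
    intro hrep
    have hlt : (A.erase a).card < Nat.find hP := by
      rw [← hcard]
      exact Finset.card_erase_lt_of_mem ha
    apply Nat.find_min hP hlt
    refine ⟨A.erase a, rfl, hvA', fun u hu => ?_⟩
    obtain ⟨α, β, hβ, he⟩ := hA u hu
    rw [he]
    apply (Rep.line v _ α).add
    apply Rep.sum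
    intro b hb
    apply Rep.smul _ (hβ b)
    by_cases hba : b = a
    · rw [hba]; exact hrep
    · exact Rep.self (Finset.mem_erase.mpr ⟨hba, hb⟩)
  obtain ⟨l, hlv, hla, hlb⟩ := exists_sep hgv hg hav hvA' hna
  have hga : 0 < g (n a) := hg a hav
  set r : ℝ := l (n a) / g (n a) with hr
  have hr0 : r < 0 := div_neg_of_neg_of_pos hla hga
  let k : R31 →ₗ[ℝ] ℝ := l - r • g
  have hkv : k (n v) = 0 := by simp [k, hlv, hgv]
  have hka : k (n a) = 0 := by
    simp only [k, LinearMap.sub_apply, LinearMap.smul_apply, smul_eq_mul]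
    rw [hr, div_mul_cancel₀ _ hga.ne', sub_self]
  have hkb : ∀ b ∈ A.erase a, 0 < k (n b) := by
    intro b hb
    have hbv : b ≠ v := fun hh => hvA' (hh ▸ hb)
    simp only [k, LinearMap.sub_apply, LinearMap.smul_apply, smul_eq_mul]
    have h1 := hlb b hb
    have h2 := mul_neg_of_neg_of_pos hr0 (hg b hbv)
    linarith
  have hsplit : ∀ β : Fin N → ℝ, ∑ b ∈ A, β b • n b = β a • n a +
      ∑ b ∈ A.erase a, β b • n b := fun β => (Finset.add_sum_erase A _ ha).symm
  have hkeval : ∀ (α : ℝ) (β : Fin N → ℝ), k (α • n v + ∑ b ∈ A, β b • n b) =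
      ∑ b ∈ A.erase a, β b * k (n b) := by
    intro α β
    rw [hsplit, map_add, map_add, map_smul, map_smul, hkv, hka, map_sum]
    simp
  refine ⟨hav.symm, k, ?_, ?_⟩
  · intro u
    by_cases huv : u = v
    · rw [huv, hkv]
    · obtain ⟨α, β, hβ, he⟩ := hA u huv
      rw [he, hkeval]
      exact Finset.sum_nonneg fun b hb => mul_nonneg (hβ b) (hkb b hb).le
  · intro u
    constructor
    · intro hu0
      by_cases huv : u = v
      · exact Or.inl huv
      right
      by_contra hua
      obtain ⟨α, β, hβ, he⟩ := hA u huv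
      have h1 := hu0
      rw [he, hkeval] at h1
      have hnn : ∀ b ∈ A.erase a, 0 ≤ β b * k (n b) := fun b hb =>
        mul_nonneg (hβ b) (hkb b hb).le
      have h2 := (Finset.sum_eq_zero_iff_of_nonneg hnn).mp h1
      have h3 : n u = α • n v + β a • n a := by
        rw [he, hsplit]
        have : ∑ b ∈ A.erase a, β b • n b = 0 := by
          apply Finset.sum_eq_zero
          intro b hb
          rcases mul_eq_zero.mp (h2 b hb) with h9 | h9
          · rw [h9, zero_smul]
          · exact absurd h9 (hkb b hb).ne'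
        rw [this, add_zero]
      rcases le_or_gt 0 α with hα | hα
      · refine vertex_not_comb h (u := u) (A := {a}) (by simpa using hua) huv hα hβ ?_
        rw [h3]; simp
      · -- `n a` is a combination of `n u` and `n v`
        rcases (hβ a).eq_or_lt with hβ0 | hβ0
        · -- impossible: `n u = α n v` with `α < 0`
          rw [← hβ0, zero_smul, add_zero] at h3
          obtain ⟨φ, hφ⟩ := h.pointed
          have h4 := hφ u
          rw [h3, map_smul, smul_eq_mul] at h4
          have h5 := mul_neg_of_neg_of_pos hα (hφ v)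
          linarith
        · have h4 : n a = (β a)⁻¹ • n u + (-α * (β a)⁻¹) • n v := by
            rw [h3, smul_add, smul_smul, smul_smul, inv_mul_cancel₀ hβ0.ne', one_smul,
              add_comm ((( β a)⁻¹ * α) • n v), add_assoc, ← add_smul]
            rw [show (β a)⁻¹ * α + -α * (β a)⁻¹ = 0 by ring, zero_smul, add_zero]
          refine vertex_not_comb h (u := a) (A := {v}) (by simpa using hav)
            (v := u) (fun hh => hua hh.symm) (inv_nonneg.mpr hβ0.le)
            (β := fun _ => -α * (β a)⁻¹) (fun _ => ?_) ?_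
          · exact mul_nonneg (by linarith) (inv_nonneg.mpr hβ0.le)
          · rw [h4]; simp
    · rintro (rfl | rfl)
      · exact hkv
      · exact hka

/-- a linear functional which is positive at a vertex and negative at its neighbours is negative
at all other vertices -/
theorem local_global (h : ConvexCPolyhedron n) (v : Fin N) (f : R31 →ₗ[ℝ] ℝ)
    (hfv : 0 < f (n v)) (hf : ∀ w, Adjacent n v w → f (n w) < 0) :
    ∀ u, u ≠ v → f (n u) < 0 := by
  classical
  obtain ⟨A, hvA, hadj, hrep⟩ := exists_neighbours h v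
  intro u huv
  by_cases huA : u ∈ A
  · exact hf u (hadj u huA)
  obtain ⟨α, β, hβ, he⟩ := hrep u huv
  have hα : α < 0 := by
    by_contra hcon
    exact vertex_not_comb h huA huv (not_lt.mp hcon) hβ he
  rw [he, map_add, map_smul, map_sum]
  simp only [map_smul, smul_eq_mul]
  have h1 : α * f (n v) < 0 := mul_neg_of_neg_of_pos hα hfv
  have h2 : ∑ a ∈ A, β a * f (n a) ≤ 0 := Finset.sum_nonpos fun a ha =>
    mul_nonpos_of_nonneg_of_nonpos (hβ a) (hf a (hadj a ha)).le
  linarith

end Pool.Agent.Q189.Sh
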