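import Pool.Agent.Q189.Sh2

/-! MP_625e57_gt: from local to global shallowness. -/

set_option autoImplicit false

namespace Pool.Agent.Q189.Sh

open Finset

variable {N : ℕ} {n : Fin N → R31}

/-- the functional `B x ·` -/
noncomputable def Bl (x : R31) : R31 →ₗ[ℝ] ℝ where
  toFun y := B x y
  map_add' y z := by simp only [B, Pi.add_apply]; ring
  map_smul' c y := by simp only [B, Pi.smul_apply, smul_eq_mul, RingHom.id_apply]; ring

theorem Bl_apply (x y : R31) : Bl x y = B x y := rfl

theorem B_comm (x y : R31) : B x y = B y x := by simp only [B]; ring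

theorem B_add_left (x y z : R31) : B (x + y) z = B x z + B y z := by
  simp only [B, Pi.add_apply]; ring

theorem B_smul_left (c : ℝ) (x y : R31) : B (c • x) y = c * B x y := by
  simp only [B, Pi.smul_apply, smul_eq_mul]; ring

theorem B_add_right (x y z : R31) : B x (y + z) = B x y + B x z := (Bl x).map_add y z

theorem B_smul_right (c : ℝ) (x y : R31) : B x (c • y) = c * B x y := (Bl x).map_smul c y

theorem inv_pos_iff {x y : R31} (hx : 0 < B x x) (hy : 0 < B y y) :
    0 < Inv x y ↔ B x y < 0 := by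
  have h : 0 < √(B x x) * √(B y y) := by positivity
  rw [Inv, neg_pos, div_neg_iff]
  constructor
  · rintro (⟨_, h2⟩ | ⟨h1, _⟩)
    · exact absurd h2 (not_lt.mpr h.le)
    · exact h1
  · intro h1; exact Or.inr ⟨h1, h⟩

theorem Adjacent.symm {v w : Fin N} (h : Adjacent n v w) : Adjacent n w v := by
  obtain ⟨h1, l, h2, h3⟩ := h
  exact ⟨h1.symm, l, h2, fun u => by rw [h3, or_comm]⟩

/-- all pairs have negative products -/
theorem all_neg (h : ConvexCPolyhedron n) (hloc : ∀ v w, Adjacent n v w → 0 < Inv (n v) (n w)) :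
    ∀ v w, v ≠ w → B (n v) (n w) < 0 := by
  intro v w hvw
  have := local_global h v (Bl (n v)) (h.spacelike v) (fun u hu => by
    have := hloc v u hu
    rw [inv_pos_iff (h.spacelike v) (h.spacelike u)] at this
    exact this) w hvw.symm
  exact this

/-- Cauchy-Schwarz in three variables -/
theorem cs3 (a b c x y z : ℝ) :
    (a * x + b * y + c * z) ^ 2 ≤ (a ^ 2 + b ^ 2 + c ^ 2) * (x ^ 2 + y ^ 2 + z ^ 2) := by
  nlinarith [sq_nonneg (a * y - b * x), sq_nonneg (a * z - c * x), sq_nonneg (b * z - c * y)]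

/-- the normalised sum -/
noncomputable def pp (x y : R31) : R31 := (√(B x x))⁻¹ • x + (√(B y y))⁻¹ • y

theorem pp_left {x y : R31} (hx : 0 < B x x) (_hy : 0 < B y y) :
    B (pp x y) x = √(B x x) * (1 - Inv x y) := by
  have h1 : √(B x x) ≠ 0 := (Real.sqrt_pos.mpr hx).ne'
  have h3 : √(B x x) * √(B x x) = B x x := Real.mul_self_sqrt hx.le
  rw [pp, B_add_left, B_smul_left, B_smul_left, Inv, B_comm y x]
  have e1 : (√(B x x))⁻¹ * B x x = √(B x x) := by
    nth_rewrite 2 [← h3]
    rw [← mul_assoc, inv_mul_cancel₀ h1, one_mul]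
  rw [e1]
  rw [sub_neg_eq_add, mul_add, mul_one]
  congr 1
  rw [div_eq_mul_inv, mul_inv]
  field_simp

theorem pp_comm (x y : R31) : pp x y = pp y x := by rw [pp, pp, add_comm]

theorem inv_comm' (x y : R31) : Inv x y = Inv y x := by
  rw [Inv, Inv, B_comm, mul_comm]

theorem pp_right {x y : R31} (hx : 0 < B x x) (hy : 0 < B y y) :
    B (pp x y) y = √(B y y) * (1 - Inv x y) := by
  rw [pp_comm, pp_left hy hx, inv_comm']

theorem pp_self {x y : R31} (hx : 0 < B x x) (hy : 0 < B y y) :
    B (pp x y) (pp x y) = 2 * (1 - Inv x y) := by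
  have h1 : √(B x x) ≠ 0 := (Real.sqrt_pos.mpr hx).ne'
  have h2 : √(B y y) ≠ 0 := (Real.sqrt_pos.mpr hy).ne'
  nth_rewrite 2 [pp]
  rw [B_add_right, B_smul_right, B_smul_right, pp_left hx hy, pp_right hx hy, ← mul_assoc,
    ← mul_assoc, inv_mul_cancel₀ h1, inv_mul_cancel₀ h2]
  ring

/-- if the normalised sum is future causal then the disks are disjoint -/
theorem disks_disjoint {x y : R31} (hx : 0 < B x x) (hy : 0 < B y y)
    (hc : B (pp x y) (pp x y) ≤ 0) (ht : 0 < (pp x y) 3) : Disk x ∩ Disk y = ∅ := by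
  rw [Set.eq_empty_iff_forall_notMem]
  rintro z ⟨⟨hz, hzx⟩, ⟨-, hzy⟩⟩
  set p := pp x y with hp
  have h1 : 0 < (√(B x x))⁻¹ := inv_pos.mpr (Real.sqrt_pos.mpr hx)
  have h2 : 0 < (√(B y y))⁻¹ := inv_pos.mpr (Real.sqrt_pos.mpr hy)
  have h3 : p 0 * z 0 + p 1 * z 1 + p 2 * z 2 - p 3 =
      (√(B x x))⁻¹ * (x 0 * z 0 + x 1 * z 1 + x 2 * z 2 - x 3) +
      (√(B y y))⁻¹ * (y 0 * z 0 + y 1 * z 1 + y 2 * z 2 - y 3) := by
    simp only [hp, pp, Pi.add_apply, Pi.smul_apply, smul_eq_mul]; ring
  have h4 : 0 < p 0 * z 0 + p 1 * z 1 + p 2 * z 2 - p 3 := by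
    rw [h3]; positivity
  have h5 := cs3 (p 0) (p 1) (p 2) (z 0) (z 1) (z 2)
  rw [hz, mul_one] at h5
  have h6 : p 0 ^ 2 + p 1 ^ 2 + p 2 ^ 2 ≤ p 3 ^ 2 := by
    simp only [B] at hc; nlinarith
  nlinarith

/-- a past causal and a future timelike vector have positive product -/
theorem past_future {p y : R31} (hp : B p p ≤ 0) (hpt : p 3 < 0) (hy : B y y < 0)
    (hyt : 0 < y 3) : 0 < B p y := by
  have h1 := cs3 (p 0) (p 1) (p 2) (y 0) (y 1) (y 2)
  simp only [B] at hp hy ⊢
  have h2 : p 0 ^ 2 + p 1 ^ 2 + p 2 ^ 2 ≤ p 3 ^ 2 := by nlinarith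
  have h3 : y 0 ^ 2 + y 1 ^ 2 + y 2 ^ 2 < y 3 ^ 2 := by nlinarith
  have h4 : 0 < p 3 ^ 2 := by nlinarith
  have h5 : (p 0 * y 0 + p 1 * y 1 + p 2 * y 2) ^ 2 < (p 3 * y 3) ^ 2 := by
    calc _ ≤ (p 0 ^ 2 + p 1 ^ 2 + p 2 ^ 2) * (y 0 ^ 2 + y 1 ^ 2 + y 2 ^ 2) := h1
      _ ≤ p 3 ^ 2 * (y 0 ^ 2 + y 1 ^ 2 + y 2 ^ 2) :=
        mul_le_mul_of_nonneg_right h2 (by positivity)
      _ < p 3 ^ 2 * y 3 ^ 2 := mul_lt_mul_of_pos_left h3 h4
      _ = (p 3 * y 3) ^ 2 := by ring
  have h6 : p 3 * y 3 < 0 := mul_neg_of_neg_of_pos hpt hyt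
  have h7 := sq_lt_sq.mp h5
  rw [abs_of_neg h6] at h7
  have h8 := neg_abs_le (p 0 * y 0 + p 1 * y 1 + p 2 * y 2)
  linarith

theorem inCone_pp (h : ConvexCPolyhedron n) (v w : Fin N) : InCone n (pp (n v) (n w)) := by
  classical
  refine ⟨fun u => (if u = v then (√(B (n v) (n v)))⁻¹ else 0) +
    (if u = w then (√(B (n w) (n w)))⁻¹ else 0), fun u => ?_, ?_⟩
  · dsimp only
    have := Real.sqrt_nonneg (B (n v) (n v))
    have := Real.sqrt_nonneg (B (n w) (n w))
    split_ifs <;> positivity
  · simp only [add_smul, Finset.sum_add_distrib, ite_smul, zero_smul, Finset.sum_ite_eq',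
      Finset.mem_univ, if_true]
    rfl

/-- main lemma -/
theorem shallow_of (h : ConvexCPolyhedron n)
    (hloc : ∀ v w, Adjacent n v w → 0 < Inv (n v) (n w))
    (hft : (∃ y, InCone n y ∧ B y y < 0 ∧ 0 < y 3) ∨ ∀ y, InCone n y → B y y < 0 → 0 < y 3) :
    GloballyShallow n := by
  intro v w hvw
  have hneg := all_neg h hloc
  have hv := h.spacelike v
  have hw := h.spacelike w
  refine ⟨(inv_pos_iff hv hw).mpr (hneg v w hvw), fun hinv => ?_⟩
  set p := pp (n v) (n w) with hp
  have hpp : B p p ≤ 0 := by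
    rw [hp, pp_self hv hw]; linarith
  -- products with the vertex vectors
  have hpu : ∀ u, B p (n u) ≤ 0 := by
    intro u
    by_cases huv : u = v
    · rw [huv, hp, pp_left hv hw]
      exact mul_nonpos_of_nonneg_of_nonpos (Real.sqrt_nonneg _) (by linarith)
    · by_cases huw : u = w
      · rw [huw, hp, pp_right hv hw]
        exact mul_nonpos_of_nonneg_of_nonpos (Real.sqrt_nonneg _) (by linarith)
      · rw [hp, pp, B_add_left, B_smul_left, B_smul_left]
        have h1 := mul_neg_of_pos_of_neg (inv_pos.mpr (Real.sqrt_pos.mpr hv))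
          (hneg v u (Ne.symm huv))
        have h2 := mul_neg_of_pos_of_neg (inv_pos.mpr (Real.sqrt_pos.mpr hw))
          (hneg w u (Ne.symm huw))
        linarith
  have hpu' : ∀ u, u ≠ v → u ≠ w → B p (n u) < 0 := by
    intro u huv huw
    rw [hp, pp, B_add_left, B_smul_left, B_smul_left]
    have h1 := mul_neg_of_pos_of_neg (inv_pos.mpr (Real.sqrt_pos.mpr hv))
      (hneg v u (Ne.symm huv))
    have h2 := mul_neg_of_pos_of_neg (inv_pos.mpr (Real.sqrt_pos.mpr hw))
      (hneg w u (Ne.symm huw))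
    linarith
  have hpC : InCone n p := inCone_pp h v w
  -- `p` is not zero
  have hpne : p ≠ 0 := by
    intro h0
    obtain ⟨φ, hφ⟩ := h.pointed
    have h1 : 0 < φ p := by
      rw [hp, pp, map_add, map_smul, map_smul, smul_eq_mul, smul_eq_mul]
      have := mul_pos (inv_pos.mpr (Real.sqrt_pos.mpr hv)) (hφ v)
      have := mul_pos (inv_pos.mpr (Real.sqrt_pos.mpr hw)) (hφ w)
      linarith
    rw [h0, map_zero] at h1
    exact lt_irrefl _ h1
  rcases lt_trichotomy (p 3) 0 with hneg3 | h03 | hpos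
  · exfalso
    rcases hft with ⟨y, ⟨c, hc, rfl⟩, hy, hyt⟩ | hall
    · have h1 := past_future hpp hneg3 hy hyt
      rw [← Bl_apply, map_sum] at h1
      have h2 : ∑ u, Bl p (c u • n u) ≤ 0 := by
        apply Finset.sum_nonpos
        intro u _
        rw [map_smul, smul_eq_mul, Bl_apply]
        exact mul_nonpos_of_nonneg_of_nonpos (hc u) (hpu u)
      linarith
    · rcases hpp.lt_or_eq with hlt | heq
      · have := hall p hpC hlt; linarith
      · -- `p` is null; perturb
        obtain ⟨u, huv, huw⟩ : ∃ u, u ≠ v ∧ u ≠ w := by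
          by_contra hcon
          push Not at hcon
          have hsub : Set.range n ⊆ ({n v, n w} : Set R31) := by
            rintro _ ⟨u, rfl⟩
            by_cases huv : u = v
            · rw [huv]; exact Or.inl rfl
            · rw [hcon u huv]; exact Or.inr rfl
          have h1 : (Submodule.span ℝ ({n v, n w} : Set R31)) = ⊤ := by
            rw [eq_top_iff, ← h.full]
            exact Submodule.span_mono hsub
          have h2 : Module.finrank ℝ (Submodule.span ℝ (({n v, n w} : Finset R31) : Set R31)) ≤ 2 :=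
            (finrank_span_finset_le_card _).trans Finset.card_le_two
          rw [Finset.coe_pair, h1, finrank_top, Module.finrank_fintype_fun_eq_card,
            Fintype.card_fin] at h2
          omega
        have hb := hpu' u huv huw
        have hu := h.spacelike u
        -- small ε
        obtain ⟨ε, hε, hε1, hε2⟩ : ∃ ε : ℝ, 0 < ε ∧ 2 * B p (n u) + ε * B (n u) (n u) < 0 ∧
            p 3 + ε * n u 3 < 0 := by
          refine ⟨min (-B p (n u) / B (n u) (n u)) (-p 3 / (2 * (|n u 3| + 1))), ?_, ?_, ?_⟩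
          · exact lt_min (div_pos (by linarith) hu) (div_pos (by linarith) (by positivity))
          · have h1 : min (-B p (n u) / B (n u) (n u)) (-p 3 / (2 * (|n u 3| + 1))) *
                B (n u) (n u) ≤ (-B p (n u) / B (n u) (n u)) * B (n u) (n u) :=
              mul_le_mul_of_nonneg_right (min_le_left _ _) hu.le
            rw [div_mul_cancel₀ _ hu.ne'] at h1
            linarith
          · set ε := min (-B p (n u) / B (n u) (n u)) (-p 3 / (2 * (|n u 3| + 1)))
            have hε0 : 0 < ε := lt_min (div_pos (by linarith) hu) (div_pos (by linarith)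
              (by positivity))
            have h1 : ε ≤ -p 3 / (2 * (|n u 3| + 1)) := min_le_right _ _
            rw [le_div_iff₀ (by positivity)] at h1
            have h2 : ε * n u 3 ≤ ε * |n u 3| := mul_le_mul_of_nonneg_left (le_abs_self _) hε0.le
            nlinarith [abs_nonneg (n u 3)]
        have hq : InCone n (p + ε • n u) := by
          classical
          obtain ⟨c, hc, hce⟩ := hpC
          refine ⟨fun a => c a + if a = u then ε else 0, fun a => ?_, ?_⟩
          · dsimp only
            have := hc a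
            split_ifs <;> linarith
          · simp only [add_smul, Finset.sum_add_distrib, ite_smul, zero_smul,
              Finset.sum_ite_eq', Finset.mem_univ, if_true]
            rw [← hce]
        have hqq : B (p + ε • n u) (p + ε • n u) < 0 := by
          rw [B_add_left, B_add_right, B_add_right, B_smul_left, B_smul_right, B_smul_right,
            B_smul_left, heq, B_comm (n u) p]
          have : 0 + ε * B p (n u) + (ε * B p (n u) + ε * (ε * B (n u) (n u))) =
              ε * (2 * B p (n u) + ε * B (n u) (n u)) := by ring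
          rw [this]
          exact mul_neg_of_pos_of_neg hε hε1
        have := hall _ hq hqq
        simp only [Pi.add_apply, Pi.smul_apply, smul_eq_mul] at this
        linarith
  · exfalso
    apply hpne
    simp only [B, h03] at hpp
    funext i
    fin_cases i
    · change p 0 = 0; nlinarith [sq_nonneg (p 0), sq_nonneg (p 1), sq_nonneg (p 2)]
    · change p 1 = 0; nlinarith [sq_nonneg (p 0), sq_nonneg (p 1), sq_nonneg (p 2)]
    · change p 2 = 0; nlinarith [sq_nonneg (p 0), sq_nonneg (p 1), sq_nonneg (p 2)]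
    · exact h03
  · exact disks_disjoint hv hw hpp hpos

end Pool.Agent.Q189.Sh
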