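import Pool.Agent.Q189.Sh3

/-! MP_625e57_gt: orientation reversal and the past cube. -/

set_option autoImplicit false

namespace Pool.Agent.Q189.Sh

open Finset

variable {N : ℕ} {n : Fin N → R31}

theorem B_neg_neg (x y : R31) : B (-x) (-y) = B x y := by simp only [B, Pi.neg_apply]; ring

theorem Inv_neg_neg (x y : R31) : Inv (-x) (-y) = Inv x y := by
  simp only [Inv, B_neg_neg]

theorem neg_polyhedron (h : ConvexCPolyhedron n) : ConvexCPolyhedron (-n) := by
  refine ⟨fun v => ?_, ?_, fun v => ?_, ?_⟩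
  · rw [Pi.neg_apply, B_neg_neg]; exact h.spacelike v
  · obtain ⟨φ, hφ⟩ := h.pointed
    exact ⟨-φ, fun v => by simpa using hφ v⟩
  · obtain ⟨l, hl0, hl⟩ := h.vertex v
    exact ⟨-l, by simpa using hl0, fun w hw => by simpa using hl w hw⟩
  · have : Set.range (-n) = -Set.range n := by
      ext x
      simp only [Set.mem_range, Set.mem_neg, Pi.neg_apply]
      constructor
      · rintro ⟨v, rfl⟩; exact ⟨v, (neg_neg _).symm⟩
      · rintro ⟨v, hv⟩; exact ⟨v, by rw [hv, neg_neg]⟩
    rw [this, Submodule.span_neg, h.full]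

theorem neg_adjacent {v w : Fin N} (h : Adjacent (-n) v w) : Adjacent n v w := by
  obtain ⟨h1, l, h2, h3⟩ := h
  refine ⟨h1, -l, fun u => by simpa using h2 u, fun u => ?_⟩
  have := h3 u
  simpa using this

/-- either the disks or their complements are globally shallow -/
theorem dichotomy (h : ConvexCPolyhedron n)
    (hloc : ∀ v w, Adjacent n v w → 0 < Inv (n v) (n w)) :
    GloballyShallow n ∨ GloballyShallow (-n) := by
  by_cases hp : ∀ y, InCone n y → B y y < 0 → 0 < y 3
  · exact Or.inl (shallow_of h hloc (Or.inr hp))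
  · right
    push Not at hp
    obtain ⟨y, ⟨c, hc, hy⟩, hy1, hy2⟩ := hp
    refine shallow_of (neg_polyhedron h) (fun v w hvw => ?_) (Or.inl ⟨-y, ⟨c, hc, ?_⟩, ?_, ?_⟩)
    · rw [Pi.neg_apply, Pi.neg_apply, Inv_neg_neg]; exact hloc v w (neg_adjacent hvw)
    · rw [hy]; simp
    · rw [B_neg_neg]; exact hy1
    · rcases hy2.lt_or_eq with h1 | h1
      · simpa using h1
      · exfalso
        simp only [B, h1] at hy1
        nlinarith [sq_nonneg (y 0), sq_nonneg (y 1), sq_nonneg (y 2)]

/-! ### the cube -/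

/-- sign -/
def sg (b : Bool) : ℤ := if b then 4 else -4

/-- integer coordinates of the vertices of the past cube -/
def cubeZ (i : Fin 8) : Fin 4 → ℤ :=
  ![sg (i.val.testBit 0), sg (i.val.testBit 1), sg (i.val.testBit 2), -5]

/-- the past cube -/
def cube (i : Fin 8) : R31 := fun k => (cubeZ i k : ℝ)

/-- integer Lorentz form -/
def BZ (x y : Fin 4 → ℤ) : ℤ := x 0 * y 0 + x 1 * y 1 + x 2 * y 2 - x 3 * y 3

theorem B_cube (i j : Fin 8) : B (cube i) (cube j) = (BZ (cubeZ i) (cubeZ j) : ℝ) := by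
  simp only [B, BZ, cube]; push_cast; ring

theorem BZ_self : ∀ i : Fin 8, BZ (cubeZ i) (cubeZ i) = 23 := by decide

theorem BZ_cases : ∀ i j : Fin 8, i ≠ j → BZ (cubeZ i) (cubeZ j) = -9 ∨
    ∃ k l : Fin 8, k ≠ i ∧ k ≠ j ∧ ∀ t, cubeZ i t + cubeZ j t = cubeZ k t + cubeZ l t := by
  decide

theorem lin_apply (l : R31 →ₗ[ℝ] ℝ) (x : R31) :
    l x = x 0 * l (Pi.single 0 1) + x 1 * l (Pi.single 1 1) + x 2 * l (Pi.single 2 1) +
      x 3 * l (Pi.single 3 1) := by
  have h := LinearMap.pi_apply_eq_sum_univ l x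
  rw [h, Fin.sum_univ_four]
  simp only [smul_eq_mul]
  have e : ∀ i : Fin 4, (fun j => if i = j then (1 : ℝ) else 0) = Pi.single i 1 := by
    intro i
    funext j
    by_cases hij : i = j
    · subst hij; simp
    · rw [if_neg hij, Pi.single_eq_of_ne (Ne.symm hij)]
  simp only [e]

/-- the linear functional with given coefficients -/
noncomputable def lf (a b c d : ℝ) : R31 →ₗ[ℝ] ℝ where
  toFun x := a * x 0 + b * x 1 + c * x 2 + d * x 3
  map_add' x y := by simp only [Pi.add_apply]; ring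
  map_smul' r x := by simp only [Pi.smul_apply, smul_eq_mul, RingHom.id_apply]; ring

theorem lf_apply (a b c d : ℝ) (x : R31) : lf a b c d x = a * x 0 + b * x 1 + c * x 2 + d * x 3 :=
  rfl

/-- the functional exposing a vertex -/
def exZ (i j : Fin 8) : ℤ := -(cubeZ i 0 * cubeZ j 0 + cubeZ i 1 * cubeZ j 1 +
  cubeZ i 2 * cubeZ j 2) + 48

theorem exZ_self : ∀ i : Fin 8, exZ i i = 0 := by decide

theorem exZ_pos : ∀ i j : Fin 8, j ≠ i → 0 < exZ i j := by decide

theorem cubeZ_three : ∀ i : Fin 8, cubeZ i 3 = -5 := by decide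

theorem c0 : cubeZ 0 = ![-4, -4, -4, -5] := by decide
theorem c1 : cubeZ 1 = ![4, -4, -4, -5] := by decide
theorem c2 : cubeZ 2 = ![-4, 4, -4, -5] := by decide
theorem c4 : cubeZ 4 = ![-4, -4, 4, -5] := by decide
theorem c7 : cubeZ 7 = ![4, 4, 4, -5] := by decide

theorem cube_polyhedron : ConvexCPolyhedron cube := by
  refine ⟨fun v => ?_, ⟨lf 0 0 0 (-1), fun v => ?_⟩, fun v => ?_, ?_⟩
  · rw [B_cube, BZ_self]; norm_num
  · rw [lf_apply]
    have : cube v 3 = -5 := by simp only [cube, cubeZ_three]; norm_num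
    rw [this]; norm_num
  · have key : ∀ w, lf (-(cube v 0)) (-(cube v 1)) (-(cube v 2)) (-(48 / 5)) (cube w) =
        (exZ v w : ℝ) := by
      intro w
      rw [lf_apply]
      have : cube w 3 = -5 := by simp only [cube, cubeZ_three]; norm_num
      rw [this]
      simp only [cube, exZ]
      push_cast
      ring
    refine ⟨lf (-(cube v 0)) (-(cube v 1)) (-(cube v 2)) (-(48 / 5)), ?_, fun w hw => ?_⟩
    · rw [key, exZ_self]; norm_num
    · rw [key]; exact_mod_cast exZ_pos v w hw
  · -- the vectors span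
    rw [eq_top_iff]
    have hmem : ∀ i, cube i ∈ Submodule.span ℝ (Set.range cube) := fun i =>
      Submodule.subset_span ⟨i, rfl⟩
    have e0 : (Pi.single 0 1 : R31) = (1 / 8 : ℝ) • (cube 1 - cube 0) := by
      funext t; fin_cases t <;> simp [cube, c0, c1, c2, c4, c7] <;> norm_num
    have e1 : (Pi.single 1 1 : R31) = (1 / 8 : ℝ) • (cube 2 - cube 0) := by
      funext t; fin_cases t <;> simp [cube, c0, c1, c2, c4, c7] <;> norm_num
    have e2 : (Pi.single 2 1 : R31) = (1 / 8 : ℝ) • (cube 4 - cube 0) := by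
      funext t; fin_cases t <;> simp [cube, c0, c1, c2, c4, c7] <;> norm_num
    have e3 : (Pi.single 3 1 : R31) = (-1 / 10 : ℝ) • (cube 0 + cube 7) := by
      funext t; fin_cases t <;> simp [cube, c0, c1, c2, c4, c7] <;> norm_num
    intro x _
    have hx : x = x 0 • (Pi.single 0 1 : R31) + x 1 • (Pi.single 1 1 : R31) +
        x 2 • (Pi.single 2 1 : R31) + x 3 • (Pi.single 3 1 : R31) := by
      funext t; fin_cases t <;> simp
    rw [hx, e0, e1, e2, e3]
    refine Submodule.add_mem _ (Submodule.add_mem _ (Submodule.add_mem _ ?_ ?_) ?_) ?_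
    · exact Submodule.smul_mem _ _ (Submodule.smul_mem _ _ (Submodule.sub_mem _ (hmem _) (hmem _)))
    · exact Submodule.smul_mem _ _ (Submodule.smul_mem _ _ (Submodule.sub_mem _ (hmem _) (hmem _)))
    · exact Submodule.smul_mem _ _ (Submodule.smul_mem _ _ (Submodule.sub_mem _ (hmem _) (hmem _)))
    · exact Submodule.smul_mem _ _ (Submodule.smul_mem _ _ (Submodule.add_mem _ (hmem _) (hmem _)))

theorem sqrt23 : √(23 : ℝ) * √(23 : ℝ) = 23 := Real.mul_self_sqrt (by norm_num)

theorem Inv_cube (i j : Fin 8) : Inv (cube i) (cube j) = -((BZ (cubeZ i) (cubeZ j) : ℝ) / 23) := by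
  rw [Inv, B_cube, B_cube, B_cube, BZ_self, BZ_self]
  norm_num [sqrt23]

theorem cube_local : LocallyShallow cube := by
  rintro v w ⟨hvw, l, hl, hl0⟩
  have hBZ : BZ (cubeZ v) (cubeZ w) = -9 := by
    rcases BZ_cases v w hvw with h | ⟨k, m, hkv, hkw, hsum⟩
    · exact h
    · exfalso
      have h1 : cube v + cube w = cube k + cube m := by
        funext t
        simp only [Pi.add_apply, cube]
        exact_mod_cast hsum t
      have h2 := congrArg l h1
      rw [map_add, map_add, (hl0 v).mpr (Or.inl rfl), (hl0 w).mpr (Or.inr rfl)] at h2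
      have h3 := hl k
      have h4 := hl m
      have h5 : l (cube k) = 0 := by linarith
      rcases (hl0 k).mp h5 with h6 | h6
      · exact hkv h6
      · exact hkw h6
  rw [ShallowPair, Inv_cube, hBZ]
  norm_num

theorem cube_not_global : ¬ GloballyShallow cube := by
  intro h
  have h1 := h 4 7 (by decide)
  rw [ShallowPair, Inv_cube] at h1
  have h2 : BZ (cubeZ 4) (cubeZ 7) = -41 := by decide
  rw [h2] at h1
  have h3 := h1.2 (by norm_num)
  rw [Set.eq_empty_iff_forall_notMem] at h3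
  apply h3 ![0, 0, 1]
  constructor
  · refine ⟨by simp, ?_⟩
    simp [cube, c4, c7]
    norm_num
  · refine ⟨by simp, ?_⟩
    simp [cube, c4, c7]
    norm_num

end Pool.Agent.Q189.Sh
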