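import Pool.Agent.Q189.Sh4

/-! MP_625e57_gt: the past cube is hyperbolic. -/

set_option autoImplicit false

namespace Pool.Agent.Q189.Sh

open Finset

/-- the three space coordinates -/
def sp (k : Fin 3) : Fin 4 := k.castSucc

theorem cubeZ_val : ∀ (u : Fin 8) (k : Fin 3), cubeZ u (sp k) = 4 ∨ cubeZ u (sp k) = -4 := by
  decide

theorem cubeZ_flip : ∀ (u : Fin 8) (k : Fin 3), ∃ w : Fin 8,
    cubeZ w (sp k) = -cubeZ u (sp k) ∧ ∀ j : Fin 3, j ≠ k → cubeZ w (sp j) = cubeZ u (sp j) := by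
  decide

theorem cubeZ_two : ∀ i j : Fin 3, i ≠ j → ∀ u : Fin 8,
    (Finset.univ.filter fun w : Fin 8 => cubeZ w (sp i) = cubeZ u (sp i) ∧
      cubeZ w (sp j) = cubeZ u (sp j)).card ≤ 2 := by
  decide

/-- coefficients -/
noncomputable def cf (l : R31 →ₗ[ℝ] ℝ) (k : Fin 4) : ℝ := l (Pi.single k 1)

theorem l_cube (l : R31 →ₗ[ℝ] ℝ) (u : Fin 8) : l (cube u) =
    ∑ k : Fin 3, (cubeZ u (sp k) : ℝ) * cf l (sp k) - 5 * cf l 3 := by
  have h3 : cube u 3 = -5 := by simp only [cube, cubeZ_three]; norm_num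
  have e0 : sp 0 = 0 := rfl
  have e1 : sp 1 = 1 := rfl
  have e2 : sp 2 = 2 := rfl
  have f0 : cube u 0 = (cubeZ u 0 : ℝ) := rfl
  have f1 : cube u 1 = (cubeZ u 1 : ℝ) := rfl
  have f2 : cube u 2 = (cubeZ u 2 : ℝ) := rfl
  rw [lin_apply, Fin.sum_univ_three, h3, e0, e1, e2, f0, f1, f2]
  unfold cf
  ring

theorem sign_of_zero {l : R31 →ₗ[ℝ] ℝ} (hl : ∀ u, 0 ≤ l (cube u)) {u : Fin 8}
    (hu : l (cube u) = 0) (k : Fin 3) : (cubeZ u (sp k) : ℝ) * cf l (sp k) ≤ 0 := by
  obtain ⟨w, hw1, hw2⟩ := cubeZ_flip u k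
  have h1 := hl w
  rw [l_cube] at h1 hu
  rw [← Finset.add_sum_erase _ _ (Finset.mem_univ k)] at h1 hu
  have h2 : ∑ j ∈ Finset.univ.erase k, (cubeZ w (sp j) : ℝ) * cf l (sp j) =
      ∑ j ∈ Finset.univ.erase k, (cubeZ u (sp j) : ℝ) * cf l (sp j) := by
    apply Finset.sum_congr rfl
    intro j hj
    rw [hw2 j (Finset.ne_of_mem_erase hj)]
  rw [h2, hw1] at h1
  push_cast at h1
  linarith

theorem eq_of_zero {l : R31 →ₗ[ℝ] ℝ} (hl : ∀ u, 0 ≤ l (cube u)) {u w : Fin 8}
    (hu : l (cube u) = 0) (hw : l (cube w) = 0) {k : Fin 3} (hk : cf l (sp k) ≠ 0) :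
    cubeZ w (sp k) = cubeZ u (sp k) := by
  have h1 := sign_of_zero hl hu k
  have h2 := sign_of_zero hl hw k
  rcases cubeZ_val u k with h3 | h3 <;> rcases cubeZ_val w k with h4 | h4 <;> rw [h3, h4] <;>
    exfalso <;> rw [h3] at h1 <;> rw [h4] at h2 <;> push_cast at h1 h2 <;>
    exact hk (by linarith)

theorem cube_hyperbolic : Hyperbolic cube := by
  classical
  intro l hl hfr
  -- the zero set is not empty
  obtain ⟨u, hu⟩ : ∃ u, l (cube u) = 0 := by
    by_contra hcon
    push Not at hcon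
    have : cube '' {u | l (cube u) = 0} = ∅ := by
      rw [Set.image_eq_empty]
      ext u
      simp [hcon u]
    rw [this, Submodule.span_empty, finrank_bot] at hfr
    omega
  -- at most one space coefficient is nonzero
  have hone : ∀ i j : Fin 3, i ≠ j → cf l (sp i) ≠ 0 → cf l (sp j) = 0 := by
    intro i j hij hi
    by_contra hj
    set S : Finset (Fin 8) := Finset.univ.filter fun w : Fin 8 => cubeZ w (sp i) = cubeZ u (sp i) ∧
      cubeZ w (sp j) = cubeZ u (sp j) with hS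
    have hsub : cube '' {u | l (cube u) = 0} ⊆ ((S.image cube : Finset R31) : Set R31) := by
      rintro _ ⟨w, hw, rfl⟩
      rw [Finset.mem_coe]
      apply Finset.mem_image_of_mem
      rw [hS, Finset.mem_filter]
      exact ⟨Finset.mem_univ _, eq_of_zero hl hu hw hi, eq_of_zero hl hu hw hj⟩
    have h1 := Submodule.finrank_mono (Submodule.span_mono (R := ℝ) hsub)
    have h2 := finrank_span_finset_le_card (R := ℝ) (S.image cube)
    change Module.finrank ℝ (Submodule.span ℝ ((S.image cube : Finset R31) : Set R31)) ≤ _ at h2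
    have h3 : (S.image cube).card ≤ S.card := Finset.card_image_le
    have h4 : S.card ≤ 2 := cubeZ_two i j hij u
    omega
  -- not all are zero
  obtain ⟨k, hk⟩ : ∃ k : Fin 3, cf l (sp k) ≠ 0 := by
    by_contra hcon
    push Not at hcon
    have hd : cf l 3 = 0 := by
      rw [l_cube] at hu
      simp only [hcon, mul_zero, Finset.sum_const_zero, zero_sub] at hu
      linarith
    have hz : ∀ w, l (cube w) = 0 := by
      intro w
      rw [l_cube]
      simp [hcon, hd]
    have h1 : cube '' {u | l (cube u) = 0} = Set.range cube := by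
      ext x
      simp [hz]
    rw [h1, cube_polyhedron.full, finrank_top, Module.finrank_fintype_fun_eq_card,
      Fintype.card_fin] at hfr
    omega
  refine ⟨(cubeZ u (sp k) : ℝ) • Pi.single (sp k) 1 + (-5 : ℝ) • Pi.single 3 1, ?_, ?_⟩
  · rw [map_add, map_smul, map_smul, smul_eq_mul, smul_eq_mul]
    rw [l_cube, ← Finset.add_sum_erase _ _ (Finset.mem_univ k)] at hu
    have h2 : ∑ j ∈ Finset.univ.erase k, (cubeZ u (sp j) : ℝ) * cf l (sp j) = 0 := by
      apply Finset.sum_eq_zero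
      intro j hj
      rw [hone k j (Finset.ne_of_mem_erase hj).symm hk, mul_zero]
    rw [h2, add_zero] at hu
    have h3 : l (Pi.single (sp k) 1) = cf l (sp k) := rfl
    have h4 : l (Pi.single 3 1) = cf l 3 := rfl
    rw [h3, h4]
    linarith
  · have hsq : (cubeZ u (sp k) : ℝ) ^ 2 = 16 := by
      rcases cubeZ_val u k with h | h <;> rw [h] <;> norm_num
    fin_cases k <;> simp [B, sp] at hsq ⊢ <;> nlinarith

end Pool.Agent.Q189.Sh
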