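import Pool.Agent.Q189.Sh5

/-! MP_625e57_gt: the literal reading of hyperbolic. -/

set_option autoImplicit false

namespace Pool.Agent.Q189.Sh

open Finset

/-- every hyperplane (through the apex) which supports the cone at some vertex ray, not only the
facet hyperplanes, contains a timelike vector -/
def HyperbolicAll {N : ℕ} (n : Fin N → R31) : Prop :=
  ∀ l : R31 →ₗ[ℝ] ℝ, l ≠ 0 → (∀ u, 0 ≤ l (n u)) → (∃ u, l (n u) = 0) → ∃ x : R31, l x = 0 ∧ B x x < 0

variable {N : ℕ} {n : Fin N → R31}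

/-- the open future cone -/
def Fut : Set R31 := {y | B y y < 0 ∧ 0 < y 3}

theorem sq_lt_of_fut {y : R31} (hy : y ∈ Fut) :
    √(y 0 ^ 2 + y 1 ^ 2 + y 2 ^ 2) < y 3 := by
  rw [Real.sqrt_lt' hy.2]
  have := hy.1
  simp only [B] at this
  nlinarith

theorem fut_of_sqrt {y : R31} (hy : √(y 0 ^ 2 + y 1 ^ 2 + y 2 ^ 2) < y 3) : y ∈ Fut := by
  have h3 : 0 < y 3 := lt_of_le_of_lt (Real.sqrt_nonneg _) hy
  rw [Real.sqrt_lt' h3] at hy
  refine ⟨?_, h3⟩
  simp only [B]
  nlinarith

theorem minkowski3 (x y z a b c : ℝ) :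
    √((x + a) ^ 2 + (y + b) ^ 2 + (z + c) ^ 2) ≤ √(x ^ 2 + y ^ 2 + z ^ 2) +
      √(a ^ 2 + b ^ 2 + c ^ 2) := by
  have h1 : 0 ≤ x ^ 2 + y ^ 2 + z ^ 2 := by positivity
  have h2 : 0 ≤ a ^ 2 + b ^ 2 + c ^ 2 := by positivity
  rw [Real.sqrt_le_left (by positivity)]
  have h3 : x * a + y * b + z * c ≤ √(x ^ 2 + y ^ 2 + z ^ 2) * √(a ^ 2 + b ^ 2 + c ^ 2) := by
    rw [← Real.sqrt_mul h1]
    apply Real.le_sqrt_of_sq_le
    exact cs3 x y z a b c
  nlinarith [Real.sq_sqrt h1, Real.sq_sqrt h2]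

theorem fut_convex : Convex ℝ Fut := by
  intro x hx y hy a b ha hb hab
  apply fut_of_sqrt
  have hx' := sq_lt_of_fut hx
  have hy' := sq_lt_of_fut hy
  simp only [Pi.add_apply, Pi.smul_apply, smul_eq_mul]
  have h1 := minkowski3 (a * x 0) (a * x 1) (a * x 2) (b * y 0) (b * y 1) (b * y 2)
  have e1 : √((a * x 0) ^ 2 + (a * x 1) ^ 2 + (a * x 2) ^ 2) =
      a * √(x 0 ^ 2 + x 1 ^ 2 + x 2 ^ 2) := by
    rw [← Real.sqrt_sq ha, ← Real.sqrt_mul (sq_nonneg _), Real.sqrt_sq ha]
    congr 1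
    ring
  have e2 : √((b * y 0) ^ 2 + (b * y 1) ^ 2 + (b * y 2) ^ 2) =
      b * √(y 0 ^ 2 + y 1 ^ 2 + y 2 ^ 2) := by
    rw [← Real.sqrt_sq hb, ← Real.sqrt_mul (sq_nonneg _), Real.sqrt_sq hb]
    congr 1
    ring
  rw [e1, e2] at h1
  rcases ha.eq_or_lt with h0 | h0
  · subst h0
    have : b = 1 := by linarith
    subst this
    simp only [zero_mul, one_mul, zero_add] at h1 ⊢
    exact hy'
  · have h2 := mul_lt_mul_of_pos_left hx' h0
    have h3 := mul_le_mul_of_nonneg_left hy'.le hb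
    linarith

theorem fut_open : IsOpen Fut := by
  apply IsOpen.inter
  · have : Continuous fun y : R31 => B y y := by unfold B; fun_prop
    exact isOpen_lt this continuous_const
  · exact isOpen_lt continuous_const (continuous_apply 3)

theorem cone_convex : Convex ℝ {y | InCone n y} := by
  rintro x ⟨c, hc, rfl⟩ y ⟨d, hd, rfl⟩ a b ha hb hab
  refine ⟨fun v => a * c v + b * d v, fun v => by have := hc v; have := hd v; positivity, ?_⟩
  rw [Finset.smul_sum, Finset.smul_sum, ← Finset.sum_add_distrib]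
  apply Finset.sum_congr rfl
  intro v _
  rw [add_smul, smul_smul, smul_smul]

theorem neg_of_null_dir {s : Fin 3 → ℝ} (hs : s 0 ^ 2 + s 1 ^ 2 + s 2 ^ 2 = 1) {y : R31}
    (hy : y ∈ Fut) : lf (-(s 0)) (-(s 1)) (-(s 2)) (-1) y < 0 := by
  rw [lf_apply]
  have h1 := sq_lt_of_fut hy
  have h2 : -(s 0 * y 0 + s 1 * y 1 + s 2 * y 2) ≤ √(y 0 ^ 2 + y 1 ^ 2 + y 2 ^ 2) := by
    apply Real.le_sqrt_of_sq_le
    have := cs3 (s 0) (s 1) (s 2) (y 0) (y 1) (y 2)
    rw [hs, one_mul] at this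
    nlinarith
  nlinarith

/-- under the literal reading the cone contains a future timelike vector -/
theorem future_of_hyperbolicAll (h : ConvexCPolyhedron n) (hyp : HyperbolicAll n) :
    ∃ y, InCone n y ∧ B y y < 0 ∧ 0 < y 3 := by
  classical
  by_contra hcon
  push Not at hcon
  have hdisj : Disjoint Fut {y | InCone n y} := by
    rw [Set.disjoint_left]
    intro y hy hyK
    exact absurd (hcon y hyK hy.1) (not_le.mpr hy.2)
  obtain ⟨f, u, hf1, hf2⟩ := geometric_hahn_banach_open fut_convex fut_open cone_convex hdisj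
  have hu : u ≤ 0 := by
    have := hf2 0 ⟨0, fun _ => le_rfl, by simp⟩
    simpa using this
  have hfK : ∀ v, 0 ≤ f (n v) := by
    intro v
    by_contra hneg
    push Not at hneg
    have hmem : InCone n (((u - 1) / f (n v)) • n v) := by
      refine ⟨fun w => if w = v then (u - 1) / f (n v) else 0, fun w => ?_, ?_⟩
      · dsimp only
        split_ifs
        · exact div_nonneg_of_nonpos (by linarith) hneg.le
        · exact le_rfl
      · simp only [ite_smul, zero_smul]
        rw [Finset.sum_ite_eq' Finset.univ v, if_pos (Finset.mem_univ _)]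
    have := hf2 _ hmem
    rw [map_smul, smul_eq_mul, div_mul_cancel₀ _ hneg.ne] at this
    linarith
  -- there is a vertex
  obtain ⟨v⟩ : Nonempty (Fin N) := by
    by_contra hE
    rw [not_nonempty_iff] at hE
    have h1 := h.full
    rw [Set.range_eq_empty, Submodule.span_empty] at h1
    have h2 : (1 : R31) ∈ (⊤ : Submodule ℝ R31) := Submodule.mem_top
    rw [← h1, Submodule.mem_bot] at h2
    exact one_ne_zero h2
  -- the second functional
  set ρ : ℝ := √(n v 0 ^ 2 + n v 1 ^ 2 + n v 2 ^ 2) with hρ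
  have hsp := h.spacelike v
  have hρ2 : ρ ^ 2 = n v 0 ^ 2 + n v 1 ^ 2 + n v 2 ^ 2 := Real.sq_sqrt (by positivity)
  have hρd : n v 3 ^ 2 < ρ ^ 2 := by
    rw [hρ2]; simp only [B] at hsp; nlinarith
  have hρ0 : 0 < ρ := by
    rcases (Real.sqrt_nonneg (n v 0 ^ 2 + n v 1 ^ 2 + n v 2 ^ 2)).eq_or_lt with h0 | h0
    · rw [← hρ] at h0
      rw [← h0] at hρd
      nlinarith [sq_nonneg (n v 3)]
    · exact h0
  set s : Fin 3 → ℝ := ![n v 0 / ρ, n v 1 / ρ, n v 2 / ρ] with hs
  have hs1 : s 0 ^ 2 + s 1 ^ 2 + s 2 ^ 2 = 1 := by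
    simp only [hs, Matrix.cons_val_zero, Matrix.cons_val_one, Matrix.cons_val]
    rw [div_pow, div_pow, div_pow, ← add_div, ← add_div, ← hρ2]
    exact div_self (by positivity)
  set g : R31 →ₗ[ℝ] ℝ := lf (-(s 0)) (-(s 1)) (-(s 2)) (-1) with hg
  have hgF : ∀ y ∈ Fut, g y < 0 := fun y hy => neg_of_null_dir hs1 hy
  have hgv : g (n v) < 0 := by
    have e : g (n v) = -ρ - n v 3 := by
      rw [hg, lf_apply]
      simp only [hs, Matrix.cons_val_zero, Matrix.cons_val_one, Matrix.cons_val]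
      field_simp
      nlinarith [hρ2]
    rw [e]
    have := abs_lt_of_sq_lt_sq hρd hρ0.le
    have := (abs_lt.mp this).1
    linarith
  -- first time a vertex is hit
  obtain ⟨w, hw, hwmin⟩ := Finset.exists_min_image
    (Finset.univ.filter fun w : Fin N => g (n w) < 0)
    (fun w => f (n w) / (f (n w) - g (n w))) ⟨v, by simp [hgv]⟩
  rw [Finset.mem_filter] at hw
  have hgw := hw.2
  set t : ℝ := f (n w) / (f (n w) - g (n w)) with ht
  have hden : 0 < f (n w) - g (n w) := by have := hfK w; linarith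
  have ht0 : 0 ≤ t := div_nonneg (hfK w) hden.le
  have ht1 : t < 1 := by rw [ht, div_lt_one hden]; linarith
  set l : R31 →ₗ[ℝ] ℝ := (1 - t) • (f : R31 →ₗ[ℝ] ℝ) + t • g with hl
  have hlv : ∀ x, l x = (1 - t) * f x + t * g x := by
    intro x
    simp [hl]
  have hlF : ∀ y ∈ Fut, l y < 0 := by
    intro y hy
    rw [hlv]
    have h1 : f y < 0 := lt_of_lt_of_le (hf1 y hy) hu
    have h2 := hgF y hy
    have h3 : (1 - t) * f y < 0 := mul_neg_of_pos_of_neg (by linarith) h1
    have h4 : t * g y ≤ 0 := mul_nonpos_of_nonneg_of_nonpos ht0 h2.le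
    linarith
  have hlK : ∀ x, 0 ≤ l (n x) := by
    intro x
    rw [hlv]
    by_cases hx : g (n x) < 0
    · have h1 := hwmin x (by simp [hx])
      have hden' : 0 < f (n x) - g (n x) := by have := hfK x; linarith
      rw [le_div_iff₀ hden'] at h1
      linarith
    · push Not at hx
      have := hfK x
      have h3 : 0 ≤ (1 - t) * f (n x) := mul_nonneg (by linarith) this
      have h4 := mul_nonneg ht0 hx
      linarith
  have hlw : l (n w) = 0 := by
    rw [hlv]
    have : t * (f (n w) - g (n w)) = f (n w) := by rw [ht]; field_simp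
    linarith
  have hl0 : l ≠ 0 := by
    intro h0
    have hm : (Pi.single 3 1 : R31) ∈ Fut := by
      constructor
      · simp [B]
      · simp
    have := hlF _ hm
    rw [h0] at this
    simp at this
  obtain ⟨x, hx1, hx2⟩ := hyp l hl0 hlK ⟨w, hlw⟩
  rcases lt_trichotomy (x 3) 0 with h3 | h3 | h3
  · have : l (-x) < 0 := hlF _ ⟨by rw [B_neg_neg]; exact hx2, by simpa using h3⟩
    rw [map_neg, hx1] at this
    simp at this
  · simp only [B, h3] at hx2
    nlinarith [sq_nonneg (x 0), sq_nonneg (x 1), sq_nonneg (x 2)]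
  · have := hlF x ⟨hx2, h3⟩
    linarith

end Pool.Agent.Q189.Sh
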