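import Mathlib

/-! Definitions for MP_625e57_gt: circle polyhedra in de Sitter space. -/

set_option autoImplicit false

namespace Pool.Agent.Q189.Sh

noncomputable section

/-- `ℝ^{3,1}`; the coordinates `0, 1, 2` are the space coordinates, `3` is time. -/
abbrev R31 : Type := Fin 4 → ℝ

/-- the Lorentz form -/
def B (x y : R31) : ℝ := x 0 * y 0 + x 1 * y 1 + x 2 * y 2 - x 3 * y 3

/-- the open oriented disk on the unit sphere determined by a spacelike vector -/
def Disk (n : R31) : Set (Fin 3 → ℝ) :=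
  {x | x 0 ^ 2 + x 1 ^ 2 + x 2 ^ 2 = 1 ∧ 0 < n 0 * x 0 + n 1 * x 1 + n 2 * x 2 - n 3}

/-- inversive distance -/
def Inv (n m : R31) : ℝ := -(B n m / (√(B n n) * √(B m m)))

variable {N : ℕ}

/-- A convex circle polyhedron, given by spacelike vectors `n v` on its vertex rays: the cone
generated by the `n v` is pointed (it has its apex at the origin), it is four-dimensional, and the
vertex rays are exactly the rays through the `n v` (each one is exposed by a linear
functional, nonnegative on the cone, which vanishes on this ray and on no other `n w`). -/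
structure ConvexCPolyhedron (n : Fin N → R31) : Prop where
  spacelike : ∀ v, 0 < B (n v) (n v)
  pointed : ∃ φ : R31 →ₗ[ℝ] ℝ, ∀ v, 0 < φ (n v)
  vertex : ∀ v, ∃ l : R31 →ₗ[ℝ] ℝ, l (n v) = 0 ∧ ∀ w, w ≠ v → 0 < l (n w)
  full : Submodule.span ℝ (Set.range n) = ⊤

/-- `v` and `w` are adjacent: the cone over `n v, n w` is a (two-dimensional) face. -/
def Adjacent (n : Fin N → R31) (v w : Fin N) : Prop :=
  v ≠ w ∧ ∃ l : R31 →ₗ[ℝ] ℝ, (∀ u, 0 ≤ l (n u)) ∧ ∀ u, l (n u) = 0 ↔ u = v ∨ u = w

/-- hyperbolic: the hyperplane of every facet (three-dimensional face) of the cone contains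
a timelike vector. -/
def Hyperbolic (n : Fin N → R31) : Prop :=
  ∀ l : R31 →ₗ[ℝ] ℝ, (∀ u, 0 ≤ l (n u)) →
    Module.finrank ℝ (Submodule.span ℝ (n '' {u | l (n u) = 0})) = 3 →
      ∃ x : R31, l x = 0 ∧ B x x < 0

/-- two disks satisfy the two conditions of shallowness -/
def ShallowPair (n m : R31) : Prop :=
  0 < Inv n m ∧ (1 ≤ Inv n m → Disk n ∩ Disk m = ∅)

/-- locally shallow -/
def LocallyShallow (n : Fin N → R31) : Prop :=
  ∀ v w, Adjacent n v w → ShallowPair (n v) (n w)

/-- globally shallow -/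
def GloballyShallow (n : Fin N → R31) : Prop :=
  ∀ v w, v ≠ w → ShallowPair (n v) (n w)

/-- `y` is a nonnegative combination of the vertex vectors -/
def InCone (n : Fin N → R31) (y : R31) : Prop :=
  ∃ c : Fin N → ℝ, (∀ v, 0 ≤ c v) ∧ y = ∑ v, c v • n v

end

end Pool.Agent.Q189.Sh
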