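import Pool.Agent.Q189.SimpDefs

/-!
# Construction of simplicial refinements from stochastic matrices
-/

set_option autoImplicit false

namespace Q189.SimpBuild

open Q189.SimpDefs

/-- the unit vectors -/
noncomputable def vtx (k : ℕ) : Fin k → (Fin k → ℝ) := fun j => Pi.single j 1

theorem hull_vtx (k : ℕ) : hull (vtx k) = stdSimplex ℝ (Fin k) :=
  convexHull_rangle_single_eq_stdSimplex ℝ (Fin k)

theorem vtx_affineIndependent (k : ℕ) : AffineIndependent ℝ (vtx k) := by
  have h : LinearIndependent ℝ (vtx k) := by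
    have := (Pi.basisFun ℝ (Fin k)).linearIndependent
    convert this using 1
    funext j
    simp [vtx, Pi.basisFun_apply]
  exact h.affineIndependent

variable {k m : ℕ} {W : Type} [AddCommGroup W] [Module ℝ W]

section
variable (A : Fin m → Fin k → ℝ) (hA : ∀ i, A i ∈ stdSimplex ℝ (Fin k))
  (F : (Fin k → ℝ) →ₗ[ℝ] W)

/-- the image polytope -/
def img : Set W := hull (fun i => F (A i))

theorem image_hull : F '' (hull A) = img A F := by
  unfold img hull
  rw [LinearMap.image_convexHull, ← Set.range_comp]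
  rfl

theorem mem_img {x : Fin k → ℝ} (hx : x ∈ hull A) : F x ∈ img A F := by
  rw [← image_hull]; exact ⟨x, hx, rfl⟩

theorem vert_mem (i : Fin m) : F (A i) ∈ img A F :=
  mem_img A F (subset_convexHull ℝ _ ⟨i, rfl⟩)

include hA in
theorem hull_sub : hull A ⊆ hull (vtx k) := by
  rw [hull_vtx]
  apply convexHull_min
  · rintro _ ⟨i, rfl⟩
    exact hA i
  · exact convex_stdSimplex ℝ (Fin k)

/-- the partial projection -/
noncomputable def fmap : PartialAffineOnto (hull (vtx k)) (img A F) where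
  dom := hull A
  toFun := F
  dom_subset := hull_sub A hA
  dom_convex := fun x hx y hy a b ha hb hab => convex_convexHull ℝ _ hx hy ha hb hab
  map_convex := fun x _ y _ a b _ _ _ => by rw [map_add, map_smul, map_smul]
  onto := image_hull A F

/-- compatibility of an effect on `T` with an effect on `C` -/
def Rel (η : hull (vtx k) → ℝ) (ω : img A F → ℝ) : Prop :=
  ∀ (x : hull (vtx k)) (y : img A F), (x : Fin k → ℝ) ∈ hull A → F x = y → ω y = η x

include hA in
theorem Rel.unique {η : hull (vtx k) → ℝ} {ω ω' : img A F → ℝ} (h : Rel A F η ω)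
    (h' : Rel A F η ω') : ω = ω' := by
  funext y
  obtain ⟨x, hx, hxy⟩ : (y : W) ∈ F '' (hull A) := by rw [image_hull]; exact y.2
  rw [h ⟨x, hull_sub A hA hx⟩ y hx hxy, h' ⟨x, hull_sub A hA hx⟩ y hx hxy]

theorem Rel.comb {η η' : hull (vtx k) → ℝ} {ω ω' : img A F → ℝ} (h : Rel A F η ω)
    (h' : Rel A F η' ω') (a b : ℝ) : Rel A F (a • η + b • η') (a • ω + b • ω') := by
  intro x y hx hxy
  simp only [Pi.add_apply, Pi.smul_apply, smul_eq_mul]
  rw [h x y hx hxy, h' x y hx hxy]

theorem convexForms_comb {V : Type} [AddCommGroup V] [Module ℝ V] {C : Set V} {η η' : C → ℝ}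
    (h : η ∈ convexForms C) (h' : η' ∈ convexForms C) {a b : ℝ} (ha : 0 ≤ a) (hb : 0 ≤ b)
    (hab : a + b = 1) : a • η + b • η' ∈ convexForms C := by
  refine ⟨fun x => ?_, ?_⟩
  · obtain ⟨h1, h2⟩ := h.1 x
    obtain ⟨h3, h4⟩ := h'.1 x
    simp only [Pi.add_apply, Pi.smul_apply, smul_eq_mul]
    constructor
    · positivity
    · nlinarith
  · intro x y z c d hc hd hcd hz
    simp only [Pi.add_apply, Pi.smul_apply, smul_eq_mul]
    rw [h.2 x y z c d hc hd hcd hz, h'.2 x y z c d hc hd hcd hz]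
    ring

/-- an effect on `T` from its values at the vertices -/
def eff (β : Fin k → ℝ) : hull (vtx k) → ℝ := fun x => ∑ j, (x : Fin k → ℝ) j * β j

theorem eff_mem (β : Fin k → ℝ) (hβ : ∀ j, β j ∈ Set.Icc (0 : ℝ) 1) :
    eff β ∈ convexForms (hull (vtx k)) := by
  refine ⟨fun x => ?_, ?_⟩
  · have hx : (x : Fin k → ℝ) ∈ stdSimplex ℝ (Fin k) := by rw [← hull_vtx]; exact x.2
    constructor
    · exact Finset.sum_nonneg fun j _ => mul_nonneg (hx.1 j) (hβ j).1
    · calc ∑ j, (x : Fin k → ℝ) j * β j ≤ ∑ j, (x : Fin k → ℝ) j * 1 :=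
            Finset.sum_le_sum fun j _ => mul_le_mul_of_nonneg_left (hβ j).2 (hx.1 j)
        _ = 1 := by simp only [mul_one]; exact hx.2
  · intro x y z a b _ _ _ hz
    simp only [eff]
    rw [hz, Finset.mul_sum, Finset.mul_sum, ← Finset.sum_add_distrib]
    refine Finset.sum_congr rfl fun j _ => ?_
    simp only [Pi.add_apply, Pi.smul_apply, smul_eq_mul]
    ring

theorem rel_eff (ω : img A F → ℝ) (hω : ω ∈ convexForms (img A F)) (β : Fin k → ℝ)
    (hβ : ∀ i, ∑ j, A i j * β j = ω ⟨F (A i), vert_mem A F i⟩) : Rel A F (eff β) ω := by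
  have hsub : hull A ⊆ {x | x ∈ hull A ∧ ∀ y : img A F, F x = y → ω y = ∑ j, x j * β j} := by
    apply convexHull_min
    · rintro _ ⟨i, rfl⟩
      refine ⟨subset_convexHull ℝ _ ⟨i, rfl⟩, fun y hy => ?_⟩
      rw [hβ i]
      congr 1
      exact Subtype.ext hy.symm
    · rintro x ⟨hx, hx'⟩ y ⟨hy, hy'⟩ a b ha hb hab
      refine ⟨convex_convexHull ℝ _ hx hy ha hb hab, fun z hz => ?_⟩
      have h1 := hx' ⟨F x, mem_img A F hx⟩ rfl
      have h2 := hy' ⟨F y, mem_img A F hy⟩ rfl
      have h3 := hω.2 ⟨F x, mem_img A F hx⟩ ⟨F y, mem_img A F hy⟩ z a b ha hb hab (by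
        rw [← hz, map_add, map_smul, map_smul])
      rw [h3, h1, h2, Finset.mul_sum, Finset.mul_sum, ← Finset.sum_add_distrib]
      refine Finset.sum_congr rfl fun j _ => ?_
      simp only [Pi.add_apply, Pi.smul_apply, smul_eq_mul]
      ring
  intro x y hx hxy
  exact (hsub hx).2 y hxy

open Classical in
/-- the partial map of effects -/
noncomputable def gmap
    (H : ∀ ω ∈ convexForms (img A F), ∃ β : Fin k → ℝ, (∀ j, β j ∈ Set.Icc (0 : ℝ) 1) ∧
      ∀ i, ∑ j, A i j * β j = ω ⟨F (A i), vert_mem A F i⟩) :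
    PartialAffineOnto (convexForms (hull (vtx k))) (convexForms (img A F)) where
  dom := {η | η ∈ convexForms (hull (vtx k)) ∧ ∃ ω, ω ∈ convexForms (img A F) ∧ Rel A F η ω}
  toFun := fun η => if h : ∃ ω, ω ∈ convexForms (img A F) ∧ Rel A F η ω then h.choose else 0
  dom_subset := fun η h => h.1
  dom_convex := by
    rintro x ⟨hx, ω, hω, hr⟩ y ⟨hy, ω', hω', hr'⟩ a b ha hb hab
    exact ⟨convexForms_comb hx hy ha hb hab, a • ω + b • ω', convexForms_comb hω hω' ha hb hab,
      Rel.comb A F hr hr' a b⟩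
  map_convex := by
    rintro x ⟨hx, hex⟩ y ⟨hy, hey⟩ a b ha hb hab
    have hez : ∃ ω, ω ∈ convexForms (img A F) ∧ Rel A F (a • x + b • y) ω :=
      ⟨a • hex.choose + b • hey.choose,
        convexForms_comb hex.choose_spec.1 hey.choose_spec.1 ha hb hab,
        Rel.comb A F hex.choose_spec.2 hey.choose_spec.2 a b⟩
    rw [dif_pos hex, dif_pos hey, dif_pos hez]
    exact Rel.unique A hA F hez.choose_spec.2
      (Rel.comb A F hex.choose_spec.2 hey.choose_spec.2 a b)
  onto := by
    ext ω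
    constructor
    · rintro ⟨η, ⟨hη, hex⟩, rfl⟩
      simp only
      rw [dif_pos hex]
      exact hex.choose_spec.1
    · intro hω
      obtain ⟨β, hβ, hβ'⟩ := H ω hω
      have hr := rel_eff A F ω hω β hβ'
      have hex : ∃ ω, ω ∈ convexForms (img A F) ∧ Rel A F (eff β) ω := ⟨ω, hω, hr⟩
      refine ⟨eff β, ⟨eff_mem β hβ, hex⟩, ?_⟩
      simp only
      rw [dif_pos hex]
      exact Rel.unique A hA F hex.choose_spec.2 hr

theorem isRef
    (H : ∀ ω ∈ convexForms (img A F), ∃ β : Fin k → ℝ, (∀ j, β j ∈ Set.Icc (0 : ℝ) 1) ∧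
      ∀ i, ∑ j, A i j * β j = ω ⟨F (A i), vert_mem A F i⟩) :
    IsSimplicialRefinement (vtx k) (img A F) (fmap A hA F) (gmap A hA F H) := by
  refine ⟨vtx_affineIndependent k, ?_⟩
  rintro η ⟨hη, hex⟩ x y hx hxy
  have e : (gmap A hA F H).toFun η = hex.choose := dif_pos hex
  rw [e]
  exact hex.choose_spec.2 x y hx hxy

end

end Q189.SimpBuild
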