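import Mathlib

/-!
# Simplicial refinements of statistical models: definitions
-/

set_option autoImplicit false

namespace Q189.SimpDefs

/-- The convex-form space `Ω_C`: the affine functions `C → [0, 1]`, as a subset of the vector space
of all functions `C → ℝ`. -/
def convexForms {V : Type} [AddCommGroup V] [Module ℝ V] (C : Set V) : Set (C → ℝ) :=
  {ω | (∀ x, ω x ∈ Set.Icc (0 : ℝ) 1) ∧
    ∀ (x y z : C) (a b : ℝ), 0 ≤ a → 0 ≤ b → a + b = 1 → (z : V) = a • (x : V) + b • (y : V) →
      ω z = a * ω x + b * ω y}

/-- A polytope: the convex hull of finitely many (and at least one) points. -/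
def IsPolytope {V : Type} [AddCommGroup V] [Module ℝ V] (C : Set V) : Prop :=
  ∃ S : Set V, S.Finite ∧ S.Nonempty ∧ C = convexHull ℝ S

/-- The convex hull of the points `v 0, ..., v (k - 1)`; it is the simplex with these vertices
when they are affinely independent. -/
def hull {V : Type} [AddCommGroup V] [Module ℝ V] {k : ℕ} (v : Fin k → V) : Set V :=
  convexHull ℝ (Set.range v)

/-- `C` is a simplex. -/
def IsSimplex {V : Type} [AddCommGroup V] [Module ℝ V] (C : Set V) : Prop :=
  ∃ (k : ℕ) (v : Fin (k + 1) → V), AffineIndependent ℝ v ∧ C = hull v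

/-- A partial affine onto map from the convex set `X` to the convex set `Y`: a map defined on a
subset `dom` of `X` (the values of `toFun` outside `dom` are irrelevant), such that whenever it is
defined at `x` and `y` it is defined at every convex combination of `x` and `y`, with the
corresponding value, and whose image is `Y`. -/
structure PartialAffineOnto {V W : Type} [AddCommGroup V] [Module ℝ V] [AddCommGroup W]
    [Module ℝ W] (X : Set V) (Y : Set W) where
  dom : Set V
  toFun : V → W
  dom_subset : dom ⊆ X
  dom_convex : ∀ x ∈ dom, ∀ y ∈ dom, ∀ a b : ℝ, 0 ≤ a → 0 ≤ b → a + b = 1 → a • x + b • y ∈ dom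
  map_convex : ∀ x ∈ dom, ∀ y ∈ dom, ∀ a b : ℝ, 0 ≤ a → 0 ≤ b → a + b = 1 →
    toFun (a • x + b • y) = a • toFun x + b • toFun y
  onto : toFun '' dom = Y

/-- `(T, Ω_T, f, g)` is a simplicial refinement of `(C, Ω_C)`, where `T` is the simplex with
vertices `v 0, ..., v (k - 1)`: the vertices are affinely independent and
`g(ω)·f(x) = ω·x` for all `x` in the domain of `f` and all `ω` in the domain of `g`. -/
def IsSimplicialRefinement {V W : Type} [AddCommGroup V] [Module ℝ V] [AddCommGroup W]
    [Module ℝ W] {k : ℕ} (v : Fin k → V) (C : Set W) (f : PartialAffineOnto (hull v) C)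
    (g : PartialAffineOnto (convexForms (hull v)) (convexForms C)) : Prop :=
  AffineIndependent ℝ v ∧
    ∀ ω ∈ g.dom, ∀ (x : hull v) (y : C), (x : V) ∈ f.dom → f.toFun x = y → g.toFun ω y = ω x

end Q189.SimpDefs
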