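import Mathlib

/-!
# Volume of the corner simplex
-/

set_option autoImplicit false

open MeasureTheory Set

namespace Q189.SimplexVol

/-- the corner simplex -/
def S (n : ℕ) (c : ℝ) : Set (Fin n → ℝ) := {y | (∀ i, 0 ≤ y i) ∧ ∑ i, y i ≤ c}

theorem S_closed (n : ℕ) (c : ℝ) : IsClosed (S n c) := by
  have : S n c = (⋂ i, {y : Fin n → ℝ | 0 ≤ y i}) ∩ {y | ∑ i, y i ≤ c} := by
    ext y; simp [S]
  rw [this]
  exact (isClosed_iInter fun i => isClosed_le continuous_const (continuous_apply i)).inter
    (isClosed_le (by fun_prop) continuous_const)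

theorem S_neg (n : ℕ) {c : ℝ} (hc : c < 0) : S n c = ∅ := by
  ext y
  simp only [mem_empty_iff_false, iff_false]
  rintro ⟨h1, h2⟩
  have := Finset.sum_nonneg fun i (_ : i ∈ (Finset.univ : Finset (Fin n))) => h1 i
  linarith

theorem volume_S : ∀ (n : ℕ) (c : ℝ), 0 ≤ c →
    volume (S n c) = ENNReal.ofReal (c ^ n / n.factorial) := by
  intro n
  induction n with
  | zero =>
    intro c hc
    have : S 0 c = univ := by
      ext y; simp [S, hc]
    rw [this, Measure.volume_pi_eq_dirac (fun i => i.elim0)]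
    simp
  | succ n ih =>
    intro c hc
    have hmp := volume_preserving_piFinSuccAbove (fun _ : Fin (n + 1) => ℝ) 0
    have hms : MeasurableSet {p : ℝ × (Fin n → ℝ) | 0 ≤ p.1 ∧ p.2 ∈ S n (c - p.1)} := by
      have : {p : ℝ × (Fin n → ℝ) | 0 ≤ p.1 ∧ p.2 ∈ S n (c - p.1)} =
          {p | 0 ≤ p.1} ∩ ((⋂ i, {p | 0 ≤ p.2 i}) ∩ {p | ∑ i, p.2 i ≤ c - p.1}) := by
        ext p; simp [S]
      rw [this]
      refine (isClosed_le continuous_const continuous_fst).measurableSet.inter
        (MeasurableSet.inter ?_ ?_)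
      · exact MeasurableSet.iInter fun i =>
          (isClosed_le continuous_const (by fun_prop)).measurableSet
      · exact (isClosed_le (by fun_prop) (by fun_prop)).measurableSet
    have hpre : S (n + 1) c = (MeasurableEquiv.piFinSuccAbove (fun _ : Fin (n + 1) => ℝ) 0) ⁻¹'
        {p : ℝ × (Fin n → ℝ) | 0 ≤ p.1 ∧ p.2 ∈ S n (c - p.1)} := by
      ext y
      simp only [S, mem_setOf_eq, mem_preimage, Fin.forall_fin_succ, Fin.sum_univ_succ,
        MeasurableEquiv.piFinSuccAbove_apply]
      constructor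
      · rintro ⟨⟨h0, h1⟩, h2⟩
        exact ⟨h0, h1, by simp only [Fin.insertNthEquiv_symm_apply]; simpa [Fin.removeNth] using (by linarith : ∑ i : Fin n, y i.succ ≤ c - y 0)⟩
      · rintro ⟨h0, h1, h2⟩
        refine ⟨⟨h0, h1⟩, ?_⟩
        have h3 : ∑ i : Fin n, y i.succ ≤ c - y 0 := by
          simpa [Fin.removeNth, Fin.tail] using h2
        linarith
    rw [hpre, hmp.measure_preimage hms.nullMeasurableSet, Measure.volume_eq_prod,
      Measure.prod_apply hms]
    have hslice : ∀ x : ℝ, volume (Prod.mk x ⁻¹'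
        {p : ℝ × (Fin n → ℝ) | 0 ≤ p.1 ∧ p.2 ∈ S n (c - p.1)}) =
        (Icc (0 : ℝ) c).indicator (fun x => ENNReal.ofReal ((c - x) ^ n / n.factorial)) x := by
      intro x
      by_cases hx0 : 0 ≤ x
      · have e : Prod.mk x ⁻¹' {p : ℝ × (Fin n → ℝ) | 0 ≤ p.1 ∧ p.2 ∈ S n (c - p.1)} =
            S n (c - x) := by
          ext y; simp [hx0]
        rw [e]
        by_cases hxc : x ≤ c
        · have hmem : x ∈ Icc 0 c := ⟨hx0, hxc⟩
          rw [indicator_of_mem hmem, ih (c - x) (by linarith)]
        · rw [indicator_of_notMem (fun h => hxc h.2), S_neg n (by push Not at hxc; linarith)]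
          simp
      · have e : Prod.mk x ⁻¹' {p : ℝ × (Fin n → ℝ) | 0 ≤ p.1 ∧ p.2 ∈ S n (c - p.1)} = ∅ := by
          ext y; simp [hx0]
        rw [e, indicator_of_notMem (fun h => hx0 h.1)]
        simp
    rw [lintegral_congr hslice, lintegral_indicator measurableSet_Icc,
      ← ofReal_integral_eq_lintegral_ofReal]
    · congr 1
      rw [integral_Icc_eq_integral_Ioc, ← intervalIntegral.integral_of_le hc,
        intervalIntegral.integral_div, intervalIntegral.integral_comp_sub_left (fun x => x ^ n),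
        integral_pow]
      rw [Nat.factorial_succ]
      push_cast
      field_simp
      simp
    · exact (Continuous.integrableOn_Icc (by fun_prop))
    · refine (ae_restrict_iff' measurableSet_Icc).2 (Filter.Eventually.of_forall fun x hx => ?_)
      have : 0 ≤ c - x := by linarith [hx.2]
      positivity

end Q189.SimplexVol
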