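import Pool.Agent.Q189.ZonMain
import Pool.Agent.TH84.HC.Sidak

/-!
# Six standard deviations, for any number of vectors
-/

set_option autoImplicit false

open MeasureTheory ProbabilityTheory Finset
open scoped RealInnerProductSpace ENNReal

namespace Q189.Spencer

open Pool.Agent.TH84.HC (LC g1)

theorem tail (t : ℝ) (ht : 0 ≤ t) :
    1 - 2 * Real.exp (-t ^ 2 / 2) ≤ (gaussianReal 0 1).real {x | |x| ≤ t} := by
  have one : ∀ s : ℝ, (gaussianReal 0 1).real {x | t ≤ x} ≤ Real.exp (-t ^ 2 / 2) := by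
    intro _
    have h2 := measure_ge_le_exp_mul_mgf (μ := gaussianReal 0 1) (X := fun x => x) t
      (t := t) ht (by simpa using integrable_exp_mul_gaussianReal (μ := 0) (v := 1) t)
    refine h2.trans ?_
    have h3 : mgf (fun x => x) (gaussianReal 0 1) t = Real.exp (t ^ 2 / 2) := by
      have := (mgf_gaussianReal (p := gaussianReal 0 1) (X := fun x => x) (μ := 0) (v := 1)
        (by simp)) t
      simpa using this
    rw [h3, ← Real.exp_add]
    apply Real.exp_le_exp.2
    ring_nf
    exact le_rfl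
  have hneg : (gaussianReal 0 1).real {x | t ≤ -x} ≤ Real.exp (-t ^ 2 / 2) := by
    have h2 := measure_ge_le_exp_mul_mgf (μ := gaussianReal 0 1) (X := fun x => -x) t
      (t := t) ht (by
        have := integrable_exp_mul_gaussianReal (μ := 0) (v := 1) (-t)
        refine this.congr (Filter.Eventually.of_forall fun x => ?_)
        simp)
    refine h2.trans ?_
    have h3 : mgf (fun x => -x) (gaussianReal 0 1) t = Real.exp (t ^ 2 / 2) := by
      have := (mgf_gaussianReal (p := gaussianReal 0 1) (X := fun x => -x) (μ := 0) (v := 1)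
        (by
          have := gaussianReal_map_neg (μ := 0) (v := 1)
          simpa using this)) t
      simpa using this
    rw [h3, ← Real.exp_add]
    apply Real.exp_le_exp.2
    ring_nf
    exact le_rfl
  have hsub : ({x : ℝ | |x| ≤ t}ᶜ) ⊆ {x | t ≤ x} ∪ {x | t ≤ -x} := by
    intro x hx
    simp only [Set.mem_compl_iff, Set.mem_setOf_eq, not_le] at hx
    rcases lt_abs.1 hx with h | h
    · exact Or.inl h.le
    · exact Or.inr h.le
  have hm : MeasurableSet {x : ℝ | |x| ≤ t} := measurableSet_le (by fun_prop) measurable_const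
  have h1 : (gaussianReal 0 1).real ({x : ℝ | |x| ≤ t}ᶜ) ≤ 2 * Real.exp (-t ^ 2 / 2) := by
    refine (measureReal_mono hsub (measure_lt_top _ _).ne).trans ((measureReal_union_le _ _).trans ?_)
    have := one 0
    linarith
  rw [probReal_compl_eq_one_sub hm] at h1
  linarith

theorem LC_ind (b s : ℝ) (hb : 0 ≤ b) :
    LC (fun x : ℝ => if |x| * b ≤ s then (1 : ℝ≥0∞) else 0) where
  meas := Measurable.ite (measurableSet_le (by fun_prop) measurable_const) measurable_const
    measurable_const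
  le1 := fun x => by split_ifs <;> simp
  even := fun x => by simp [abs_neg]
  lc := fun r h0 h1 x y => by
    have h1' : 0 < 1 - r := by linarith
    by_cases hx : |x| * b ≤ s
    · by_cases hy : |y| * b ≤ s
      · have hz : |r • x + (1 - r) • y| * b ≤ s := by
          have : |r • x + (1 - r) • y| ≤ r * |x| + (1 - r) * |y| := by
            calc |r • x + (1 - r) • y| ≤ |r • x| + |(1 - r) • y| := abs_add_le _ _
              _ = _ := by simp [abs_mul, abs_of_pos h0, abs_of_pos h1']
          calc |r • x + (1 - r) • y| * b ≤ (r * |x| + (1 - r) * |y|) * b :=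
                mul_le_mul_of_nonneg_right this hb
            _ = r * (|x| * b) + (1 - r) * (|y| * b) := by ring
            _ ≤ r * s + (1 - r) * s := by gcongr
            _ = s := by ring
        simp only [if_pos hx, if_pos hy, if_pos hz]
        simp
      · simp only [if_pos hx, if_neg hy]
        rw [ENNReal.zero_rpow_of_pos h1']
        simp
    · simp only [if_neg hx]
      rw [ENNReal.zero_rpow_of_pos h0]
      simp

/-- Gaussian measure of a symmetric polytope -/
theorem poly_meas {n m : ℕ} (hn : 0 < n) (a : Fin m → EuclideanSpace ℝ (Fin n)) (W t : ℝ)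
    (hW : 0 < W) (ha : ∀ k, ‖a k‖ ≤ W) (ht : 0 ≤ t) (hq : 2 * Real.exp (-t ^ 2 / 2) ≤ 1) :
    ENNReal.ofReal ((1 - 2 * Real.exp (-t ^ 2 / 2)) ^ m) ≤
      Pool.Agent.PZ871.gm n {x | ∀ k, |⟪x, a k⟫| ≤ t * W} := by
  classical
  set e0 : EuclideanSpace ℝ (Fin n) := EuclideanSpace.single ⟨0, hn⟩ 1 with he0
  have he0n : ‖e0‖ = 1 := by simp [he0]
  set φ : Fin m → EuclideanSpace ℝ (Fin n) := fun k => if a k = 0 then e0 else ‖a k‖⁻¹ • a k with hφ
  have hφn : ∀ k, ‖φ k‖ = 1 := by
    intro k
    simp only [hφ]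
    split_ifs with h
    · exact he0n
    · rw [norm_smul, norm_inv, norm_norm, inv_mul_cancel₀ (norm_ne_zero_iff.2 h)]
  have hin : ∀ k (x : EuclideanSpace ℝ (Fin n)), |⟪x, φ k⟫| * ‖a k‖ = |⟪x, a k⟫| := by
    intro k x
    simp only [hφ]
    split_ifs with h
    · simp [h]
    · rw [inner_smul_right, abs_mul, abs_of_pos (inv_pos.2 (norm_pos_iff.2 h)), mul_comm, ← mul_assoc,
        mul_inv_cancel₀ (norm_ne_zero_iff.2 h), one_mul]
  have key := Pool.Agent.TH84.HC.sidak (n := n) (Finset.univ : Finset (Fin m))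
    (fun k x => if |x| * ‖a k‖ ≤ t * W then (1 : ℝ≥0∞) else 0) φ
    (fun k _ => LC_ind _ _ (norm_nonneg _)) (fun k _ => hφn k)
  have hL : ∀ k : Fin m, ENNReal.ofReal (1 - 2 * Real.exp (-t ^ 2 / 2)) ≤
      ∫⁻ x : ℝ, (if |x| * ‖a k‖ ≤ t * W then (1 : ℝ≥0∞) else 0) ∂g1 := by
    intro k
    have h1 : (g1 {x : ℝ | |x| ≤ t}) ≤
        ∫⁻ x : ℝ, (if |x| * ‖a k‖ ≤ t * W then (1 : ℝ≥0∞) else 0) ∂g1 := by
      rw [← lintegral_indicator_one (measurableSet_le (by fun_prop) measurable_const)]
      refine lintegral_mono fun x => ?_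
      by_cases hx : |x| ≤ t
      · have : |x| * ‖a k‖ ≤ t * W := mul_le_mul hx (ha k) (norm_nonneg _) ht
        simp [this, hx]
      · simp [hx]
    refine le_trans ?_ h1
    rw [ENNReal.ofReal_le_iff_le_toReal (measure_ne_top _ _)]
    exact tail t ht
  have hR : ∫⁻ w, ∏ k, (if |⟪w, φ k⟫| * ‖a k‖ ≤ t * W then (1 : ℝ≥0∞) else 0)
      ∂(Pool.Agent.PZ871.gm n) = Pool.Agent.PZ871.gm n {x | ∀ k, |⟪x, a k⟫| ≤ t * W} := by
    have hms : MeasurableSet {x : EuclideanSpace ℝ (Fin n) | ∀ k, |⟪x, a k⟫| ≤ t * W} := by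
      have : {x : EuclideanSpace ℝ (Fin n) | ∀ k, |⟪x, a k⟫| ≤ t * W} =
          ⋂ k, {x | |⟪x, a k⟫| ≤ t * W} := by ext x; simp
      rw [this]
      exact MeasurableSet.iInter fun k => measurableSet_le (by fun_prop) measurable_const
    rw [← lintegral_indicator_one hms]
    refine lintegral_congr fun x => ?_
    simp only [hin]
    by_cases hx : ∀ k, |⟪x, a k⟫| ≤ t * W
    · rw [Set.indicator_of_mem (by exact hx)]
      simp [hx]
    · rw [Set.indicator_of_notMem (by exact hx)]
      push Not at hx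
      obtain ⟨k, hk⟩ := hx
      exact Finset.prod_eq_zero (Finset.mem_univ k) (if_neg (not_le.2 hk))
  calc ENNReal.ofReal ((1 - 2 * Real.exp (-t ^ 2 / 2)) ^ m)
      = ∏ _k : Fin m, ENNReal.ofReal (1 - 2 * Real.exp (-t ^ 2 / 2)) := by
        rw [Finset.prod_const, Finset.card_univ, Fintype.card_fin, ENNReal.ofReal_pow (by linarith)]
    _ ≤ ∏ k : Fin m, ∫⁻ x : ℝ, (if |x| * ‖a k‖ ≤ t * W then (1 : ℝ≥0∞) else 0) ∂g1 :=
        Finset.prod_le_prod' fun k _ => hL k
    _ ≤ _ := key
    _ = _ := hR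

end Q189.Spencer
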