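import Pool.Agent.Q189.Spencer

/-!
# Six standard deviations, for any number of vectors (colouring steps)
-/

set_option autoImplicit false

open MeasureTheory ProbabilityTheory Finset
open scoped RealInnerProductSpace ENNReal

namespace Q189.Spencer

open Pool.Agent.H902R3.ZA Pool.Agent.H172R2.ZS in
theorem COL : S_COL := COL_ok SHI_ok AVG_ok Pool.Agent.H172R2.GS.HAM_ok

theorem pow_bound (q : ℝ) (h0 : 0 ≤ q) (h1 : q ≤ 1 / 2) (m : ℕ) :
    Real.exp (-(2 * q * m)) ≤ (1 - q) ^ m := by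
  have h : Real.exp (-(2 * q)) ≤ 1 - q := by
    have h2 : Real.exp (2 * q) * (1 - q) ≥ 1 := by
      have h3 : 1 + 2 * q + (2 * q) ^ 2 / 2 ≤ Real.exp (2 * q) :=
        Real.quadratic_le_exp_of_nonneg (by linarith)
      have h4 : (1 + 2 * q + (2 * q) ^ 2 / 2) * (1 - q) ≤ Real.exp (2 * q) * (1 - q) :=
        mul_le_mul_of_nonneg_right h3 (by linarith)
      have h5 : 1 ≤ (1 + 2 * q + (2 * q) ^ 2 / 2) * (1 - q) := by
        nlinarith [mul_nonneg h0 (sub_nonneg.2 h1), mul_nonneg (mul_nonneg h0 h0) (sub_nonneg.2 h1)]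
      linarith
    rw [Real.exp_neg]
    rw [inv_le_iff_one_le_mul₀ (Real.exp_pos _)]
    linarith
  calc Real.exp (-(2 * q * m)) = Real.exp (-(2 * q)) ^ m := by
        rw [← Real.exp_nat_mul]; congr 1; ring
    _ ≤ _ := pow_le_pow_left₀ (Real.exp_pos _).le h m

theorem partial_fin (M m : ℕ) (hM : 4 ≤ M) (hMm : M ≤ m) (a : Fin M → Fin m → ℝ)
    (ha : ∀ i k, |a i k| ≤ 1) :
    ∃ δ : Fin M → ℝ, (∀ i, δ i = 0 ∨ δ i = 1 ∨ δ i = -1) ∧
      (M : ℝ) ≤ 10 * ((univ.filter fun i => δ i ≠ 0).card : ℝ) ∧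
      ∀ k, |∑ i, δ i * a i k| ≤ 50 * √(√((m : ℝ) * M)) := by
  classical
  have hM0 : (0 : ℝ) < M := by exact_mod_cast (by omega : 0 < M)
  have hm0 : (0 : ℝ) < m := by exact_mod_cast (by omega : 0 < m)
  have hMm' : (M : ℝ) ≤ m := by exact_mod_cast hMm
  set y : ℝ := √((m : ℝ) / M) with hy
  have hy1 : 1 ≤ y := by
    rw [hy, Real.one_le_sqrt, one_le_div hM0]; exact hMm'
  have hy2 : y ^ 2 = (m : ℝ) / M := Real.sq_sqrt (by positivity)
  set t : ℝ := 5 * √y with ht
  have ht2 : t ^ 2 = 25 * y := by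
    rw [ht, mul_pow, Real.sq_sqrt (by linarith)]; norm_num
  set W : ℝ := √(M : ℝ) with hW
  have hWpos : 0 < W := Real.sqrt_pos.2 hM0
  have htW : t * W = 5 * √(√((m : ℝ) * M)) := by
    have h1 : √(√((m : ℝ) * M)) = √y * √(M : ℝ) := by
      rw [← Real.sqrt_mul (by linarith)]
      congr 1
      have : y * M = √((m : ℝ) / M) * √((M : ℝ) ^ 2) := by
        rw [Real.sqrt_sq hM0.le]
      rw [this, ← Real.sqrt_mul (by positivity)]
      congr 1
      field_simp
    rw [h1, ht, hW]; ring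
  -- the numerical estimate
  have hexp : (12.5 * y) ^ 4 / 24 ≤ Real.exp (12.5 * y) := by
    have := Real.pow_div_factorial_le_exp (12.5 * y) (by linarith) 4
    simpa [Nat.factorial] using this
  have hq' : Real.exp (-t ^ 2 / 2) ≤ 1 / (1000 * y ^ 4) := by
    have e : -t ^ 2 / 2 = -(12.5 * y) := by
      have : -t ^ 2 / 2 = -(t ^ 2) / 2 := by ring
      rw [this, ht2]; ring
    rw [e, Real.exp_neg, ← one_div]
    apply one_div_le_one_div_of_le (by positivity)
    refine le_trans ?_ hexp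
    have : (0 : ℝ) < y ^ 4 := by positivity
    nlinarith
  have hy4 : 1 ≤ y ^ 4 := one_le_pow₀ hy1
  have hq : 2 * Real.exp (-t ^ 2 / 2) ≤ 1 / 2 := by
    have : 1 / (1000 * y ^ 4) ≤ 1 / 1000 := by
      apply one_div_le_one_div_of_le (by norm_num); linarith
    linarith
  let A : Fin m → EuclideanSpace ℝ (Fin M) := fun k => WithLp.toLp 2 (fun i => a i k)
  have hA : ∀ k, ‖A k‖ ≤ W := by
    intro k
    rw [EuclideanSpace.norm_eq, hW]
    apply Real.sqrt_le_sqrt
    calc ∑ i, ‖(A k) i‖ ^ 2 ≤ ∑ _i : Fin M, (1 : ℝ) := by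
          refine Finset.sum_le_sum fun i _ => ?_
          have : ‖(A k) i‖ ≤ 1 := ha i k
          have h0 : 0 ≤ ‖(A k) i‖ := norm_nonneg _
          nlinarith
      _ = M := by simp
  have hmeas := poly_meas (n := M) (m := m) (by omega) A W t hWpos hA (by positivity)
    (by linarith)
  let B : Set (Fin M → ℝ) := {g | ∀ k, |∑ i, g i * a i k| ≤ t * W}
  have hBc : IsClosed B := by
    have : B = ⋂ k, {g : Fin M → ℝ | |∑ i, g i * a i k| ≤ t * W} := by ext x; simp [B]
    rw [this]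
    exact isClosed_iInter fun k => isClosed_le (by fun_prop) continuous_const
  have hBconv : Convex ℝ B := by
    intro x hx z hz α β hα hβ hαβ k
    have e : ∑ i, (α • x + β • z) i * a i k = α * ∑ i, x i * a i k + β * ∑ i, z i * a i k := by
      rw [Finset.mul_sum, Finset.mul_sum, ← Finset.sum_add_distrib]
      refine Finset.sum_congr rfl fun i _ => ?_
      simp only [Pi.add_apply, Pi.smul_apply, smul_eq_mul]; ring
    rw [e]
    calc |α * ∑ i, x i * a i k + β * ∑ i, z i * a i k|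
        ≤ |α * ∑ i, x i * a i k| + |β * ∑ i, z i * a i k| := abs_add_le _ _
      _ = α * |∑ i, x i * a i k| + β * |∑ i, z i * a i k| := by
          rw [abs_mul, abs_mul, abs_of_nonneg hα, abs_of_nonneg hβ]
      _ ≤ α * (t * W) + β * (t * W) := by
          gcongr
          · exact hx k
          · exact hz k
      _ = t * W := by rw [← add_mul, hαβ, one_mul]
  have hBs : ∀ g ∈ B, -g ∈ B := by
    intro g hg k
    have := hg k
    simpa [Finset.sum_neg_distrib, abs_neg] using this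
  have hBm : Real.exp (-(3 * (M : ℝ) / 200)) / 2 ≤ ((Pool.Agent.H902R3.ZA.gm M) B).toReal := by
    have hrel : Pool.Agent.PZ871.gm M {x | ∀ k, |⟪x, A k⟫| ≤ t * W} = (Pool.Agent.H902R3.ZA.gm M) B := by
      have hms : MeasurableSet {x : EuclideanSpace ℝ (Fin M) | ∀ k, |⟪x, A k⟫| ≤ t * W} := by
        have : {x : EuclideanSpace ℝ (Fin M) | ∀ k, |⟪x, A k⟫| ≤ t * W} =
            ⋂ k, {x | |⟪x, A k⟫| ≤ t * W} := by ext x; simp
        rw [this]
        exact MeasurableSet.iInter fun k => measurableSet_le (by fun_prop) measurable_const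
      have h1 := Pool.Agent.TH84.HC.lint_pi M
        ({x : EuclideanSpace ℝ (Fin M) | ∀ k, |⟪x, A k⟫| ≤ t * W}.indicator 1)
        (measurable_one.indicator hms)
      rw [lintegral_indicator_one hms] at h1
      rw [h1, ← lintegral_indicator_one hBc.measurableSet]
      refine lintegral_congr fun z => ?_
      have hiff : ((WithLp.toLp 2 z : EuclideanSpace ℝ (Fin M)) ∈
          {x : EuclideanSpace ℝ (Fin M) | ∀ k, |⟪x, A k⟫| ≤ t * W}) ↔ z ∈ B := by
        simp only [Set.mem_setOf_eq, B]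
        refine forall_congr' fun k => ?_
        have : ⟪(WithLp.toLp 2 z : EuclideanSpace ℝ (Fin M)), A k⟫ = ∑ i, z i * a i k := by
          simp [A, PiLp.inner_apply, mul_comm]
        rw [this]
      by_cases hz : z ∈ B
      · rw [Set.indicator_of_mem (hiff.2 hz), Set.indicator_of_mem hz]
        rfl
      · rw [Set.indicator_of_notMem (fun h => hz (hiff.1 h)), Set.indicator_of_notMem hz]
    rw [hrel, ENNReal.ofReal_le_iff_le_toReal (measure_ne_top _ _)] at hmeas
    refine le_trans ?_ hmeas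
    refine le_trans ?_ (pow_bound _ (by positivity) hq m)
    have h1 : 2 * (2 * Real.exp (-t ^ 2 / 2)) * m ≤ 3 * (M : ℝ) / 200 := by
      have hm : (m : ℝ) = M * y ^ 2 := by rw [hy2]; field_simp
      calc 2 * (2 * Real.exp (-t ^ 2 / 2)) * m ≤ 2 * (2 * (1 / (1000 * y ^ 4))) * m := by gcongr
        _ = (M : ℝ) / (250 * y ^ 2) := by rw [hm]; field_simp; norm_num
        _ ≤ (M : ℝ) / 250 := by
          apply div_le_div_of_nonneg_left hM0.le (by norm_num)
          nlinarith
        _ ≤ _ := by linarith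
    have h2 : Real.exp (-(3 * (M : ℝ) / 200)) ≤
        Real.exp (-(2 * (2 * Real.exp (-t ^ 2 / 2)) * m)) := Real.exp_le_exp.2 (by linarith)
    have h3 := Real.exp_pos (-(3 * (M : ℝ) / 200))
    linarith
  obtain ⟨δ, hδ, hcard, hmem⟩ := COL M B hBconv hBc hBs (fun _ => 1) (fun _ => 1)
    (fun _ => one_pos) (fun _ => by norm_num) hM hBm
  refine ⟨fun i => δ ⟨i, 0⟩, fun i => hδ _, ?_, ?_⟩
  · have e : (univ.filter fun i => δ i ≠ 0).card =
        (univ.filter fun i : Fin M => δ ⟨i, 0⟩ ≠ 0).card := by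
      refine Finset.card_bij (fun x _ => x.1) ?_ ?_ ?_
      · rintro ⟨i, j⟩ h
        obtain rfl : j = 0 := Subsingleton.elim _ _
        exact Finset.mem_filter.2 ⟨Finset.mem_univ _, (Finset.mem_filter.1 h).2⟩
      · rintro ⟨i, j⟩ _ ⟨i', j'⟩ _ h
        obtain rfl : j = 0 := Subsingleton.elim _ _
        obtain rfl : j' = 0 := Subsingleton.elim _ _
        change i = i' at h
        rw [h]
      · intro i h
        exact ⟨⟨i, 0⟩, Finset.mem_filter.2 ⟨Finset.mem_univ _, (Finset.mem_filter.1 h).2⟩, rfl⟩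
    rw [e] at hcard
    simpa using hcard
  · intro k
    have h1 := hmem k
    have e : ∑ i, (fun j => (1 / 10 : ℝ) * ((∑ l : Fin ((fun _ : Fin M => 1) j), δ ⟨j, l⟩) /
        ((fun _ : Fin M => 1) j : ℕ)) / (fun _ : Fin M => (1 : ℝ)) j) i * a i k =
        (1 / 10) * ∑ i, δ ⟨i, 0⟩ * a i k := by
      rw [Finset.mul_sum]
      refine Finset.sum_congr rfl fun i _ => ?_
      simp
      ring
    rw [e, abs_mul, htW, abs_of_pos (by norm_num : (0 : ℝ) < 1 / 10)] at h1
    change |∑ i, δ ⟨i, 0⟩ * a i k| ≤ _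
    linarith

end Q189.Spencer
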