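import Pool.Agent.Q189.Spencer2

/-!
# Six standard deviations, for any number of vectors (conclusion)
-/

set_option autoImplicit false

open Finset

namespace Q189.Spencer

/-- colouring step on a finite set of indices -/
theorem partial_set {n m : ℕ} (a : Fin n → Fin m → ℝ) (ha : ∀ i k, |a i k| ≤ 1)
    (S : Finset (Fin n)) (h4 : 4 ≤ S.card) (hS : S.card ≤ m) :
    ∃ δ : Fin n → ℝ, (∀ i, δ i = 0 ∨ δ i = 1 ∨ δ i = -1) ∧
      (S.card : ℝ) ≤ 10 * ((S.filter fun i => δ i ≠ 0).card : ℝ) ∧
      ∀ k, |∑ i ∈ S, δ i * a i k| ≤ 50 * √(√((m : ℝ) * S.card)) := by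
  classical
  set e := S.equivFin with he
  obtain ⟨δ, h1, h2, h3⟩ := partial_fin S.card m h4 hS (fun j k => a (e.symm j) k)
    (fun j k => ha _ _)
  refine ⟨fun i => if h : i ∈ S then δ (e ⟨i, h⟩) else 0, ?_, ?_, ?_⟩
  · intro i
    by_cases h : i ∈ S
    · simp only [h, dif_pos]; exact h1 _
    · simp [h]
  · refine h2.trans (le_of_eq ?_)
    congr 2
    refine Finset.card_bij (fun j _ => (e.symm j : Fin n)) ?_ ?_ ?_
    · intro j hj
      have := (Finset.mem_filter.1 hj).2
      simp only [Finset.mem_filter, Finset.coe_mem, true_and, dif_pos]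
      simpa using this
    · intro j _ j' _ h
      exact e.symm.injective (Subtype.ext h)
    · intro i hi
      obtain ⟨hiS, hne⟩ := Finset.mem_filter.1 hi
      simp only [hiS, dif_pos] at hne
      exact ⟨e ⟨i, hiS⟩, Finset.mem_filter.2 ⟨Finset.mem_univ _, hne⟩, by simp⟩
  · intro k
    refine le_trans (le_of_eq ?_) (h3 k)
    congr 1
    rw [← Finset.sum_coe_sort S, ← Equiv.sum_comp e.symm]
    refine Finset.sum_congr rfl fun j _ => ?_
    simp

theorem herdisc {n m : ℕ} (a : Fin n → Fin m → ℝ) (ha : ∀ i k, |a i k| ≤ 1) :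
    ∀ (c : ℕ) (S : Finset (Fin n)), S.card = c → S.card ≤ m →
    ∃ ε : Fin n → ℝ, (∀ i, ε i = 1 ∨ ε i = -1) ∧
      ∀ k, |∑ i ∈ S, ε i * a i k| ≤ 2000 * √(√((m : ℝ) * S.card)) := by
  classical
  intro c
  induction c using Nat.strong_induction_on with
  | _ c ih =>
    intro S hc hS
    by_cases h4 : 4 ≤ S.card
    · obtain ⟨δ, h1, h2, h3⟩ := partial_set a ha S h4 hS
      set Z := S.filter fun i => δ i = 0 with hZ
      have hZc : Z.card + (S.filter fun i => δ i ≠ 0).card = S.card :=
        Finset.card_filter_add_card_filter_not (s := S) (fun i => δ i = 0)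
      have hZr : (Z.card : ℝ) + ((S.filter fun i => δ i ≠ 0).card : ℝ) = S.card := by
        exact_mod_cast hZc
      have hS0 : (0 : ℝ) < S.card := by exact_mod_cast (by omega : 0 < S.card)
      have hZle : (Z.card : ℝ) ≤ 9 / 10 * S.card := by linarith
      have hZlt : Z.card < c := by
        rw [← hc]
        have : (Z.card : ℝ) < S.card := by linarith
        exact_mod_cast this
      obtain ⟨ε, g1, g2⟩ := ih Z.card hZlt Z rfl (by omega)
      refine ⟨fun i => if δ i = 0 then ε i else δ i, ?_, ?_⟩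
      · intro i
        by_cases h : δ i = 0
        · simp only [h, if_true]; exact g1 i
        · simp only [h, if_false]
          rcases h1 i with h' | h' | h'
          · exact absurd h' h
          · exact Or.inl h'
          · exact Or.inr h'
      · intro k
        have e1 : ∑ i ∈ S, (if δ i = 0 then ε i else δ i) * a i k =
            ∑ i ∈ S, δ i * a i k + ∑ i ∈ Z, ε i * a i k := by
          rw [hZ, Finset.sum_filter, ← Finset.sum_add_distrib]
          refine Finset.sum_congr rfl fun i _ => ?_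
          by_cases h : δ i = 0 <;> simp [h]
        rw [e1]
        have e2 : √(√((m : ℝ) * Z.card)) ≤ 975 / 1000 * √(√((m : ℝ) * S.card)) := by
          have h5 : √(√((975 / 1000 : ℝ) ^ 4)) = 975 / 1000 := by
            have : ((975 / 1000 : ℝ) ^ 4) = ((975 / 1000) ^ 2) ^ 2 := by norm_num
            rw [this, Real.sqrt_sq (by norm_num), Real.sqrt_sq (by norm_num)]
          rw [← h5, ← Real.sqrt_mul (by positivity), ← Real.sqrt_mul (by positivity)]
          apply Real.sqrt_le_sqrt
          apply Real.sqrt_le_sqrt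
          have hm : (0 : ℝ) ≤ m := by positivity
          nlinarith [mul_le_mul_of_nonneg_left hZle hm, mul_nonneg hm hS0.le]
        calc |∑ i ∈ S, δ i * a i k + ∑ i ∈ Z, ε i * a i k|
            ≤ |∑ i ∈ S, δ i * a i k| + |∑ i ∈ Z, ε i * a i k| := abs_add_le _ _
          _ ≤ 50 * √(√((m : ℝ) * S.card)) + 2000 * √(√((m : ℝ) * Z.card)) :=
              add_le_add (h3 k) (g2 k)
          _ ≤ _ := by
              have := Real.sqrt_nonneg (√((m : ℝ) * S.card))
              linarith
    · refine ⟨fun _ => 1, fun _ => Or.inl rfl, fun k => ?_⟩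
      push Not at h4
      calc |∑ i ∈ S, 1 * a i k| ≤ ∑ i ∈ S, |1 * a i k| := Finset.abs_sum_le_sum_abs _ _
        _ ≤ ∑ _i ∈ S, (1 : ℝ) := Finset.sum_le_sum fun i _ => by rw [one_mul]; exact ha i k
        _ = S.card := by simp
        _ ≤ 2000 * √(√((m : ℝ) * S.card)) := by
          rcases Nat.eq_zero_or_pos S.card with h0 | h0
          · rw [h0]; simp
          · have hs1 : (1 : ℝ) ≤ S.card := by exact_mod_cast h0
            have hm1 : (1 : ℝ) ≤ m := by exact_mod_cast (by omega : 1 ≤ m)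
            have h3 : (S.card : ℝ) ≤ 3 := by exact_mod_cast (by omega : S.card ≤ 3)
            have : 1 ≤ √(√((m : ℝ) * S.card)) := by
              rw [Real.one_le_sqrt, Real.one_le_sqrt]
              nlinarith
            linarith

theorem herdisc' {n m : ℕ} (a : Fin n → Fin m → ℝ) (ha : ∀ i k, |a i k| ≤ 1)
    (S : Finset (Fin n)) (hS : S.card ≤ m) :
    ∃ ε : Fin n → ℝ, (∀ i, ε i = 1 ∨ ε i = -1) ∧
      ∀ k, |∑ i ∈ S, ε i * a i k| ≤ 2000 * √(m : ℝ) := by
  obtain ⟨ε, h1, h2⟩ := herdisc a ha _ S rfl hS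
  refine ⟨ε, h1, fun k => (h2 k).trans ?_⟩
  have hS' : (S.card : ℝ) ≤ m := by exact_mod_cast hS
  have hm : (0 : ℝ) ≤ m := by positivity
  have : √(√((m : ℝ) * S.card)) ≤ √(m : ℝ) := by
    apply Real.sqrt_le_sqrt
    calc √((m : ℝ) * S.card) ≤ √((m : ℝ) ^ 2) := Real.sqrt_le_sqrt (by nlinarith)
      _ = m := Real.sqrt_sq hm
  linarith

/-- rounding of dyadic points -/
theorem dyadic {n m : ℕ} (a : Fin n → Fin m → ℝ) (ha : ∀ i k, |a i k| ≤ 1) :
    ∀ (r : ℕ) (z : Fin n → ℤ) (S : Finset (Fin n)), (∀ i, |z i| ≤ 2 ^ r) →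
    (∀ i, i ∉ S → |z i| = 2 ^ r) → S.card ≤ m →
    ∃ ε : Fin n → ℝ, (∀ i, ε i = 1 ∨ ε i = -1) ∧
      ∀ k, |∑ i, (ε i - z i / 2 ^ r) * a i k| ≤ 2000 * √(m : ℝ) * (2 - 1 / 2 ^ r) := by
  classical
  intro r
  induction r with
  | zero =>
    intro z S hz hzS hS
    have hT : (univ.filter fun i => z i = 0).card ≤ m := by
      refine (Finset.card_le_card ?_).trans hS
      intro i hi
      by_contra h
      have h1 := hzS i h
      rw [(Finset.mem_filter.1 hi).2] at h1
      simp at h1
    obtain ⟨ε, h1, h2⟩ := herdisc' a ha _ hT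
    refine ⟨fun i => if z i = 0 then ε i else z i, ?_, ?_⟩
    · intro i
      by_cases h : z i = 0
      · simp only [h, if_true]; exact h1 i
      · simp only [h, if_false]
        have h3 := hz i
        rw [pow_zero, abs_le] at h3
        have : z i = 1 ∨ z i = -1 := by omega
        rcases this with h | h
        · left; rw [h]; simp
        · right; rw [h]; simp
    · intro k
      have e1 : ∑ i, ((if z i = 0 then ε i else (z i : ℝ)) - z i / 2 ^ 0) * a i k =
          ∑ i ∈ univ.filter (fun i => z i = 0), ε i * a i k := by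
        rw [Finset.sum_filter]
        refine Finset.sum_congr rfl fun i _ => ?_
        by_cases h : z i = 0 <;> simp [h]
      rw [e1]
      refine (h2 k).trans ?_
      norm_num
  | succ r ih =>
    intro z S hz hzS hS
    have hT : (univ.filter fun i => z i % 2 = 1).card ≤ m := by
      refine (Finset.card_le_card ?_).trans hS
      intro i hi
      by_contra h
      have h1 := hzS i h
      have h2 := (Finset.mem_filter.1 hi).2
      have : (2 : ℤ) ∣ |z i| := by rw [h1]; exact dvd_pow_self 2 (by omega)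
      rw [dvd_abs] at this
      omega
    obtain ⟨η, g1, g2⟩ := herdisc' a ha _ hT
    have hη : ∀ i, ∃ t : ℤ, η i = t ∧ (t = 1 ∨ t = -1) := by
      intro i
      rcases g1 i with h | h
      · exact ⟨1, by simpa using h, Or.inl rfl⟩
      · exact ⟨-1, by simpa using h, Or.inr rfl⟩
    choose t ht1 ht2 using hη
    set z' : Fin n → ℤ := fun i => if z i % 2 = 1 then (z i + t i) / 2 else z i / 2 with hz'
    have hpow : (2 : ℤ) ^ (r + 1) = 2 * 2 ^ r := by ring
    have hrpos : (0 : ℤ) < 2 ^ r := by positivity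
    obtain ⟨ε, h1, h2⟩ := ih z' S (by
      intro i
      have h3 := hz i
      rw [hpow, abs_le] at h3
      rw [abs_le]
      simp only [hz']
      rcases ht2 i with h | h <;> split_ifs <;> rw [h] at * <;> constructor <;> omega) (by
      intro i hi
      have h3 := hzS i hi
      rw [hpow] at h3
      simp only [hz']
      have h4 : z i = 2 * 2 ^ r ∨ z i = -(2 * 2 ^ r) := by
        rcases abs_choice (z i) with h | h <;> omega
      have h5 : ¬ (z i % 2 = 1) := by omega
      rw [if_neg h5]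
      rcases h4 with h | h
      · have : z i / 2 = 2 ^ r := by omega
        rw [this, abs_of_pos hrpos]
      · have : z i / 2 = -2 ^ r := by omega
        rw [this, abs_neg, abs_of_pos hrpos]) hS
    refine ⟨ε, h1, fun k => ?_⟩
    have e1 : ∑ i, (ε i - z i / 2 ^ (r + 1)) * a i k =
        ∑ i, (ε i - z' i / 2 ^ r) * a i k +
          (1 / 2 ^ (r + 1)) * ∑ i ∈ univ.filter (fun i => z i % 2 = 1), η i * a i k := by
      rw [Finset.sum_filter, Finset.mul_sum, ← Finset.sum_add_distrib]
      refine Finset.sum_congr rfl fun i _ => ?_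
      have hp : (2 : ℝ) ^ (r + 1) = 2 * 2 ^ r := by ring
      have hp0 : (2 : ℝ) ^ r ≠ 0 := by positivity
      by_cases h : z i % 2 = 1
      · have h5 : z i + t i = 2 * z' i := by
          simp only [hz', h, if_true]
          rcases ht2 i with h' | h' <;> rw [h'] <;> omega
        have h6 : (z i : ℝ) + η i = 2 * z' i := by
          rw [ht1 i]; exact_mod_cast h5
        simp only [h, if_true]
        have h7 : (z i : ℝ) = 2 * z' i - η i := by linarith
        rw [h7, hp]
        field_simp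
        ring
      · have h5 : z i = 2 * z' i := by
          simp only [hz', h, if_false]
          omega
        have h6 : (z i : ℝ) = 2 * z' i := by exact_mod_cast h5
        simp only [h, if_false]
        rw [h6, hp]
        field_simp
        ring
    rw [e1]
    have hp : (0 : ℝ) < 1 / 2 ^ (r + 1) := by positivity
    calc _ ≤ |∑ i, (ε i - z' i / 2 ^ r) * a i k| +
          |(1 / 2 ^ (r + 1)) * ∑ i ∈ univ.filter (fun i => z i % 2 = 1), η i * a i k| :=
          abs_add_le _ _
      _ ≤ 2000 * √(m : ℝ) * (2 - 1 / 2 ^ r) + (1 / 2 ^ (r + 1)) * (2000 * √(m : ℝ)) := by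
          rw [abs_mul, abs_of_pos hp]
          exact add_le_add (h2 k) (mul_le_mul_of_nonneg_left (g2 k) hp.le)
      _ = _ := by
          have : (1 : ℝ) / 2 ^ r = 2 * (1 / 2 ^ (r + 1)) := by
            rw [pow_succ]; field_simp
          rw [this]; ring

/-- rounding of points of the cube with few fractional coordinates -/
theorem rounding {n m : ℕ} (a : Fin n → Fin m → ℝ) (ha : ∀ i k, |a i k| ≤ 1)
    (x : Fin n → ℝ) (hx : ∀ i, |x i| ≤ 1) (S : Finset (Fin n)) (hS : S.card ≤ m)
    (hxS : ∀ i, i ∉ S → |x i| = 1) :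
    ∃ ε : Fin n → ℝ, (∀ i, ε i = 1 ∨ ε i = -1) ∧
      ∀ k, |∑ i, (ε i - x i) * a i k| ≤ 4001 * √(m : ℝ) := by
  classical
  set z : Fin n → ℤ := fun i => ⌊x i * 2 ^ m⌋ with hz
  have hp : (0 : ℝ) < 2 ^ m := by positivity
  have hz1 : ∀ i, |z i| ≤ 2 ^ m := by
    intro i
    have h := abs_le.1 (hx i)
    rw [abs_le]
    constructor
    · apply Int.le_floor.2
      push_cast
      nlinarith
    · have h2 : (z i : ℝ) ≤ x i * 2 ^ m := Int.floor_le _
      have : (z i : ℝ) ≤ 2 ^ m := by nlinarith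
      exact_mod_cast this
  have hz2 : ∀ i, i ∉ S → (z i : ℝ) = x i * 2 ^ m := by
    intro i hi
    rcases (abs_eq (by norm_num : (0 : ℝ) ≤ 1)).1 (hxS i hi) with h | h
    · simp only [hz, h, one_mul]
      have : ((2 : ℝ) ^ m) = ((2 ^ m : ℤ) : ℝ) := by push_cast; rfl
      rw [this, Int.floor_intCast]
    · simp only [hz, h]
      have : (-1 * (2 : ℝ) ^ m) = ((-2 ^ m : ℤ) : ℝ) := by push_cast; ring
      rw [this, Int.floor_intCast]
  have hz3 : ∀ i, i ∉ S → |z i| = 2 ^ m := by
    intro i hi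
    have h := hz2 i hi
    have : |(z i : ℝ)| = 2 ^ m := by
      rw [h, abs_mul, hxS i hi, one_mul, abs_of_pos hp]
    exact_mod_cast this
  obtain ⟨ε, h1, h2⟩ := dyadic a ha m z S hz1 hz3 hS
  refine ⟨ε, h1, fun k => ?_⟩
  have e1 : ∑ i, (ε i - x i) * a i k =
      ∑ i, (ε i - z i / 2 ^ m) * a i k + ∑ i ∈ S, (z i / 2 ^ m - x i) * a i k := by
    have : ∑ i ∈ S, (z i / 2 ^ m - x i) * a i k = ∑ i, (z i / 2 ^ m - x i) * a i k := by
      apply Finset.sum_subset (Finset.subset_univ S)
      intro i _ hi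
      rw [hz2 i hi]
      field_simp
      ring
    rw [this, ← Finset.sum_add_distrib]
    refine Finset.sum_congr rfl fun i _ => ?_
    ring
  have e2 : |∑ i ∈ S, (z i / 2 ^ m - x i) * a i k| ≤ √(m : ℝ) := by
    calc |∑ i ∈ S, (z i / 2 ^ m - x i) * a i k| ≤ ∑ i ∈ S, |(z i / 2 ^ m - x i) * a i k| :=
          Finset.abs_sum_le_sum_abs _ _
      _ ≤ ∑ _i ∈ S, (1 / 2 ^ m : ℝ) := by
          refine Finset.sum_le_sum fun i _ => ?_
          rw [abs_mul]
          have h3 : |(z i : ℝ) / 2 ^ m - x i| ≤ 1 / 2 ^ m := by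
            have h4 : (z i : ℝ) ≤ x i * 2 ^ m := Int.floor_le _
            have h5 : x i * 2 ^ m < z i + 1 := Int.lt_floor_add_one _
            rw [abs_le]
            constructor
            · rw [neg_le_sub_iff_le_add, ← add_div, le_div_iff₀ hp]
              exact h5.le
            · rw [sub_le_iff_le_add, div_le_iff₀ hp, add_mul, div_mul_cancel₀ _ hp.ne']
              linarith
          calc |(z i : ℝ) / 2 ^ m - x i| * |a i k| ≤ 1 / 2 ^ m * 1 :=
                mul_le_mul h3 (ha i k) (abs_nonneg _) (by positivity)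
            _ = _ := mul_one _
      _ = S.card / 2 ^ m := by rw [Finset.sum_const, nsmul_eq_mul]; ring
      _ ≤ √(m : ℝ) := by
          rcases Nat.eq_zero_or_pos m with h0 | h0
          · subst h0
            have : S.card = 0 := by omega
            rw [this]; simp
          · have h3 : (1 : ℝ) ≤ √(m : ℝ) := by
              rw [Real.one_le_sqrt]; exact_mod_cast h0
            have h4 : (S.card : ℝ) ≤ 2 ^ m := by
              have : S.card ≤ 2 ^ m := hS.trans (Nat.lt_two_pow_self).le
              exact_mod_cast this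
            have : (S.card : ℝ) / 2 ^ m ≤ 1 := by rw [div_le_one hp]; exact h4
            linarith
  rw [e1]
  have h0 := Real.sqrt_nonneg (m : ℝ)
  have h3 : (0 : ℝ) < 1 / 2 ^ m := by positivity
  calc _ ≤ |∑ i, (ε i - z i / 2 ^ m) * a i k| + |∑ i ∈ S, (z i / 2 ^ m - x i) * a i k| :=
        abs_add_le _ _
    _ ≤ 2000 * √(m : ℝ) * (2 - 1 / 2 ^ m) + √(m : ℝ) := add_le_add (h2 k) e2
    _ ≤ _ := by nlinarith

/-- a basic solution -/
theorem basic {n m : ℕ} (a : Fin n → Fin m → ℝ) :
    ∃ x : Fin n → ℝ, (∀ i, |x i| ≤ 1) ∧ (∀ k, ∑ i, x i * a i k = 0) ∧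
      ∃ S : Finset (Fin n), S.card ≤ m ∧ ∀ i, i ∉ S → |x i| = 1 := by
  classical
  set P : Set (Fin n → ℝ) := {x | (∀ i, |x i| ≤ 1) ∧ ∀ k, ∑ i, x i * a i k = 0} with hP
  have hPc : IsCompact P := by
    have h1 : P ⊆ Set.Icc (fun _ => -1) (fun _ => 1) := fun x hx =>
      ⟨fun i => (abs_le.1 (hx.1 i)).1, fun i => (abs_le.1 (hx.1 i)).2⟩
    have h2 : IsClosed P := by
      have : P = (⋂ i, {x : Fin n → ℝ | |x i| ≤ 1}) ∩
          ⋂ k, {x : Fin n → ℝ | ∑ i, x i * a i k = 0} := by ext x; simp [hP]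
      rw [this]
      exact (isClosed_iInter fun i => isClosed_le (by fun_prop) continuous_const).inter
        (isClosed_iInter fun k => isClosed_eq (by fun_prop) continuous_const)
    exact isCompact_Icc.of_isClosed_subset h2 h1
  have hPn : P.Nonempty := ⟨0, by simp [hP]⟩
  obtain ⟨x, hx⟩ := hPc.extremePoints_nonempty hPn
  refine ⟨x, hx.1.1, hx.1.2, univ.filter (fun i => |x i| ≠ 1), ?_, fun i hi => by simpa using hi⟩
  by_contra hcon
  push Not at hcon
  set S := univ.filter (fun i => |x i| ≠ 1) with hS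
  -- a linear dependency
  have hdep : ∃ g : Fin n → ℝ, (∀ i, i ∉ S → g i = 0) ∧ (∀ k, ∑ i, g i * a i k = 0) ∧
      ∃ i, g i ≠ 0 := by
    let f : (S → ℝ) →ₗ[ℝ] (Fin m → ℝ) :=
      { toFun := fun g k => ∑ i : S, g i * a i k
        map_add' := by
          intro g h
          funext k
          simp [add_mul, Finset.sum_add_distrib]
        map_smul' := by
          intro c g
          funext k
          simp [Finset.mul_sum, mul_assoc] }
    have hker : LinearMap.ker f ≠ ⊥ := LinearMap.ker_ne_bot_of_finrank_lt (by simpa using hcon)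
    obtain ⟨g, hg, hg0⟩ := (Submodule.ne_bot_iff _).1 hker
    refine ⟨fun i => if h : i ∈ S then g ⟨i, h⟩ else 0, fun i hi => by simp [hi], ?_, ?_⟩
    · intro k
      have h1 := congrFun (LinearMap.mem_ker.1 hg) k
      change ∑ i : S, g i * a i k = 0 at h1
      calc ∑ i, (if h : i ∈ S then g ⟨i, h⟩ else 0) * a i k
          = ∑ i ∈ S, (if h : i ∈ S then g ⟨i, h⟩ else 0) * a i k :=
            (Finset.sum_subset (Finset.subset_univ S) (fun i _ hi => by simp [hi])).symm
        _ = ∑ i : S, g i * a i k := by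
            rw [← Finset.sum_coe_sort S]
            refine Finset.sum_congr rfl fun i _ => ?_
            simp
        _ = 0 := h1
    · by_contra hall
      push Not at hall
      apply hg0
      funext i
      have := hall i
      simpa using this
  obtain ⟨g, hgS, hg1, i0, hgi0⟩ := hdep
  have hev : ∀ᶠ ε in nhds (0 : ℝ), ∀ i, |x i + ε * g i| ≤ 1 ∧ |x i - ε * g i| ≤ 1 := by
    rw [Filter.eventually_all]
    intro i
    by_cases hi : i ∈ S
    · have hlt : |x i| < 1 := lt_of_le_of_ne (hx.1.1 i) (Finset.mem_filter.1 hi).2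
      have c1 : Filter.Tendsto (fun ε : ℝ => |x i + ε * g i|) (nhds 0) (nhds |x i|) := by
        have : Continuous fun ε : ℝ => |x i + ε * g i| := by fun_prop
        simpa using this.tendsto 0
      have c2 : Filter.Tendsto (fun ε : ℝ => |x i - ε * g i|) (nhds 0) (nhds |x i|) := by
        have : Continuous fun ε : ℝ => |x i - ε * g i| := by fun_prop
        simpa using this.tendsto 0
      filter_upwards [c1.eventually (gt_mem_nhds hlt), c2.eventually (gt_mem_nhds hlt)] with ε h1 h2
      exact ⟨h1.le, h2.le⟩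
    · refine Filter.Eventually.of_forall fun ε => ?_
      rw [hgS i hi]
      simpa using hx.1.1 i
  have hev2 : ∀ᶠ ε in nhdsWithin (0 : ℝ) {0}ᶜ, ∀ i, |x i + ε * g i| ≤ 1 ∧ |x i - ε * g i| ≤ 1 :=
    hev.filter_mono nhdsWithin_le_nhds
  obtain ⟨ε, hε, hε0⟩ := (hev2.and self_mem_nhdsWithin).exists
  have hε0' : ε ≠ 0 := hε0
  have p1 : x + ε • g ∈ P := by
    refine ⟨fun i => (hε i).1, fun k => ?_⟩
    have : ∑ i, (x + ε • g) i * a i k = ∑ i, x i * a i k + ε * ∑ i, g i * a i k := by
      rw [Finset.mul_sum, ← Finset.sum_add_distrib]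
      refine Finset.sum_congr rfl fun i _ => ?_
      simp only [Pi.add_apply, Pi.smul_apply, smul_eq_mul]; ring
    rw [this, hx.1.2 k, hg1 k]; simp
  have p2 : x - ε • g ∈ P := by
    refine ⟨fun i => (hε i).2, fun k => ?_⟩
    have : ∑ i, (x - ε • g) i * a i k = ∑ i, x i * a i k - ε * ∑ i, g i * a i k := by
      rw [Finset.mul_sum, ← Finset.sum_sub_distrib]
      refine Finset.sum_congr rfl fun i _ => ?_
      simp only [Pi.sub_apply, Pi.smul_apply, smul_eq_mul]; ring
    rw [this, hx.1.2 k, hg1 k]; simp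
  have hseg : x ∈ openSegment ℝ (x + ε • g) (x - ε • g) :=
    ⟨1 / 2, 1 / 2, by norm_num, by norm_num, by norm_num, by module⟩
  have := hx.2 p1 p2 hseg
  have h3 := congrFun this i0
  simp only [Pi.add_apply, Pi.smul_apply, smul_eq_mul, add_eq_left, mul_eq_zero] at h3
  rcases h3 with h | h
  · exact hε0' h
  · exact hgi0 h

/-- any number of vectors of the cube can be balanced up to `O(√m)` -/
theorem spencer {n m : ℕ} (a : Fin n → Fin m → ℝ) (ha : ∀ i k, |a i k| ≤ 1) :
    ∃ ε : Fin n → ℝ, (∀ i, ε i = 1 ∨ ε i = -1) ∧ ∀ k, |∑ i, ε i * a i k| ≤ 4001 * √(m : ℝ) := by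
  obtain ⟨x, hx, hx0, S, hS, hxS⟩ := basic a
  obtain ⟨ε, h1, h2⟩ := rounding a ha x hx S hS hxS
  refine ⟨ε, h1, fun k => ?_⟩
  have : ∑ i, ε i * a i k = ∑ i, (ε i - x i) * a i k := by
    simp only [sub_mul, Finset.sum_sub_distrib, hx0 k, sub_zero]
  rw [this]
  exact h2 k

end Q189.Spencer
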