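import Pool.Agent.Q189.SimpDefs

/-!
# The Sperner bound for simplicial refinements
-/

set_option autoImplicit false

open Finset

namespace Q189.SpernerBd

open Q189.SimpDefs

/-- an effect vanishing at an extreme point `c` and positive at another extreme point -/
theorem exists_effect {d : ℕ} {C : Set (Fin d → ℝ)} (hC : IsPolytope C) {c c' : Fin d → ℝ}
    (hc : c ∈ C.extremePoints ℝ) (hc' : c' ∈ C.extremePoints ℝ) (hne : c' ≠ c) :
    ∃ ω ∈ convexForms C, ω ⟨c, hc.1⟩ = 0 ∧ 0 < ω ⟨c', hc'.1⟩ := by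
  obtain ⟨S, hS, -, rfl⟩ := hC
  have hcS : c ∈ S := extremePoints_convexHull_subset hc
  have hc'S : c' ∈ S := extremePoints_convexHull_subset hc'
  have hnot : c ∉ convexHull ℝ (S \ {c}) := by
    intro h
    have e : convexHull ℝ (S \ {c}) = convexHull ℝ S := by
      apply Set.Subset.antisymm (convexHull_mono Set.diff_subset)
      apply convexHull_min _ (convex_convexHull ℝ _)
      intro x hx
      by_cases hxc : x = c
      · rw [hxc]; exact h
      · exact subset_convexHull ℝ _ ⟨hx, hxc⟩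
    rw [← e] at hc
    exact (extremePoints_convexHull_subset hc).2 rfl
  have hcl : IsClosed (convexHull ℝ (S \ {c})) := (hS.subset Set.diff_subset).isClosed_convexHull ℝ
  obtain ⟨φ, u, hu1, hu2⟩ := geometric_hahn_banach_point_closed (convex_convexHull ℝ _) hcl hnot
  have hpos : ∀ x ∈ S, 0 ≤ φ x - φ c := by
    intro x hx
    by_cases hxc : x = c
    · rw [hxc]; simp
    · have := hu2 x (subset_convexHull ℝ _ ⟨hx, hxc⟩)
      linarith
  obtain ⟨N, hN, hN'⟩ : ∃ N : ℝ, 0 < N ∧ ∀ x ∈ S, φ x - φ c ≤ N := by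
    obtain ⟨N, hN⟩ := (hS.image fun x => φ x - φ c).bddAbove
    refine ⟨max N 1, lt_max_of_lt_right one_pos, fun x hx => ?_⟩
    exact (hN ⟨x, hx, rfl⟩).trans (le_max_left _ _)
  have hall : ∀ x ∈ convexHull ℝ S, 0 ≤ φ x - φ c ∧ φ x - φ c ≤ N := by
    have : convexHull ℝ S ⊆ {x | 0 ≤ φ x - φ c ∧ φ x - φ c ≤ N} := by
      apply convexHull_min
      · intro x hx
        exact ⟨hpos x hx, hN' x hx⟩
      · rintro x ⟨hx, hx'⟩ y ⟨hy, hy'⟩ a b ha hb hab
        have e : φ (a • x + b • y) - φ c = a * (φ x - φ c) + b * (φ y - φ c) := by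
          have : φ c = (a + b) * φ c := by rw [hab, one_mul]
          rw [this]; simp only [map_add, map_smul, smul_eq_mul]
          rw [hab]; ring_nf
          have hb' : b = 1 - a := by linarith
          rw [hb']; ring
        refine ⟨?_, ?_⟩
        · rw [e]; positivity
        · rw [e]
          have : N = a * N + b * N := by rw [← add_mul, hab, one_mul]
          rw [this]
          exact add_le_add (mul_le_mul_of_nonneg_left hx' ha) (mul_le_mul_of_nonneg_left hy' hb)
    exact this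
  refine ⟨fun x => (φ x - φ c) / N, ⟨fun x => ?_, ?_⟩, ?_, ?_⟩
  · obtain ⟨h1, h2⟩ := hall x x.2
    exact ⟨div_nonneg h1 hN.le, (div_le_one hN).2 h2⟩
  · intro x y z a b _ _ hab hz
    have hb' : b = 1 - a := by linarith
    simp only
    rw [hz, hb']
    simp only [map_add, map_smul, smul_eq_mul]
    field_simp
    ring
  · simp
  · apply div_pos _ hN
    have := hu2 c' (subset_convexHull ℝ _ ⟨hc'S, hne⟩)
    linarith

/-- barycentric coordinates in the hull of finitely many points -/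
theorem exists_weights {V : Type} [AddCommGroup V] [Module ℝ V] {k : ℕ} {v : Fin k → V} {x : V}
    (hx : x ∈ hull v) : ∃ w : Fin k → ℝ, (∀ j, 0 ≤ w j) ∧ ∑ j, w j = 1 ∧ ∑ j, w j • v j = x := by
  unfold hull at hx
  rw [convexHull_range_eq_exists_affineCombination] at hx
  obtain ⟨s, w, h1, h2, h3⟩ := hx
  refine ⟨fun j => if j ∈ s then w j else 0, ?_, ?_, ?_⟩
  · intro j
    by_cases hj : j ∈ s
    · simp [hj, h1 j hj]
    · simp [hj]
  · rw [Finset.sum_ite_mem, Finset.univ_inter]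
    exact h2
  · rw [Finset.affineCombination_eq_linear_combination s v w h2] at h3
    rw [← h3]
    simp only [ite_smul, zero_smul]
    rw [Finset.sum_ite_mem, Finset.univ_inter]

theorem jensen {V : Type} [AddCommGroup V] [Module ℝ V] {C : Set V} (hC : Convex ℝ C) {ω : C → ℝ}
    (hω : ω ∈ convexForms C) {ι : Type} (s : Finset ι) (w : ι → ℝ) (z : ι → C)
    (hw : ∀ i ∈ s, 0 ≤ w i) (h1 : ∑ i ∈ s, w i = 1) (y : C)
    (hy : (y : V) = ∑ i ∈ s, w i • (z i : V)) : ω y = ∑ i ∈ s, w i * ω (z i) := by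
  classical
  set f : V → ℝ := fun x => if h : x ∈ C then ω ⟨x, h⟩ else 0 with hf
  have hfv : ∀ x : C, f x = ω x := by
    intro x
    simp only [hf]
    rw [dif_pos x.2]
  have hconv : ConvexOn ℝ C f := by
    refine ⟨hC, ?_⟩
    intro x hx y hy a b ha hb hab
    have h := hω.2 ⟨x, hx⟩ ⟨y, hy⟩ ⟨_, hC hx hy ha hb hab⟩ a b ha hb hab rfl
    rw [← hfv, ← hfv, ← hfv] at h
    exact h.le
  have hconc : ConcaveOn ℝ C f := by
    refine ⟨hC, ?_⟩
    intro x hx y hy a b ha hb hab
    have h := hω.2 ⟨x, hx⟩ ⟨y, hy⟩ ⟨_, hC hx hy ha hb hab⟩ a b ha hb hab rfl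
    rw [← hfv, ← hfv, ← hfv] at h
    exact h.ge
  have e1 := hconv.map_sum_le hw h1 (p := fun i => (z i : V)) (fun i _ => (z i).2)
  have e2 := hconc.le_map_sum hw h1 (p := fun i => (z i : V)) (fun i _ => (z i).2)
  rw [← hy] at e1 e2
  simp only [hfv, smul_eq_mul] at e1 e2
  exact le_antisymm e1 e2

/-- **The lower bound.** -/
theorem sperner_bound {V : Type} [AddCommGroup V] [Module ℝ V] {k d : ℕ} (v : Fin k → V)
    (C : Set (Fin d → ℝ)) (hC : IsPolytope C) (f : PartialAffineOnto (hull v) C)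
    (g : PartialAffineOnto (convexForms (hull v)) (convexForms C))
    (hfg : IsSimplicialRefinement v C f g) :
    (C.extremePoints ℝ).ncard ≤ k.choose (k / 2) := by
  classical
  -- preimages of the extreme points
  have h1 : ∀ c ∈ C.extremePoints ℝ, ∃ x ∈ f.dom, f.toFun x = c := by
    intro c hc
    have : c ∈ f.toFun '' f.dom := by rw [f.onto]; exact hc.1
    obtain ⟨x, hx, hxc⟩ := this
    exact ⟨x, hx, hxc⟩
  choose! X hX hXc using h1
  have h2 : ∀ c ∈ C.extremePoints ℝ, ∃ w : Fin k → ℝ, (∀ j, 0 ≤ w j) ∧ ∑ j, w j = 1 ∧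
      ∑ j, w j • v j = X c := fun c hc => exists_weights (f.dom_subset (hX c hc))
  choose! w hw0 hw1 hwX using h2
  set s : (Fin d → ℝ) → Finset (Fin k) := fun c => Finset.univ.filter fun j => w c j ≠ 0 with hs
  -- the antichain property
  have hanti : ∀ c ∈ C.extremePoints ℝ, ∀ c' ∈ C.extremePoints ℝ, s c' ⊆ s c → c' = c := by
    intro c hc c' hc' hsub
    by_contra hne
    obtain ⟨ω, hω, hωc, hωc'⟩ := exists_effect hC hc hc' hne
    have : ω ∈ g.toFun '' g.dom := by rw [g.onto]; exact hω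
    obtain ⟨η, hη, rfl⟩ := this
    have hηf := g.dom_subset hη
    have hvm : ∀ j, v j ∈ hull v := fun j => subset_convexHull ℝ _ ⟨j, rfl⟩
    have e : ∀ (b : Fin d → ℝ) (hb : b ∈ C.extremePoints ℝ),
        g.toFun η ⟨b, hb.1⟩ = ∑ j, w b j * η ⟨v j, hvm j⟩ := by
      intro b hb
      rw [hfg.2 η hη ⟨X b, f.dom_subset (hX b hb)⟩ ⟨b, hb.1⟩ (hX b hb) (hXc b hb)]
      exact jensen (convex_convexHull ℝ _) hηf Finset.univ (w b) (fun j => ⟨v j, hvm j⟩)
        (fun j _ => hw0 b hb j) (hw1 b hb) _ (hwX b hb).symm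
    rw [e c hc] at hωc
    rw [e c' hc'] at hωc'
    have hη0 : ∀ j, 0 ≤ η ⟨v j, hvm j⟩ := fun j => (hηf.1 _).1
    rw [Finset.sum_eq_zero_iff_of_nonneg
      (fun j _ => mul_nonneg (hw0 c hc j) (hη0 j))] at hωc
    refine hωc'.ne' (Finset.sum_eq_zero fun j _ => ?_)
    by_cases hj : w c' j = 0
    · rw [hj, zero_mul]
    · have : j ∈ s c := hsub (by simp [hs, hj])
      have hj' : w c j ≠ 0 := by simpa [hs] using this
      have := hωc j (Finset.mem_univ j)
      rcases mul_eq_zero.1 this with h | h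
      · exact absurd h hj'
      · rw [h, mul_zero]
  have hfin : (C.extremePoints ℝ).Finite := by
    obtain ⟨S, hS, -, rfl⟩ := hC
    exact hS.subset extremePoints_convexHull_subset
  have hinj : Set.InjOn s (C.extremePoints ℝ) := by
    intro c hc c' hc' h
    exact (hanti c hc c' hc' h.ge).symm
  set 𝒜 : Finset (Finset (Fin k)) := hfin.toFinset.image s with h𝒜
  have hA : IsAntichain (· ⊆ ·) (𝒜 : Set (Finset (Fin k))) := by
    intro a ha b hb hab hsub
    rw [h𝒜, Finset.coe_image, Set.Finite.coe_toFinset] at ha hb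
    obtain ⟨c, hc, rfl⟩ := ha
    obtain ⟨c', hc', rfl⟩ := hb
    exact hab (by rw [hanti c' hc' c hc hsub])
  have h3 := hA.sperner
  rw [h𝒜, Finset.card_image_of_injOn (by rw [Set.Finite.coe_toFinset]; exact hinj),
    Fintype.card_fin] at h3
  rwa [Set.ncard_eq_toFinset_card _ hfin]

end Q189.SpernerBd
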