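import Mathlib

/-!
# Symmetrizations with respect to a subspace: definitions
-/

set_option autoImplicit false

open scoped Pointwise

namespace Q189.SymDefs

/-- Euclidean space `ℝⁿ`. -/
abbrev E (n : ℕ) : Type := EuclideanSpace ℝ (Fin n)

/-- The class `𝓚ⁿ` of nonempty compact convex subsets of `ℝⁿ`. -/
def compactConvexSets (n : ℕ) : Set (Set (E n)) :=
  {K | IsCompact K ∧ Convex ℝ K ∧ K.Nonempty}

/-- The class `𝓚ⁿₙ` of convex bodies: compact convex sets with nonempty interior. -/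
def convexBodies (n : ℕ) : Set (Set (E n)) :=
  {K | IsCompact K ∧ Convex ℝ K ∧ (interior K).Nonempty}

/-- The orthogonal projection `K|H`. -/
noncomputable def proj {n : ℕ} (H : Submodule ℝ (E n)) (K : Set (E n)) : Set (E n) :=
  H.starProjection '' K

/-- The reflection `K† = {2 (x|H) - x : x ∈ K}` of `K` in `H`. -/
noncomputable def reflect {n : ℕ} (H : Submodule ℝ (E n)) (K : Set (E n)) : Set (E n) :=
  (fun x => (2 : ℝ) • H.starProjection x - x) '' K

/-- `K` is `H`-symmetric. -/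
def IsHSymmetric {n : ℕ} (H : Submodule ℝ (E n)) (K : Set (E n)) : Prop := reflect H K = K

/-- The `H`-symmetric spherical cylinder `D_r(x) + s (Bⁿ ∩ Hᗮ)`, where `D_r(x)` is the ball of `H`
with centre `x ∈ H` and radius `r`. -/
def cylinder {n : ℕ} (H : Submodule ℝ (E n)) (x : E n) (r s : ℝ) : Set (E n) :=
  (Metric.closedBall x r ∩ (H : Set (E n))) +
    s • (Metric.closedBall (0 : E n) 1 ∩ (Hᗮ : Set (E n)))

/-- `D` is a symmetrization, that is, a map `𝓑 → 𝓑_H`. -/
structure IsSymmetrization {n : ℕ} (𝓑 : Set (Set (E n))) (H : Submodule ℝ (E n))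
    (D : Set (E n) → Set (E n)) : Prop where
  mem : ∀ K ∈ 𝓑, D K ∈ 𝓑
  symm : ∀ K ∈ 𝓑, IsHSymmetric H (D K)

/-- `D` is monotonic. -/
def Monotonic {n : ℕ} (𝓑 : Set (Set (E n))) (D : Set (E n) → Set (E n)) : Prop :=
  ∀ K ∈ 𝓑, ∀ L ∈ 𝓑, K ⊆ L → D K ⊆ D L

/-- `D` is invariant on `H`-symmetric spherical cylinders. -/
def InvariantOnCylinders {n : ℕ} (H : Submodule ℝ (E n)) (D : Set (E n) → Set (E n)) : Prop :=
  ∀ x ∈ H, ∀ r s : ℝ, 0 < r → 0 < s → D (cylinder H x r s) = cylinder H x r s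

/-- `D` is projection invariant: `(D K)|H = K|H` for all `K ∈ 𝓑`. -/
def ProjectionInvariant {n : ℕ} (𝓑 : Set (Set (E n))) (H : Submodule ℝ (E n))
    (D : Set (E n) → Set (E n)) : Prop :=
  ∀ K ∈ 𝓑, proj H (D K) = proj H K

end Q189.SymDefs
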