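import Mathlib

/-!
# The `H`-process of a graph: definitions and a description of one round by labelled copies
-/

set_option autoImplicit false

namespace TB

open SimpleGraph Function

universe u v u' v'

/-- One round of the `H`-process: all non-edges whose addition creates a new copy of `H` are added.
-/
noncomputable def nextGraph {V : Type u} {W : Type v} [Fintype V] (H : SimpleGraph W)
    (G : SimpleGraph V) : SimpleGraph V where
  Adj a b := G.Adj a b ∨ (a ≠ b ∧ G.copyCount H < (G ⊔ edge a b).copyCount H)
  symm := ⟨by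
    intro a b h
    rcases h with h | ⟨h1, h2⟩
    · exact Or.inl h.symm
    · refine Or.inr ⟨h1.symm, ?_⟩
      rw [edge_comm]
      exact h2⟩
  loopless := ⟨by
    intro a h
    rcases h with h | h
    · exact G.loopless.irrefl a h
    · exact h.1 rfl⟩

/-- the graph `G_i` of the `H`-process -/
noncomputable def process {V : Type u} {W : Type v} [Fintype V] (H : SimpleGraph W)
    (G : SimpleGraph V) (i : ℕ) : SimpleGraph V :=
  (nextGraph H)^[i] G

/-- the running time `τ_H(G)` -/
noncomputable def runTime {V : Type u} {W : Type v} [Fintype V] (H : SimpleGraph W)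
    (G : SimpleGraph V) : ℕ :=
  sInf {s : ℕ | process H G s = process H G (s + 1)}

/-- the maximum running time `M_H(n)` -/
noncomputable def maxTime {W : Type v} (H : SimpleGraph W) (n : ℕ) : ℕ :=
  ⨆ G : SimpleGraph (Fin n), runTime H G

/-- `M^*(t)`, as an extended natural number -/
noncomputable def Mstar (t : ℕ) : ℕ∞ :=
  ⨆ T : {T : SimpleGraph (Fin t) // T.IsTree},
    Filter.limsup (fun n : ℕ => (maxTime T.1 n : ℕ∞)) Filter.atTop

section

variable {V : Type u} {W : Type v}

/-- labelled copies of `H` in `G` as pairs (set of vertices, set of ordered edges) -/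
def copySet (H : SimpleGraph W) (G : SimpleGraph V) : Set (Set V × Set (V × V)) :=
  {p | ∃ f : W → V, Injective f ∧ (∀ u v, H.Adj u v → G.Adj (f u) (f v)) ∧
    p = (Set.range f, {q | ∃ u v, H.Adj u v ∧ q = (f u, f v)})}

/-- encoding of a subgraph -/
def enc {G : SimpleGraph V} (K : G.Subgraph) : Set V × Set (V × V) :=
  (K.verts, {q | K.Adj q.1 q.2})

lemma enc_injective {G : SimpleGraph V} : Injective (enc (G := G)) := by
  intro K L h
  simp only [enc, Prod.mk.injEq] at h
  apply Subgraph.ext h.1
  funext a b
  have := Set.ext_iff.mp h.2 (a, b)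
  simp only [Set.mem_ofPred_eq] at this
  exact propext this

lemma copyCount_eq [Fintype V] (H : SimpleGraph W) (G : SimpleGraph V) :
    G.copyCount H = (copySet H G).ncard := by
  classical
  have h1 : copySet H G = enc '' {K : G.Subgraph | Nonempty (H ≃g K.coe)} := by
    ext p
    constructor
    · rintro ⟨f, hf, hH, rfl⟩
      let F : H →g G := ⟨f, fun {a b} h => hH a b h⟩
      let C : Copy H G := ⟨F, hf⟩
      refine ⟨C.toSubgraph, ?_, ?_⟩
      · have : C.toSubgraph ∈ Set.range (Copy.toSubgraph (A := H) (B := G)) := ⟨C, rfl⟩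
        rw [Copy.range_toSubgraph] at this
        exact this
      · simp only [enc, Copy.toSubgraph, Prod.mk.injEq]
        constructor
        · simp [C, F]
        · ext ⟨x, y⟩
          simp only [Set.mem_ofPred_eq, Subgraph.map_adj, Prod.mk.injEq, Relation.Map, Subgraph.top_adj]
          constructor
          · rintro ⟨a, b, h, rfl, rfl⟩; exact ⟨a, b, h, rfl, rfl⟩
          · rintro ⟨a, b, h, rfl, rfl⟩; exact ⟨a, b, h, rfl, rfl⟩
    · rintro ⟨K, ⟨φ⟩, rfl⟩
      refine ⟨fun w => (φ w : V), ?_, ?_, ?_⟩
      · intro a b h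
        exact φ.injective (Subtype.ext h)
      · intro a b h
        exact K.adj_sub (φ.map_rel_iff.mpr h)
      · simp only [enc, Prod.mk.injEq]
        constructor
        · ext x
          simp only [Set.mem_range]
          constructor
          · intro hx
            exact ⟨φ.symm ⟨x, hx⟩, by simp⟩
          · rintro ⟨w, rfl⟩
            exact (φ w).2
        · ext ⟨x, y⟩
          simp only [Set.mem_ofPred_eq, Prod.mk.injEq]
          constructor
          · intro h
            have hx := K.edge_vert h
            have hy := K.edge_vert h.symm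
            refine ⟨φ.symm ⟨x, hx⟩, φ.symm ⟨y, hy⟩, ?_, by simp, by simp⟩
            rw [← φ.map_rel_iff]
            simpa using h
          · rintro ⟨a, b, h, rfl, rfl⟩
            exact φ.map_rel_iff.mpr h
  rw [h1, Set.ncard_image_of_injective _ enc_injective, copyCount, ← Set.ncard_coe_finset]
  congr 1
  ext K
  simp

lemma copySet_mono (H : SimpleGraph W) {G G' : SimpleGraph V} (h : G ≤ G') :
    copySet H G ⊆ copySet H G' := by
  rintro p ⟨f, hf, hH, rfl⟩
  exact ⟨f, hf, fun u v huv => h (hH u v huv), rfl⟩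

/-- `CreatesCopy H G a b`: some copy of `H` in `G + ab` uses the pair `ab` -/
def CreatesCopy (H : SimpleGraph W) (G : SimpleGraph V) (a b : V) : Prop :=
  ∃ f : W → V, Injective f ∧
    (∀ u v, H.Adj u v → G.Adj (f u) (f v) ∨ s(f u, f v) = s(a, b)) ∧
    ∃ u v, H.Adj u v ∧ s(f u, f v) = s(a, b)

lemma nextGraph_adj [Fintype V] (H : SimpleGraph W) (G : SimpleGraph V) (a b : V) :
    (nextGraph H G).Adj a b ↔ G.Adj a b ∨ (a ≠ b ∧ CreatesCopy H G a b) := by
  classical
  show (G.Adj a b ∨ (a ≠ b ∧ G.copyCount H < (G ⊔ edge a b).copyCount H)) ↔ _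
  by_cases hG : G.Adj a b
  · simp [hG]
  simp only [hG, false_or]
  refine and_congr_right fun hab => ?_
  rw [copyCount_eq, copyCount_eq]
  have hle : G ≤ G ⊔ edge a b := le_sup_left
  have hadj : ∀ x y : V, (G ⊔ edge a b).Adj x y ↔ G.Adj x y ∨ s(x, y) = s(a, b) := by
    intro x y
    rw [sup_adj, edge_adj]
    constructor
    · rintro (h | ⟨h, -⟩)
      · exact Or.inl h
      · right
        rw [Sym2.eq_iff]
        tauto
    · rintro (h | h)
      · exact Or.inl h
      · right
        rw [Sym2.eq_iff] at h
        rcases h with ⟨rfl, rfl⟩ | ⟨rfl, rfl⟩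
        · exact ⟨Or.inl ⟨rfl, rfl⟩, hab⟩
        · exact ⟨Or.inr ⟨rfl, rfl⟩, hab.symm⟩
  have hss := copySet_mono H hle
  constructor
  · intro hlt
    by_contra hcon
    have : copySet H (G ⊔ edge a b) ⊆ copySet H G := by
      rintro p ⟨f, hf, hH, rfl⟩
      refine ⟨f, hf, ?_, rfl⟩
      intro u v huv
      rcases (hadj _ _).mp (hH u v huv) with h | h
      · exact h
      · exact absurd ⟨f, hf, fun u v huv => (hadj _ _).mp (hH u v huv), u, v, huv, h⟩ hcon
    exact absurd (Set.ncard_le_ncard this (Set.toFinite _)) (not_le.mpr hlt)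
  · rintro ⟨f, hf, hH, u, v, huv, he⟩
    apply Set.ncard_lt_ncard _ (Set.toFinite _)
    refine ⟨hss, fun hcon => ?_⟩
    have hmem : (Set.range f, {q : V × V | ∃ u v, H.Adj u v ∧ q = (f u, f v)}) ∈
        copySet H (G ⊔ edge a b) :=
      ⟨f, hf, fun u v huv => (hadj _ _).mpr (hH u v huv), rfl⟩
    obtain ⟨g, -, hgH, hg⟩ := hcon hmem
    simp only [Prod.mk.injEq] at hg
    have h2 : (f u, f v) ∈ {q : V × V | ∃ u v, H.Adj u v ∧ q = (f u, f v)} := ⟨u, v, huv, rfl⟩
    rw [hg.2] at h2
    obtain ⟨u', v', h', h''⟩ := h2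
    simp only [Prod.mk.injEq] at h''
    have h3 : G.Adj (f u) (f v) := by
      rw [h''.1, h''.2]; exact hgH _ _ h'
    rw [Sym2.eq_iff] at he
    rcases he with ⟨e1, e2⟩ | ⟨e1, e2⟩
    · rw [e1, e2] at h3; exact hG h3
    · rw [e1, e2] at h3; exact hG h3.symm

/-- the process is invariant under isomorphisms of `H` and `G` -/
lemma nextGraph_transport {V : Type u} {V' : Type u'} {W : Type v} {W' : Type v'} [Fintype V]
    [Fintype V'] (eV : V ≃ V') (eW : W ≃ W')
    {H : SimpleGraph W} {H' : SimpleGraph W'} (hH : ∀ u v, H'.Adj (eW u) (eW v) ↔ H.Adj u v)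
    {G : SimpleGraph V} {G' : SimpleGraph V'} (hG : ∀ a b, G'.Adj (eV a) (eV b) ↔ G.Adj a b)
    (a b : V) : (nextGraph H' G').Adj (eV a) (eV b) ↔ (nextGraph H G).Adj a b := by
  rw [nextGraph_adj, nextGraph_adj, hG]
  have hs : ∀ x y : V, s(eV x, eV y) = s(eV a, eV b) ↔ s(x, y) = s(a, b) := by
    intro x y
    simp [eV.injective.eq_iff]
  refine or_congr Iff.rfl (and_congr (by simp) ?_)
  constructor
  · rintro ⟨f, hf, hf1, u, v, huv, he⟩
    refine ⟨fun w => eV.symm (f (eW w)), ?_, ?_, ?_⟩
    · exact eV.symm.injective.comp (hf.comp eW.injective)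
    · intro u v huv
      have := hf1 (eW u) (eW v) ((hH u v).mpr huv)
      rcases this with h | h
      · left; rw [← hG]; simpa using h
      · right; rw [← hs]; simpa using h
    · refine ⟨eW.symm u, eW.symm v, ?_, ?_⟩
      · rw [← hH]; simpa using huv
      · rw [← hs]; simpa using he
  · rintro ⟨f, hf, hf1, u, v, huv, he⟩
    refine ⟨fun w => eV (f (eW.symm w)), ?_, ?_, ?_⟩
    · exact eV.injective.comp (hf.comp eW.symm.injective)
    · intro u v huv
      have := hf1 (eW.symm u) (eW.symm v) (by rw [← hH]; simpa using huv)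
      rcases this with h | h
      · left; rw [hG]; exact h
      · right; rw [hs]; exact h
    · refine ⟨eW u, eW v, (hH u v).mpr huv, ?_⟩
      rw [hs]; simpa using he

lemma process_transport {V : Type u} {V' : Type u'} {W : Type v} {W' : Type v'} [Fintype V]
    [Fintype V'] (eV : V ≃ V') (eW : W ≃ W')
    {H : SimpleGraph W} {H' : SimpleGraph W'} (hH : ∀ u v, H'.Adj (eW u) (eW v) ↔ H.Adj u v)
    {G : SimpleGraph V} {G' : SimpleGraph V'} (hG : ∀ a b, G'.Adj (eV a) (eV b) ↔ G.Adj a b)
    (i : ℕ) : ∀ a b, (process H' G' i).Adj (eV a) (eV b) ↔ (process H G i).Adj a b := by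
  induction i with
  | zero => exact hG
  | succ i ih =>
    intro a b
    simp only [process, iterate_succ_apply'] at ih ⊢
    exact nextGraph_transport eV eW hH ih a b

lemma runTime_transport {V : Type u} {V' : Type u'} {W : Type v} {W' : Type v'} [Fintype V]
    [Fintype V'] (eV : V ≃ V') (eW : W ≃ W')
    {H : SimpleGraph W} {H' : SimpleGraph W'} (hH : ∀ u v, H'.Adj (eW u) (eW v) ↔ H.Adj u v)
    {G : SimpleGraph V} {G' : SimpleGraph V'} (hG : ∀ a b, G'.Adj (eV a) (eV b) ↔ G.Adj a b) :
    runTime H' G' = runTime H G := by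
  unfold runTime
  congr 1
  ext s
  simp only [Set.mem_ofPred_eq]
  have h1 := process_transport eV eW hH hG s
  have h2 := process_transport eV eW hH hG (s + 1)
  constructor
  · intro h
    ext a b
    rw [← h1, ← h2, h]
  · intro h
    ext a b
    obtain ⟨a, rfl⟩ := eV.surjective a
    obtain ⟨b, rfl⟩ := eV.surjective b
    rw [h1, h2, h]

lemma process_mono_le [Fintype V] (H : SimpleGraph W) (G : SimpleGraph V) (i : ℕ) :
    process H G i ≤ process H G (i + 1) := by
  intro a b h
  simp only [process, iterate_succ_apply'] at h ⊢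
  exact Or.inl h

/-- the process stabilises -/
lemma exists_stable [Fintype V] (H : SimpleGraph W) (G : SimpleGraph V) :
    ∃ s, process H G s = process H G (s + 1) := by
  classical
  have hmono : Monotone (process H G) := monotone_nat_of_le_succ (process_mono_le H G)
  obtain ⟨n, hn⟩ := WellFoundedGT.monotone_chain_condition ⟨process H G, hmono⟩
  exact ⟨n, hn (n + 1) (Nat.le_succ n)⟩

lemma runTime_spec [Fintype V] (H : SimpleGraph W) (G : SimpleGraph V) :
    process H G (runTime H G) = process H G (runTime H G + 1) :=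
  Nat.sInf_mem (s := {s : ℕ | process H G s = process H G (s + 1)}) (exists_stable H G)

lemma process_stable [Fintype V] (H : SimpleGraph W) (G : SimpleGraph V) (j : ℕ) :
    process H G (runTime H G + j) = process H G (runTime H G) := by
  induction j with
  | zero => rfl
  | succ j ih =>
    have h1 := runTime_spec H G
    have : process H G (runTime H G + (j + 1)) = nextGraph H (process H G (runTime H G + j)) := by
      simp only [process]
      rw [← Nat.add_assoc, iterate_succ_apply']
    rw [this, ih]
    rw [h1]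
    conv_rhs => rw [← h1]
    simp only [process, iterate_succ_apply'] at h1 ⊢
    rw [← h1]
    exact h1.symm

/-- if a round `N` adds an edge, then the running time is at least `N` -/
lemma le_runTime [Fintype V] (H : SimpleGraph W) (G : SimpleGraph V) (N : ℕ)
    (h : process H G N ≠ process H G (N + 1)) : N + 1 ≤ runTime H G := by
  by_contra hcon
  push Not at hcon
  have h1 : runTime H G ≤ N := by omega
  obtain ⟨j, rfl⟩ := Nat.exists_eq_add_of_le h1
  apply h
  rw [process_stable, Nat.add_assoc, process_stable]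

end

end TB
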