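import Pool.Agent.Q189.TB1

/-!
# Reduction to a spanning process on the big vertices
-/

set_option autoImplicit false

namespace TB

open SimpleGraph Function

universe u v w

variable {S : Type u} {O : Type v} {β : Type w}

/-- The graph with vertex set `S`, the graph `F` on `S`, the outside leaves `o` attached to
`own o`, and one more vertex (`none`) attached to the vertices in `R`. -/
def treeOf (F : SimpleGraph S) (own : O → S) (R : Set S) : SimpleGraph (S ⊕ Option O) where
  Adj x y := match x, y with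
    | Sum.inl s, Sum.inl s' => F.Adj s s'
    | Sum.inl s, Sum.inr (some o) => own o = s
    | Sum.inl s, Sum.inr none => s ∈ R
    | Sum.inr (some o), Sum.inl s => own o = s
    | Sum.inr none, Sum.inl s => s ∈ R
    | Sum.inr _, Sum.inr _ => False
  symm := ⟨by
    rintro (s | _ | o) (s' | _ | o') h
    · exact h.symm
    · exact h
    · exact h
    · exact h
    · exact h
    · exact h
    · exact h
    · exact h
    · exact h⟩
  loopless := ⟨by
    rintro (s | _ | o) h
    · exact F.loopless.irrefl s h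
    · exact h
    · exact h⟩

/-- The graph on `S ⊔ β` with the graph `L` on `S`, all edges between `S` and `β`, and no edges
inside `β`. -/
def hostOf (β : Type w) (L : SimpleGraph S) : SimpleGraph (S ⊕ β) where
  Adj x y := match x, y with
    | Sum.inl s, Sum.inl s' => L.Adj s s'
    | Sum.inl _, Sum.inr _ => True
    | Sum.inr _, Sum.inl _ => True
    | Sum.inr _, Sum.inr _ => False
  symm := ⟨by
    rintro (s | o) (s' | o') h
    · exact h.symm
    · exact h
    · exact h
    · exact h⟩
  loopless := ⟨by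
    rintro (s | o) h
    · exact L.loopless.irrefl s h
    · exact h⟩

@[simp] lemma treeOf_ll (F : SimpleGraph S) (own : O → S) (R : Set S) (s s' : S) :
    (treeOf F own R).Adj (Sum.inl s) (Sum.inl s') ↔ F.Adj s s' := Iff.rfl
@[simp] lemma treeOf_lo (F : SimpleGraph S) (own : O → S) (R : Set S) (s : S) (o : O) :
    (treeOf F own R).Adj (Sum.inl s) (Sum.inr (some o)) ↔ own o = s := Iff.rfl
@[simp] lemma treeOf_ol (F : SimpleGraph S) (own : O → S) (R : Set S) (s : S) (o : O) :
    (treeOf F own R).Adj (Sum.inr (some o)) (Sum.inl s) ↔ own o = s := Iff.rfl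
@[simp] lemma treeOf_ln (F : SimpleGraph S) (own : O → S) (R : Set S) (s : S) :
    (treeOf F own R).Adj (Sum.inl s) (Sum.inr none) ↔ s ∈ R := Iff.rfl
@[simp] lemma treeOf_nl (F : SimpleGraph S) (own : O → S) (R : Set S) (s : S) :
    (treeOf F own R).Adj (Sum.inr none) (Sum.inl s) ↔ s ∈ R := Iff.rfl
@[simp] lemma treeOf_rr (F : SimpleGraph S) (own : O → S) (R : Set S) (x y : Option O) :
    ¬ (treeOf F own R).Adj (Sum.inr x) (Sum.inr y) := fun h => by
  rcases x with _ | x <;> rcases y with _ | y <;> exact h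

@[simp] lemma hostOf_ll (L : SimpleGraph S) (s s' : S) :
    (hostOf β L).Adj (Sum.inl s) (Sum.inl s') ↔ L.Adj s s' := Iff.rfl
@[simp] lemma hostOf_lr (L : SimpleGraph S) (s : S) (b : β) :
    (hostOf β L).Adj (Sum.inl s) (Sum.inr b) := trivial
@[simp] lemma hostOf_rl (L : SimpleGraph S) (s : S) (b : β) :
    (hostOf β L).Adj (Sum.inr b) (Sum.inl s) := trivial
@[simp] lemma hostOf_rr (L : SimpleGraph S) (b b' : β) :
    ¬ (hostOf β L).Adj (Sum.inr b) (Sum.inr b') := fun h => h

lemma hostOf_injective : Injective (hostOf (S := S) β) := by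
  intro L L' h
  ext s s'
  rw [← hostOf_ll (β := β), ← hostOf_ll (β := β) L', h]

/-- each vertex of `S` has at least three outside leaves -/
def ThreeLeaves (own : O → S) : Prop :=
  ∀ s, ∃ o₁ o₂ o₃ : O, own o₁ = s ∧ own o₂ = s ∧ own o₃ = s ∧ o₁ ≠ o₂ ∧ o₁ ≠ o₃ ∧ o₂ ≠ o₃

lemma two_leaves [Finite S] {F L : SimpleGraph S} {own : O → S} {R : Set S} (h3 : ThreeLeaves own)
    {a b : S ⊕ β} {f : S ⊕ Option O → S ⊕ β} (hf : Injective f)
    (hadj : ∀ u v, (treeOf F own R).Adj u v → (hostOf β L).Adj (f u) (f v) ∨ s(f u, f v) = s(a, b))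
    {s : S} {b₀ : β} (hs : f (Sum.inl s) = Sum.inr b₀) :
    ∃ o o' : O, o ≠ o' ∧ own o = s ∧ own o' = s ∧ (∃ y, f (Sum.inr (some o)) = Sum.inl y) ∧
      ∃ y, f (Sum.inr (some o')) = Sum.inl y := by
  obtain ⟨o₁, o₂, o₃, h1, h2, h3, h12, h13, h23⟩ := h3 s
  -- two leaves cannot both go to `β`
  have key : ∀ o o' : O, own o = s → own o' = s → o ≠ o' →
      (∃ y, f (Sum.inr (some o)) = Sum.inl y) ∨ ∃ y, f (Sum.inr (some o')) = Sum.inl y := by
    intro o o' ho ho' hne
    by_contra hcon
    push Not at hcon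
    obtain ⟨c1, c2⟩ := hcon
    have e1 : ∃ c, f (Sum.inr (some o)) = Sum.inr c := by
      rcases hfo : f (Sum.inr (some o)) with y | c
      · exact absurd hfo (c1 y)
      · exact ⟨c, rfl⟩
    have e2 : ∃ c, f (Sum.inr (some o')) = Sum.inr c := by
      rcases hfo : f (Sum.inr (some o')) with y | c
      · exact absurd hfo (c2 y)
      · exact ⟨c, rfl⟩
    obtain ⟨c, hc⟩ := e1
    obtain ⟨c', hc'⟩ := e2
    have a1 := hadj (Sum.inl s) (Sum.inr (some o)) ho
    have a2 := hadj (Sum.inl s) (Sum.inr (some o')) ho'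
    rw [hs, hc] at a1
    rw [hs, hc'] at a2
    simp only [hostOf_rr, false_or] at a1 a2
    rw [← a2, Sym2.eq_iff] at a1
    have hcc : c = c' := by
      rcases a1 with ⟨-, h⟩ | ⟨h, h'⟩
      · exact Sum.inr_injective h
      · have := Sum.inr_injective h
        have := Sum.inr_injective h'
        simp_all
    have := hf (hc.trans (by rw [hcc]; exact hc'.symm))
    simp only [Sum.inr.injEq, Option.some.injEq] at this
    exact hne this
  rcases key o₁ o₂ h1 h2 h12 with h | h
  · rcases key o₂ o₃ h2 h3 h23 with h' | h'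
    · exact ⟨o₁, o₂, h12, h1, h2, h, h'⟩
    · exact ⟨o₁, o₃, h13, h1, h3, h, h'⟩
  · rcases key o₁ o₃ h1 h3 h13 with h' | h'
    · exact ⟨o₁, o₂, h12, h1, h2, h', h⟩
    · exact ⟨o₂, o₃, h23, h2, h3, h, h'⟩

/-- a copy of the tree in host plus an edge maps `S` onto `S` -/
lemma core_to_core [Finite S] {F L : SimpleGraph S} {own : O → S} {R : Set S}
    (h3 : ThreeLeaves own)
    {a b : S ⊕ β} {f : S ⊕ Option O → S ⊕ β} (hf : Injective f)
    (hadj : ∀ u v, (treeOf F own R).Adj u v →
      (hostOf β L).Adj (f u) (f v) ∨ s(f u, f v) = s(a, b)) :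
    ∃ φ : S → S, Injective φ ∧ (∀ s, f (Sum.inl s) = Sum.inl (φ s)) ∧
      ∀ o, ∃ c, f (Sum.inr o) = Sum.inr c := by
  classical
  -- choose for every `s` a vertex of the tree, which is `s` or one of its leaves, sent into `S`
  have hsrc : ∀ s : S, ∃ x : S ⊕ Option O, (∃ y, f x = Sum.inl y) ∧
      (x = Sum.inl s ∨ ((∃ o, own o = s ∧ x = Sum.inr (some o)) ∧
        ∃ b₀, f (Sum.inl s) = Sum.inr b₀)) := by
    intro s
    rcases hfs : f (Sum.inl s) with y | b₀
    · exact ⟨Sum.inl s, ⟨y, hfs⟩, Or.inl rfl⟩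
    · obtain ⟨o, o', -, ho, -, hy, -⟩ := two_leaves h3 hf hadj hfs
      exact ⟨Sum.inr (some o), hy, Or.inr ⟨⟨o, ho, rfl⟩, b₀, rfl⟩⟩
  choose src hsrc1 hsrc2 using hsrc
  choose h hh using hsrc1
  have hsrcinj : Injective src := by
    intro s s' hss
    rcases hsrc2 s with h1 | ⟨⟨o, ho, h1⟩, -⟩ <;> rcases hsrc2 s' with h2 | ⟨⟨o', ho', h2⟩, -⟩
    · rw [h1, h2] at hss; exact Sum.inl_injective hss
    · rw [h1, h2] at hss; exact absurd hss (by simp)
    · rw [h1, h2] at hss; exact absurd hss (by simp)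
    · rw [h1, h2] at hss
      simp only [Sum.inr.injEq, Option.some.injEq] at hss
      rw [← ho, ← ho', hss]
  have hhinj : Injective h := by
    intro s s' hss
    apply hsrcinj
    apply hf
    rw [hh, hh, hss]
  have hhsurj : Surjective h := Finite.surjective_of_injective hhinj
  have hcore : ∀ s, ∃ y, f (Sum.inl s) = Sum.inl y := by
    intro s
    by_contra hcon
    push Not at hcon
    have : ∃ b₀, f (Sum.inl s) = Sum.inr b₀ := by
      rcases hfs : f (Sum.inl s) with y | b₀
      · exact absurd hfs (hcon y)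
      · exact ⟨b₀, rfl⟩
    obtain ⟨b₀, hb₀⟩ := this
    obtain ⟨o, o', hne, ho, ho', ⟨y, hy⟩, ⟨y', hy'⟩⟩ := two_leaves h3 hf hadj hb₀
    have aux : ∀ o₁ : O, own o₁ = s → (∃ y, f (Sum.inr (some o₁)) = Sum.inl y) →
        src s = Sum.inr (some o₁) := by
      intro o₁ ho₁ ⟨y₁, hy₁⟩
      obtain ⟨s₁, hs₁⟩ := hhsurj y₁
      have e1 : src s₁ = Sum.inr (some o₁) := hf (by rw [hh, hs₁, hy₁])
      rcases hsrc2 s₁ with h1 | ⟨⟨o₂, ho₂, h1⟩, -⟩
      · rw [h1] at e1; exact absurd e1 (by simp)
      · rw [h1] at e1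
        simp only [Sum.inr.injEq, Option.some.injEq] at e1
        subst e1
        have : s₁ = s := by rw [← ho₂, ho₁]
        rw [← this, h1]
    have e1 := aux o ho ⟨y, hy⟩
    have e2 := aux o' ho' ⟨y', hy'⟩
    rw [e1] at e2
    simp only [Sum.inr.injEq, Option.some.injEq] at e2
    exact hne e2
  choose φ hφ using hcore
  have hφinj : Injective φ := by
    intro s s' hss
    have : (Sum.inl s : S ⊕ Option O) = Sum.inl s' := hf (by rw [hφ, hφ, hss])
    exact Sum.inl_injective this
  have hφsurj : Surjective φ := Finite.surjective_of_injective hφinj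
  refine ⟨φ, hφinj, hφ, ?_⟩
  intro o
  rcases hfo : f (Sum.inr o) with y | c
  · obtain ⟨s, hs⟩ := hφsurj y
    have : (Sum.inr o : S ⊕ Option O) = Sum.inl s := hf (by rw [hfo, hφ, hs])
    exact absurd this (by simp)
  · exact ⟨c, rfl⟩

/-- one round of the process of the tree in the host graph is one round of the process of `F`
in the graph of the big vertices -/
theorem next_hostOf [Fintype S] [Fintype β] {F : SimpleGraph S} {own : O → S} {R : Set S}
    (h3 : ThreeLeaves own) (g : Option O ↪ β) (L : SimpleGraph S) :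
    nextGraph (treeOf F own R) (hostOf β L) = hostOf β (nextGraph F L) := by
  ext x y
  rw [nextGraph_adj]
  rcases x with s | c <;> rcases y with s' | c'
  · rw [hostOf_ll, hostOf_ll, nextGraph_adj]
    refine or_congr Iff.rfl (and_congr (by simp) ?_)
    constructor
    · rintro ⟨f, hf, hadj, x, y, hxy, he⟩
      obtain ⟨φ, hφ, hfφ, hfr⟩ := core_to_core h3 hf hadj
      have hs : ∀ u v : S, s((Sum.inl u : S ⊕ β), Sum.inl v) = s(Sum.inl s, Sum.inl s') ↔
          s(u, v) = s(s, s') := by
        intro u v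
        simp
      refine ⟨φ, hφ, ?_, ?_⟩
      · intro u v huv
        have := hadj (Sum.inl u) (Sum.inl v) huv
        rw [hfφ, hfφ, hostOf_ll, hs] at this
        exact this
      · rcases x with x | x <;> rcases y with y | y
        · refine ⟨x, y, hxy, ?_⟩
          rw [hfφ, hfφ, hs] at he
          exact he
        · obtain ⟨c, hc⟩ := hfr y
          rw [hfφ, hc, Sym2.eq_iff] at he
          simp at he
        · obtain ⟨c, hc⟩ := hfr x
          rw [hfφ, hc, Sym2.eq_iff] at he
          simp at he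
        · exact absurd hxy (treeOf_rr F own R x y)
    · rintro ⟨φ, hφ, hadj, x, y, hxy, he⟩
      refine ⟨Sum.map φ g, Sum.map_injective.mpr ⟨hφ, g.injective⟩, ?_, Sum.inl x, Sum.inl y,
        hxy, ?_⟩
      · rintro (u | u) (v | v) huv
        · rcases hadj u v huv with h | h
          · exact Or.inl h
          · right
            simp only [Sum.map_inl]
            rw [Sym2.eq_iff] at h ⊢
            simpa using h
        · exact Or.inl trivial
        · exact Or.inl trivial
        · exact absurd huv (treeOf_rr F own R u v)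
      · simp only [Sum.map_inl]
        rw [Sym2.eq_iff] at he ⊢
        simpa using he
  · simp
  · simp
  · simp only [hostOf_rr, false_or, iff_false, not_and]
    rintro - ⟨f, hf, hadj, x, y, hxy, he⟩
    obtain ⟨φ, hφ, hfφ, hfr⟩ := core_to_core h3 hf hadj
    rcases x with x | x <;> rcases y with y | y
    · rw [hfφ, hfφ, Sym2.eq_iff] at he
      simp at he
    · rw [hfφ, Sym2.eq_iff] at he
      simp at he
    · rw [hfφ, Sym2.eq_iff] at he
      simp at he
    · exact absurd hxy (treeOf_rr F own R x y)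

theorem process_hostOf [Fintype S] [Fintype β] {F : SimpleGraph S} {own : O → S} {R : Set S}
    (h3 : ThreeLeaves own) (g : Option O ↪ β) (L : SimpleGraph S) (i : ℕ) :
    process (treeOf F own R) (hostOf β L) i = hostOf β (process F L i) := by
  induction i with
  | zero => rfl
  | succ i ih =>
    simp only [process, iterate_succ_apply'] at ih ⊢
    rw [ih, next_hostOf h3 g]

end TB
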