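import Pool.Agent.Q189.TB1

/-!
# Private leaves as colours
-/

set_option autoImplicit false

namespace TB

open SimpleGraph Function

universe u

variable {C : Type u}

/-- the vertices of `C` (second coordinate `0`), each with `col x` private leaves -/
abbrev Dec (col : C → ℕ) : Type u := {p : C × ℕ // p.2 ≤ col p.1}

/-- `Dec col` as a sigma type -/
def decEquiv (col : C → ℕ) : (Σ x : C, Fin (col x + 1)) ≃ Dec col where
  toFun p := ⟨(p.1, p.2.1), Nat.lt_succ_iff.mp p.2.2⟩
  invFun p := ⟨p.1.1, ⟨p.1.2, Nat.lt_succ_iff.mpr p.2⟩⟩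
  left_inv _ := rfl
  right_inv _ := rfl

instance decFintype [Fintype C] (col : C → ℕ) : Fintype (Dec col) :=
  Fintype.ofEquiv _ (decEquiv col)

lemma card_dec [Fintype C] (col : C → ℕ) : Fintype.card (Dec col) = ∑ x, (col x + 1) := by
  rw [← Fintype.card_congr (decEquiv col)]
  simp

/-- the graph on `C` with private leaves -/
def hat (col : C → ℕ) (K : SimpleGraph C) : SimpleGraph (Dec col) where
  Adj p q := (p.1.2 = 0 ∧ q.1.2 = 0 ∧ K.Adj p.1.1 q.1.1) ∨
    (p.1.1 = q.1.1 ∧ ((p.1.2 = 0 ∧ q.1.2 ≠ 0) ∨ (p.1.2 ≠ 0 ∧ q.1.2 = 0)))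
  symm := ⟨by
    intro p q h
    rcases h with ⟨h1, h2, h3⟩ | ⟨h1, h2 | h2⟩
    · exact Or.inl ⟨h2, h1, h3.symm⟩
    · exact Or.inr ⟨h1.symm, Or.inr ⟨h2.2, h2.1⟩⟩
    · exact Or.inr ⟨h1.symm, Or.inl ⟨h2.2, h2.1⟩⟩⟩
  loopless := ⟨by
    intro p h
    rcases h with ⟨-, -, h3⟩ | ⟨-, h2 | h2⟩
    · exact K.loopless.irrefl _ h3
    · exact h2.2 h2.1
    · exact h2.1 h2.2⟩

lemma hat_adj (col : C → ℕ) (K : SimpleGraph C) (p q : Dec col) : (hat col K).Adj p q ↔
    ((p.1.2 = 0 ∧ q.1.2 = 0 ∧ K.Adj p.1.1 q.1.1) ∨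
    (p.1.1 = q.1.1 ∧ ((p.1.2 = 0 ∧ q.1.2 ≠ 0) ∨ (p.1.2 ≠ 0 ∧ q.1.2 = 0)))) := Iff.rfl

/-- one round of the coloured process on `C` -/
def nextCol (col : C → ℕ) (F K : SimpleGraph C) : SimpleGraph C where
  Adj x y := K.Adj x y ∨ (x ≠ y ∧ ∃ σ : Equiv.Perm C, (∀ z, col (σ z) = col z) ∧
    (∀ u v, F.Adj u v → K.Adj (σ u) (σ v) ∨ s(σ u, σ v) = s(x, y)) ∧
    ∃ u v, F.Adj u v ∧ s(σ u, σ v) = s(x, y))
  symm := ⟨by
    intro x y h
    rcases h with h | ⟨h, σ, h1, h2, h3⟩
    · exact Or.inl h.symm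
    · refine Or.inr ⟨h.symm, σ, h1, ?_, ?_⟩
      · rw [Sym2.eq_swap (a := y)]; exact h2
      · rw [Sym2.eq_swap (a := y)]; exact h3⟩
  loopless := ⟨by
    intro x h
    rcases h with h | h
    · exact K.loopless.irrefl _ h
    · exact h.1 rfl⟩

/-- the core vertex `x` -/
def cr (col : C → ℕ) (x : C) : Dec col := ⟨(x, 0), Nat.zero_le _⟩

@[simp] lemma cr_fst (col : C → ℕ) (x : C) : (cr col x).1.1 = x := rfl
@[simp] lemma cr_snd (col : C → ℕ) (x : C) : (cr col x).1.2 = 0 := rfl

lemma eq_cr {col : C → ℕ} {p : Dec col} (h : p.1.2 = 0) : p = cr col p.1.1 := by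
  apply Subtype.ext
  exact Prod.ext rfl h

/-- the private leaves of `x` -/
def leaves (col : C → ℕ) (x : C) : Set (Dec col) := {p | p.1.1 = x ∧ p.1.2 ≠ 0}

lemma ncard_leaves (col : C → ℕ) (x : C) : (leaves col x).ncard = col x := by
  have : leaves col x = Set.range (fun i : Fin (col x) => (⟨(x, i.1 + 1), i.2⟩ : Dec col)) := by
    ext p
    simp only [leaves, Set.mem_ofPred_eq, Set.mem_range]
    constructor
    · rintro ⟨rfl, h2⟩
      have := p.2
      refine ⟨⟨p.1.2 - 1, by omega⟩, ?_⟩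
      apply Subtype.ext
      apply Prod.ext
      · rfl
      · simp only; omega
    · rintro ⟨i, rfl⟩
      exact ⟨rfl, by simp⟩
  rw [this, ← Set.image_univ, Set.ncard_image_of_injective, Set.ncard_univ, Nat.card_fin]
  intro i j h
  have := congrArg (fun p : Dec col => p.1.2) h
  simp only [Nat.add_right_cancel_iff] at this
  exact Fin.ext this

section

variable {col : C → ℕ} {F K : SimpleGraph C}

/-- a vertex sent to a private leaf is a private leaf -/
lemma priv_of_image (hcol : ∀ x, 3 ≤ col x) {f : Dec col → Dec col} (hf : Injective f)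
    {a b : Dec col}
    (hadj : ∀ u v, (hat col F).Adj u v → (hat col K).Adj (f u) (f v) ∨ s(f u, f v) = s(a, b))
    {v : Dec col} (hv : (f v).1.2 ≠ 0) : v.1.2 ≠ 0 := by
  intro h0
  have hp : ∀ i : ℕ, 1 ≤ i → i ≤ 3 → ∃ p : Dec col, p.1.1 = v.1.1 ∧ p.1.2 = i := by
    intro i _ h2
    exact ⟨⟨(v.1.1, i), h2.trans (hcol _)⟩, rfl, rfl⟩
  obtain ⟨p1, h11, h12⟩ := hp 1 le_rfl (by norm_num)
  obtain ⟨p2, h21, h22⟩ := hp 2 (by norm_num) (by norm_num)
  obtain ⟨p3, h31, h32⟩ := hp 3 (by norm_num) le_rfl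
  have key : ∀ p : Dec col, p.1.1 = v.1.1 → p.1.2 ≠ 0 →
      (f p = cr col (f v).1.1) ∨ s(f v, f p) = s(a, b) := by
    intro p hp1 hp2
    have := hadj v p (Or.inr ⟨hp1.symm, Or.inl ⟨h0, hp2⟩⟩)
    rcases this with h | h
    · left
      rcases h with ⟨h, -⟩ | ⟨h, h' | h'⟩
      · exact absurd h hv
      · exact absurd h'.1 hv
      · rw [eq_cr h'.2, h]
    · exact Or.inr h
  have hcomb : ∀ p q : Dec col, p.1.2 ≠ q.1.2 →
      ¬ (f p = cr col (f v).1.1 ∧ f q = cr col (f v).1.1) ∧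
      ¬ (s(f v, f p) = s(a, b) ∧ s(f v, f q) = s(a, b)) := by
    intro p q hpq
    constructor
    · rintro ⟨h1, h2⟩
      exact hpq (by rw [hf (h1.trans h2.symm)])
    · rintro ⟨h1, h2⟩
      have := h1.trans h2.symm
      rw [Sym2.congr_right] at this
      exact hpq (by rw [hf this])
  have k1 := key p1 h11 (by omega)
  have k2 := key p2 h21 (by omega)
  have k3 := key p3 h31 (by omega)
  have c12 := hcomb p1 p2 (by omega)
  have c13 := hcomb p1 p3 (by omega)
  have c23 := hcomb p2 p3 (by omega)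
  tauto

/-- the structure of a copy -/
lemma copy_structure [Finite C] (hcol : ∀ x, 3 ≤ col x) {f : Dec col → Dec col}
    (hf : Injective f) {a b : Dec col}
    (hadj : ∀ u v, (hat col F).Adj u v → (hat col K).Adj (f u) (f v) ∨ s(f u, f v) = s(a, b)) :
    (∀ v, v.1.2 ≠ 0 → (f v).1.2 ≠ 0) ∧
    ∃ σ : Equiv.Perm C, ∀ x, f (cr col x) = cr col (σ x) := by
  classical
  have : Fintype C := Fintype.ofFinite C
  have h1 : ∀ v, (f v).1.2 ≠ 0 → v.1.2 ≠ 0 := fun v hv => priv_of_image hcol hf hadj hv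
  have hsurj : Surjective f := Finite.surjective_of_injective hf
  have h2 : ∀ v : Dec col, v.1.2 ≠ 0 → (f v).1.2 ≠ 0 := by
    let P := {p : Dec col // p.1.2 ≠ 0}
    let e : Dec col ≃ Dec col := Equiv.ofBijective f ⟨hf, hsurj⟩
    have he : ∀ p, f (e.symm p) = p := fun p => e.apply_symm_apply p
    let g : P → P := fun p => ⟨e.symm p.1, h1 _ (by rw [he]; exact p.2)⟩
    have hg : Injective g := by
      intro p q h
      apply Subtype.ext
      apply e.symm.injective
      exact congrArg Subtype.val h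
    have hgs : Surjective g := Finite.surjective_of_injective hg
    intro v hv
    obtain ⟨p, hp⟩ := hgs ⟨v, hv⟩
    have : e.symm p.1 = v := congrArg Subtype.val hp
    rw [← this, he]
    exact p.2
  refine ⟨h2, ?_⟩
  have h3 : ∀ x, f (cr col x) = cr col (f (cr col x)).1.1 := by
    intro x
    apply eq_cr
    by_contra hne
    exact h1 _ hne rfl
  let σ₀ : C → C := fun x => (f (cr col x)).1.1
  have hσ : Injective σ₀ := by
    intro x y hxy
    have : f (cr col x) = f (cr col y) := by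
      rw [h3 x, h3 y]
      exact congrArg _ hxy
    have := congrArg (fun p : Dec col => p.1.1) (hf this)
    exact this
  exact ⟨Equiv.ofBijective σ₀ (Finite.injective_iff_bijective.mp hσ), h3⟩

/-- the new edge does not touch a private leaf -/
lemma edge_core [Finite C] (hcol : ∀ x, 3 ≤ col x) (hodd : ∀ x, Odd (col x))
    {f : Dec col → Dec col} (hf : Injective f) {a b : Dec col}
    (hab : ¬ (hat col K).Adj a b)
    (hadj : ∀ u v, (hat col F).Adj u v → (hat col K).Adj (f u) (f v) ∨ s(f u, f v) = s(a, b))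
    {u v : Dec col} (huv : (hat col F).Adj u v) (hu : f u = a) (hv : f v = b) :
    a.1.2 = 0 := by
  classical
  have : Fintype C := Fintype.ofFinite C
  by_contra ha
  obtain ⟨h2, σ, hσ⟩ := copy_structure hcol hf hadj
  have h1 : ∀ v, (f v).1.2 ≠ 0 → v.1.2 ≠ 0 := fun v hv => priv_of_image hcol hf hadj hv
  have hsurj : Surjective f := Finite.surjective_of_injective hf
  have hu0 : u.1.2 ≠ 0 := h1 u (by rw [hu]; exact ha)
  have hv0 : v.1.2 = 0 ∧ u.1.1 = v.1.1 := by
    rcases huv with ⟨h, -⟩ | ⟨h, h' | h'⟩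
    · exact absurd h hu0
    · exact absurd h'.1 hu0
    · exact ⟨h'.2, h⟩
  have hvc := eq_cr hv0.1
  set x := v.1.1 with hx
  have hb : b = cr col (σ x) := by rw [← hv, hvc, hσ]
  have hay : a.1.1 ≠ σ x := by
    intro h
    apply hab
    right
    rw [hb]
    exact ⟨h, Or.inr ⟨ha, rfl⟩⟩
  have himg : f '' (leaves col x) = insert a (leaves col (σ x)) := by
    ext ℓ
    constructor
    · rintro ⟨u', ⟨hu1, hu2⟩, rfl⟩
      have := hadj u' v (Or.inr ⟨hu1, Or.inr ⟨hu2, hv0.1⟩⟩)
      rw [hv] at this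
      rcases this with h | h
      · right
        rw [hb] at h
        rcases h with ⟨h, -⟩ | ⟨h, -⟩
        · exact absurd h (h2 _ hu2)
        · exact ⟨h, h2 _ hu2⟩
      · left
        rw [Sym2.congr_left] at h
        exact h
    · rintro (rfl | ⟨hl1, hl2⟩)
      · exact ⟨u, ⟨hv0.2, hu0⟩, hu⟩
      · obtain ⟨w, rfl⟩ := hsurj ℓ
        refine ⟨w, ⟨?_, h1 _ hl2⟩, rfl⟩
        have := hadj w (cr col w.1.1) (Or.inr ⟨rfl, Or.inr ⟨h1 _ hl2, rfl⟩⟩)
        rw [hσ] at this
        rcases this with h | h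
        · rcases h with ⟨h, -⟩ | ⟨h, -⟩
          · exact absurd h hl2
          · apply σ.injective
            rw [← hl1, h]
            rfl
        · rw [Sym2.eq_iff] at h
          rcases h with ⟨h, -⟩ | ⟨h, -⟩
          · rw [h] at hl1; exact absurd hl1 hay
          · rw [h, hb] at hl2; exact absurd rfl hl2
  have hcard := congrArg Set.ncard himg
  rw [Set.ncard_image_of_injective _ hf, ncard_leaves,
    Set.ncard_insert_of_notMem (fun h => hay h.1) (Set.toFinite _), ncard_leaves] at hcard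
  obtain ⟨k, hk⟩ := hodd x
  obtain ⟨l, hl⟩ := hodd (σ x)
  omega

/-- colours are preserved -/
lemma copy_colour [Finite C] (hcol : ∀ x, 3 ≤ col x) {f : Dec col → Dec col}
    (hf : Injective f) {a b : Dec col} (ha : a.1.2 = 0) (hb : b.1.2 = 0)
    (hadj : ∀ u v, (hat col F).Adj u v → (hat col K).Adj (f u) (f v) ∨ s(f u, f v) = s(a, b)) :
    (∀ v, v.1.2 ≠ 0 → (f v).1.2 ≠ 0) ∧
    ∃ σ : Equiv.Perm C, (∀ x, f (cr col x) = cr col (σ x)) ∧ ∀ x, col (σ x) = col x := by
  classical
  have : Fintype C := Fintype.ofFinite C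
  obtain ⟨h2, σ, hσ⟩ := copy_structure hcol hf hadj
  refine ⟨h2, σ, hσ, ?_⟩
  have hle : ∀ x, col x ≤ col (σ x) := by
    intro x
    rw [← ncard_leaves col x, ← ncard_leaves col (σ x), ← Set.ncard_image_of_injective _ hf]
    apply Set.ncard_le_ncard _ (Set.toFinite _)
    rintro _ ⟨u, ⟨hu1, hu2⟩, rfl⟩
    refine ⟨?_, h2 _ hu2⟩
    have := hadj u (cr col x) (Or.inr ⟨hu1, Or.inr ⟨hu2, rfl⟩⟩)
    rw [hσ] at this
    rcases this with h | h
    · rcases h with ⟨h, -⟩ | ⟨h, -⟩
      · exact absurd h (h2 _ hu2)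
      · exact h
    · rw [Sym2.eq_iff] at h
      rcases h with ⟨h, -⟩ | ⟨h, -⟩
      · exact absurd (by rw [h]; exact ha) (h2 _ hu2)
      · exact absurd (by rw [h]; exact hb) (h2 _ hu2)
  have hsum : ∑ x, col x = ∑ x, col (σ x) := (Equiv.sum_comp σ col).symm
  have := (Finset.sum_eq_sum_iff_of_le (fun x _ => hle x)).mp hsum
  intro x
  exact (this x (Finset.mem_univ x)).symm

theorem next_hat [Fintype C] (hcol : ∀ x, 3 ≤ col x) (hodd : ∀ x, Odd (col x)) :
    nextGraph (hat col F) (hat col K) = hat col (nextCol col F K) := by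
  classical
  ext a b
  rw [nextGraph_adj]
  by_cases hab : (hat col K).Adj a b
  · refine iff_of_true (Or.inl hab) ?_
    rcases hab with ⟨h1, h2, h3⟩ | h
    · exact Or.inl ⟨h1, h2, Or.inl h3⟩
    · exact Or.inr h
  simp only [hab, false_or]
  have hs : ∀ x y : C, ∀ a b : Dec col, a.1.2 = 0 → b.1.2 = 0 →
      (s(cr col x, cr col y) = s(a, b) ↔ s(x, y) = s(a.1.1, b.1.1)) := by
    intro x y a b ha hb
    have ha' := eq_cr ha
    have hb' := eq_cr hb
    constructor
    · intro h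
      have := congrArg (Sym2.map (fun p : Dec col => p.1.1)) h
      simpa using this
    · intro h
      have := congrArg (Sym2.map (fun x : C => cr col x)) h
      simp only [Sym2.map_mk] at this
      rw [this, ← ha', ← hb']
  constructor
  · rintro ⟨hne, f, hf, hadj, u, v, huv, he⟩
    have hcore : a.1.2 = 0 ∧ b.1.2 = 0 := by
      have hadj' : ∀ u v, (hat col F).Adj u v →
          (hat col K).Adj (f u) (f v) ∨ s(f u, f v) = s(b, a) := by
        rw [Sym2.eq_swap (a := b)]; exact hadj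
      have hab' : ¬ (hat col K).Adj b a := fun h => hab h.symm
      rw [Sym2.eq_iff] at he
      rcases he with ⟨h1, h2⟩ | ⟨h1, h2⟩
      · exact ⟨edge_core hcol hodd hf hab hadj huv h1 h2,
          edge_core hcol hodd hf hab' hadj' huv.symm h2 h1⟩
      · exact ⟨edge_core hcol hodd hf hab hadj huv.symm h2 h1,
          edge_core hcol hodd hf hab' hadj' huv h1 h2⟩
    obtain ⟨h2, σ, hσ, hc⟩ := copy_colour hcol hf hcore.1 hcore.2 hadj
    left
    refine ⟨hcore.1, hcore.2, Or.inr ⟨?_, σ, hc, ?_, ?_⟩⟩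
    · intro h
      apply hne
      rw [eq_cr hcore.1, eq_cr hcore.2, h]
    · intro x y hxy
      have := hadj (cr col x) (cr col y) (Or.inl ⟨rfl, rfl, hxy⟩)
      rw [hσ, hσ, hs _ _ _ _ hcore.1 hcore.2] at this
      rcases this with h | h
      · left
        rcases h with ⟨-, -, h⟩ | ⟨-, h | h⟩
        · exact h
        · exact absurd rfl h.2
        · exact absurd rfl h.1
      · exact Or.inr h
    · have hu0 : u.1.2 = 0 := by
        by_contra hcon
        have := h2 u hcon
        rw [Sym2.eq_iff] at he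
        rcases he with ⟨h, -⟩ | ⟨h, -⟩
        · rw [h] at this; exact this hcore.1
        · rw [h] at this; exact this hcore.2
      have hv0 : v.1.2 = 0 := by
        by_contra hcon
        have := h2 v hcon
        rw [Sym2.eq_iff] at he
        rcases he with ⟨-, h⟩ | ⟨-, h⟩
        · rw [h] at this; exact this hcore.2
        · rw [h] at this; exact this hcore.1
      refine ⟨u.1.1, v.1.1, ?_, ?_⟩
      · rcases huv with ⟨-, -, h⟩ | ⟨-, h | h⟩
        · exact h
        · exact absurd hv0 h.2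
        · exact absurd hu0 h.1
      · rw [eq_cr hu0, eq_cr hv0, hσ, hσ, hs _ _ _ _ hcore.1 hcore.2] at he
        exact he
  · rintro (⟨ha, hb, h | ⟨hne, σ, hc, hadj, u, v, huv, he⟩⟩ | h)
    · exact absurd (Or.inl ⟨ha, hb, h⟩) hab
    · have hg : ∃ g : Dec col → Dec col, ∀ p, (g p).1 = (σ p.1.1, p.1.2) :=
        ⟨fun p => ⟨(σ p.1.1, p.1.2), by
          show p.1.2 ≤ col (σ p.1.1)
          rw [hc]; exact p.2⟩, fun p => rfl⟩
      obtain ⟨g, hg⟩ := hg
      have hg1 : ∀ p, (g p).1.1 = σ p.1.1 := fun p => by rw [hg]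
      have hg2 : ∀ p, (g p).1.2 = p.1.2 := fun p => by rw [hg]
      have hgc : ∀ p : Dec col, p.1.2 = 0 → g p = cr col (σ p.1.1) := by
        intro p hp
        rw [eq_cr (p := g p) (by rw [hg2]; exact hp), hg1]
      refine ⟨fun h => hne (by rw [h]), g, ?_, ?_, ?_⟩
      · intro p q h
        have h1 := hg1 p
        have h2 := hg2 p
        rw [h] at h1 h2
        rw [hg1] at h1
        rw [hg2] at h2
        exact Subtype.ext (Prod.ext (σ.injective h1).symm h2.symm)
      · intro p q hpq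
        rcases hpq with ⟨h1, h2, h3⟩ | ⟨h1, h2⟩
        · rcases hadj _ _ h3 with h | h
          · refine Or.inl (Or.inl ⟨by rw [hg2]; exact h1, by rw [hg2]; exact h2, ?_⟩)
            rw [hg1, hg1]; exact h
          · right
            rw [← hs _ _ _ _ ha hb] at h
            rw [hgc p h1, hgc q h2]
            exact h
        · refine Or.inl (Or.inr ⟨?_, ?_⟩)
          · rw [hg1, hg1, h1]
          · rw [hg2, hg2]; exact h2
      · refine ⟨cr col u, cr col v, Or.inl ⟨rfl, rfl, huv⟩, ?_⟩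
        rw [← hs _ _ _ _ ha hb] at he
        rw [hgc _ rfl, hgc _ rfl]
        exact he
    · exact absurd (Or.inr h) hab

end

/-- the coloured process -/
def processCol (col : C → ℕ) (F K : SimpleGraph C) (i : ℕ) : SimpleGraph C :=
  (nextCol col F)^[i] K

theorem process_hat [Fintype C] {col : C → ℕ} {F K : SimpleGraph C}
    (hcol : ∀ x, 3 ≤ col x) (hodd : ∀ x, Odd (col x)) (i : ℕ) :
    process (hat col F) (hat col K) i = hat col (processCol col F K i) := by
  induction i with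
  | zero => rfl
  | succ i ih =>
    simp only [process, processCol, iterate_succ_apply'] at ih ⊢
    rw [ih, next_hat hcol hodd]

lemma hat_injective (col : C → ℕ) : Injective (hat col) := by
  intro K L h
  ext x y
  have h1 : (hat col K).Adj (cr col x) (cr col y) ↔ (hat col L).Adj (cr col x) (cr col y) := by
    rw [h]
  simpa [hat_adj] using h1

end TB
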