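import Pool.Agent.Q189.TB3

/-!
# The chains
-/

set_option autoImplicit false

namespace TB

open SimpleGraph Function

/-- The vertices of the coloured graph: `u s i k` are the class vertices, `x` the junctions, `d` the
positions (dummies), `z` the vertices whose neighbours are the infected vertices, `y` the labels. -/
inductive Core (r m : ℕ) : Type
  | u (s : Bool) (i : Fin r) (k : Fin m)
  | x (c : Fin (r * r + 1))
  | d (c : Fin (r * r)) (s : Bool)
  | z (c : Fin (r * r + 1))
  | y (c : Fin (r * r)) (s b : Bool)

variable {r m : ℕ}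

/-- the class used by the chain `c` on side `s` -/
def cls (c : Fin (r * r)) : Bool → Fin r
  | false => c.divNat
  | true => c.modNat

/-- the two ends of the chain `c` -/
def fin (c : Fin (r * r)) : Bool → Fin (r * r + 1)
  | false => c.castSucc
  | true => c.succ

/-- the vertices which carry the labels of side `s` of the chain `c` -/
def Lab (c : Fin (r * r)) (s : Bool) : Core r m → Prop
  | Core.u s' i _ => s' = s ∧ cls c s = i
  | Core.x c' => c' = fin c s
  | Core.d c' s' => c' = c ∧ s' = s
  | Core.z _ => False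
  | Core.y _ _ _ => False

/-- the time at which a vertex is infected in the role `(c, s)` -/
def tm (c : Fin (r * r)) (s : Bool) : Core r m → ℕ
  | Core.u _ _ k => c * (2 * m + 1) + 2 * k + (if s then 1 else 2)
  | Core.x _ => (fin c s : ℕ) * (2 * m + 1)
  | Core.d _ _ => 0
  | Core.z _ => 0
  | Core.y _ _ _ => 0

lemma fin_val (c : Fin (r * r)) (s : Bool) : (fin c s : ℕ) = c + (if s then 1 else 0) := by
  cases s <;> simp [fin]

lemma fin_ne (c : Fin (r * r)) (s : Bool) : fin c s ≠ fin c (!s) := by
  intro h
  have := congrArg Fin.val h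
  rw [fin_val, fin_val] at this
  cases s <;> simp at this

lemma fin_inj {c c' : Fin (r * r)} {s : Bool} (h : fin c s = fin c' s) : c = c' := by
  have := congrArg Fin.val h
  rw [fin_val, fin_val] at this
  exact Fin.ext (by omega)

lemma cls_inj {c c' : Fin (r * r)} (h1 : cls c false = cls c' false)
    (h2 : cls c true = cls c' true) : c = c' :=
  finProdFinEquiv.symm.injective (Prod.ext h1 h2)

/-- half of the adjacency relation at time `t` -/
def rel (t : ℕ) (p q : Core r m) : Prop :=
  (∃ c s b, Lab c s p ∧ q = Core.y c s b) ∨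
  (∃ c s, Lab c s p ∧ tm c s p ≤ t ∧ q = Core.z (fin c s)) ∨
  (∃ c, Lab c false p ∧ Lab c true q ∧ (tm c false p + 1 = tm c true q ∨
    tm c true q + 1 = tm c false p ∨ (tm c false p ≤ t ∧ tm c true q ≤ t)))

lemma lab_unique {c c' : Fin (r * r)} {p q : Core r m} (h1 : Lab c false p) (h2 : Lab c true q)
    (h3 : Lab c' false p) (h4 : Lab c' true q) : c = c' := by
  cases p with
  | u s i k =>
    cases q with
    | u s' i' k' => exact cls_inj (h1.2.trans h3.2.symm) (h2.2.trans h4.2.symm)
    | x e => exact fin_inj ((h2.symm.trans h4 : _))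
    | d e s' => exact h2.1.symm.trans h4.1
    | z _ => exact h2.elim
    | y _ _ _ => exact h2.elim
  | x e => exact fin_inj ((h1.symm.trans h3 : _))
  | d e s' => exact h1.1.symm.trans h3.1
  | z _ => exact h1.elim
  | y _ _ _ => exact h1.elim

lemma lab_cross {c c' : Fin (r * r)} {p q : Core r m} (h1 : Lab c false p) (h2 : Lab c true q)
    (h3 : Lab c' false q) (h4 : Lab c' true p) : False := by
  have hx : ∀ (c c' : Fin (r * r)) (p : Core r m), Lab c false p → Lab c' true p →
      (c : ℕ) = c' + 1 := by
    intro c c' p h h'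
    cases p with
    | u s i k => exact absurd (h.1.symm.trans h'.1) (by simp)
    | x e =>
      have h5 : fin c false = fin c' true := h.symm.trans h'
      have := congrArg Fin.val h5
      rw [fin_val, fin_val] at this
      simpa using this
    | d e s => exact absurd (h.2.symm.trans h'.2) (by simp)
    | z _ => exact h.elim
    | y _ _ _ => exact h.elim
  have e1 := hx c c' p h1 h4
  have e2 := hx c' c q h3 h2
  omega

lemma lab_both {c : Fin (r * r)} {s : Bool} {p : Core r m} (h1 : Lab c s p) (h2 : Lab c (!s) p) :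
    False := by
  cases s
  · exact lab_cross h1 h2 h1 h2
  · exact lab_cross h2 h1 h2 h1

/-- the coloured graph at time `t` -/
def KK (r m t : ℕ) : SimpleGraph (Core r m) where
  Adj p q := rel t p q ∨ rel t q p
  symm := ⟨fun _ _ h => h.symm⟩
  loopless := ⟨by
    have h : ∀ p : Core r m, ¬ rel t p p := by
      rintro p (⟨c, s, b, h, rfl⟩ | ⟨c, s, h, -, rfl⟩ | ⟨c, h, h', -⟩)
      · exact h
      · exact h
      · exact lab_both h h'
    intro p hp
    rcases hp with hp | hp <;> exact h p hp⟩

/-- half of the adjacency relation of the coloured forest -/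
def frel (p q : Core r m) : Prop :=
  (∃ c s b, p = Core.d c s ∧ q = Core.y c s b) ∨ (∃ c s, p = Core.d c s ∧ q = Core.z (fin c s)) ∨
  (∃ c, p = Core.d c false ∧ q = Core.d c true)

/-- the coloured forest -/
def FF (r m : ℕ) : SimpleGraph (Core r m) where
  Adj p q := frel p q ∨ frel q p
  symm := ⟨fun _ _ h => h.symm⟩
  loopless := ⟨by
    have h : ∀ p : Core r m, ¬ frel p p := by
      rintro p (⟨c, s, b, rfl, h⟩ | ⟨c, s, rfl, h⟩ | ⟨c, rfl, h⟩)
      · simp at h
      · simp at h
      · simp at h
    intro p hp
    rcases hp with hp | hp <;> exact h p hp⟩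

/-- the colours -/
def colr : Core r m → ℕ
  | Core.u _ _ _ => 3
  | Core.x _ => 3
  | Core.d _ _ => 3
  | Core.z c => 5 + 2 * c
  | Core.y c s b => 5 + 2 * (r * r + 1 + 4 * c + (if s then 2 else 0) + (if b then 1 else 0))

lemma colr_ge (p : Core r m) : 3 ≤ colr p := by
  cases p <;> simp only [colr] <;> omega

lemma colr_odd (p : Core r m) : Odd (colr p) := by
  cases p with
  | u _ _ _ => exact ⟨1, rfl⟩
  | x _ => exact ⟨1, rfl⟩
  | d _ _ => exact ⟨1, rfl⟩
  | z c => exact ⟨2 + c, by simp only [colr]; ring⟩
  | y c s b =>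
    exact ⟨2 + (r * r + 1 + 4 * c + (if s then 2 else 0) + (if b then 1 else 0)), by
      simp only [colr]; ring⟩

lemma colr_z {p : Core r m} {c : Fin (r * r + 1)} (h : colr p = colr (Core.z c : Core r m)) :
    p = Core.z c := by
  cases p with
  | u _ _ _ => simp only [colr] at h; omega
  | x _ => simp only [colr] at h; omega
  | d _ _ => simp only [colr] at h; omega
  | z c' =>
    simp only [colr] at h
    have : c' = c := Fin.ext (by omega)
    rw [this]
  | y c' s b =>
    simp only [colr] at h
    have := c.2
    omega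

lemma colr_y {p : Core r m} {c : Fin (r * r)} {s b : Bool}
    (h : colr p = colr (Core.y c s b : Core r m)) : p = Core.y c s b := by
  cases p with
  | u _ _ _ => simp only [colr] at h; omega
  | x _ => simp only [colr] at h; omega
  | d _ _ => simp only [colr] at h; omega
  | z c' =>
    simp only [colr] at h
    have := c'.2
    omega
  | y c' s' b' =>
    simp only [colr] at h
    have h1 : c' = c ∧ s' = s ∧ b' = b := by
      have e : ∀ q : Fin (r * r), ∀ q' : Fin (r * r), (q : ℕ) = q' → q = q' :=
        fun _ _ h => Fin.ext h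
      cases s <;> cases b <;> cases s' <;> cases b' <;> simp at h ⊢ <;>
        first | exact e _ _ (by omega) | omega
    rw [h1.1, h1.2.1, h1.2.2]

lemma colr_lab {c : Fin (r * r)} {s : Bool} {p : Core r m} (h : Lab c s p) : colr p = 3 := by
  cases p with
  | u _ _ _ => rfl
  | x _ => rfl
  | d _ _ => rfl
  | z _ => exact h.elim
  | y _ _ _ => exact h.elim

lemma lab_ne_z {c : Fin (r * r)} {s : Bool} {p : Core r m} (h : Lab c s p)
    (e : Fin (r * r + 1)) : p ≠ Core.z e := by
  rintro rfl; exact h

lemma lab_ne_y {c : Fin (r * r)} {s : Bool} {p : Core r m} (h : Lab c s p)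
    (e : Fin (r * r)) (s' b : Bool) : p ≠ Core.y e s' b := by
  rintro rfl; exact h

lemma adj_y {t : ℕ} {p : Core r m} {c : Fin (r * r)} {s b : Bool} :
    (KK r m t).Adj p (Core.y c s b) ↔ Lab c s p := by
  constructor
  · rintro (h | h)
    · rcases h with ⟨c', s', b', h, he⟩ | ⟨c', s', h, -, he⟩ | ⟨c', h, h', -⟩
      · simp only [Core.y.injEq] at he
        obtain ⟨rfl, rfl, -⟩ := he
        exact h
      · simp at he
      · exact h'.elim
    · rcases h with ⟨c', s', b', h, he⟩ | ⟨c', s', h, -, he⟩ | ⟨c', h, h', -⟩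
      · exact h.elim
      · exact h.elim
      · exact h.elim
  · intro h
    exact Or.inl (Or.inl ⟨c, s, b, h, rfl⟩)

lemma tm_consistent {c c' : Fin (r * r)} {s s' : Bool} {p : Core r m} (h : Lab c s p)
    (h' : Lab c' s' p) (he : fin c s = fin c' s') : tm c s p = tm c' s' p := by
  cases p with
  | u s₀ i k =>
    have e1 : s = s' := h.1.symm.trans h'.1
    subst e1
    have := fin_inj he
    rw [this]
  | x e => simp only [tm, he]
  | d _ _ => rfl
  | z _ => rfl
  | y _ _ _ => rfl

lemma adj_z {t : ℕ} {p : Core r m} {c : Fin (r * r)} {s : Bool} (hp : Lab c s p) :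
    (KK r m t).Adj p (Core.z (fin c s)) ↔ tm c s p ≤ t := by
  constructor
  · rintro (h | h)
    · rcases h with ⟨c', s', b', h, he⟩ | ⟨c', s', h, ht, he⟩ | ⟨c', h, h', -⟩
      · simp at he
      · simp only [Core.z.injEq] at he
        rw [tm_consistent hp h he]
        exact ht
      · exact h'.elim
    · rcases h with ⟨c', s', b', h, he⟩ | ⟨c', s', h, -, he⟩ | ⟨c', h, h', -⟩
      · exact h.elim
      · exact h.elim
      · exact h.elim
  · intro h
    exact Or.inl (Or.inr (Or.inl ⟨c, s, hp, h, rfl⟩))

lemma adj_lr {t : ℕ} {p q : Core r m} {c : Fin (r * r)} (hp : Lab c false p)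
    (hq : Lab c true q) :
    (KK r m t).Adj p q ↔ (tm c false p + 1 = tm c true q ∨
    tm c true q + 1 = tm c false p ∨ (tm c false p ≤ t ∧ tm c true q ≤ t)) := by
  constructor
  · rintro (h | h)
    · rcases h with ⟨c', s', b', h, he⟩ | ⟨c', s', h, ht, he⟩ | ⟨c', h, h', h''⟩
      · exact absurd he (lab_ne_y hq _ _ _)
      · exact absurd he (lab_ne_z hq _)
      · have := lab_unique hp hq h h'
        subst this
        exact h''
    · rcases h with ⟨c', s', b', h, he⟩ | ⟨c', s', h, ht, he⟩ | ⟨c', h, h', h''⟩
      · exact absurd he (lab_ne_y hp _ _ _)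
      · exact absurd he (lab_ne_z hp _)
      · exact (lab_cross hp hq h h').elim
  · intro h
    exact Or.inl (Or.inr (Or.inr ⟨c, hp, hq, h⟩))

/-- one coloured round goes at most one time step forward -/
lemma nextCol_le (t : ℕ) : nextCol colr (FF r m) (KK r m t) ≤ KK r m (t + 1) := by
  have hmono : ∀ p q : Core r m, rel t p q → rel (t + 1) p q := by
    rintro p q (h | ⟨c, s, h, ht, he⟩ | ⟨c, h, h', h''⟩)
    · exact Or.inl h
    · exact Or.inr (Or.inl ⟨c, s, h, by omega, he⟩)
    · exact Or.inr (Or.inr ⟨c, h, h', by omega⟩)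
  intro p q hpq
  rcases hpq with h | ⟨hne, σ, hσ, hadj, u, v, huv, he⟩
  · exact h.imp (hmono _ _) (hmono _ _)
  -- `σ` fixes the vertices `y` and `z`
  have hz : ∀ c, σ (Core.z c) = Core.z c := fun c => colr_z (hσ _)
  have hy : ∀ c s b, σ (Core.y c s b) = Core.y c s b := fun c s b => colr_y (hσ _)
  have hlab : ∀ c s, Lab c s (σ (Core.d c s)) := by
    intro c s
    have h1 := hadj (Core.d c s) (Core.y c s false) (Or.inl (Or.inl ⟨c, s, false, rfl, rfl⟩))
    have h2 := hadj (Core.d c s) (Core.y c s true) (Or.inl (Or.inl ⟨c, s, true, rfl, rfl⟩))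
    rw [hy] at h1 h2
    rcases h1 with h1 | h1
    · exact adj_y.mp h1
    rcases h2 with h2 | h2
    · exact adj_y.mp h2
    have := h1.trans h2.symm
    rw [Sym2.congr_right] at this
    simp at this
  have main : ∀ u v : Core r m, frel u v → s(σ u, σ v) = s(p, q) → (KK r m (t + 1)).Adj p q := by
    rintro u v (⟨c, s, b, rfl, rfl⟩ | ⟨c, s, rfl, rfl⟩ | ⟨c, rfl, rfl⟩) he
    · have h : (KK r m (t + 1)).Adj (σ (Core.d c s)) (σ (Core.y c s b)) := by
        rw [hy]; exact adj_y.mpr (hlab c s)
      rw [← SimpleGraph.mem_edgeSet] at h ⊢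
      rw [← he]; exact h
    · have h : (KK r m (t + 1)).Adj (σ (Core.d c s)) (σ (Core.z (fin c s))) := by
        rw [hz, adj_z (hlab c s)]
        rw [hz] at he
        -- the other position of the chain
        have h1 : (KK r m t).Adj (σ (Core.d c s)) (σ (Core.d c !s)) := by
          have : (FF r m).Adj (Core.d c s) (Core.d c !s) := by
            cases s
            · exact Or.inl (Or.inr (Or.inr ⟨c, rfl, rfl⟩))
            · exact Or.inr (Or.inr (Or.inr ⟨c, rfl, rfl⟩))
          rcases hadj _ _ this with h | h
          · exact h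
          · rw [← he, Sym2.congr_right] at h
            exact absurd h (lab_ne_z (hlab c !s) _)
        have h2 : tm c (!s) (σ (Core.d c !s)) ≤ t := by
          rw [← adj_z (hlab c !s)]
          have : (FF r m).Adj (Core.d c !s) (Core.z (fin c !s)) :=
            Or.inl (Or.inr (Or.inl ⟨c, !s, rfl, rfl⟩))
          rcases hadj _ _ this with h | h
          · rw [hz] at h; exact h
          · exfalso
            rw [hz, ← he, Sym2.eq_iff] at h
            rcases h with ⟨-, h⟩ | ⟨h, -⟩
            · simp only [Core.z.injEq] at h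
              exact fin_ne c s h.symm
            · exact lab_ne_z (hlab c !s) _ h
        cases s
        · simp only [Bool.not_false] at h1 h2
          rw [adj_lr (hlab c false) (hlab c true)] at h1
          omega
        · have h1' := h1.symm
          simp only [Bool.not_true] at h1' h2
          rw [adj_lr (hlab c false) (hlab c true)] at h1'
          omega
      rw [← SimpleGraph.mem_edgeSet] at h ⊢
      rw [← he]; exact h
    · have h : (KK r m (t + 1)).Adj (σ (Core.d c false)) (σ (Core.d c true)) := by
        rw [adj_lr (hlab c false) (hlab c true)]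
        have hk : ∀ s, tm c s (σ (Core.d c s)) ≤ t := by
          intro s
          rw [← adj_z (hlab c s)]
          have : (FF r m).Adj (Core.d c s) (Core.z (fin c s)) :=
            Or.inl (Or.inr (Or.inl ⟨c, s, rfl, rfl⟩))
          rcases hadj _ _ this with h | h
          · rw [hz] at h; exact h
          · exfalso
            rw [hz, ← he, Sym2.eq_iff] at h
            rcases h with ⟨-, h⟩ | ⟨-, h⟩
            · exact lab_ne_z (hlab c true) _ h.symm
            · exact lab_ne_z (hlab c false) _ h.symm
        have h1 := hk false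
        have h2 := hk true
        omega
      rw [← SimpleGraph.mem_edgeSet] at h ⊢
      rw [← he]; exact h
  rcases huv with h | h
  · exact main u v h he
  · exact main v u h (by rw [Sym2.eq_swap]; exact he)

lemma nextCol_mono {C : Type*} {col : C → ℕ} {F K L : SimpleGraph C} (h : K ≤ L) :
    nextCol col F K ≤ nextCol col F L := by
  intro x y hxy
  rcases hxy with h' | ⟨hne, σ, hσ, hadj, hu⟩
  · exact Or.inl (h h')
  · exact Or.inr ⟨hne, σ, hσ, fun u v huv => (hadj u v huv).imp (fun h' => h h') id, hu⟩

lemma process_le (t : ℕ) : processCol colr (FF r m) (KK r m 0) t ≤ KK r m t := by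
  induction t with
  | zero => exact le_rfl
  | succ t ih =>
    simp only [processCol, iterate_succ_apply'] at ih ⊢
    exact (nextCol_mono ih).trans (nextCol_le t)

lemma zero_le_process (t : ℕ) : KK r m 0 ≤ processCol colr (FF r m) (KK r m 0) t := by
  induction t with
  | zero => exact le_rfl
  | succ t ih =>
    simp only [processCol, iterate_succ_apply'] at ih ⊢
    exact fun x y h => Or.inl (ih h)

/-- every infection has a predecessor in its chain -/
lemma exists_pred (hm : 1 ≤ m) {t : ℕ} {c : Fin (r * r)} {s : Bool} {p : Core r m}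
    (hp : Lab c s p) (ht : tm c s p = t + 1) :
    ∃ (c' : Fin (r * r)) (s' : Bool) (q : Core r m), Lab c' s' p ∧ fin c' s' = fin c s ∧
      tm c' s' p = t + 1 ∧ Lab c' (!s') q ∧ tm c' (!s') q = t := by
  have hrt : ∀ c : Fin (r * r), Lab c true p → tm c true p = t + 1 →
      ∃ q : Core r m, Lab c false q ∧ tm c false q = t := by
    intro c hp ht
    cases p with
    | u s₀ j k =>
      rcases Nat.eq_zero_or_pos (k : ℕ) with hk | hk
      · refine ⟨Core.x c.castSucc, rfl, ?_⟩
        simp only [tm, fin_val] at ht ⊢
        simp at ht ⊢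
        omega
      · refine ⟨Core.u false (cls c false) ⟨k - 1, by omega⟩, ⟨rfl, rfl⟩, ?_⟩
        simp only [tm] at ht ⊢
        simp at ht ⊢
        omega
    | x e =>
      refine ⟨Core.u false (cls c false) ⟨m - 1, by omega⟩, ⟨rfl, rfl⟩, ?_⟩
      simp only [tm, fin_val] at ht ⊢
      simp at ht ⊢
      have : ((c : ℕ) + 1) * (2 * m + 1) = c * (2 * m + 1) + 2 * m + 1 := by ring
      omega
    | d _ _ => simp [tm] at ht
    | z _ => exact hp.elim
    | y _ _ _ => exact hp.elim
  cases s with
  | true =>
    obtain ⟨q, hq, hq'⟩ := hrt c hp ht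
    exact ⟨c, true, q, hp, rfl, ht, hq, hq'⟩
  | false =>
    cases p with
    | u s₀ i k =>
      refine ⟨c, false, Core.u true (cls c true) k, hp, rfl, ht, ⟨rfl, rfl⟩, ?_⟩
      simp only [tm] at ht ⊢
      simp at ht ⊢
      omega
    | x e =>
      have hc : (c : ℕ) ≠ 0 := by
        intro h0
        simp only [tm, fin_val, h0] at ht
        simp at ht
      have hc' : (c : ℕ) - 1 < r * r := by have := c.2; omega
      have hfin : fin ⟨(c : ℕ) - 1, hc'⟩ true = fin c false := by
        apply Fin.ext
        rw [fin_val, fin_val]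
        simp
        omega
      have hlab : Lab (⟨(c : ℕ) - 1, hc'⟩ : Fin (r * r)) true (Core.x e : Core r m) := by
        show e = _
        rw [hfin]
        exact hp
      have ht' : tm (⟨(c : ℕ) - 1, hc'⟩ : Fin (r * r)) true (Core.x e : Core r m) = t + 1 := by
        rw [← ht]
        exact tm_consistent hlab hp hfin
      obtain ⟨q, hq, hq'⟩ := hrt _ hlab ht'
      exact ⟨⟨(c : ℕ) - 1, hc'⟩, true, q, hlab, hfin, ht', hq, hq'⟩
    | d _ _ => simp [tm] at ht
    | z _ => exact hp.elim
    | y _ _ _ => exact hp.elim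

/-- the infections happen in time -/
lemma infected (hm : 1 ≤ m) (t : ℕ) : ∀ (c : Fin (r * r)) (s : Bool) (p : Core r m),
    Lab c s p → tm c s p ≤ t →
      (processCol colr (FF r m) (KK r m 0) t).Adj p (Core.z (fin c s)) := by
  classical
  induction t with
  | zero =>
    intro c s p hp ht
    exact (adj_z hp).mpr ht
  | succ t ih =>
    intro c s p hp ht
    have hstep : processCol colr (FF r m) (KK r m 0) (t + 1) =
        nextCol colr (FF r m) (processCol colr (FF r m) (KK r m 0) t) := by
      simp only [processCol, iterate_succ_apply']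
    rcases Nat.lt_or_ge (tm c s p) (t + 1) with hlt | hge
    · rw [hstep]
      exact Or.inl (ih c s p hp (by omega))
    have ht' : tm c s p = t + 1 := by omega
    obtain ⟨c', s', q, hp', hfin, htp, hq, htq⟩ := exists_pred hm hp ht'
    rw [hstep, ← hfin]
    set P := processCol colr (FF r m) (KK r m 0) t with hP
    have hP0 : KK r m 0 ≤ P := zero_le_process t
    right
    have hpq : p ≠ q := fun h => lab_both hp' (by rw [h]; exact hq)
    have hpd : ∀ e s₀, p ≠ Core.d e s₀ := by
      rintro e s₀ rfl
      simp [tm] at ht'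
    -- the partner might be a position; then it is the position of the same chain
    have hqd : ∀ e s₀, q = Core.d e s₀ → e = c' ∧ s₀ = !s' := by
      rintro e s₀ rfl
      exact hq
    have hz : ∀ (w : Core r m) (e : Fin (r * r + 1)), colr w = 3 → w ≠ Core.z e := by
      rintro w e h rfl
      simp only [colr] at h
      omega
    have hy : ∀ (w : Core r m) (e : Fin (r * r)) (s₀ b : Bool), colr w = 3 →
        w ≠ Core.y e s₀ b := by
      rintro w e s₀ b h rfl
      simp only [colr] at h
      omega
    have cp := colr_lab hp'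
    have cq := colr_lab hq
    obtain ⟨σ, hσdef⟩ : ∃ σ : Equiv.Perm (Core r m),
        σ = (Equiv.swap (Core.d c' !s') q).trans (Equiv.swap (Core.d c' s') p) := ⟨_, rfl⟩
    have hss : s' ≠ !s' := by cases s' <;> simp
    have hqd' : Core.d c' s' ≠ q := fun h => hss (hqd _ _ h.symm).2
    have hσp : σ (Core.d c' s') = p := by
      rw [hσdef, Equiv.trans_apply, Equiv.swap_apply_of_ne_of_ne (a := Core.d c' !s'),
        Equiv.swap_apply_left]
      · intro h
        simp only [Core.d.injEq] at h
        exact hss h.2
      · exact hqd'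
    have hσq : σ (Core.d c' !s') = q := by
      rw [hσdef, Equiv.trans_apply, Equiv.swap_apply_left, Equiv.swap_apply_of_ne_of_ne hqd'.symm
        hpq.symm]
    have hσo : ∀ e s₀, ¬ (e = c' ∧ s₀ = s') → ¬ (e = c' ∧ s₀ = !s') →
        σ (Core.d e s₀) = Core.d e s₀ := by
      intro e s₀ h1 h2
      rw [hσdef, Equiv.trans_apply, Equiv.swap_apply_of_ne_of_ne (a := Core.d c' !s'),
        Equiv.swap_apply_of_ne_of_ne]
      · intro h; simp only [Core.d.injEq] at h; exact h1 h
      · exact fun h => hpd e s₀ h.symm
      · intro h; simp only [Core.d.injEq] at h; exact h2 h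
      · exact fun h => h2 (hqd _ _ h.symm)
    have hσz : ∀ e, σ (Core.z e) = Core.z e := by
      intro e
      rw [hσdef, Equiv.trans_apply, Equiv.swap_apply_of_ne_of_ne (a := Core.d c' !s'),
        Equiv.swap_apply_of_ne_of_ne]
      · simp
      · exact (hz p e cp).symm
      · simp
      · exact (hz q e cq).symm
    have hσy : ∀ e s₀ b, σ (Core.y e s₀ b) = Core.y e s₀ b := by
      intro e s₀ b
      rw [hσdef, Equiv.trans_apply, Equiv.swap_apply_of_ne_of_ne (a := Core.d c' !s'),
        Equiv.swap_apply_of_ne_of_ne]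
      · simp
      · exact (hy p e s₀ b cp).symm
      · simp
      · exact (hy q e s₀ b cq).symm
    have hσl : ∀ e s₀, Lab e s₀ (σ (Core.d e s₀)) := by
      intro e s₀
      by_cases h1 : e = c' ∧ s₀ = s'
      · rw [h1.1, h1.2, hσp]; exact hp'
      by_cases h2 : e = c' ∧ s₀ = !s'
      · rw [h2.1, h2.2, hσq]; exact hq
      rw [hσo e s₀ h1 h2]
      exact ⟨rfl, rfl⟩
    have main : ∀ u v, frel u v → P.Adj (σ u) (σ v) ∨
        s(σ u, σ v) = s(p, Core.z (fin c' s')) := by
      rintro u v (⟨e, s₀, b, rfl, rfl⟩ | ⟨e, s₀, rfl, rfl⟩ | ⟨e, rfl, rfl⟩)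
      · left
        rw [hσy]
        exact hP0 (adj_y.mpr (hσl e s₀))
      · rw [hσz]
        by_cases h1 : e = c' ∧ s₀ = s'
        · right
          rw [h1.1, h1.2, hσp]
        left
        by_cases h2 : e = c' ∧ s₀ = !s'
        · rw [h2.1, h2.2, hσq]
          exact ih c' (!s') q hq htq.le
        rw [hσo e s₀ h1 h2]
        exact hP0 ((adj_z (p := Core.d e s₀) ⟨rfl, rfl⟩).mpr le_rfl)
      · left
        apply hP0
        rw [adj_lr (hσl e false) (hσl e true)]
        by_cases h1 : e = c'
        · subst h1
          cases s' with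
          | false =>
            simp only [Bool.not_false] at hσq htq
            rw [hσp, hσq, htp, htq]
            omega
          | true =>
            simp only [Bool.not_true] at hσq htq
            rw [hσp, hσq, htp, htq]
            omega
        · rw [hσo e false (fun h => h1 h.1) (fun h => h1 h.1),
            hσo e true (fun h => h1 h.1) (fun h => h1 h.1)]
          right; right
          exact ⟨le_rfl, le_rfl⟩
    refine ⟨lab_ne_z hp' _, σ, ?_, ?_, ?_⟩
    · have hsw : ∀ (v w : Core r m), colr v = 3 → colr w = 3 → ∀ u, colr (Equiv.swap v w u) =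
          colr u := by
        intro v w hv hw u
        rw [Equiv.swap_apply_def]
        split_ifs with h1 h2
        · rw [h1, hv, hw]
        · rw [h2, hv, hw]
        · rfl
      intro u
      rw [hσdef, Equiv.trans_apply, hsw _ _ rfl cp, hsw _ _ rfl cq]
    · rintro u v (huv | huv)
      · exact main u v huv
      · rcases main v u huv with h | h
        · exact Or.inl h.symm
        · right
          rw [Sym2.eq_swap]; exact h
    · exact ⟨Core.d c' s', Core.z (fin c' s'), Or.inl (Or.inr (Or.inl ⟨c', s', rfl, rfl⟩)), by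
        rw [hσp, hσz]⟩

/-- the last infection is added exactly in round `r² (2m + 1)` -/
lemma last_round (hr : 1 ≤ r) (hm : 1 ≤ m) :
    processCol colr (FF r m) (KK r m 0) (r * r * (2 * m + 1) - 1) ≠
      processCol colr (FF r m) (KK r m 0) (r * r * (2 * m + 1)) := by
  intro h
  have hrr : 1 ≤ r * r := Nat.mul_le_mul hr hr
  have hc : r * r - 1 < r * r := by omega
  have hlab : Lab (⟨r * r - 1, hc⟩ : Fin (r * r)) true
      (Core.x (fin ⟨r * r - 1, hc⟩ true) : Core r m) := rfl
  have htm : tm (⟨r * r - 1, hc⟩ : Fin (r * r)) true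
      (Core.x (fin ⟨r * r - 1, hc⟩ true) : Core r m) = r * r * (2 * m + 1) := by
    simp only [tm, fin_val]
    simp
    omega
  have h1 := infected hm _ _ _ _ hlab htm.le
  rw [← h] at h1
  have h2 := (adj_z hlab).mp (process_le _ h1)
  rw [htm] at h2
  have h3 : 1 ≤ r * r * (2 * m + 1) := Nat.mul_pos hrr (by omega)
  omega

end TB
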