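import Pool.Agent.Q189.TB4
import Pool.Agent.Q189.TB2

/-!
# Trees from parent functions
-/

set_option autoImplicit false

namespace TB

open SimpleGraph Function

universe u v

/-- a graph given by a parent function is a tree -/
theorem isTree_of_parent {V : Type u} [Finite V] (G : SimpleGraph V) (ρ : V) (par : V → V)
    (rk : V → ℕ) (hrk : ∀ v, v ≠ ρ → rk (par v) < rk v)
    (hadj : ∀ a b, G.Adj a b ↔ (a ≠ ρ ∧ par a = b) ∨ (b ≠ ρ ∧ par b = a)) : G.IsTree := by
  classical
  rw [isTree_iff_connected_and_card]
  constructor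
  · have hreach : ∀ n : ℕ, ∀ v, rk v < n → G.Reachable ρ v := by
      intro n
      induction n with
      | zero => intro v h; omega
      | succ n ih =>
        intro v hv
        by_cases hρ : v = ρ
        · rw [hρ]
        · have h1 := hrk v hρ
          have h2 := ih (par v) (by omega)
          have h3 : G.Adj (par v) v := (hadj _ _).mpr (Or.inr ⟨hρ, rfl⟩)
          exact h2.trans h3.reachable
    have : Nonempty V := ⟨ρ⟩
    refine ⟨fun a b => ?_⟩
    exact (hreach _ a (Nat.lt_succ_self _)).symm.trans (hreach _ b (Nat.lt_succ_self _))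
  · have hmem : ∀ v : {v : V // v ≠ ρ}, s(v.1, par v.1) ∈ G.edgeSet := by
      intro v
      rw [mem_edgeSet, hadj]
      exact Or.inl ⟨v.2, rfl⟩
    let g : {v : V // v ≠ ρ} → G.edgeSet := fun v => ⟨s(v.1, par v.1), hmem v⟩
    have hg : Bijective g := by
      constructor
      · intro v w h
        have h' : s(v.1, par v.1) = s(w.1, par w.1) := congrArg Subtype.val h
        rw [Sym2.eq_iff] at h'
        rcases h' with ⟨h1, -⟩ | ⟨h1, h2⟩
        · exact Subtype.ext h1
        · have e1 := hrk v.1 v.2
          have e2 := hrk w.1 w.2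
          rw [h2] at e1
          rw [← h1] at e2
          omega
      · rintro ⟨e, he⟩
        induction e using Sym2.ind with
        | _ a b =>
          rw [mem_edgeSet, hadj] at he
          rcases he with ⟨h1, h2⟩ | ⟨h1, h2⟩
          · refine ⟨⟨a, h1⟩, Subtype.ext ?_⟩
            show s(a, par a) = s(a, b)
            rw [h2]
          · refine ⟨⟨b, h1⟩, Subtype.ext ?_⟩
            show s(b, par b) = s(a, b)
            rw [h2, Sym2.eq_swap]
    rw [← Nat.card_eq_of_bijective g hg]
    have : Nat.card V = Nat.card (Option {v : V // v ≠ ρ}) :=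
      Nat.card_congr (Equiv.optionSubtypeNe ρ).symm
    rw [this, Finite.card_option]

variable {C : Type u} {O : Type v}

theorem treeOf_hat_isTree [Finite C] [Finite O] (col : C → ℕ) (F : SimpleGraph C)
    (parC : C → Option C) (rkC : C → ℕ) (h1 : ∀ x y, parC x = some y → rkC y < rkC x)
    (h2 : ∀ x y, F.Adj x y ↔ parC x = some y ∨ parC y = some x) (own : O → Dec col) :
    (treeOf (hat col F) own {p | p.1.2 = 0 ∧ parC p.1.1 = none}).IsTree := by
  classical
  have : Fintype C := Fintype.ofFinite C
  let par : Dec col ⊕ Option O → Dec col ⊕ Option O := fun v => match v with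
    | Sum.inl p => if p.1.2 = 0 then ((parC p.1.1).elim (Sum.inr none) fun y => Sum.inl (cr col y))
        else Sum.inl (cr col p.1.1)
    | Sum.inr none => Sum.inr none
    | Sum.inr (some o) => Sum.inl (own o)
  let rk : Dec col ⊕ Option O → ℕ := fun v => match v with
    | Sum.inl p => rkC p.1.1 + (if p.1.2 = 0 then 1 else 2)
    | Sum.inr none => 0
    | Sum.inr (some o) => rkC (own o).1.1 + 3
  have hpar1 : ∀ p : Dec col, p.1.2 = 0 → parC p.1.1 = none → par (Sum.inl p) = Sum.inr none := by
    intro p hp hq
    simp only [par, hp, hq, if_true, Option.elim_none]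
  have hpar2 : ∀ (p : Dec col) (y : C), p.1.2 = 0 → parC p.1.1 = some y →
      par (Sum.inl p) = Sum.inl (cr col y) := by
    intro p y hp hq
    simp only [par, hp, hq, if_true, Option.elim_some]
  have hpar3 : ∀ p : Dec col, p.1.2 ≠ 0 → par (Sum.inl p) = Sum.inl (cr col p.1.1) := by
    intro p hp
    simp only [par, hp, if_false]
  refine isTree_of_parent _ (Sum.inr none) par rk ?_ ?_
  · rintro (p | _ | o) hv
    · by_cases hp : p.1.2 = 0
      · rcases hq : parC p.1.1 with _ | y
        · rw [hpar1 p hp hq]
          simp only [rk, hp, if_true]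
          omega
        · rw [hpar2 p y hp hq]
          have := h1 _ _ hq
          simp only [rk, hp, if_true, cr_fst, cr_snd]
          omega
      · rw [hpar3 p hp]
        simp only [rk, hp, if_true, if_false, cr_fst, cr_snd]
        omega
    · exact absurd rfl hv
    · simp only [par, rk]
      split_ifs <;> omega
  · have hll : ∀ p q : Dec col, par (Sum.inl p) = Sum.inl q ↔
        (p.1.2 = 0 ∧ q.1.2 = 0 ∧ parC p.1.1 = some q.1.1) ∨
        (p.1.2 ≠ 0 ∧ q.1.2 = 0 ∧ p.1.1 = q.1.1) := by
      intro p q
      constructor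
      · intro h
        by_cases hp : p.1.2 = 0
        · rcases hq : parC p.1.1 with _ | y
          · rw [hpar1 p hp hq] at h; simp at h
          · rw [hpar2 p y hp hq] at h
            have := Sum.inl_injective h
            left
            rw [← this]
            exact ⟨hp, rfl, rfl⟩
        · rw [hpar3 p hp] at h
          have := Sum.inl_injective h
          right
          rw [← this]
          exact ⟨hp, rfl, rfl⟩
      · rintro (⟨hp, hq, h⟩ | ⟨hp, hq, h⟩)
        · rw [hpar2 p _ hp h, ← eq_cr hq]
        · rw [hpar3 p hp, h, ← eq_cr hq]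
    have hln : ∀ p : Dec col, par (Sum.inl p) = Sum.inr none ↔
        (p.1.2 = 0 ∧ parC p.1.1 = none) := by
      intro p
      constructor
      · intro h
        by_cases hp : p.1.2 = 0
        · rcases hq : parC p.1.1 with _ | y
          · exact ⟨hp, rfl⟩
          · rw [hpar2 p y hp hq] at h; simp at h
        · rw [hpar3 p hp] at h; simp at h
      · rintro ⟨hp, hq⟩
        exact hpar1 p hp hq
    have hlo : ∀ (p : Dec col) (o : O), par (Sum.inl p) ≠ Sum.inr (some o) := by
      intro p o h
      by_cases hp : p.1.2 = 0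
      · rcases hq : parC p.1.1 with _ | y
        · rw [hpar1 p hp hq] at h; simp at h
        · rw [hpar2 p y hp hq] at h; simp at h
      · rw [hpar3 p hp] at h; simp at h
    rintro (p | _ | o) (q | _ | o')
    · rw [treeOf_ll, hll, hll, hat_adj, h2]
      simp only [ne_eq, reduceCtorEq, not_false_eq_true, true_and]
      constructor
      · rintro (⟨a, b, c | c⟩ | ⟨a, b | b⟩)
        · exact Or.inl (Or.inl ⟨a, b, c⟩)
        · exact Or.inr (Or.inl ⟨b, a, c⟩)
        · exact Or.inr (Or.inr ⟨b.2, b.1, a.symm⟩)
        · exact Or.inl (Or.inr ⟨b.1, b.2, a⟩)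
      · rintro ((⟨a, b, c⟩ | ⟨a, b, c⟩) | (⟨a, b, c⟩ | ⟨a, b, c⟩))
        · exact Or.inl ⟨a, b, Or.inl c⟩
        · exact Or.inr ⟨c, Or.inr ⟨a, b⟩⟩
        · exact Or.inl ⟨b, a, Or.inr c⟩
        · exact Or.inr ⟨c.symm, Or.inl ⟨b, a⟩⟩
    · rw [treeOf_ln, hln]
      simp
    · rw [treeOf_lo]
      simp only [hlo, and_false, false_or, par, Sum.inl.injEq]
      simp
    · rw [treeOf_nl, hln]
      simp
    · refine iff_of_false (treeOf_rr _ _ _ _ _) ?_
      simp
    · refine iff_of_false (treeOf_rr _ _ _ _ _) ?_
      simp [par]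
    · rw [treeOf_ol]
      simp only [hlo, and_false, or_false, par, Sum.inl.injEq]
      simp
    · refine iff_of_false (treeOf_rr _ _ _ _ _) ?_
      simp [par]
    · refine iff_of_false (treeOf_rr _ _ _ _ _) ?_
      simp [par]

section

variable {r m : ℕ}

/-- the parent function of the coloured forest -/
def parC : Core r m → Option (Core r m)
  | Core.u _ _ _ => none
  | Core.x _ => none
  | Core.d c false => some (Core.z (fin c false))
  | Core.d c true => some (Core.d c false)
  | Core.z c => Fin.cases none (fun c' => some (Core.d c' true)) c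
  | Core.y c s _ => some (Core.d c s)

/-- the rank of the coloured forest -/
def rkC : Core r m → ℕ
  | Core.u _ _ _ => 0
  | Core.x _ => 0
  | Core.d c s => 3 * c + 2 + (if s then 1 else 0)
  | Core.z c => 3 * c + 1
  | Core.y c _ _ => 3 * c + 5

lemma parC_z_zero : parC (Core.z 0 : Core r m) = none := rfl
lemma parC_z_succ (c : Fin (r * r)) :
    parC (Core.z (fin c true) : Core r m) = some (Core.d c true) := rfl

lemma rkC_parC (p q : Core r m) (h : parC p = some q) : rkC q < rkC p := by
  cases p with
  | u _ _ _ => simp [parC] at h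
  | x _ => simp [parC] at h
  | d c s =>
    cases s with
    | false =>
      simp only [parC, Option.some.injEq] at h
      rw [← h]
      simp only [rkC, fin_val]
      simp
    | true =>
      simp only [parC, Option.some.injEq] at h
      rw [← h]
      simp only [rkC]
      simp
  | z c =>
    induction c using Fin.cases with
    | zero => rw [parC_z_zero] at h; simp at h
    | succ c =>
      have : parC (Core.z c.succ : Core r m) = some (Core.d c true) := rfl
      rw [this] at h
      simp only [Option.some.injEq] at h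
      rw [← h]
      simp only [rkC, Fin.val_succ]
      simp
      omega
  | y c s b =>
    simp only [parC, Option.some.injEq] at h
    rw [← h]
    simp only [rkC]
    split_ifs <;> omega

lemma frel_parC (p q : Core r m) (h : frel p q) : parC p = some q ∨ parC q = some p := by
  rcases h with ⟨c, s, b, rfl, rfl⟩ | ⟨c, s, rfl, rfl⟩ | ⟨c, rfl, rfl⟩
  · exact Or.inr rfl
  · cases s
    · exact Or.inl rfl
    · exact Or.inr rfl
  · exact Or.inr rfl

lemma parC_frel (p q : Core r m) (h : parC p = some q) : (FF r m).Adj p q := by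
  cases p with
  | u _ _ _ => simp [parC] at h
  | x _ => simp [parC] at h
  | d c s =>
    cases s with
    | false =>
      simp only [parC, Option.some.injEq] at h
      rw [← h]
      exact Or.inl (Or.inr (Or.inl ⟨c, false, rfl, rfl⟩))
    | true =>
      simp only [parC, Option.some.injEq] at h
      rw [← h]
      exact Or.inr (Or.inr (Or.inr ⟨c, rfl, rfl⟩))
  | z c =>
    induction c using Fin.cases with
    | zero => rw [parC_z_zero] at h; simp at h
    | succ c =>
      have : parC (Core.z c.succ : Core r m) = some (Core.d c true) := rfl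
      rw [this] at h
      simp only [Option.some.injEq] at h
      rw [← h]
      exact Or.inr (Or.inr (Or.inl ⟨c, true, rfl, rfl⟩))
  | y c s b =>
    simp only [parC, Option.some.injEq] at h
    rw [← h]
    exact Or.inr (Or.inl ⟨c, s, b, rfl, rfl⟩)

lemma FF_adj (p q : Core r m) : (FF r m).Adj p q ↔ parC p = some q ∨ parC q = some p := by
  constructor
  · rintro (h | h)
    · exact frel_parC p q h
    · exact (frel_parC q p h).symm
  · rintro (h | h)
    · exact parC_frel p q h
    · exact (parC_frel q p h).symm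

/-- the core as a sum type -/
def coreEquiv : (Bool × Fin r × Fin m) ⊕ Fin (r * r + 1) ⊕ (Fin (r * r) × Bool) ⊕
    Fin (r * r + 1) ⊕ (Fin (r * r) × Bool × Bool) ≃ Core r m where
  toFun p := match p with
    | Sum.inl (s, i, k) => Core.u s i k
    | Sum.inr (Sum.inl c) => Core.x c
    | Sum.inr (Sum.inr (Sum.inl (c, s))) => Core.d c s
    | Sum.inr (Sum.inr (Sum.inr (Sum.inl c))) => Core.z c
    | Sum.inr (Sum.inr (Sum.inr (Sum.inr (c, s, b)))) => Core.y c s b
  invFun p := match p with
    | Core.u s i k => Sum.inl (s, i, k)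
    | Core.x c => Sum.inr (Sum.inl c)
    | Core.d c s => Sum.inr (Sum.inr (Sum.inl (c, s)))
    | Core.z c => Sum.inr (Sum.inr (Sum.inr (Sum.inl c)))
    | Core.y c s b => Sum.inr (Sum.inr (Sum.inr (Sum.inr (c, s, b))))
  left_inv p := by rcases p with ⟨s, i, k⟩ | c | ⟨c, s⟩ | c | ⟨c, s, b⟩ <;> rfl
  right_inv p := by cases p <;> rfl

instance : Fintype (Core r m) := Fintype.ofEquiv _ coreEquiv

lemma card_le (hr : 1 ≤ r) :
    Fintype.card (Dec (colr : Core r m → ℕ)) ≤ 8 * r * m + 96 * r ^ 4 := by
  rw [card_dec]
  rw [← Equiv.sum_comp coreEquiv]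
  simp only [Fintype.sum_sum_type]
  have e1 : ∑ x : Bool × Fin r × Fin m, (colr (coreEquiv (Sum.inl x)) + 1) = 8 * r * m := by
    have : ∀ x : Bool × Fin r × Fin m, colr (coreEquiv (Sum.inl x)) + 1 = 4 := fun x => rfl
    simp only [this, Finset.sum_const, Finset.card_univ, Fintype.card_prod, Fintype.card_bool,
      Fintype.card_fin, smul_eq_mul]
    ring
  have e2 : ∑ x : Fin (r * r + 1), (colr (coreEquiv (Sum.inr (Sum.inl x)) : Core r m) + 1) =
      4 * (r * r + 1) := by
    have : ∀ x : Fin (r * r + 1), colr (coreEquiv (Sum.inr (Sum.inl x)) : Core r m) + 1 = 4 :=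
      fun x => rfl
    simp only [this, Finset.sum_const, Finset.card_univ, Fintype.card_fin, smul_eq_mul]
    ring
  have e3 : ∑ x : Fin (r * r) × Bool,
      (colr (coreEquiv (Sum.inr (Sum.inr (Sum.inl x))) : Core r m) + 1) = 8 * (r * r) := by
    have : ∀ x : Fin (r * r) × Bool,
        colr (coreEquiv (Sum.inr (Sum.inr (Sum.inl x))) : Core r m) + 1 = 4 := fun x => rfl
    simp only [this, Finset.sum_const, Finset.card_univ, Fintype.card_fin, smul_eq_mul,
      Fintype.card_prod, Fintype.card_bool]
    ring
  have e4 : ∑ x : Fin (r * r + 1),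
      (colr (coreEquiv (Sum.inr (Sum.inr (Sum.inr (Sum.inl x)))) : Core r m) + 1) ≤
      (r * r + 1) * (6 + 2 * (r * r)) := by
    have : ∀ x : Fin (r * r + 1),
        colr (coreEquiv (Sum.inr (Sum.inr (Sum.inr (Sum.inl x)))) : Core r m) + 1 ≤
          6 + 2 * (r * r) := by
      intro x
      show 5 + 2 * (x : ℕ) + 1 ≤ _
      have := x.2
      omega
    refine (Finset.sum_le_sum (fun x _ => this x)).trans ?_
    simp only [Finset.sum_const, Finset.card_univ, Fintype.card_fin, smul_eq_mul]
    exact le_rfl
  have e5 : ∑ x : Fin (r * r) × Bool × Bool,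
      (colr (coreEquiv (Sum.inr (Sum.inr (Sum.inr (Sum.inr x)))) : Core r m) + 1) ≤
      (r * r * 4) * (6 + 10 * (r * r)) := by
    have : ∀ x : Fin (r * r) × Bool × Bool,
        colr (coreEquiv (Sum.inr (Sum.inr (Sum.inr (Sum.inr x)))) : Core r m) + 1 ≤
          6 + 10 * (r * r) := by
      rintro ⟨c, s, b⟩
      show 5 + 2 * (r * r + 1 + 4 * (c : ℕ) + (if s then 2 else 0) + (if b then 1 else 0)) + 1 ≤ _
      have := c.2
      split_ifs <;> omega
    refine (Finset.sum_le_sum (fun x _ => this x)).trans ?_
    simp only [Finset.sum_const, Finset.card_univ, Fintype.card_fin, smul_eq_mul,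
      Fintype.card_prod, Fintype.card_bool]
    apply le_of_eq
    ring
  rw [e1, e2, e3]
  have h1 : 1 ≤ r ^ 4 := Nat.one_le_pow _ _ hr
  have h2 : r * r ≤ r ^ 4 := by
    calc r * r = r ^ 2 := by ring
      _ ≤ r ^ 4 := Nat.pow_le_pow_right hr (by norm_num)
  have h3 : (r * r + 1) * (6 + 2 * (r * r)) = 2 * r ^ 4 + 8 * (r * r) + 6 := by ring
  have h4 : (r * r * 4) * (6 + 10 * (r * r)) = 40 * r ^ 4 + 24 * (r * r) := by ring
  rw [h3] at e4
  rw [h4] at e5
  omega

end

end TB
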