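import Pool.Agent.Q189.TB5

/-!
# Slow tree processes
-/

set_option autoImplicit false

namespace TB

open SimpleGraph Function

/-- the slow trees -/
theorem exists_slow_tree (r m t : ℕ) (hr : 1 ≤ r) (hm : 1 ≤ m)
    (ht : 32 * r * m + 385 * r ^ 4 ≤ t) :
    ∃ T : SimpleGraph (Fin t), T.IsTree ∧ ∀ n, t ≤ n → r * r * (2 * m + 1) ≤ maxTime T n := by
  classical
  let S := Dec (colr : Core r m → ℕ)
  have hcard : Fintype.card S ≤ 8 * r * m + 96 * r ^ 4 := card_le hr
  have hr4 : 1 ≤ r ^ 4 := Nat.one_le_pow _ _ hr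
  have ht' : 4 * Fintype.card S + 1 ≤ t := by
    have : 32 * r * m = 4 * (8 * r * m) := by ring
    omega
  obtain ⟨q, hq⟩ := Nat.exists_eq_add_of_le ht'
  let s₀ : S := cr colr (Core.x 0)
  let O := (S × Fin 3) ⊕ Fin q
  let own : O → S := Sum.elim Prod.fst (fun _ => s₀)
  have h3 : ThreeLeaves own := by
    intro s
    have hne : ∀ i j : Fin 3, i ≠ j → (Sum.inl (s, i) : O) ≠ Sum.inl (s, j) := by
      intro i j hij h
      exact hij (congrArg Prod.snd (Sum.inl_injective h))
    exact ⟨Sum.inl (s, 0), Sum.inl (s, 1), Sum.inl (s, 2), rfl, rfl, rfl, hne _ _ (by decide),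
      hne _ _ (by decide), hne _ _ (by decide)⟩
  let R : Set S := {p | p.1.2 = 0 ∧ parC p.1.1 = none}
  have htree : (treeOf (hat colr (FF r m)) own R).IsTree :=
    treeOf_hat_isTree colr (FF r m) parC rkC rkC_parC FF_adj own
  have hO : Fintype.card (Option O) = 3 * Fintype.card S + q + 1 := by
    rw [Fintype.card_option]
    simp only [O, Fintype.card_sum, Fintype.card_prod, Fintype.card_fin]
    ring
  have hVT : Fintype.card (S ⊕ Option O) = t := by
    rw [Fintype.card_sum, hO, hq]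
    ring
  let eT : S ⊕ Option O ≃ Fin t := Fintype.equivFinOfCardEq hVT
  let T : SimpleGraph (Fin t) := (treeOf (hat colr (FF r m)) own R).map eT.toEmbedding
  have hT : ∀ u v, T.Adj (eT u) (eT v) ↔ (treeOf (hat colr (FF r m)) own R).Adj u v := by
    intro u v
    exact SimpleGraph.map_adj_apply (f := eT.toEmbedding)
  refine ⟨T, ?_, ?_⟩
  · let iso : treeOf (hat colr (FF r m)) own R ≃g T := ⟨eT, fun {a b} => hT a b⟩
    exact iso.isTree_iff.mp htree
  intro n hn
  let β := Fin (n - Fintype.card S)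
  have hβ : Fintype.card (Option O) ≤ Fintype.card β := by
    rw [hO, Fintype.card_fin]
    omega
  obtain ⟨g⟩ : Nonempty (Option O ↪ β) := Function.Embedding.nonempty_of_card_le hβ
  have hVG : Fintype.card (S ⊕ β) = n := by
    rw [Fintype.card_sum, Fintype.card_fin]
    omega
  let eG : S ⊕ β ≃ Fin n := Fintype.equivFinOfCardEq hVG
  let G₀ : SimpleGraph (S ⊕ β) := hostOf β (hat colr (KK r m 0))
  let G : SimpleGraph (Fin n) := G₀.map eG.toEmbedding
  have hG : ∀ a b, G.Adj (eG a) (eG b) ↔ G₀.Adj a b := by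
    intro a b
    exact SimpleGraph.map_adj_apply (f := eG.toEmbedding)
  have htime : runTime T G = runTime (treeOf (hat colr (FF r m)) own R) G₀ :=
    runTime_transport eG eT hT hG
  have hproc : ∀ i, process (treeOf (hat colr (FF r m)) own R) G₀ i =
      hostOf β (hat colr (processCol colr (FF r m) (KK r m 0) i)) := by
    intro i
    rw [process_hostOf h3 g, process_hat colr_ge colr_odd]
  have hN : 1 ≤ r * r * (2 * m + 1) := Nat.mul_pos (Nat.mul_pos hr hr) (by omega)
  have hle : r * r * (2 * m + 1) ≤ runTime (treeOf (hat colr (FF r m)) own R) G₀ := by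
    have h := le_runTime (treeOf (hat colr (FF r m)) own R) G₀ (r * r * (2 * m + 1) - 1) (by
      rw [hproc, hproc, Nat.sub_add_cancel hN]
      intro h
      exact last_round hr hm (hat_injective _ (hostOf_injective h)))
    rwa [Nat.sub_add_cancel hN] at h
  calc r * r * (2 * m + 1) ≤ runTime T G := by rw [htime]; exact hle
    _ ≤ maxTime T n := le_ciSup (f := fun G : SimpleGraph (Fin n) => runTime T G)
      (Set.finite_range _).bddAbove G

/-- `M^*(t) ≥ r t` for all `t ≥ 10⁹ r⁴` -/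
theorem Mstar_ge (r t : ℕ) (ht : 10 ^ 9 * r ^ 4 ≤ t) : ((r * t : ℕ) : ℕ∞) ≤ Mstar t := by
  rcases Nat.eq_zero_or_pos r with rfl | hr
  · simp
  -- the parameters
  obtain ⟨R, hR⟩ : ∃ R, R = 32 * r := ⟨_, rfl⟩
  have hr4 : 1 ≤ r ^ 4 := Nat.one_le_pow _ _ hr
  have hrr4 : r ≤ r ^ 4 := Nat.le_self_pow (by norm_num) r
  have hR4 : R ^ 4 = 1048576 * r ^ 4 := by rw [hR]; ring
  obtain ⟨m, hm⟩ : ∃ m, m = (t - 385 * R ^ 4) / (32 * R) := ⟨_, rfl⟩
  have hRpos : 0 < 32 * R := by omega
  have h1 : 385 * R ^ 4 + 32 * R ≤ t := by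
    rw [hR4]
    omega
  have hm1 : 1 ≤ m := by
    rw [hm]
    exact (Nat.le_div_iff_mul_le hRpos).mpr (by omega)
  have hm2 : m * (32 * R) ≤ t - 385 * R ^ 4 := by
    rw [hm]; exact Nat.div_mul_le_self _ _
  have hm3 : t - 385 * R ^ 4 < (m + 1) * (32 * R) := by
    rw [hm]
    have := Nat.lt_div_mul_add (a := t - 385 * R ^ 4) hRpos
    linarith
  obtain ⟨T, hT, hmax⟩ := exists_slow_tree R m t (by omega) hm1 (by
    have : 32 * R * m = m * (32 * R) := by ring
    omega)
  have hN : r * t ≤ R * R * (2 * m + 1) := by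
    have e1 : R * R * (2 * m + 1) = 2 * r * ((m + 1) * (32 * R)) - R * R := by
      rw [hR]
      have : 2 * r * ((m + 1) * (32 * (32 * r))) =
        32 * r * (32 * r) * (2 * m + 1) + 32 * r * (32 * r) := by ring
      rw [this, Nat.add_sub_cancel]
    have e2 : R * R = 1024 * (r * r) := by rw [hR]; ring
    have e3 : 2 * r * (t - 385 * R ^ 4) + 2 * r ≤ 2 * r * ((m + 1) * (32 * R)) := by
      have : 2 * r * (t - 385 * R ^ 4) + 2 * r = 2 * r * (t - 385 * R ^ 4 + 1) := by ring
      rw [this]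
      exact Nat.mul_le_mul_left _ hm3
    have e4 : 2 * r * (t - 385 * R ^ 4) = 2 * (r * t) - 2 * r * (385 * R ^ 4) := by
      rw [Nat.mul_sub]
      congr 1
      ring
    have e5 : 2 * r * (385 * R ^ 4) + R * R ≤ r * t := by
      rw [e2]
      have : 2 * r * (385 * R ^ 4) + 1024 * (r * r) = r * (770 * R ^ 4 + 1024 * r) := by ring
      rw [this]
      apply Nat.mul_le_mul_left
      rw [hR4]
      omega
    omega
  refine le_trans ?_ (le_iSup (fun T : {T : SimpleGraph (Fin t) // T.IsTree} =>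
    Filter.limsup (fun n : ℕ => (maxTime T.1 n : ℕ∞)) Filter.atTop) ⟨T, hT⟩)
  apply Filter.le_limsup_of_frequently_le'
  apply Filter.Eventually.frequently
  filter_upwards [Filter.eventually_ge_atTop t] with n hn
  exact_mod_cast hN.trans (hmax n hn)

end TB
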