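import Mathlib

/-!
# A cycle for the iteration of perimeter maximising triangles
-/

set_option autoImplicit false

open scoped Pointwise ComplexConjugate

namespace Q189.TriCycle

/-- cube root of unity -/
noncomputable def ζ : ℂ := ⟨-1 / 2, √3 / 2⟩

/-- the half angle point -/
noncomputable def h : ℂ := ⟨60 / 61, 11 / 61⟩

/-- the radius -/
noncomputable def r : ℝ := 1 / 10

theorem s3 : √3 * √3 = 3 := Real.mul_self_sqrt (by norm_num)

theorem s3pos : 0 < √3 := by positivity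

theorem s3lb : 1.732 ≤ √3 := Real.le_sqrt_of_sq_le (by norm_num)

theorem s3ub : √3 ≤ 1.733 := by
  rw [Real.sqrt_le_left (by norm_num)]; norm_num

theorem ζ3 : ζ ^ 3 = 1 := by
  have e : ζ ^ 3 = ζ * ζ * ζ := by ring
  rw [e]
  apply Complex.ext
  · simp only [ζ, Complex.mul_re, Complex.mul_im, Complex.one_re]
    nlinarith [s3]
  · simp only [ζ, Complex.mul_re, Complex.mul_im, Complex.one_im]
    have : √3 * √3 * √3 = 3 * √3 := by rw [s3]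
    nlinarith [s3, this]

theorem conj_ζ : conj ζ = ζ ^ 2 := by
  rw [sq]
  apply Complex.ext
  · simp only [ζ, Complex.mul_re, Complex.conj_re]
    nlinarith [s3]
  · simp only [ζ, Complex.mul_im, Complex.conj_im]
    ring

theorem norm_ζ : ‖ζ‖ = 1 := by
  have h1 : ‖ζ‖ ^ 3 = 1 := by rw [← norm_pow, ζ3, norm_one]
  exact (pow_eq_one_iff_of_nonneg (norm_nonneg _) (by norm_num)).1 h1

theorem nle (z : ℂ) (v : ℝ) (hv : 0 ≤ v) (hz : z.re ^ 2 + z.im ^ 2 ≤ v ^ 2) : ‖z‖ ≤ v := by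
  apply le_of_sq_le_sq _ hv
  rw [Complex.sq_norm, Complex.normSq_apply]
  nlinarith

theorem neq (z : ℂ) (v : ℝ) (hv : 0 ≤ v) (hz : z.re ^ 2 + z.im ^ 2 = v ^ 2) : ‖z‖ = v := by
  have : ‖z‖ ^ 2 = v ^ 2 := by
    rw [Complex.sq_norm, Complex.normSq_apply]
    nlinarith
  exact (pow_left_inj₀ (norm_nonneg _) hv (by norm_num)).1 this

/-- the centres -/
def Q : Set ℂ := {q | ∃ (k : ℕ) (η : ℂ), (η = h ∨ η = conj h) ∧ q = ζ ^ k * (η ^ 2 - r * η)}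

/-- the body -/
def K : Set ℂ := convexHull ℝ Q + Metric.closedBall 0 r

theorem pow_red (k : ℕ) : ζ ^ k = 1 ∨ ζ ^ k = ζ ∨ ζ ^ k = ζ ^ 2 := by
  have h1 : ζ ^ k = ζ ^ (k % 3) := by
    conv_lhs => rw [← Nat.div_add_mod k 3, pow_add, pow_mul, ζ3, one_pow, one_mul]
  rw [h1]
  have : k % 3 = 0 ∨ k % 3 = 1 ∨ k % 3 = 2 := by omega
  rcases this with e | e | e <;> rw [e] <;> simp

/-- the ellipse lemma -/
theorem ellipse (p a b n : ℂ) (κ d1 d2 : ℝ) (hn : ‖n‖ = 1) (h1 : 0 < d1) (h2 : 0 < d2)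
    (e1 : ‖p - a‖ = d1) (e2 : ‖p - b‖ = d2)
    (hk : (d1 : ℂ)⁻¹ * (p - a) + (d2 : ℂ)⁻¹ * (p - b) = κ * n)
    (ρ : ℝ) (hρ : 0 < ρ) (hκ : ρ * (1 / d1 + 1 / d2) ≤ κ) (u : ℂ) (hu : ‖u‖ ≤ ρ) :
    ‖p - ρ * n + u - a‖ + ‖p - ρ * n + u - b‖ ≤ d1 + d2 := by
  set w : ℂ := u - ρ * n with hw
  have key : ∀ (c : ℂ) (d : ℝ), 0 < d → ‖p - c‖ = d →
      ‖p - c + w‖ ≤ d + inner ℝ ((d : ℂ)⁻¹ * (p - c)) w + ‖w‖ ^ 2 / (2 * d) := by
    intro c d hd hc
    have e : ‖p - c + w‖ ^ 2 = d ^ 2 + 2 * inner ℝ (p - c) w + ‖w‖ ^ 2 := by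
      rw [norm_add_sq_real, hc]
    have e' : inner ℝ ((d : ℂ)⁻¹ * (p - c)) w = d⁻¹ * inner ℝ (p - c) w := by
      have : (d : ℂ)⁻¹ * (p - c) = (d⁻¹ : ℝ) • (p - c) := by
        rw [Complex.real_smul]; push_cast; rfl
      rw [this, real_inner_smul_left]
    rw [e']
    have hI : |inner ℝ (p - c) w| ≤ d * ‖w‖ := by
      have := abs_real_inner_le_norm (p - c) w
      rwa [hc] at this
    have hI1 := (abs_le.1 hI).1
    have hR : 0 ≤ d + d⁻¹ * inner ℝ (p - c) w + ‖w‖ ^ 2 / (2 * d) := by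
      have : d + d⁻¹ * inner ℝ (p - c) w + ‖w‖ ^ 2 / (2 * d) =
          (2 * d ^ 2 + 2 * inner ℝ (p - c) w + ‖w‖ ^ 2) / (2 * d) := by
        field_simp
      rw [this]
      apply div_nonneg _ (by positivity)
      nlinarith [sq_nonneg (d - ‖w‖), norm_nonneg w]
    apply le_of_sq_le_sq _ hR
    rw [e]
    set I := inner ℝ (p - c) w with hI'
    have : (d + d⁻¹ * I + ‖w‖ ^ 2 / (2 * d)) ^ 2 - (d ^ 2 + 2 * I + ‖w‖ ^ 2) =
        (d⁻¹ * I + ‖w‖ ^ 2 / (2 * d)) ^ 2 := by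
      field_simp
      ring
    nlinarith [sq_nonneg (d⁻¹ * I + ‖w‖ ^ 2 / (2 * d))]
  have k1 := key a d1 h1 e1
  have k2 := key b d2 h2 e2
  have r1 : p - ρ * n + u - a = p - a + w := by rw [hw]; ring
  have r2 : p - ρ * n + u - b = p - b + w := by rw [hw]; ring
  rw [r1, r2]
  have hin : inner ℝ ((d1 : ℂ)⁻¹ * (p - a)) w + inner ℝ ((d2 : ℂ)⁻¹ * (p - b)) w =
      κ * inner ℝ n w := by
    rw [← inner_add_left, hk]
    have : (κ : ℂ) * n = κ • n := by rw [Complex.real_smul]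
    rw [this, real_inner_smul_left]
  have hρn : (ρ : ℂ) * n = ρ • n := by rw [Complex.real_smul]
  have hnw : inner ℝ n w = inner ℝ n u - ρ := by
    rw [hw, hρn, inner_sub_right, real_inner_smul_right, real_inner_self_eq_norm_sq, hn]
    ring
  have hww : ‖w‖ ^ 2 = ‖u‖ ^ 2 - 2 * ρ * inner ℝ n u + ρ ^ 2 := by
    rw [hw, hρn, norm_sub_sq_real, real_inner_smul_right, norm_smul, hn,
      Real.norm_of_nonneg hρ.le, real_inner_comm]
    ring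
  have hnu : inner ℝ n u ≤ ρ := by
    have := real_inner_le_norm n u
    rw [hn, one_mul] at this
    linarith
  have hu2 : ‖u‖ ^ 2 ≤ ρ ^ 2 := pow_le_pow_left₀ (norm_nonneg _) hu 2
  have hw2 : ‖w‖ ^ 2 ≤ 2 * ρ * (ρ - inner ℝ n u) := by
    rw [hww]; nlinarith
  have hfin : κ * inner ℝ n w + ‖w‖ ^ 2 / (2 * d1) + ‖w‖ ^ 2 / (2 * d2) ≤ 0 := by
    have e3 : ‖w‖ ^ 2 / (2 * d1) + ‖w‖ ^ 2 / (2 * d2) = ‖w‖ ^ 2 / 2 * (1 / d1 + 1 / d2) := by
      field_simp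
    have hs : 0 ≤ 1 / d1 + 1 / d2 := by positivity
    have e4 : ‖w‖ ^ 2 / 2 * (1 / d1 + 1 / d2) ≤
        ρ * (ρ - inner ℝ n u) * (1 / d1 + 1 / d2) := by
      apply mul_le_mul_of_nonneg_right _ hs
      linarith
    have e5 : (ρ - inner ℝ n u) * (ρ * (1 / d1 + 1 / d2)) ≤ (ρ - inner ℝ n u) * κ :=
      mul_le_mul_of_nonneg_left hκ (by linarith)
    rw [hnw]
    nlinarith
  linarith

/-- the sum of distances grows in the normal direction -/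
theorem grows (p a b n : ℂ) (κ d1 d2 : ℝ) (hn : ‖n‖ = 1) (h1 : 0 < d1) (h2 : 0 < d2)
    (e1 : ‖p - a‖ = d1) (e2 : ‖p - b‖ = d2)
    (hk : (d1 : ℂ)⁻¹ * (p - a) + (d2 : ℂ)⁻¹ * (p - b) = κ * n) (hκ : 0 < κ) (δ : ℝ) (hδ : 0 < δ) :
    d1 + d2 < ‖p + δ * n - a‖ + ‖p + δ * n - b‖ := by
  have key : ∀ (c : ℂ) (d : ℝ), 0 < d → ‖p - c‖ = d →
      d + δ * inner ℝ ((d : ℂ)⁻¹ * (p - c)) n ≤ ‖p + δ * n - c‖ := by
    intro c d hd hc
    have hu : (d : ℂ)⁻¹ * (p - c) = (d⁻¹ : ℝ) • (p - c) := by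
      rw [Complex.real_smul]; push_cast; rfl
    have hun : ‖(d⁻¹ : ℝ) • (p - c)‖ = 1 := by
      rw [norm_smul, hc, norm_inv, Real.norm_of_nonneg hd.le, inv_mul_cancel₀ hd.ne']
    have hle := real_inner_le_norm ((d⁻¹ : ℝ) • (p - c)) (p + δ * n - c)
    rw [hun, one_mul] at hle
    have e : p + δ * n - c = (p - c) + δ • n := by rw [Complex.real_smul]; ring
    refine le_trans (le_of_eq ?_) hle
    rw [e, inner_add_right, real_inner_smul_right, hu, real_inner_smul_left (p - c) (p - c),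
      real_inner_self_eq_norm_sq, hc]
    field_simp
  have k1 := key a d1 h1 e1
  have k2 := key b d2 h2 e2
  have hin : inner ℝ ((d1 : ℂ)⁻¹ * (p - a)) n + inner ℝ ((d2 : ℂ)⁻¹ * (p - b)) n = κ := by
    rw [← inner_add_left, hk]
    have : (κ : ℂ) * n = κ • n := by rw [Complex.real_smul]
    rw [this, real_inner_smul_left, real_inner_self_eq_norm_sq, hn]
    ring
  have : 0 < δ * κ := by positivity
  nlinarith

end Q189.TriCycle
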