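import Pool.Agent.Q189.TriCycle

/-!
# A cycle for the iteration of perimeter maximising triangles: the maximum property
-/

set_option autoImplicit false

open scoped Pointwise ComplexConjugate

namespace Q189.TriCycle

theorem ζ2 : ζ ^ 2 = ⟨-1 / 2, -√3 / 2⟩ := by
  rw [← conj_ζ]
  apply Complex.ext
  · simp [ζ]
  · simp [ζ]; ring

theorem norm_pow_ζ (k : ℕ) : ‖ζ ^ k‖ = 1 := by rw [norm_pow, norm_ζ, one_pow]

section
variable (s : ℝ)

/-- the point with half angle `± ε / 2` -/
noncomputable def eta : ℂ := ⟨60 / 61, s⟩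

variable (hs : s = 11 / 61 ∨ s = -(11 / 61))

include hs in
theorem eta_norm : ‖eta s‖ = 1 := by
  apply neq _ _ zero_le_one
  simp only [eta]
  rcases hs with h | h <;> rw [h] <;> norm_num

theorem eta_sq : eta s ^ 2 = ⟨(60 / 61) ^ 2 - s ^ 2, 2 * (60 / 61) * s⟩ := by
  rw [sq]
  apply Complex.ext
  · simp only [eta, Complex.mul_re]; ring
  · simp only [eta, Complex.mul_im]; ring

/-- the second distance -/
noncomputable def d2 : ℝ := √3 * ((60 / 61) ^ 2 - s ^ 2) - 2 * (60 / 61) * s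

/-- twice the cosine of the half angle -/
noncomputable def kap : ℝ := √3 * (60 / 61) - s

include hs in
theorem ssq : s ^ 2 = 121 / 3721 := by
  rcases hs with h | h <;> rw [h] <;> norm_num

include hs in
theorem d2_pos : 1.2 < d2 s := by
  unfold d2
  have := s3lb
  rcases hs with h | h <;> rw [h] <;> norm_num <;> nlinarith

include hs in
theorem kap_pos : 1.5 < kap s := by
  unfold kap
  have := s3lb
  rcases hs with h | h <;> rw [h] <;> norm_num <;> nlinarith

/-- first focus -/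
noncomputable def fa : ℂ := ζ ^ 2 * eta s ^ 2

/-- second focus -/
noncomputable def fb : ℂ := ζ * conj (eta s) ^ 2

theorem conj_fa : conj (fa s) = fb s := by
  unfold fa fb
  rw [map_mul, map_pow, conj_ζ, map_pow]
  have : (ζ ^ 2) ^ 2 = ζ ^ 3 * ζ := by ring
  rw [this, ζ3, one_mul]

include hs in
theorem dist1 : ‖eta s ^ 2 - fa s‖ = √3 := by
  have e : eta s ^ 2 - fa s = eta s ^ 2 * (1 - ζ ^ 2) := by unfold fa; ring
  rw [e, norm_mul, norm_pow, eta_norm s hs, one_pow, one_mul, ζ2]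
  apply neq _ _ s3pos.le
  simp only [Complex.sub_re, Complex.sub_im, Complex.one_re, Complex.one_im]
  nlinarith [s3]

theorem eq1 : eta s ^ 2 - fa s = √3 * (eta s ^ 2 * ⟨√3 / 2, 1 / 2⟩) := by
  unfold fa
  rw [ζ2]
  have e : (1 : ℂ) - ⟨-1 / 2, -√3 / 2⟩ = √3 * ⟨√3 / 2, 1 / 2⟩ := by
    apply Complex.ext
    · simp only [Complex.sub_re, Complex.one_re, Complex.mul_re, Complex.ofReal_re,
        Complex.ofReal_im]
      nlinarith [s3]
    · simp only [Complex.sub_im, Complex.one_im, Complex.mul_im, Complex.ofReal_re,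
        Complex.ofReal_im]
      ring
  calc eta s ^ 2 - ⟨-1 / 2, -√3 / 2⟩ * eta s ^ 2 = eta s ^ 2 * (1 - ⟨-1 / 2, -√3 / 2⟩) := by ring
    _ = _ := by rw [e]; ring

theorem eq2 : eta s ^ 2 - fb s = d2 s * ⟨√3 / 2, -1 / 2⟩ := by
  unfold fb d2
  rw [← map_pow, eta_sq]
  apply Complex.ext
  · simp only [ζ, Complex.sub_re, Complex.mul_re, Complex.conj_re, Complex.conj_im,
      Complex.ofReal_re, Complex.ofReal_im]
    nlinarith [s3]
  · simp only [ζ, Complex.sub_im, Complex.mul_im, Complex.conj_re, Complex.conj_im,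
      Complex.ofReal_re, Complex.ofReal_im]
    nlinarith [s3]

include hs in
theorem dist2 : ‖eta s ^ 2 - fb s‖ = d2 s := by
  have hd := d2_pos s hs
  rw [eq2, norm_mul, Complex.norm_real, Real.norm_of_nonneg (by linarith)]
  have : ‖(⟨√3 / 2, -1 / 2⟩ : ℂ)‖ = 1 := by
    apply neq _ _ zero_le_one
    simp only
    nlinarith [s3]
  rw [this, mul_one]

include hs in
theorem normal_eq : ((√3 : ℝ) : ℂ)⁻¹ * (eta s ^ 2 - fa s) + ((d2 s : ℝ) : ℂ)⁻¹ * (eta s ^ 2 - fb s) =
    kap s * eta s := by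
  have hd := d2_pos s hs
  have h3 : ((√3 : ℝ) : ℂ) ≠ 0 := by exact_mod_cast s3pos.ne'
  have h4 : ((d2 s : ℝ) : ℂ) ≠ 0 := by
    have : d2 s ≠ 0 := by linarith
    exact_mod_cast this
  rw [eq1, eq2, inv_mul_cancel_left₀ h3, inv_mul_cancel_left₀ h4, eta_sq]
  unfold eta kap
  have h5 := ssq s hs
  apply Complex.ext
  · simp only [Complex.add_re, Complex.mul_re, Complex.ofReal_re, Complex.ofReal_im]
    rw [h5]; ring
  · simp only [Complex.add_im, Complex.mul_im, Complex.ofReal_re, Complex.ofReal_im]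
    nlinarith [h5]

/-- the sum of the distances to the foci -/
noncomputable def FF (P : ℂ) : ℝ := ‖P - fa s‖ + ‖P - fb s‖

theorem FF_conj (P : ℂ) : FF s (conj P) = FF s P := by
  unfold FF
  have h1 : ‖conj P - fa s‖ = ‖P - fb s‖ := by
    rw [← conj_fa, ← Complex.norm_conj (P - conj (fa s)), map_sub, Complex.conj_conj]
  have h2 : ‖conj P - fb s‖ = ‖P - fa s‖ := by
    rw [← conj_fa, ← map_sub, Complex.norm_conj]
  rw [h1, h2, add_comm]

theorem FF_lip (P R : ℂ) : FF s P ≤ FF s R + 2 * ‖P - R‖ := by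
  unfold FF
  have h1 : ‖P - fa s‖ ≤ ‖R - fa s‖ + ‖P - R‖ := by
    have : P - fa s = (R - fa s) + (P - R) := by ring
    rw [this]; exact norm_add_le _ _
  have h2 : ‖P - fb s‖ ≤ ‖R - fb s‖ + ‖P - R‖ := by
    have : P - fb s = (R - fb s) + (P - R) := by ring
    rw [this]; exact norm_add_le _ _
  linarith

include hs in
theorem FF_main (u : ℂ) (hu : ‖u‖ ≤ r) : FF s (eta s ^ 2 - r * eta s + u) ≤ √3 + d2 s := by
  have hd := d2_pos s hs
  have hk := kap_pos s hs
  refine ellipse (eta s ^ 2) (fa s) (fb s) (eta s) (kap s) √3 (d2 s) (eta_norm s hs) s3pos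
    (by linarith) (dist1 s hs) (dist2 s hs) (normal_eq s hs) r (by unfold r; norm_num) ?_ u hu
  have h1 : 1 / √3 ≤ 1 := by
    rw [div_le_one s3pos]; linarith [s3lb]
  have h2 : 1 / d2 s ≤ 1 := by
    rw [div_le_one (by linarith)]; linarith
  unfold r
  nlinarith

include hs in
theorem FF_val : FF s (eta s ^ 2) = √3 + d2 s := by
  unfold FF
  rw [dist1 s hs, dist2 s hs]

include hs in
/-- far points, first kind -/
theorem FF_far1 : FF s (ζ * eta s ^ 2) + 4 * r ≤ √3 + d2 s := by
  have h1 : ‖ζ * eta s ^ 2 - fa s‖ ≤ √3 := by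
    have e : ζ * eta s ^ 2 - fa s = ζ * eta s ^ 2 * (1 - ζ) := by unfold fa; ring
    rw [e, norm_mul, norm_mul, norm_pow, eta_norm s hs, norm_ζ, one_pow, one_mul, one_mul]
    apply nle _ _ s3pos.le
    simp only [ζ, Complex.sub_re, Complex.sub_im, Complex.one_re, Complex.one_im]
    nlinarith [s3]
  have h2 : ‖ζ * eta s ^ 2 - fb s‖ ≤ 2640 / 3721 := by
    have e : ζ * eta s ^ 2 - fb s = ζ * (eta s ^ 2 - conj (eta s ^ 2)) := by
      unfold fb; rw [map_pow]; ring
    rw [e, norm_mul, norm_ζ, one_mul]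
    apply nle _ _ (by norm_num)
    rw [eta_sq]
    simp only [Complex.sub_re, Complex.sub_im, Complex.conj_re, Complex.conj_im]
    have := ssq s hs
    nlinarith
  have h3 : 1.2 < d2 s := d2_pos s hs
  unfold FF r
  norm_num at h3 ⊢
  linarith

include hs in
/-- far points, second kind -/
theorem FF_far2 : FF s (fa s) + 4 * r ≤ √3 + d2 s := by
  have h1 : ‖fa s - fb s‖ ≤ √3 * ((60 / 61) ^ 2 - s ^ 2) + 2 * (60 / 61) * s := by
    have hnn : 0 ≤ √3 * ((60 / 61) ^ 2 - s ^ 2) + 2 * (60 / 61) * s := by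
      have := s3lb
      rw [ssq s hs]
      rcases hs with h | h <;> rw [h] <;> norm_num <;> nlinarith
    apply nle _ _ hnn
    rw [← conj_fa]
    unfold fa
    rw [ζ2, eta_sq]
    simp only [Complex.sub_re, Complex.sub_im, Complex.conj_re, Complex.conj_im, Complex.mul_re,
      Complex.mul_im]
    apply le_of_eq
    ring
  unfold FF r d2
  rw [sub_self, norm_zero, zero_add]
  have := s3lb
  have := s3ub
  rcases hs with h | h
  · rw [h] at h1 ⊢
    norm_num at h1 ⊢
    linarith
  · rw [h] at h1 ⊢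
    norm_num at h1 ⊢
    linarith

theorem h_eq : h = eta (11 / 61) := rfl

theorem conj_h_eq : conj h = eta (-(11 / 61)) := by
  apply Complex.ext <;> simp [h, eta]

theorem conj_eta : conj (eta s) = eta (-s) := by
  apply Complex.ext <;> simp [eta]

include hs in
theorem eta_cases (η : ℂ) (hη : η = h ∨ η = conj h) : η = eta s ∨ η = conj (eta s) := by
  rw [conj_eta]
  rcases hs with h1 | h1 <;> rw [h1] <;> rcases hη with h2 | h2 <;> rw [h2]
  · left; rfl
  · right; exact conj_h_eq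
  · right; rw [neg_neg]; rfl
  · left; exact conj_h_eq

include hs in
theorem FF_Q (q : ℂ) (hq : q ∈ Q) (u : ℂ) (hu : ‖u‖ ≤ r) : FF s (q + u) ≤ √3 + d2 s := by
  obtain ⟨k, η, hη, rfl⟩ := hq
  have hr0 : 0 < r := by unfold r; norm_num
  -- far points
  have far : ∀ (w η' : ℂ), ‖w‖ = 1 → ‖η'‖ = 1 → FF s (w * η' ^ 2) + 4 * r ≤ √3 + d2 s →
      FF s (w * (η' ^ 2 - r * η') + u) ≤ √3 + d2 s := by
    intro w η' hw hη' hle
    have h1 := FF_lip s (w * (η' ^ 2 - r * η') + u) (w * η' ^ 2)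
    have h2 : ‖w * (η' ^ 2 - r * η') + u - w * η' ^ 2‖ ≤ 2 * r := by
      have e : w * (η' ^ 2 - r * η') + u - w * η' ^ 2 = u - (r : ℂ) * (w * η') := by ring
      rw [e]
      calc ‖u - (r : ℂ) * (w * η')‖ ≤ ‖u‖ + ‖(r : ℂ) * (w * η')‖ := norm_sub_le _ _
        _ ≤ r + r := by
          rw [norm_mul, norm_mul, hw, hη', Complex.norm_real, Real.norm_of_nonneg hr0.le]
          linarith
        _ = 2 * r := by ring
    linarith
  have hn1 := eta_norm s hs
  have hn2 : ‖conj (eta s)‖ = 1 := by rw [Complex.norm_conj]; exact hn1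
  rcases eta_cases s hs η hη with h1 | h1 <;> rw [h1] <;> rcases pow_red k with h2 | h2 | h2 <;>
    rw [h2]
  · rw [one_mul]; exact FF_main s hs u hu
  · exact far _ _ norm_ζ hn1 (FF_far1 s hs)
  · exact far _ _ (norm_pow_ζ 2) hn1 (FF_far2 s hs)
  · rw [one_mul, ← FF_conj]
    have e : conj (conj (eta s) ^ 2 - r * conj (eta s) + u) = eta s ^ 2 - r * eta s + conj u := by
      simp
    rw [e]
    exact FF_main s hs _ (by rwa [Complex.norm_conj])
  · refine far _ _ norm_ζ hn2 ?_
    have e : ζ * conj (eta s) ^ 2 = conj (fa s) := by rw [conj_fa]; rfl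
    rw [e, FF_conj]
    exact FF_far2 s hs
  · refine far _ _ (norm_pow_ζ 2) hn2 ?_
    have e : ζ ^ 2 * conj (eta s) ^ 2 = conj (ζ * eta s ^ 2) := by
      rw [map_mul, map_pow, conj_ζ]
    rw [e, FF_conj]
    exact FF_far1 s hs

include hs in
theorem FF_K (P : ℂ) (hP : P ∈ K) : FF s P ≤ √3 + d2 s := by
  obtain ⟨q, hq, u, hu, rfl⟩ := hP
  have hu' : ‖u‖ ≤ r := by simpa using hu
  have hsub : convexHull ℝ Q ⊆ {x | FF s (x + u) ≤ √3 + d2 s} := by
    apply convexHull_min
    · intro x hx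
      exact FF_Q s hs x hx u hu'
    · intro x hx y hy a b ha hb hab
      simp only [Set.mem_setOf_eq] at hx hy ⊢
      have key : ∀ c : ℂ, ‖a • x + b • y + u - c‖ ≤ a * ‖x + u - c‖ + b * ‖y + u - c‖ := by
        intro c
        have e : a • x + b • y + u - c = a • (x + u - c) + b • (y + u - c) := by
          have h1 : u - c = (a + b) • (u - c) := by rw [hab, one_smul]
          calc a • x + b • y + u - c = a • x + b • y + (u - c) := by ring
            _ = a • x + b • y + (a + b) • (u - c) := by rw [← h1]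
            _ = _ := by simp only [add_smul, smul_add, smul_sub]; ring
        rw [e]
        refine (norm_add_le _ _).trans ?_
        rw [norm_smul, norm_smul, Real.norm_of_nonneg ha, Real.norm_of_nonneg hb]
      have k1 := key (fa s)
      have k2 := key (fb s)
      unfold FF at hx hy ⊢
      have h3 : √3 + d2 s = a * (√3 + d2 s) + b * (√3 + d2 s) := by
        rw [← add_mul, hab, one_mul]
      have h4 := mul_le_mul_of_nonneg_left hx ha
      have h5 := mul_le_mul_of_nonneg_left hy hb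
      nlinarith
  exact hsub hq

end

end Q189.TriCycle
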