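import Pool.Agent.Q189.TriCycle2

/-!
# A cycle for the iteration of perimeter maximising triangles: the body
-/

set_option autoImplicit false

open scoped Pointwise ComplexConjugate

namespace Q189.TriCycle

theorem r_pos : 0 < r := by unfold r; norm_num

theorem Q_finite : Q.Finite := by
  have h1 : Q ⊆ (fun wη : ℂ × ℂ => wη.1 * (wη.2 ^ 2 - r * wη.2)) ''
      (({1, ζ, ζ ^ 2} : Set ℂ) ×ˢ ({h, conj h} : Set ℂ)) := by
    rintro q ⟨k, η, hη, rfl⟩
    refine ⟨(ζ ^ k, η), ⟨?_, ?_⟩, rfl⟩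
    · rcases pow_red k with h2 | h2 | h2 <;> simp only [h2] <;> simp
    · rcases hη with h2 | h2 <;> simp only [h2] <;> simp
  refine Set.Finite.subset (Set.Finite.image _ (Set.Finite.prod ?_ ?_)) h1
  · exact Set.toFinite _
  · exact Set.toFinite _

theorem K_compact : IsCompact K :=
  (Q_finite.isCompact_convexHull (𝕜 := ℝ)).add (isCompact_closedBall 0 r)

theorem K_convex : Convex ℝ K := (convex_convexHull ℝ Q).add (convex_closedBall 0 r)

theorem mem_K {q u : ℂ} (hq : q ∈ Q) (hu : ‖u‖ ≤ r) : q + u ∈ K :=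
  ⟨q, subset_convexHull ℝ _ hq, u, by simpa using hu, rfl⟩

theorem Q_mem (k : ℕ) (η : ℂ) (hη : η = h ∨ η = conj h) : ζ ^ k * (η ^ 2 - r * η) ∈ Q :=
  ⟨k, η, hη, rfl⟩

theorem K_interior : (interior K).Nonempty := by
  refine ⟨ζ ^ 0 * (h ^ 2 - r * h), ?_⟩
  rw [mem_interior_iff_mem_nhds]
  refine Filter.mem_of_superset (Metric.ball_mem_nhds _ r_pos) fun x hx => ?_
  have h1 : x = ζ ^ 0 * (h ^ 2 - r * h) + (x - ζ ^ 0 * (h ^ 2 - r * h)) := by ring
  rw [h1]
  refine mem_K (Q_mem 0 h (Or.inl rfl)) ?_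
  rw [← dist_eq_norm]
  exact (Metric.mem_ball.1 hx).le

theorem normal_unique (p n : ℂ) (hn : ‖n‖ = 1) (hK : ∀ x ∈ K, inner ℝ n (x - p) ≤ 0)
    (c u : ℂ) (hc : c ∈ convexHull ℝ Q) (hu : ‖u‖ ≤ r) (hp : p = c + u) : u = r • n := by
  have hx : c + r • n ∈ K := by
    refine ⟨c, hc, r • n, ?_, rfl⟩
    rw [mem_closedBall_zero_iff, norm_smul, hn, mul_one, Real.norm_of_nonneg r_pos.le]
  have h1 := hK _ hx
  have e : c + r • n - p = r • n - u := by rw [hp]; ring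
  rw [e, inner_sub_right, real_inner_smul_right, real_inner_self_eq_norm_sq, hn] at h1
  have h2 : ‖u - r • n‖ ^ 2 ≤ 0 := by
    rw [norm_sub_sq_real, real_inner_smul_right, norm_smul, hn, Real.norm_of_nonneg r_pos.le,
      real_inner_comm]
    have h3 : ‖u‖ ^ 2 ≤ r ^ 2 := pow_le_pow_left₀ (norm_nonneg _) hu 2
    have h4 := r_pos
    nlinarith
  have h3 : ‖u - r • n‖ = 0 := by
    have := sq_nonneg ‖u - r • n‖
    exact pow_eq_zero_iff (by norm_num) |>.1 (le_antisymm h2 this)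
  exact sub_eq_zero.1 (norm_eq_zero.1 h3)

theorem K_smooth (p : ℂ) (hp : p ∈ frontier K) :
    ∃! n : ℂ, ‖n‖ = 1 ∧ ∀ x ∈ K, inner ℝ n (x - p) ≤ 0 := by
  have hpK : p ∈ K := K_compact.isClosed.frontier_subset hp
  have hpi : p ∉ interior K := hp.2
  obtain ⟨f, hf⟩ := geometric_hahn_banach_open_point K_convex.interior isOpen_interior hpi
  have hfK : ∀ x ∈ K, f x ≤ f p := by
    intro x hx
    have h1 : x ∈ closure (interior K) := by
      rw [K_convex.closure_interior_eq_closure_of_nonempty_interior K_interior]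
      exact subset_closure hx
    have h2 : closure (interior K) ⊆ {x | f x ≤ f p} :=
      closure_minimal (fun y hy => (hf y hy).le) (isClosed_le f.continuous continuous_const)
    exact h2 h1
  set n0 : ℂ := (InnerProductSpace.toDual ℝ ℂ).symm f with hn0
  have hin : ∀ x, inner ℝ n0 x = f x := fun x => InnerProductSpace.toDual_symm_apply
  have hn0ne : n0 ≠ 0 := by
    intro h0
    obtain ⟨y, hy⟩ := K_interior
    have h1 := hf y hy
    rw [← hin, ← hin, h0] at h1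
    simp at h1
  have hnpos : 0 < ‖n0‖ := norm_pos_iff.2 hn0ne
  have hex : ‖(‖n0‖⁻¹ : ℝ) • n0‖ = 1 ∧ ∀ x ∈ K, inner ℝ ((‖n0‖⁻¹ : ℝ) • n0) (x - p) ≤ 0 := by
    constructor
    · rw [norm_smul, norm_inv, norm_norm, inv_mul_cancel₀ hnpos.ne']
    · intro x hx
      rw [real_inner_smul_left, inner_sub_right, hin, hin]
      have := hfK x hx
      have h2 : 0 < ‖n0‖⁻¹ := inv_pos.2 hnpos
      exact mul_nonpos_of_nonneg_of_nonpos h2.le (by linarith)
  refine ⟨_, hex, ?_⟩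
  rintro n ⟨hn1, hn2⟩
  obtain ⟨c, hc, u, hu, hcu⟩ := hpK
  have hu' : ‖u‖ ≤ r := by simpa using hu
  have e1 := normal_unique p n hn1 hn2 c u hc hu' hcu.symm
  have e2 := normal_unique p _ hex.1 hex.2 c u hc hu' hcu.symm
  have e3 : r • n = r • ((‖n0‖⁻¹ : ℝ) • n0) := by rw [← e1]; exact e2
  exact smul_right_injective ℂ r_pos.ne' e3

theorem K_rot (k : ℕ) (P : ℂ) (hP : P ∈ K) : ζ ^ k * P ∈ K := by
  obtain ⟨c, hc, u, hu, rfl⟩ := hP
  have hsub : convexHull ℝ Q ⊆ {x | ζ ^ k * x ∈ convexHull ℝ Q} := by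
    apply convexHull_min
    · rintro x ⟨j, η, hη, rfl⟩
      refine subset_convexHull ℝ _ ⟨k + j, η, hη, ?_⟩
      rw [pow_add]; ring
    · intro x hx y hy a b ha hb hab
      have e : ζ ^ k * (a • x + b • y) = a • (ζ ^ k * x) + b • (ζ ^ k * y) := by
        rw [mul_add, mul_smul_comm, mul_smul_comm]
      simp only [Set.mem_setOf_eq] at hx hy ⊢
      rw [e]
      exact convex_convexHull ℝ _ hx hy ha hb hab
  refine ⟨ζ ^ k * c, hsub hc, ζ ^ k * u, ?_, ?_⟩
  · rw [mem_closedBall_zero_iff, norm_mul, norm_pow_ζ, one_mul]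
    simpa using hu
  · change ζ ^ k * c + ζ ^ k * u = ζ ^ k * (c + u)
    ring

theorem norm_rot (k : ℕ) (P c : ℂ) : ‖P - ζ ^ k * c‖ = ‖ζ ^ (2 * k) * P - c‖ := by
  have h1 : ζ ^ (2 * k) * ζ ^ k = 1 := by
    rw [← pow_add]
    have : 2 * k + k = 3 * k := by ring
    rw [this, pow_mul, ζ3, one_pow]
  have e : ζ ^ (2 * k) * P - c = ζ ^ (2 * k) * (P - ζ ^ k * c) := by
    rw [mul_sub, ← mul_assoc, h1, one_mul]
  rw [e, norm_mul, norm_pow_ζ, one_mul]

/-- `P` is a boundary point of `K` which maximizes the sum of the distances to `A` and `B` -/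
def Good (A B P : ℂ) : Prop :=
  P ∈ frontier K ∧ ∀ W ∈ K, ‖W - A‖ + ‖W - B‖ ≤ ‖P - A‖ + ‖P - B‖

theorem Good.symm {A B P : ℂ} (hG : Good A B P) : Good B A P := by
  refine ⟨hG.1, fun W hW => ?_⟩
  have := hG.2 W hW
  linarith

theorem good (s : ℝ) (hs : s = 11 / 61 ∨ s = -(11 / 61)) (k : ℕ) :
    Good (ζ ^ k * fa s) (ζ ^ k * fb s) (ζ ^ k * eta s ^ 2) := by
  have hval : ‖ζ ^ k * eta s ^ 2 - ζ ^ k * fa s‖ + ‖ζ ^ k * eta s ^ 2 - ζ ^ k * fb s‖ =
      √3 + d2 s := by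
    rw [← mul_sub, ← mul_sub, norm_mul, norm_mul, norm_pow_ζ, one_mul, one_mul]
    exact FF_val s hs
  have hmax : ∀ W ∈ K, ‖W - ζ ^ k * fa s‖ + ‖W - ζ ^ k * fb s‖ ≤ √3 + d2 s := by
    intro W hW
    rw [norm_rot, norm_rot]
    exact FF_K s hs _ (K_rot _ _ hW)
  have hηmem : eta s = h ∨ eta s = conj h := by
    rcases hs with h1 | h1 <;> rw [h1]
    · left; rfl
    · right; exact conj_h_eq.symm
  refine ⟨?_, fun W hW => by rw [hval]; exact hmax W hW⟩
  have hmemK : ζ ^ k * eta s ^ 2 ∈ K := by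
    have e : ζ ^ k * eta s ^ 2 = ζ ^ k * (eta s ^ 2 - r * eta s) + ζ ^ k * (r * eta s) := by ring
    rw [e]
    refine mem_K (Q_mem k _ hηmem) ?_
    rw [norm_mul, norm_mul, norm_pow_ζ, eta_norm s hs, Complex.norm_real,
      Real.norm_of_nonneg r_pos.le]
    linarith
  refine ⟨subset_closure hmemK, fun hint => ?_⟩
  obtain ⟨ε, hε, hball⟩ := Metric.isOpen_iff.1 isOpen_interior _ hint
  have hmem : ζ ^ k * (eta s ^ 2 + ((ε / 2 : ℝ) : ℂ) * eta s) ∈ K := by
    apply interior_subset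
    apply hball
    rw [Metric.mem_ball, dist_eq_norm]
    have e : ζ ^ k * (eta s ^ 2 + ((ε / 2 : ℝ) : ℂ) * eta s) - ζ ^ k * eta s ^ 2 =
        ζ ^ k * (((ε / 2 : ℝ) : ℂ) * eta s) := by ring
    rw [e, norm_mul, norm_mul, norm_pow_ζ, eta_norm s hs, Complex.norm_real,
      Real.norm_of_nonneg (by positivity)]
    linarith
  have h1 := hmax _ hmem
  rw [← mul_sub, ← mul_sub, norm_mul, norm_mul, norm_pow_ζ, one_mul, one_mul] at h1
  have hd := d2_pos s hs
  have hk := kap_pos s hs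
  have h2 := grows (eta s ^ 2) (fa s) (fb s) (eta s) (kap s) √3 (d2 s) (eta_norm s hs) s3pos
    (by linarith) (dist1 s hs) (dist2 s hs) (normal_eq s hs) (by linarith) (ε / 2) (by positivity)
  linarith

/-- the six points of the cycle -/
noncomputable def p1 : ℂ := ζ * conj h ^ 2
noncomputable def p2 : ℂ := h ^ 2
noncomputable def p3 : ℂ := ζ ^ 2 * conj h ^ 2
noncomputable def p4 : ℂ := ζ * h ^ 2
noncomputable def p5 : ℂ := conj h ^ 2
noncomputable def p6 : ℂ := ζ ^ 2 * h ^ 2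

theorem hpos : (11 / 61 : ℝ) = 11 / 61 ∨ (11 / 61 : ℝ) = -(11 / 61) := Or.inl rfl
theorem hneg : (-(11 / 61) : ℝ) = 11 / 61 ∨ (-(11 / 61) : ℝ) = -(11 / 61) := Or.inr rfl

theorem conj_conj_h : conj (eta (-(11 / 61))) = h := by
  rw [conj_eta, neg_neg]; rfl

theorem ζ4 (x : ℂ) : ζ ^ 2 * (ζ ^ 2 * x) = ζ * x := by
  have : ζ ^ 2 * (ζ ^ 2 * x) = ζ ^ 3 * ζ * x := by ring
  rw [this, ζ3, one_mul]

theorem ζ3' (x : ℂ) : ζ * (ζ ^ 2 * x) = x := by
  have : ζ * (ζ ^ 2 * x) = ζ ^ 3 * x := by ring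
  rw [this, ζ3, one_mul]

theorem ζ3'' (x : ℂ) : ζ ^ 2 * (ζ * x) = x := by
  have : ζ ^ 2 * (ζ * x) = ζ ^ 3 * x := by ring
  rw [this, ζ3, one_mul]

theorem ζζ (x : ℂ) : ζ * (ζ * x) = ζ ^ 2 * x := by ring

theorem G1 : Good p2 p3 p4 := by
  have := good _ hpos 1
  rw [← h_eq] at this
  unfold fa fb at this
  rw [pow_one, ← h_eq, ζ3', ζζ] at this
  exact this

theorem G2 : Good p3 p4 p5 := by
  have := good _ hneg 0
  unfold fa fb at this
  rw [pow_zero, one_mul, one_mul, one_mul, conj_conj_h, ← conj_h_eq] at this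
  exact this

theorem G3 : Good p4 p5 p6 := by
  have := good _ hpos 2
  rw [← h_eq] at this
  unfold fa fb at this
  rw [← h_eq, ζ4, ζ3''] at this
  exact this

theorem G4 : Good p5 p6 p1 := by
  have := good _ hneg 1
  unfold fa fb at this
  rw [pow_one, conj_conj_h, ← conj_h_eq, ζ3', ζζ] at this
  exact this

theorem G5 : Good p6 p1 p2 := by
  have := good _ hpos 0
  rw [← h_eq] at this
  unfold fa fb at this
  rw [pow_zero, one_mul, one_mul, one_mul, ← h_eq] at this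
  exact this

theorem G6 : Good p1 p2 p3 := by
  have := good _ hneg 2
  unfold fa fb at this
  rw [conj_conj_h, ← conj_h_eq, ζ4, ζ3''] at this
  exact this

theorem hsq : h ^ 2 = ⟨3479 / 3721, 1320 / 3721⟩ := by
  rw [h_eq, eta_sq]
  norm_num

theorem hsq_ne : h ^ 2 ≠ conj h ^ 2 := by
  rw [← map_pow, hsq]
  intro he
  have := congrArg Complex.im he
  simp only [Complex.conj_im] at this
  norm_num at this

theorem ζ_ne : ζ ≠ 0 := by
  intro h0
  have := norm_ζ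
  rw [h0, norm_zero] at this
  norm_num at this

theorem p14 : p1 ≠ p4 := fun he => hsq_ne (mul_left_cancel₀ ζ_ne he).symm
theorem p25 : p2 ≠ p5 := hsq_ne
theorem p36 : p3 ≠ p6 := fun he => hsq_ne (mul_left_cancel₀ (pow_ne_zero 2 ζ_ne) he).symm

theorem not_collinear : ¬ Collinear ℝ {p3, p2, p1} := by
  intro hc
  have hm : p2 ∈ ({p3, p2, p1} : Set ℂ) := by simp
  obtain ⟨v, hv⟩ := (collinear_iff_of_mem hm).1 hc
  obtain ⟨a, ha⟩ := hv p3 (by simp)
  obtain ⟨b, hb⟩ := hv p1 (by simp)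
  have e3 : p3 - p2 = a • v := by rw [ha]; simp
  have e1 : p1 - p2 = b • v := by rw [hb]; simp
  have hdet : (p1 - p2).re * (p3 - p2).im - (p3 - p2).re * (p1 - p2).im = 0 := by
    rw [e3, e1]
    simp only [Complex.smul_re, Complex.smul_im, smul_eq_mul]
    ring
  unfold p1 p2 p3 at hdet
  rw [ζ2, ← map_pow, hsq] at hdet
  simp only [ζ, Complex.sub_re, Complex.sub_im, Complex.mul_re, Complex.mul_im, Complex.conj_re,
    Complex.conj_im] at hdet
  have hs := s3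
  have hp := s3pos
  ring_nf at hdet
  nlinarith

end Q189.TriCycle
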