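import Pool.Agent.Q189.ZonMain

set_option autoImplicit false

open scoped Pointwise ENNReal

namespace Q189.ZonSeg

open Pool.Agent.H902R3.ZA Pool.Agent.H172R2.ZS

theorem mem_seg {n : ℕ} (v x : EuclideanSpace ℝ (Fin n)) :
    x ∈ segment ℝ (-v) v ↔ ∃ t ∈ Set.Icc (-1 : ℝ) 1, x = t • v := by
  constructor
  · rintro ⟨a, b, ha, hb, hab, rfl⟩
    refine ⟨b - a, ⟨by linarith, by linarith⟩, ?_⟩
    module
  · rintro ⟨t, ⟨h1, h2⟩, rfl⟩
    refine ⟨(1 - t) / 2, (1 + t) / 2, by linarith, by linarith, by ring, ?_⟩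
    module

theorem sum_seg {n m : ℕ} (v : Fin m → EuclideanSpace ℝ (Fin n)) :
    (∑ i, segment ℝ (-v i) (v i)) = Zon v := by
  ext x
  rw [Set.mem_fintype_sum]
  constructor
  · rintro ⟨g, hg, rfl⟩
    choose t ht hx using fun i => (mem_seg (v i) (g i)).1 (hg i)
    exact ⟨t, ht, Finset.sum_congr rfl fun i _ => hx i⟩
  · rintro ⟨t, ht, rfl⟩
    exact ⟨fun i => t i • v i, fun i => (mem_seg _ _).2 ⟨t i, ht i, rfl⟩, rfl⟩

theorem zon_convex {n m : ℕ} (v : Fin m → EuclideanSpace ℝ (Fin n)) : Convex ℝ (Zon v) := by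
  rw [← sum_seg]
  exact convex_sum _ fun i _ => convex_segment _ _

theorem zon_neg {n m : ℕ} (v : Fin m → EuclideanSpace ℝ (Fin n)) (x : EuclideanSpace ℝ (Fin n))
    (hx : x ∈ Zon v) : -x ∈ Zon v := by
  obtain ⟨t, ht, rfl⟩ := hx
  refine ⟨fun j => - t j, fun j => ⟨by linarith [(ht j).2], by linarith [(ht j).1]⟩, ?_⟩
  simp [Finset.sum_neg_distrib]

theorem zon_nonempty {n m : ℕ} (v : Fin m → EuclideanSpace ℝ (Fin n)) : (Zon v).Nonempty :=
  ⟨0, fun _ => 0, fun _ => ⟨by norm_num, by norm_num⟩, by simp⟩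

theorem zon_compact {n m : ℕ} (v : Fin m → EuclideanSpace ℝ (Fin n)) : IsCompact (Zon v) := by
  have h : Zon v = (fun t : Fin m → ℝ => ∑ j, t j • v j) '' Set.Icc (fun _ => -1) (fun _ => 1) := by
    ext x
    constructor
    · rintro ⟨t, ht, rfl⟩
      exact ⟨t, ⟨fun j => (ht j).1, fun j => (ht j).2⟩, rfl⟩
    · rintro ⟨t, ht, rfl⟩
      exact ⟨t, fun j => ⟨ht.1 j, ht.2 j⟩, rfl⟩
  rw [h]
  exact isCompact_Icc.image (by fun_prop)

/-- compact limits of zonotopes are zonoids -/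
theorem isZonoid {n : ℕ} (K : Set (EuclideanSpace ℝ (Fin n))) (hK : IsCompact K)
    (hi : (interior K).Nonempty)
    (h : ∀ δ : ℝ, 0 < δ → ∃ m : ℕ, ∃ v : Fin m → EuclideanSpace ℝ (Fin n),
          Metric.hausdorffDist K (Zon v) < δ) : IsZonoid K := by
  have hne : K.Nonempty := hi.mono interior_subset
  have hfin : ∀ (m : ℕ) (v : Fin m → EuclideanSpace ℝ (Fin n)),
      Metric.hausdorffEDist K (Zon v) ≠ ⊤ := fun m v =>
    Metric.hausdorffEDist_ne_top_of_nonempty_of_bounded hne (zon_nonempty v) hK.isBounded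
      (zon_compact v).isBounded
  refine ⟨?_, hK, hi, ?_, ?_⟩
  · intro x hx y hy a b ha hb hab
    rw [← hK.isClosed.closure_eq, Metric.mem_closure_iff]
    intro ε hε
    obtain ⟨m, v, hv⟩ := h (ε / 2) (by linarith)
    obtain ⟨x', hx', hxx⟩ := Metric.exists_dist_lt_of_hausdorffDist_lt hx hv (hfin m v)
    obtain ⟨y', hy', hyy⟩ := Metric.exists_dist_lt_of_hausdorffDist_lt hy hv (hfin m v)
    have hz := zon_convex v hx' hy' ha hb hab
    obtain ⟨z, hz1, hz2⟩ := Metric.exists_dist_lt_of_hausdorffDist_lt' hz hv (hfin m v)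
    refine ⟨z, hz1, ?_⟩
    have h1 : dist (a • x + b • y) (a • x' + b • y') ≤ ε / 2 := by
      calc dist (a • x + b • y) (a • x' + b • y')
          ≤ dist (a • x) (a • x') + dist (b • y) (b • y') := dist_add_add_le _ _ _ _
        _ = a * dist x x' + b * dist y y' := by
            rw [dist_smul₀, dist_smul₀, Real.norm_of_nonneg ha, Real.norm_of_nonneg hb]
        _ ≤ a * (ε / 2) + b * (ε / 2) := by
            gcongr
        _ = ε / 2 := by rw [← add_mul, hab, one_mul]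
    calc dist (a • x + b • y) z ≤ _ := dist_triangle _ (a • x' + b • y') _
      _ < ε / 2 + ε / 2 := by
        rw [dist_comm] at hz2
        linarith
      _ = ε := by ring
  · intro x hx
    rw [← hK.isClosed.closure_eq, Metric.mem_closure_iff]
    intro ε hε
    obtain ⟨m, v, hv⟩ := h (ε / 2) (by linarith)
    obtain ⟨x', hx', hxx⟩ := Metric.exists_dist_lt_of_hausdorffDist_lt hx hv (hfin m v)
    obtain ⟨z, hz1, hz2⟩ := Metric.exists_dist_lt_of_hausdorffDist_lt' (zon_neg v x' hx') hv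
      (hfin m v)
    refine ⟨z, hz1, ?_⟩
    have h1 : dist (-x) (-x') < ε / 2 := by rwa [dist_neg_neg]
    calc dist (-x) z ≤ _ := dist_triangle _ (-x') _
      _ < ε / 2 + ε / 2 := by
        rw [dist_comm] at hz2
        linarith
      _ = ε := by ring
  · intro ε hε
    obtain ⟨m, v, hv⟩ := h ε hε
    exact ⟨m, Zon v, ⟨0, v, by ext x; simp⟩, hv⟩

end Q189.ZonSeg
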