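import Pool.Agent.Q189.Spencer3
import Pool.Agent.Q189.ZonSeg

/-!
# Vector balancing in zonotopes
-/

set_option autoImplicit false

open Finset
open scoped RealInnerProductSpace

namespace Q189.ZonBal

open Pool.Agent.H902R3.ZA Pool.Agent.H172R2.ZS

theorem spanning : ∃ K : ℝ, 0 < K ∧ ∀ (d m : ℕ) (v : Fin m → EuclideanSpace ℝ (Fin d)), 0 < d →
    (∀ x : EuclideanSpace ℝ (Fin d), (∀ j, ⟪v j, x⟫ = 0) → x = 0) →
    ∀ (n : ℕ) (u : Fin n → EuclideanSpace ℝ (Fin d)), (∀ i, u i ∈ Zon v) →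
    ∃ ε : Fin n → ℝ, (∀ i, ε i = 1 ∨ ε i = -1) ∧
      ∃ s : Fin m → ℝ, (∀ j, s j ∈ Set.Icc (-1 : ℝ) 1) ∧
        ∑ i, ε i • u i = (K * Real.sqrt d) • ∑ j, s j • v j := by
  obtain ⟨C, hC, hit⟩ := Q189.ZonMain.iter
  refine ⟨24006 * √C, by positivity, fun d m v hd hv n u hu => ?_⟩
  obtain ⟨N, w, hN, hw⟩ := hit d m v hd hv (1 / 2) (by norm_num) (by norm_num)
  have h1 : ∀ x : EuclideanSpace ℝ (Fin d), ∑ j, |⟪v j, x⟫| ≤ 2 * ∑ k, |⟪w k, x⟫| := by
    intro x
    have := (abs_le.1 (hw x)).1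
    linarith
  have h2 : ∀ x : EuclideanSpace ℝ (Fin d), ∑ k, |⟪w k, x⟫| ≤ 3 / 2 * ∑ j, |⟪v j, x⟫| := by
    intro x
    have := (abs_le.1 (hw x)).2
    linarith
  have z1 := ZSUP_ok d N m w v 2 (by norm_num) h1
  have z2 := ZSUP_ok d m N v w (3 / 2) (by norm_num) h2
  have hu' : ∀ i, ∃ t : Fin N → ℝ, (∀ k, t k ∈ Set.Icc (-1 : ℝ) 1) ∧
      u i = (2 : ℝ) • ∑ k, t k • w k := by
    intro i
    obtain ⟨z, ⟨t, ht, rfl⟩, hz⟩ := z1 (u i) (hu i)
    exact ⟨t, ht, hz⟩
  choose t ht htu using hu'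
  obtain ⟨ε, e1, e2⟩ := Q189.Spencer.spencer t (fun i k => abs_le.2 (ht i k))
  set R : ℝ := 4001 * √(N : ℝ) with hR
  have hsum : ∑ i, ε i • u i = (2 : ℝ) • ∑ k, (∑ i, ε i * t i k) • w k := by
    simp only [htu, Finset.sum_smul, Finset.smul_sum]
    rw [Finset.sum_comm]
    refine Finset.sum_congr rfl fun k _ => Finset.sum_congr rfl fun i _ => ?_
    rw [smul_smul, smul_smul, smul_smul]
    congr 1
    ring
  have hzon : (∑ k, ((∑ i, ε i * t i k) / R) • w k) ∈ Zon w := by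
    refine ⟨fun k => (∑ i, ε i * t i k) / R, fun k => ?_, rfl⟩
    have hNpos : 0 < N := by
      rcases Nat.eq_zero_or_pos N with h | h
      · subst h; exact k.elim0
      · exact h
    have hRpos : 0 < R := by
      have : (0 : ℝ) < N := by exact_mod_cast hNpos
      positivity
    have := abs_le.1 (e2 k)
    constructor
    · rw [le_div_iff₀ hRpos]; linarith
    · rw [div_le_iff₀ hRpos]; linarith
  obtain ⟨y, ⟨s, hs, rfl⟩, hy⟩ := z2 _ hzon
  have hNd : (N : ℝ) ≤ 4 * C * d := by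
    have : C * d / (1 / 2) ^ 2 = 4 * C * d := by ring
    rw [← this]; exact hN
  have hRle : 3 * R ≤ 24006 * √C * √(d : ℝ) := by
    have h3 : √(N : ℝ) ≤ 2 * (√C * √(d : ℝ)) := by
      calc √(N : ℝ) ≤ √(4 * C * d) := Real.sqrt_le_sqrt hNd
        _ = √(2 ^ 2 * (C * d)) := by congr 1; ring
        _ = 2 * (√C * √(d : ℝ)) := by
          rw [Real.sqrt_mul (by norm_num), Real.sqrt_sq (by norm_num), Real.sqrt_mul hC.le]
    rw [hR]
    nlinarith
  have hd0 : (0 : ℝ) < d := by exact_mod_cast hd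
  have hK : 0 < 24006 * √C * √(d : ℝ) := by positivity
  have hR0 : 0 ≤ R := by positivity
  refine ⟨ε, e1, fun j => (3 * R / (24006 * √C * √(d : ℝ))) * s j, fun j => ?_, ?_⟩
  · have hq0 : 0 ≤ 3 * R / (24006 * √C * √(d : ℝ)) := by positivity
    have hq1 : 3 * R / (24006 * √C * √(d : ℝ)) ≤ 1 := by rw [div_le_one hK]; exact hRle
    obtain ⟨s1, s2⟩ := hs j
    constructor <;> nlinarith
  · rw [hsum]
    have hy2 : ∑ k, (∑ i, ε i * t i k) • w k = R • ∑ k, ((∑ i, ε i * t i k) / R) • w k := by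
      rw [Finset.smul_sum]
      refine Finset.sum_congr rfl fun k _ => ?_
      have hNpos : 0 < N := by
        rcases Nat.eq_zero_or_pos N with h | h
        · subst h; exact k.elim0
        · exact h
      have hRpos : 0 < R := by
        have : (0 : ℝ) < N := by exact_mod_cast hNpos
        positivity
      rw [smul_smul, mul_div_cancel₀ _ hRpos.ne']
    rw [hy2, hy]
    simp only [smul_smul, Finset.smul_sum]
    refine Finset.sum_congr rfl fun j _ => ?_
    congr 1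
    have : 24006 * √C * √(d : ℝ) * (3 * R / (24006 * √C * √(d : ℝ)) * s j) = 3 * R * s j := by
      rw [← mul_assoc, mul_div_cancel₀ _ hK.ne']
    rw [this]
    ring

theorem general : ∃ K : ℝ, 0 < K ∧ ∀ (d m : ℕ) (v : Fin m → EuclideanSpace ℝ (Fin d)),
    ∀ (n : ℕ) (u : Fin n → EuclideanSpace ℝ (Fin d)), (∀ i, u i ∈ Zon v) →
    ∃ ε : Fin n → ℝ, (∀ i, ε i = 1 ∨ ε i = -1) ∧
      ∃ s : Fin m → ℝ, (∀ j, s j ∈ Set.Icc (-1 : ℝ) 1) ∧
        ∑ i, ε i • u i = (K * Real.sqrt d) • ∑ j, s j • v j := by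
  obtain ⟨K, hK, h⟩ := spanning
  refine ⟨K, hK, fun d m v n u hu => ?_⟩
  rcases Nat.eq_zero_or_pos d with hd | hd
  · subst hd
    exact ⟨fun _ => 1, fun _ => Or.inl rfl, fun _ => 0, fun _ => ⟨by norm_num, by norm_num⟩,
      Subsingleton.elim _ _⟩
  have hd0 : (0 : ℝ) < d := by exact_mod_cast hd
  have hKd : 0 < K * Real.sqrt d := by positivity
  set Z : Set (EuclideanSpace ℝ (Fin d)) := (fun x => (K * Real.sqrt d) • x) '' Zon v with hZ
  have hZc : IsCompact Z := (Q189.ZonSeg.zon_compact v).image (continuous_const_smul _)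
  have hZne : Z.Nonempty := (Q189.ZonSeg.zon_nonempty v).image _
  let sgn : Bool → ℝ := fun b => if b then 1 else -1
  let F : (Fin n → Bool) → ℝ := fun b => Metric.infDist (∑ i, sgn (b i) • u i) Z
  obtain ⟨b0, hb0⟩ := Finite.exists_min F
  -- approximation
  have happ : ∀ δ : ℝ, 0 < δ → ∃ b : Fin n → Bool, F b ≤ K * Real.sqrt d * (d * δ) := by
    intro δ hδ
    let v' : Fin (m + d) → EuclideanSpace ℝ (Fin d) :=
      Fin.append v (fun i => EuclideanSpace.single i δ)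
    have hspan : ∀ x : EuclideanSpace ℝ (Fin d), (∀ j, ⟪v' j, x⟫ = 0) → x = 0 := by
      intro x hx
      ext i
      have := hx (Fin.natAdd m i)
      simp only [v', Fin.append_right] at this
      rw [EuclideanSpace.inner_single_left] at this
      simpa [hδ.ne'] using this
    have hu' : ∀ i, u i ∈ Zon v' := by
      intro i
      obtain ⟨t, ht, hti⟩ := hu i
      refine ⟨Fin.append t (fun _ => 0), fun j => ?_, ?_⟩
      · refine Fin.addCases (fun j => ?_) (fun j => ?_) j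
        · rw [Fin.append_left]; exact ht j
        · rw [Fin.append_right]; exact ⟨by norm_num, by norm_num⟩
      · rw [hti, Fin.sum_univ_add]
        simp [v']
    obtain ⟨ε, h1, s, hs, hsum⟩ := h d (m + d) v' hd hspan n u hu'
    have hb : ∀ i, ∃ b : Bool, sgn b = ε i := by
      intro i
      rcases h1 i with h | h
      · exact ⟨true, by simp [sgn, h]⟩
      · exact ⟨false, by simp [sgn, h]⟩
    choose b hb using hb
    refine ⟨b, ?_⟩
    have hz : (K * Real.sqrt d) • (∑ j, s (Fin.castAdd d j) • v j) ∈ Z :=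
      ⟨_, ⟨fun j => s (Fin.castAdd d j), fun j => hs _, rfl⟩, rfl⟩
    refine (Metric.infDist_le_dist_of_mem hz).trans ?_
    have e1 : ∑ i, sgn (b i) • u i = (K * Real.sqrt d) • (∑ j, s (Fin.castAdd d j) • v j) +
        (K * Real.sqrt d) • (∑ j, s (Fin.natAdd m j) • EuclideanSpace.single j δ) := by
      simp only [hb]
      rw [hsum, Fin.sum_univ_add, smul_add]
      simp [v']
    rw [e1, dist_eq_norm, add_sub_cancel_left, norm_smul, Real.norm_of_nonneg hKd.le]
    refine mul_le_mul_of_nonneg_left ?_ hKd.le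
    calc ‖∑ j : Fin d, s (Fin.natAdd m j) • EuclideanSpace.single j δ‖
        ≤ ∑ j : Fin d, ‖s (Fin.natAdd m j) • EuclideanSpace.single j δ‖ := norm_sum_le _ _
      _ ≤ ∑ _j : Fin d, δ := by
          refine Finset.sum_le_sum fun j _ => ?_
          rw [norm_smul, EuclideanSpace.norm_single, Real.norm_of_nonneg hδ.le, Real.norm_eq_abs]
          have := abs_le.2 (hs (Fin.natAdd m j))
          nlinarith
      _ = d * δ := by simp
  have hF0 : F b0 = 0 := by
    by_contra hne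
    have hpos : 0 < F b0 := lt_of_le_of_ne Metric.infDist_nonneg (Ne.symm hne)
    obtain ⟨b, hb⟩ := happ (F b0 / (2 * (K * Real.sqrt d * d))) (by positivity)
    have h1 := (hb0 b).trans hb
    have h2 : K * Real.sqrt d * (d * (F b0 / (2 * (K * Real.sqrt d * d)))) = F b0 / 2 := by
      field_simp
    rw [h2] at h1
    linarith
  have hmem : (∑ i, sgn (b0 i) • u i) ∈ Z := by
    rw [← hZc.isClosed.closure_eq, Metric.mem_closure_iff_infDist_zero hZne]
    exact hF0
  obtain ⟨x, ⟨s, hs, rfl⟩, hx⟩ := hmem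
  refine ⟨fun i => sgn (b0 i), fun i => ?_, s, hs, hx.symm⟩
  by_cases hb : b0 i
  · left; simp [sgn, hb]
  · right; simp [sgn, hb]

end Q189.ZonBal
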